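import Pool.Agent.PAH.Targets

set_option autoImplicit false

/-!
# N-AREA: the shoelace formula for the faces of a drawing
-/

namespace Pool.Agent.PAH

open MeasureTheory

variable {V : Type}

namespace NArea

theorem drawn_eq (G : FaceMap V) (p : V → Plane) :
    G.drawn p = ⋃ d ∈ {d | d ∈ G.darts}, segment ℝ (p d.1) (p d.2) := by
  ext x
  simp only [FaceMap.drawn, Set.mem_ofPred_eq, Set.mem_iUnion, exists_prop]

theorem isCompact_seg (a b : Plane) : IsCompact (segment ℝ a b) := by
  rw [← convexHull_pair (𝕜 := ℝ)]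
  exact (Set.toFinite ({a, b} : Set Plane)).isCompact_convexHull ℝ

theorem isCompact_drawn (G : FaceMap V) (p : V → Plane) : IsCompact (G.drawn p) := by
  rw [drawn_eq]
  exact (List.finite_toSet G.darts).isCompact_biUnion (fun d _ => isCompact_seg _ _)

theorem isOpen_face {G : FaceMap V} {p : V → Plane} {w : List V} {R : Set Plane}
    (h : IsFace G p w R) : IsOpen R := by
  obtain ⟨x, hx, rfl⟩ := h.component
  exact (isCompact_drawn G p).isClosed.isOpen_compl.connectedComponentIn

theorem nonempty_face {G : FaceMap V} {p : V → Plane} {w : List V} {R : Set Plane}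
    (h : IsFace G p w R) : R.Nonempty := by
  obtain ⟨x, hx, rfl⟩ := h.component
  exact ⟨x, mem_connectedComponentIn hx⟩

theorem volume_segment (a b : Plane) : volume (segment ℝ a b) = 0 := by
  have hsub : segment ℝ a b ⊆ (affineSpan ℝ ({a, b} : Set Plane) : Set Plane) := by
    rw [← convexHull_pair (𝕜 := ℝ)]
    exact convexHull_subset_affineSpan _
  refine measure_mono_null hsub (Measure.addHaar_affineSubspace _ _ ?_)
  intro h
  have h1 : (affineSpan ℝ ({a, b} : Set Plane)).direction = ⊤ := by
    rw [h]; exact AffineSubspace.direction_top ℝ Plane Plane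
  have h2 : Module.finrank ℝ (affineSpan ℝ ({a, b} : Set Plane)).direction ≤ 1 := by
    rw [direction_affineSpan, vectorSpan_pair]
    exact (finrank_span_le_card _).trans (by simp)
  rw [h1] at h2
  simp at h2

theorem volume_drawn (G : FaceMap V) (p : V → Plane) : volume (G.drawn p) = 0 := by
  rw [drawn_eq]
  exact (measure_biUnion_null_iff (List.finite_toSet G.darts).countable).mpr
    (fun d _ => volume_segment _ _)

theorem ae_fst_ne (c : ℝ) : ∀ᵐ q : Plane, c ≠ q.1 := by
  have h1 : ∀ᵐ x : ℝ, c ≠ x := by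
    rw [ae_iff]
    simp
  have h2 : Measure.QuasiMeasurePreserving (Prod.fst : ℝ × ℝ → ℝ) volume volume :=
    Measure.quasiMeasurePreserving_fst
  exact h2.ae h1

/-- Almost every point is generic. -/
theorem ae_generic (G : FaceMap V) (p : V → Plane) :
    ∀ᵐ q : Plane, (∀ d ∈ G.darts, (p d.1).1 ≠ q.1) ∧ q ∉ G.drawn p := by
  have h1 : ∀ᵐ q : Plane, ∀ d ∈ {d | d ∈ G.darts}, (p d.1).1 ≠ q.1 :=
    (ae_ball_iff (List.finite_toSet G.darts).countable).mpr (fun d _ => ae_fst_ne _)
  have h2 : ∀ᵐ q : Plane, q ∉ G.drawn p := by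
    rw [ae_iff]
    simpa using volume_drawn G p
  filter_upwards [h1, h2] with q hq1 hq2
  exact ⟨hq1, hq2⟩

/-- The open box. -/
def box (H : ℝ) : Set Plane := Set.Ioo (-H) H ×ˢ Set.Ioo (-H) H

theorem measurableSet_box (H : ℝ) : MeasurableSet (box H) := measurableSet_Ioo.prod measurableSet_Ioo

theorem volume_box (H : ℝ) : volume (box H) < ⊤ := by
  rw [box, Measure.volume_eq_prod, Measure.prod_prod]
  exact ENNReal.mul_lt_top (by simp) (by simp)

theorem rc_anti (a b : Plane) (x y : ℝ) : rc a b x y = - rc b a x y := by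
  unfold rc
  by_cases h1 : a.1 < x ∧ x < b.1 ∧ 0 < det3 a b (x, y)
  · have h2 : ¬ (b.1 < x ∧ x < a.1 ∧ 0 < det3 b a (x, y)) := by
      rintro ⟨h3, h4, -⟩
      linarith [h1.1]
    rw [if_pos h1, if_neg h2, if_pos h1]
    norm_num
  · rw [if_neg h1]
    by_cases h2 : b.1 < x ∧ x < a.1 ∧ 0 < det3 b a (x, y)
    · rw [if_pos h2, if_pos h2]
    · rw [if_neg h2, if_neg h2, if_neg h1]
      norm_num

theorem measurable_rc (a b : Plane) : Measurable (fun q : Plane => rc a b q.1 q.2) := by
  have h1 : ∀ a b : Plane, MeasurableSet {q : Plane | a.1 < q.1 ∧ q.1 < b.1 ∧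
      0 < det3 a b (q.1, q.2)} := by
    intro a b
    have e1 : MeasurableSet {q : Plane | a.1 < q.1} := measurableSet_lt measurable_const measurable_fst
    have e2 : MeasurableSet {q : Plane | q.1 < b.1} := measurableSet_lt measurable_fst measurable_const
    have e3 : MeasurableSet {q : Plane | 0 < det3 a b (q.1, q.2)} :=
      measurableSet_lt measurable_const (by unfold det3; fun_prop)
    exact e1.inter (e2.inter e3)
  unfold rc
  exact Measurable.ite (h1 a b) measurable_const
    (Measurable.ite (h1 b a) measurable_const measurable_const)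

theorem norm_rc_le (a b : Plane) (x y : ℝ) : ‖rc a b x y‖ ≤ 1 := by
  unfold rc
  split_ifs <;> norm_num

theorem integrable_rc (a b : Plane) (H : ℝ) :
    IntegrableOn (fun q : Plane => rc a b q.1 q.2) (box H) := by
  refine Measure.integrableOn_of_bounded (volume_box H).ne
    (measurable_rc a b).aestronglyMeasurable (M := 1) ?_
  exact Filter.Eventually.of_forall fun q => norm_rc_le _ _ _ _

/-- The height of the line through `a` and `b`. -/
noncomputable def line (a b : Plane) (x : ℝ) : ℝ := a.2 + (b.2 - a.2) * ((x - a.1) / (b.1 - a.1))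

theorem integral_rc_of_lt {a b : Plane} {H : ℝ} (ha : a ∈ box H) (hb : b ∈ box H)
    (hab : a.1 < b.1) :
    ∫ q in box H, rc a b q.1 q.2 = (b.1 - a.1) * (H - (a.2 + b.2) / 2) := by
  obtain ⟨⟨ha1, ha2⟩, ha3, ha4⟩ := ha
  obtain ⟨⟨hb1, hb2⟩, hb3, hb4⟩ := hb
  have hpos : 0 < b.1 - a.1 := by linarith
  have hline : ∀ x ∈ Set.Ioo a.1 b.1, -H < line a b x ∧ line a b x < H := by
    intro x hx
    have h0 : 0 < (x - a.1) / (b.1 - a.1) := div_pos (by linarith [hx.1]) hpos
    have h1 : (x - a.1) / (b.1 - a.1) < 1 := by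
      rw [div_lt_one hpos]; linarith [hx.2]
    unfold line
    constructor <;> nlinarith
  have hdet : ∀ x y : ℝ, 0 < det3 a b (x, y) ↔ line a b x < y := by
    intro x y
    have h1 : det3 a b (x, y) = (b.1 - a.1) * (y - line a b x) := by
      unfold det3 line
      field_simp
      ring
    rw [h1]
    constructor
    · intro h
      by_contra hc
      push Not at hc
      nlinarith
    · intro h
      exact mul_pos hpos (by linarith)
  have hset : ∀ q ∈ box H, rc a b q.1 q.2 =
      (regionBetween (line a b) (fun _ => H) (Set.Ioo a.1 b.1)).indicator (fun _ => (1 : ℝ)) q := by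
    intro q hq
    unfold rc
    have h2 : ¬ (b.1 < q.1 ∧ q.1 < a.1 ∧ 0 < det3 b a (q.1, q.2)) := by
      rintro ⟨h3, h4, -⟩
      linarith
    rw [if_neg h2]
    by_cases h : a.1 < q.1 ∧ q.1 < b.1 ∧ 0 < det3 a b (q.1, q.2)
    · rw [if_pos h, Set.indicator_of_mem]
      exact ⟨⟨h.1, h.2.1⟩, (hdet _ _).mp h.2.2, hq.2.2⟩
    · rw [if_neg h, Set.indicator_of_notMem]
      rintro ⟨⟨h3, h4⟩, h5, h6⟩
      exact h ⟨h3, h4, (hdet _ _).mpr h5⟩
  have hcont : Continuous (line a b) := by unfold line; fun_prop
  have hmeas : MeasurableSet (regionBetween (line a b) (fun _ => H) (Set.Ioo a.1 b.1)) :=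
    measurableSet_regionBetween hcont.measurable measurable_const measurableSet_Ioo
  have hsub : regionBetween (line a b) (fun _ => H) (Set.Ioo a.1 b.1) ⊆ box H := by
    rintro q ⟨h3, h5, h6⟩
    exact ⟨⟨by linarith [h3.1], by linarith [h3.2]⟩, by linarith [(hline _ h3).1], h6⟩
  rw [setIntegral_congr_fun (measurableSet_box H) hset, setIntegral_indicator hmeas,
    Set.inter_eq_right.mpr hsub]
  have hvol := volume_regionBetween_eq_integral (μ := (volume : Measure ℝ))
    (f := line a b) (g := fun _ => H) (s := Set.Ioo a.1 b.1)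
    (hcont.integrableOn_Icc.mono_set Set.Ioo_subset_Icc_self)
    (continuous_const.integrableOn_Icc.mono_set Set.Ioo_subset_Icc_self) measurableSet_Ioo
    (fun x hx => (hline x hx).2.le)
  have hI : ∫ x in Set.Ioo a.1 b.1, ((fun _ : ℝ => H) - line a b) x =
      (b.1 - a.1) * (H - (a.2 + b.2) / 2) := by
    rw [← integral_Ioc_eq_integral_Ioo, ← intervalIntegral.integral_of_le hab.le]
    have hF : ∀ x ∈ Set.uIcc a.1 b.1, HasDerivAt (fun x => (H - a.2) * x -
        (b.2 - a.2) / (2 * (b.1 - a.1)) * (x - a.1) ^ 2) (((fun _ : ℝ => H) - line a b) x) x := by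
      intro x _
      have h1 := ((hasDerivAt_id x).const_mul (H - a.2)).sub
        ((((hasDerivAt_id x).sub_const a.1).pow 2).const_mul ((b.2 - a.2) / (2 * (b.1 - a.1))))
      refine (h1.congr_deriv ?_)
      simp only [id, Pi.sub_apply, line]
      push_cast
      field_simp
      ring
    rw [intervalIntegral.integral_eq_sub_of_hasDerivAt hF]
    · field_simp
      ring
    · exact (continuous_const.sub hcont).intervalIntegrable _ _
  rw [setIntegral_const, smul_eq_mul, mul_one, Measure.real, Measure.volume_eq_prod, hvol,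
    hI, ENNReal.toReal_ofReal]
  have : (a.2 + b.2) / 2 < H := by linarith
  exact mul_nonneg hpos.le (by linarith)

theorem integral_rc {a b : Plane} {H : ℝ} (ha : a ∈ box H) (hb : b ∈ box H) :
    ∫ q in box H, rc a b q.1 q.2 = (b.1 - a.1) * (H - (a.2 + b.2) / 2) := by
  rcases lt_trichotomy a.1 b.1 with h | h | h
  · exact integral_rc_of_lt ha hb h
  · have h1 : ∀ q : Plane, rc a b q.1 q.2 = 0 := by
      intro q
      unfold rc
      rw [if_neg, if_neg]
      · rintro ⟨h2, h3, -⟩; linarith
      · rintro ⟨h2, h3, -⟩; linarith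
    simp_rw [h1]
    rw [integral_zero, h]
    ring
  · have h1 : ∀ q : Plane, rc a b q.1 q.2 = - rc b a q.1 q.2 := fun q => rc_anti _ _ _ _
    simp_rw [h1]
    rw [integral_neg, integral_rc_of_lt hb ha h]
    ring

/-- Sums of differences over a closed walk vanish. -/
theorem wsum_diff (g : V → ℝ) (w : List V) : wsum (fun u v => g v - g u) w = 0 := by
  unfold wsum dartsOf
  have h1 : ∀ l l' : List V, l.length = l'.length →
      ((l.zip l').map fun d => g d.2 - g d.1).sum = (l'.map g).sum - (l.map g).sum := by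
    intro l
    induction l with
    | nil =>
      intro l' hl
      cases l' with
      | nil => simp
      | cons => simp at hl
    | cons a l ih =>
      intro l' hl
      cases l' with
      | nil => simp at hl
      | cons b l' =>
        simp only [List.zip_cons_cons, List.map_cons, List.sum_cons]
        rw [ih l' (by simpa using hl)]
        ring
  rw [h1 _ _ (by simp)]
  have h2 : ((w.rotate 1).map g).Perm (w.map g) := (List.rotate_perm w 1).map g
  rw [h2.sum_eq, sub_self]

theorem wsum_congr {φ ψ : V → V → ℝ} {w : List V} (h : ∀ d ∈ dartsOf w, φ d.1 d.2 = ψ d.1 d.2) :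
    wsum φ w = wsum ψ w := by
  unfold wsum
  congr 1
  exact List.map_congr_left h

theorem integral_wsum {α : Type} [MeasurableSpace α] (μ : Measure α) (F : V → V → α → ℝ)
    (w : List V) (h : ∀ u v, Integrable (F u v) μ) :
    Integrable (fun q => wsum (fun u v => F u v q) w) μ ∧
    ∫ q, wsum (fun u v => F u v q) w ∂μ = wsum (fun u v => ∫ q, F u v q ∂μ) w := by
  unfold wsum
  generalize dartsOf w = L
  induction L with
  | nil => simp
  | cons d L ih =>
    simp only [List.map_cons, List.sum_cons]
    refine ⟨(h _ _).add ih.1, ?_⟩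
    rw [integral_add (h _ _) ih.1, ih.2]

end NArea

open NArea in
theorem targetArea (hS : TargetSlice) : TargetArea := by
  intro V G D i
  set w := (G.inner.get i).1 with hw
  set p := D.pos with hp
  have hface := D.face_isFace i
  have hopen := isOpen_face hface
  have hne := nonempty_face hface
  -- all vertices and the face are in a box
  obtain ⟨H, hH1, hH2⟩ : ∃ H : ℝ, D.face i ⊆ box H ∧ ∀ v ∈ {v | v ∈ w}, p v ∈ box H := by
    obtain ⟨C1, hC1⟩ := (D.face_bounded i).exists_norm_le
    obtain ⟨C2, hC2⟩ := (((List.finite_toSet w).image p).isBounded).exists_norm_le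
    have key : ∀ q : Plane, ‖q‖ ≤ max C1 C2 → q ∈ box (max C1 C2 + 1) := by
      intro q hq
      have h1 := (norm_fst_le q).trans hq
      have h2 := (norm_snd_le q).trans hq
      rw [Real.norm_eq_abs, abs_le] at h1 h2
      refine ⟨⟨?_, ?_⟩, ?_, ?_⟩ <;> linarith [h1.1, h1.2, h2.1, h2.2]
    refine ⟨max C1 C2 + 1, fun q hq => key q ((hC1 q hq).trans (le_max_left _ _)), ?_⟩
    intro v hv
    exact key _ ((hC2 _ ⟨v, hv, rfl⟩).trans (le_max_right _ _))
  have hpoly : ∫ q in box H, wsum (fun u v => rc (p u) (p v) q.1 q.2) w = shoelace p w / 2 := by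
    rw [(integral_wsum (volume.restrict (box H))
      (fun u v (q : Plane) => rc (p u) (p v) q.1 q.2) w (fun u v => integrable_rc _ _ _)).2]
    have hmem : ∀ d ∈ dartsOf w, d.1 ∈ w ∧ d.2 ∈ w := by
      rintro ⟨u, v⟩ hd
      have h1 := List.of_mem_zip hd
      refine ⟨h1.1, ?_⟩
      have h2 := h1.2
      rwa [List.mem_rotate] at h2
    rw [wsum_congr (ψ := fun u v => ((p v).1 - (p u).1) * (H - ((p u).2 + (p v).2) / 2))
      (fun d hd => integral_rc (hH2 _ (hmem d hd).1) (hH2 _ (hmem d hd).2))]
    have h3 : wsum (fun u v => ((p v).1 - (p u).1) * (H - ((p u).2 + (p v).2) / 2)) w =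
        wsum (fun u v => (H * (p v).1 - (p v).1 * (p v).2 / 2) -
          (H * (p u).1 - (p u).1 * (p u).2 / 2)) w + shoelace p w / 2 := by
      unfold shoelace wsum
      generalize dartsOf w = L
      induction L with
      | nil => simp
      | cons d L ih =>
        simp only [List.map_cons, List.sum_cons]
        rw [ih]
        ring
    rw [h3, wsum_diff (fun v => H * (p v).1 - (p v).1 * (p v).2 / 2), zero_add]
  have hae : ∀ᵐ q : Plane, wsum (fun u v => rc (p u) (p v) q.1 q.2) w =
      (D.face i).indicator (fun _ => (1 : ℝ)) q := by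
    filter_upwards [ae_generic G p] with q hq
    have h1 := (hS G D q.1 q.2 hq.1 hq.2).1 i
    by_cases h2 : q ∈ D.face i
    · rw [Set.indicator_of_mem h2]; exact h1.1 h2
    · rw [Set.indicator_of_notMem h2]; exact h1.2 h2
  have hreal : volume.real (D.face i) = shoelace p w / 2 := by
    rw [← hpoly, integral_congr_ae (ae_restrict_of_ae hae),
      setIntegral_indicator hopen.measurableSet, Set.inter_eq_right.mpr hH1, setIntegral_const,
      smul_eq_mul, mul_one]
  have hfin : volume (D.face i) ≠ ⊤ :=
    ((measure_mono hH1).trans_lt (volume_box H)).ne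
  have hvol : volume (D.face i) = ENNReal.ofReal (shoelace p w / 2) := by
    rw [← hreal, Measure.real, ENNReal.ofReal_toReal hfin]
  refine ⟨hvol, ?_⟩
  have hpos := hopen.measure_pos volume hne
  rw [hvol, ENNReal.ofReal_pos] at hpos
  linarith

end Pool.Agent.PAH
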