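import Pool.Agent.PAH.LPos

set_option autoImplicit false
set_option linter.unusedSimpArgs false

/-!
# Shoelace areas of the plain faces (job F-AREAS)
-/

namespace Pool.Agent.PAH

variable {V : Type}

/-- cross product -/
def cr (a b : Plane) : ℝ := a.1 * b.2 - a.2 * b.1

/-- sum of cross products along an open walk -/
def apsum (p : V → Plane) : List V → ℝ
  | [] => 0
  | [_] => 0
  | a :: b :: l => cr (p a) (p b) + apsum p (b :: l)

@[simp] theorem apsum_nil (p : V → Plane) : apsum p [] = 0 := rfl
@[simp] theorem apsum_one (p : V → Plane) (a : V) : apsum p [a] = 0 := rfl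
@[simp] theorem apsum_cons (p : V → Plane) (a b : V) (l : List V) :
    apsum p (a :: b :: l) = cr (p a) (p b) + apsum p (b :: l) := rfl

theorem apsum_split (p : V → Plane) (l : List V) (b : V) (R : List V) :
    apsum p (l ++ b :: R) = apsum p (l ++ [b]) + apsum p (b :: R) := by
  induction l with
  | nil => simp
  | cons a l ih =>
    cases l with
    | nil => simp
    | cons c l =>
      simp only [List.cons_append, apsum_cons] at ih ⊢
      rw [ih]; ring

theorem apsum_zip (p : V → Plane) (a v : V) (l : List V) :
    apsum p (a :: l ++ [v]) =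
      (((a :: l).zip (l ++ [v])).map fun d => cr (p d.1) (p d.2)).sum := by
  induction l generalizing a with
  | nil => simp
  | cons b l ih =>
    simp only [List.cons_append, apsum_cons, List.zip_cons_cons, List.map_cons, List.sum_cons]
    rw [← List.cons_append, ih b]

theorem shoelace_cons (p : V → Plane) (v : V) (l : List V) :
    shoelace p (v :: l) = apsum p (v :: l ++ [v]) := by
  rw [apsum_zip]
  unfold shoelace wsum dartsOf
  rw [List.rotate_cons_succ, List.rotate_zero]
  rfl

/-- points on a horizontal line -/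
theorem apsum_hor (p : V → Plane) (Y : ℝ) (l : List V) (b : V) : ∀ a, (p a).2 = Y →
    (∀ v ∈ l, (p v).2 = Y) → (p b).2 = Y →
    apsum p (a :: l ++ [b]) = Y * ((p a).1 - (p b).1) := by
  induction l with
  | nil =>
    intro a ha _ hb
    simp [cr, ha, hb]; ring
  | cons c l ih =>
    intro a ha hl hb
    have hc := hl c (by simp)
    have := ih c hc (fun v hv => hl v (by simp [hv])) hb
    simp only [List.cons_append, apsum_cons] at this ⊢
    rw [this]
    simp only [cr, ha, hc]; ring

/-- points on a vertical line -/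
theorem apsum_ver (p : V → Plane) (X : ℝ) (l : List V) (b : V) : ∀ a, (p a).1 = X →
    (∀ v ∈ l, (p v).1 = X) → (p b).1 = X →
    apsum p (a :: l ++ [b]) = X * ((p b).2 - (p a).2) := by
  induction l with
  | nil =>
    intro a ha _ hb
    simp [cr, ha, hb]; ring
  | cons c l ih =>
    intro a ha hl hb
    have hc := hl c (by simp)
    have := ih c hc (fun v hv => hl v (by simp [hv])) hb
    simp only [List.cons_append, apsum_cons] at this ⊢
    rw [this]
    simp only [cr, ha, hc]; ring

section
variable {n m : ℕ} {τ : ℕ → ℕ → Ty} {ξ η : ℕ → ℕ → ℝ} (hB : BArr n m ξ η)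
include hB

theorem area_outer1 : shoelace (lpos n m τ ξ η)
    ([vo1, pt (3 * (m + 1) + 5) 1] ++
      (List.range (3 * (m + 1) + 2)).reverse.map (fun l => pt (l + 2) 0) ++
      [pt 0 0, vo3]) = ((36 * (n + 1) * (m + 1) + 36 * (m + 1) ^ 2 + 75 * (n + 1) +
        141 * (m + 1) + 143 : ℕ) : ℝ) := by
  have h0 : (List.range (3 * (m + 1) + 2)).reverse =
      (3 * (m + 1) + 1) :: (List.range (3 * (m + 1) + 1)).reverse := by
    rw [List.range_succ, List.reverse_append]; rfl
  rw [h0]
  simp only [List.cons_append, List.nil_append, List.map_cons]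
  rw [shoelace_cons]
  simp only [List.cons_append, List.append_assoc, List.nil_append, apsum_cons]
  have h1 := apsum_hor (lpos n m τ ξ η) 0
    ((List.range (3 * (m + 1) + 1)).reverse.map (fun l => pt (l + 2) 0)) (pt 0 0)
    (pt (3 * (m + 1) + 1 + 2) 0) (by rw [lpos_low hB _ _ (by omega)]; simp)
    (by
      intro v hv
      simp only [List.mem_map] at hv
      obtain ⟨l, _, rfl⟩ := hv
      rw [lpos_low hB _ _ (by omega)]; simp)
    (by rw [lpos_low hB _ _ (by omega)]; simp)
  have h2 := apsum_split (lpos n m τ ξ η) (pt (3 * (m + 1) + 1 + 2) 0 ::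
    (List.range (3 * (m + 1) + 1)).reverse.map (fun l => pt (l + 2) 0)) (pt 0 0) [vo3, vo1]
  simp only [List.cons_append] at h1 h2
  rw [h2, h1]
  simp only [apsum_cons, apsum_one]
  rw [lpos_low hB _ 1 (by omega), lpos_low hB _ 0 (by omega), lpos_low hB 0 0 (by omega),
    lpos_vo1, lpos_vo3]
  simp only [cr, fN]
  push_cast
  ring

theorem area_outer2 : shoelace (lpos n m τ ξ η)
    ([vo2] ++ (List.range (n + 1)).reverse.flatMap (fun i' =>
      [pt (3 * (m + 1) + 6) (3 * i' + 5), pt (3 * (m + 1) + 6) (3 * i' + 4)]) ++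
      [pt (3 * (m + 1) + 6) 2, pt (3 * (m + 1) + 5) 1, vo1]) =
      ((180 * (n + 1) ^ 2 + 108 * (m + 1) ^ 2 + 270 * (n + 1) * (m + 1) + 573 * (n + 1) +
        456 * (m + 1) + 480 : ℕ) : ℝ) := by
  have h0 : (List.range (n + 1)).reverse = n :: (List.range n).reverse := by
    rw [List.range_succ, List.reverse_append]; rfl
  rw [h0]
  simp only [List.cons_append, List.nil_append, List.flatMap_cons]
  rw [shoelace_cons]
  simp only [List.cons_append, List.append_assoc, List.nil_append, apsum_cons]
  have hx : ∀ y, y % 3 ≠ 0 → lpos n m τ ξ η (pt (3 * (m + 1) + 6) y) =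
      (3 * ((m : ℝ) + 1) + 6, (y : ℝ)) := by
    intro y hy
    rw [lpos_fix _ _ hy (by omega)]
    push_cast; rfl
  have h1 := apsum_ver (lpos n m τ ξ η) (3 * ((m : ℝ) + 1) + 6)
    (pt (3 * (m + 1) + 6) (3 * n + 4) :: (List.range n).reverse.flatMap (fun i' =>
      [pt (3 * (m + 1) + 6) (3 * i' + 5), pt (3 * (m + 1) + 6) (3 * i' + 4)]))
    (pt (3 * (m + 1) + 6) 2)
    (pt (3 * (m + 1) + 6) (3 * n + 5)) (by rw [hx _ (by omega)])
    (by
      intro v hv
      simp only [List.mem_cons, List.mem_flatMap, List.not_mem_nil, or_false] at hv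
      rcases hv with rfl | ⟨l, _, rfl | rfl⟩
      · rw [hx _ (by omega)]
      · rw [hx _ (by omega)]
      · rw [hx _ (by omega)])
    (by rw [hx _ (by omega)])
  have h2 := apsum_split (lpos n m τ ξ η) (pt (3 * (m + 1) + 6) (3 * n + 5) ::
    pt (3 * (m + 1) + 6) (3 * n + 4) :: (List.range n).reverse.flatMap (fun i' =>
      [pt (3 * (m + 1) + 6) (3 * i' + 5), pt (3 * (m + 1) + 6) (3 * i' + 4)]))
    (pt (3 * (m + 1) + 6) 2) [pt (3 * (m + 1) + 5) 1, vo1, vo2]
  simp only [List.cons_append, apsum_cons] at h1 h2 ⊢
  rw [h2, h1]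
  simp only [apsum_one]
  rw [hx _ (by omega), hx _ (by omega), lpos_low hB _ 1 (by omega), lpos_vo1, lpos_vo2]
  simp only [cr, fN]
  push_cast
  ring

theorem area_outer3 : shoelace (lpos n m τ ξ η)
    ([vo3] ++ (List.range (3 * (n + 1) + 1)).map (fun y => pt 0 y) ++
      [pt 1 (3 * (n + 1) + 1), pt 3 (3 * (n + 1) + 2)] ++
      (List.range (m + 1 + 1)).flatMap (fun j =>
        [pt (3 * j + 5) (3 * (n + 1) + 2), pt (3 * j + 6) (3 * (n + 1) + 2)]) ++ [vo2]) =
      ((15 * (n + 1) + 15 * (m + 1) + 38 : ℕ) : ℝ) := by
  have h0 : (List.range (3 * (n + 1) + 1)).map (fun y => pt 0 y) =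
      pt 0 0 :: (List.range (3 * n + 2)).map (fun y => pt 0 (y + 1)) ++ [pt 0 (3 * (n + 1))] := by
    rw [show 3 * (n + 1) + 1 = 3 * n + 3 + 1 by ring, List.range_succ, List.range_succ_eq_map]
    simp only [List.map_append, List.map_cons, List.map_map, List.map_nil]
    rfl
  have h0' : (List.range (m + 1 + 1)).flatMap (fun j =>
        [pt (3 * j + 5) (3 * (n + 1) + 2), pt (3 * j + 6) (3 * (n + 1) + 2)]) =
      ((List.range (m + 1)).flatMap (fun j =>
        [pt (3 * j + 5) (3 * (n + 1) + 2), pt (3 * j + 6) (3 * (n + 1) + 2)]) ++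
        [pt (3 * (m + 1) + 5) (3 * (n + 1) + 2)]) ++ [pt (3 * (m + 1) + 6) (3 * (n + 1) + 2)] := by
    rw [List.range_succ (n := m + 1), List.flatMap_append]
    simp
  rw [h0, h0']
  simp only [List.cons_append, List.nil_append]
  rw [shoelace_cons]
  simp only [List.cons_append, List.append_assoc, List.nil_append, apsum_cons]
  have hy : ∀ x, x % 3 ≠ 1 → lpos n m τ ξ η (pt x (3 * (n + 1) + 2)) =
      ((x : ℝ), 3 * ((n : ℝ) + 1) + 2) := by
    intro x hx
    rw [lpos_fix _ _ (by omega) hx]
    push_cast; rfl
  have hx0 : ∀ y, lpos n m τ ξ η (pt 0 y) = (0, (y : ℝ)) := by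
    intro y
    rw [lpos_left hB _ _ (by omega) (by omega)]
    simp
  have h1 := apsum_ver (lpos n m τ ξ η) 0
    ((List.range (3 * n + 2)).map (fun y => pt 0 (y + 1))) (pt 0 (3 * (n + 1)))
    (pt 0 0) (by rw [hx0])
    (by
      intro v hv
      simp only [List.mem_map] at hv
      obtain ⟨l, _, rfl⟩ := hv
      rw [hx0])
    (by rw [hx0])
  have h3 := apsum_hor (lpos n m τ ξ η) (3 * ((n : ℝ) + 1) + 2)
    ((List.range (m + 1)).flatMap (fun j =>
        [pt (3 * j + 5) (3 * (n + 1) + 2), pt (3 * j + 6) (3 * (n + 1) + 2)]) ++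
        [pt (3 * (m + 1) + 5) (3 * (n + 1) + 2)]) (pt (3 * (m + 1) + 6) (3 * (n + 1) + 2))
    (pt 3 (3 * (n + 1) + 2)) (by rw [hy _ (by omega)])
    (by
      intro v hv
      simp only [List.mem_append, List.mem_cons, List.mem_flatMap, List.not_mem_nil,
        or_false] at hv
      rcases hv with ⟨l, _, rfl | rfl⟩ | rfl
      · rw [hy _ (by omega)]
      · rw [hy _ (by omega)]
      · rw [hy _ (by omega)])
    (by rw [hy _ (by omega)])
  have h2 := apsum_split (lpos n m τ ξ η) (pt 0 0 ::
    (List.range (3 * n + 2)).map (fun y => pt 0 (y + 1))) (pt 0 (3 * (n + 1)))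
    (pt 1 (3 * (n + 1) + 1) :: pt 3 (3 * (n + 1) + 2) ::
      ((List.range (m + 1)).flatMap (fun j =>
        [pt (3 * j + 5) (3 * (n + 1) + 2), pt (3 * j + 6) (3 * (n + 1) + 2)]) ++
        (pt (3 * (m + 1) + 5) (3 * (n + 1) + 2) ::
          pt (3 * (m + 1) + 6) (3 * (n + 1) + 2) :: [vo2, vo3])))
  have h4 := apsum_split (lpos n m τ ξ η) (pt 3 (3 * (n + 1) + 2) ::
      ((List.range (m + 1)).flatMap (fun j =>
        [pt (3 * j + 5) (3 * (n + 1) + 2), pt (3 * j + 6) (3 * (n + 1) + 2)]) ++
        [pt (3 * (m + 1) + 5) (3 * (n + 1) + 2)])) (pt (3 * (m + 1) + 6) (3 * (n + 1) + 2))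
        [vo2, vo3]
  simp only [List.cons_append, List.append_assoc, List.nil_append, apsum_cons] at h1 h2 h3 h4 ⊢
  rw [h2, h1, h4, h3]
  simp only [apsum_one]
  rw [hx0, hx0, lpos_start hB, hy _ (by omega), hy _ (by omega), lpos_vo2, lpos_vo3]
  simp only [cr, fN]
  push_cast
  ring

end

theorem targetAreas : TargetAreas := by
  intro n m τ ξ η hn hB hF f hf
  unfold fabricPlain at hf
  rw [List.mem_append] at hf
  rcases hf with hf | hf
  · simp only [List.mem_flatMap, List.mem_range] at hf
    obtain ⟨i', hi, j, hj, hf⟩ := hf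
    have hsw : lpos n m τ ξ η (pt (3 * j + 3) (3 * i' + 2)) =
        (3 * (j : ℝ) + 3, 3 * (i' : ℝ) + 2) := by
      rw [lpos_fix _ _ (by omega) (by omega)]; push_cast; rfl
    have hS : lpos n m τ ξ η (pt (3 * j + 3 + 1) (3 * i' + 2)) =
        (3 * (j : ℝ) + 4, 3 * (i' : ℝ) + 2 + η (i' + 1) j) := by
      rw [show 3 * j + 3 + 1 = 3 * j + 4 by ring, lpos_col _ _ (by omega),
        show (3 * i' + 2) / 3 = i' by omega]; push_cast; rfl
    have hse : lpos n m τ ξ η (pt (3 * j + 3 + 2) (3 * i' + 2)) =
        (3 * (j : ℝ) + 5, 3 * (i' : ℝ) + 2) := by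
      rw [lpos_fix _ _ (by omega) (by omega)]; push_cast; congr 1; ring
    have hW : lpos n m τ ξ η (pt (3 * j + 3) (3 * i' + 2 + 1)) =
        (3 * (j : ℝ) + 3 + ξ (i' + 1) j, 3 * (i' : ℝ) + 3) := by
      rw [show 3 * i' + 2 + 1 = 3 * (i' + 1) by ring, lpos_row _ _ (by omega),
        show (3 * j + 3 - 2) / 3 = j by omega]; push_cast; congr 1; ring
    have hz : lpos n m τ ξ η (pt (3 * j + 3 + 1) (3 * i' + 2 + 1)) =
        (3 * (j : ℝ) + 4 + ξ (i' + 1) j, 3 * (i' : ℝ) + 3 +
          if i' + 1 ≤ n ∧ τ (i' + 1) j = Ty.P then η (i' + 2) j else η (i' + 1) j) := by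
      rw [show 3 * i' + 2 + 1 = 3 * (i' + 1) by ring, show 3 * j + 3 + 1 = 3 * j + 4 by ring,
        lpos_cen]; push_cast; congr 1; ring
    have hE : lpos n m τ ξ η (pt (3 * j + 3 + 2) (3 * i' + 2 + 1)) =
        (3 * (j : ℝ) + 5 + ξ (i' + 1) (j + 1), 3 * (i' : ℝ) + 3) := by
      rw [show 3 * i' + 2 + 1 = 3 * (i' + 1) by ring, lpos_row _ _ (by omega),
        show (3 * j + 3 + 2 - 2) / 3 = j + 1 by omega]; push_cast; congr 1 <;> ring
    have hnw : lpos n m τ ξ η (pt (3 * j + 3) (3 * i' + 2 + 2)) =
        (3 * (j : ℝ) + 3, 3 * (i' : ℝ) + 4) := by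
      rw [lpos_fix _ _ (by omega) (by omega)]; push_cast; congr 1; ring
    have hN : lpos n m τ ξ η (pt (3 * j + 3 + 1) (3 * i' + 2 + 2)) =
        (3 * (j : ℝ) + 4, 3 * (i' : ℝ) + 4 + η (i' + 2) j) := by
      rw [show 3 * j + 3 + 1 = 3 * j + 4 by ring, lpos_col _ _ (by omega),
        show (3 * i' + 2 + 2) / 3 + 1 = i' + 2 by omega]; push_cast; congr 1; ring
    have hne : lpos n m τ ξ η (pt (3 * j + 3 + 2) (3 * i' + 2 + 2)) =
        (3 * (j : ℝ) + 5, 3 * (i' : ℝ) + 4) := by
      rw [lpos_fix _ _ (by omega) (by omega)]; push_cast; congr 1 <;> ring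
    have hq := lpos_vq (n := n) (m := m) (τ := τ) (ξ := ξ) (η := η)
    unfold holeFaces at hf
    simp only at hf
    by_cases hj0 : j = 0
    · subst hj0
      have hL := hF.left (i' + 1) (by omega) (by omega)
      rw [if_pos rfl] at hf
      have hx0 := hB.x0 (i' + 1)
      by_cases hi0 : i' = 0
      · subst hi0
        have hy1 := hB.y1 0
        rw [if_pos rfl] at hf
        simp only [List.mem_cons, List.not_mem_nil, or_false] at hf
        subst hf
        rw [shoelace_cons]
        simp only [List.cons_append, List.nil_append, apsum_cons, apsum_one, hsw, hS, hse, hW, hz, hE,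
          hnw, hN, hne, hq, cr]
        simp only [zero_add, show (1 + 1 : ℕ) = 2 from rfl] at *
        rw [hL, hx0, hy1]
        push_cast
        ring
      · rw [if_neg hi0] at hf
        split_ifs at hf with hi1
        · simp only [List.mem_cons, List.not_mem_nil, or_false] at hf
          subst hf
          rw [shoelace_cons]
          simp only [List.cons_append, List.nil_append, apsum_cons, apsum_one, hsw, hS, hse, hW, hz,
            hE, hnw, hN, hne, hq, cr]
          simp only [zero_add, show i' + 1 + 1 = i' + 2 from rfl] at *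
          rw [hL, hx0]
          push_cast
          ring
        · simp only [List.mem_cons, List.not_mem_nil, or_false] at hf
          subst hf
          have hi2 : i' = n := by omega
          have hyt := hB.yt 0
          subst hi2
          rw [shoelace_cons]
          simp only [List.cons_append, List.nil_append, apsum_cons, apsum_one, hsw, hS, hse, hW, hz,
            hE, hnw, hN, hne, hq, cr]
          simp only [zero_add, show i' + 1 + 1 = i' + 2 from rfl] at *
          rw [hyt] at hL
          rw [hx0]
          push_cast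
          linear_combination 2 * hL
    · rw [if_neg hj0] at hf
      by_cases hjJ : j = m + 1
      · subst hjJ
        have hR := hF.right (i' + 1) (by omega) (by omega)
        rw [if_pos rfl] at hf
        split_ifs at hf with hi1
        · simp only [List.mem_cons, List.not_mem_nil, or_false] at hf
          subst hf
          rw [shoelace_cons]
          simp only [List.cons_append, List.nil_append, apsum_cons, apsum_one, hsw, hS, hse, hW, hz,
            hE, hnw, hN, hne, hq, cr]
          simp only [show i' + 1 + 1 = i' + 2 from rfl] at *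
          rw [hR]
          push_cast
          ring
        · simp only [List.mem_cons, List.not_mem_nil, or_false] at hf
          subst hf
          have hi2 : i' = n := by omega
          have hyt := hB.yt (m + 1)
          subst hi2
          rw [shoelace_cons]
          simp only [List.cons_append, List.nil_append, apsum_cons, apsum_one, hsw, hS, hse, hW, hz,
            hE, hnw, hN, hne, hq, cr]
          simp only [show i' + 1 + 1 = i' + 2 from rfl] at *
          rw [hyt] at hR
          push_cast
          linear_combination 2 * hR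
      · rw [if_neg hjJ] at hf
        by_cases hi1 : i' = n
        · subst hi1
          rw [if_pos rfl] at hf
          have hlast := hF.last j (by omega) (by omega)
          have hyt := hB.yt j
          rw [if_neg (by omega)] at hz
          simp only [List.mem_cons, List.not_mem_nil, or_false] at hf
          rcases hf with rfl | rfl | rfl | rfl <;>
          · rw [shoelace_cons]
            simp only [List.cons_append, List.nil_append, apsum_cons, apsum_one, hsw, hS, hse, hW, hz,
              hE, hnw, hN, hne, hq, cr, hlast.1, hlast.2]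
            push_cast
            ring
        · rw [if_neg (by omega)] at hf
          have hnode := hF.node (i' + 1) j (by omega) (by omega) (by omega) (by omega)
          simp only [show i' + 1 + 1 = i' + 2 from rfl] at hnode
          cases hτ : τ (i' + 1) j with
          | C =>
            rw [hτ] at hf hnode
            simp only [hτ, reduceCtorEq, and_false, if_false] at hz
            simp only [NodeRel] at hnode
            simp only [List.mem_cons, List.not_mem_nil, or_false] at hf
            rcases hf with rfl | rfl | rfl | rfl <;>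
            · rw [shoelace_cons]
              simp only [List.cons_append, List.nil_append, apsum_cons, apsum_one, hsw, hS, hse, hW,
                hz, hE, hnw, hN, hne, hq, cr, hnode.1, hnode.2]
              push_cast
              ring
          | A =>
            rw [hτ] at hf hnode
            simp only [NodeRel] at hnode
            simp only [List.mem_cons, List.not_mem_nil, or_false] at hf
            rcases hf with rfl | rfl <;>
            · rw [shoelace_cons]
              simp only [List.cons_append, List.nil_append, apsum_cons, apsum_one, hsw, hS, hse, hW,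
                hz, hE, hnw, hN, hne, hq, cr, hnode.1, hnode.2]
              push_cast
              ring
          | P =>
            rw [hτ] at hf hnode
            rw [if_pos ⟨by omega, hτ⟩] at hz
            simp only [NodeRel] at hnode
            simp only [List.mem_cons, List.not_mem_nil, or_false] at hf
            rcases hf with rfl | rfl | rfl | rfl <;>
            · rw [shoelace_cons]
              simp only [List.cons_append, List.nil_append, apsum_cons, apsum_one, hsw, hS, hse, hW,
                hz, hE, hnw, hN, hne, hq, cr, hnode.1, hnode.2]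
              push_cast
              ring
  · unfold outerFaces at hf
    simp only [List.mem_cons, List.not_mem_nil, or_false] at hf
    rcases hf with rfl | rfl | rfl
    · exact area_outer1 hB
    · exact area_outer2 hB
    · exact area_outer3 hB

end Pool.Agent.PAH
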