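import Pool.Agent.PAH.Basic

set_option autoImplicit false

/-!
# From formulas to arithmetic constraints to node matrices
-/

namespace Pool.Agent.PAH

/-! ## Arithmetic constraints -/

/-- a constraint `x_u + x_v = x_w` (`isAdd = true`) or `x_u · x_v = x_w` (`isAdd = false`) -/
structure Constr where
  isAdd : Bool
  u : ℕ
  v : ℕ
  w : ℕ

def Constr.Holds (x : ℕ → ℝ) (c : Constr) : Prop :=
  if c.isAdd then x c.u + x c.v = x c.w else x c.u * x c.v = x c.w

/-- solvability over the reals, where `x 0 = 1` -/
def ArithYes (L : List Constr) : Prop := ∃ x : ℕ → ℝ, x 0 = 1 ∧ ∀ c ∈ L, c.Holds x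

/-- `s`-th local variable of the node at position `p` of the formula; the variable `x_i` of the
formula is `vi i 15` -/
def vi (p s : ℕ) : ℕ := 16 * p + s + 1

def cAdd (u v w : ℕ) : Constr := ⟨true, u, v, w⟩
def cMul (u v w : ℕ) : Constr := ⟨false, u, v, w⟩

/-- constraints of a term whose encoding starts at position `o`; the value of the term is
`vi (o + length - 1) 0` -/
def Term.constr : Term → ℕ → List Constr
  | .zero, o => [cAdd (vi o 0) (vi o 0) (vi o 0)]
  | .one, o => [cMul 0 0 (vi o 0)]
  | .var i, o => [cMul 0 (vi i 15) (vi (o + i) 0)]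
  | .add s t, o =>
      let a := o + s.enc.length - 1
      let p := o + s.enc.length + t.enc.length
      s.constr o ++ t.constr (o + s.enc.length) ++ [cAdd (vi a 0) (vi (p - 1) 0) (vi p 0)]
  | .mul s t, o =>
      let a := o + s.enc.length - 1
      let p := o + s.enc.length + t.enc.length
      s.constr o ++ t.constr (o + s.enc.length) ++ [cMul (vi a 0) (vi (p - 1) 0) (vi p 0)]

/-- local constraints of a formula node at `p` with children at `a` and `p - 1`; slot `0` vanishes
when the formula is true, slot `1` vanishes when it is false (for a suitable choice of the other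
slots), and conversely -/
def opEq (a p : ℕ) : List Constr :=
  [cAdd (vi p 0) (vi (p - 1) 0) (vi a 0), cMul (vi p 0) (vi p 2) (vi p 3),
   cAdd (vi p 1) 0 (vi p 3)]
def opLt (a p : ℕ) : List Constr :=
  [cAdd (vi p 2) (vi a 0) (vi (p - 1) 0), cMul (vi p 3) (vi p 3) (vi p 4),
   cMul (vi p 2) (vi p 4) (vi p 5), cAdd (vi p 0) 0 (vi p 5),
   cMul (vi p 6) (vi p 6) (vi p 7), cAdd (vi p 1) (vi p 7) (vi p 8),
   cAdd (vi p 8) (vi p 2) (vi p 9), cAdd (vi p 9) (vi p 9) (vi p 9)]
def opNot (p : ℕ) : List Constr :=
  [cMul 0 (vi (p - 1) 1) (vi p 0), cMul 0 (vi (p - 1) 0) (vi p 1)]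
def opAnd (a p : ℕ) : List Constr :=
  [cMul (vi a 0) (vi a 0) (vi p 2), cMul (vi (p - 1) 0) (vi (p - 1) 0) (vi p 3),
   cAdd (vi p 2) (vi p 3) (vi p 0), cMul (vi a 1) (vi (p - 1) 1) (vi p 1)]
def opOr (a p : ℕ) : List Constr :=
  [cMul (vi a 1) (vi a 1) (vi p 2), cMul (vi (p - 1) 1) (vi (p - 1) 1) (vi p 3),
   cAdd (vi p 2) (vi p 3) (vi p 1), cMul (vi a 0) (vi (p - 1) 0) (vi p 0)]

def Formula.constr : Formula → ℕ → List Constr
  | .eq s t, o =>
      s.constr o ++ t.constr (o + s.enc.length) ++
        opEq (o + s.enc.length - 1) (o + s.enc.length + t.enc.length)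
  | .lt s t, o =>
      s.constr o ++ t.constr (o + s.enc.length) ++
        opLt (o + s.enc.length - 1) (o + s.enc.length + t.enc.length)
  | .not φ, o => φ.constr o ++ opNot (o + φ.enc.length)
  | .and φ ψ, o =>
      φ.constr o ++ ψ.constr (o + φ.enc.length) ++
        opAnd (o + φ.enc.length - 1) (o + φ.enc.length + ψ.enc.length)
  | .or φ ψ, o =>
      φ.constr o ++ ψ.constr (o + φ.enc.length) ++
        opOr (o + φ.enc.length - 1) (o + φ.enc.length + ψ.enc.length)

/-- the arithmetic system of a formula -/
def Formula.system (φ : Formula) : List Constr :=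
  φ.constr 0 ++ [cAdd (vi (φ.enc.length - 1) 0) (vi (φ.enc.length - 1) 0)
    (vi (φ.enc.length - 1) 0)]

/-- unary encoding of a list of constraints: four fields per constraint -/
def encConstr (c : Constr) : List Sym :=
  [if c.isAdd then Sym.add else Sym.mul, Sym.comma] ++
  List.replicate c.u Sym.tick ++ [Sym.comma] ++ List.replicate c.v Sym.tick ++ [Sym.comma] ++
  List.replicate c.w Sym.tick ++ [Sym.comma]

def encArith (L : List Constr) : List Sym := L.flatMap encConstr

/-! ## Node matrices -/

/-- a matrix of node types: number of rows, and the columns -/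
structure Matrix' where
  n : ℕ
  cols : List (List Ty)

/-- type of node `(i, j)`, `i, j ≥ 1` -/
def Matrix'.τ (X : Matrix') (i j : ℕ) : Ty := (X.cols.getD (j - 1) []).getD (i - 1) Ty.C

def Matrix'.m (X : Matrix') : ℕ := X.cols.length

/-- column with type `A` at the 0-based rows in the list -/
def linCol (n : ℕ) (S : List ℕ) : List Ty := S.foldl (fun c r => c.set r Ty.A) (List.replicate n Ty.C)
/-- column with types `A, P, A` at the rows `r, r+1, r+2` -/
def mulCol (n r : ℕ) : List Ty :=
  (((List.replicate n Ty.C).set r Ty.A).set (r + 1) Ty.P).set (r + 2) Ty.A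

/-- columns of a constraint; `b` is the first (0-based) row of its private block of seven rows -/
def Constr.cols (n b : ℕ) (c : Constr) : List (List Ty) :=
  if c.isAdd then
    [linCol n [b, c.u], linCol n [b, c.u], linCol n [b + 1, c.v], linCol n [b + 1, c.v],
     linCol n [b, b + 1, c.w], linCol n [b, b + 1, c.w]]
  else
    [linCol n [b, c.u], linCol n [b, c.u], linCol n [b + 1, c.v], linCol n [b + 1, c.v],
     linCol n [b + 3, 0], linCol n [b + 3, 0], linCol n [b + 4, c.w], linCol n [b + 4, c.w],
     linCol n [b + 6, b + 5], linCol n [b + 6, b + 5],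
     linCol n [b + 2, b, b + 6, 0], linCol n [b + 2, b, b + 6, 0],
     mulCol n b, mulCol n (b + 3)]

/-- number of rows used for variables: larger than all indices -/
def numVars (L : List Constr) : ℕ := (encArith L).length + 1

/-- the matrix of an arithmetic system: row `0` carries the unit `E`, row `u` the variable `u` -/
def arithMatrix (L : List Constr) : Matrix' :=
  let nv := numVars L
  let n := nv + 7 * L.length
  ⟨n, L.zipIdx.flatMap fun c => c.1.cols n (nv + 7 * c.2)⟩

def tySym : Ty → Sym
  | .C => Sym.zero
  | .A => Sym.one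
  | .P => Sym.var

/-- encoding of a matrix -/
def encMatrix (X : Matrix') : List Sym :=
  List.replicate X.n Sym.tick ++ [Sym.comma] ++
    X.cols.flatMap (fun c => c.map tySym ++ [Sym.comma])

/-- the fabric of a matrix -/
def Matrix'.fabric (X : Matrix') : FaceMap VX := Pool.Agent.PAH.fabric X.n X.m X.τ

/-- names of the vertices -/
def vname (v : VX) : List Bool :=
  List.replicate v.1 true ++ [false] ++ List.replicate v.2.1 true ++ [false] ++
    List.replicate v.2.2 true

/-- the instance (as a face map with named vertices) produced from a formula -/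
def Formula.instMap (φ : Formula) : FaceMap (List Bool) :=
  (arithMatrix φ.system).fabric.map vname

end Pool.Agent.PAH
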