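import Pool.Agent.PAH.Targets

set_option autoImplicit false

/-!
# Assembly: positive fans give a drawing
-/

namespace Pool.Agent.PAH

variable {V : Type}

lemma dartsOf_three (a b c : V) : dartsOf [a, b, c] = [(a, b), (b, c), (c, a)] := rfl

/-- each directed edge of `G` or its reverse is one of the triangulation -/
lemma Tame.mem_tris {G : FaceMap V} {p : V → Plane} {a b c : V} (h : Tame G p a b c)
    {d : V × V} (hd : d ∈ G.darts) :
    d ∈ G.tris.flatMap triDarts ∨ d.swap ∈ G.tris.flatMap triDarts := by
  unfold FaceMap.darts FaceMap.walks at hd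
  rw [List.flatMap_cons, List.mem_append] at hd
  rcases hd with hd | hd
  · right
    rw [h.outer_eq, dartsOf_three] at hd
    have ho := h.nice.out_mem
    simp only [List.mem_cons, List.not_mem_nil, or_false] at hd
    rcases hd with rfl | rfl | rfl
    · exact (ho (c, a) (by simp)).1
    · exact (ho (b, c) (by simp)).1
    · exact (ho (a, b) (by simp)).1
  · left
    rw [List.mem_flatMap] at hd
    obtain ⟨w, hw, hd⟩ := hd
    rw [List.mem_map] at hw
    obtain ⟨f, hf, rfl⟩ := hw
    exact h.sub f hf d hd

/-- each source of a directed edge of `G` is a source of one of the triangulation -/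
lemma Tame.src {G : FaceMap V} {p : V → Plane} {a b c : V} (h : Tame G p a b c)
    {d : V × V} (hd : d ∈ G.darts) : ∃ e ∈ G.tris.flatMap triDarts, e.1 = d.1 := by
  rcases h.mem_tris hd with h1 | h1
  · exact ⟨d, h1, rfl⟩
  · rw [List.mem_flatMap] at h1
    obtain ⟨t, ht, h1⟩ := h1
    have : ∃ e ∈ triDarts t, e.1 = d.1 := by
      unfold triDarts at h1 ⊢
      simp only [List.mem_cons, List.not_mem_nil, or_false] at h1
      rcases h1 with h1 | h1 | h1
      · exact ⟨(t.2.1, t.2.2), by simp, (congrArg Prod.snd h1).symm⟩
      · exact ⟨(t.2.2, t.1), by simp, (congrArg Prod.snd h1).symm⟩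
      · exact ⟨(t.1, t.2.1), by simp, (congrArg Prod.snd h1).symm⟩
    obtain ⟨e, he, h2⟩ := this
    exact ⟨e, List.mem_flatMap.2 ⟨t, ht, he⟩, h2⟩

lemma tOpen_nonempty {a b c : Plane} (h : 0 < det3 a b c) : (openTri a b c).Nonempty := by
  refine ⟨((a.1 + b.1 + c.1) / 3, (a.2 + b.2 + c.2) / 3), ?_, ?_, ?_⟩ <;>
  · unfold det3 at h ⊢
    simp only
    nlinarith [h]

theorem drawing_of (hC : TargetCover) (hP : TargetPlanar) (hD : TargetDarts)
    (hR : TargetRegion) (hO : TargetOuter) (hRot : TargetRot) : TargetDrawing := by
  intro V G p a b c hout hne hch hfan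
  obtain ⟨hT, hTame⟩ := hD G p a b c hout hne hch hfan
  have hN := hC p G.tris a b c hT
  have hPl := hP p G.tris a b c hN
  have ht := hTame hN hPl
  refine ⟨{ pos := p
            nodup := ht.nodup
            symm := ht.symm
            loopless := ht.loopless
            inj := ?_
            noncrossing := ?_
            rotation := hRot G p a b c ht
            outerFace := (closedTri (p a) (p b) (p c))ᶜ
            face := fun i => fanRegion p (G.inner.get i).1
            outer_isFace := (hO G p a b c ht).1
            outer_unbounded := (hO G p a b c ht).2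
            face_isFace := fun i => (hR G p a b c ht _ (List.get_mem _ i)).1
            face_bounded := fun i => (hR G p a b c ht _ (List.get_mem _ i)).2
            face_inj := ?_ }, rfl⟩
  · intro d hd e he hde
    obtain ⟨d', hd', h1⟩ := ht.src hd
    obtain ⟨e', he', h2⟩ := ht.src he
    rw [← h1, ← h2]
    exact hPl.inj d' hd' e' he' (by rw [h1, h2]; exact hde)
  · intro d hd e he hne1 hne2 x hxd hxe
    have key : ∀ d' e' : V × V, d' ∈ G.tris.flatMap triDarts → e' ∈ G.tris.flatMap triDarts →
        (d' = d ∨ d' = d.swap) → (e' = e ∨ e' = e.swap) →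
        ∃ v, (v = d.1 ∨ v = d.2) ∧ (v = e.1 ∨ v = e.2) ∧ x = p v := by
      intro d' e' hd' he' h1 h2
      have hx1 : x ∈ segment ℝ (p d'.1) (p d'.2) := by
        rcases h1 with rfl | rfl
        · exact hxd
        · rw [segment_symm]; exact hxd
      have hx2 : x ∈ segment ℝ (p e'.1) (p e'.2) := by
        rcases h2 with rfl | rfl
        · exact hxe
        · rw [segment_symm]; exact hxe
      have hn1 : e' ≠ d' := by
        rcases h1 with rfl | rfl <;> rcases h2 with rfl | rfl
        · exact hne1
        · intro h; apply hne2; rw [← h, Prod.swap_swap]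
        · exact hne2
        · intro h; exact hne1 (Prod.swap_injective h)
      have hn2 : e' ≠ d'.swap := by
        rcases h1 with rfl | rfl <;> rcases h2 with rfl | rfl
        · exact hne2
        · intro h; exact hne1 (Prod.swap_injective h)
        · rw [Prod.swap_swap]; exact hne1
        · rw [Prod.swap_swap]; intro h; apply hne2; rw [← h, Prod.swap_swap]
      obtain ⟨v, hv1, hv2, hv3⟩ := hPl.noncrossing d' hd' e' he' hn1 hn2 x hx1 hx2
      refine ⟨v, ?_, ?_, hv3⟩
      · rcases h1 with rfl | rfl
        · exact hv1
        · exact hv1.symm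
      · rcases h2 with rfl | rfl
        · exact hv2
        · exact hv2.symm
    rcases ht.mem_tris hd with h1 | h1 <;> rcases ht.mem_tris he with h2 | h2
    · exact key _ _ h1 h2 (Or.inl rfl) (Or.inl rfl)
    · exact key _ _ h1 h2 (Or.inl rfl) (Or.inr rfl)
    · exact key _ _ h1 h2 (Or.inr rfl) (Or.inl rfl)
    · exact key _ _ h1 h2 (Or.inr rfl) (Or.inr rfl)
  · -- different inner faces have different regions
    have hdis : ∀ i j : Fin G.inner.length, i < j →
        fanRegion p (G.inner.get i).1 ≠ fanRegion p (G.inner.get j).1 := by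
      intro i j hij heq
      have hfi := hfan _ (List.get_mem G.inner i)
      have htri : ∃ t, t ∈ fanTris (G.inner.get i).1 := by
        rcases hw : (G.inner.get i).1 with _ | ⟨v, l⟩
        · rw [hw] at hfi; exact absurd hfi (by simp [FanPos])
        · rw [hw] at hfi
          rcases l with _ | ⟨u, _ | ⟨w, l⟩⟩
          · exact absurd hfi.1 (by simp)
          · exact absurd hfi.1 (by simp)
          · exact ⟨(v, u, w), by simp [fanTris]⟩
      obtain ⟨t, hti⟩ := htri
      have htT : t ∈ G.tris := List.mem_flatMap.2 ⟨_, List.get_mem G.inner i, hti⟩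
      obtain ⟨x, hx⟩ := tOpen_nonempty (hN.pos t htT)
      have hxi : x ∈ fanRegion p (G.inner.get i).1 := Or.inl ⟨t, hti, hx⟩
      rw [heq] at hxi
      rcases hxi with ⟨s, hs, hxs⟩ | ⟨s, hs, d, hd, _, hxs⟩
      · -- disjointness of triangles of different faces
        have hpw := hN.disj
        unfold FaceMap.tris at hpw
        rw [List.pairwise_flatMap] at hpw
        have h2 := hpw.2
        rw [List.pairwise_iff_get] at h2
        have h3 := h2 i j hij t hti s hs
        exact Set.disjoint_left.1 h3 hx hxs
      · have hsT : s ∈ G.tris := List.mem_flatMap.2 ⟨_, List.get_mem G.inner j, hs⟩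
        exact hPl.openDisj t htT d (List.mem_flatMap.2 ⟨s, hsT, hd⟩) x
          (openSegment_subset_segment ℝ _ _ hxs) hx
    intro i j hij
    by_contra hne'
    rcases lt_or_gt_of_ne hne' with h | h
    · exact hdis i j h hij
    · exact hdis j i h hij.symm

end Pool.Agent.PAH
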