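import Pool.Agent.PAH.AsmDraw

set_option autoImplicit false

/-!
# Assembly: the fabric is a plane graph, and solutions give realizations
-/

namespace Pool.Agent.PAH

open MeasureTheory

variable {V : Type}

/-! ## congruence lemmas -/

lemma mem_of_mem_dartsOf {w : List V} {d : V × V} (h : d ∈ dartsOf w) : d.1 ∈ w ∧ d.2 ∈ w := by
  unfold dartsOf at h
  obtain ⟨h1, h2⟩ := List.of_mem_zip (a := d.1) (b := d.2) h
  exact ⟨h1, List.mem_rotate.1 h2⟩

lemma wsum_congr {φ ψ : V → V → ℝ} {w : List V}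
    (h : ∀ u ∈ w, ∀ v ∈ w, φ u v = ψ u v) : wsum φ w = wsum ψ w := by
  unfold wsum
  congr 1
  apply List.map_congr_left
  intro d hd
  exact h _ (mem_of_mem_dartsOf hd).1 _ (mem_of_mem_dartsOf hd).2

lemma shoelace_congr {p q : V → Plane} {w : List V} (h : ∀ v ∈ w, p v = q v) :
    shoelace p w = shoelace q w := by
  unfold shoelace
  apply wsum_congr
  intro u hu v hv
  rw [h u hu, h v hv]

lemma fanPos_congr {p q : V → Plane} {w : List V} (h : ∀ v ∈ w, p v = q v)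
    (hf : FanPos p w) : FanPos q w := by
  cases w with
  | nil => exact hf
  | cons v l =>
    refine ⟨hf.1, ?_⟩
    have h2 := hf.2
    rw [List.isChain_iff_getElem] at h2 ⊢
    intro i hi
    have h3 := h2 i hi
    rw [← h v (by simp), ← h _ (List.mem_cons_of_mem _ (List.getElem_mem _)),
      ← h _ (List.mem_cons_of_mem _ (List.getElem_mem _))]
    exact h3

/-! ## scaling -/

lemma det3_smul (c : ℝ) (x y z : Plane) : det3 (c • x) (c • y) (c • z) = c ^ 2 * det3 x y z := by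
  unfold det3
  simp only [Prod.smul_fst, Prod.smul_snd, smul_eq_mul]
  ring

lemma wsum_mul (c : ℝ) (φ : V → V → ℝ) (w : List V) :
    wsum (fun u v => c * φ u v) w = c * wsum φ w := by
  unfold wsum
  rw [← List.sum_map_mul_left]

lemma shoelace_smul (c : ℝ) (p : V → Plane) (w : List V) :
    shoelace (fun v => c • p v) w = c ^ 2 * shoelace p w := by
  unfold shoelace
  rw [← wsum_mul]
  apply wsum_congr
  intro u _ v _
  simp only [Prod.smul_fst, Prod.smul_snd, smul_eq_mul]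
  ring

lemma fanPos_smul {c : ℝ} (hc : 0 < c) {p : V → Plane} {w : List V} (hf : FanPos p w) :
    FanPos (fun v => c • p v) w := by
  cases w with
  | nil => exact hf
  | cons v l =>
    refine ⟨hf.1, hf.2.imp ?_⟩
    intro x y hxy
    rw [det3_smul]
    positivity

/-! ## positions of all vertices -/

open Classical in
/-- positions of all vertices: corners by `lpos`, inner vertices of the macros by `ipt` -/
noncomputable def fpos (n m : ℕ) (τ : ℕ → ℕ → Ty) (ξ η : ℕ → ℕ → ℝ) (v : VX) : Plane :=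
  if h : ∃ qk : Quad × ℕ, qk.1 ∈ fabricQuads n m ∧ 1 ≤ qk.2 ∧ qk.2 ≤ 6 ∧ v = qk.1.iv qk.2 then
    ipt (fT n m) (lpos n m τ ξ η) h.choose.1 h.choose.2
  else lpos n m τ ξ η v

lemma quad_eq_of_id (hI : TargetIds) {n m : ℕ} {q q' : Quad} (hq : q ∈ fabricQuads n m)
    (hq' : q' ∈ fabricQuads n m) (h : (q.x, q.y, q.t) = (q'.x, q'.y, q'.t)) : q = q' := by
  by_contra hne
  have h1 := (hI n m).1
  rw [List.pairwise_iff_getElem] at h1
  obtain ⟨i, hi, rfl⟩ := List.getElem_of_mem hq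
  obtain ⟨j, hj, rfl⟩ := List.getElem_of_mem hq'
  rcases lt_trichotomy i j with hij | hij | hij
  · exact h1 i j hi hj hij h
  · subst hij; exact hne rfl
  · exact h1 j i hj hi hij h.symm

lemma fpos_iv (hI : TargetIds) {n m : ℕ} {τ : ℕ → ℕ → Ty} {ξ η : ℕ → ℕ → ℝ} {q : Quad}
    (hq : q ∈ fabricQuads n m) {k : ℕ} (hk : 1 ≤ k) (hk' : k ≤ 6) :
    fpos n m τ ξ η (q.iv k) = ipt (fT n m) (lpos n m τ ξ η) q k := by
  have h : ∃ qk : Quad × ℕ, qk.1 ∈ fabricQuads n m ∧ 1 ≤ qk.2 ∧ qk.2 ≤ 6 ∧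
    q.iv k = qk.1.iv qk.2 := ⟨(q, k), hq, hk, hk', rfl⟩
  have h2 : h.choose = (q, k) := by
    obtain ⟨h3, h4, h5, h6⟩ := h.choose_spec
    generalize h.choose = z at h3 h4 h5 h6
    obtain ⟨q', k'⟩ := z
    simp only at h3 h4 h5 h6
    unfold Quad.iv at h6
    simp only [Prod.mk.injEq] at h6
    obtain ⟨h7, h8, h9⟩ := h6
    have h10 : q.t = q'.t := by omega
    have h11 : k = k' := by omega
    have h12 : q = q' := quad_eq_of_id hI hq h3 (by rw [h7, h8, h10])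
    rw [h11, h12]
  unfold fpos
  rw [dif_pos h, h2]

lemma fpos_lat (hI : TargetIds) {n m : ℕ} {τ : ℕ → ℕ → Ty} {ξ η : ℕ → ℕ → ℝ} {v : VX}
    (hv : v.2.2 = 0 ∨ v = vq ∨ v = vo1 ∨ v = vo2 ∨ v = vo3) :
    fpos n m τ ξ η v = lpos n m τ ξ η v := by
  unfold fpos
  rw [dif_neg]
  rintro ⟨⟨q, k⟩, hq, hk, hk', h⟩
  simp only at hq hk hk' h
  have ht := ((hI n m).2.1 q hq).1
  have h2 : v.2.2 = 6 * q.t + k := by rw [h]; rfl
  rcases hv with h3 | h3 | h3 | h3 | h3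
  · omega
  all_goals
    rw [h3] at h2
    simp only [vq, vo1, vo2, vo3] at h2
    omega

lemma fT_ge (n m : ℕ) : 64 ≤ fT n m := by
  unfold fT
  calc 64 = 2 ^ 6 := by norm_num
    _ ≤ 2 ^ (fN n m + 6) := Nat.pow_le_pow_right (by norm_num) (by omega)

lemma fpos_isPar (hI : TargetIds) (hQ : TargetQuads) {n m : ℕ} {τ : ℕ → ℕ → Ty}
    {ξ η : ℕ → ℕ → ℝ} (hB : BArr n m ξ η) {q : Quad} (hq : q ∈ fabricQuads n m) :
    IsPar (fpos n m τ ξ η) q := by
  have h1 := hQ n m τ ξ η hB q hq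
  have h2 := ((hI n m).2.1 q hq).2.2
  have h3 : ∀ v ∈ [q.a, q.b, q.c, q.d], fpos n m τ ξ η v = lpos n m τ ξ η v := by
    intro v hv
    apply fpos_lat hI
    rcases h2 v hv with h | h
    · exact Or.inl h
    · exact Or.inr (Or.inl h)
  unfold IsPar
  rw [h3 q.a (by simp), h3 q.b (by simp), h3 q.c (by simp), h3 q.d (by simp)]
  exact h1

lemma fpos_ipt (hI : TargetIds) {n m : ℕ} {τ : ℕ → ℕ → Ty}
    {ξ η : ℕ → ℕ → ℝ} {q : Quad} (hq : q ∈ fabricQuads n m) (k : ℕ) (hk : 1 ≤ k) (hk' : k ≤ 6) :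
    fpos n m τ ξ η (q.iv k) = ipt (fT n m) (fpos n m τ ξ η) q k := by
  rw [fpos_iv hI hq hk hk']
  have h2 := ((hI n m).2.1 q hq).2.2
  have h3 : ∀ v ∈ [q.a, q.b, q.c, q.d], fpos n m τ ξ η v = lpos n m τ ξ η v := by
    intro v hv
    apply fpos_lat hI
    rcases h2 v hv with h | h
    · exact Or.inl h
    · exact Or.inr (Or.inl h)
  unfold ipt
  rw [h3 q.a (by simp), h3 q.b (by simp), h3 q.c (by simp), h3 q.d (by simp)]

lemma mem_fabric_inner {n m : ℕ} {τ : ℕ → ℕ → Ty} {f : List VX × ℚ}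
    (hf : f ∈ (fabric n m τ).inner) :
    ∃ g ∈ fabricFaces n m τ, f = (g.1, (g.2 : ℚ)) := by
  obtain ⟨g, hg, h⟩ := List.mem_map.1 hf
  exact ⟨g, hg, h.symm⟩

lemma mem_fabricFaces {n m : ℕ} {τ : ℕ → ℕ → Ty} {g : List VX × ℕ}
    (hg : g ∈ fabricFaces n m τ) :
    (∃ q ∈ fabricQuads n m, g ∈ macroFaces (fT n m) q) ∨
      ∃ f ∈ fabricPlain n m τ, g = (f.1, f.2 * mZ (fT n m)) := by
  unfold fabricFaces at hg
  rcases List.mem_append.1 hg with h | h
  · exact Or.inl (List.mem_flatMap.1 h)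
  · obtain ⟨f, hf, h⟩ := List.mem_map.1 h
    exact Or.inr ⟨f, hf, h.symm⟩

/-- the fans are positive for all small displacements -/
lemma fabric_fans (hI : TargetIds) (hQ : TargetQuads) (hF : TargetFans) (hM : TargetMacroYes)
    {n m : ℕ} {τ : ℕ → ℕ → Ty} {ξ η : ℕ → ℕ → ℝ} (hn : 1 ≤ n) (hB : BArr n m ξ η)
    (h1 : ∀ i j, |ξ i j| ≤ 1 / 16) (h2 : ∀ i j, |η i j| ≤ 1 / 16) (h3 : 0 < ξ 1 1) :
    ∀ g ∈ fabricFaces n m τ, FanPos (fpos n m τ ξ η) g.1 := by
  intro g hg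
  rcases mem_fabricFaces hg with ⟨q, hq, hgq⟩ | ⟨f, hf, rfl⟩
  · exact (hM (fT n m) q (fpos n m τ ξ η) (fT_ge n m) ((hI n m).2.1 q hq).2.1
      (fpos_isPar hI hQ hB hq) (fpos_ipt hI hq) g hgq).2
  · refine fanPos_congr ?_ (hF n m τ ξ η hn hB h1 h2 h3 f hf)
    intro v hv
    exact (fpos_lat hI ((hI n m).2.2 τ f hf v hv)).symm

/-- the areas are right for solutions -/
lemma fabric_areas (hI : TargetIds) (hQ : TargetQuads) (hA : TargetAreas) (hM : TargetMacroYes)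
    {n m : ℕ} {τ : ℕ → ℕ → Ty} {ξ η : ℕ → ℕ → ℝ} (hn : 1 ≤ n) (hB : BArr n m ξ η)
    (hR : FullRel n m τ ξ η) :
    ∀ g ∈ fabricFaces n m τ, shoelace (fpos n m τ ξ η) g.1 * mZ (fT n m) = g.2 := by
  intro g hg
  rcases mem_fabricFaces hg with ⟨q, hq, hgq⟩ | ⟨f, hf, rfl⟩
  · exact (hM (fT n m) q (fpos n m τ ξ η) (fT_ge n m) ((hI n m).2.1 q hq).2.1
      (fpos_isPar hI hQ hB hq) (fpos_ipt hI hq) g hgq).1
  · have h1 : shoelace (fpos n m τ ξ η) f.1 = shoelace (lpos n m τ ξ η) f.1 := by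
      apply shoelace_congr
      intro v hv
      exact fpos_lat hI ((hI n m).2.2 τ f hf v hv)
    simp only [Nat.cast_mul]
    rw [h1, hA n m τ ξ η hn hB hR f hf]

lemma mZ_pos {T : ℕ} (h : 64 ≤ T) : 0 < mZ T := by unfold mZ; positivity

lemma mZ_cast_pos (n m : ℕ) : (0 : ℝ) < (mZ (fT n m) : ℝ) := Nat.cast_pos.2 (mZ_pos (fT_ge n m))

lemma inner_ne (n m : ℕ) (τ : ℕ → ℕ → Ty) : (fabric n m τ).inner ≠ [] := by
  intro h
  have h1 : fabricFaces n m τ = [] := List.map_eq_nil_iff.1 h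
  have h2 := (List.append_eq_nil_iff.1 h1).2
  have h3 := (List.append_eq_nil_iff.1 (List.map_eq_nil_iff.1 h2)).2
  exact List.cons_ne_nil _ _ h3

/-- a drawing from positions, scaled so that a face of shoelace area `s` gets area `s * Z` -/
lemma drawing_scaled (hD : TargetDrawing) (hCh : TargetChain) {n m : ℕ} {τ : ℕ → ℕ → Ty}
    (hn : 1 ≤ n) {p : VX → Plane} (hfan : ∀ g ∈ fabricFaces n m τ, FanPos p g.1) :
    ∃ D : Drawing (fabric n m τ), D.pos = fun v => Real.sqrt (2 * mZ (fT n m)) • p v := by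
  have hc : 0 < Real.sqrt (2 * mZ (fT n m)) :=
    Real.sqrt_pos.2 (mul_pos two_pos (mZ_cast_pos n m))
  have hout : (fabric n m τ).outer = [vo1, vo3, vo2] := rfl
  refine hD (fabric n m τ) _ vo1 vo2 vo3 hout (inner_ne n m τ) (hCh n m τ hn) ?_
  intro f hf
  obtain ⟨g, hg, rfl⟩ := mem_fabric_inner hf
  exact fanPos_smul hc (hfan g hg)

/-- displacement arrays which only open the special face -/
noncomputable def ξ₁ : ℕ → ℕ → ℝ := fun i j => if i = 1 ∧ j = 1 then 1 / 16 else 0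

lemma bArr_one {n m : ℕ} : BArr n m ξ₁ (fun _ _ => 0) where
  x0 := by intro i; simp [ξ₁]
  xr := by intro i; simp [ξ₁]
  xb := by intro i; simp [ξ₁]
  y0 := by intro i; rfl
  y1 := by intro i; rfl
  yt := by intro i; rfl

theorem fabric_plane (hD : TargetDrawing) (hCh : TargetChain) (hI : TargetIds)
    (hQ : TargetQuads) (hF : TargetFans) (hM : TargetMacroYes) {n m : ℕ} {τ : ℕ → ℕ → Ty}
    (hn : 1 ≤ n) : (fabric n m τ).IsPlane := by
  have h := fabric_fans hI hQ hF hM (τ := τ) (n := n) (m := m) hn bArr_one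
    (by intro i j; unfold ξ₁; split_ifs <;> norm_num) (by intro i j; norm_num)
    (by unfold ξ₁; norm_num)
  obtain ⟨D, -⟩ := drawing_scaled hD hCh hn h
  exact ⟨D⟩

theorem fabric_realizable (hD : TargetDrawing) (hArea : TargetArea) (hCh : TargetChain)
    (hI : TargetIds) (hQ : TargetQuads) (hF : TargetFans) (hA : TargetAreas)
    (hM : TargetMacroYes) (hE : TargetExt) {n m : ℕ} {τ : ℕ → ℕ → Ty} (hn : 1 ≤ n)
    {ξ η : ℕ → ℕ → ℝ} (hS : Sol n m τ ξ η)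
    (h1 : ∀ i j, |ξ i j| ≤ 1 / (16 * ((n : ℝ) + 2)))
    (h2 : ∀ i j, |η i j| ≤ 1 / (16 * ((n : ℝ) + 2))) (h3 : 0 < ξ 1 1) :
    (fabric n m τ).Realizable := by
  obtain ⟨ξ', η', hB, hR, h4, h5, h6⟩ := hE n m τ ξ η (1 / (16 * ((n : ℝ) + 2)))
    (by positivity) hn hS h1 h2
  have he : ((n : ℝ) + 2) * (1 / (16 * ((n : ℝ) + 2))) = 1 / 16 := by
    have : (n : ℝ) + 2 ≠ 0 := by positivity
    field_simp
  have hfan := fabric_fans hI hQ hF hM (τ := τ) hn hB (fun i j => (h5 i j).trans_eq he)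
    (fun i j => (h6 i j).trans_eq he) (by rw [h4]; exact h3)
  have harea := fabric_areas hI hQ hA hM (τ := τ) hn hB hR
  obtain ⟨D, hpos⟩ := drawing_scaled hD hCh hn hfan
  refine ⟨D, fun i => ?_⟩
  rw [(hArea _ D i).1, hpos, shoelace_smul]
  congr 1
  obtain ⟨g, hg, hgi⟩ := mem_fabric_inner (List.get_mem (fabric n m τ).inner i)
  have h7 := harea g hg
  rw [hgi]
  simp only
  rw [Real.sq_sqrt (mul_pos two_pos (mZ_cast_pos n m)).le]
  rw [Rat.cast_natCast, ← h7]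
  ring

end Pool.Agent.PAH
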