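import Pool.Agent.PAH.AsmFab

set_option autoImplicit false

/-!
# Assembly: realizations of the fabric give solutions
-/

namespace Pool.Agent.PAH

open MeasureTheory

variable {V : Type}

/-! ## determinants in a triangle -/

lemma det3_affine_left (K : ℝ) (y z : Plane) : Convex ℝ {x : Plane | |det3 x y z| ≤ K} := by
  intro x hx x' hx' s t hs ht hst
  change |det3 x y z| ≤ K at hx
  change |det3 x' y z| ≤ K at hx'
  change |det3 (s • x + t • x') y z| ≤ K
  have h : det3 (s • x + t • x') y z = s * det3 x y z + t * det3 x' y z := by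
    have ht' : t = 1 - s := by linarith
    subst ht'
    unfold det3
    simp only [Prod.fst_add, Prod.snd_add, Prod.smul_fst, Prod.smul_snd, smul_eq_mul]
    ring
  rw [h]
  calc |s * det3 x y z + t * det3 x' y z| ≤ |s * det3 x y z| + |t * det3 x' y z| := abs_add_le _ _
    _ = s * |det3 x y z| + t * |det3 x' y z| := by
        rw [abs_mul, abs_mul, abs_of_nonneg hs, abs_of_nonneg ht]
    _ ≤ s * K + t * K := by gcongr
    _ = K := by rw [← add_mul, hst, one_mul]

lemma det3_cyc (x y z : Plane) : det3 x y z = det3 y z x := by unfold det3; ring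

lemma det3_hull {A B C : Plane} {K : ℝ} (hK : |det3 A B C| ≤ K) {x y z : Plane}
    (hx : x ∈ convexHull ℝ ({A, B, C} : Set Plane)) (hy : y ∈ convexHull ℝ ({A, B, C} : Set Plane))
    (hz : z ∈ convexHull ℝ ({A, B, C} : Set Plane)) : |det3 x y z| ≤ K := by
  have hK0 : 0 ≤ K := (abs_nonneg _).trans hK
  have h0 : ∀ x ∈ ({A, B, C} : Set Plane), ∀ y ∈ ({A, B, C} : Set Plane),
      ∀ z ∈ ({A, B, C} : Set Plane), |det3 x y z| ≤ K := by
    have e1 : ∀ x y : Plane, det3 x x y = 0 := by intro x y; unfold det3; ring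
    have e2 : ∀ x y : Plane, det3 x y x = 0 := by intro x y; unfold det3; ring
    have e3 : ∀ x y : Plane, det3 y x x = 0 := by intro x y; unfold det3; ring
    have e4 : ∀ x y z : Plane, det3 x y z = - det3 x z y := by intro x y z; unfold det3; ring
    have k1 : |det3 A B C| ≤ K := hK
    have k2 : |det3 B C A| ≤ K := by rw [← det3_cyc]; exact hK
    have k3 : |det3 C A B| ≤ K := by rw [← det3_cyc, ← det3_cyc]; exact hK
    have k4 : |det3 A C B| ≤ K := by rw [e4, abs_neg]; exact k1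
    have k5 : |det3 B A C| ≤ K := by rw [e4, abs_neg]; exact k2
    have k6 : |det3 C B A| ≤ K := by rw [e4, abs_neg]; exact k3
    intro x hx y hy z hz
    simp only [Set.mem_insert_iff, Set.mem_singleton_iff] at hx hy hz
    rcases hx with rfl | rfl | rfl <;> rcases hy with rfl | rfl | rfl <;>
      rcases hz with rfl | rfl | rfl <;>
      first
        | assumption
        | (rw [e1, abs_zero]; exact hK0)
        | (rw [e2, abs_zero]; exact hK0)
        | (rw [e3, abs_zero]; exact hK0)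
  have h1 : ∀ x ∈ convexHull ℝ ({A, B, C} : Set Plane), ∀ y ∈ ({A, B, C} : Set Plane),
      ∀ z ∈ ({A, B, C} : Set Plane), |det3 x y z| ≤ K := by
    intro x hx y hy z hz
    exact convexHull_min (fun w hw => h0 w hw y hy z hz) (det3_affine_left K y z) hx
  have h2 : ∀ x ∈ convexHull ℝ ({A, B, C} : Set Plane),
      ∀ y ∈ convexHull ℝ ({A, B, C} : Set Plane),
      ∀ z ∈ ({A, B, C} : Set Plane), |det3 x y z| ≤ K := by
    intro x hx y hy z hz
    rw [det3_cyc]
    refine convexHull_min (fun w hw => ?_) (det3_affine_left K z x) hy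
    show |det3 w z x| ≤ K
    rw [← det3_cyc]
    exact h1 x hx w hw z hz
  rw [← det3_cyc]
  refine convexHull_min (fun w hw => ?_) (det3_affine_left K x y) hz
  show |det3 w x y| ≤ K
  rw [det3_cyc]
  exact h2 x hx y hy w hw

lemma shoelace_three (p : V → Plane) (a b c : V) :
    shoelace p [a, b, c] = det3 (p a) (p b) (p c) := by
  unfold shoelace wsum
  rw [dartsOf_three]
  simp only [List.map_cons, List.map_nil, List.sum_cons, List.sum_nil]
  unfold det3
  ring

/-! ## total area -/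

lemma bArr_zero {n m : ℕ} : BArr n m (fun _ _ => 0) (fun _ _ => 0) where
  x0 := fun _ => rfl
  xr := fun _ => rfl
  xb := fun _ => rfl
  y0 := fun _ => rfl
  y1 := fun _ => rfl
  yt := fun _ => rfl

lemma fullRel_zero {n m : ℕ} {τ : ℕ → ℕ → Ty} : FullRel n m τ (fun _ _ => 0) (fun _ _ => 0) where
  node := by
    intro i j _ _ _ _
    cases τ i j <;> simp [NodeRel]
  last := fun _ _ _ => ⟨rfl, rfl⟩
  left := by intro i _ _; simp
  right := by intro i _ _; simp

lemma sum_shoelace {n m : ℕ} {τ : ℕ → ℕ → Ty} (hn : 1 ≤ n) (hCh : TargetChain)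
    (p : VX → Plane) :
    ((fabricFaces n m τ).map fun g => shoelace p g.1).sum =
      det3 (p vo1) (p vo2) (p vo3) := by
  have h := hCh n m τ hn (fun u v => (p u).1 * (p v).2 - (p u).2 * (p v).1) (by intro u v; ring)
  rw [← shoelace_three]
  unfold shoelace
  rw [← h]
  unfold fabric
  simp only [List.map_map]
  rfl

lemma total_area (hI : TargetIds) (hQ : TargetQuads) (hA : TargetAreas) (hM : TargetMacroYes)
    (hCh : TargetChain) {n m : ℕ} (τ : ℕ → ℕ → Ty) (hn : 1 ≤ n) :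
    ((fabricFaces n m τ).map fun g => (g.2 : ℝ)).sum =
      (((fN n m : ℝ) + 1) * ((fN n m : ℝ) + (3 * n + 6))) * mZ (fT n m) := by
  have h1 := fabric_areas hI hQ hA hM (τ := τ) hn (bArr_zero (n := n) (m := m)) fullRel_zero
  have h2 : ((fabricFaces n m τ).map fun g => (g.2 : ℝ)) =
      (fabricFaces n m τ).map fun g =>
        shoelace (fpos n m τ (fun _ _ => 0) (fun _ _ => 0)) g.1 * mZ (fT n m) := by
    apply List.map_congr_left
    intro g hg
    exact (h1 g hg).symm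
  rw [h2, List.sum_map_mul_right, sum_shoelace hn hCh]
  rw [fpos_lat hI (Or.inr (Or.inr (Or.inl rfl))), fpos_lat hI (Or.inr (Or.inr (Or.inr (Or.inl rfl)))),
    fpos_lat hI (Or.inr (Or.inr (Or.inr (Or.inr rfl))))]
  have e1 : lpos n m τ (fun _ _ => 0) (fun _ _ => 0) vo1 = (-1, -(fN n m : ℝ)) := by
    unfold lpos
    rw [if_neg (by decide), if_pos rfl]
  have e2 : lpos n m τ (fun _ _ => 0) (fun _ _ => 0) vo2 = ((fN n m : ℝ), 3 * (n : ℝ) + 6) := by
    unfold lpos
    rw [if_neg (by decide), if_neg (by decide), if_pos rfl]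
  have e3 : lpos n m τ (fun _ _ => 0) (fun _ _ => 0) vo3 = (-1, 3 * (n : ℝ) + 6) := by
    unfold lpos
    rw [if_neg (by decide), if_neg (by decide), if_neg (by decide), if_pos rfl]
  rw [e1, e2, e3]
  unfold det3
  simp only
  ring

lemma total_le (n m : ℕ) :
    ((fN n m : ℝ) + 1) * ((fN n m : ℝ) + (3 * n + 6)) ≤ (fT n m : ℝ) ^ 2 := by
  have h1 : fN n m + 1 ≤ 2 ^ fN n m := Nat.succ_le_of_lt Nat.lt_two_pow_self
  have h2 : 3 * n + 6 ≤ fN n m := by unfold fN; omega
  have h3 : (fN n m + 1) * (fN n m + (3 * n + 6)) ≤ fT n m ^ 2 := by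
    calc (fN n m + 1) * (fN n m + (3 * n + 6)) ≤ (2 ^ fN n m) * (2 * 2 ^ fN n m) := by
          apply Nat.mul_le_mul h1
          omega
      _ ≤ (2 ^ (fN n m + 6)) ^ 2 := by
          rw [pow_add, mul_pow]
          nlinarith [Nat.zero_le ((2 ^ fN n m) ^ 2)]
      _ = fT n m ^ 2 := rfl
  exact_mod_cast h3

lemma total_nonneg (n m : ℕ) :
    0 ≤ ((fN n m : ℝ) + 1) * ((fN n m : ℝ) + (3 * n + 6)) := by positivity

/-! ## from a realization to positions in base units -/

lemma walk_darts {G : FaceMap V} {f : List V × ℚ} (hf : f ∈ G.inner) {d : V × V}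
    (hd : d ∈ dartsOf f.1) : d ∈ G.darts := by
  unfold FaceMap.darts FaceMap.walks
  rw [List.flatMap_cons, List.mem_append]
  right
  exact List.mem_flatMap.2 ⟨f.1, List.mem_map.2 ⟨f, hf, rfl⟩, hd⟩

lemma special_mem (n m : ℕ) (τ : ℕ → ℕ → Ty) :
    ([vq, pt 5 2, pt 5 3, pt 5 4, pt 4 4, pt 3 4, pt 3 3], 4) ∈ fabricPlain n m τ := by
  unfold fabricPlain
  rw [List.mem_append]
  left
  rw [List.mem_flatMap]
  refine ⟨0, List.mem_range.2 (Nat.succ_pos n), ?_⟩
  rw [List.mem_flatMap]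
  refine ⟨0, List.mem_range.2 (Nat.succ_pos _), ?_⟩
  unfold holeFaces
  simp

lemma ofReal_aux {v : ENNReal} {s a : ℝ} (h1 : v = ENNReal.ofReal (s / 2))
    (h2 : v = ENNReal.ofReal a) (hs : 0 < s) (ha : 0 ≤ a) : s = 2 * a := by
  rw [h1, ENNReal.ofReal_eq_ofReal_iff (by linarith) ha] at h2
  linarith

lemma mem_inner_of {n m : ℕ} {τ : ℕ → ℕ → Ty} {g : List VX × ℕ} (hg : g ∈ fabricFaces n m τ) :
    (g.1, (g.2 : ℚ)) ∈ (fabric n m τ).inner := by
  have h : (fabric n m τ).inner = (fabricFaces n m τ).map (fun f => (f.1, (f.2 : ℚ))) := rfl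
  rw [h]
  exact List.mem_map_of_mem hg

lemma mem_faces_of {n m : ℕ} {τ : ℕ → ℕ → Ty} {f : List VX × ℕ} (hf : f ∈ fabricPlain n m τ) :
    (f.1, f.2 * mZ (fT n m)) ∈ fabricFaces n m τ := by
  unfold fabricFaces
  exact List.mem_append_right _ (List.mem_map_of_mem hf)

lemma mem_faces_of_quad {n m : ℕ} {τ : ℕ → ℕ → Ty} {q : Quad} (hq : q ∈ fabricQuads n m)
    {f : List VX × ℕ} (hf : f ∈ macroFaces (fT n m) q) : f ∈ fabricFaces n m τ := by
  unfold fabricFaces
  exact List.mem_append_left _ (List.mem_flatMap.2 ⟨q, hq, hf⟩)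

theorem sol_of_realizable (hArea : TargetArea) (hHull : TargetHull) (hCh : TargetChain)
    (hI : TargetIds) (hQ : TargetQuads) (hA : TargetAreas) (hM : TargetMacroYes)
    (hMN : TargetMacroNo) (hFr : TargetFrame) (hRi : TargetRigid) (hNo : TargetNodes)
    {n m : ℕ} {τ : ℕ → ℕ → Ty} (hn : 1 ≤ n) (h : (fabric n m τ).Realizable) :
    ∃ ξ η, Sol n m τ ξ η ∧ ξ 1 1 ≠ 0 := by
  obtain ⟨D, hvol⟩ := h
  have hZ : (0 : ℝ) < (mZ (fT n m) : ℝ) := mZ_cast_pos n m
  generalize hz : (mZ (fT n m) : ℝ) = Z at hZ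
  -- shoelace of the drawing
  have h1 : ∀ g ∈ fabricFaces n m τ, shoelace D.pos g.1 = 2 * (g.2 : ℝ) := by
    intro g hg
    have hmem := mem_inner_of hg
    obtain ⟨i, hi⟩ := List.get_of_mem hmem
    obtain ⟨ha, hb⟩ := hArea _ D i
    have hv := hvol i
    rw [hi] at ha hb hv
    have hnn : (0 : ℝ) ≤ (((g.2 : ℕ) : ℚ) : ℝ) := by
      rw [Rat.cast_natCast]; exact Nat.cast_nonneg _
    have hfin := ofReal_aux ha hv hb hnn
    rw [Rat.cast_natCast] at hfin
    exact hfin
  have hc : 0 < Real.sqrt (2 * Z) := Real.sqrt_pos.2 (by linarith)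
  obtain ⟨p, hp⟩ : ∃ p : VX → Plane, p = fun v => (Real.sqrt (2 * Z))⁻¹ • D.pos v := ⟨_, rfl⟩
  have hc2 : ((Real.sqrt (2 * Z))⁻¹) ^ 2 = 1 / (2 * Z) := by
    rw [inv_pow, Real.sq_sqrt (by linarith), one_div]
  have h2 : ∀ g ∈ fabricFaces n m τ, shoelace p g.1 * Z = g.2 := by
    intro g hg
    rw [hp, shoelace_smul, hc2, h1 g hg]
    field_simp
  have hin : ∀ g ∈ fabricFaces n m τ, ∀ v ∈ g.1,
      D.pos v ∈ convexHull ℝ ({D.pos vo1, D.pos vo2, D.pos vo3} : Set Plane) := by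
    intro g hg v hv
    exact (hHull _ D vo1 vo2 vo3 rfl).1 (g.1, (g.2 : ℚ)) (mem_inner_of hg) v hv
  -- total area
  have htot : det3 (p vo1) (p vo2) (p vo3) ≤ (fT n m : ℝ) ^ 2 ∧
      0 ≤ det3 (p vo1) (p vo2) (p vo3) := by
    have e1 := total_area hI hQ hA hM hCh (n := n) (m := m) τ hn
    have e2 := sum_shoelace (m := m) (τ := τ) hn hCh p
    have e3 : ((fabricFaces n m τ).map fun g => (g.2 : ℝ)) =
        (fabricFaces n m τ).map fun g => shoelace p g.1 * Z := by
      apply List.map_congr_left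
      intro g hg
      exact (h2 g hg).symm
    rw [e3, List.sum_map_mul_right, e2, hz] at e1
    have e4 : det3 (p vo1) (p vo2) (p vo3) =
        ((fN n m : ℝ) + 1) * ((fN n m : ℝ) + (3 * n + 6)) := mul_right_cancel₀ hZ.ne' e1
    rw [e4]
    exact ⟨total_le n m, total_nonneg n m⟩
  have hbd : ∀ u v w : VX, (∃ g ∈ fabricFaces n m τ, u ∈ g.1) →
      (∃ g ∈ fabricFaces n m τ, v ∈ g.1) → (∃ g ∈ fabricFaces n m τ, w ∈ g.1) →
      |det3 (p u) (p v) (p w)| ≤ (fT n m : ℝ) ^ 2 := by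
    rintro u v w ⟨g, hg, hu⟩ ⟨g', hg', hv⟩ ⟨g'', hg'', hw⟩
    have e1 := det3_hull (le_refl |det3 (D.pos vo1) (D.pos vo2) (D.pos vo3)|)
      (hin g hg u hu) (hin g' hg' v hv) (hin g'' hg'' w hw)
    have e2 : |det3 (p u) (p v) (p w)| ≤ |det3 (p vo1) (p vo2) (p vo3)| := by
      rw [hp]
      simp only [det3_smul, abs_mul]
      exact mul_le_mul_of_nonneg_left e1 (abs_nonneg _)
    rw [abs_of_nonneg htot.2] at e2
    exact e2.trans htot.1
  -- macros
  have hpar : ∀ q ∈ fabricQuads n m, IsPar p q := by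
    intro q hq
    have hmf : ∀ f ∈ macroFaces (fT n m) q, f ∈ fabricFaces n m τ := by
      intro f hf
      exact mem_faces_of_quad hq hf
    have mb : ∃ g ∈ fabricFaces n m τ, q.b ∈ g.1 :=
      ⟨([q.b, q.c, q.iv 1], mA1 (fT n m) * q.M), hmf _ (by simp [macroFaces]), by simp⟩
    have mc : ∃ g ∈ fabricFaces n m τ, q.c ∈ g.1 :=
      ⟨([q.b, q.c, q.iv 1], mA1 (fT n m) * q.M), hmf _ (by simp [macroFaces]), by simp⟩
    have md : ∃ g ∈ fabricFaces n m τ, q.d ∈ g.1 :=
      ⟨([q.d, q.a, q.iv 4], mA1 (fT n m) * q.M), hmf _ (by simp [macroFaces]), by simp⟩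
    have ma : ∃ g ∈ fabricFaces n m τ, q.a ∈ g.1 :=
      ⟨([q.d, q.a, q.iv 4], mA1 (fT n m) * q.M), hmf _ (by simp [macroFaces]), by simp⟩
    refine hMN (fT n m) q p (fT_ge n m) ((hI n m).2.1 q hq).2.1 ?_ (hbd _ _ _ mb mc ma)
      (hbd _ _ _ md ma mc)
    intro f hf
    rw [hz]
    exact h2 f (hmf f hf)
  -- plain faces
  have hplain : ∀ f ∈ fabricPlain n m τ, shoelace p f.1 = f.2 := by
    intro f hf
    have e1 := h2 (f.1, f.2 * mZ (fT n m)) (mem_faces_of hf)
    simp only [Nat.cast_mul] at e1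
    rw [hz] at e1
    exact mul_right_cancel₀ hZ.ne' e1
  -- the pinned vertex
  have hpin : p vq ≠ p (pt 5 3) := by
    intro heq
    have e1 : D.pos vq = D.pos (pt 5 3) := by
      rw [hp] at heq
      exact smul_right_injective Plane (inv_ne_zero hc.ne') heq
    have hmem := mem_inner_of (mem_faces_of (special_mem n m τ))
    have d1 : (vq, pt 5 2) ∈ (fabric n m τ).darts :=
      walk_darts hmem (by simp [dartsOf, List.rotate])
    have d2 : (pt 5 3, pt 5 4) ∈ (fabric n m τ).darts :=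
      walk_darts hmem (by simp [dartsOf, List.rotate])
    have e2 := D.inj _ d1 _ d2 e1
    exact absurd e2 (by decide)
  obtain ⟨p', f1, f2, f3, f4, f5⟩ := hFr n m p hpar
  obtain ⟨ξ, η, r1, r2, r3⟩ := hRi n m p' f3 f5
  exact ⟨ξ, η, hNo n m τ p' ξ η hn (fun f hf => by rw [f4]; exact hplain f hf) f5 r1 r2 r3
    (fun heq => hpin (f2 _ _ heq))⟩

end Pool.Agent.PAH
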