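import Pool.Agent.PAH.Defs

set_option autoImplicit false

/-!
# Auxiliary notions used in the proof: shoelace sums, boundary chains, fans, macros, the fabric
-/

namespace Pool.Agent.PAH

variable {V : Type}

/-! ## Walks -/

/-- sum of `φ u v` over the directed edges of a closed walk -/
def wsum (φ : V → V → ℝ) (w : List V) : ℝ := ((dartsOf w).map fun d => φ d.1 d.2).sum

/-- twice the signed area of a closed walk -/
def shoelace (p : V → Plane) (w : List V) : ℝ :=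
  wsum (fun u v => (p u).1 * (p v).2 - (p u).2 * (p v).1) w

/-- the boundary of the sum of the walks `L` is the closed walk `o` -/
def ChainEq (L : List (List V)) (o : List V) : Prop :=
  ∀ φ : V → V → ℝ, (∀ u v, φ u v = - φ v u) → (L.map (wsum φ)).sum = wsum φ o

/-- the triangles of the fan of the closed walk from its first vertex are positively oriented -/
def FanPos (p : V → Plane) : List V → Prop
  | [] => False
  | v :: l => 2 ≤ l.length ∧ l.IsChain (fun a b => 0 < det3 (p v) (p a) (p b))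

/-- relabelling the vertices -/
def FaceMap.map {W : Type} (g : V → W) (G : FaceMap V) : FaceMap W :=
  ⟨G.outer.map g, G.inner.map fun f => (f.1.map g, f.2)⟩

/-! ## The parallelogram macro -/

/-- vertices of the fabric: lattice points `(x, y, 0)` and auxiliary vertices `(x, y, c)` -/
abbrev VX : Type := ℕ × ℕ × ℕ

/-- lattice point -/
def pt (x y : ℕ) : VX := (x, y, 0)
/-- the pinned vertex which forces `x ≠ 0` -/
def vq : VX := (0, 0, 20)
/-- corners of the outer triangle -/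
def vo1 : VX := (0, 0, 21)
def vo2 : VX := (0, 0, 22)
def vo3 : VX := (0, 0, 23)

/-- a parallelogram to be filled by a macro: identifier `(x, y, t)`, corners `a b c d`
(counterclockwise), and the number `M` (twice the area of the triangle `a b d`) -/
structure Quad where
  x : ℕ
  y : ℕ
  t : ℕ
  a : VX
  b : VX
  c : VX
  d : VX
  M : ℕ

/-- inner vertices of the macro, `k = 1, …, 6` -/
def Quad.iv (q : Quad) (k : ℕ) : VX := (q.x, q.y, 6 * q.t + k)

/-- the seven areas of a macro (for `M = 1`) -/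
def mA1 (T : ℕ) : ℕ := 64 * T ^ 6
def mA2 (T : ℕ) : ℕ := 8 * T ^ 3
def mA3 (T : ℕ) : ℕ := 64 * T ^ 6 + 32 * T ^ 4
def mA4 (T : ℕ) : ℕ := 32 * T ^ 6 + 24 * T ^ 4 + 30 * T ^ 3
def mA5 (T : ℕ) : ℕ := 4 * T ^ 3 - (12 * T ^ 2 + 15 * T + 3)
def mA6 (T : ℕ) : ℕ := 32 * T ^ 6 + 12 * T ^ 2 + 15 * T + 3 - (56 * T ^ 4 + 18 * T ^ 3)
def mA7 (T : ℕ) : ℕ := 64 * T ^ 6 - 24 * T ^ 3

/-- the unit of area: a face of base area `d / 2` gets the prescribed area `d * mZ T` -/
def mZ (T : ℕ) : ℕ := 256 * T ^ 6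

/-- the fourteen triangles of a macro with their areas -/
def macroFaces (T : ℕ) (q : Quad) : List (List VX × ℕ) :=
  [([q.b, q.c, q.iv 1], mA1 T * q.M),
   ([q.b, q.iv 1, q.iv 2], mA2 T * q.M),
   ([q.b, q.iv 2, q.a], mA3 T * q.M),
   ([q.c, q.iv 3, q.iv 1], mA4 T * q.M),
   ([q.iv 3, q.iv 2, q.iv 1], mA5 T * q.M),
   ([q.a, q.iv 2, q.iv 3], mA6 T * q.M),
   ([q.d, q.a, q.iv 4], mA1 T * q.M),
   ([q.d, q.iv 4, q.iv 5], mA2 T * q.M),
   ([q.d, q.iv 5, q.c], mA3 T * q.M),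
   ([q.a, q.iv 6, q.iv 4], mA4 T * q.M),
   ([q.iv 6, q.iv 5, q.iv 4], mA5 T * q.M),
   ([q.c, q.iv 5, q.iv 6], mA6 T * q.M),
   ([q.a, q.iv 3, q.iv 6], mA7 T * q.M),
   ([q.c, q.iv 6, q.iv 3], mA7 T * q.M)]

/-! ## The fabric -/

/-- node types -/
inductive Ty
  | C | A | P
  deriving DecidableEq

/-- unit square with lower left corner `(x, y)` -/
def unitQ (x y : ℕ) : Quad :=
  ⟨x, y, 0, pt x y, pt (x + 1) y, pt (x + 1) (y + 1), pt x (y + 1), 1⟩
/-- `2 × 1` rectangle -/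
def wideQ (x y : ℕ) : Quad :=
  ⟨x, y, 0, pt x y, pt (x + 2) y, pt (x + 2) (y + 1), pt x (y + 1), 2⟩
/-- `1 × 2` rectangle -/
def tallQ (x y : ℕ) : Quad :=
  ⟨x, y, 0, pt x y, pt (x + 1) y, pt (x + 1) (y + 2), pt x (y + 2), 2⟩

/-- the quads of the frame (left bar, bottom bar, start tile, pin tile); the fabric has rows
`1..I` and columns `0..J` -/
def frameQuads (I J : ℕ) : List Quad :=
  (List.range (3 * I)).flatMap (fun y =>
    [⟨3, y + 3, 1, pt 3 (y + 3), pt 2 (y + 2), pt 2 (y + 1), pt 3 (y + 2), 1⟩,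
     ⟨2, y + 2, 1, pt 2 (y + 2), pt 0 (y + 1), pt 0 y, pt 2 (y + 1), 2⟩]) ++
  [⟨3, 2, 1, pt 3 2, pt 2 1, pt 4 1, pt 5 2, 2⟩,
   ⟨2, 1, 1, pt 2 1, pt 0 0, pt 2 0, pt 4 1, 2⟩] ++
  (List.range (3 * J + 1)).flatMap (fun x =>
    [⟨x + 5, 2, 1, pt (x + 5) 2, pt (x + 4) 1, pt (x + 5) 1, pt (x + 6) 2, 1⟩,
     ⟨x + 4, 1, 1, pt (x + 4) 1, pt (x + 2) 0, pt (x + 3) 0, pt (x + 5) 1, 1⟩]) ++
  [⟨3, 3 * I + 2, 2, pt 3 (3 * I + 2), pt 1 (3 * I + 1), pt 0 (3 * I), pt 2 (3 * I + 1), 1⟩,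
   ⟨3, 2, 0, pt 3 2, pt 5 2, vq, pt 3 3, 2⟩]

/-- the quads of the block `(i, j)`, where `i = i' + 1` -/
def blockQuads (I J i' j : ℕ) : List Quad :=
  [unitQ (3 * j + 5) (3 * i' + 4)] ++
  (if j < J then [unitQ (3 * j + 5) (3 * i' + 2), unitQ (3 * j + 5) (3 * i' + 3)]
    else [tallQ (3 * j + 5) (3 * i' + 2)]) ++
  (if i' + 1 < I then [unitQ (3 * j + 3) (3 * i' + 4), unitQ (3 * j + 4) (3 * i' + 4)]
    else [wideQ (3 * j + 3) (3 * i' + 4)])

/-- the faces in the hole `(i, j)`, `i = i' + 1`, with twice their base areas -/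
def holeFaces (I J : ℕ) (τ : ℕ → ℕ → Ty) (i' j : ℕ) : List (List VX × ℕ) :=
  let x := 3 * j + 3
  let y := 3 * i' + 2
  let sw := pt x y
  let S := pt (x + 1) y
  let se := pt (x + 2) y
  let W := pt x (y + 1)
  let z := pt (x + 1) (y + 1)
  let E := pt (x + 2) (y + 1)
  let nw := pt x (y + 2)
  let N := pt (x + 1) (y + 2)
  let ne := pt (x + 2) (y + 2)
  if j = 0 then
    if i' = 0 then [([vq, se, E, ne, N, nw, W], 4)]
    else if i' + 1 < I then [([E, ne, N, nw, W, sw, S, se], 8)]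
    else [([E, ne, nw, W, sw, S, se], 8)]
  else if j = J then
    if i' + 1 < I then [([W, sw, S, se, ne, N, nw], 8)]
    else [([W, sw, S, se, ne, nw], 8)]
  else if i' + 1 = I then
    [([z, nw, W, sw], 2), ([z, sw, S, se], 2), ([z, se, E, ne], 2), ([z, ne, nw], 2)]
  else match τ (i' + 1) j with
    | .C => [([z, nw, W, sw], 2), ([z, sw, S, se], 2), ([z, se, E, ne], 2), ([z, ne, N, nw], 2)]
    | .A => [([N, nw, W, sw, S], 4), ([S, se, E, ne, N], 4)]
    | .P => [([z, nw, W, sw], 2), ([z, ne, N, nw], 2), ([z, sw, S], 1), ([z, S, se, E, ne], 3)]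

/-- the three faces between the fabric and the outer triangle -/
def outerFaces (I J : ℕ) : List (List VX × ℕ) :=
  [([vo1, pt (3 * J + 5) 1] ++ (List.range (3 * J + 2)).reverse.map (fun l => pt (l + 2) 0) ++
      [pt 0 0, vo3], 36 * I * J + 36 * J ^ 2 + 75 * I + 141 * J + 143),
   ([vo2] ++ (List.range I).reverse.flatMap (fun i' =>
      [pt (3 * J + 6) (3 * i' + 5), pt (3 * J + 6) (3 * i' + 4)]) ++
      [pt (3 * J + 6) 2, pt (3 * J + 5) 1, vo1],
      180 * I ^ 2 + 108 * J ^ 2 + 270 * I * J + 573 * I + 456 * J + 480),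
   ([vo3] ++ (List.range (3 * I + 1)).map (fun y => pt 0 y) ++
      [pt 1 (3 * I + 1), pt 3 (3 * I + 2)] ++
      (List.range (J + 1)).flatMap (fun j =>
        [pt (3 * j + 5) (3 * I + 2), pt (3 * j + 6) (3 * I + 2)]) ++ [vo2],
      15 * I + 15 * J + 38)]

/-- size parameter -/
def fN (n m : ℕ) : ℕ := 12 * (n + m + 4)
/-- the large number in the macros -/
def fT (n m : ℕ) : ℕ := 2 ^ (fN n m + 6)

/-- all quads of the fabric with `n` rows and `m` columns -/
def fabricQuads (n m : ℕ) : List Quad :=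
  frameQuads (n + 1) (m + 1) ++
  (List.range (n + 1)).flatMap (fun i' => (List.range (m + 2)).flatMap (fun j =>
    blockQuads (n + 1) (m + 1) i' j))

/-- all plain faces of the fabric, with twice their base areas -/
def fabricPlain (n m : ℕ) (τ : ℕ → ℕ → Ty) : List (List VX × ℕ) :=
  (List.range (n + 1)).flatMap (fun i' => (List.range (m + 2)).flatMap (fun j =>
    holeFaces (n + 1) (m + 1) τ i' j)) ++
  outerFaces (n + 1) (m + 1)

/-- all bounded faces of the fabric with their prescribed areas -/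
def fabricFaces (n m : ℕ) (τ : ℕ → ℕ → Ty) : List (List VX × ℕ) :=
  (fabricQuads n m).flatMap (macroFaces (fT n m)) ++
  (fabricPlain n m τ).map (fun f => (f.1, f.2 * mZ (fT n m)))

/-- the fabric -/
def fabric (n m : ℕ) (τ : ℕ → ℕ → Ty) : FaceMap VX :=
  ⟨[vo1, vo3, vo2], (fabricFaces n m τ).map (fun f => (f.1, (f.2 : ℚ)))⟩

/-! ## The equations of the fabric -/

/-- relation between the values entering a node (`x` from the left, `y` from below) and the
values leaving it (`x'` to the right, `y'` to the top) -/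
def NodeRel : Ty → ℝ → ℝ → ℝ → ℝ → Prop
  | .C, x, y, x', y' => x' = x ∧ y' = y
  | .A, x, y, x', y' => x' = -x ∧ y' = y + 2 * x
  | .P, x, y, x', y' => x' = x * (1 - y) ∧ y' = y * (1 + x)

/-- `ξ i j`: the value entering node `(i, j)` from the left; `η i j`: the value entering it from
below.  Rows `1..n`, columns `1..m`. -/
structure Sol (n m : ℕ) (τ : ℕ → ℕ → Ty) (ξ η : ℕ → ℕ → ℝ) : Prop where
  node : ∀ i j, 1 ≤ i → i ≤ n → 1 ≤ j → j ≤ m →
    NodeRel (τ i j) (ξ i j) (η i j) (ξ i (j + 1)) (η (i + 1) j)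
  bot : ∀ j, 1 ≤ j → j ≤ m → η 1 j = 0
  top : ∀ j, 1 ≤ j → j ≤ m → η (n + 1) j = 0

end Pool.Agent.PAH
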