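import Pool.Agent.PAH.Targets

set_option autoImplicit false
set_option linter.unusedSimpArgs false
set_option linter.style.longLine false

/-!
# F-CHAIN: the boundary chain of the fabric
-/

namespace Pool.Agent.PAH

section
variable {V : Type}

/-- sum along a path -/
def psum (φ : V → V → ℝ) : V → List V → ℝ
  | _, [] => 0
  | a, b :: l => φ a b + psum φ b l

@[simp] lemma psum_nil (φ : V → V → ℝ) (a : V) : psum φ a [] = 0 := rfl
@[simp] lemma psum_cons (φ : V → V → ℝ) (a b : V) (l : List V) :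
    psum φ a (b :: l) = φ a b + psum φ b l := rfl

lemma psum_zip (φ : V → V → ℝ) (a b : V) (l : List V) :
    (((a :: l).zip (l ++ [b])).map fun d => φ d.1 d.2).sum = psum φ a (l ++ [b]) := by
  induction l generalizing a with
  | nil => simp
  | cons c l ih =>
    have := ih c
    simp only [List.cons_append, List.zip_cons_cons, List.map_cons, List.sum_cons, psum_cons]
    rw [← this]

lemma wsum_cons (φ : V → V → ℝ) (a : V) (l : List V) :
    wsum φ (a :: l) = psum φ a (l ++ [a]) := by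
  rw [← psum_zip]
  simp [wsum, dartsOf]

lemma psum_range (φ : V → V → ℝ) (f : ℕ → V) (k : ℕ) (l : List V) :
    psum φ (f 0) ((List.range k).map (fun i => f (i + 1)) ++ l) =
      ∑ i ∈ Finset.range k, φ (f i) (f (i + 1)) + psum φ (f k) l := by
  induction k generalizing l with
  | zero => simp
  | succ k ih =>
    rw [List.range_succ, List.map_append, List.append_assoc, ih, Finset.sum_range_succ]
    simp [add_assoc]

lemma psum_range_reverse (φ : V → V → ℝ) (f : ℕ → V) (k : ℕ) (l : List V) :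
    psum φ (f k) ((List.range k).reverse.map f ++ l) =
      ∑ i ∈ Finset.range k, φ (f (i + 1)) (f i) + psum φ (f 0) l := by
  induction k with
  | zero => simp
  | succ k ih =>
    rw [List.range_succ, List.reverse_append, Finset.sum_range_succ]
    simp only [List.reverse_cons, List.reverse_nil, List.nil_append, List.cons_append,
      List.map_cons, psum_cons]
    rw [ih]
    ring

lemma psum_flat (φ : V → V → ℝ) (g h : ℕ → V) (k : ℕ) (l : List V) :
    psum φ (g 0) ((List.range k).flatMap (fun i => [h i, g (i + 1)]) ++ l) =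
      ∑ i ∈ Finset.range k, (φ (g i) (h i) + φ (h i) (g (i + 1))) + psum φ (g k) l := by
  induction k generalizing l with
  | zero => simp
  | succ k ih =>
    rw [List.range_succ, List.flatMap_append, List.append_assoc, ih, Finset.sum_range_succ]
    simp [add_assoc]

lemma psum_flat_reverse (φ : V → V → ℝ) (g h : ℕ → V) (k : ℕ) (a : V) (l : List V) :
    psum φ a ((List.range k).reverse.flatMap (fun i => [g (i + 1), h i]) ++ g 0 :: l) =
      φ a (g k) + ∑ i ∈ Finset.range k, (φ (g (i + 1)) (h i) + φ (h i) (g i)) +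
        psum φ (g 0) l := by
  induction k generalizing a with
  | zero => simp
  | succ k ih =>
    rw [List.range_succ, List.reverse_append, Finset.sum_range_succ]
    simp only [List.reverse_cons, List.reverse_nil, List.nil_append, List.cons_append,
      List.flatMap_cons, psum_cons]
    rw [ih]
    ring

end

/-- boundary sum of a list of faces -/
def fsum (φ : VX → VX → ℝ) (F : List (List VX × ℕ)) : ℝ := (F.map fun f => wsum φ f.1).sum

/-- boundary of a quad -/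
def qb (φ : VX → VX → ℝ) (q : Quad) : ℝ := φ q.a q.b + φ q.b q.c + φ q.c q.d + φ q.d q.a

/-- boundary sum of a list of quads -/
def qsum (φ : VX → VX → ℝ) (Q : List Quad) : ℝ := (Q.map (qb φ)).sum

lemma fsum_append (φ : VX → VX → ℝ) (F G : List (List VX × ℕ)) :
    fsum φ (F ++ G) = fsum φ F + fsum φ G := by simp [fsum]

@[simp] lemma fsum_nil (φ : VX → VX → ℝ) : fsum φ [] = 0 := by simp [fsum]
@[simp] lemma fsum_cons (φ : VX → VX → ℝ) (f : List VX × ℕ) (F : List (List VX × ℕ)) :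
    fsum φ (f :: F) = wsum φ f.1 + fsum φ F := by simp [fsum]

lemma qsum_append (φ : VX → VX → ℝ) (F G : List Quad) :
    qsum φ (F ++ G) = qsum φ F + qsum φ G := by simp [qsum]

@[simp] lemma qsum_nil (φ : VX → VX → ℝ) : qsum φ [] = 0 := by simp [qsum]
@[simp] lemma qsum_cons (φ : VX → VX → ℝ) (f : Quad) (F : List Quad) :
    qsum φ (f :: F) = qb φ f + qsum φ F := by simp [qsum]

lemma fsum_range (φ : VX → VX → ℝ) (g : ℕ → List (List VX × ℕ)) (k : ℕ) :
    fsum φ ((List.range k).flatMap g) = ∑ i ∈ Finset.range k, fsum φ (g i) := by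
  induction k with
  | zero => simp
  | succ k ih =>
    rw [List.range_succ, List.flatMap_append, fsum_append, ih, Finset.sum_range_succ]
    simp

lemma qsum_range (φ : VX → VX → ℝ) (g : ℕ → List Quad) (k : ℕ) :
    qsum φ ((List.range k).flatMap g) = ∑ i ∈ Finset.range k, qsum φ (g i) := by
  induction k with
  | zero => simp
  | succ k ih =>
    rw [List.range_succ, List.flatMap_append, qsum_append, ih, Finset.sum_range_succ]
    simp

lemma fsum_map_scale (φ : VX → VX → ℝ) (F : List (List VX × ℕ)) (c : ℕ) :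
    fsum φ (F.map fun f => (f.1, f.2 * c)) = fsum φ F := by
  simp [fsum, Function.comp_def]

lemma fsum_macro (φ : VX → VX → ℝ) (hφ : ∀ u v, φ u v = - φ v u) (T : ℕ) (q : Quad) :
    fsum φ (macroFaces T q) = qb φ q := by
  simp only [macroFaces, fsum_cons, fsum_nil, wsum_cons, List.cons_append, List.nil_append,
    psum_cons, psum_nil, qb]
  linarith [hφ q.b (q.iv 1), hφ q.b (q.iv 2), hφ q.c (q.iv 1), hφ q.c (q.iv 3),
    hφ (q.iv 3) (q.iv 1), hφ (q.iv 1) (q.iv 2), hφ q.a (q.iv 2), hφ (q.iv 3) (q.iv 2),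
    hφ q.a (q.iv 3), hφ q.a (q.iv 4), hφ q.a (q.iv 6), hφ q.d (q.iv 4), hφ q.d (q.iv 5),
    hφ q.c (q.iv 5), hφ q.c (q.iv 6), hφ (q.iv 4) (q.iv 5), hφ (q.iv 4) (q.iv 6),
    hφ (q.iv 5) (q.iv 6), hφ (q.iv 3) (q.iv 6)]

lemma fsum_quads (φ : VX → VX → ℝ) (hφ : ∀ u v, φ u v = - φ v u) (T : ℕ) (Q : List Quad) :
    fsum φ (Q.flatMap (macroFaces T)) = qsum φ Q := by
  induction Q with
  | nil => simp
  | cons q Q ih => rw [List.flatMap_cons, fsum_append, ih, fsum_macro φ hφ, qsum_cons]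

/-- bottom of a block -/
def botS (φ : VX → VX → ℝ) (i' j : ℕ) : ℝ :=
  φ (pt (3 * j + 3) (3 * i' + 2)) (pt (3 * j + 4) (3 * i' + 2)) +
  φ (pt (3 * j + 4) (3 * i' + 2)) (pt (3 * j + 5) (3 * i' + 2)) +
  φ (pt (3 * j + 5) (3 * i' + 2)) (pt (3 * j + 6) (3 * i' + 2))

/-- bottom of the block `(1, 0)` -/
def botS' (φ : VX → VX → ℝ) : ℝ := φ (pt 3 2) (pt 5 2) + φ (pt 5 2) (pt 6 2)

/-- top of a block in the last row -/
def topS (φ : VX → VX → ℝ) (i' j : ℕ) : ℝ :=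
  φ (pt (3 * j + 3) (3 * i' + 5)) (pt (3 * j + 5) (3 * i' + 5)) +
  φ (pt (3 * j + 5) (3 * i' + 5)) (pt (3 * j + 6) (3 * i' + 5))

/-- left side of a block, upwards -/
def lefS (φ : VX → VX → ℝ) (i' j : ℕ) : ℝ :=
  φ (pt (3 * j + 3) (3 * i' + 2)) (pt (3 * j + 3) (3 * i' + 3)) +
  φ (pt (3 * j + 3) (3 * i' + 3)) (pt (3 * j + 3) (3 * i' + 4)) +
  φ (pt (3 * j + 3) (3 * i' + 4)) (pt (3 * j + 3) (3 * i' + 5))

/-- right side of a block in the last column, upwards -/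
def rigS (φ : VX → VX → ℝ) (i' j : ℕ) : ℝ :=
  φ (pt (3 * j + 6) (3 * i' + 2)) (pt (3 * j + 6) (3 * i' + 4)) +
  φ (pt (3 * j + 6) (3 * i' + 4)) (pt (3 * j + 6) (3 * i' + 5))

/-- boundary of the row gap -/
lemma gapR (φ : VX → VX → ℝ) (hφ : ∀ u v, φ u v = - φ v u) (J i' j : ℕ) :
    qsum φ (if j < J then [unitQ (3 * j + 5) (3 * i' + 2), unitQ (3 * j + 5) (3 * i' + 3)]
      else [tallQ (3 * j + 5) (3 * i' + 2)]) =
    φ (pt (3 * j + 5) (3 * i' + 2)) (pt (3 * j + 6) (3 * i' + 2)) +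
    (if j < J then φ (pt (3 * j + 6) (3 * i' + 2)) (pt (3 * j + 6) (3 * i' + 3)) +
      φ (pt (3 * j + 6) (3 * i' + 3)) (pt (3 * j + 6) (3 * i' + 4)) else
      φ (pt (3 * j + 6) (3 * i' + 2)) (pt (3 * j + 6) (3 * i' + 4))) +
    φ (pt (3 * j + 6) (3 * i' + 4)) (pt (3 * j + 5) (3 * i' + 4)) +
    (if j < J then φ (pt (3 * j + 5) (3 * i' + 4)) (pt (3 * j + 5) (3 * i' + 3)) +
      φ (pt (3 * j + 5) (3 * i' + 3)) (pt (3 * j + 5) (3 * i' + 2)) else
      φ (pt (3 * j + 5) (3 * i' + 4)) (pt (3 * j + 5) (3 * i' + 2))) := by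
  split_ifs
  · simp only [qsum_cons, qsum_nil, qb, unitQ, Nat.add_assoc, Nat.reduceAdd]
    linarith [hφ (pt (3 * j + 5) (3 * i' + 3)) (pt (3 * j + 6) (3 * i' + 3))]
  · simp only [qsum_cons, qsum_nil, qb, tallQ, Nat.add_assoc, Nat.reduceAdd]
    ring

/-- boundary of the column gap -/
lemma gapC (φ : VX → VX → ℝ) (hφ : ∀ u v, φ u v = - φ v u) (I i' j : ℕ) :
    qsum φ (if i' + 1 < I then [unitQ (3 * j + 3) (3 * i' + 4), unitQ (3 * j + 4) (3 * i' + 4)]
      else [wideQ (3 * j + 3) (3 * i' + 4)]) =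
    φ (pt (3 * j + 5) (3 * i' + 4)) (pt (3 * j + 5) (3 * i' + 5)) +
    φ (pt (3 * j + 3) (3 * i' + 5)) (pt (3 * j + 3) (3 * i' + 4)) +
    (if i' + 1 < I then φ (pt (3 * j + 3) (3 * i' + 4)) (pt (3 * j + 4) (3 * i' + 4)) +
      φ (pt (3 * j + 4) (3 * i' + 4)) (pt (3 * j + 5) (3 * i' + 4)) +
      φ (pt (3 * j + 5) (3 * i' + 5)) (pt (3 * j + 4) (3 * i' + 5)) +
      φ (pt (3 * j + 4) (3 * i' + 5)) (pt (3 * j + 3) (3 * i' + 5)) else
      φ (pt (3 * j + 3) (3 * i' + 4)) (pt (3 * j + 5) (3 * i' + 4)) +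
      φ (pt (3 * j + 5) (3 * i' + 5)) (pt (3 * j + 3) (3 * i' + 5))) := by
  split_ifs
  · simp only [qsum_cons, qsum_nil, qb, unitQ, Nat.add_assoc, Nat.reduceAdd]
    linarith [hφ (pt (3 * j + 4) (3 * i' + 4)) (pt (3 * j + 4) (3 * i' + 5))]
  · simp only [qsum_cons, qsum_nil, qb, wideQ, Nat.add_assoc, Nat.reduceAdd]
    ring

/-- boundary of the hole -/
lemma holeS (φ : VX → VX → ℝ) (hφ : ∀ u v, φ u v = - φ v u) (I J : ℕ) (τ : ℕ → ℕ → Ty)
    (i' j : ℕ) (hJ : 1 ≤ J) (hj : j ≤ J) (hI : 2 ≤ I) (hi : i' < I) :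
    fsum φ (holeFaces I J τ i' j) +
      (if i' = 0 ∧ j = 0 then qb φ ⟨3, 2, 0, pt 3 2, pt 5 2, vq, pt 3 3, 2⟩ else 0) =
    (if i' = 0 ∧ j = 0 then φ (pt 3 2) (pt 5 2) else
      φ (pt (3 * j + 3) (3 * i' + 2)) (pt (3 * j + 4) (3 * i' + 2)) +
      φ (pt (3 * j + 4) (3 * i' + 2)) (pt (3 * j + 5) (3 * i' + 2))) +
    (if j < J then φ (pt (3 * j + 5) (3 * i' + 2)) (pt (3 * j + 5) (3 * i' + 3)) +
      φ (pt (3 * j + 5) (3 * i' + 3)) (pt (3 * j + 5) (3 * i' + 4)) else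
      φ (pt (3 * j + 5) (3 * i' + 2)) (pt (3 * j + 5) (3 * i' + 4))) +
    (if i' + 1 < I then φ (pt (3 * j + 5) (3 * i' + 4)) (pt (3 * j + 4) (3 * i' + 4)) +
      φ (pt (3 * j + 4) (3 * i' + 4)) (pt (3 * j + 3) (3 * i' + 4)) else
      φ (pt (3 * j + 5) (3 * i' + 4)) (pt (3 * j + 3) (3 * i' + 4))) +
    φ (pt (3 * j + 3) (3 * i' + 4)) (pt (3 * j + 3) (3 * i' + 3)) +
    φ (pt (3 * j + 3) (3 * i' + 3)) (pt (3 * j + 3) (3 * i' + 2)) := by
  have e1 : ∀ a b : ℕ, a + 3 + b = a + (3 + b) := fun a b => by omega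
  unfold holeFaces
  by_cases hj0 : j = 0
  · subst hj0
    have h0J : 0 < J := hJ
    by_cases hi0 : i' = 0
    · subst hi0
      have : 0 + 1 < I := hI
      simp only [if_true, h0J, this, and_self, fsum_cons, fsum_nil, wsum_cons,
        List.cons_append, List.nil_append, psum_cons, psum_nil, qb, Nat.mul_zero, Nat.zero_add,
        Nat.reduceAdd]
      linarith [hφ vq (pt 5 2), hφ vq (pt 3 3)]
    · by_cases hiI : i' + 1 < I
      · simp only [if_true, h0J, hiI, hi0, false_and, if_false, fsum_cons, fsum_nil, wsum_cons,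
          List.cons_append, List.nil_append, psum_cons, psum_nil, Nat.mul_zero, Nat.zero_add,
          Nat.reduceAdd, Nat.add_assoc]
        ring
      · simp only [if_true, h0J, hiI, hi0, false_and, if_false, fsum_cons, fsum_nil, wsum_cons,
          List.cons_append, List.nil_append, psum_cons, psum_nil, Nat.mul_zero, Nat.zero_add,
          Nat.reduceAdd, Nat.add_assoc]
        ring
  · by_cases hjJ : j = J
    · subst hjJ
      have hjJ' : ¬ j < j := by omega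
      by_cases hiI : i' + 1 < I
      · simp only [hjJ', hiI, hj0, and_false, if_false, if_true, fsum_cons, fsum_nil, wsum_cons,
          List.cons_append, List.nil_append, psum_cons, psum_nil,
          Nat.reduceAdd, Nat.add_assoc]
        ring
      · simp only [hjJ', hiI, hj0, and_false, if_false, if_true, fsum_cons, fsum_nil, wsum_cons,
          List.cons_append, List.nil_append, psum_cons, psum_nil,
          Nat.reduceAdd, Nat.add_assoc]
        ring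
    · have hjJ' : j < J := by omega
      by_cases hiI : i' + 1 < I
      · have hiI' : ¬ (i' + 1 = I) := by omega
        have hz := hφ (pt (3 * j + 4) (3 * i' + 3))
        cases τ (i' + 1) j <;>
        simp only [hjJ', hiI, hiI', hj0, and_false, if_false, hjJ, if_true, fsum_cons, fsum_nil,
          wsum_cons, List.cons_append, List.nil_append, psum_cons, psum_nil,
          Nat.reduceAdd, Nat.add_assoc]
        · linarith [hz (pt (3 * j + 3) (3 * i' + 3)), hz (pt (3 * j + 5) (3 * i' + 3)),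
            hz (pt (3 * j + 4) (3 * i' + 2)), hz (pt (3 * j + 4) (3 * i' + 4)),
            hz (pt (3 * j + 3) (3 * i' + 2)), hz (pt (3 * j + 3) (3 * i' + 4)),
            hz (pt (3 * j + 5) (3 * i' + 2)), hz (pt (3 * j + 5) (3 * i' + 4))]
        · linarith [hφ (pt (3 * j + 4) (3 * i' + 2)) (pt (3 * j + 4) (3 * i' + 4))]
        · linarith [hz (pt (3 * j + 3) (3 * i' + 3)), hz (pt (3 * j + 5) (3 * i' + 3)),
            hz (pt (3 * j + 4) (3 * i' + 2)), hz (pt (3 * j + 4) (3 * i' + 4)),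
            hz (pt (3 * j + 3) (3 * i' + 2)), hz (pt (3 * j + 3) (3 * i' + 4)),
            hz (pt (3 * j + 5) (3 * i' + 2)), hz (pt (3 * j + 5) (3 * i' + 4))]
      · have hiI' : I = i' + 1 := by omega
        have hz := hφ (pt (3 * j + 4) (3 * i' + 3))
        subst hiI'
        simp only [hjJ', hiI, hj0, and_false, if_false, hjJ, if_true, fsum_cons, fsum_nil,
          wsum_cons, List.cons_append, List.nil_append, psum_cons, psum_nil,
          Nat.reduceAdd, Nat.add_assoc]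
        linarith [hz (pt (3 * j + 3) (3 * i' + 3)), hz (pt (3 * j + 5) (3 * i' + 3)),
            hz (pt (3 * j + 4) (3 * i' + 2)), hz (pt (3 * j + 4) (3 * i' + 4)),
            hz (pt (3 * j + 3) (3 * i' + 2)), hz (pt (3 * j + 3) (3 * i' + 4)),
            hz (pt (3 * j + 5) (3 * i' + 2)), hz (pt (3 * j + 5) (3 * i' + 4))]

/-- boundary of a block (together with the pin tile for the first one) -/
lemma blockS (φ : VX → VX → ℝ) (hφ : ∀ u v, φ u v = - φ v u) (I J : ℕ) (τ : ℕ → ℕ → Ty)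
    (i' j : ℕ) (hJ : 1 ≤ J) (hj : j ≤ J) (hI : 2 ≤ I) (hi : i' < I) :
    qsum φ (blockQuads I J i' j) + fsum φ (holeFaces I J τ i' j) +
      (if i' = 0 ∧ j = 0 then qb φ ⟨3, 2, 0, pt 3 2, pt 5 2, vq, pt 3 3, 2⟩ else 0) =
    (if i' = 0 ∧ j = 0 then botS' φ else botS φ i' j) +
    (if j < J then lefS φ i' (j + 1) else rigS φ i' J) -
    (if i' + 1 < I then botS φ (i' + 1) j else topS φ (I - 1) j) - lefS φ i' j := by
  have H := holeS φ hφ I J τ i' j hJ hj hI hi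
  have H1 := gapR φ hφ J i' j
  have H2 := gapC φ hφ I i' j
  have H3 : qsum φ [unitQ (3 * j + 5) (3 * i' + 4)] =
      φ (pt (3 * j + 5) (3 * i' + 4)) (pt (3 * j + 6) (3 * i' + 4)) +
      φ (pt (3 * j + 6) (3 * i' + 4)) (pt (3 * j + 6) (3 * i' + 5)) +
      φ (pt (3 * j + 6) (3 * i' + 5)) (pt (3 * j + 5) (3 * i' + 5)) +
      φ (pt (3 * j + 5) (3 * i' + 5)) (pt (3 * j + 5) (3 * i' + 4)) := by
    simp only [qsum_cons, qsum_nil, qb, unitQ, Nat.add_assoc, Nat.reduceAdd]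
    ring
  have hE : qsum φ (blockQuads I J i' j) + fsum φ (holeFaces I J τ i' j) +
      (if i' = 0 ∧ j = 0 then qb φ ⟨3, 2, 0, pt 3 2, pt 5 2, vq, pt 3 3, 2⟩ else 0) =
      qsum φ [unitQ (3 * j + 5) (3 * i' + 4)] +
      qsum φ (if j < J then [unitQ (3 * j + 5) (3 * i' + 2), unitQ (3 * j + 5) (3 * i' + 3)]
        else [tallQ (3 * j + 5) (3 * i' + 2)]) +
      qsum φ (if i' + 1 < I then [unitQ (3 * j + 3) (3 * i' + 4), unitQ (3 * j + 4) (3 * i' + 4)]
        else [wideQ (3 * j + 3) (3 * i' + 4)]) +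
      (fsum φ (holeFaces I J τ i' j) +
      (if i' = 0 ∧ j = 0 then qb φ ⟨3, 2, 0, pt 3 2, pt 5 2, vq, pt 3 3, 2⟩ else 0)) := by
    unfold blockQuads
    rw [qsum_append, qsum_append]
    ring
  rw [hE, H, H1, H2, H3]
  have hb : (if i' = 0 ∧ j = 0 then botS' φ else botS φ i' j) =
      (if i' = 0 ∧ j = 0 then φ (pt 3 2) (pt 5 2) else
      φ (pt (3 * j + 3) (3 * i' + 2)) (pt (3 * j + 4) (3 * i' + 2)) +
      φ (pt (3 * j + 4) (3 * i' + 2)) (pt (3 * j + 5) (3 * i' + 2))) +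
      φ (pt (3 * j + 5) (3 * i' + 2)) (pt (3 * j + 6) (3 * i' + 2)) := by
    split_ifs with h
    · obtain ⟨rfl, rfl⟩ := h
      simp only [botS', Nat.mul_zero, Nat.zero_add]
    · rfl
  rw [hb]
  have hl : (if j < J then lefS φ i' (j + 1) else rigS φ i' J) =
      (if j < J then φ (pt (3 * j + 6) (3 * i' + 2)) (pt (3 * j + 6) (3 * i' + 3)) +
      φ (pt (3 * j + 6) (3 * i' + 3)) (pt (3 * j + 6) (3 * i' + 4)) else
      φ (pt (3 * j + 6) (3 * i' + 2)) (pt (3 * j + 6) (3 * i' + 4))) +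
      φ (pt (3 * j + 6) (3 * i' + 4)) (pt (3 * j + 6) (3 * i' + 5)) := by
    split_ifs with h
    · simp only [lefS, Nat.mul_add, Nat.add_assoc, Nat.reduceAdd, Nat.reduceMul]
    · obtain rfl : j = J := by omega
      rfl
  rw [hl]
  have ht : (if i' + 1 < I then botS φ (i' + 1) j else topS φ (I - 1) j) =
      (if i' + 1 < I then φ (pt (3 * j + 3) (3 * i' + 5)) (pt (3 * j + 4) (3 * i' + 5)) +
      φ (pt (3 * j + 4) (3 * i' + 5)) (pt (3 * j + 5) (3 * i' + 5)) else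
      φ (pt (3 * j + 3) (3 * i' + 5)) (pt (3 * j + 5) (3 * i' + 5))) +
      φ (pt (3 * j + 5) (3 * i' + 5)) (pt (3 * j + 6) (3 * i' + 5)) := by
    split_ifs with h
    · simp only [botS, Nat.mul_add, Nat.add_assoc, Nat.reduceAdd, Nat.reduceMul]
    · obtain rfl : I = i' + 1 := by omega
      simp only [topS, Nat.add_sub_cancel]
  rw [ht]
  unfold lefS
  have a1 := hφ (pt (3 * j + 5) (3 * i' + 4)) (pt (3 * j + 6) (3 * i' + 4))
  have a2 := hφ (pt (3 * j + 6) (3 * i' + 5)) (pt (3 * j + 5) (3 * i' + 5))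
  have a3 := hφ (pt (3 * j + 5) (3 * i' + 5)) (pt (3 * j + 5) (3 * i' + 4))
  have a4 := hφ (pt (3 * j + 5) (3 * i' + 4)) (pt (3 * j + 5) (3 * i' + 3))
  have a5 := hφ (pt (3 * j + 5) (3 * i' + 3)) (pt (3 * j + 5) (3 * i' + 2))
  have a6 := hφ (pt (3 * j + 5) (3 * i' + 4)) (pt (3 * j + 5) (3 * i' + 2))
  have a7 := hφ (pt (3 * j + 3) (3 * i' + 4)) (pt (3 * j + 4) (3 * i' + 4))
  have a8 := hφ (pt (3 * j + 4) (3 * i' + 4)) (pt (3 * j + 5) (3 * i' + 4))
  have a9 := hφ (pt (3 * j + 3) (3 * i' + 4)) (pt (3 * j + 5) (3 * i' + 4))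
  have b1 := hφ (pt (3 * j + 5) (3 * i' + 5)) (pt (3 * j + 4) (3 * i' + 5))
  have b2 := hφ (pt (3 * j + 4) (3 * i' + 5)) (pt (3 * j + 3) (3 * i' + 5))
  have b3 := hφ (pt (3 * j + 5) (3 * i' + 5)) (pt (3 * j + 3) (3 * i' + 5))
  have b4 := hφ (pt (3 * j + 3) (3 * i' + 4)) (pt (3 * j + 3) (3 * i' + 3))
  have b5 := hφ (pt (3 * j + 3) (3 * i' + 3)) (pt (3 * j + 3) (3 * i' + 2))
  have b6 := hφ (pt (3 * j + 3) (3 * i' + 5)) (pt (3 * j + 3) (3 * i' + 4))
  by_cases c1 : j < J <;> by_cases c2 : i' + 1 < I <;> simp only [c1, c2, if_true, if_false] <;>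
    linarith

/-- sum over all blocks -/
lemma blocksS (φ : VX → VX → ℝ) (hφ : ∀ u v, φ u v = - φ v u) (I J : ℕ) (τ : ℕ → ℕ → Ty)
    (hJ : 1 ≤ J) (hI : 2 ≤ I) :
    (∑ i' ∈ Finset.range I, ∑ j ∈ Finset.range (J + 1),
      (qsum φ (blockQuads I J i' j) + fsum φ (holeFaces I J τ i' j))) +
      qb φ ⟨3, 2, 0, pt 3 2, pt 5 2, vq, pt 3 3, 2⟩ =
    botS' φ + ∑ j ∈ Finset.range J, botS φ 0 (j + 1) +
      ∑ i' ∈ Finset.range I, rigS φ i' J -
      ∑ j ∈ Finset.range (J + 1), topS φ (I - 1) j -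
      ∑ i' ∈ Finset.range I, lefS φ i' 0 := by
  obtain ⟨I, rfl⟩ : ∃ I', I = I' + 2 := ⟨I - 2, by omega⟩
  -- horizontal telescoping
  have hrow : ∀ i' ∈ Finset.range (I + 2), ∑ j ∈ Finset.range (J + 1),
      (qsum φ (blockQuads (I + 2) J i' j) + fsum φ (holeFaces (I + 2) J τ i' j)) +
      (if i' = 0 then qb φ ⟨3, 2, 0, pt 3 2, pt 5 2, vq, pt 3 3, 2⟩ else 0) =
      (∑ j ∈ Finset.range (J + 1), (if i' = 0 ∧ j = 0 then botS' φ else botS φ i' j)) -
      (∑ j ∈ Finset.range (J + 1),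
        (if i' + 1 < I + 2 then botS φ (i' + 1) j else topS φ (I + 2 - 1) j)) +
      rigS φ i' J - lefS φ i' 0 := by
    intro i' hi'
    rw [Finset.mem_range] at hi'
    have h1 : ∑ j ∈ Finset.range (J + 1),
      (qsum φ (blockQuads (I + 2) J i' j) + fsum φ (holeFaces (I + 2) J τ i' j)) +
      (if i' = 0 then qb φ ⟨3, 2, 0, pt 3 2, pt 5 2, vq, pt 3 3, 2⟩ else 0) =
      ∑ j ∈ Finset.range (J + 1), (qsum φ (blockQuads (I + 2) J i' j) +
        fsum φ (holeFaces (I + 2) J τ i' j) +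
        (if i' = 0 ∧ j = 0 then qb φ ⟨3, 2, 0, pt 3 2, pt 5 2, vq, pt 3 3, 2⟩ else 0)) := by
      rw [Finset.sum_add_distrib (g := fun j => if i' = 0 ∧ j = 0 then
        qb φ ⟨3, 2, 0, pt 3 2, pt 5 2, vq, pt 3 3, 2⟩ else 0)]
      congr 1
      by_cases h : i' = 0
      · simp [h]
      · simp [h]
    rw [h1, Finset.sum_congr rfl (fun j hj => blockS φ hφ (I + 2) J τ i' j hJ
      (by rw [Finset.mem_range] at hj; omega) (by omega) hi')]
    rw [Finset.sum_sub_distrib, Finset.sum_sub_distrib, Finset.sum_add_distrib]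
    have h2 : ∑ j ∈ Finset.range (J + 1), (if j < J then lefS φ i' (j + 1) else rigS φ i' J) =
        ∑ j ∈ Finset.range J, lefS φ i' (j + 1) + rigS φ i' J := by
      rw [Finset.sum_range_succ]
      simp only [lt_irrefl, if_false]
      congr 1
      exact Finset.sum_congr rfl (fun j hj => by rw [if_pos (Finset.mem_range.1 hj)])
    rw [h2, Finset.sum_range_succ' (fun j => lefS φ i' j)]
    ring
  have h1 : (∑ i' ∈ Finset.range (I + 2), ∑ j ∈ Finset.range (J + 1),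
      (qsum φ (blockQuads (I + 2) J i' j) + fsum φ (holeFaces (I + 2) J τ i' j))) +
      qb φ ⟨3, 2, 0, pt 3 2, pt 5 2, vq, pt 3 3, 2⟩ =
      ∑ i' ∈ Finset.range (I + 2), (∑ j ∈ Finset.range (J + 1),
      (qsum φ (blockQuads (I + 2) J i' j) + fsum φ (holeFaces (I + 2) J τ i' j)) +
      (if i' = 0 then qb φ ⟨3, 2, 0, pt 3 2, pt 5 2, vq, pt 3 3, 2⟩ else 0)) := by
    rw [Finset.sum_add_distrib]
    simp
  rw [h1, Finset.sum_congr rfl hrow, Finset.sum_sub_distrib, Finset.sum_add_distrib,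
    Finset.sum_sub_distrib]
  have h3 : ∑ i' ∈ Finset.range (I + 2), ∑ j ∈ Finset.range (J + 1),
      (if i' = 0 ∧ j = 0 then botS' φ else botS φ i' j) =
      ∑ i' ∈ Finset.range (I + 1), ∑ j ∈ Finset.range (J + 1), botS φ (i' + 1) j +
      (botS' φ + ∑ j ∈ Finset.range J, botS φ 0 (j + 1)) := by
    rw [Finset.sum_range_succ', Finset.sum_range_succ' (fun j =>
      (if (0 = 0 ∧ j = 0) then botS' φ else botS φ 0 j))]
    simp [add_comm]
  have h4 : ∑ i' ∈ Finset.range (I + 2), ∑ j ∈ Finset.range (J + 1),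
        (if i' + 1 < I + 2 then botS φ (i' + 1) j else topS φ (I + 2 - 1) j) =
      ∑ i' ∈ Finset.range (I + 1), ∑ j ∈ Finset.range (J + 1), botS φ (i' + 1) j +
      ∑ j ∈ Finset.range (J + 1), topS φ (I + 2 - 1) j := by
    rw [Finset.sum_range_succ]
    congr 1
    · refine Finset.sum_congr rfl (fun i' hi' => ?_)
      rw [Finset.mem_range] at hi'
      simp [show i' + 1 < I + 2 by omega]
    · simp
  rw [h3, h4]
  ring

/-- sum over the frame -/
lemma frameS (φ : VX → VX → ℝ) (hφ : ∀ u v, φ u v = - φ v u) (I J : ℕ) :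
    qsum φ (frameQuads I J) =
      ∑ y ∈ Finset.range (3 * I), φ (pt 3 (y + 2)) (pt 3 (y + 3)) -
      ∑ y ∈ Finset.range (3 * I), φ (pt 0 y) (pt 0 (y + 1)) +
      φ (pt 0 0) (pt 2 0) - φ (pt 3 2) (pt 5 2) +
      ∑ x ∈ Finset.range (3 * J + 1), φ (pt (x + 2) 0) (pt (x + 3) 0) -
      ∑ x ∈ Finset.range (3 * J + 1), φ (pt (x + 5) 2) (pt (x + 6) 2) +
      φ (pt (3 * J + 5) 1) (pt (3 * J + 6) 2) + φ (pt (3 * J + 3) 0) (pt (3 * J + 5) 1) +
      φ (pt 3 (3 * I + 2)) (pt 1 (3 * I + 1)) + φ (pt 1 (3 * I + 1)) (pt 0 (3 * I)) +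
      qb φ ⟨3, 2, 0, pt 3 2, pt 5 2, vq, pt 3 3, 2⟩ := by
  unfold frameQuads
  rw [qsum_append, qsum_append, qsum_append, qsum_range, qsum_range]
  have h1 : ∀ k : ℕ, ∑ y ∈ Finset.range k, qsum φ
      [⟨3, y + 3, 1, pt 3 (y + 3), pt 2 (y + 2), pt 2 (y + 1), pt 3 (y + 2), 1⟩,
       ⟨2, y + 2, 1, pt 2 (y + 2), pt 0 (y + 1), pt 0 y, pt 2 (y + 1), 2⟩] =
      ∑ y ∈ Finset.range k, φ (pt 3 (y + 2)) (pt 3 (y + 3)) -
      ∑ y ∈ Finset.range k, φ (pt 0 y) (pt 0 (y + 1)) +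
      (φ (pt 3 (k + 2)) (pt 2 (k + 1)) + φ (pt 2 (k + 1)) (pt 0 k)) -
      (φ (pt 3 2) (pt 2 1) + φ (pt 2 1) (pt 0 0)) := by
    intro k
    induction k with
    | zero => simp
    | succ k ih =>
      rw [Finset.sum_range_succ, ih, Finset.sum_range_succ, Finset.sum_range_succ]
      simp only [qsum_cons, qsum_nil, qb, Nat.add_assoc, Nat.reduceAdd]
      linarith [hφ (pt 2 (k + 2)) (pt 2 (k + 1)), hφ (pt 2 (k + 1)) (pt 3 (k + 2)),
        hφ (pt 0 k) (pt 2 (k + 1)), hφ (pt 0 (k + 1)) (pt 0 k)]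
  have h2 : ∀ k : ℕ, ∑ x ∈ Finset.range k, qsum φ
      [⟨x + 5, 2, 1, pt (x + 5) 2, pt (x + 4) 1, pt (x + 5) 1, pt (x + 6) 2, 1⟩,
       ⟨x + 4, 1, 1, pt (x + 4) 1, pt (x + 2) 0, pt (x + 3) 0, pt (x + 5) 1, 1⟩] =
      ∑ x ∈ Finset.range k, φ (pt (x + 2) 0) (pt (x + 3) 0) -
      ∑ x ∈ Finset.range k, φ (pt (x + 5) 2) (pt (x + 6) 2) +
      (φ (pt (k + 4) 1) (pt (k + 5) 2) + φ (pt (k + 2) 0) (pt (k + 4) 1)) -
      (φ (pt 4 1) (pt 5 2) + φ (pt 2 0) (pt 4 1)) := by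
    intro k
    induction k with
    | zero => simp
    | succ k ih =>
      rw [Finset.sum_range_succ, ih, Finset.sum_range_succ, Finset.sum_range_succ]
      simp only [qsum_cons, qsum_nil, qb, Nat.add_assoc, Nat.reduceAdd]
      linarith [hφ (pt (k + 5) 2) (pt (k + 4) 1), hφ (pt (k + 6) 2) (pt (k + 5) 2),
        hφ (pt (k + 4) 1) (pt (k + 2) 0), hφ (pt (k + 5) 1) (pt (k + 4) 1)]
  rw [h1, h2]
  simp only [qsum_cons, qsum_nil, qb, Nat.add_assoc, Nat.reduceAdd]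
  linarith [hφ (pt 4 1) (pt 2 1), hφ (pt 5 2) (pt 3 2),
    hφ (pt 0 (3 * I)) (pt 2 (3 * I + 1)), hφ (pt 2 (3 * I + 1)) (pt 3 (3 * I + 2))]

lemma outer1 (φ : VX → VX → ℝ) (J : ℕ) :
    wsum φ ([vo1, pt (3 * J + 5) 1] ++ (List.range (3 * J + 2)).reverse.map (fun l => pt (l + 2) 0) ++
      [pt 0 0, vo3]) =
      φ vo1 (pt (3 * J + 5) 1) + φ (pt (3 * J + 5) 1) (pt (3 * J + 3) 0) +
      ∑ x ∈ Finset.range (3 * J + 1), φ (pt (x + 3) 0) (pt (x + 2) 0) +
      φ (pt 2 0) (pt 0 0) + φ (pt 0 0) vo3 + φ vo3 vo1 := by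
  have h := psum_range_reverse φ (fun l => pt (l + 2) 0) (3 * J + 1) [pt 0 0, vo3, vo1]
  have e : ([vo1, pt (3 * J + 5) 1] ++ (List.range (3 * J + 2)).reverse.map (fun l => pt (l + 2) 0) ++
      [pt 0 0, vo3] : List VX) = vo1 :: (pt (3 * J + 5) 1 :: pt (3 * J + 1 + 2) 0 ::
        ((List.range (3 * J + 1)).reverse.map (fun l => pt (l + 2) 0) ++ [pt 0 0, vo3])) := by
    rw [show 3 * J + 2 = (3 * J + 1) + 1 by omega, List.range_succ, List.reverse_append]
    simp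
  rw [e, wsum_cons]
  simp only [List.cons_append, psum_cons, List.append_assoc, List.nil_append]
  rw [h]
  simp only [Nat.zero_add, Nat.add_assoc, Nat.reduceAdd, psum_cons, psum_nil]
  ring

lemma outer2 (φ : VX → VX → ℝ) (I J : ℕ) :
    wsum φ ([vo2] ++ (List.range I).reverse.flatMap (fun i' =>
      [pt (3 * J + 6) (3 * i' + 5), pt (3 * J + 6) (3 * i' + 4)]) ++
      [pt (3 * J + 6) 2, pt (3 * J + 5) 1, vo1]) =
      φ vo2 (pt (3 * J + 6) (3 * I + 2)) +
      ∑ i ∈ Finset.range I, (φ (pt (3 * J + 6) (3 * i + 5)) (pt (3 * J + 6) (3 * i + 4)) +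
        φ (pt (3 * J + 6) (3 * i + 4)) (pt (3 * J + 6) (3 * i + 2))) +
      φ (pt (3 * J + 6) 2) (pt (3 * J + 5) 1) + φ (pt (3 * J + 5) 1) vo1 + φ vo1 vo2 := by
  have h := psum_flat_reverse φ (fun i => pt (3 * J + 6) (3 * i + 2))
    (fun i => pt (3 * J + 6) (3 * i + 4)) I vo2 [pt (3 * J + 5) 1, vo1, vo2]
  simp only [Nat.mul_add, Nat.add_assoc, Nat.reduceAdd, Nat.reduceMul, Nat.mul_zero, Nat.zero_add,
    psum_cons, psum_nil] at h
  simp only [List.cons_append, List.append_assoc, List.nil_append, wsum_cons]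
  rw [h]
  ring

lemma outer3 (φ : VX → VX → ℝ) (I J : ℕ) :
    wsum φ ([vo3] ++ (List.range (3 * I + 1)).map (fun y => pt 0 y) ++
      [pt 1 (3 * I + 1), pt 3 (3 * I + 2)] ++
      (List.range (J + 1)).flatMap (fun j =>
        [pt (3 * j + 5) (3 * I + 2), pt (3 * j + 6) (3 * I + 2)]) ++ [vo2]) =
      φ vo3 (pt 0 0) + ∑ y ∈ Finset.range (3 * I), φ (pt 0 y) (pt 0 (y + 1)) +
      φ (pt 0 (3 * I)) (pt 1 (3 * I + 1)) + φ (pt 1 (3 * I + 1)) (pt 3 (3 * I + 2)) +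
      ∑ j ∈ Finset.range (J + 1), (φ (pt (3 * j + 3) (3 * I + 2)) (pt (3 * j + 5) (3 * I + 2)) +
        φ (pt (3 * j + 5) (3 * I + 2)) (pt (3 * j + 6) (3 * I + 2))) +
      φ (pt (3 * J + 6) (3 * I + 2)) vo2 + φ vo2 vo3 := by
  have h := psum_flat φ (fun j => pt (3 * j + 3) (3 * I + 2))
    (fun j => pt (3 * j + 5) (3 * I + 2)) (J + 1) [vo2, vo3]
  have h' := psum_range φ (fun y => pt 0 y) (3 * I)
    (pt 1 (3 * I + 1) :: pt 3 (3 * I + 2) :: ((List.range (J + 1)).flatMap (fun j =>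
        [pt (3 * j + 5) (3 * I + 2), pt (3 * j + 6) (3 * I + 2)]) ++ [vo2, vo3]))
  simp only [Nat.mul_add, Nat.add_assoc, Nat.reduceAdd, Nat.reduceMul, Nat.mul_zero, Nat.zero_add,
    psum_cons, psum_nil] at h
  rw [List.range_succ_eq_map]
  simp only [List.cons_append, List.append_assoc, List.nil_append, wsum_cons, List.map_cons,
    psum_cons, List.map_map, Function.comp_def, Nat.succ_eq_add_one]
  rw [h']
  simp only [psum_cons]
  rw [h]
  ring

/-- sum over the outer faces -/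
lemma outerS (φ : VX → VX → ℝ) (hφ : ∀ u v, φ u v = - φ v u) (I J : ℕ) :
    fsum φ (outerFaces I J) =
      φ vo1 vo2 + φ vo2 vo3 + φ vo3 vo1 -
      φ (pt (3 * J + 3) 0) (pt (3 * J + 5) 1) -
      ∑ x ∈ Finset.range (3 * J + 1), φ (pt (x + 2) 0) (pt (x + 3) 0) -
      φ (pt 0 0) (pt 2 0) -
      ∑ i' ∈ Finset.range I, rigS φ i' J - φ (pt (3 * J + 5) 1) (pt (3 * J + 6) 2) +
      ∑ y ∈ Finset.range (3 * I), φ (pt 0 y) (pt 0 (y + 1)) +
      φ (pt 0 (3 * I)) (pt 1 (3 * I + 1)) + φ (pt 1 (3 * I + 1)) (pt 3 (3 * I + 2)) +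
      ∑ j ∈ Finset.range (J + 1), (φ (pt (3 * j + 3) (3 * I + 2)) (pt (3 * j + 5) (3 * I + 2)) +
        φ (pt (3 * j + 5) (3 * I + 2)) (pt (3 * j + 6) (3 * I + 2))) := by
  have hsum1 : ∑ x ∈ Finset.range (3 * J + 1), φ (pt (x + 3) 0) (pt (x + 2) 0) =
      - ∑ x ∈ Finset.range (3 * J + 1), φ (pt (x + 2) 0) (pt (x + 3) 0) := by
    rw [← Finset.sum_neg_distrib]
    exact Finset.sum_congr rfl (fun x _ => hφ _ _)
  have hsum2 : ∑ i ∈ Finset.range I, (φ (pt (3 * J + 6) (3 * i + 5)) (pt (3 * J + 6) (3 * i + 4)) +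
        φ (pt (3 * J + 6) (3 * i + 4)) (pt (3 * J + 6) (3 * i + 2))) =
      - ∑ i' ∈ Finset.range I, rigS φ i' J := by
    rw [← Finset.sum_neg_distrib]
    refine Finset.sum_congr rfl (fun i _ => ?_)
    unfold rigS
    linarith [hφ (pt (3 * J + 6) (3 * i + 5)) (pt (3 * J + 6) (3 * i + 4)),
      hφ (pt (3 * J + 6) (3 * i + 4)) (pt (3 * J + 6) (3 * i + 2))]
  unfold outerFaces
  simp only [fsum_cons, fsum_nil]
  rw [outer1, outer2, outer3, hsum1, hsum2]
  linarith [hφ vo1 (pt (3 * J + 5) 1), hφ (pt (3 * J + 5) 1) (pt (3 * J + 3) 0),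
    hφ (pt 2 0) (pt 0 0), hφ (pt 0 0) vo3, hφ vo2 (pt (3 * J + 6) (3 * I + 2)),
    hφ (pt (3 * J + 6) 2) (pt (3 * J + 5) 1)]

/-- a sum over `range (3 k)` in groups of three -/
lemma sum_range_three (f : ℕ → ℝ) (k : ℕ) :
    ∑ y ∈ Finset.range (3 * k), f y =
      ∑ i ∈ Finset.range k, (f (3 * i) + f (3 * i + 1) + f (3 * i + 2)) := by
  induction k with
  | zero => simp
  | succ k ih =>
    rw [show 3 * (k + 1) = 3 * k + 1 + 1 + 1 by ring, Finset.sum_range_succ,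
      Finset.sum_range_succ, Finset.sum_range_succ, ih, Finset.sum_range_succ]
    ring

theorem chain_fabric : TargetChain := by
  intro n m τ hn φ hφ
  have hE : (((fabric n m τ).inner.map Prod.fst).map (wsum φ)).sum =
      fsum φ (fabricFaces n m τ) := by
    simp [fabric, fsum, Function.comp_def]
  rw [hE]
  unfold fabricFaces
  rw [fsum_append, fsum_quads φ hφ, fsum_map_scale]
  unfold fabricQuads fabricPlain
  rw [qsum_append, fsum_append, frameS φ hφ, outerS φ hφ, qsum_range, fsum_range]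
  have hB := blocksS φ hφ (n + 1) (m + 1) τ (by omega) (by omega)
  have h1 : ∑ i ∈ Finset.range (n + 1), qsum φ ((List.range (m + 2)).flatMap fun j =>
      blockQuads (n + 1) (m + 1) i j) +
      ∑ i ∈ Finset.range (n + 1), fsum φ ((List.range (m + 2)).flatMap fun j =>
      holeFaces (n + 1) (m + 1) τ i j) =
      ∑ i' ∈ Finset.range (n + 1), ∑ j ∈ Finset.range (m + 1 + 1),
      (qsum φ (blockQuads (n + 1) (m + 1) i' j) + fsum φ (holeFaces (n + 1) (m + 1) τ i' j)) := by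
    rw [← Finset.sum_add_distrib]
    refine Finset.sum_congr rfl (fun i _ => ?_)
    rw [qsum_range, fsum_range, ← Finset.sum_add_distrib]
  have h2 : ∑ y ∈ Finset.range (3 * (n + 1)), φ (pt 3 (y + 2)) (pt 3 (y + 3)) =
      ∑ i' ∈ Finset.range (n + 1), lefS φ i' 0 := by
    rw [sum_range_three]
    refine Finset.sum_congr rfl (fun i _ => ?_)
    simp only [lefS, Nat.add_assoc, Nat.reduceAdd, Nat.mul_zero, Nat.zero_add]
  have h3 : ∑ x ∈ Finset.range (3 * (m + 1) + 1), φ (pt (x + 5) 2) (pt (x + 6) 2) =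
      φ (pt 5 2) (pt 6 2) + ∑ j ∈ Finset.range (m + 1), botS φ 0 (j + 1) := by
    rw [Finset.sum_range_succ', sum_range_three, add_comm]
    congr 1
  have h4 : ∑ j ∈ Finset.range (m + 1 + 1),
      (φ (pt (3 * j + 3) (3 * (n + 1) + 2)) (pt (3 * j + 5) (3 * (n + 1) + 2)) +
        φ (pt (3 * j + 5) (3 * (n + 1) + 2)) (pt (3 * j + 6) (3 * (n + 1) + 2))) =
      ∑ j ∈ Finset.range (m + 1 + 1), topS φ (n + 1 - 1) j := by
    refine Finset.sum_congr rfl (fun j _ => ?_)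
    simp only [topS, Nat.add_assoc, Nat.reduceAdd, Nat.mul_add, Nat.reduceMul,
      Nat.add_sub_cancel]
  rw [h3, h2, h4]
  rw [wsum_cons]
  simp only [List.cons_append, List.nil_append, psum_cons, psum_nil]
  unfold botS' at hB
  linarith [hφ (pt 3 (3 * (n + 1) + 2)) (pt 1 (3 * (n + 1) + 1)),
    hφ (pt 1 (3 * (n + 1) + 1)) (pt 0 (3 * (n + 1)))]

end Pool.Agent.PAH
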