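import Pool.Agent.PAH.Targets

set_option autoImplicit false

/-!
# Columns of a node matrix as transformations of a state
-/

namespace Pool.Agent.PAH

/-- value leaving a node to the right -/
def outX : Ty → ℝ → ℝ → ℝ
  | .C, x, _ => x
  | .A, x, _ => -x
  | .P, x, y => x * (1 - y)

/-- value leaving a node to the top -/
def outY : Ty → ℝ → ℝ → ℝ
  | .C, _, y => y
  | .A, x, y => y + 2 * x
  | .P, x, y => y * (1 + x)

theorem nodeRel_iff (t : Ty) (x y x' y' : ℝ) :
    NodeRel t x y x' y' ↔ x' = outX t x y ∧ y' = outY t x y := by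
  cases t <;> simp [NodeRel, outX, outY]

/-- the vertical values in a column -/
def yv (c : List Ty) (s : ℕ → ℝ) : ℕ → ℝ
  | 0 => 0
  | r + 1 => outY (c.getD r Ty.C) (s r) (yv c s r)

/-- the state after a column -/
def nx (c : List Ty) (s : ℕ → ℝ) (r : ℕ) : ℝ := outX (c.getD r Ty.C) (s r) (yv c s r)

/-- `cs` transforms the state `s` to `s'`; all values are bounded by `ε` -/
def Run (n : ℕ) (Q : ℝ → Prop) : List (List Ty) → (ℕ → ℝ) → (ℕ → ℝ) → Prop
  | [], s, s' => (∀ r, Q (s r)) ∧ s' = s
  | c :: cs, s, s' => (∀ r, Q (s r)) ∧ yv c s n = 0 ∧ (∀ r, r ≤ n → Q (yv c s r)) ∧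
      Run n Q cs (nx c s) s'

theorem Run.left {n : ℕ} {Q : ℝ → Prop} {l : List (List Ty)} {s s' : ℕ → ℝ}
    (h : Run n Q l s s') (r : ℕ) : Q (s r) := by
  cases l with
  | nil => exact h.1 r
  | cons c cs => exact h.1 r

theorem run_append {n : ℕ} {Q : ℝ → Prop} {l₁ l₂ : List (List Ty)} {s s'' : ℕ → ℝ} :
    Run n Q (l₁ ++ l₂) s s'' ↔ ∃ s', Run n Q l₁ s s' ∧ Run n Q l₂ s' s'' := by
  induction l₁ generalizing s with
  | nil =>
    simp only [List.nil_append, Run]
    constructor
    · intro h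
      exact ⟨s, ⟨fun r => h.left r, rfl⟩, h⟩
    · rintro ⟨s', ⟨_, rfl⟩, h⟩
      exact h
  | cons c cs ih =>
    simp only [List.cons_append, Run, ih]
    constructor
    · rintro ⟨h1, h2, h3, s', h4, h5⟩
      exact ⟨s', ⟨h1, h2, h3, h4⟩, h5⟩
    · rintro ⟨s', ⟨h1, h2, h3, h4⟩, h5⟩
      exact ⟨h1, h2, h3, s', h4, h5⟩

/-- states before the columns -/
def st (cs : List (List Ty)) (s : ℕ → ℝ) : ℕ → (ℕ → ℝ)
  | 0 => s
  | j + 1 => nx (cs.getD j []) (st cs s j)

theorem st_cons (c : List Ty) (cs : List (List Ty)) (s : ℕ → ℝ) (j : ℕ) :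
    st (c :: cs) s (j + 1) = st cs (nx c s) j := by
  induction j with
  | zero => simp [st]
  | succ j ih =>
    rw [st, ih, st]
    simp

theorem run_props {n : ℕ} {Q : ℝ → Prop} {cs : List (List Ty)} {s s' : ℕ → ℝ}
    (h : Run n Q cs s s') :
    (∀ j, j ≤ cs.length → ∀ r, Q (st cs s j r)) ∧
      ∀ j, j < cs.length → yv (cs.getD j []) (st cs s j) n = 0 ∧
        ∀ r, r ≤ n → Q (yv (cs.getD j []) (st cs s j) r) := by
  induction cs generalizing s with
  | nil =>
    constructor
    · intro j hj r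
      have : j = 0 := by simpa using hj
      subst this
      exact h.1 r
    · intro j hj
      simp at hj
  | cons c cs ih =>
    obtain ⟨h1, h2, h3, h4⟩ := h
    obtain ⟨i1, i2⟩ := ih h4
    constructor
    · intro j hj r
      cases j with
      | zero => exact h1 r
      | succ j =>
        rw [st_cons]
        exact i1 j (by simpa using hj) r
    · intro j hj
      cases j with
      | zero => simpa [st] using ⟨h2, h3⟩
      | succ j =>
        rw [st_cons]
        simpa using i2 j (by simpa using hj)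

/-- from a run to a solution -/
theorem sol_of_run {X : Matrix'} {ε : ℝ} {s s' : ℕ → ℝ} (hε : 0 ≤ ε)
    (h : Run X.n (fun x => |x| ≤ ε) X.cols s s') (hn : 1 ≤ X.n) :
    ∃ ξ η : ℕ → ℕ → ℝ, Sol X.n X.m X.τ ξ η ∧ (∀ i j, |ξ i j| ≤ ε) ∧ (∀ i j, |η i j| ≤ ε) ∧
      ξ 1 1 = s 0 := by
  obtain ⟨h1, h2⟩ := run_props h
  refine ⟨fun i j => if 1 ≤ i ∧ 1 ≤ j ∧ j ≤ X.m + 1 then st X.cols s (j - 1) (i - 1) else 0,
    fun i j => if 1 ≤ i ∧ i ≤ X.n + 1 ∧ 1 ≤ j ∧ j ≤ X.m then
      yv (X.cols.getD (j - 1) []) (st X.cols s (j - 1)) (i - 1) else 0, ⟨?_, ?_, ?_⟩, ?_, ?_, ?_⟩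
  · intro i j hi1 hin hj1 hjm
    obtain ⟨i, rfl⟩ : ∃ k, i = k + 1 := ⟨i - 1, by omega⟩
    obtain ⟨j, rfl⟩ : ∃ k, j = k + 1 := ⟨j - 1, by omega⟩
    rw [nodeRel_iff]
    have e1 : 1 ≤ i + 1 ∧ 1 ≤ j + 1 ∧ j + 1 ≤ X.m + 1 := by omega
    have e2 : 1 ≤ i + 1 ∧ 1 ≤ j + 1 + 1 ∧ j + 1 + 1 ≤ X.m + 1 := by omega
    have e3 : 1 ≤ i + 1 ∧ i + 1 ≤ X.n + 1 ∧ 1 ≤ j + 1 ∧ j + 1 ≤ X.m := by omega
    have e4 : 1 ≤ i + 1 + 1 ∧ i + 1 + 1 ≤ X.n + 1 ∧ 1 ≤ j + 1 ∧ j + 1 ≤ X.m := by omega
    simp only [e1, e2, e3, e4, and_self, if_true, Nat.add_sub_cancel, Matrix'.τ]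
    constructor
    · rfl
    · rfl
  · intro j hj1 hjm
    have : 1 ≤ 1 ∧ 1 ≤ X.n + 1 ∧ 1 ≤ j ∧ j ≤ X.m := by omega
    simp only [this, and_self, if_true]
    rfl
  · intro j hj1 hjm
    have : 1 ≤ X.n + 1 ∧ X.n + 1 ≤ X.n + 1 ∧ 1 ≤ j ∧ j ≤ X.m := by omega
    simp only [this, and_self, if_true, Nat.add_sub_cancel]
    exact (h2 (j - 1) (by have : X.m = X.cols.length := rfl; omega)).1
  · intro i j
    simp only
    split_ifs with hc
    · exact h1 (j - 1) (by have : X.m = X.cols.length := rfl; omega) _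
    · simpa using hε
  · intro i j
    simp only
    split_ifs with hc
    · exact (h2 (j - 1) (by have : X.m = X.cols.length := rfl; omega)).2 _ (by omega)
    · simpa using hε
  · simp [st]

theorem getD_of_length_le {c : List Ty} {r : ℕ} (h : c.length ≤ r) : c.getD r Ty.C = Ty.C := by
  simp [List.getD, List.getElem?_eq_none h]

/-- from a solution to a run -/
theorem run_of_sol_aux {n : ℕ} {ξ η : ℕ → ℕ → ℝ} (cs : List (List Ty))
    (hlen : ∀ c ∈ cs, c.length ≤ n) (k : ℕ)
    (hnode : ∀ j, j < cs.length → ∀ r, r < n →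
      NodeRel ((cs.getD j []).getD r Ty.C) (ξ (r + 1) (k + j + 1)) (η (r + 1) (k + j + 1))
        (ξ (r + 1) (k + j + 2)) (η (r + 2) (k + j + 1)))
    (hbot : ∀ j, j < cs.length → η 1 (k + j + 1) = 0)
    (htop : ∀ j, j < cs.length → η (n + 1) (k + j + 1) = 0) :
    Run n (fun _ => True) cs (fun r => if r < n then ξ (r + 1) (k + 1) else 0)
      (fun r => if r < n then ξ (r + 1) (k + cs.length + 1) else 0) := by
  induction cs generalizing k with
  | nil => simp [Run]
  | cons c cs ih =>
    have hy : ∀ r, r ≤ n → yv c (fun r => if r < n then ξ (r + 1) (k + 1) else 0) r =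
        η (r + 1) (k + 1) := by
      intro r
      induction r with
      | zero =>
        intro _
        have := hbot 0 (by simp)
        simpa [yv] using this.symm
      | succ r ihr =>
        intro hr
        have h := (nodeRel_iff _ _ _ _ _).1 (hnode 0 (by simp) r (by omega))
        rw [yv, ihr (by omega), if_pos (by omega)]
        have h2 := h.2
        simp only [List.getD_cons_zero, add_zero] at h2
        exact h2.symm
    refine ⟨fun _ => trivial, ?_, fun _ _ => trivial, ?_⟩
    · rw [hy n le_rfl]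
      simpa using htop 0 (by simp)
    · have := ih (fun c' hc' => hlen c' (by simp [hc'])) (k + 1)
        (fun j hj r hr => by
          have := hnode (j + 1) (by simpa using hj) r hr
          simp only [List.getD_cons_succ] at this
          convert this using 2 <;> ring)
        (fun j hj => by
          have := hbot (j + 1) (by simpa using hj)
          convert this using 2; ring)
        (fun j hj => by
          have := htop (j + 1) (by simpa using hj)
          convert this using 2; ring)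
      have e : nx c (fun r => if r < n then ξ (r + 1) (k + 1) else 0) =
          fun r => if r < n then ξ (r + 1) (k + 1 + 1) else 0 := by
        funext r
        by_cases hr : r < n
        · have h := (nodeRel_iff _ _ _ _ _).1 (hnode 0 (by simp) r hr)
          have h1 := h.1
          simp only [List.getD_cons_zero, add_zero] at h1
          rw [nx, hy r (by omega), if_pos hr, if_pos hr, h1]
        · have hc : c.length ≤ r := le_trans (hlen c (by simp)) (by omega)
          rw [nx, getD_of_length_le hc]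
          simp [outX, hr]
      rw [e]
      convert this using 3
      simp only [List.length_cons]
      have : k + (cs.length + 1) + 1 = k + 1 + cs.length + 1 := by ring
      rw [this]

theorem run_of_sol {X : Matrix'} {ξ η : ℕ → ℕ → ℝ} (hlen : ∀ c ∈ X.cols, c.length ≤ X.n)
    (h : Sol X.n X.m X.τ ξ η) :
    Run X.n (fun _ => True) X.cols (fun r => if r < X.n then ξ (r + 1) 1 else 0)
      (fun r => if r < X.n then ξ (r + 1) (X.cols.length + 1) else 0) := by
  have hm : X.m = X.cols.length := rfl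
  have := run_of_sol_aux (n := X.n) (ξ := ξ) (η := η) X.cols hlen 0
    (fun j hj r hr => by
      have := h.node (r + 1) (j + 1) (by omega) (by omega) (by omega) (by omega)
      simp only [Matrix'.τ, Nat.add_sub_cancel] at this
      simpa using this)
    (fun j hj => by simpa using h.bot (j + 1) (by omega) (by omega))
    (fun j hj => by simpa using h.top (j + 1) (by omega) (by omega))
  simpa using this

/-! ## Linear columns -/

theorem foldl_set_getD (S : List ℕ) (c : List Ty) (r : ℕ) (hr : r < c.length) :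
    (S.foldl (fun c r => c.set r Ty.A) c).getD r Ty.C =
      if r ∈ S then Ty.A else c.getD r Ty.C := by
  induction S generalizing c with
  | nil => simp
  | cons a S ih =>
    rw [List.foldl_cons, ih _ (by simpa using hr)]
    by_cases h1 : r ∈ S
    · simp [h1]
    · by_cases h2 : r = a
      · subst h2
        simp [h1, List.getD, hr]
      · simp [h1, h2, List.getD, List.getElem?_set_ne (Ne.symm h2)]

theorem foldl_set_length (S : List ℕ) (c : List Ty) :
    (S.foldl (fun c r => c.set r Ty.A) c).length = c.length := by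
  induction S generalizing c with
  | nil => simp
  | cons a S ih => rw [List.foldl_cons, ih]; simp

theorem linCol_length (n : ℕ) (S : List ℕ) : (linCol n S).length = n := by
  rw [linCol, foldl_set_length]; simp

theorem linCol_getD (n : ℕ) (S : List ℕ) (r : ℕ) :
    (linCol n S).getD r Ty.C = if r ∈ S ∧ r < n then Ty.A else Ty.C := by
  by_cases hr : r < n
  · rw [linCol, foldl_set_getD _ _ _ (by simpa using hr)]
    simp [hr]
  · rw [getD_of_length_le (by rw [linCol_length]; omega)]
    simp [hr]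

theorem yv_linCol (n : ℕ) (S : List ℕ) (s : ℕ → ℝ) (r : ℕ) (hr : r ≤ n) :
    yv (linCol n S) s r = 2 * ∑ k ∈ Finset.range r, if k ∈ S then s k else 0 := by
  induction r with
  | zero => simp [yv]
  | succ r ih =>
    rw [yv, ih (by omega), linCol_getD, Finset.sum_range_succ]
    by_cases h : r ∈ S
    · rw [if_pos ⟨h, by omega⟩, if_pos h, outY]; ring
    · rw [if_neg (by simp [h]), if_neg h, outY]; ring

/-- change of sign on a list -/
def flip' (S : List ℕ) (s : ℕ → ℝ) (r : ℕ) : ℝ := if r ∈ S then -s r else s r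

theorem nx_linCol (n : ℕ) (S : List ℕ) (s : ℕ → ℝ) (hS : ∀ r ∈ S, r < n) :
    nx (linCol n S) s = flip' S s := by
  funext r
  rw [nx, linCol_getD, flip']
  by_cases h : r ∈ S
  · rw [if_pos ⟨h, hS r h⟩, if_pos h, outX]
  · rw [if_neg (by simp [h]), if_neg h, outX]

theorem sum_ite_mem (n : ℕ) (S : List ℕ) (s : ℕ → ℝ) (hS : ∀ r ∈ S, r < n) (hd : S.Nodup) :
    (∑ k ∈ Finset.range n, if k ∈ S then s k else 0) = (S.map s).sum := by
  rw [← Finset.sum_filter, ← List.sum_toFinset s hd]
  apply Finset.sum_congr _ (fun _ _ => rfl)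
  ext k
  simp only [Finset.mem_filter, Finset.mem_range, List.mem_toFinset]
  exact ⟨fun h => h.2, fun h => ⟨hS k h, h⟩⟩

theorem flip_flip (S : List ℕ) (s : ℕ → ℝ) : flip' S (flip' S s) = s := by
  funext r
  simp only [flip']
  split_ifs <;> simp

theorem sum_flip (n : ℕ) (S : List ℕ) (s : ℕ → ℝ) :
    (∑ k ∈ Finset.range n, if k ∈ S then flip' S s k else 0) =
      - ∑ k ∈ Finset.range n, if k ∈ S then s k else 0 := by
  rw [← Finset.sum_neg_distrib]
  apply Finset.sum_congr rfl
  intro k _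
  by_cases h : k ∈ S <;> simp [h, flip']

/-- a pair of equal linear columns -/
theorem run_pair {n : ℕ} {Q : ℝ → Prop} {S : List ℕ} {cs : List (List Ty)} {s s' : ℕ → ℝ}
    (hS : ∀ r ∈ S, r < n) (hd : S.Nodup)
    (h : Run n Q (linCol n S :: linCol n S :: cs) s s') :
    (S.map s).sum = 0 ∧ Run n Q cs s s' := by
  obtain ⟨_, h2, _, _, _, _, h4⟩ := h
  rw [nx_linCol n S _ hS, nx_linCol n S _ hS, flip_flip] at h4
  rw [yv_linCol n S s n le_rfl, sum_ite_mem n S s hS hd] at h2
  exact ⟨by linarith, h4⟩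

theorem run_pair_intro {n : ℕ} {ε : ℝ} {S : List ℕ} {cs : List (List Ty)} {s s' : ℕ → ℝ}
    (hS : ∀ r ∈ S, r < n) (hd : S.Nodup)
    (h0 : (S.map s).sum = 0) (hb : 2 * (S.map fun r => |s r|).sum ≤ ε)
    (h : Run n (fun x => |x| ≤ ε) cs s s') :
    Run n (fun x => |x| ≤ ε) (linCol n S :: linCol n S :: cs) s s' := by
  have hb1 : ∀ r, r ≤ n → |yv (linCol n S) s r| ≤ ε := by
    intro r hr
    rw [yv_linCol n S s r hr, abs_mul, abs_two]
    refine le_trans (mul_le_mul_of_nonneg_left ?_ (by norm_num)) hb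
    refine le_trans (Finset.abs_sum_le_sum_abs _ _) ?_
    rw [← sum_ite_mem n S (fun r => |s r|) hS hd]
    refine le_trans (Finset.sum_le_sum_of_subset_of_nonneg
      (Finset.range_subset_range.2 hr) (fun _ _ _ => abs_nonneg _)) ?_
    apply Finset.sum_le_sum
    intro k _
    by_cases hk : k ∈ S <;> simp [hk]
  have hb2 : ∀ r, r ≤ n → |yv (linCol n S) (flip' S s) r| ≤ ε := by
    intro r hr
    have := hb1 r hr
    rw [yv_linCol n S _ r hr] at this ⊢
    rw [sum_flip]
    rwa [mul_neg, abs_neg]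
  have hq : ∀ r, |s r| ≤ ε := fun r => h.left r
  refine ⟨hq, ?_, hb1, ?_, ?_, ?_, ?_⟩
  · rw [yv_linCol n S s n le_rfl, sum_ite_mem n S s hS hd, h0, mul_zero]
  · rw [nx_linCol n S _ hS]
    intro r
    simp only [flip']
    split_ifs
    · rw [abs_neg]; exact hq r
    · exact hq r
  · rw [nx_linCol n S _ hS, yv_linCol n S _ n le_rfl, sum_flip, sum_ite_mem n S s hS hd, h0]
    simp
  · rw [nx_linCol n S _ hS]
    exact hb2
  · rw [nx_linCol n S _ hS, nx_linCol n S _ hS, flip_flip]
    exact h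

/-! ## Multiplication columns -/

theorem mulCol_length (n r : ℕ) : (mulCol n r).length = n := by
  simp [mulCol]

theorem mulCol_getD (n r k : ℕ) (hr : r + 2 < n) :
    (mulCol n r).getD k Ty.C =
      if k = r then Ty.A else if k = r + 1 then Ty.P else if k = r + 2 then Ty.A else Ty.C := by
  by_cases hk : k < n
  · have hk' : k < (mulCol n r).length := by rw [mulCol_length]; exact hk
    rw [List.getD_eq_getElem _ _ hk']
    simp only [mulCol, List.getElem_set, List.getElem_replicate]
    by_cases h1 : k = r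
    · subst h1
      simp
    · by_cases h2 : k = r + 1
      · subst h2
        simp
      · by_cases h3 : k = r + 2
        · subst h3
          simp
        · simp [h1, h2, h3, Ne.symm h1, Ne.symm h2, Ne.symm h3]
  · rw [getD_of_length_le (by rw [mulCol_length]; omega)]
    rw [if_neg (by omega), if_neg (by omega), if_neg (by omega)]

theorem yv_mulCol_lt (n r : ℕ) (hr : r + 2 < n) (s : ℕ → ℝ) (k : ℕ) (hk : k ≤ r) :
    yv (mulCol n r) s k = 0 := by
  induction k with
  | zero => rfl
  | succ k ih =>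
    rw [yv, ih (by omega), mulCol_getD n r k hr, if_neg (by omega), if_neg (by omega),
      if_neg (by omega), outY]

theorem yv_mulCol_1 (n r : ℕ) (hr : r + 2 < n) (s : ℕ → ℝ) :
    yv (mulCol n r) s (r + 1) = 2 * s r := by
  rw [yv, yv_mulCol_lt n r hr s r le_rfl, mulCol_getD n r r hr, if_pos rfl, outY]
  ring

theorem yv_mulCol_2 (n r : ℕ) (hr : r + 2 < n) (s : ℕ → ℝ) :
    yv (mulCol n r) s (r + 2) = 2 * s r * (1 + s (r + 1)) := by
  rw [yv, yv_mulCol_1 n r hr s, mulCol_getD n r (r + 1) hr, if_neg (by omega), if_pos rfl, outY]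

theorem yv_mulCol_3 (n r : ℕ) (hr : r + 2 < n) (s : ℕ → ℝ) (k : ℕ) (hk : r + 3 ≤ k) :
    yv (mulCol n r) s k = 2 * s r * (1 + s (r + 1)) + 2 * s (r + 2) := by
  induction k with
  | zero => omega
  | succ k ih =>
    by_cases h : k = r + 2
    · subst h
      rw [yv, yv_mulCol_2 n r hr s, mulCol_getD n r (r + 2) hr, if_neg (by omega),
        if_neg (by omega), if_pos rfl, outY]
    · rw [yv, ih (by omega), mulCol_getD n r k hr, if_neg (by omega), if_neg (by omega),
        if_neg h, outY]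

/-- the state after a multiplication column -/
def mulState (r : ℕ) (s : ℕ → ℝ) (k : ℕ) : ℝ :=
  if k = r then -s r else if k = r + 1 then s (r + 1) * (1 - 2 * s r)
    else if k = r + 2 then -s (r + 2) else s k

theorem nx_mulCol (n r : ℕ) (hr : r + 2 < n) (s : ℕ → ℝ) :
    nx (mulCol n r) s = mulState r s := by
  funext k
  rw [nx, mulCol_getD n r k hr, mulState]
  by_cases h1 : k = r
  · subst h1
    simp [outX]
  · by_cases h2 : k = r + 1
    · subst h2
      simp [outX, yv_mulCol_1 n r hr s]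
    · by_cases h3 : k = r + 2
      · subst h3
        simp [outX]
      · simp [h1, h2, h3, outX]

theorem run_mul {n r : ℕ} {Q : ℝ → Prop} {cs : List (List Ty)} {s s' : ℕ → ℝ}
    (hr : r + 2 < n) (h : Run n Q (mulCol n r :: cs) s s') :
    s (r + 2) = - (s r * (1 + s (r + 1))) ∧ Run n Q cs (mulState r s) s' := by
  obtain ⟨_, h2, _, h4⟩ := h
  rw [nx_mulCol n r hr] at h4
  rw [yv_mulCol_3 n r hr s n (by omega)] at h2
  exact ⟨by linarith, h4⟩

theorem run_mul_intro {n r : ℕ} {ε : ℝ} {cs : List (List Ty)} {s s' : ℕ → ℝ}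
    (hr : r + 2 < n) (hε : 0 ≤ ε) (h0 : s (r + 2) = - (s r * (1 + s (r + 1))))
    (hq : ∀ r, |s r| ≤ ε)
    (hb1 : |2 * s r| ≤ ε) (hb2 : |2 * s r * (1 + s (r + 1))| ≤ ε)
    (h : Run n (fun x => |x| ≤ ε) cs (mulState r s) s') :
    Run n (fun x => |x| ≤ ε) (mulCol n r :: cs) s s' := by
  have h3 : 2 * s r * (1 + s (r + 1)) + 2 * s (r + 2) = 0 := by rw [h0]; ring
  refine ⟨hq, ?_, ?_, ?_⟩
  · rw [yv_mulCol_3 n r hr s n (by omega), h3]
  · intro k hk
    by_cases h1 : k ≤ r
    · rw [yv_mulCol_lt n r hr s k h1]; simpa using hε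
    · by_cases h2 : k = r + 1
      · subst h2
        rw [yv_mulCol_1 n r hr s]; exact hb1
      · by_cases h4 : k = r + 2
        · subst h4
          rw [yv_mulCol_2 n r hr s]; exact hb2
        · rw [yv_mulCol_3 n r hr s k (by omega), h3]; simpa using hε
  · rw [nx_mulCol n r hr]
    exact h

end Pool.Agent.PAH
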