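import Pool.Agent.PAH.Cols

set_option autoImplicit false
set_option linter.unnecessarySeqFocus false
set_option linter.unusedTactic false
set_option linter.unreachableTactic false

/-!
# Jobs A-NO and A-YES: the matrix of an arithmetic system
-/

namespace Pool.Agent.PAH

/-! ## Sizes -/

theorem lt_numVars {L : List Constr} {c : Constr} (h : c ∈ L) :
    c.u < numVars L ∧ c.v < numVars L ∧ c.w < numVars L := by
  have h1 : (encConstr c).length ≤ (encArith L).length := by
    rw [encArith, List.length_flatMap]
    exact List.single_le_sum (by simp) _ (List.mem_map.2 ⟨c, h, rfl⟩)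
  have h2 : (encConstr c).length = 5 + c.u + c.v + c.w := by
    simp [encConstr]; ring
  unfold numVars
  omega

theorem numVars_pos (L : List Constr) : 0 < numVars L := by unfold numVars; omega

/-- all columns of the matrix, starting with index `k` -/
def blockCols (n nv : ℕ) (L : List Constr) (k : ℕ) : List (List Ty) :=
  (L.zipIdx k).flatMap fun c => c.1.cols n (nv + 7 * c.2)

theorem blockCols_cons (n nv : ℕ) (c : Constr) (L : List Constr) (k : ℕ) :
    blockCols n nv (c :: L) k = c.cols n (nv + 7 * k) ++ blockCols n nv L (k + 1) := by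
  simp [blockCols, List.zipIdx_cons]

theorem arithMatrix_cols (L : List Constr) :
    (arithMatrix L).cols = blockCols (arithMatrix L).n (numVars L) L 0 := rfl

theorem cols_length (n b : ℕ) (c : Constr) : ∀ l ∈ c.cols n b, l.length ≤ n := by
  intro l hl
  unfold Constr.cols at hl
  split_ifs at hl
  · simp only [List.mem_cons, List.not_mem_nil, or_false] at hl
    rcases hl with rfl | rfl | rfl | rfl | rfl | rfl <;> simp [linCol_length]
  · simp only [List.mem_cons, List.not_mem_nil, or_false] at hl
    rcases hl with rfl | rfl | rfl | rfl | rfl | rfl | rfl | rfl | rfl | rfl | rfl | rfl | rfl | rfl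
      <;> simp [linCol_length, mulCol_length]

theorem matrix_length (L : List Constr) : ∀ l ∈ (arithMatrix L).cols, l.length ≤ (arithMatrix L).n := by
  intro l hl
  rw [arithMatrix_cols, blockCols, List.mem_flatMap] at hl
  obtain ⟨c, _, hc⟩ := hl
  exact cols_length _ _ _ _ hc

/-! ## The direction from solutions to assignments -/

theorem constr_no {n b : ℕ} {Q : ℝ → Prop} {cs : List (List Ty)} {s s' : ℕ → ℝ} {c : Constr}
    (hb0 : 0 < b) (hu : c.u < b) (hv : c.v < b) (hw : c.w < b) (hn : b + 7 ≤ n)
    (h : Run n Q (c.cols n b ++ cs) s s') :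
    (if c.isAdd then s c.u + s c.v = s c.w else s c.u * s c.v = s 0 * s c.w) ∧
      ∃ s1 : ℕ → ℝ, (∀ r, r < b → s1 r = s r) ∧ Run n Q cs s1 s' := by
  unfold Constr.cols at h
  split_ifs at h ⊢ with hadd
  · simp only [List.cons_append, List.nil_append] at h
    obtain ⟨e1, h⟩ := run_pair (by simp <;> omega) (by simp <;> omega) h
    obtain ⟨e2, h⟩ := run_pair (by simp <;> omega) (by simp <;> omega) h
    obtain ⟨e3, h⟩ := run_pair (by simp <;> omega) (by simp <;> omega) h
    simp only [List.map_cons, List.map_nil, List.sum_cons, List.sum_nil, add_zero] at e1 e2 e3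
    exact ⟨by linarith, s, fun _ _ => rfl, h⟩
  · simp only [List.cons_append, List.nil_append] at h
    obtain ⟨e1, h⟩ := run_pair (by simp <;> omega) (by simp <;> omega) h
    obtain ⟨e2, h⟩ := run_pair (by simp <;> omega) (by simp <;> omega) h
    obtain ⟨e3, h⟩ := run_pair (by simp <;> omega) (by simp <;> omega) h
    obtain ⟨e4, h⟩ := run_pair (by simp <;> omega) (by simp <;> omega) h
    obtain ⟨e5, h⟩ := run_pair (by simp <;> omega) (by simp) h
    obtain ⟨e6, h⟩ := run_pair (by simp <;> omega) (by simp <;> omega) h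
    obtain ⟨e7, h⟩ := run_mul (by omega) h
    obtain ⟨e8, h⟩ := run_mul (by omega) h
    simp only [List.map_cons, List.map_nil, List.sum_cons, List.sum_nil, add_zero] at e1 e2 e3 e4 e5 e6
    have f5 : mulState b s (b + 3 + 2) = s (b + 5) := by
      rw [mulState, if_neg (by omega), if_neg (by omega), if_neg (by omega)]
    have f3 : mulState b s (b + 3) = s (b + 3) := by
      rw [mulState, if_neg (by omega), if_neg (by omega), if_neg (by omega)]
    have f4 : mulState b s (b + 3 + 1) = s (b + 4) := by
      rw [mulState, if_neg (by omega), if_neg (by omega), if_neg (by omega)]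
    rw [f5, f3, f4] at e8
    refine ⟨?_, mulState (b + 3) (mulState b s), ?_, h⟩
    · have g1 : s b = - s c.u := by linarith
      have g2 : s (b + 1) = - s c.v := by linarith
      have g3 : s (b + 3) = - s 0 := by linarith
      have g4 : s (b + 4) = - s c.w := by linarith
      have g5 : s (b + 6) = - s (b + 5) := by linarith
      rw [e7, g5, e8, g1, g2, g3, g4] at e6
      linarith
    · intro r hr
      rw [mulState, if_neg (by omega), if_neg (by omega), if_neg (by omega), mulState,
        if_neg (by omega), if_neg (by omega), if_neg (by omega)]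

set_option linter.unusedVariables false in
theorem block_no {n nv : ℕ} {Q : ℝ → Prop} (L : List Constr) (k : ℕ) {s s' : ℕ → ℝ}
    (hnv0 : 0 < nv) (hL : ∀ c ∈ L, c.u < nv ∧ c.v < nv ∧ c.w < nv)
    (hn : nv + 7 * (k + L.length) ≤ n) (h : Run n Q (blockCols n nv L k) s s') :
    ∀ c ∈ L, if c.isAdd then s c.u + s c.v = s c.w else s c.u * s c.v = s 0 * s c.w := by
  induction L generalizing k s with
  | nil => simp
  | cons c L ih =>
    rw [blockCols_cons] at h
    simp only [List.length_cons] at hn
    obtain ⟨hu, hv, hw⟩ := hL c (by simp)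
    obtain ⟨h1, s1, h2, h3⟩ := constr_no (b := nv + 7 * k) (by omega) (by omega) (by omega)
      (by omega) (by omega) h
    have := ih (k + 1) (s := s1) (fun c' hc' => hL c' (by simp [hc'])) (by omega) h3
    intro c' hc'
    rcases List.mem_cons.1 hc' with rfl | hc''
    · exact h1
    · obtain ⟨hu', hv', hw'⟩ := hL c' hc'
      have h4 := this c' hc''
      rw [h2 _ (by omega), h2 _ (by omega), h2 _ (by omega), h2 _ (by omega)] at h4
      exact h4

/-- job A-NO -/
theorem targetColsNo : TargetColsNo := by
  intro L ξ η hsol h11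
  have hrun := run_of_sol (matrix_length L) hsol
  rw [arithMatrix_cols] at hrun
  have hn : numVars L + 7 * (0 + L.length) ≤ (arithMatrix L).n := by
    simp [arithMatrix]
  have hpos := numVars_pos L
  have h := block_no L 0 hpos (fun c hc => lt_numVars hc) hn hrun
  have h0 : (0 : ℕ) < (arithMatrix L).n := by omega
  have key : ∀ r, r < numVars L →
      (if r < (arithMatrix L).n then ξ (r + 1) 1 else 0) = ξ (r + 1) 1 := by
    intro r hr
    rw [if_pos (by omega)]
  refine ⟨fun r => ξ (r + 1) 1 / ξ 1 1, by simp [h11], ?_⟩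
  intro c hc
  obtain ⟨hu, hv, hw⟩ := lt_numVars hc
  have h1 := h c hc
  rw [key _ hu, key _ hv, key _ hw, key 0 hpos] at h1
  unfold Constr.Holds
  split_ifs at h1 ⊢ with hadd
  · simp only
    rw [← h1]; ring
  · simp only [zero_add] at h1 ⊢
    field_simp
    linarith

/-! ## The direction from assignments to solutions -/

/-- initial values of the private rows of a constraint -/
noncomputable def priv (e : ℝ) (x : ℕ → ℝ) (c : Constr) (t : ℕ) : ℝ :=
  if t = 0 then -(e * x c.u)
  else if t = 1 then -(e * x c.v)
  else if t = 2 then e * x c.u * (1 - e * x c.v)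
  else if t = 3 then -e
  else if t = 4 then -(e * x c.w)
  else if t = 5 then e * (1 - e * x c.w)
  else -(e * (1 - e * x c.w))

theorem abs_mul_le_of {a b α β : ℝ} (ha : |a| ≤ α) (hb : |b| ≤ β) : |a * b| ≤ α * β := by
  rw [abs_mul]
  exact mul_le_mul ha hb (abs_nonneg _) (le_trans (abs_nonneg _) ha)

theorem priv_bound {e δ : ℝ} {x : ℕ → ℝ} {c : Constr} (hδ1 : δ ≤ 1)
    (he : |e| ≤ δ) (hu : |e * x c.u| ≤ δ) (hv : |e * x c.v| ≤ δ) (hw : |e * x c.w| ≤ δ) (t : ℕ) :
    |priv e x c t| ≤ 2 * δ := by
  have hδ : 0 ≤ δ := le_trans (abs_nonneg _) he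
  have a1 : |1 - e * x c.v| ≤ 2 := by
    have := abs_le.1 hv
    rw [abs_le]; constructor <;> linarith
  have a2 : |1 - e * x c.w| ≤ 2 := by
    have := abs_le.1 hw
    rw [abs_le]; constructor <;> linarith
  unfold priv
  split_ifs
  · rw [abs_neg]; linarith
  · rw [abs_neg]; linarith
  · have := abs_mul_le_of hu a1
    linarith
  · rw [abs_neg]; linarith
  · rw [abs_neg]; linarith
  · have := abs_mul_le_of he a2
    linarith
  · rw [abs_neg]
    have := abs_mul_le_of he a2
    linarith

theorem constr_yes {n b : ℕ} {ε δ e : ℝ} {cs : List (List Ty)} {s x : ℕ → ℝ} {c : Constr}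
    (hb0 : 0 < b) (hu : c.u < b) (hv : c.v < b) (hw : c.w < b) (hn : b + 7 ≤ n)
    (hδ1 : δ ≤ 1) (hδ : 16 * δ ≤ ε) (x0 : x 0 = 1)
    (he : |e| ≤ δ) (bu : |e * x c.u| ≤ δ) (bv : |e * x c.v| ≤ δ) (bw : |e * x c.w| ≤ δ)
    (hholds : c.Holds x)
    (s0 : s 0 = e * x 0) (su : s c.u = e * x c.u) (sv : s c.v = e * x c.v)
    (sw : s c.w = e * x c.w)
    (sp : ∀ t, t < 7 → s (b + t) = priv e x c t) (hq : ∀ r, |s r| ≤ ε)
    (hcont : ∀ s1 : ℕ → ℝ, (∀ r, r < b ∨ b + 7 ≤ r → s1 r = s r) → (∀ r, |s1 r| ≤ ε) →
      ∃ s', Run n (fun x => |x| ≤ ε) cs s1 s') :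
    ∃ s', Run n (fun x => |x| ≤ ε) (c.cols n b ++ cs) s s' := by
  have hδ0 : 0 ≤ δ := le_trans (abs_nonneg _) he
  have p0 : s b = -(e * x c.u) := by simpa [priv] using sp 0 (by norm_num)
  have p1 : s (b + 1) = -(e * x c.v) := by simpa [priv] using sp 1 (by norm_num)
  have p2 : s (b + 2) = e * x c.u * (1 - e * x c.v) := by simpa [priv] using sp 2 (by norm_num)
  have p3 : s (b + 3) = -e := by simpa [priv] using sp 3 (by norm_num)
  have p4 : s (b + 4) = -(e * x c.w) := by simpa [priv] using sp 4 (by norm_num)
  have p5 : s (b + 5) = e * (1 - e * x c.w) := by simpa [priv] using sp 5 (by norm_num)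
  have p6 : s (b + 6) = -(e * (1 - e * x c.w)) := by simpa [priv] using sp 6 (by norm_num)
  have q0 : |s 0| ≤ δ := by rw [s0, x0, mul_one]; exact he
  have qu : |s c.u| ≤ δ := by rw [su]; exact bu
  have qv : |s c.v| ≤ δ := by rw [sv]; exact bv
  have qw : |s c.w| ≤ δ := by rw [sw]; exact bw
  have b0 : |s b| ≤ δ := by rw [p0, abs_neg]; exact bu
  have b1 : |s (b + 1)| ≤ δ := by rw [p1, abs_neg]; exact bv
  have b2 : |s (b + 2)| ≤ 2 * δ := by
    rw [sp 2 (by norm_num)]; exact priv_bound hδ1 he bu bv bw 2
  have b3 : |s (b + 3)| ≤ δ := by rw [p3, abs_neg]; exact he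
  have b4 : |s (b + 4)| ≤ δ := by rw [p4, abs_neg]; exact bw
  have b5 : |s (b + 5)| ≤ 2 * δ := by
    rw [sp 5 (by norm_num)]; exact priv_bound hδ1 he bu bv bw 5
  have b6 : |s (b + 6)| ≤ 2 * δ := by
    rw [sp 6 (by norm_num)]; exact priv_bound hδ1 he bu bv bw 6
  unfold Constr.Holds at hholds
  unfold Constr.cols
  split_ifs at hholds ⊢ with hadd
  · obtain ⟨s', hs'⟩ := hcont s (fun _ _ => rfl) hq
    refine ⟨s', ?_⟩
    simp only [List.cons_append, List.nil_append]
    apply run_pair_intro (by simp <;> omega) (by simp <;> omega)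
    · simp only [List.map_cons, List.map_nil, List.sum_cons, List.sum_nil, add_zero]
      rw [p0, su]; ring
    · simp only [List.map_cons, List.map_nil, List.sum_cons, List.sum_nil, add_zero]
      linarith
    apply run_pair_intro (by simp <;> omega) (by simp <;> omega)
    · simp only [List.map_cons, List.map_nil, List.sum_cons, List.sum_nil, add_zero]
      rw [p1, sv]; ring
    · simp only [List.map_cons, List.map_nil, List.sum_cons, List.sum_nil, add_zero]
      linarith
    apply run_pair_intro (by simp <;> omega) (by simp <;> omega)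
    · simp only [List.map_cons, List.map_nil, List.sum_cons, List.sum_nil, add_zero]
      rw [p0, p1, sw, ← hholds]; ring
    · simp only [List.map_cons, List.map_nil, List.sum_cons, List.sum_nil, add_zero]
      linarith
    exact hs'
  · -- bounds for the two multiplication columns
    have g1 : |mulState b s (b + 1)| ≤ ε := by
      rw [mulState, if_neg (by omega), if_pos rfl]
      have t1 : |1 - 2 * s b| ≤ 3 := by
        have := abs_le.1 b0
        rw [abs_le]; constructor <;> linarith
      have := abs_mul_le_of b1 t1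
      linarith
    have hq1 : ∀ r, |mulState b s r| ≤ ε := by
      intro r
      by_cases h1 : r = b + 1
      · rw [h1]; exact g1
      · rw [mulState, if_neg h1]
        split_ifs
        · rw [abs_neg]; exact hq _
        · rw [abs_neg]; exact hq _
        · exact hq _
    have f3 : mulState b s (b + 3) = s (b + 3) := by
      rw [mulState, if_neg (by omega), if_neg (by omega), if_neg (by omega)]
    have f4 : mulState b s (b + 3 + 1) = s (b + 4) := by
      rw [mulState, if_neg (by omega), if_neg (by omega), if_neg (by omega)]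
    have f5 : mulState b s (b + 3 + 2) = s (b + 5) := by
      rw [mulState, if_neg (by omega), if_neg (by omega), if_neg (by omega)]
    have g2 : |mulState (b + 3) (mulState b s) (b + 3 + 1)| ≤ ε := by
      rw [mulState, if_neg (by omega), if_pos rfl, f3, f4]
      have t1 : |1 - 2 * s (b + 3)| ≤ 3 := by
        have := abs_le.1 b3
        rw [abs_le]; constructor <;> linarith
      have := abs_mul_le_of b4 t1
      linarith
    have hq2 : ∀ r, |mulState (b + 3) (mulState b s) r| ≤ ε := by
      intro r
      by_cases h1 : r = b + 3 + 1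
      · rw [h1]; exact g2
      · rw [mulState, if_neg h1]
        split_ifs
        · rw [abs_neg]; exact hq1 _
        · rw [abs_neg]; exact hq1 _
        · exact hq1 _
    obtain ⟨s', hs'⟩ := hcont (mulState (b + 3) (mulState b s)) (by
      intro r hr
      rw [mulState, if_neg (by omega), if_neg (by omega), if_neg (by omega), mulState,
        if_neg (by omega), if_neg (by omega), if_neg (by omega)]) hq2
    refine ⟨s', ?_⟩
    simp only [List.cons_append, List.nil_append]
    apply run_pair_intro (by simp <;> omega) (by simp <;> omega)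
    · simp only [List.map_cons, List.map_nil, List.sum_cons, List.sum_nil, add_zero]
      rw [p0, su]; ring
    · simp only [List.map_cons, List.map_nil, List.sum_cons, List.sum_nil, add_zero]
      linarith
    apply run_pair_intro (by simp <;> omega) (by simp <;> omega)
    · simp only [List.map_cons, List.map_nil, List.sum_cons, List.sum_nil, add_zero]
      rw [p1, sv]; ring
    · simp only [List.map_cons, List.map_nil, List.sum_cons, List.sum_nil, add_zero]
      linarith
    apply run_pair_intro (by simp <;> omega) (by simp <;> omega)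
    · simp only [List.map_cons, List.map_nil, List.sum_cons, List.sum_nil, add_zero]
      rw [p3, s0, x0]; ring
    · simp only [List.map_cons, List.map_nil, List.sum_cons, List.sum_nil, add_zero]
      linarith
    apply run_pair_intro (by simp <;> omega) (by simp <;> omega)
    · simp only [List.map_cons, List.map_nil, List.sum_cons, List.sum_nil, add_zero]
      rw [p4, sw]; ring
    · simp only [List.map_cons, List.map_nil, List.sum_cons, List.sum_nil, add_zero]
      linarith
    apply run_pair_intro (by simp <;> omega) (by simp)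
    · simp only [List.map_cons, List.map_nil, List.sum_cons, List.sum_nil, add_zero]
      rw [p5, p6]; ring
    · simp only [List.map_cons, List.map_nil, List.sum_cons, List.sum_nil, add_zero]
      linarith
    apply run_pair_intro (by simp <;> omega) (by simp <;> omega)
    · simp only [List.map_cons, List.map_nil, List.sum_cons, List.sum_nil, add_zero]
      rw [p2, p0, p6, s0, x0, ← hholds]; ring
    · simp only [List.map_cons, List.map_nil, List.sum_cons, List.sum_nil, add_zero]
      linarith
    apply run_mul_intro (by omega) (by linarith)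
    · rw [p0, p1, p2]; ring
    · exact hq
    · rw [abs_mul, abs_two]; linarith
    · have t1 : |1 + s (b + 1)| ≤ 2 := by
        have := abs_le.1 b1
        rw [abs_le]; constructor <;> linarith
      have := abs_mul_le_of b0 t1
      rw [mul_assoc, abs_mul, abs_two]; linarith
    apply run_mul_intro (by omega) (by linarith)
    · rw [f5, f3, f4, p3, p4, p5]; ring
    · exact hq1
    · rw [f3, abs_mul, abs_two]; linarith
    · have t1 : |1 + s (b + 4)| ≤ 2 := by
        have := abs_le.1 b4
        rw [abs_le]; constructor <;> linarith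
      have := abs_mul_le_of b3 t1
      rw [f3, f4, mul_assoc, abs_mul, abs_two]; linarith
    exact hs'

theorem block_yes {n nv : ℕ} {ε δ e : ℝ} {x : ℕ → ℝ} (L : List Constr) (k : ℕ)
    (hnv : 0 < nv) (hL : ∀ c ∈ L, c.u < nv ∧ c.v < nv ∧ c.w < nv)
    (hn : nv + 7 * (k + L.length) ≤ n)
    (hδ1 : δ ≤ 1) (hδ : 16 * δ ≤ ε) (x0 : x 0 = 1)
    (hb : ∀ r, r < nv → |e * x r| ≤ δ) (hholds : ∀ c ∈ L, c.Holds x) :
    ∃ p : ℕ → ℝ, (∀ r, |p r| ≤ ε) ∧ ∀ s : ℕ → ℝ, (∀ r, r < nv → s r = e * x r) →
      (∀ r, nv + 7 * k ≤ r → s r = p r) → (∀ r, |s r| ≤ ε) →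
      ∃ s', Run n (fun x => |x| ≤ ε) (blockCols n nv L k) s s' := by
  induction L generalizing k with
  | nil =>
    have h0 : |e * x 0| ≤ δ := hb 0 hnv
    have : 0 ≤ δ := le_trans (abs_nonneg _) h0
    refine ⟨fun _ => 0, fun r => by simp; linarith, fun s _ _ hs => ⟨s, ?_⟩⟩
    exact ⟨hs, rfl⟩
  | cons c L ih =>
    simp only [List.length_cons] at hn
    obtain ⟨p, hp, hrun⟩ := ih (k + 1) (fun c' hc' => hL c' (by simp [hc'])) (by omega)
      (fun c' hc' => hholds c' (by simp [hc']))
    obtain ⟨hu, hv, hw⟩ := hL c (by simp)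
    have h0 : |e * x 0| ≤ δ := hb 0 hnv
    have he : |e| ≤ δ := by rwa [x0, mul_one] at h0
    have hδ0 : 0 ≤ δ := le_trans (abs_nonneg _) he
    refine ⟨fun r => if r < nv + 7 * (k + 1) then priv e x c (r - (nv + 7 * k)) else p r, ?_, ?_⟩
    · intro r
      simp only
      split_ifs
      · have := priv_bound hδ1 he (hb _ hu) (hb _ hv) (hb _ hw) (r - (nv + 7 * k))
        linarith
      · exact hp r
    · intro s hs1 hs2 hs3
      rw [blockCols_cons]
      apply constr_yes (δ := δ) (e := e) (x := x) (by omega) (by omega) (by omega) (by omega)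
        (by omega) hδ1 hδ x0 he (hb _ hu) (hb _ hv) (hb _ hw) (hholds c (by simp))
        (hs1 0 hnv) (hs1 _ hu) (hs1 _ hv) (hs1 _ hw) ?_ hs3
      · intro s1 h1 h2
        apply hrun s1
        · intro r hr
          rw [h1 r (by left; omega), hs1 r hr]
        · intro r hr
          rw [h1 r (by right; omega), hs2 r (by omega)]
          simp only
          rw [if_neg (by omega)]
        · exact h2
      · intro t ht
        rw [hs2 _ (by omega)]
        simp only
        rw [if_pos (by omega)]
        congr 1
        omega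

/-- job A-YES -/
theorem targetColsYes : TargetColsYes := by
  intro L ⟨x, x0, hx⟩ ε hε
  set nv := numVars L with hnv
  have hpos : 0 < nv := numVars_pos L
  set M : ℝ := 1 + ∑ r ∈ Finset.range nv, |x r| with hM
  have hM1 : 1 ≤ M := by
    have : 0 ≤ ∑ r ∈ Finset.range nv, |x r| := Finset.sum_nonneg fun _ _ => abs_nonneg _
    linarith
  have hxM : ∀ r, r < nv → |x r| ≤ M := by
    intro r hr
    have := Finset.single_le_sum (f := fun r => |x r|) (fun _ _ => abs_nonneg _)
      (Finset.mem_range.2 hr)
    linarith
  set δ : ℝ := min ε 1 / 16 with hδ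
  have hδ0 : 0 < δ := by
    have : 0 < min ε 1 := lt_min hε one_pos
    rw [hδ]; linarith
  have hδ1 : δ ≤ 1 := by
    have : min ε 1 ≤ 1 := min_le_right _ _
    rw [hδ]; linarith
  have hδε : 16 * δ ≤ ε := by
    have : min ε 1 ≤ ε := min_le_left _ _
    rw [hδ]; linarith
  set e : ℝ := δ / M with he
  have hMpos : 0 < M := by linarith
  have he0 : 0 < e := div_pos hδ0 hMpos
  have hb : ∀ r, r < nv → |e * x r| ≤ δ := by
    intro r hr
    rw [abs_mul, abs_of_pos he0]
    have := mul_le_mul_of_nonneg_left (hxM r hr) he0.le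
    rwa [he, div_mul_cancel₀ _ hMpos.ne'] at this
  have hn : nv + 7 * (0 + L.length) ≤ (arithMatrix L).n := by
    simp [arithMatrix, hnv]
  obtain ⟨p, hp, hrun⟩ := block_yes (n := (arithMatrix L).n) L 0 hpos
    (fun c hc => lt_numVars hc) hn hδ1 hδε x0 hb hx
  obtain ⟨s', hs'⟩ := hrun (fun r => if r < nv then e * x r else p r)
    (fun r hr => by rw [if_pos hr])
    (fun r hr => by rw [if_neg (by omega)])
    (fun r => by
      split_ifs with h
      · have := hb r h; linarith
      · exact hp r)
  rw [← arithMatrix_cols] at hs'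
  obtain ⟨ξ, η, h1, h2, h3, h4⟩ := sol_of_run hε.le hs' (by omega)
  refine ⟨ξ, η, h1, h2, h3, ?_⟩
  rw [h4, if_pos hpos, x0, mul_one]
  exact he0

end Pool.Agent.PAH
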