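import Pool.Agent.PAH.Targets

set_option autoImplicit false

/-!
# Y-COVER: positive triangles whose boundary chain is a triangle tile it
-/

namespace Pool.Agent.PAH

open Filter Topology

namespace Cover

/-! ## determinants -/

theorem det3_cyc (a b c : Plane) : det3 b c a = det3 a b c := by unfold det3; ring

theorem det3_swap (a b c : Plane) : det3 b a c = - det3 a b c := by unfold det3; ring

theorem det3_sum (a b c P : Plane) :
    det3 a b P + det3 b c P + det3 c a P = det3 a b c := by unfold det3; ring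

theorem det3_self (a c : Plane) : det3 a a c = 0 := by unfold det3; ring

theorem ne_of_pos {a b c : Plane} (h : 0 < det3 a b c) : a ≠ b ∧ b ≠ c ∧ c ≠ a := by
  refine ⟨?_, ?_, ?_⟩
  · rintro rfl; simp [det3] at h
  · rintro rfl
    have : det3 a b b = 0 := by unfold det3; ring
    linarith
  · rintro rfl
    have : det3 c b c = 0 := by unfold det3; ring
    linarith

theorem cont_det3 (a b : Plane) : Continuous fun P : Plane => det3 a b P := by
  unfold det3; fun_prop

theorem isOpen_openTri (a b c : Plane) : IsOpen (openTri a b c) := by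
  unfold openTri
  exact (isOpen_lt continuous_const (cont_det3 a b)).inter
    ((isOpen_lt continuous_const (cont_det3 b c)).inter
      (isOpen_lt continuous_const (cont_det3 c a)))

/-! ## crossing numbers -/

theorem rc_antisymm (a b : Plane) (x y : ℝ) : rc a b x y = - rc b a x y := by
  unfold rc
  by_cases h1 : a.1 < x ∧ x < b.1 ∧ 0 < det3 a b (x, y)
  · have h2 : ¬ (b.1 < x ∧ x < a.1 ∧ 0 < det3 b a (x, y)) := by
      rintro ⟨h, _, _⟩; exact absurd h (not_lt.2 h1.2.1.le)
    simp only [h1, h2, if_true, if_false, and_self, neg_neg]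
  · by_cases h2 : b.1 < x ∧ x < a.1 ∧ 0 < det3 b a (x, y)
    · simp only [h1, h2, if_true, if_false, and_self]
    · simp only [h1, h2, if_false, neg_zero]

/-- the sign version of `rc` -/
noncomputable def sg (A B α : ℝ) : ℝ :=
  if A < 0 ∧ 0 < B ∧ 0 < α then 1 else if B < 0 ∧ 0 < A ∧ α < 0 then -1 else 0

theorem rc_eq_sg (a b : Plane) (x y : ℝ) :
    rc a b x y = sg (a.1 - x) (b.1 - x) (det3 a b (x, y)) := by
  unfold rc sg
  simp only [sub_neg, sub_pos, det3_swap a b, Left.neg_pos_iff]

theorem sg_sum (A B C α β γ : ℝ) (hA : A ≠ 0) (hB : B ≠ 0) (hC : C ≠ 0)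
    (hα : α ≠ 0) (hβ : β ≠ 0) (hγ : γ ≠ 0) (hs : 0 < α + β + γ)
    (hr : β * A + γ * B + α * C = 0) :
    sg A B α + sg B C β + sg C A γ = if 0 < α ∧ 0 < β ∧ 0 < γ then 1 else 0 := by
  unfold sg
  rcases lt_or_gt_of_ne hA with hA | hA <;> rcases lt_or_gt_of_ne hB with hB | hB <;>
  rcases lt_or_gt_of_ne hC with hC | hC <;> rcases lt_or_gt_of_ne hα with hα | hα <;>
  rcases lt_or_gt_of_ne hβ with hβ | hβ <;> rcases lt_or_gt_of_ne hγ with hγ | hγ <;>
  simp only [hA, hB, hC, hα, hβ, hγ, not_lt_of_gt, and_true, and_false,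
    if_true, if_false, add_zero, zero_add] <;> norm_num <;> nlinarith

open Classical in
theorem rc_sum_tri {a b c : Plane} (h : 0 < det3 a b c) (x y : ℝ)
    (ha : a.1 ≠ x) (hb : b.1 ≠ x) (hc : c.1 ≠ x) (h1 : det3 a b (x, y) ≠ 0)
    (h2 : det3 b c (x, y) ≠ 0) (h3 : det3 c a (x, y) ≠ 0) :
    rc a b x y + rc b c x y + rc c a x y = if (x, y) ∈ openTri a b c then 1 else 0 := by
  rw [rc_eq_sg, rc_eq_sg, rc_eq_sg, sg_sum _ _ _ _ _ _ (sub_ne_zero.2 ha) (sub_ne_zero.2 hb)
    (sub_ne_zero.2 hc) h1 h2 h3 (by rw [det3_sum]; exact h) (by unfold det3; ring)]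
  exact if_congr Iff.rfl rfl rfl

/-! ## genericity -/

theorem nsq_pos {a b : Plane} (h : a ≠ b) : 0 < (b.1 - a.1) ^ 2 + (b.2 - a.2) ^ 2 := by
  by_contra hn
  push Not at hn
  have h1 : (b.1 - a.1) ^ 2 = 0 := le_antisymm (by nlinarith [sq_nonneg (b.2 - a.2)]) (sq_nonneg _)
  have h2 : (b.2 - a.2) ^ 2 = 0 := le_antisymm (by nlinarith [sq_nonneg (b.1 - a.1)]) (sq_nonneg _)
  apply h
  ext
  · have := pow_eq_zero_iff (two_ne_zero) |>.1 h1; linarith
  · have := pow_eq_zero_iff (two_ne_zero) |>.1 h2; linarith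

/-- moving a point in the normal direction of `a b` -/
def shift (a b P : Plane) (e : ℝ) : Plane := (P.1 - e * (b.2 - a.2), P.2 + e * (b.1 - a.1))

theorem det3_shift (a b P : Plane) (e : ℝ) :
    det3 a b (shift a b P e) = det3 a b P + e * ((b.1 - a.1) ^ 2 + (b.2 - a.2) ^ 2) := by
  unfold det3 shift; ring

theorem shift_zero (a b P : Plane) : shift a b P 0 = P := by
  unfold shift; simp

theorem cont_shift (a b P : Plane) : Continuous (shift a b P) := by
  unfold shift; fun_prop

theorem tendsto_shift (a b P : Plane) : Tendsto (shift a b P) (𝓝 0) (𝓝 P) := by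
  have := (cont_shift a b P).tendsto 0
  rwa [shift_zero] at this

theorem dense_line {a b : Plane} (h : a ≠ b) : Dense {P : Plane | det3 a b P ≠ 0} := by
  intro P
  by_cases hP : det3 a b P = 0
  · have ht : Tendsto (shift a b P) (𝓝[>] 0) (𝓝 P) :=
      (tendsto_shift a b P).mono_left nhdsWithin_le_nhds
    refine mem_closure_of_tendsto ht ?_
    filter_upwards [self_mem_nhdsWithin] with e he
    have he' : (0 : ℝ) < e := he
    show det3 a b (shift a b P e) ≠ 0
    rw [det3_shift, hP, zero_add]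
    exact (mul_pos he' (nsq_pos h)).ne'
  · exact subset_closure hP

theorem isOpen_line (a b : Plane) : IsOpen {P : Plane | det3 a b P ≠ 0} :=
  isOpen_ne_fun (cont_det3 a b) continuous_const

theorem vert_eq (a : Plane) : {P : Plane | a.1 ≠ P.1} = {P : Plane | det3 a (a.1, a.2 + 1) P ≠ 0} := by
  ext P
  simp only [Set.mem_ofPred_eq, det3, sub_self, zero_mul, add_sub_cancel_left, one_mul, zero_sub,
    ne_eq, neg_eq_zero, sub_eq_zero]
  exact not_congr eq_comm

theorem isOpen_vert (a : Plane) : IsOpen {P : Plane | a.1 ≠ P.1} := by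
  rw [vert_eq]; exact isOpen_line _ _

theorem dense_vert (a : Plane) : Dense {P : Plane | a.1 ≠ P.1} := by
  rw [vert_eq]; refine dense_line ?_
  intro h
  have := congrArg Prod.snd h
  simp at this

/-- points in general position with respect to a triangle -/
def Gen (a b c : Plane) : Set Plane :=
  {P : Plane | a.1 ≠ P.1} ∩ ({P : Plane | b.1 ≠ P.1} ∩ ({P : Plane | c.1 ≠ P.1} ∩
    ({P : Plane | det3 a b P ≠ 0} ∩ ({P : Plane | det3 b c P ≠ 0} ∩
      {P : Plane | det3 c a P ≠ 0}))))

theorem gen_isOpen (a b c : Plane) : IsOpen (Gen a b c) :=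
  (isOpen_vert a).inter ((isOpen_vert b).inter ((isOpen_vert c).inter
    ((isOpen_line a b).inter ((isOpen_line b c).inter (isOpen_line c a)))))

theorem gen_dense {a b c : Plane} (h : 0 < det3 a b c) : Dense (Gen a b c) := by
  obtain ⟨h1, h2, h3⟩ := ne_of_pos h
  exact (dense_vert a).inter_of_isOpen_left ((dense_vert b).inter_of_isOpen_left
    ((dense_vert c).inter_of_isOpen_left ((dense_line h1).inter_of_isOpen_left
      ((dense_line h2).inter_of_isOpen_left (dense_line h3) (isOpen_line b c))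
      (isOpen_line a b)) (isOpen_vert c)) (isOpen_vert b)) (isOpen_vert a)

open Classical in
theorem rc_sum_gen {a b c : Plane} (h : 0 < det3 a b c) {P : Plane} (hP : P ∈ Gen a b c) :
    rc a b P.1 P.2 + rc b c P.1 P.2 + rc c a P.1 P.2 = if P ∈ openTri a b c then 1 else 0 := by
  obtain ⟨h1, h2, h3, h4, h5, h6⟩ := hP
  exact rc_sum_tri h P.1 P.2 h1 h2 h3 h4 h5 h6

variable {V : Type}

/-- generic points with respect to a list of triangles -/
def GenL (p : V → Plane) (T : List (V × V × V)) : Set Plane :=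
  {P | ∀ t ∈ T, P ∈ Gen (p t.1) (p t.2.1) (p t.2.2)}

theorem genL_cons (p : V → Plane) (t : V × V × V) (T : List (V × V × V)) :
    GenL p (t :: T) = Gen (p t.1) (p t.2.1) (p t.2.2) ∩ GenL p T := by
  ext P
  simp [GenL]

theorem genL_isOpen (p : V → Plane) (T : List (V × V × V)) : IsOpen (GenL p T) := by
  induction T with
  | nil => simp [GenL]
  | cons t T ih => rw [genL_cons]; exact (gen_isOpen _ _ _).inter ih

theorem genL_dense (p : V → Plane) (T : List (V × V × V))
    (h : ∀ t ∈ T, 0 < det3 (p t.1) (p t.2.1) (p t.2.2)) : Dense (GenL p T) := by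
  induction T with
  | nil => simp [GenL]
  | cons t T ih =>
    rw [genL_cons]
    exact (gen_dense (h t (by simp))).inter_of_isOpen_left
      (ih fun s hs => h s (by simp [hs])) (gen_isOpen _ _ _)

/-! ## lists -/

theorem pairwise_of_sum_le {α : Type} (f : α → ℝ) (hf : ∀ x, 0 ≤ f x) (L : List α)
    (h : (L.map f).sum ≤ 1) : L.Pairwise fun s t => ¬ (f s = 1 ∧ f t = 1) := by
  induction L with
  | nil => exact List.Pairwise.nil
  | cons s L ih =>
    rw [List.map_cons, List.sum_cons] at h
    have hL : 0 ≤ (L.map f).sum := by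
      apply List.sum_nonneg
      intro x hx
      obtain ⟨t, _, rfl⟩ := List.mem_map.1 hx
      exact hf t
    refine List.Pairwise.cons ?_ (ih (by linarith [hf s]))
    rintro t ht ⟨h1, h2⟩
    have h3 : f t ≤ (L.map f).sum := by
      apply List.single_le_sum
      · intro x hx
        obtain ⟨t, _, rfl⟩ := List.mem_map.1 hx
        exact hf t
      · exact List.mem_map_of_mem ht
    linarith

/-! ## the main argument -/

section main

variable {p : V → Plane} {T : List (V × V × V)} {a b c : V}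

theorem outer_pos' (h : TriHyp p T a b c) : 0 < det3 (p a) (p b) (p c) := by
  have h1 := h.chain (fun u v => (p u).1 * (p v).2 - (p u).2 * (p v).1) (fun u v => by ring)
  have h2 : det3 (p a) (p b) (p c) = ((p a).1 * (p b).2 - (p a).2 * (p b).1) +
      ((p b).1 * (p c).2 - (p b).2 * (p c).1) + ((p c).1 * (p a).2 - (p c).2 * (p a).1) := by
    unfold det3; ring
  rw [h2, ← h1]
  apply List.sum_pos
  · intro x hx
    obtain ⟨t, ht, rfl⟩ := List.mem_map.1 hx
    have := h.pos t ht
    unfold det3 at this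
    linarith
  · simpa using h.ne

open Classical in
theorem count_gen (h : TriHyp p T a b c) {P : Plane} (hP : P ∈ GenL p ((a, b, c) :: T)) :
    (T.map fun t => if P ∈ tOpen p t then (1 : ℝ) else 0).sum =
      if P ∈ openTri (p a) (p b) (p c) then 1 else 0 := by
  have h1 := h.chain (fun u v => rc (p u) (p v) P.1 P.2) (fun u v => rc_antisymm _ _ _ _)
  rw [rc_sum_gen (outer_pos' h) (hP (a, b, c) (by simp))] at h1
  rw [← h1]
  congr 1
  apply List.map_congr_left
  intro t ht
  rw [rc_sum_gen (h.pos t ht) (hP t (by simp [ht]))]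
  rfl

theorem all_pos (h : TriHyp p T a b c) : ∀ t ∈ (a, b, c) :: T,
    0 < det3 (p t.1) (p t.2.1) (p t.2.2) := by
  intro t ht
  rcases List.mem_cons.1 ht with rfl | ht
  · exact outer_pos' h
  · exact h.pos t ht

theorem exists_gen (h : TriHyp p T a b c) {U : Set Plane} (hU : IsOpen U) (hn : U.Nonempty) :
    ∃ P ∈ U, P ∈ GenL p ((a, b, c) :: T) := by
  obtain ⟨P, h1, h2⟩ := (genL_dense p _ (all_pos h)).inter_open_nonempty U hU hn
  exact ⟨P, h1, h2⟩

theorem disj' (h : TriHyp p T a b c) :
    T.Pairwise fun s t => Disjoint (tOpen p s) (tOpen p t) := by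
  classical
  rw [List.pairwise_iff_getElem]
  intro i j hi hj hij
  by_contra hd
  rw [Set.not_disjoint_iff_nonempty_inter] at hd
  obtain ⟨P, hP, hG⟩ := exists_gen h ((isOpen_openTri _ _ _).inter (isOpen_openTri _ _ _)) hd
  have h1 := count_gen h hG
  have h2 : (T.map fun t => if P ∈ tOpen p t then (1 : ℝ) else 0).sum ≤ 1 := by
    rw [h1]; split_ifs <;> norm_num
  have h3 := pairwise_of_sum_le (fun t => if P ∈ tOpen p t then (1 : ℝ) else 0)
    (fun t => by split_ifs <;> norm_num) T h2
  rw [List.pairwise_iff_getElem] at h3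
  refine h3 i j hi hj hij ⟨?_, ?_⟩
  · exact if_pos hP.1
  · exact if_pos hP.2

theorem gen_sub (h : TriHyp p T a b c) {t : V × V × V} (ht : t ∈ T) {P : Plane}
    (hP : P ∈ tOpen p t) (hG : P ∈ GenL p ((a, b, c) :: T)) :
    P ∈ openTri (p a) (p b) (p c) := by
  classical
  by_contra hn
  have h1 := count_gen h hG
  rw [if_neg hn] at h1
  have h2 : (if P ∈ tOpen p t then (1 : ℝ) else 0) ≤
      (T.map fun t => if P ∈ tOpen p t then (1 : ℝ) else 0).sum := by
    apply List.single_le_sum
    · intro x hx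
      obtain ⟨s, _, rfl⟩ := List.mem_map.1 hx
      split_ifs <;> norm_num
    · exact List.mem_map_of_mem (f := fun t => if P ∈ tOpen p t then (1 : ℝ) else 0) ht
  rw [h1, if_pos hP] at h2
  norm_num at h2

/-- positivity on a dense part of an open set extends to the whole open set -/
theorem pos_of_dense {u v : Plane} (huv : u ≠ v) {U G : Set Plane} (hU : IsOpen U)
    (hG : Dense G) (h : ∀ P ∈ U, P ∈ G → 0 < det3 u v P) : ∀ Q ∈ U, 0 < det3 u v Q := by
  have h1 : ∀ Q ∈ U, 0 ≤ det3 u v Q := by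
    intro Q hQ
    by_contra hn
    push Not at hn
    have hU' : IsOpen (U ∩ {P | det3 u v P < 0}) :=
      hU.inter (isOpen_lt (cont_det3 u v) continuous_const)
    obtain ⟨P, ⟨h2, h3⟩, h4⟩ := hG.inter_open_nonempty _ hU' ⟨Q, hQ, hn⟩
    have := h P h2 h4
    have h3' : det3 u v P < 0 := h3
    linarith
  intro Q hQ
  have h2 : ∀ᶠ e in 𝓝[<] (0 : ℝ), shift u v Q e ∈ U :=
    ((tendsto_shift u v Q).mono_left nhdsWithin_le_nhds).eventually (hU.mem_nhds hQ)
  obtain ⟨e, he, he0⟩ := (h2.and self_mem_nhdsWithin).exists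
  have he0' : e < 0 := he0
  have h3 := h1 _ he
  rw [det3_shift] at h3
  nlinarith [mul_neg_of_neg_of_pos he0' (nsq_pos huv)]

theorem sub' (h : TriHyp p T a b c) :
    ∀ t ∈ T, tOpen p t ⊆ openTri (p a) (p b) (p c) := by
  intro t ht Q hQ
  obtain ⟨h1, h2, h3⟩ := ne_of_pos (outer_pos' h)
  have hd := genL_dense p _ (all_pos h)
  have hU : IsOpen (tOpen p t) := isOpen_openTri _ _ _
  exact ⟨pos_of_dense h1 hU hd (fun P hP hG => (gen_sub h ht hP hG).1) Q hQ,
    pos_of_dense h2 hU hd (fun P hP hG => (gen_sub h ht hP hG).2.1) Q hQ,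
    pos_of_dense h3 hU hd (fun P hP hG => (gen_sub h ht hP hG).2.2) Q hQ⟩

/-- points to the left of the middle of a side -/
theorem near_side {u v w : Plane} (h : 0 < det3 u v w) :
    ∀ᶠ e in 𝓝[>] (0 : ℝ), shift u v ((u.1 + v.1) / 2, (u.2 + v.2) / 2) e ∈ openTri u v w := by
  set m : Plane := ((u.1 + v.1) / 2, (u.2 + v.2) / 2) with hm
  have h1 : det3 u v m = 0 := by rw [hm]; unfold det3; ring
  have h2 : det3 v w m = det3 u v w / 2 := by rw [hm]; unfold det3; ring
  have h3 : det3 w u m = det3 u v w / 2 := by rw [hm]; unfold det3; ring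
  have ht : Tendsto (shift u v m) (𝓝[>] 0) (𝓝 m) :=
    (tendsto_shift u v m).mono_left nhdsWithin_le_nhds
  have e2 : ∀ᶠ e in 𝓝[>] (0 : ℝ), 0 < det3 v w (shift u v m e) := by
    refine (((cont_det3 v w).tendsto m).comp ht).eventually (lt_mem_nhds ?_)
    rw [h2]; linarith
  have e3 : ∀ᶠ e in 𝓝[>] (0 : ℝ), 0 < det3 w u (shift u v m e) := by
    refine (((cont_det3 w u).tendsto m).comp ht).eventually (lt_mem_nhds ?_)
    rw [h3]; linarith
  filter_upwards [e2, e3, self_mem_nhdsWithin] with e he2 he3 he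
  have he' : (0 : ℝ) < e := he
  refine ⟨?_, he2, he3⟩
  rw [det3_shift, h1, zero_add]
  exact mul_pos he' (nsq_pos (ne_of_pos h).1)

/-- a dart of a triangle, up to rotation -/
theorem dart_rot {t : V × V × V} {d : V × V} (hd : d ∈ triDarts t)
    (ht : 0 < det3 (p t.1) (p t.2.1) (p t.2.2)) :
    ∃ w, 0 < det3 (p d.1) (p d.2) w ∧ openTri (p d.1) (p d.2) w = tOpen p t := by
  obtain ⟨x, y, z⟩ := t
  simp only [triDarts, List.mem_cons, List.not_mem_nil, or_false] at hd
  rcases hd with rfl | rfl | rfl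
  · exact ⟨p z, ht, rfl⟩
  · refine ⟨p x, by rw [det3_cyc]; exact ht, ?_⟩
    ext P
    simp only [openTri, tOpen, Set.mem_ofPred_eq]
    tauto
  · refine ⟨p y, by rw [det3_cyc, det3_cyc]; exact ht, ?_⟩
    ext P
    simp only [openTri, tOpen, Set.mem_ofPred_eq]
    tauto

theorem tri_nodup {t : V × V × V} (ht : 0 < det3 (p t.1) (p t.2.1) (p t.2.2)) :
    (triDarts t).Nodup := by
  obtain ⟨x, y, z⟩ := t
  obtain ⟨h1, h2, h3⟩ := ne_of_pos ht
  simp only at h1 h2 h3
  have h1' : x ≠ y := fun h => h1 (by rw [h])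
  have h2' : y ≠ z := fun h => h2 (by rw [h])
  have h3' : z ≠ x := fun h => h3 (by rw [h])
  simp only [triDarts, List.nodup_cons, List.mem_cons, Prod.mk.injEq, List.not_mem_nil, or_false,
    not_or, not_and, not_false_iff, List.nodup_nil, and_true]
  refine ⟨⟨fun h => absurd h h1', fun h => absurd h.symm h3'⟩, fun h => absurd h h2'⟩

theorem darts_nodup' (h : TriHyp p T a b c) : (T.flatMap triDarts).Nodup := by
  rw [List.nodup_flatMap]
  refine ⟨fun t ht => tri_nodup (h.pos t ht), ?_⟩
  have hd := disj' h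
  rw [List.pairwise_iff_getElem] at hd ⊢
  intro i j hi hj hij
  have h1 := hd i j hi hj hij
  rw [Function.onFun, List.disjoint_left]
  intro d hd1 hd2
  obtain ⟨w, hw, ew⟩ := dart_rot hd1 (h.pos _ (List.getElem_mem hi))
  obtain ⟨w', hw', ew'⟩ := dart_rot hd2 (h.pos _ (List.getElem_mem hj))
  obtain ⟨e, he1, he2⟩ := ((near_side hw).and (near_side hw')).exists
  rw [ew] at he1
  rw [ew'] at he2
  exact (Set.disjoint_left.1 h1) he1 he2

open Classical in
theorem sum_indicator (L : List (V × V)) (u v : V) :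
    (L.map fun d => (if d = (u, v) then (1 : ℝ) else 0) - if d = (v, u) then (1 : ℝ) else 0).sum =
      (L.count (u, v) : ℝ) - (L.count (v, u) : ℝ) := by
  induction L with
  | nil => simp
  | cons d L ih =>
    rw [List.map_cons, List.sum_cons, ih, List.count_cons, List.count_cons]
    push_cast
    simp only [beq_iff_eq]
    split_ifs <;> ring

theorem sum_flatMap_tri (φ : V → V → ℝ) (T : List (V × V × V)) :
    ((T.flatMap triDarts).map fun d => φ d.1 d.2).sum =
      (T.map fun t => φ t.1 t.2.1 + φ t.2.1 t.2.2 + φ t.2.2 t.1).sum := by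
  induction T with
  | nil => simp
  | cons t T ih =>
    rw [List.flatMap_cons, List.map_append, List.sum_append, ih, List.map_cons, List.sum_cons]
    simp only [triDarts, List.map_cons, List.map_nil, List.sum_cons, List.sum_nil]
    ring

open Classical in
theorem count_eq (h : TriHyp p T a b c) (u v : V) :
    ((T.flatMap triDarts).count (u, v) : ℝ) - ((T.flatMap triDarts).count (v, u) : ℝ) =
      ([(a, b), (b, c), (c, a)].count (u, v) : ℝ) - ([(a, b), (b, c), (c, a)].count (v, u) : ℝ) := by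
  rw [← sum_indicator, ← sum_indicator]
  have h1 := h.chain (fun x y => (if (x, y) = (u, v) then (1 : ℝ) else 0) -
    if (x, y) = (v, u) then (1 : ℝ) else 0) (fun x y => by
      have e1 : ((x, y) = (u, v)) = ((y, x) = (v, u)) := by
        simp only [Prod.mk.injEq, eq_iff_iff]; tauto
      have e2 : ((x, y) = (v, u)) = ((y, x) = (u, v)) := by
        simp only [Prod.mk.injEq, eq_iff_iff]; tauto
      simp only [e1, e2]
      ring)
  have h2 := sum_flatMap_tri (fun x y => (if (x, y) = (u, v) then (1 : ℝ) else 0) -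
    if (x, y) = (v, u) then (1 : ℝ) else 0) T
  simp only [Prod.mk.eta] at h2
  rw [h2]
  refine Eq.trans h1 ?_
  simp only [List.map_cons, List.map_nil, List.sum_cons, List.sum_nil]
  ring

end main

end Cover

open Cover in
/-- Y-COVER -/
theorem cover : TargetCover := by
  classical
  intro V p T a b c h
  have hnd := darts_nodup' h
  have hop := outer_pos' h
  obtain ⟨n1, n2, n3⟩ := ne_of_pos hop
  have m1 : a ≠ b := fun h => n1 (by rw [h])
  have m2 : b ≠ c := fun h => n2 (by rw [h])
  have m3 : c ≠ a := fun h => n3 (by rw [h])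
  refine ⟨h, hop, disj' h, sub' h, hnd, ?_, ?_⟩
  · rintro ⟨u, v⟩ hd
    by_contra hn
    rw [not_or] at hn
    obtain ⟨hn1, hn2⟩ := hn
    have h1 := count_eq h u v
    rw [List.count_eq_one_of_mem hnd hd, List.count_eq_zero_of_not_mem (a := (v, u)) hn1,
      List.count_eq_zero_of_not_mem (a := (u, v)) (l := [(a, b), (b, c), (c, a)]) hn2] at h1
    have h2 : (0 : ℝ) ≤ (([(a, b), (b, c), (c, a)].count (v, u) : ℕ) : ℝ) := Nat.cast_nonneg _
    push_cast at h1
    linarith
  · rintro ⟨u, v⟩ hd
    have hnd' : [(a, b), (b, c), (c, a)].Nodup := by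
      simp only [List.nodup_cons, List.mem_cons, Prod.mk.injEq, List.not_mem_nil, or_false,
        not_or, not_and, not_false_iff, List.nodup_nil, and_true]
      exact ⟨⟨fun h => absurd h m1, fun h => absurd h.symm m3⟩, fun h => absurd h m2⟩
    have hsw : (v, u) ∉ [(a, b), (b, c), (c, a)] := by
      simp only [List.mem_cons, Prod.mk.injEq, List.not_mem_nil, or_false] at hd ⊢
      rcases hd with ⟨rfl, rfl⟩ | ⟨rfl, rfl⟩ | ⟨rfl, rfl⟩
      · rintro (⟨h, _⟩ | ⟨_, h⟩ | ⟨h, _⟩)
        · exact m1 h.symm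
        · exact m3 h.symm
        · exact m2 h
      · rintro (⟨h, _⟩ | ⟨h, _⟩ | ⟨_, h⟩)
        · exact m3 h
        · exact m2 h.symm
        · exact m1 h.symm
      · rintro (⟨_, h⟩ | ⟨h, _⟩ | ⟨h, _⟩)
        · exact m2 h.symm
        · exact m1 h
        · exact m3 h.symm
    have h1 := count_eq h u v
    rw [List.count_eq_one_of_mem hnd' hd, List.count_eq_zero_of_not_mem (a := (v, u))
      (l := [(a, b), (b, c), (c, a)]) hsw] at h1
    have h2 : (T.flatMap triDarts).count (u, v) ≤ 1 := List.nodup_iff_count_le_one.1 hnd _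
    have h3 : (T.flatMap triDarts).count (u, v) = 1 + (T.flatMap triDarts).count (v, u) := by
      have : ((T.flatMap triDarts).count (u, v) : ℝ) =
        ((1 + (T.flatMap triDarts).count (v, u) : ℕ) : ℝ) := by push_cast at h1 ⊢; linarith
      exact_mod_cast this
    constructor
    · apply List.count_pos_iff.1
      omega
    · intro hm
      have := List.count_pos_iff.2 hm
      simp only [Prod.swap_prod_mk] at this
      omega

end Pool.Agent.PAH
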