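import Mathlib

set_option autoImplicit false

/-!
# Straight-line drawings with prescribed face areas, the existential theory of the reals, and
polynomial time reductions: all definitions used in the main statement.
-/

namespace Pool.Agent.PAH

/-! ## Plane geometry -/

/-- the plane, with its usual topology and Lebesgue measure -/
abbrev Plane : Type := ℝ × ℝ

/-- twice the signed area of the triangle `a b c` (positive when counterclockwise) -/
def det3 (a b c : Plane) : ℝ := (b.1 - a.1) * (c.2 - a.2) - (b.2 - a.2) * (c.1 - a.1)

/-- the counterclockwise angle, in `(0, 2π]`, from the direction `a → b` to the direction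
`a → c` -/
noncomputable def ccwAngle (a b c : Plane) : ℝ :=
  toIocMod Real.two_pi_pos 0
    (Complex.arg ((⟨c.1 - a.1, c.2 - a.2⟩ : ℂ) / (⟨b.1 - a.1, b.2 - a.2⟩ : ℂ)))

/-- the set `R` lies on the left of the directed segment from `a` to `b`: it contains a left-hand
half-neighbourhood of each point in the interior of the segment -/
def LiesLeft (R : Set Plane) (a b : Plane) : Prop :=
  ∀ x ∈ openSegment ℝ a b, ∃ ε > 0, ∀ y ∈ Metric.ball x ε, 0 < det3 a b y → y ∈ R

/-! ## Plane graphs -/

/-- A graph with a combinatorial embedding and an area assignment, presented by its facial walks: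
the facial walk of the outer face, and the facial walks of the bounded faces together with the
prescribed areas.  A walk is the cyclic list of its vertices, traversed with the face on the
left.  (The rotation system and the facial walks determine each other: `u` follows `w` in the
counterclockwise order around `v` exactly when `u, v, w` are consecutive on a facial walk.) -/
structure FaceMap (V : Type) where
  outer : List V
  inner : List (List V × ℚ)

section
variable {V : Type}

/-- the directed edges of a closed walk -/
def dartsOf (w : List V) : List (V × V) := w.zip (w.rotate 1)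

/-- the corners (triples of consecutive vertices) of a closed walk -/
def cornersOf (w : List V) : List (V × V × V) := w.zip ((w.rotate 1).zip (w.rotate 2))

/-- all facial walks -/
def FaceMap.walks (G : FaceMap V) : List (List V) := G.outer :: G.inner.map Prod.fst

/-- all directed edges -/
def FaceMap.darts (G : FaceMap V) : List (V × V) := G.walks.flatMap dartsOf

/-- the union of all edges, drawn as segments -/
def FaceMap.drawn (G : FaceMap V) (p : V → Plane) : Set Plane :=
  {x | ∃ d ∈ G.darts, x ∈ segment ℝ (p d.1) (p d.2)}

/-- `R` is a face of the drawing `p`, and it lies on the left of the whole walk `w` -/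
structure IsFace (G : FaceMap V) (p : V → Plane) (w : List V) (R : Set Plane) : Prop where
  component : ∃ x ∈ (G.drawn p)ᶜ, R = connectedComponentIn (G.drawn p)ᶜ x
  left : ∀ d ∈ dartsOf w, LiesLeft R (p d.1) (p d.2)

/-- A crossing-free straight-line drawing of `G` with the prescribed embedding. -/
structure Drawing (G : FaceMap V) where
  /-- positions of the vertices -/
  pos : V → Plane
  /-- each directed edge occurs once on the facial walks, and so does its reverse; no loops -/
  nodup : G.darts.Nodup
  symm : ∀ d ∈ G.darts, d.swap ∈ G.darts
  loopless : ∀ d ∈ G.darts, d.1 ≠ d.2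
  /-- different vertices are at different points -/
  inj : ∀ d ∈ G.darts, ∀ e ∈ G.darts, pos d.1 = pos e.1 → d.1 = e.1
  /-- different edges meet in common end vertices only -/
  noncrossing : ∀ d ∈ G.darts, ∀ e ∈ G.darts, e ≠ d → e ≠ d.swap →
    ∀ x ∈ segment ℝ (pos d.1) (pos d.2), x ∈ segment ℝ (pos e.1) (pos e.2) →
      ∃ v, (v = d.1 ∨ v = d.2) ∧ (v = e.1 ∨ v = e.2) ∧ x = pos v
  /-- the rotation system is the given one: for consecutive vertices `u, v, w` of a facial walk,
  `u` is the first neighbour of `v` counterclockwise after `w` -/
  rotation : ∀ f ∈ G.walks, ∀ c ∈ cornersOf f, ∀ x, (c.2.1, x) ∈ G.darts → x ≠ c.2.2 →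
    ccwAngle (pos c.2.1) (pos c.2.2) (pos c.1) ≤ ccwAngle (pos c.2.1) (pos c.2.2) (pos x)
  /-- the region of the outer face -/
  outerFace : Set Plane
  /-- the regions of the bounded faces -/
  face : Fin G.inner.length → Set Plane
  outer_isFace : IsFace G pos G.outer outerFace
  outer_unbounded : ¬ Bornology.IsBounded outerFace
  face_isFace : ∀ i, IsFace G pos (G.inner.get i).1 (face i)
  face_bounded : ∀ i, Bornology.IsBounded (face i)
  face_inj : Function.Injective face

/-- `G` is a (connected) plane graph: its embedding is realized by some straight-line drawing
(by Fáry's theorem this holds for every plane graph). -/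
def FaceMap.IsPlane (G : FaceMap V) : Prop := Nonempty (Drawing G)

/-- `G` has a straight-line drawing in which each bounded face has the prescribed area. -/
def FaceMap.Realizable (G : FaceMap V) : Prop :=
  ∃ D : Drawing G, ∀ i, MeasureTheory.volume (D.face i) =
    ENNReal.ofReal ((G.inner.get i).2 : ℝ)

end

/-! ## Alphabet -/

/-- the alphabet used for all encodings -/
inductive Sym
  | bit (b : Bool)
  | comma | semi | slash
  | zero | one | tick | var | add | mul
  | eq | lt | not | and | or
  deriving DecidableEq, Fintype

/-! ## Decision problems and polynomial time many-one reductions -/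

/-- A decision problem: a type of instances, encoded injectively by strings over a finite
alphabet, and the set of yes-instances. -/
structure DecisionProblem where
  Inst : Type
  Alphabet : Type
  finite : Finite Alphabet
  enc : Inst → List Alphabet
  enc_inj : Function.Injective enc
  Yes : Inst → Prop

/-- polynomial time many-one reducibility, with Mathlib's (multi-stack) Turing machines -/
def PolyReduces (P Q : DecisionProblem) : Prop :=
  ∃ f : P.Inst → Q.Inst, Nonempty (Turing.TM2ComputableInPolyTime P.enc Q.enc f) ∧
    ∀ a, P.Yes a ↔ Q.Yes (f a)

/-! ## The existential theory of the reals -/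

/-- terms built from `0`, `1`, variables, `+` and `·` -/
inductive Term
  | zero | one
  | var (i : ℕ)
  | add (s t : Term)
  | mul (s t : Term)

/-- value of a term in the real numbers -/
def Term.eval (x : ℕ → ℝ) : Term → ℝ
  | .zero => 0
  | .one => 1
  | .var i => x i
  | .add s t => s.eval x + t.eval x
  | .mul s t => s.eval x * t.eval x

/-- quantifier-free formulas -/
inductive Formula
  | eq (s t : Term)
  | lt (s t : Term)
  | not (φ : Formula)
  | and (φ ψ : Formula)
  | or (φ ψ : Formula)

/-- truth of a quantifier-free formula in the real numbers -/
def Formula.Holds (x : ℕ → ℝ) : Formula → Prop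
  | .eq s t => s.eval x = t.eval x
  | .lt s t => s.eval x < t.eval x
  | .not φ => ¬ φ.Holds x
  | .and φ ψ => φ.Holds x ∧ ψ.Holds x
  | .or φ ψ => φ.Holds x ∨ ψ.Holds x

/-- postfix notation; the index of a variable is written in unary -/
def Term.enc : Term → List Sym
  | .zero => [Sym.zero]
  | .one => [Sym.one]
  | .var i => List.replicate i Sym.tick ++ [Sym.var]
  | .add s t => s.enc ++ t.enc ++ [Sym.add]
  | .mul s t => s.enc ++ t.enc ++ [Sym.mul]

/-- postfix notation -/
def Formula.enc : Formula → List Sym
  | .eq s t => s.enc ++ t.enc ++ [Sym.eq]
  | .lt s t => s.enc ++ t.enc ++ [Sym.lt]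
  | .not φ => φ.enc ++ [Sym.not]
  | .and φ ψ => φ.enc ++ ψ.enc ++ [Sym.and]
  | .or φ ψ => φ.enc ++ ψ.enc ++ [Sym.or]

/-! ## Encoding of face maps -/

/-- a bit string -/
def encBits (l : List Bool) : List Sym := l.map Sym.bit

/-- a walk: the names (bit strings) of its vertices, each followed by a comma, and a semicolon -/
def encWalk (w : List (List Bool)) : List Sym :=
  w.flatMap (fun v => encBits v ++ [Sym.comma]) ++ [Sym.semi]

/-- a positive rational number: numerator and denominator in binary -/
def encRat (q : ℚ) : List Sym :=
  encBits q.num.toNat.bits ++ [Sym.slash] ++ encBits q.den.bits ++ [Sym.semi]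

/-- a face map with an area assignment; vertices are bit strings -/
def encMap (G : FaceMap (List Bool)) : List Sym :=
  encWalk G.outer ++ G.inner.flatMap (fun f => encWalk f.1 ++ encRat f.2)

/-- an instance of the prescribed area problem: a plane graph and an area assignment -/
structure AreaInstance where
  graph : FaceMap (List Bool)
  plane : graph.IsPlane
  pos : ∀ f ∈ graph.inner, 0 < f.2

end Pool.Agent.PAH
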