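import Pool.Agent.PAH.Targets

set_option autoImplicit false

/-!
# P-ENC: the encodings are injective
-/

namespace Pool.Agent.PAH

namespace EncInj

/-! ## Formulas: a stack machine reading postfix notation -/

inductive Item
  | t (x : Term)
  | f (x : Formula)

def step (s : ℕ × List Item) (c : Sym) : ℕ × List Item :=
  match c, s.2 with
  | .tick, st => (s.1 + 1, st)
  | .var, st => (0, .t (.var s.1) :: st)
  | .zero, st => (0, .t .zero :: st)
  | .one, st => (0, .t .one :: st)
  | .add, .t b :: .t a :: st => (0, .t (.add a b) :: st)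
  | .mul, .t b :: .t a :: st => (0, .t (.mul a b) :: st)
  | .eq, .t b :: .t a :: st => (0, .f (.eq a b) :: st)
  | .lt, .t b :: .t a :: st => (0, .f (.lt a b) :: st)
  | .not, .f a :: st => (0, .f (.not a) :: st)
  | .and, .f b :: .f a :: st => (0, .f (.and a b) :: st)
  | .or, .f b :: .f a :: st => (0, .f (.or a b) :: st)
  | _, st => (0, st)

lemma ticks (k i : ℕ) (st : List Item) :
    (List.replicate i Sym.tick).foldl step (k, st) = (k + i, st) := by
  induction i generalizing k with
  | zero => rfl
  | succ i ih =>
    rw [List.replicate_succ, List.foldl_cons]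
    show (List.replicate i Sym.tick).foldl step (k + 1, st) = _
    rw [ih]
    congr 1
    omega

lemma term_run (t : Term) : ∀ st, t.enc.foldl step (0, st) = (0, .t t :: st) := by
  induction t with
  | zero => intro st; rfl
  | one => intro st; rfl
  | var i =>
    intro st
    unfold Term.enc
    rw [List.foldl_append, ticks]
    show (0, Item.t (.var (0 + i)) :: st) = _
    rw [Nat.zero_add]
  | add s t hs ht =>
    intro st
    unfold Term.enc
    rw [List.foldl_append, List.foldl_append, hs, ht]
    rfl
  | mul s t hs ht =>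
    intro st
    unfold Term.enc
    rw [List.foldl_append, List.foldl_append, hs, ht]
    rfl

lemma formula_run (φ : Formula) : ∀ st, φ.enc.foldl step (0, st) = (0, .f φ :: st) := by
  induction φ with
  | eq s t =>
    intro st
    unfold Formula.enc
    rw [List.foldl_append, List.foldl_append, term_run, term_run]
    rfl
  | lt s t =>
    intro st
    unfold Formula.enc
    rw [List.foldl_append, List.foldl_append, term_run, term_run]
    rfl
  | not φ hφ =>
    intro st
    unfold Formula.enc
    rw [List.foldl_append, hφ]
    rfl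
  | and φ ψ hφ hψ =>
    intro st
    unfold Formula.enc
    rw [List.foldl_append, List.foldl_append, hφ, hψ]
    rfl
  | or φ ψ hφ hψ =>
    intro st
    unfold Formula.enc
    rw [List.foldl_append, List.foldl_append, hφ, hψ]
    rfl

lemma formula_inj : Function.Injective Formula.enc := by
  intro φ ψ h
  have h1 := formula_run φ []
  have h2 := formula_run ψ []
  rw [h, h2] at h1
  have h3 := (Prod.ext_iff.mp h1).2
  have h4 : Item.f ψ = Item.f φ := (List.cons.inj h3).1
  exact (Item.f.inj h4).symm

/-! ## Face maps -/

lemma bits_split (v v' : List Bool) (r r' : List Sym) (c c' : Sym) (hc : ∀ b, c ≠ Sym.bit b)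
    (hc' : ∀ b, c' ≠ Sym.bit b) (h : encBits v ++ c :: r = encBits v' ++ c' :: r') :
    v = v' ∧ c = c' ∧ r = r' := by
  induction v generalizing v' with
  | nil =>
    cases v' with
    | nil =>
      have h1 : c :: r = c' :: r' := h
      exact ⟨rfl, (List.cons.inj h1).1, (List.cons.inj h1).2⟩
    | cons b v' =>
      have h1 : c :: r = Sym.bit b :: (encBits v' ++ c' :: r') := h
      exact absurd (List.cons.inj h1).1 (hc b)
  | cons a v ih =>
    cases v' with
    | nil =>
      have h1 : Sym.bit a :: (encBits v ++ c :: r) = c' :: r' := h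
      exact absurd (List.cons.inj h1).1.symm (hc' a)
    | cons b v' =>
      have h1 : Sym.bit a :: (encBits v ++ c :: r) = Sym.bit b :: (encBits v' ++ c' :: r') := h
      obtain ⟨h2, h3⟩ := List.cons.inj h1
      obtain ⟨h4, h5, h6⟩ := ih v' h3
      exact ⟨by rw [Sym.bit.inj h2, h4], h5, h6⟩

lemma walk_split (w w' : List (List Bool)) (r r' : List Sym)
    (h : encWalk w ++ r = encWalk w' ++ r') : w = w' ∧ r = r' := by
  induction w generalizing w' with
  | nil =>
    cases w' with
    | nil =>
      have h1 : Sym.semi :: r = Sym.semi :: r' := h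
      exact ⟨rfl, (List.cons.inj h1).2⟩
    | cons v' t' =>
      have h1 : encBits [] ++ Sym.semi :: r = encBits v' ++ Sym.comma :: (encWalk t' ++ r') := by
        have e : encWalk (v' :: t') ++ r' = encBits v' ++ Sym.comma :: (encWalk t' ++ r') := by
          simp [encWalk, List.append_assoc]
        rw [← e, ← h]
        rfl
      have h2 := (bits_split _ _ _ _ _ _ (by intro b; simp) (by intro b; simp) h1).2.1
      exact absurd h2 (by simp)
  | cons v t ih =>
    have e : ∀ (v : List Bool) (t : List (List Bool)) (r : List Sym),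
        encWalk (v :: t) ++ r = encBits v ++ Sym.comma :: (encWalk t ++ r) := by
      intro v t r
      simp [encWalk, List.append_assoc]
    cases w' with
    | nil =>
      have h1 : encBits v ++ Sym.comma :: (encWalk t ++ r) = encBits [] ++ Sym.semi :: r' := by
        rw [← e, h]
        rfl
      have h2 := (bits_split _ _ _ _ _ _ (by intro b; simp) (by intro b; simp) h1).2.1
      exact absurd h2 (by simp)
    | cons v' t' =>
      rw [e, e] at h
      obtain ⟨h2, _, h4⟩ := bits_split _ _ _ _ _ _ (by intro b; simp) (by intro b; simp) h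
      obtain ⟨h5, h6⟩ := ih t' h4
      exact ⟨by rw [h2, h5], h6⟩

lemma bits_inj {a b : ℕ} (h : a.bits = b.bits) : a = b := by
  have h1 : Nat.digits 2 a = Nat.digits 2 b := by
    rw [Nat.digits_two_eq_bits, Nat.digits_two_eq_bits, h]
  exact Nat.digits.injective 2 h1

lemma rat_split {q q' : ℚ} (hq : 0 < q) (hq' : 0 < q') {r r' : List Sym}
    (h : encRat q ++ r = encRat q' ++ r') : q = q' ∧ r = r' := by
  have e : ∀ (q : ℚ) (r : List Sym), encRat q ++ r =
      encBits q.num.toNat.bits ++ Sym.slash :: (encBits q.den.bits ++ Sym.semi :: r) := by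
    intro q r
    simp [encRat, List.append_assoc]
  rw [e, e] at h
  obtain ⟨h2, _, h4⟩ := bits_split _ _ _ _ _ _ (by intro b; simp) (by intro b; simp) h
  obtain ⟨h5, _, h6⟩ := bits_split _ _ _ _ _ _ (by intro b; simp) (by intro b; simp) h4
  refine ⟨?_, h6⟩
  have h7 := bits_inj h2
  have h8 := bits_inj h5
  apply Rat.ext
  · have h9 : 0 < q.num := Rat.num_pos.mpr hq
    have h10 : 0 < q'.num := Rat.num_pos.mpr hq'
    omega
  · exact h8

lemma inner_inj (L L' : List (List (List Bool) × ℚ)) (hL : ∀ f ∈ L, 0 < f.2)
    (hL' : ∀ f ∈ L', 0 < f.2)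
    (h : L.flatMap (fun f => encWalk f.1 ++ encRat f.2) =
      L'.flatMap (fun f => encWalk f.1 ++ encRat f.2)) : L = L' := by
  have hne : ∀ (f : List (List Bool) × ℚ) (r : List Sym),
      encWalk f.1 ++ encRat f.2 ++ r ≠ [] := by
    intro f r h0
    have := congrArg List.length h0
    simp [encWalk] at this
  induction L generalizing L' with
  | nil =>
    cases L' with
    | nil => rfl
    | cons g t =>
      rw [List.flatMap_nil, List.flatMap_cons] at h
      exact absurd h.symm (hne _ _)
  | cons f s ih =>
    cases L' with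
    | nil =>
      rw [List.flatMap_nil, List.flatMap_cons] at h
      exact absurd h (hne _ _)
    | cons g t =>
      rw [List.flatMap_cons, List.flatMap_cons, List.append_assoc, List.append_assoc] at h
      obtain ⟨h1, h2⟩ := walk_split _ _ _ _ h
      obtain ⟨h3, h4⟩ := rat_split (hL f (List.mem_cons_self)) (hL' g (List.mem_cons_self)) h2
      have h5 := ih t (fun f hf => hL f (List.mem_cons_of_mem _ hf))
        (fun f hf => hL' f (List.mem_cons_of_mem _ hf)) h4
      rw [h5, Prod.ext h1 h3]

end EncInj

theorem P_ENC : TargetEncInj := by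
  refine ⟨EncInj.formula_inj, ?_⟩
  rintro ⟨o, L⟩ ⟨o', L'⟩ hG hH h
  unfold encMap at h
  obtain ⟨h1, h2⟩ := EncInj.walk_split _ _ _ _ h
  have h3 := EncInj.inner_inj L L' hG hH h2
  have h1' : o = o' := h1
  rw [h1', h3]

end Pool.Agent.PAH
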