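import Pool.Agent.PAH.Targets

set_option autoImplicit false

/-!
# A formula is satisfiable iff its arithmetic system is (job A-ETR)
-/

namespace Pool.Agent.PAH

namespace EtrJob

/-! ## Lengths -/

lemma tlen (t : Term) : 1 ≤ t.enc.length := by
  cases t <;> simp [Term.enc] <;> omega

lemma flen (φ : Formula) : 1 ≤ φ.enc.length := by
  cases φ <;> simp [Formula.enc] <;> omega

/-! ## Soundness -/

lemma holds_add (x : ℕ → ℝ) (u v w : ℕ) : (cAdd u v w).Holds x ↔ x u + x v = x w := by
  simp [Constr.Holds, cAdd]

lemma holds_mul (x : ℕ → ℝ) (u v w : ℕ) : (cMul u v w).Holds x ↔ x u * x v = x w := by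
  simp [Constr.Holds, cMul]

lemma term_sound (x : ℕ → ℝ) (h0 : x 0 = 1) : ∀ (t : Term) (o : ℕ),
    (∀ c ∈ t.constr o, c.Holds x) →
      x (vi (o + t.enc.length - 1) 0) = t.eval (fun i => x (vi i 15))
  | .zero, o, h => by
      have := h _ (List.mem_singleton.2 rfl)
      rw [holds_add] at this
      simp only [Term.enc, List.length_singleton, Nat.add_sub_cancel, Term.eval]
      linarith
  | .one, o, h => by
      have := h _ (List.mem_singleton.2 rfl)
      rw [holds_mul, h0] at this
      simp only [Term.enc, List.length_singleton, Nat.add_sub_cancel, Term.eval]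
      linarith
  | .var i, o, h => by
      have := h _ (List.mem_singleton.2 rfl)
      rw [holds_mul, h0] at this
      have e : o + (Term.var i).enc.length - 1 = o + i := by simp [Term.enc]
      rw [e, Term.eval]
      linarith
  | .add s t, o, h => by
      simp only [Term.constr, List.mem_append, List.mem_singleton] at h
      have h1 := term_sound x h0 s o fun c hc => h c (Or.inl (Or.inl hc))
      have h2 := term_sound x h0 t (o + s.enc.length) fun c hc => h c (Or.inl (Or.inr hc))
      have h3 := h _ (Or.inr rfl)
      rw [holds_add, h1, h2] at h3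
      have e : o + (Term.add s t).enc.length - 1 = o + s.enc.length + t.enc.length := by
        simp [Term.enc]; omega
      rw [e, Term.eval, h3]
  | .mul s t, o, h => by
      simp only [Term.constr, List.mem_append, List.mem_singleton] at h
      have h1 := term_sound x h0 s o fun c hc => h c (Or.inl (Or.inl hc))
      have h2 := term_sound x h0 t (o + s.enc.length) fun c hc => h c (Or.inl (Or.inr hc))
      have h3 := h _ (Or.inr rfl)
      rw [holds_mul, h1, h2] at h3
      have e : o + (Term.mul s t).enc.length - 1 = o + s.enc.length + t.enc.length := by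
        simp [Term.enc]; omega
      rw [e, Term.eval, h3]

lemma form_sound (x : ℕ → ℝ) (h0 : x 0 = 1) : ∀ (φ : Formula) (o : ℕ),
    (∀ c ∈ φ.constr o, c.Holds x) →
      (x (vi (o + φ.enc.length - 1) 0) = 0 → φ.Holds (fun i => x (vi i 15))) ∧
      (x (vi (o + φ.enc.length - 1) 1) = 0 → ¬ φ.Holds (fun i => x (vi i 15)))
  | .eq s t, o, h => by
      simp only [Formula.constr, List.mem_append] at h
      have h1 := term_sound x h0 s o fun c hc => h c (Or.inl (Or.inl hc))
      have h2 := term_sound x h0 t (o + s.enc.length) fun c hc => h c (Or.inl (Or.inr hc))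
      have h3 := fun c hc => h c (Or.inr hc)
      have e : o + (Formula.eq s t).enc.length - 1 = o + s.enc.length + t.enc.length := by
        simp [Formula.enc]; omega
      rw [e]
      simp only [opEq, List.mem_cons, List.not_mem_nil, or_false, forall_eq_or_imp, forall_eq,
        holds_add, holds_mul, h0, h1, h2] at h3
      obtain ⟨e1, e2, e3⟩ := h3
      simp only [Formula.Holds]
      refine ⟨fun hz => by linarith, fun hz he => ?_⟩
      have : x (vi (o + s.enc.length + t.enc.length) 0) = 0 := by linarith
      rw [this] at e2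
      linarith
  | .lt s t, o, h => by
      simp only [Formula.constr, List.mem_append] at h
      have h1 := term_sound x h0 s o fun c hc => h c (Or.inl (Or.inl hc))
      have h2 := term_sound x h0 t (o + s.enc.length) fun c hc => h c (Or.inl (Or.inr hc))
      have h3 := fun c hc => h c (Or.inr hc)
      have e : o + (Formula.lt s t).enc.length - 1 = o + s.enc.length + t.enc.length := by
        simp [Formula.enc]; omega
      rw [e]
      simp only [opLt, List.mem_cons, List.not_mem_nil, or_false, forall_eq_or_imp, forall_eq,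
        holds_add, holds_mul, h0, h1, h2] at h3
      obtain ⟨e1, e2, e3, e4, e5, e6, e7, e8⟩ := h3
      simp only [Formula.Holds]
      set p := o + s.enc.length + t.enc.length
      refine ⟨fun hz => ?_, fun hz => ?_⟩
      · have h5 : x (vi p 2) * (x (vi p 3) * x (vi p 3)) = 1 := by
          rw [e2]; linarith
        by_contra hn
        have h6 : x (vi p 2) ≤ 0 := by linarith
        have h7 := mul_nonneg_of_nonpos_of_nonpos h6 (neg_nonpos.2 (mul_self_nonneg (x (vi p 3))))
        linarith [h7]
      · have h7 := mul_self_nonneg (x (vi p 6))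
        linarith
  | .not φ, o, h => by
      simp only [Formula.constr, List.mem_append] at h
      have h1 := form_sound x h0 φ o fun c hc => h c (Or.inl hc)
      have h3 := fun c hc => h c (Or.inr hc)
      have e : o + (Formula.not φ).enc.length - 1 = o + φ.enc.length := by
        simp [Formula.enc]
      rw [e]
      simp only [opNot, List.mem_cons, List.not_mem_nil, or_false, forall_eq_or_imp, forall_eq,
        holds_mul, h0] at h3
      obtain ⟨e1, e2⟩ := h3
      simp only [Formula.Holds, not_not]
      exact ⟨fun hz => h1.2 (by linarith), fun hz => h1.1 (by linarith)⟩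
  | .and φ ψ, o, h => by
      simp only [Formula.constr, List.mem_append] at h
      have h1 := form_sound x h0 φ o fun c hc => h c (Or.inl (Or.inl hc))
      have h2 := form_sound x h0 ψ (o + φ.enc.length) fun c hc => h c (Or.inl (Or.inr hc))
      have h3 := fun c hc => h c (Or.inr hc)
      have e : o + (Formula.and φ ψ).enc.length - 1 = o + φ.enc.length + ψ.enc.length := by
        simp [Formula.enc]; omega
      rw [e]
      simp only [opAnd, List.mem_cons, List.not_mem_nil, or_false, forall_eq_or_imp, forall_eq,
        holds_add, holds_mul] at h3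
      obtain ⟨e1, e2, e3, e4⟩ := h3
      simp only [Formula.Holds]
      refine ⟨fun hz => ?_, fun hz => ?_⟩
      · have ha := mul_self_nonneg (x (vi (o + φ.enc.length - 1) 0))
        have hb := mul_self_nonneg (x (vi (o + φ.enc.length + ψ.enc.length - 1) 0))
        exact ⟨h1.1 (mul_self_eq_zero.1 (by linarith)), h2.1 (mul_self_eq_zero.1 (by linarith))⟩
      · rw [hz] at e4
        rintro ⟨hp, hq⟩
        rcases mul_eq_zero.1 e4 with h | h
        · exact h1.2 h hp
        · exact h2.2 h hq
  | .or φ ψ, o, h => by
      simp only [Formula.constr, List.mem_append] at h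
      have h1 := form_sound x h0 φ o fun c hc => h c (Or.inl (Or.inl hc))
      have h2 := form_sound x h0 ψ (o + φ.enc.length) fun c hc => h c (Or.inl (Or.inr hc))
      have h3 := fun c hc => h c (Or.inr hc)
      have e : o + (Formula.or φ ψ).enc.length - 1 = o + φ.enc.length + ψ.enc.length := by
        simp [Formula.enc]; omega
      rw [e]
      simp only [opOr, List.mem_cons, List.not_mem_nil, or_false, forall_eq_or_imp, forall_eq,
        holds_add, holds_mul] at h3
      obtain ⟨e1, e2, e3, e4⟩ := h3
      simp only [Formula.Holds, not_or]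
      refine ⟨fun hz => ?_, fun hz => ?_⟩
      · rw [hz] at e4
        rcases mul_eq_zero.1 e4 with h | h
        · exact Or.inl (h1.1 h)
        · exact Or.inr (h2.1 h)
      · have ha := mul_self_nonneg (x (vi (o + φ.enc.length - 1) 1))
        have hb := mul_self_nonneg (x (vi (o + φ.enc.length + ψ.enc.length - 1) 1))
        exact ⟨h1.2 (mul_self_eq_zero.1 (by linarith)), h2.2 (mul_self_eq_zero.1 (by linarith))⟩

/-! ## Assignments -/

/-- the assignment with values `y` for the variables and `f` for the local variables -/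
noncomputable def mk (y : ℕ → ℝ) (f : ℕ → ℕ → ℝ) (k : ℕ) : ℝ :=
  if k = 0 then 1 else if (k - 1) % 16 = 15 then y ((k - 1) / 16)
    else f ((k - 1) / 16) ((k - 1) % 16)

lemma mk_zero (y : ℕ → ℝ) (f : ℕ → ℕ → ℝ) : mk y f 0 = 1 := if_pos rfl

lemma mk_var (y : ℕ → ℝ) (f : ℕ → ℕ → ℝ) (i : ℕ) : mk y f (vi i 15) = y i := by
  have h1 : vi i 15 ≠ 0 := by unfold vi; omega
  have h2 : (vi i 15 - 1) % 16 = 15 := by unfold vi; omega
  have h3 : (vi i 15 - 1) / 16 = i := by unfold vi; omega
  rw [mk, if_neg h1, if_pos h2, h3]

lemma mk_loc (y : ℕ → ℝ) (f : ℕ → ℕ → ℝ) (p s : ℕ) (hs : s ≤ 9) : mk y f (vi p s) = f p s := by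
  have h1 : vi p s ≠ 0 := by unfold vi; omega
  have h2 : (vi p s - 1) % 16 = s := by unfold vi; omega
  have h3 : (vi p s - 1) / 16 = p := by unfold vi; omega
  rw [mk, if_neg h1, if_neg (by omega), h3, h2]

/-- the indices used by a subtree at the positions `o, …, o + l - 1` -/
def Loc (o l k : ℕ) : Prop :=
  k = 0 ∨ (∃ i, k = vi i 15) ∨ ∃ p s, o ≤ p ∧ p < o + l ∧ s ≤ 9 ∧ k = vi p s

def LocC (o l : ℕ) (c : Constr) : Prop := Loc o l c.u ∧ Loc o l c.v ∧ Loc o l c.w

lemma Loc.mono {o l o' l' k : ℕ} (h : Loc o l k) (h1 : o' ≤ o) (h2 : o + l ≤ o' + l') :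
    Loc o' l' k := by
  rcases h with h | ⟨i, h⟩ | ⟨p, s, a, b, c, d⟩
  · exact Or.inl h
  · exact Or.inr (Or.inl ⟨i, h⟩)
  · exact Or.inr (Or.inr ⟨p, s, by omega, by omega, c, d⟩)

lemma LocC.mono {o l o' l' : ℕ} {c : Constr} (h : LocC o l c) (h1 : o' ≤ o)
    (h2 : o + l ≤ o' + l') : LocC o' l' c :=
  ⟨h.1.mono h1 h2, h.2.1.mono h1 h2, h.2.2.mono h1 h2⟩

lemma loc_zero (o l : ℕ) : Loc o l 0 := Or.inl rfl
lemma loc_var (o l i : ℕ) : Loc o l (vi i 15) := Or.inr (Or.inl ⟨i, rfl⟩)
lemma loc_loc {o l p s : ℕ} (h1 : o ≤ p) (h2 : p < o + l) (hs : s ≤ 9) : Loc o l (vi p s) :=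
  Or.inr (Or.inr ⟨p, s, h1, h2, hs, rfl⟩)

lemma locC_add {o l u v w : ℕ} (hu : Loc o l u) (hv : Loc o l v) (hw : Loc o l w) :
    LocC o l (cAdd u v w) := ⟨hu, hv, hw⟩

lemma locC_mul {o l u v w : ℕ} (hu : Loc o l u) (hv : Loc o l v) (hw : Loc o l w) :
    LocC o l (cMul u v w) := ⟨hu, hv, hw⟩

lemma term_loc : ∀ (t : Term) (o : ℕ), ∀ c ∈ t.constr o, LocC o t.enc.length c
  | .zero, o, c, h => by
      rw [List.mem_singleton.1 h]
      have : Loc o (Term.zero.enc.length) (vi o 0) := loc_loc le_rfl (by simp [Term.enc]) (by omega)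
      exact locC_add this this this
  | .one, o, c, h => by
      rw [List.mem_singleton.1 h]
      exact locC_mul (loc_zero _ _) (loc_zero _ _) (loc_loc le_rfl (by simp [Term.enc]) (by omega))
  | .var i, o, c, h => by
      rw [List.mem_singleton.1 h]
      exact locC_mul (loc_zero _ _) (loc_var _ _ _)
        (loc_loc (by omega) (by simp [Term.enc]) (by omega))
  | .add s t, o, c, h => by
      have l1 := tlen s
      have l2 := tlen t
      have e : (Term.add s t).enc.length = s.enc.length + t.enc.length + 1 := by
        simp [Term.enc]; omega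
      rw [e]
      simp only [Term.constr, List.mem_append, List.mem_singleton] at h
      rcases h with (h | h) | h
      · exact (term_loc s o c h).mono le_rfl (by omega)
      · exact (term_loc t _ c h).mono (by omega) (by omega)
      · rw [h]
        exact locC_add (loc_loc (by omega) (by omega) (by omega))
          (loc_loc (by omega) (by omega) (by omega)) (loc_loc (by omega) (by omega) (by omega))
  | .mul s t, o, c, h => by
      have l1 := tlen s
      have l2 := tlen t
      have e : (Term.mul s t).enc.length = s.enc.length + t.enc.length + 1 := by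
        simp [Term.enc]; omega
      rw [e]
      simp only [Term.constr, List.mem_append, List.mem_singleton] at h
      rcases h with (h | h) | h
      · exact (term_loc s o c h).mono le_rfl (by omega)
      · exact (term_loc t _ c h).mono (by omega) (by omega)
      · rw [h]
        exact locC_mul (loc_loc (by omega) (by omega) (by omega))
          (loc_loc (by omega) (by omega) (by omega)) (loc_loc (by omega) (by omega) (by omega))

lemma op_loc (o l a p : ℕ) (ha : o ≤ a) (hap : a < p) (hp : p < o + l) (c : Constr)
    (h : c ∈ opEq a p ∨ c ∈ opLt a p ∨ c ∈ opAnd a p ∨ c ∈ opOr a p ∨ c ∈ opNot p) :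
    LocC o l c := by
  have key : ∀ s, s ≤ 9 → Loc o l (vi a s) ∧ Loc o l (vi (p - 1) s) ∧ Loc o l (vi p s) :=
    fun s hs => ⟨loc_loc (by omega) (by omega) hs, loc_loc (by omega) (by omega) hs,
      loc_loc (by omega) (by omega) hs⟩
  have k0 := key 0 (by omega)
  have k1 := key 1 (by omega)
  have k2 := key 2 (by omega)
  have k3 := key 3 (by omega)
  have k4 := key 4 (by omega)
  have k5 := key 5 (by omega)
  have k6 := key 6 (by omega)
  have k7 := key 7 (by omega)
  have k8 := key 8 (by omega)
  have k9 := key 9 (by omega)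
  have kz := loc_zero o l
  simp only [opEq, opLt, opAnd, opOr, opNot, List.mem_cons, List.not_mem_nil, or_false] at h
  rcases h with (h | h | h) | (h | h | h | h | h | h | h | h) | (h | h | h | h) | (h | h | h | h) |
    (h | h) <;> rw [h] <;> simp only [LocC, cAdd, cMul] <;> tauto

lemma form_loc : ∀ (φ : Formula) (o : ℕ), ∀ c ∈ φ.constr o, LocC o φ.enc.length c
  | .eq s t, o, c, h => by
      have l1 := tlen s
      have l2 := tlen t
      have e : (Formula.eq s t).enc.length = s.enc.length + t.enc.length + 1 := by
        simp [Formula.enc]; omega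
      rw [e]
      simp only [Formula.constr, List.mem_append] at h
      rcases h with (h | h) | h
      · exact (term_loc s o c h).mono le_rfl (by omega)
      · exact (term_loc t _ c h).mono (by omega) (by omega)
      · exact op_loc _ _ _ _ (by omega) (by omega) (by omega) c (Or.inl h)
  | .lt s t, o, c, h => by
      have l1 := tlen s
      have l2 := tlen t
      have e : (Formula.lt s t).enc.length = s.enc.length + t.enc.length + 1 := by
        simp [Formula.enc]; omega
      rw [e]
      simp only [Formula.constr, List.mem_append] at h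
      rcases h with (h | h) | h
      · exact (term_loc s o c h).mono le_rfl (by omega)
      · exact (term_loc t _ c h).mono (by omega) (by omega)
      · exact op_loc _ _ _ _ (by omega) (by omega) (by omega) c (Or.inr (Or.inl h))
  | .not φ, o, c, h => by
      have l1 := flen φ
      have e : (Formula.not φ).enc.length = φ.enc.length + 1 := by
        simp [Formula.enc]
      rw [e]
      simp only [Formula.constr, List.mem_append] at h
      rcases h with h | h
      · exact (form_loc φ o c h).mono le_rfl (by omega)
      · exact op_loc _ _ (o + φ.enc.length - 1) _ (by omega) (by omega) (by omega) c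
          (Or.inr (Or.inr (Or.inr (Or.inr h))))
  | .and φ ψ, o, c, h => by
      have l1 := flen φ
      have l2 := flen ψ
      have e : (Formula.and φ ψ).enc.length = φ.enc.length + ψ.enc.length + 1 := by
        simp [Formula.enc]; omega
      rw [e]
      simp only [Formula.constr, List.mem_append] at h
      rcases h with (h | h) | h
      · exact (form_loc φ o c h).mono le_rfl (by omega)
      · exact (form_loc ψ _ c h).mono (by omega) (by omega)
      · exact op_loc _ _ _ _ (by omega) (by omega) (by omega) c (Or.inr (Or.inr (Or.inl h)))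
  | .or φ ψ, o, c, h => by
      have l1 := flen φ
      have l2 := flen ψ
      have e : (Formula.or φ ψ).enc.length = φ.enc.length + ψ.enc.length + 1 := by
        simp [Formula.enc]; omega
      rw [e]
      simp only [Formula.constr, List.mem_append] at h
      rcases h with (h | h) | h
      · exact (form_loc φ o c h).mono le_rfl (by omega)
      · exact (form_loc ψ _ c h).mono (by omega) (by omega)
      · exact op_loc _ _ _ _ (by omega) (by omega) (by omega) c
          (Or.inr (Or.inr (Or.inr (Or.inl h))))

lemma mk_congr (y : ℕ → ℝ) {f g : ℕ → ℕ → ℝ} {o l k : ℕ}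
    (h : ∀ p, o ≤ p → p < o + l → f p = g p) (hk : Loc o l k) : mk y f k = mk y g k := by
  rcases hk with hk | ⟨i, hk⟩ | ⟨p, s, a, b, c, d⟩
  · rw [hk, mk_zero, mk_zero]
  · rw [hk, mk_var, mk_var]
  · rw [d, mk_loc _ _ _ _ c, mk_loc _ _ _ _ c, h p a b]

lemma holds_congr (y : ℕ → ℝ) {f g : ℕ → ℕ → ℝ} {o l : ℕ} {c : Constr}
    (h : ∀ p, o ≤ p → p < o + l → f p = g p) (hc : LocC o l c) (hh : c.Holds (mk y f)) :
    c.Holds (mk y g) := by
  unfold Constr.Holds at *
  rwa [mk_congr y h hc.1, mk_congr y h hc.2.1, mk_congr y h hc.2.2] at hh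

/-- merging two assignments and adding a node -/
lemma combine (y : ℕ → ℝ) (L₁ L₂ : List Constr) (o l₁ l₂ : ℕ) (hl₁ : 1 ≤ l₁) (hl₂ : 1 ≤ l₂)
    (hL₁ : ∀ c ∈ L₁, LocC o l₁ c) (hL₂ : ∀ c ∈ L₂, LocC (o + l₁) l₂ c) (f₁ f₂ : ℕ → ℕ → ℝ)
    (h₁ : ∀ c ∈ L₁, c.Holds (mk y f₁)) (h₂ : ∀ c ∈ L₂, c.Holds (mk y f₂)) (g : ℕ → ℝ) :
    ∃ f : ℕ → ℕ → ℝ, (∀ c ∈ L₁ ++ L₂, c.Holds (mk y f)) ∧
      f (o + l₁ - 1) = f₁ (o + l₁ - 1) ∧ f (o + l₁ + l₂ - 1) = f₂ (o + l₁ + l₂ - 1) ∧
      f (o + l₁ + l₂) = g := by
  refine ⟨fun p => if p < o + l₁ then f₁ p else if p < o + l₁ + l₂ then f₂ p else g,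
    fun c hc => ?_, ?_, ?_, ?_⟩
  · rcases List.mem_append.1 hc with hc | hc
    · refine holds_congr y (fun p _ h2 => ?_) (hL₁ c hc) (h₁ c hc)
      rw [if_pos h2]
    · refine holds_congr y (fun p h1 h2 => ?_) (hL₂ c hc) (h₂ c hc)
      rw [if_neg (by omega), if_pos h2]
  · simp only
    rw [if_pos (by omega)]
  · simp only
    rw [if_neg (by omega), if_pos (by omega)]
  · simp only
    rw [if_neg (by omega), if_neg (by omega)]

lemma combine1 (y : ℕ → ℝ) (L₁ : List Constr) (o l₁ : ℕ) (hl₁ : 1 ≤ l₁)
    (hL₁ : ∀ c ∈ L₁, LocC o l₁ c) (f₁ : ℕ → ℕ → ℝ)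
    (h₁ : ∀ c ∈ L₁, c.Holds (mk y f₁)) (g : ℕ → ℝ) :
    ∃ f : ℕ → ℕ → ℝ, (∀ c ∈ L₁, c.Holds (mk y f)) ∧
      f (o + l₁ - 1) = f₁ (o + l₁ - 1) ∧ f (o + l₁) = g := by
  refine ⟨fun p => if p < o + l₁ then f₁ p else g, fun c hc => ?_, ?_, ?_⟩
  · refine holds_congr y (fun p _ h2 => ?_) (hL₁ c hc) (h₁ c hc)
    rw [if_pos h2]
  · simp only
    rw [if_pos (by omega)]
  · simp only
    rw [if_neg (by omega)]

lemma term_complete (y : ℕ → ℝ) : ∀ (t : Term) (o : ℕ), ∃ f : ℕ → ℕ → ℝ,
    (∀ c ∈ t.constr o, c.Holds (mk y f)) ∧ f (o + t.enc.length - 1) 0 = t.eval y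
  | .zero, o => by
      refine ⟨fun _ _ => 0, fun c hc => ?_, rfl⟩
      rw [List.mem_singleton.1 hc, holds_add, mk_loc _ _ _ _ (by omega)]
      norm_num
  | .one, o => by
      refine ⟨fun _ _ => 1, fun c hc => ?_, rfl⟩
      rw [List.mem_singleton.1 hc, holds_mul, mk_loc _ _ _ _ (by omega), mk_zero]
      norm_num
  | .var i, o => by
      refine ⟨fun _ _ => y i, fun c hc => ?_, rfl⟩
      rw [List.mem_singleton.1 hc, holds_mul, mk_zero, mk_var, mk_loc _ _ _ _ (by omega)]
      norm_num
  | .add s t, o => by
      obtain ⟨f₁, h₁, e₁⟩ := term_complete y s o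
      obtain ⟨f₂, h₂, e₂⟩ := term_complete y t (o + s.enc.length)
      obtain ⟨f, hf, a1, a2, a3⟩ := combine y _ _ o _ _ (tlen s) (tlen t) (term_loc s o)
        (term_loc t _) f₁ f₂ h₁ h₂ (fun _ => s.eval y + t.eval y)
      refine ⟨f, fun c hc => ?_, ?_⟩
      · simp only [Term.constr] at hc
        rcases List.mem_append.1 hc with hc | hc
        · exact hf c hc
        · rw [List.mem_singleton.1 hc, holds_add, mk_loc _ _ _ _ (by omega),
            mk_loc _ _ _ _ (by omega), mk_loc _ _ _ _ (by omega), a1, a2, a3, e₁, e₂]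
      · have e : o + (Term.add s t).enc.length - 1 = o + s.enc.length + t.enc.length := by
          simp [Term.enc]; omega
        rw [e, a3]
        rfl
  | .mul s t, o => by
      obtain ⟨f₁, h₁, e₁⟩ := term_complete y s o
      obtain ⟨f₂, h₂, e₂⟩ := term_complete y t (o + s.enc.length)
      obtain ⟨f, hf, a1, a2, a3⟩ := combine y _ _ o _ _ (tlen s) (tlen t) (term_loc s o)
        (term_loc t _) f₁ f₂ h₁ h₂ (fun _ => s.eval y * t.eval y)
      refine ⟨f, fun c hc => ?_, ?_⟩
      · simp only [Term.constr] at hc
        rcases List.mem_append.1 hc with hc | hc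
        · exact hf c hc
        · rw [List.mem_singleton.1 hc, holds_mul, mk_loc _ _ _ _ (by omega),
            mk_loc _ _ _ _ (by omega), mk_loc _ _ _ _ (by omega), a1, a2, a3, e₁, e₂]
      · have e : o + (Term.mul s t).enc.length - 1 = o + s.enc.length + t.enc.length := by
          simp [Term.enc]; omega
        rw [e, a3]
        rfl

/-- values of the slots of a comparison `A = B` -/
noncomputable def gEq (A B : ℝ) (s : ℕ) : ℝ :=
  if s = 0 then A - B else if s = 1 then (if A = B then -1 else 0)
    else if s = 2 then (A - B)⁻¹ else if s = 3 then (if A = B then 0 else 1) else 0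

/-- values of the slots of a comparison `A < B` -/
noncomputable def gLt (A B : ℝ) (s : ℕ) : ℝ :=
  if s = 0 then (if A < B then 0 else -1)
  else if s = 1 then (if A < B then A - B else 0)
  else if s = 2 then B - A
  else if s = 3 then (if A < B then (Real.sqrt (B - A))⁻¹ else 0)
  else if s = 4 then (if A < B then (B - A)⁻¹ else 0)
  else if s = 5 then (if A < B then 1 else 0)
  else if s = 6 then (if A < B then 0 else Real.sqrt (A - B))
  else if s = 7 then (if A < B then 0 else A - B)
  else if s = 8 then A - B
  else 0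

lemma form_complete (y : ℕ → ℝ) : ∀ (φ : Formula) (o : ℕ), ∃ f : ℕ → ℕ → ℝ,
    (∀ c ∈ φ.constr o, c.Holds (mk y f)) ∧
      (φ.Holds y → f (o + φ.enc.length - 1) 0 = 0) ∧
      (¬ φ.Holds y → f (o + φ.enc.length - 1) 1 = 0)
  | .eq s t, o => by
      obtain ⟨f₁, h₁, e₁⟩ := term_complete y s o
      obtain ⟨f₂, h₂, e₂⟩ := term_complete y t (o + s.enc.length)
      obtain ⟨f, hf, a1, a2, a3⟩ := combine y _ _ o _ _ (tlen s) (tlen t) (term_loc s o)
        (term_loc t _) f₁ f₂ h₁ h₂ (gEq (s.eval y) (t.eval y))
      refine ⟨f, fun c hc => ?_, ?_⟩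
      · simp only [Formula.constr] at hc
        rcases List.mem_append.1 hc with hc | hc
        · exact hf c hc
        · simp only [opEq, List.mem_cons, List.not_mem_nil, or_false] at hc
          rcases hc with hc | hc | hc
          · rw [hc, holds_add, mk_loc _ _ _ _ (by omega), mk_loc _ _ _ _ (by omega),
              mk_loc _ _ _ _ (by omega), a1, a2, a3, e₁, e₂]
            simp [gEq]
          · rw [hc, holds_mul, mk_loc _ _ _ _ (by omega), mk_loc _ _ _ _ (by omega),
              mk_loc _ _ _ _ (by omega), a3]
            by_cases hAB : s.eval y = t.eval y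
            · simp [gEq, hAB]
            · simp [gEq, hAB, sub_ne_zero.2 hAB]
          · rw [hc, holds_add, mk_loc _ _ _ _ (by omega), mk_zero,
              mk_loc _ _ _ _ (by omega), a3]
            by_cases hAB : s.eval y = t.eval y
            · simp [gEq, hAB]
            · simp [gEq, hAB]
      · have e : o + (Formula.eq s t).enc.length - 1 = o + s.enc.length + t.enc.length := by
          simp [Formula.enc]; omega
        rw [e, a3]
        simp only [Formula.Holds]
        refine ⟨fun hAB => ?_, fun hAB => ?_⟩
        · simp [gEq, hAB]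
        · simp [gEq, hAB]
  | .lt s t, o => by
      obtain ⟨f₁, h₁, e₁⟩ := term_complete y s o
      obtain ⟨f₂, h₂, e₂⟩ := term_complete y t (o + s.enc.length)
      obtain ⟨f, hf, a1, a2, a3⟩ := combine y _ _ o _ _ (tlen s) (tlen t) (term_loc s o)
        (term_loc t _) f₁ f₂ h₁ h₂ (gLt (s.eval y) (t.eval y))
      refine ⟨f, fun c hc => ?_, ?_⟩
      · simp only [Formula.constr] at hc
        rcases List.mem_append.1 hc with hc | hc
        · exact hf c hc
        · simp only [opLt, List.mem_cons, List.not_mem_nil, or_false] at hc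
          generalize hA : s.eval y = A at *
          generalize hB : t.eval y = B at *
          rcases hc with hc | hc | hc | hc | hc | hc | hc | hc
          · rw [hc, holds_add, mk_loc _ _ _ _ (by omega), mk_loc _ _ _ _ (by omega),
              mk_loc _ _ _ _ (by omega), a1, a2, a3, e₁, e₂]
            simp [gLt]
          · rw [hc, holds_mul, mk_loc _ _ _ _ (by omega), mk_loc _ _ _ _ (by omega), a3]
            by_cases hAB : A < B
            · simp only [gLt, hAB]
              norm_num
              rw [← mul_inv, Real.mul_self_sqrt (by linarith)]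
            · simp [gLt, hAB]
          · rw [hc, holds_mul, mk_loc _ _ _ _ (by omega), mk_loc _ _ _ _ (by omega),
              mk_loc _ _ _ _ (by omega), a3]
            by_cases hAB : A < B
            · simp [gLt, hAB, sub_ne_zero.2 hAB.ne']
            · simp [gLt, hAB]
          · rw [hc, holds_add, mk_loc _ _ _ _ (by omega), mk_zero, mk_loc _ _ _ _ (by omega), a3]
            by_cases hAB : A < B
            · simp [gLt, hAB]
            · simp [gLt, hAB]
          · rw [hc, holds_mul, mk_loc _ _ _ _ (by omega), mk_loc _ _ _ _ (by omega), a3]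
            by_cases hAB : A < B
            · simp [gLt, hAB]
            · simp only [gLt, hAB]
              norm_num
              exact Real.mul_self_sqrt (by linarith)
          · rw [hc, holds_add, mk_loc _ _ _ _ (by omega), mk_loc _ _ _ _ (by omega),
              mk_loc _ _ _ _ (by omega), a3]
            by_cases hAB : A < B
            · simp [gLt, hAB]
            · simp [gLt, hAB]
          · rw [hc, holds_add, mk_loc _ _ _ _ (by omega), mk_loc _ _ _ _ (by omega),
              mk_loc _ _ _ _ (by omega), a3]
            simp [gLt]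
          · rw [hc, holds_add, mk_loc _ _ _ _ (by omega), a3]
            simp [gLt]
      · have e : o + (Formula.lt s t).enc.length - 1 = o + s.enc.length + t.enc.length := by
          simp [Formula.enc]; omega
        rw [e, a3]
        simp only [Formula.Holds]
        refine ⟨fun hAB => ?_, fun hAB => ?_⟩
        · simp [gLt, hAB]
        · simp [gLt, hAB]
  | .not φ, o => by
      obtain ⟨f₁, h₁, e₁, e₁'⟩ := form_complete y φ o
      obtain ⟨f, hf, a1, a3⟩ := combine1 y _ o _ (flen φ) (form_loc φ o) f₁ h₁
        (fun s => if s = 0 then f₁ (o + φ.enc.length - 1) 1 else f₁ (o + φ.enc.length - 1) 0)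
      refine ⟨f, fun c hc => ?_, ?_⟩
      · simp only [Formula.constr] at hc
        rcases List.mem_append.1 hc with hc | hc
        · exact hf c hc
        · simp only [opNot, List.mem_cons, List.not_mem_nil, or_false] at hc
          rcases hc with hc | hc <;>
            rw [hc, holds_mul, mk_loc _ _ _ _ (by omega), mk_zero, mk_loc _ _ _ _ (by omega),
              a1, a3] <;> simp
      · have e : o + (Formula.not φ).enc.length - 1 = o + φ.enc.length := by
          simp [Formula.enc]
        rw [e, a3]
        simp only [Formula.Holds, not_not]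
        exact ⟨fun h => by simpa using e₁' h, fun h => by simpa using e₁ h⟩
  | .and φ ψ, o => by
      obtain ⟨f₁, h₁, e₁, e₁'⟩ := form_complete y φ o
      obtain ⟨f₂, h₂, e₂, e₂'⟩ := form_complete y ψ (o + φ.enc.length)
      set a := o + φ.enc.length - 1 with ha
      set b := o + φ.enc.length + ψ.enc.length - 1 with hb
      obtain ⟨f, hf, a1, a2, a3⟩ := combine y _ _ o _ _ (flen φ) (flen ψ) (form_loc φ o)
        (form_loc ψ _) f₁ f₂ h₁ h₂
        (fun s => if s = 0 then f₁ a 0 * f₁ a 0 + f₂ b 0 * f₂ b 0
          else if s = 1 then f₁ a 1 * f₂ b 1 else if s = 2 then f₁ a 0 * f₁ a 0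
          else f₂ b 0 * f₂ b 0)
      rw [← ha] at a1
      rw [← hb] at a2
      refine ⟨f, fun c hc => ?_, ?_⟩
      · simp only [Formula.constr] at hc
        rcases List.mem_append.1 hc with hc | hc
        · exact hf c hc
        · rw [← ha] at hc
          simp only [opAnd, List.mem_cons, List.not_mem_nil, or_false] at hc
          rw [← hb] at hc
          rcases hc with hc | hc | hc | hc
          · rw [hc, holds_mul, mk_loc _ _ _ _ (by omega), mk_loc _ _ _ _ (by omega), a1, a3]
            simp
          · rw [hc, holds_mul, mk_loc _ _ _ _ (by omega), mk_loc _ _ _ _ (by omega), a2, a3]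
            simp
          · rw [hc, holds_add, mk_loc _ _ _ _ (by omega), mk_loc _ _ _ _ (by omega),
              mk_loc _ _ _ _ (by omega), a3]
            simp
          · rw [hc, holds_mul, mk_loc _ _ _ _ (by omega), mk_loc _ _ _ _ (by omega),
              mk_loc _ _ _ _ (by omega), a1, a2, a3]
            simp
      · have e : o + (Formula.and φ ψ).enc.length - 1 = o + φ.enc.length + ψ.enc.length := by
          simp [Formula.enc]; omega
        rw [e, a3]
        simp only [Formula.Holds]
        refine ⟨fun h => ?_, fun h => ?_⟩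
        · simp [e₁ h.1, e₂ h.2]
        · rcases not_and_or.1 h with h | h
          · simp [e₁' h]
          · simp [e₂' h]
  | .or φ ψ, o => by
      obtain ⟨f₁, h₁, e₁, e₁'⟩ := form_complete y φ o
      obtain ⟨f₂, h₂, e₂, e₂'⟩ := form_complete y ψ (o + φ.enc.length)
      set a := o + φ.enc.length - 1 with ha
      set b := o + φ.enc.length + ψ.enc.length - 1 with hb
      obtain ⟨f, hf, a1, a2, a3⟩ := combine y _ _ o _ _ (flen φ) (flen ψ) (form_loc φ o)
        (form_loc ψ _) f₁ f₂ h₁ h₂
        (fun s => if s = 1 then f₁ a 1 * f₁ a 1 + f₂ b 1 * f₂ b 1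
          else if s = 0 then f₁ a 0 * f₂ b 0 else if s = 2 then f₁ a 1 * f₁ a 1
          else f₂ b 1 * f₂ b 1)
      rw [← ha] at a1
      rw [← hb] at a2
      refine ⟨f, fun c hc => ?_, ?_⟩
      · simp only [Formula.constr] at hc
        rcases List.mem_append.1 hc with hc | hc
        · exact hf c hc
        · rw [← ha] at hc
          simp only [opOr, List.mem_cons, List.not_mem_nil, or_false] at hc
          rw [← hb] at hc
          rcases hc with hc | hc | hc | hc
          · rw [hc, holds_mul, mk_loc _ _ _ _ (by omega), mk_loc _ _ _ _ (by omega), a1, a3]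
            simp
          · rw [hc, holds_mul, mk_loc _ _ _ _ (by omega), mk_loc _ _ _ _ (by omega), a2, a3]
            simp
          · rw [hc, holds_add, mk_loc _ _ _ _ (by omega), mk_loc _ _ _ _ (by omega),
              mk_loc _ _ _ _ (by omega), a3]
            simp
          · rw [hc, holds_mul, mk_loc _ _ _ _ (by omega), mk_loc _ _ _ _ (by omega),
              mk_loc _ _ _ _ (by omega), a1, a2, a3]
            simp
      · have e : o + (Formula.or φ ψ).enc.length - 1 = o + φ.enc.length + ψ.enc.length := by
          simp [Formula.enc]; omega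
        rw [e, a3]
        simp only [Formula.Holds, not_or]
        refine ⟨fun h => ?_, fun h => ?_⟩
        · rcases h with h | h
          · simp [e₁ h]
          · simp [e₂ h]
        · simp [e₁' h.1, e₂' h.2]

end EtrJob

open EtrJob in
/-- job A-ETR -/
theorem target_Etr : TargetEtr := by
  intro φ
  have l := flen φ
  constructor
  · rintro ⟨y, hy⟩
    obtain ⟨f, hf, e, -⟩ := form_complete y φ 0
    refine ⟨mk y f, mk_zero _ _, fun c hc => ?_⟩
    rcases List.mem_append.1 hc with hc | hc
    · exact hf c hc
    · have e' := e hy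
      rw [Nat.zero_add] at e'
      rw [List.mem_singleton.1 hc, holds_add, mk_loc _ _ _ _ (by omega), e']
      norm_num
  · rintro ⟨x, h0, h⟩
    refine ⟨fun i => x (vi i 15), (form_sound x h0 φ 0 fun c hc =>
      h c (List.mem_append_left _ hc)).1 ?_⟩
    have h3 := h _ (List.mem_append_right _ (List.mem_singleton.2 rfl))
    rw [holds_add] at h3
    rw [Nat.zero_add]
    linarith

end Pool.Agent.PAH
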