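import Pool.Agent.PAH.Targets

set_option autoImplicit false

/-!
# A-EXT: from the equations of the nodes to all relations of the fabric
-/

namespace Pool.Agent.PAH

namespace Ext

/-- column sums -/
noncomputable def cs (ξ : ℕ → ℕ → ℝ) (k j : ℕ) : ℝ := ∑ i ∈ Finset.range k, ξ (i + 1) j

lemma cs_zero (ξ : ℕ → ℕ → ℝ) (j : ℕ) : cs ξ 0 j = 0 := by simp [cs]

lemma cs_succ (ξ : ℕ → ℕ → ℝ) (k j : ℕ) : cs ξ (k + 1) j = cs ξ k j + ξ (k + 1) j := by
  simp [cs, Finset.sum_range_succ]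

lemma cs_bound {ξ : ℕ → ℕ → ℝ} {ε : ℝ} (h : ∀ i j, |ξ i j| ≤ ε) (k j : ℕ) :
    |cs ξ k j| ≤ k * ε := by
  unfold cs
  refine le_trans (Finset.abs_sum_le_sum_abs _ _) ?_
  calc ∑ i ∈ Finset.range k, |ξ (i + 1) j| ≤ ∑ _i ∈ Finset.range k, ε :=
        Finset.sum_le_sum fun i _ => h _ _
    _ = k * ε := by simp

lemma node_diff {t : Ty} {x y x' y' : ℝ} (h : NodeRel t x y x' y') : x' = x - (y' - y) := by
  cases t with
  | C =>
    obtain ⟨h1, h2⟩ := h
    rw [h1, h2]; ring
  | A =>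
    obtain ⟨h1, h2⟩ := h
    rw [h1, h2]; ring
  | P =>
    obtain ⟨h1, h2⟩ := h
    rw [h1, h2]; ring

lemma cs_step {n m : ℕ} {τ : ℕ → ℕ → Ty} {ξ η : ℕ → ℕ → ℝ} (h : Sol n m τ ξ η) {j : ℕ}
    (h1 : 1 ≤ j) (h2 : j ≤ m) : ∀ k, k ≤ n → cs ξ k (j + 1) = cs ξ k j - η (k + 1) j := by
  intro k
  induction k with
  | zero =>
    intro _
    rw [cs_zero, cs_zero, h.bot j h1 h2]
    ring
  | succ k ih =>
    intro hk
    rw [cs_succ, cs_succ, ih (by omega), node_diff (h.node (k + 1) j (by omega) hk h1 h2)]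
    ring

lemma cs_const {n m : ℕ} {τ : ℕ → ℕ → Ty} {ξ η : ℕ → ℕ → ℝ} (h : Sol n m τ ξ η) :
    ∀ j, j ≤ m → cs ξ n (j + 1) = cs ξ n 1 := by
  intro j
  induction j with
  | zero => intro _; rfl
  | succ j ih =>
    intro hj
    rw [cs_step h (by omega) hj n (le_refl _), ih (by omega), h.top (j + 1) (by omega) hj]
    ring

/-- extended horizontal displacements -/
noncomputable def xx (n m : ℕ) (ξ : ℕ → ℕ → ℝ) (i j : ℕ) : ℝ :=
  if 1 ≤ j ∧ j ≤ m + 1 then
    if 1 ≤ i ∧ i ≤ n then ξ i j else if i = n + 1 then - cs ξ n 1 else 0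
  else 0

/-- extended vertical displacements -/
noncomputable def yy (n m : ℕ) (ξ η : ℕ → ℕ → ℝ) (i j : ℕ) : ℝ :=
  if 2 ≤ i ∧ i ≤ n + 1 then
    if j = 0 then - cs ξ (i - 1) 1 else if j ≤ m then η i j else
      if j = m + 1 then cs ξ (i - 1) (m + 1) else 0
  else 0

end Ext

open Ext in
/-- A-EXT -/
theorem aExt : TargetExt := by
  intro n m τ ξ η ε hε hn h hξ hη
  have hnn : (0 : ℝ) ≤ n := Nat.cast_nonneg n
  have hb0 : 0 ≤ ((n : ℝ) + 2) * ε := by positivity
  have hb1 : ε ≤ ((n : ℝ) + 2) * ε := by nlinarith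
  have hbk : ∀ k, k ≤ n → ∀ j, |cs ξ k j| ≤ ((n : ℝ) + 2) * ε := by
    intro k hk j
    refine le_trans (cs_bound hξ k j) ?_
    have : (k : ℝ) ≤ n := by exact_mod_cast hk
    nlinarith
  refine ⟨xx n m ξ, yy n m ξ η, ⟨?_, ?_, ?_, ?_, ?_, ?_⟩, ⟨?_, ?_, ?_, ?_⟩, ?_, ?_, ?_⟩
  · intro i
    simp [xx]
  · intro i
    simp [xx]
  · intro j
    simp [xx]
  · intro j
    simp [yy]
  · intro j
    simp [yy]
  · intro j
    simp [yy]
  · intro i j hi1 hi2 hj1 hj2
    have e1 : xx n m ξ i j = ξ i j := by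
      unfold xx
      rw [if_pos ⟨hj1, by omega⟩, if_pos ⟨hi1, hi2⟩]
    have e2 : xx n m ξ i (j + 1) = ξ i (j + 1) := by
      unfold xx
      rw [if_pos ⟨by omega, by omega⟩, if_pos ⟨hi1, hi2⟩]
    have e3 : yy n m ξ η (i + 1) j = η (i + 1) j := by
      unfold yy
      rw [if_pos ⟨by omega, by omega⟩, if_neg (by omega), if_pos hj2]
    have e4 : yy n m ξ η i j = η i j := by
      unfold yy
      by_cases h1 : i = 1
      · subst h1
        rw [if_neg (by omega), h.bot j hj1 hj2]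
      · rw [if_pos ⟨by omega, by omega⟩, if_neg (by omega), if_pos hj2]
    rw [e1, e2, e3, e4]
    exact h.node i j hi1 hi2 hj1 hj2
  · intro j hj1 hj2
    constructor
    · have e1 : ∀ j', 1 ≤ j' → j' ≤ m + 1 → xx n m ξ (n + 1) j' = - cs ξ n 1 := by
        intro j' h1 h2
        unfold xx
        rw [if_pos ⟨h1, h2⟩, if_neg (by omega), if_pos rfl]
      rw [e1 _ (by omega) (by omega), e1 _ hj1 (by omega)]
    · unfold yy
      rw [if_pos ⟨by omega, by omega⟩, if_neg (by omega), if_pos hj2]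
      exact h.top j hj1 hj2
  · intro i hi1 hi2
    by_cases hin : i ≤ n
    · have e1 : yy n m ξ η (i + 1) 0 = - cs ξ i 1 := by
        unfold yy
        rw [if_pos ⟨by omega, by omega⟩, if_pos rfl]
        simp
      have e2 : yy n m ξ η i 0 = - cs ξ (i - 1) 1 := by
        unfold yy
        by_cases h1 : i = 1
        · subst h1
          rw [if_neg (by omega)]
          simp [cs_zero]
        · rw [if_pos ⟨by omega, by omega⟩, if_pos rfl]
      have e3 : xx n m ξ i 1 = ξ i 1 := by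
        unfold xx
        rw [if_pos ⟨by omega, by omega⟩, if_pos ⟨hi1, hin⟩]
      obtain ⟨k, rfl⟩ : ∃ k, i = k + 1 := ⟨i - 1, by omega⟩
      rw [e1, e2, e3, cs_succ, Nat.add_sub_cancel]
      ring
    · have hi : i = n + 1 := by omega
      subst hi
      have e1 : yy n m ξ η (n + 1 + 1) 0 = 0 := by
        unfold yy
        rw [if_neg (by omega)]
      have e2 : yy n m ξ η (n + 1) 0 = - cs ξ n 1 := by
        unfold yy
        rw [if_pos ⟨by omega, by omega⟩, if_pos rfl]
        simp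
      have e3 : xx n m ξ (n + 1) 1 = - cs ξ n 1 := by
        unfold xx
        rw [if_pos ⟨by omega, by omega⟩, if_neg (by omega), if_pos rfl]
      rw [e1, e2, e3]
      ring
  · intro i hi1 hi2
    by_cases hin : i ≤ n
    · have e1 : yy n m ξ η (i + 1) (m + 1) = cs ξ i (m + 1) := by
        unfold yy
        rw [if_pos ⟨by omega, by omega⟩, if_neg (by omega), if_neg (by omega), if_pos rfl]
        simp
      have e2 : yy n m ξ η i (m + 1) = cs ξ (i - 1) (m + 1) := by
        unfold yy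
        by_cases h1 : i = 1
        · subst h1
          rw [if_neg (by omega)]
          simp [cs_zero]
        · rw [if_pos ⟨by omega, by omega⟩, if_neg (by omega), if_neg (by omega), if_pos rfl]
      have e3 : xx n m ξ i (m + 1) = ξ i (m + 1) := by
        unfold xx
        rw [if_pos ⟨by omega, by omega⟩, if_pos ⟨hi1, hin⟩]
      obtain ⟨k, rfl⟩ : ∃ k, i = k + 1 := ⟨i - 1, by omega⟩
      rw [e1, e2, e3, cs_succ, Nat.add_sub_cancel]
    · have hi : i = n + 1 := by omega
      subst hi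
      have e1 : yy n m ξ η (n + 1 + 1) (m + 1) = 0 := by
        unfold yy
        rw [if_neg (by omega)]
      have e2 : yy n m ξ η (n + 1) (m + 1) = cs ξ n (m + 1) := by
        unfold yy
        rw [if_pos ⟨by omega, by omega⟩, if_neg (by omega), if_neg (by omega), if_pos rfl]
        simp
      have e3 : xx n m ξ (n + 1) (m + 1) = - cs ξ n 1 := by
        unfold xx
        rw [if_pos ⟨by omega, by omega⟩, if_neg (by omega), if_pos rfl]
      rw [e1, e2, e3, cs_const h m (le_refl _)]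
      ring
  · unfold xx
    rw [if_pos ⟨by omega, by omega⟩, if_pos ⟨by omega, hn⟩]
  · intro i j
    unfold xx
    split_ifs
    · exact le_trans (hξ i j) hb1
    · rw [abs_neg]
      exact hbk n (le_refl _) 1
    · rw [abs_zero]; exact hb0
    · rw [abs_zero]; exact hb0
  · intro i j
    unfold yy
    split_ifs with h1 h2 h3 h4
    · rw [abs_neg]
      exact hbk (i - 1) (by omega) 1
    · exact le_trans (hη i j) hb1
    · exact hbk (i - 1) (by omega) (m + 1)
    · rw [abs_zero]; exact hb0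
    · rw [abs_zero]; exact hb0

end Pool.Agent.PAH
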