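import Pool.Agent.PAH.Targets

set_option autoImplicit false

/-!
# F-IDS: identifiers of the macros of the fabric are pairwise different
-/

namespace Pool.Agent.PAH

/-- identifiers are different -/
def IdNe (q q' : Quad) : Prop := (q.x, q.y, q.t) ≠ (q'.x, q'.y, q'.t)

theorem idNe_iff (q q' : Quad) : IdNe q q' ↔ ¬ (q.x = q'.x ∧ q.y = q'.y ∧ q.t = q'.t) := by
  simp [IdNe]

/-- facts about the identifiers of the quads of a block -/
theorem block_ids (I J i' j : ℕ) : ∀ q ∈ blockQuads I J i' j,
    q.t = 0 ∧ (q.x = 3 * j + 3 ∨ q.x = 3 * j + 4 ∨ q.x = 3 * j + 5) ∧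
      (q.y = 3 * i' + 2 ∨ q.y = 3 * i' + 3 ∨ q.y = 3 * i' + 4) ∧ (q.x = 3 * j + 5 ∨ q.y = 3 * i' + 4) := by
  intro q hq
  unfold blockQuads at hq
  split_ifs at hq <;>
  · simp only [List.mem_append, List.mem_cons, List.not_mem_nil, or_false] at hq
    rcases hq with h | h
    · rcases h with h | h
      · subst h; simp [unitQ]
      · first
        | (rcases h with h | h <;> subst h <;> simp [unitQ])
        | (subst h; simp [tallQ])
    · first
      | (rcases h with h | h <;> subst h <;> simp [unitQ])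
      | (subst h; simp [wideQ])

theorem block_pairwise (I J i' j : ℕ) : (blockQuads I J i' j).Pairwise IdNe := by
  unfold blockQuads
  split_ifs <;>
    simp [idNe_iff, unitQ, tallQ, wideQ]

/-- facts about the identifiers of the frame -/
theorem frame_ids (I J : ℕ) : ∀ q ∈ frameQuads I J,
    1 ≤ q.t ∨ (q.x = 3 ∧ q.y = 2) := by
  intro q hq
  unfold frameQuads at hq
  simp only [List.mem_append, List.mem_flatMap, List.mem_range, List.mem_cons, List.not_mem_nil,
    or_false] at hq
  rcases hq with ((⟨y, hy, h | h⟩ | (h | h)) | ⟨y, hy, h | h⟩) | (h | h) <;> subst h <;> simp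

theorem frame_pairwise (I J : ℕ) : (frameQuads I J).Pairwise IdNe := by
  unfold frameQuads
  simp only [List.pairwise_append, List.pairwise_flatMap, List.mem_append, List.mem_flatMap,
    List.mem_range, List.mem_cons, List.not_mem_nil, or_false]
  refine ⟨⟨⟨⟨?_, ?_⟩, ?_, ?_⟩, ⟨?_, ?_⟩, ?_⟩, ?_, ?_⟩
  · intro y _
    simp [idNe_iff]
  · refine List.pairwise_lt_range.imp ?_
    intro y y' h q hq q' hq'
    rcases hq with hq | hq <;> rcases hq' with hq' | hq' <;> subst hq <;> subst hq' <;>
      simp only [idNe_iff] <;> omega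
  · simp [idNe_iff]
  · rintro q ⟨y, hy, hq⟩ q' hq'
    rcases hq with hq | hq <;> rcases hq' with hq' | hq' <;> subst hq <;> subst hq' <;>
      simp only [idNe_iff] <;> omega
  · intro y _
    simp [idNe_iff]
  · refine List.pairwise_lt_range.imp ?_
    intro y y' h q hq q' hq'
    rcases hq with hq | hq <;> rcases hq' with hq' | hq' <;> subst hq <;> subst hq' <;>
      simp only [idNe_iff] <;> omega
  · rintro q hq q' ⟨y', hy', hq'⟩
    rcases hq with ⟨y, hy, hq | hq⟩ | hq | hq <;> rcases hq' with hq' | hq' <;> subst hq <;>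
      subst hq' <;> simp only [idNe_iff] <;> omega
  · simp [idNe_iff]
  · rintro q hq q' hq'
    rcases hq with (⟨y, hy, hq | hq⟩ | hq | hq) | ⟨y, hy, hq | hq⟩ <;>
      rcases hq' with hq' | hq' <;> subst hq <;>
      subst hq' <;> simp only [idNe_iff] <;> omega

theorem pairwise_ids (n m : ℕ) : (fabricQuads n m).Pairwise IdNe := by
  unfold fabricQuads
  rw [List.pairwise_append]
  refine ⟨frame_pairwise _ _, ?_, ?_⟩
  · rw [List.pairwise_flatMap]
    refine ⟨?_, ?_⟩
    · intro i' _
      rw [List.pairwise_flatMap]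
      refine ⟨fun j _ => block_pairwise _ _ _ _, ?_⟩
      refine List.pairwise_lt_range.imp ?_
      intro j j' h q hq q' hq'
      have h1 := block_ids _ _ _ _ q hq
      have h2 := block_ids _ _ _ _ q' hq'
      rw [idNe_iff]
      omega
    · refine List.pairwise_lt_range.imp ?_
      intro i i' h q hq q' hq'
      rw [List.mem_flatMap] at hq hq'
      obtain ⟨j, _, hq⟩ := hq
      obtain ⟨j', _, hq'⟩ := hq'
      have h1 := block_ids _ _ _ _ q hq
      have h2 := block_ids _ _ _ _ q' hq'
      rw [idNe_iff]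
      omega
  · intro q hq q' hq'
    simp only [List.mem_flatMap] at hq'
    obtain ⟨i', _, j', _, hq'⟩ := hq'
    have h1 := frame_ids _ _ q hq
    have h2 := block_ids _ _ _ _ q' hq'
    rw [idNe_iff]
    omega

/-- corners and sizes of the quads -/
def QOk (q : Quad) : Prop := q.t ≤ 2 ∧ 1 ≤ q.M ∧ ∀ v ∈ [q.a, q.b, q.c, q.d], v.2.2 = 0 ∨ v = vq

theorem frame_ok (I J : ℕ) : ∀ q ∈ frameQuads I J, QOk q := by
  intro q hq
  unfold frameQuads at hq
  simp only [List.mem_append, List.mem_flatMap, List.mem_range, List.mem_cons, List.not_mem_nil,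
    or_false] at hq
  rcases hq with ((⟨y, hy, h | h⟩ | (h | h)) | ⟨y, hy, h | h⟩) | (h | h) <;> subst h <;>
    simp [QOk, pt]

theorem block_ok (I J i' j : ℕ) : ∀ q ∈ blockQuads I J i' j, QOk q := by
  intro q hq
  unfold blockQuads at hq
  split_ifs at hq <;>
  · simp only [List.mem_append, List.mem_cons, List.not_mem_nil, or_false] at hq
    rcases hq with h | h
    · rcases h with h | h
      · subst h; simp [unitQ, QOk, pt]
      · first
        | (rcases h with h | h <;> subst h <;> simp [unitQ, QOk, pt])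
        | (subst h; simp [tallQ, QOk, pt])
    · first
      | (rcases h with h | h <;> subst h <;> simp [unitQ, QOk, pt])
      | (subst h; simp [wideQ, QOk, pt])

/-- allowed vertices of plain faces -/
def VOk (v : VX) : Prop := v.2.2 = 0 ∨ v = vq ∨ v = vo1 ∨ v = vo2 ∨ v = vo3

theorem vok_pt (x y : ℕ) : VOk (pt x y) := Or.inl rfl
theorem vok_vq : VOk vq := Or.inr (Or.inl rfl)
theorem vok_vo1 : VOk vo1 := Or.inr (Or.inr (Or.inl rfl))
theorem vok_vo2 : VOk vo2 := Or.inr (Or.inr (Or.inr (Or.inl rfl)))
theorem vok_vo3 : VOk vo3 := Or.inr (Or.inr (Or.inr (Or.inr rfl)))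

theorem hole_ok (I J : ℕ) (τ : ℕ → ℕ → Ty) (i' j : ℕ) : ∀ f ∈ holeFaces I J τ i' j,
    ∀ v ∈ f.1, VOk v := by
  unfold holeFaces
  dsimp only
  split_ifs
  all_goals try split
  all_goals simp only [List.forall_mem_cons, List.not_mem_nil, false_imp_iff, implies_true,
    and_true, vok_pt, vok_vq]

theorem outer_ok (I J : ℕ) : ∀ f ∈ outerFaces I J, ∀ v ∈ f.1, VOk v := by
  intro f hf v hv
  unfold outerFaces at hf
  simp only [List.mem_cons, List.not_mem_nil, or_false] at hf
  rcases hf with h | h | h <;> subst h <;>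
    simp only [List.mem_append, List.mem_flatMap, List.mem_map, List.mem_reverse, List.mem_cons,
      List.not_mem_nil, or_false] at hv
  · rcases hv with ((h | h) | ⟨l, _, h⟩) | h | h <;> subst h <;>
      first | exact vok_vo1 | exact vok_pt _ _ | exact vok_vo3
  · rcases hv with (h | ⟨l, _, h | h⟩) | h | h | h <;> subst h <;>
      first | exact vok_vo2 | exact vok_pt _ _ | exact vok_vo1
  · rcases hv with (((h | ⟨l, _, h⟩) | h | h) | ⟨l, _, h | h⟩) | h <;> subst h <;>
      first | exact vok_vo3 | exact vok_pt _ _ | exact vok_vo2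

/-- F-IDS -/
theorem target_ids : TargetIds := by
  intro n m
  refine ⟨pairwise_ids n m, ?_, ?_⟩
  · intro q hq
    unfold fabricQuads at hq
    simp only [List.mem_append, List.mem_flatMap] at hq
    rcases hq with hq | ⟨i', _, j', _, hq⟩
    · exact frame_ok _ _ q hq
    · exact block_ok _ _ _ _ q hq
  · intro τ f hf
    unfold fabricPlain at hf
    simp only [List.mem_append, List.mem_flatMap] at hf
    rcases hf with ⟨i', _, j', _, hf⟩ | hf
    · exact hole_ok _ _ _ _ _ f hf
    · exact outer_ok _ _ f hf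

end Pool.Agent.PAH
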