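import Pool.Agent.PAH.Targets

set_option autoImplicit false

/-!
# F-NODES: node relations from the hole faces
-/

namespace Pool.Agent.PAH

theorem fn_shoe3 (p : VX → Plane) (a b c : VX) : shoelace p [a, b, c] =
    ((p a).1 * (p b).2 - (p a).2 * (p b).1) + ((p b).1 * (p c).2 - (p b).2 * (p c).1) +
    ((p c).1 * (p a).2 - (p c).2 * (p a).1) := by
  simp [shoelace, wsum, dartsOf]
  ring

theorem fn_shoe4 (p : VX → Plane) (a b c d : VX) : shoelace p [a, b, c, d] =
    ((p a).1 * (p b).2 - (p a).2 * (p b).1) + ((p b).1 * (p c).2 - (p b).2 * (p c).1) +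
    ((p c).1 * (p d).2 - (p c).2 * (p d).1) + ((p d).1 * (p a).2 - (p d).2 * (p a).1) := by
  simp [shoelace, wsum, dartsOf]
  ring

theorem fn_shoe5 (p : VX → Plane) (a b c d e : VX) : shoelace p [a, b, c, d, e] =
    ((p a).1 * (p b).2 - (p a).2 * (p b).1) + ((p b).1 * (p c).2 - (p b).2 * (p c).1) +
    ((p c).1 * (p d).2 - (p c).2 * (p d).1) + ((p d).1 * (p e).2 - (p d).2 * (p e).1) +
    ((p e).1 * (p a).2 - (p e).2 * (p a).1) := by
  simp [shoelace, wsum, dartsOf]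
  ring

theorem fn_mem {n m : ℕ} {τ : ℕ → ℕ → Ty} {i' j : ℕ} (hi : i' ≤ n) (hj : j ≤ m + 1)
    {f : List VX × ℕ} (hf : f ∈ holeFaces (n + 1) (m + 1) τ i' j) : f ∈ fabricPlain n m τ := by
  unfold fabricPlain
  refine List.mem_append_left _ ?_
  rw [List.mem_flatMap]
  refine ⟨i', List.mem_range.mpr (by omega), ?_⟩
  rw [List.mem_flatMap]
  exact ⟨j, List.mem_range.mpr (by omega), hf⟩

/-- positions around the hole `(i + 1, j + 1)` -/
structure FnPos (p : VX → Plane) (i j : ℕ) (x x' y y' : ℝ) : Prop where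
  sw : p (pt (3 * j + 6) (3 * i + 2)) = lat (3 * j + 6) (3 * i + 2)
  S : p (pt (3 * j + 7) (3 * i + 2)) = lat (3 * j + 7) (3 * i + 2) + (0, y)
  se : p (pt (3 * j + 8) (3 * i + 2)) = lat (3 * j + 8) (3 * i + 2)
  W : p (pt (3 * j + 6) (3 * i + 3)) = lat (3 * j + 6) (3 * i + 3) + (x, 0)
  E : p (pt (3 * j + 8) (3 * i + 3)) = lat (3 * j + 8) (3 * i + 3) + (x', 0)
  nw : p (pt (3 * j + 6) (3 * i + 4)) = lat (3 * j + 6) (3 * i + 4)
  ne : p (pt (3 * j + 8) (3 * i + 4)) = lat (3 * j + 8) (3 * i + 4)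

theorem fn_pos {n m : ℕ} {p : VX → Plane} {ξ η : ℕ → ℕ → ℝ} (hF : Framed n m p)
    (hη : ∀ j, η 1 j = 0) (hR : Rigid n m p ξ η) {i j : ℕ} (hi : i ≤ n) (hj : j + 1 ≤ m) :
    FnPos p i j (ξ (i + 1) (j + 1)) (ξ (i + 1) (j + 2)) (η (i + 1) (j + 1))
      (η (i + 2) (j + 1)) := by
  have c1 := hR.cell (i + 1) j (by omega) (by omega) (by omega)
  have c2 := hR.cell (i + 1) (j + 1) (by omega) (by omega) (by omega)
  have x1 := hR.xs (i + 1) j (by omega) (by omega) (by omega)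
  have x2 := hR.xs (i + 1) (j + 1) (by omega) (by omega) (by omega)
  have e1 : 3 * (i + 1) + 1 = 3 * i + 4 := by ring
  have e2 : 3 * (j + 1) + 5 = 3 * j + 8 := by ring
  have e3 : 3 * (i + 1) = 3 * i + 3 := by ring
  have e4 : 3 * (j + 1) + 4 = 3 * j + 7 := by ring
  have e5 : 3 * (i + 1) + 2 = 3 * i + 5 := by ring
  rw [e1, e5] at c1 c2
  rw [e2] at c2 x2
  rw [e3] at x1 x2
  refine ⟨?_, ?_, ?_, x1.2, x2.1, c1.2.1, c2.1⟩
  · rcases Nat.eq_zero_or_pos i with h | h
    · subst h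
      exact hF.bottom _ (by omega) (by omega)
    · exact (hR.cell i j (by omega) (by omega) (by omega)).2.2.2
  · rcases Nat.eq_zero_or_pos i with h | h
    · subst h
      have h1 := hF.bottom (3 * j + 7) (by omega) (by omega)
      have h2 : η (0 + 1) (j + 1) = 0 := hη (j + 1)
      rw [h2]
      show p (pt (3 * j + 7) 2) = _
      rw [h1]
      ext <;> simp
    · have := (hR.ys i (j + 1) (by omega) (by omega) (by omega)).2
      rwa [e4] at this
  · rcases Nat.eq_zero_or_pos i with h | h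
    · subst h
      exact hF.bottom _ (by omega) (by omega)
    · have := (hR.cell i (j + 1) (by omega) (by omega) (by omega)).2.2.1
      rwa [e2] at this

theorem fn_z (p : VX → Plane) (v : VX) (X Y : ℕ) : ∃ a b : ℝ, p v = lat X Y + (a, b) :=
  ⟨(p v).1 - X, (p v).2 - Y, by ext <;> simp [lat]⟩

theorem targetNodes : TargetNodes := by
  intro n m τ p ξ η hn hA hF hξ hη hR hv
  have key : ∀ i j : ℕ, i ≤ n → j + 1 ≤ m → ∀ f ∈ holeFaces (n + 1) (m + 1) τ i (j + 1),
      shoelace p f.1 = f.2 := fun i j hi hj f hf => hA f (fn_mem hi (by omega) hf)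
  have e1 : ∀ j, 3 * (j + 1) + 3 = 3 * j + 6 := fun j => by ring
  refine ⟨⟨?_, fun j _ _ => hη j, ?_⟩, ?_⟩
  · intro i j hi1 hin hj1 hjm
    obtain ⟨i, rfl⟩ : ∃ k, i = k + 1 := ⟨i - 1, by omega⟩
    obtain ⟨j, rfl⟩ : ∃ k, j = k + 1 := ⟨j - 1, by omega⟩
    have P := fn_pos hF hη hR (i := i) (j := j) (by omega) hjm
    have N := (hR.ys (i + 1) (j + 1) (by omega) (by omega) (by omega)).1
    have e4 : 3 * (j + 1) + 4 = 3 * j + 7 := by ring
    have e5 : 3 * (i + 1) + 1 = 3 * i + 4 := by ring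
    rw [e4, e5] at N
    have K := key i j (by omega) hjm
    unfold holeFaces at K
    rw [e1] at K
    simp only [show j + 1 ≠ 0 by omega, show j + 1 ≠ m + 1 by omega, show i + 1 ≠ n + 1 by omega,
      if_false] at K
    obtain ⟨h1, h2, h3, h4, h5, h6, h7⟩ := P
    set x := ξ (i + 1) (j + 1)
    set x' := ξ (i + 1) (j + 2)
    set y := η (i + 1) (j + 1)
    set y' := η (i + 2) (j + 1)
    show NodeRel (τ (i + 1) (j + 1)) x y x' y'
    have N' : p (pt (3 * j + 7) (3 * i + 4)) = lat (3 * j + 7) (3 * i + 4) + (0, y') := N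
    obtain ⟨a, b, hz⟩ := fn_z p (pt (3 * j + 7) (3 * i + 3)) (3 * j + 7) (3 * i + 3)
    have r1 : 3 * j + 6 + 1 = 3 * j + 7 := rfl
    have r2 : 3 * j + 6 + 2 = 3 * j + 8 := rfl
    have r3 : 3 * i + 2 + 1 = 3 * i + 3 := rfl
    have r4 : 3 * i + 2 + 2 = 3 * i + 4 := rfl
    rw [r1, r2, r3, r4] at K
    cases hτ : τ (i + 1) (j + 1)
    · rw [hτ] at K
      simp only [List.mem_cons, List.not_mem_nil, or_false, forall_eq_or_imp, forall_eq] at K
      obtain ⟨k1, k2, k3, k4⟩ := K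
      rw [fn_shoe4, hz, h6, h4, h1] at k1
      rw [fn_shoe4, hz, h1, h2, h3] at k2
      rw [fn_shoe4, hz, h3, h5, h7] at k3
      rw [fn_shoe4, hz, h7, N', h6] at k4
      simp only [lat, Prod.mk_add_mk] at k1 k2 k3 k4
      push_cast at k1 k2 k3 k4
      constructor <;> nlinarith
    · rw [hτ] at K
      simp only [List.mem_cons, List.not_mem_nil, or_false, forall_eq_or_imp, forall_eq] at K
      obtain ⟨k1, k2⟩ := K
      rw [fn_shoe5, N', h6, h4, h1, h2] at k1
      rw [fn_shoe5, h2, h3, h5, h7, N'] at k2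
      simp only [lat, Prod.mk_add_mk] at k1 k2
      push_cast at k1 k2
      constructor <;> nlinarith
    · rw [hτ] at K
      simp only [List.mem_cons, List.not_mem_nil, or_false, forall_eq_or_imp, forall_eq] at K
      obtain ⟨k1, k2, k3, k4⟩ := K
      rw [fn_shoe4, hz, h6, h4, h1] at k1
      rw [fn_shoe4, hz, h7, N', h6] at k2
      rw [fn_shoe3, hz, h1, h2] at k3
      rw [fn_shoe5, hz, h2, h3, h5, h7] at k4
      simp only [lat, Prod.mk_add_mk] at k1 k2 k3 k4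
      push_cast at k1 k2 k3 k4
      have ha : a = x := by nlinarith
      have hb : b = y' := by nlinarith
      rw [ha, hb] at k3 k4
      have hy : y' = y * (1 + x) := by nlinarith
      rw [hy] at k4
      exact ⟨by nlinarith, hy⟩
  · intro j hj1 hjm
    obtain ⟨j, rfl⟩ : ∃ k, j = k + 1 := ⟨j - 1, by omega⟩
    have P := fn_pos hF hη hR (i := n) (j := j) (by omega) hjm
    have K := key n j le_rfl hjm
    unfold holeFaces at K
    rw [e1] at K
    simp only [show j + 1 ≠ 0 by omega, show j + 1 ≠ m + 1 by omega,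
      if_false, if_true] at K
    obtain ⟨h1, h2, h3, h4, h5, h6, h7⟩ := P
    obtain ⟨a, b, hz⟩ := fn_z p (pt (3 * j + 7) (3 * n + 3)) (3 * j + 7) (3 * n + 3)
    have r1 : 3 * j + 6 + 1 = 3 * j + 7 := rfl
    have r2 : 3 * j + 6 + 2 = 3 * j + 8 := rfl
    have r3 : 3 * n + 2 + 1 = 3 * n + 3 := rfl
    have r4 : 3 * n + 2 + 2 = 3 * n + 4 := rfl
    rw [r1, r2, r3, r4] at K
    simp only [List.mem_cons, List.not_mem_nil, or_false, forall_eq_or_imp, forall_eq] at K
    obtain ⟨k1, k2, k3, k4⟩ := K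
    rw [fn_shoe4, hz, h1, h2, h3] at k2
    rw [fn_shoe3, hz, h7, h6] at k4
    simp only [lat, Prod.mk_add_mk] at k2 k4
    push_cast at k2 k4
    nlinarith
  · intro h0
    apply hv
    rw [hF.pin]
    have h := (hR.xs 1 0 le_rfl (by omega) (by omega)).1
    have h' : p (pt 5 3) = lat 5 3 + (ξ 1 1, 0) := h
    rw [h', h0]
    ext <;> simp

end Pool.Agent.PAH
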