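import Pool.Agent.PAH.Targets

set_option autoImplicit false

/-!
# F-RIGID: all cells are pinned and the middle edges only slide
-/

namespace Pool.Agent.PAH

namespace FRigid

lemma mem_fabric {n m i j : ℕ} (hi : i < n + 1) (hj : j < m + 2) {q : Quad}
    (hq : q ∈ blockQuads (n + 1) (m + 1) i j) : q ∈ fabricQuads n m := by
  unfold fabricQuads
  rw [List.mem_append]
  right
  rw [List.mem_flatMap]
  refine ⟨i, List.mem_range.mpr hi, ?_⟩
  rw [List.mem_flatMap]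
  exact ⟨j, List.mem_range.mpr hj, hq⟩

/-- a quad with known horizontal bottom edge of length 1 -/
lemma par_h {p : VX → Plane} {q : Quad} (h : IsPar p q) {u v : ℝ} (ha : p q.a = (u, v))
    (hb : p q.b = (u + 1, v)) :
    (p q.d).2 = v + q.M ∧ p q.c = ((p q.d).1 + 1, v + q.M) := by
  obtain ⟨h1, h2⟩ := h
  rw [ha, hb] at h1
  rw [ha, hb] at h2
  have e1 := congrArg Prod.fst h1
  have e2 := congrArg Prod.snd h1
  simp only [det3, Prod.fst_add, Prod.snd_add] at h2 e1 e2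
  have h3 : (p q.d).2 = v + q.M := by linarith
  refine ⟨h3, Prod.ext ?_ ?_⟩
  · show (p q.c).1 = (p q.d).1 + 1
    linarith
  · show (p q.c).2 = v + q.M
    linarith

/-- a quad with known vertical left edge of length 1 -/
lemma par_v {p : VX → Plane} {q : Quad} (h : IsPar p q) {u v : ℝ} (ha : p q.a = (u, v))
    (hd : p q.d = (u, v + 1)) :
    (p q.b).1 = u + q.M ∧ p q.c = (u + q.M, (p q.b).2 + 1) := by
  obtain ⟨h1, h2⟩ := h
  rw [ha, hd] at h1
  rw [ha, hd] at h2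
  have e1 := congrArg Prod.fst h1
  have e2 := congrArg Prod.snd h1
  simp only [det3, Prod.fst_add, Prod.snd_add] at h2 e1 e2
  have h3 : (p q.b).1 = u + q.M := by linarith
  refine ⟨h3, Prod.ext ?_ ?_⟩
  · show (p q.c).1 = u + q.M
    linarith
  · show (p q.c).2 = (p q.b).2 + 1
    linarith

section

variable {n m : ℕ} {p : VX → Plane} (hp : ∀ q ∈ fabricQuads n m, IsPar p q)

include hp

/-- lower part of the row gap -/
lemma row1 {i j : ℕ} (hi : i < n + 1) (hj : j < m + 1)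
    (h1 : p (pt (3 * j + 5) (3 * i + 2)) = lat (3 * j + 5) (3 * i + 2))
    (h2 : p (pt (3 * j + 6) (3 * i + 2)) = lat (3 * j + 6) (3 * i + 2)) :
    (p (pt (3 * j + 5) (3 * i + 3))).2 = ((3 * i + 3 : ℕ) : ℝ) ∧
    p (pt (3 * j + 6) (3 * i + 3)) =
      ((p (pt (3 * j + 5) (3 * i + 3))).1 + 1, ((3 * i + 3 : ℕ) : ℝ)) := by
  have hq : unitQ (3 * j + 5) (3 * i + 2) ∈ fabricQuads n m := by
    apply mem_fabric hi (by omega : j < m + 2)
    unfold blockQuads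
    rw [if_pos hj]
    simp
  have h := par_h (hp _ hq) (u := ((3 * j + 5 : ℕ) : ℝ)) (v := ((3 * i + 2 : ℕ) : ℝ)) h1 (by
    show p (pt (3 * j + 6) (3 * i + 2)) = _
    rw [h2]
    unfold lat
    push_cast
    ring_nf)
  obtain ⟨h3, h4⟩ := h
  have h5 : (p (pt (3 * j + 5) (3 * i + 3))).2 = ((3 * i + 2 : ℕ) : ℝ) + ((1 : ℕ) : ℝ) := h3
  have h6 : p (pt (3 * j + 6) (3 * i + 3)) =
      ((p (pt (3 * j + 5) (3 * i + 3))).1 + 1, ((3 * i + 2 : ℕ) : ℝ) + ((1 : ℕ) : ℝ)) := h4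
  have e : ((3 * i + 2 : ℕ) : ℝ) + ((1 : ℕ) : ℝ) = ((3 * i + 3 : ℕ) : ℝ) := by push_cast; ring
  rw [e] at h5 h6
  exact ⟨h5, h6⟩

/-- the whole row gap -/
lemma row2 {i j : ℕ} (hi : i < n + 1) (hj : j < m + 2)
    (h1 : p (pt (3 * j + 5) (3 * i + 2)) = lat (3 * j + 5) (3 * i + 2))
    (h2 : p (pt (3 * j + 6) (3 * i + 2)) = lat (3 * j + 6) (3 * i + 2)) :
    (p (pt (3 * j + 5) (3 * i + 4))).2 = ((3 * i + 4 : ℕ) : ℝ) ∧
    p (pt (3 * j + 6) (3 * i + 4)) =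
      ((p (pt (3 * j + 5) (3 * i + 4))).1 + 1, ((3 * i + 4 : ℕ) : ℝ)) := by
  by_cases hj' : j < m + 1
  · obtain ⟨r1, r2⟩ := row1 hp hi hj' h1 h2
    have hq : unitQ (3 * j + 5) (3 * i + 3) ∈ fabricQuads n m := by
      apply mem_fabric hi hj
      unfold blockQuads
      rw [if_pos hj']
      simp
    have h := par_h (hp _ hq) (u := (p (pt (3 * j + 5) (3 * i + 3))).1)
      (v := ((3 * i + 3 : ℕ) : ℝ)) (Prod.ext rfl r1) r2
    obtain ⟨h3, h4⟩ := h
    have h5 : (p (pt (3 * j + 5) (3 * i + 4))).2 = ((3 * i + 3 : ℕ) : ℝ) + ((1 : ℕ) : ℝ) := h3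
    have h6 : p (pt (3 * j + 6) (3 * i + 4)) =
        ((p (pt (3 * j + 5) (3 * i + 4))).1 + 1, ((3 * i + 3 : ℕ) : ℝ) + ((1 : ℕ) : ℝ)) := h4
    have e : ((3 * i + 3 : ℕ) : ℝ) + ((1 : ℕ) : ℝ) = ((3 * i + 4 : ℕ) : ℝ) := by push_cast; ring
    rw [e] at h5 h6
    exact ⟨h5, h6⟩
  · have hq : tallQ (3 * j + 5) (3 * i + 2) ∈ fabricQuads n m := by
      apply mem_fabric hi hj
      unfold blockQuads
      rw [if_neg hj']
      simp
    have h := par_h (hp _ hq) (u := ((3 * j + 5 : ℕ) : ℝ)) (v := ((3 * i + 2 : ℕ) : ℝ)) h1 (by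
      show p (pt (3 * j + 6) (3 * i + 2)) = _
      rw [h2]
      unfold lat
      push_cast
      ring_nf)
    obtain ⟨h3, h4⟩ := h
    have h5 : (p (pt (3 * j + 5) (3 * i + 4))).2 = ((3 * i + 2 : ℕ) : ℝ) + ((2 : ℕ) : ℝ) := h3
    have h6 : p (pt (3 * j + 6) (3 * i + 4)) =
        ((p (pt (3 * j + 5) (3 * i + 4))).1 + 1, ((3 * i + 2 : ℕ) : ℝ) + ((2 : ℕ) : ℝ)) := h4
    have e : ((3 * i + 2 : ℕ) : ℝ) + ((2 : ℕ) : ℝ) = ((3 * i + 4 : ℕ) : ℝ) := by push_cast; ring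
    rw [e] at h5 h6
    exact ⟨h5, h6⟩

/-- left part of the column gap -/
lemma col1 {i j : ℕ} (hi : i < n) (hj : j < m + 2)
    (h1 : p (pt (3 * j + 3) (3 * i + 4)) = lat (3 * j + 3) (3 * i + 4))
    (h2 : p (pt (3 * j + 3) (3 * i + 5)) = lat (3 * j + 3) (3 * i + 5)) :
    (p (pt (3 * j + 4) (3 * i + 4))).1 = ((3 * j + 4 : ℕ) : ℝ) ∧
    p (pt (3 * j + 4) (3 * i + 5)) =
      (((3 * j + 4 : ℕ) : ℝ), (p (pt (3 * j + 4) (3 * i + 4))).2 + 1) := by
  have hq : unitQ (3 * j + 3) (3 * i + 4) ∈ fabricQuads n m := by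
    apply mem_fabric (by omega : i < n + 1) hj
    unfold blockQuads
    rw [if_pos (by omega : i + 1 < n + 1)]
    simp
  have h := par_v (hp _ hq) (u := ((3 * j + 3 : ℕ) : ℝ)) (v := ((3 * i + 4 : ℕ) : ℝ)) h1 (by
    show p (pt (3 * j + 3) (3 * i + 5)) = _
    rw [h2]
    unfold lat
    push_cast
    ring_nf)
  obtain ⟨h3, h4⟩ := h
  have h5 : (p (pt (3 * j + 4) (3 * i + 4))).1 = ((3 * j + 3 : ℕ) : ℝ) + ((1 : ℕ) : ℝ) := h3
  have h6 : p (pt (3 * j + 4) (3 * i + 5)) =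
      (((3 * j + 3 : ℕ) : ℝ) + ((1 : ℕ) : ℝ), (p (pt (3 * j + 4) (3 * i + 4))).2 + 1) := h4
  have e : ((3 * j + 3 : ℕ) : ℝ) + ((1 : ℕ) : ℝ) = ((3 * j + 4 : ℕ) : ℝ) := by push_cast; ring
  rw [e] at h5 h6
  exact ⟨h5, h6⟩

/-- the whole column gap -/
lemma col2 {i j : ℕ} (hi : i < n + 1) (hj : j < m + 2)
    (h1 : p (pt (3 * j + 3) (3 * i + 4)) = lat (3 * j + 3) (3 * i + 4))
    (h2 : p (pt (3 * j + 3) (3 * i + 5)) = lat (3 * j + 3) (3 * i + 5)) :
    (p (pt (3 * j + 5) (3 * i + 4))).1 = ((3 * j + 5 : ℕ) : ℝ) ∧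
    p (pt (3 * j + 5) (3 * i + 5)) =
      (((3 * j + 5 : ℕ) : ℝ), (p (pt (3 * j + 5) (3 * i + 4))).2 + 1) := by
  by_cases hi' : i < n
  · obtain ⟨r1, r2⟩ := col1 hp hi' hj h1 h2
    have hq : unitQ (3 * j + 4) (3 * i + 4) ∈ fabricQuads n m := by
      apply mem_fabric hi hj
      unfold blockQuads
      rw [if_pos (by omega : i + 1 < n + 1)]
      simp
    have h := par_v (hp _ hq) (u := ((3 * j + 4 : ℕ) : ℝ))
      (v := (p (pt (3 * j + 4) (3 * i + 4))).2) (Prod.ext r1 rfl) r2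
    obtain ⟨h3, h4⟩ := h
    have h5 : (p (pt (3 * j + 5) (3 * i + 4))).1 = ((3 * j + 4 : ℕ) : ℝ) + ((1 : ℕ) : ℝ) := h3
    have h6 : p (pt (3 * j + 5) (3 * i + 5)) =
        (((3 * j + 4 : ℕ) : ℝ) + ((1 : ℕ) : ℝ), (p (pt (3 * j + 5) (3 * i + 4))).2 + 1) := h4
    have e : ((3 * j + 4 : ℕ) : ℝ) + ((1 : ℕ) : ℝ) = ((3 * j + 5 : ℕ) : ℝ) := by push_cast; ring
    rw [e] at h5 h6
    exact ⟨h5, h6⟩
  · have hq : wideQ (3 * j + 3) (3 * i + 4) ∈ fabricQuads n m := by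
      apply mem_fabric hi hj
      unfold blockQuads
      rw [if_neg (by omega : ¬ i + 1 < n + 1)]
      simp
    have h := par_v (hp _ hq) (u := ((3 * j + 3 : ℕ) : ℝ)) (v := ((3 * i + 4 : ℕ) : ℝ)) h1 (by
      show p (pt (3 * j + 3) (3 * i + 5)) = _
      rw [h2]
      unfold lat
      push_cast
      ring_nf)
    obtain ⟨h3, h4⟩ := h
    have h5 : (p (pt (3 * j + 5) (3 * i + 4))).1 = ((3 * j + 3 : ℕ) : ℝ) + ((2 : ℕ) : ℝ) := h3
    have h6 : p (pt (3 * j + 5) (3 * i + 5)) =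
        (((3 * j + 3 : ℕ) : ℝ) + ((2 : ℕ) : ℝ), (p (pt (3 * j + 5) (3 * i + 4))).2 + 1) := h4
    have e : ((3 * j + 3 : ℕ) : ℝ) + ((2 : ℕ) : ℝ) = ((3 * j + 5 : ℕ) : ℝ) := by push_cast; ring
    rw [e] at h5 h6
    exact ⟨h5, h6⟩

/-- one cell -/
lemma cell_step {i j : ℕ} (hi : i < n + 1) (hj : j < m + 2)
    (h1 : p (pt (3 * j + 5) (3 * i + 2)) = lat (3 * j + 5) (3 * i + 2))
    (h2 : p (pt (3 * j + 6) (3 * i + 2)) = lat (3 * j + 6) (3 * i + 2))
    (h3 : p (pt (3 * j + 3) (3 * i + 4)) = lat (3 * j + 3) (3 * i + 4))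
    (h4 : p (pt (3 * j + 3) (3 * i + 5)) = lat (3 * j + 3) (3 * i + 5)) :
    p (pt (3 * j + 5) (3 * i + 4)) = lat (3 * j + 5) (3 * i + 4) ∧
    p (pt (3 * j + 6) (3 * i + 4)) = lat (3 * j + 6) (3 * i + 4) ∧
    p (pt (3 * j + 5) (3 * i + 5)) = lat (3 * j + 5) (3 * i + 5) ∧
    p (pt (3 * j + 6) (3 * i + 5)) = lat (3 * j + 6) (3 * i + 5) := by
  obtain ⟨r1, r2⟩ := row2 hp hi hj h1 h2
  obtain ⟨c1, c2⟩ := col2 hp hi hj h3 h4
  have a1 : p (pt (3 * j + 5) (3 * i + 4)) = lat (3 * j + 5) (3 * i + 4) := Prod.ext c1 r1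
  have a2 : p (pt (3 * j + 6) (3 * i + 4)) = lat (3 * j + 6) (3 * i + 4) := by
    rw [r2, c1]
    unfold lat
    push_cast
    ring_nf
  have a3 : p (pt (3 * j + 5) (3 * i + 5)) = lat (3 * j + 5) (3 * i + 5) := by
    rw [c2, r1]
    unfold lat
    push_cast
    ring_nf
  have hq : unitQ (3 * j + 5) (3 * i + 4) ∈ fabricQuads n m := by
    apply mem_fabric hi hj
    unfold blockQuads
    simp
  have h := (hp _ hq).1
  have h' : p (pt (3 * j + 5) (3 * i + 4)) + p (pt (3 * j + 6) (3 * i + 5)) =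
    p (pt (3 * j + 6) (3 * i + 4)) + p (pt (3 * j + 5) (3 * i + 5)) := h
  refine ⟨a1, a2, a3, ?_⟩
  rw [a1, a2, a3] at h'
  have e1 := congrArg Prod.fst h'
  have e2 := congrArg Prod.snd h'
  simp only [lat, Prod.fst_add, Prod.snd_add] at e1 e2
  push_cast at e1 e2
  refine Prod.ext ?_ ?_
  · show (p (pt (3 * j + 6) (3 * i + 5))).1 = ((3 * j + 6 : ℕ) : ℝ)
    push_cast
    linarith
  · show (p (pt (3 * j + 6) (3 * i + 5))).2 = ((3 * i + 5 : ℕ) : ℝ)
    push_cast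
    linarith

/-- all cells are pinned -/
lemma cells (hF : Framed n m p) : ∀ i, i < n + 1 → ∀ j, j < m + 2 →
    p (pt (3 * j + 5) (3 * i + 4)) = lat (3 * j + 5) (3 * i + 4) ∧
    p (pt (3 * j + 6) (3 * i + 4)) = lat (3 * j + 6) (3 * i + 4) ∧
    p (pt (3 * j + 5) (3 * i + 5)) = lat (3 * j + 5) (3 * i + 5) ∧
    p (pt (3 * j + 6) (3 * i + 5)) = lat (3 * j + 6) (3 * i + 5) := by
  intro i
  induction i with
  | zero =>
    intro hi j
    induction j with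
    | zero =>
      intro hj
      exact cell_step hp hi hj (hF.bottom _ (by omega) (by omega))
        (hF.bottom _ (by omega) (by omega)) (hF.left _ (by omega) (by omega))
        (hF.left _ (by omega) (by omega))
    | succ j ih =>
      intro hj
      obtain ⟨_, k2, _, k4⟩ := ih (by omega)
      exact cell_step hp hi hj (hF.bottom _ (by omega) (by omega))
        (hF.bottom _ (by omega) (by omega)) k2 k4
  | succ i ihi =>
    intro hi j
    induction j with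
    | zero =>
      intro hj
      obtain ⟨_, _, k3, k4⟩ := ihi (by omega) 0 (by omega)
      exact cell_step hp hi hj k3 k4 (hF.left _ (by omega) (by omega))
        (hF.left _ (by omega) (by omega))
    | succ j ih =>
      intro hj
      obtain ⟨_, _, l3, l4⟩ := ihi (by omega) (j + 1) (by omega)
      obtain ⟨_, k2, _, k4⟩ := ih (by omega)
      exact cell_step hp hi hj l3 l4 k2 k4

end

end FRigid

theorem F_RIGID : TargetRigid := by
  intro n m p hp hF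
  have hc := FRigid.cells hp hF
  -- lower neighbours of the row gaps
  have hlow : ∀ i, i < n + 1 → ∀ j, j < m + 2 →
      p (pt (3 * j + 5) (3 * i + 2)) = lat (3 * j + 5) (3 * i + 2) ∧
      p (pt (3 * j + 6) (3 * i + 2)) = lat (3 * j + 6) (3 * i + 2) := by
    intro i hi j hj
    cases i with
    | zero => exact ⟨hF.bottom _ (by omega) (by omega), hF.bottom _ (by omega) (by omega)⟩
    | succ i =>
      obtain ⟨_, _, l3, l4⟩ := hc i (by omega) j hj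
      exact ⟨l3, l4⟩
  have hleft : ∀ i, i < n + 1 → ∀ j, j < m + 2 →
      p (pt (3 * j + 3) (3 * i + 4)) = lat (3 * j + 3) (3 * i + 4) ∧
      p (pt (3 * j + 3) (3 * i + 5)) = lat (3 * j + 3) (3 * i + 5) := by
    intro i hi j hj
    cases j with
    | zero => exact ⟨hF.left _ (by omega) (by omega), hF.left _ (by omega) (by omega)⟩
    | succ j =>
      obtain ⟨_, k2, _, k4⟩ := hc i hi j (by omega)
      exact ⟨k2, k4⟩
  refine ⟨fun i j => if j = 0 then 0 else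
      (p (pt (3 * (j - 1) + 5) (3 * i))).1 - ((3 * (j - 1) + 5 : ℕ) : ℝ),
    fun i j => if i ≤ 1 then 0 else
      (p (pt (3 * j + 4) (3 * (i - 1) + 1))).2 - ((3 * (i - 1) + 1 : ℕ) : ℝ), ?_, ?_, ?_⟩
  · intro i
    simp
  · intro j
    simp
  · constructor
    · intro i j hi hi' hj
      obtain ⟨i, rfl⟩ : ∃ k, i = k + 1 := ⟨i - 1, by omega⟩
      exact hc i (by omega) j (by omega)
    · intro i j hi hi' hj
      obtain ⟨i, rfl⟩ : ∃ k, i = k + 1 := ⟨i - 1, by omega⟩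
      obtain ⟨l1, l2⟩ := hlow i (by omega) j (by omega)
      obtain ⟨r1, r2⟩ := FRigid.row1 hp (by omega : i < n + 1) (by omega : j < m + 1) l1 l2
      simp only [Nat.add_eq_zero_iff, one_ne_zero, and_false, if_false, Nat.add_sub_cancel]
      constructor
      · refine Prod.ext ?_ ?_
        · show (p (pt (3 * j + 5) (3 * (i + 1)))).1 = ((3 * j + 5 : ℕ) : ℝ) +
            ((p (pt (3 * j + 5) (3 * (i + 1)))).1 - ((3 * j + 5 : ℕ) : ℝ))
          ring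
        · show (p (pt (3 * j + 5) (3 * i + 3))).2 = ((3 * i + 3 : ℕ) : ℝ) + 0
          rw [r1, add_zero]
      · have r2' : p (pt (3 * j + 6) (3 * (i + 1))) =
          ((p (pt (3 * j + 5) (3 * (i + 1)))).1 + 1, ((3 * (i + 1) : ℕ) : ℝ)) := r2
        rw [r2']
        refine Prod.ext ?_ ?_
        · show (p (pt (3 * j + 5) (3 * (i + 1)))).1 + 1 = ((3 * j + 6 : ℕ) : ℝ) +
            ((p (pt (3 * j + 5) (3 * (i + 1)))).1 - ((3 * j + 5 : ℕ) : ℝ))
          push_cast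
          ring
        · show ((3 * (i + 1) : ℕ) : ℝ) = ((3 * (i + 1) : ℕ) : ℝ) + 0
          rw [add_zero]
    · intro i j hi hi' hj
      obtain ⟨i, rfl⟩ : ∃ k, i = k + 1 := ⟨i - 1, by omega⟩
      obtain ⟨l1, l2⟩ := hleft i (by omega) j (by omega)
      obtain ⟨r1, r2⟩ := FRigid.col1 hp (by omega : i < n) (by omega : j < m + 2) l1 l2
      have hne : ¬ (i + 1 + 1 ≤ 1) := by omega
      simp only [hne, if_false, Nat.add_sub_cancel]
      have e4 : 3 * (i + 1) + 1 = 3 * i + 4 := by ring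
      have e5 : 3 * (i + 1) + 2 = 3 * i + 5 := by ring
      rw [e4, e5]
      constructor
      · refine Prod.ext ?_ ?_
        · show (p (pt (3 * j + 4) (3 * i + 4))).1 = ((3 * j + 4 : ℕ) : ℝ) + 0
          rw [r1, add_zero]
        · show (p (pt (3 * j + 4) (3 * i + 4))).2 = ((3 * i + 4 : ℕ) : ℝ) +
            ((p (pt (3 * j + 4) (3 * i + 4))).2 - ((3 * i + 4 : ℕ) : ℝ))
          ring
      · rw [r2]
        refine Prod.ext ?_ ?_
        · show ((3 * j + 4 : ℕ) : ℝ) = ((3 * j + 4 : ℕ) : ℝ) + 0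
          rw [add_zero]
        · show (p (pt (3 * j + 4) (3 * i + 4))).2 + 1 = ((3 * i + 5 : ℕ) : ℝ) +
            ((p (pt (3 * j + 4) (3 * i + 4))).2 - ((3 * i + 4 : ℕ) : ℝ))
          push_cast
          ring

end Pool.Agent.PAH
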