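import Pool.Agent.PAH.Targets

set_option autoImplicit false

/-!
# F-FANS: positivity of all fan triangles of the plain faces
-/

namespace Pool.Agent.PAH

namespace Fans

variable {n m : ℕ} {τ : ℕ → ℕ → Ty} {ξ η : ℕ → ℕ → ℝ}

theorem lpos_pt (x y : ℕ) : lpos n m τ ξ η (pt x y) =
    if y % 3 = 0 then
      (if x % 3 = 1 then
        ((x : ℝ) + ξ (y / 3) (x / 3 - 1),
          (y : ℝ) + if y / 3 ≤ n ∧ τ (y / 3) (x / 3 - 1) = Ty.P then η (y / 3 + 1) (x / 3 - 1)
            else η (y / 3) (x / 3 - 1))
      else ((x : ℝ) + ξ (y / 3) ((x - 2) / 3), (y : ℝ)))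
    else if x % 3 = 1 then ((x : ℝ), (y : ℝ) + η (y / 3 + 1) (x / 3 - 1))
    else ((x : ℝ), (y : ℝ)) := by
  unfold lpos
  rw [if_neg (by simp [pt, vq]), if_neg (by simp [pt, vo1]), if_neg (by simp [pt, vo2]),
    if_neg (by simp [pt, vo3])]
  rfl

theorem lpos_vq : lpos n m τ ξ η vq = (5, 3) := by simp [lpos]
theorem lpos_vo1 : lpos n m τ ξ η vo1 = (-1, -(fN n m : ℝ)) := by
  simp [lpos, vq, vo1]
theorem lpos_vo2 : lpos n m τ ξ η vo2 = ((fN n m : ℝ), 3 * (n : ℝ) + 6) := by
  simp [lpos, vq, vo1, vo2]
theorem lpos_vo3 : lpos n m τ ξ η vo3 = (-1, 3 * (n : ℝ) + 6) := by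
  simp [lpos, vq, vo1, vo2, vo3]

section hole
variable (i j : ℕ)

theorem p_sw : lpos n m τ ξ η (pt (3 * j + 3) (3 * i + 2)) = (3 * (j : ℝ) + 3, 3 * (i : ℝ) + 2) := by
  rw [lpos_pt, if_neg (by omega), if_neg (by omega)]
  push_cast; rfl
theorem p_S : lpos n m τ ξ η (pt (3 * j + 3 + 1) (3 * i + 2)) =
    (3 * (j : ℝ) + 4, 3 * (i : ℝ) + 2 + η (i + 1) j) := by
  rw [lpos_pt, if_neg (by omega), if_pos (by omega)]
  have h1 : (3 * i + 2) / 3 + 1 = i + 1 := by omega
  have h2 : (3 * j + 3 + 1) / 3 - 1 = j := by omega
  rw [h1, h2]; push_cast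
  ext <;> simp <;> ring
theorem p_se : lpos n m τ ξ η (pt (3 * j + 3 + 2) (3 * i + 2)) =
    (3 * (j : ℝ) + 5, 3 * (i : ℝ) + 2) := by
  rw [lpos_pt, if_neg (by omega), if_neg (by omega)]
  push_cast; ext <;> simp <;> ring
theorem p_W : lpos n m τ ξ η (pt (3 * j + 3) (3 * i + 2 + 1)) =
    (3 * (j : ℝ) + 3 + ξ (i + 1) j, 3 * (i : ℝ) + 3) := by
  rw [lpos_pt, if_pos (by omega), if_neg (by omega)]
  have h1 : (3 * i + 2 + 1) / 3 = i + 1 := by omega
  have h2 : (3 * j + 3 - 2) / 3 = j := by omega
  rw [h1, h2]; push_cast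
  ext <;> simp <;> ring
theorem p_z : lpos n m τ ξ η (pt (3 * j + 3 + 1) (3 * i + 2 + 1)) =
    (3 * (j : ℝ) + 4 + ξ (i + 1) j,
      3 * (i : ℝ) + 3 + if i + 1 ≤ n ∧ τ (i + 1) j = Ty.P then η (i + 1 + 1) j else η (i + 1) j) := by
  rw [lpos_pt, if_pos (by omega), if_pos (by omega)]
  have h1 : (3 * i + 2 + 1) / 3 = i + 1 := by omega
  have h2 : (3 * j + 3 + 1) / 3 - 1 = j := by omega
  rw [h1, h2]; push_cast
  ext <;> simp <;> ring
theorem p_E : lpos n m τ ξ η (pt (3 * j + 3 + 2) (3 * i + 2 + 1)) =
    (3 * (j : ℝ) + 5 + ξ (i + 1) (j + 1), 3 * (i : ℝ) + 3) := by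
  rw [lpos_pt, if_pos (by omega), if_neg (by omega)]
  have h1 : (3 * i + 2 + 1) / 3 = i + 1 := by omega
  have h2 : (3 * j + 3 + 2 - 2) / 3 = j + 1 := by omega
  rw [h1, h2]; push_cast
  ext <;> simp <;> ring
theorem p_nw : lpos n m τ ξ η (pt (3 * j + 3) (3 * i + 2 + 2)) =
    (3 * (j : ℝ) + 3, 3 * (i : ℝ) + 4) := by
  rw [lpos_pt, if_neg (by omega), if_neg (by omega)]
  push_cast; ext <;> simp <;> ring
theorem p_N : lpos n m τ ξ η (pt (3 * j + 3 + 1) (3 * i + 2 + 2)) =
    (3 * (j : ℝ) + 4, 3 * (i : ℝ) + 4 + η (i + 1 + 1) j) := by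
  rw [lpos_pt, if_neg (by omega), if_pos (by omega)]
  have h1 : (3 * i + 2 + 2) / 3 + 1 = i + 1 + 1 := by omega
  have h2 : (3 * j + 3 + 1) / 3 - 1 = j := by omega
  rw [h1, h2]; push_cast
  ext <;> simp <;> ring
theorem p_ne : lpos n m τ ξ η (pt (3 * j + 3 + 2) (3 * i + 2 + 2)) =
    (3 * (j : ℝ) + 5, 3 * (i : ℝ) + 4) := by
  rw [lpos_pt, if_neg (by omega), if_neg (by omega)]
  push_cast; ext <;> simp <;> ring

end hole

/-- all hole faces have positive fans -/
theorem hole_fans (hB : BArr n m ξ η) (hξ : ∀ i j, |ξ i j| ≤ 1 / 16) (hη : ∀ i j, |η i j| ≤ 1 / 16)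
    (h11 : 0 < ξ 1 1) (i j : ℕ) (hi : i < n + 1) (hj : j < m + 2) :
    ∀ f ∈ holeFaces (n + 1) (m + 1) τ i j, FanPos (lpos n m τ ξ η) f.1 := by
  have key : ∀ a b : ℝ, |a| ≤ 1 / 16 → |b| ≤ 1 / 16 → -(1 / 256) ≤ a * b ∧ a * b ≤ 1 / 256 := by
    intro a b ha hb
    have : |a * b| ≤ 1 / 16 * (1 / 16) := by
      rw [abs_mul]; exact mul_le_mul ha hb (abs_nonneg _) (by norm_num)
    have := abs_le.mp this
    constructor <;> linarith [this.1, this.2]
  obtain ⟨b1, B1⟩ := abs_le.mp (hξ (i + 1) j)
  obtain ⟨b2, B2⟩ := abs_le.mp (hξ (i + 1) (j + 1))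
  obtain ⟨b3, B3⟩ := abs_le.mp (hη (i + 1) j)
  obtain ⟨b4, B4⟩ := abs_le.mp (hη (i + 1 + 1) j)
  obtain ⟨c12, C12⟩ := key _ _ (hξ (i + 1) j) (hξ (i + 1) (j + 1))
  obtain ⟨c13, C13⟩ := key _ _ (hξ (i + 1) j) (hη (i + 1) j)
  obtain ⟨c14, C14⟩ := key _ _ (hξ (i + 1) j) (hη (i + 1 + 1) j)
  obtain ⟨c23, C23⟩ := key _ _ (hξ (i + 1) (j + 1)) (hη (i + 1) j)
  obtain ⟨c24, C24⟩ := key _ _ (hξ (i + 1) (j + 1)) (hη (i + 1 + 1) j)
  obtain ⟨c34, C34⟩ := key _ _ (hη (i + 1) j) (hη (i + 1 + 1) j)
  clear key
  intro f hf
  unfold holeFaces at hf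
  simp only at hf
  split_ifs at hf with h1 h2 h3 h4 h5 h6
  · subst h1; subst h2
    simp only [List.mem_singleton] at hf
    subst hf
    simp only [FanPos, List.isChain_cons_cons, p_se, p_E, p_ne, p_N, p_nw, p_W, lpos_vq, det3,
      List.length_cons, List.length_nil, List.IsChain.singleton, and_true, hB.x0]
    have h11' : 0 < ξ (0 + 1) (0 + 1) := h11
    refine ⟨by norm_num, ?_, ?_, ?_, ?_, ?_⟩ <;> push_cast <;> linarith
  · simp only [List.mem_singleton] at hf
    subst hf
    simp only [FanPos, List.isChain_cons_cons, p_se, p_E, p_ne, p_N, p_nw, p_W, p_sw, p_S, p_z, det3,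
      List.length_cons, List.length_nil, List.IsChain.singleton, and_true]
    refine ⟨by norm_num, ?_, ?_, ?_, ?_, ?_, ?_⟩ <;> linarith
  · simp only [List.mem_singleton] at hf
    subst hf
    simp only [FanPos, List.isChain_cons_cons, p_se, p_E, p_ne, p_N, p_nw, p_W, p_sw, p_S, p_z, det3,
      List.length_cons, List.length_nil, List.IsChain.singleton, and_true]
    refine ⟨by norm_num, ?_, ?_, ?_, ?_, ?_⟩ <;> linarith
  · simp only [List.mem_singleton] at hf
    subst hf
    simp only [FanPos, List.isChain_cons_cons, p_se, p_E, p_ne, p_N, p_nw, p_W, p_sw, p_S, p_z, det3,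
      List.length_cons, List.length_nil, List.IsChain.singleton, and_true]
    refine ⟨by norm_num, ?_, ?_, ?_, ?_, ?_⟩ <;> linarith
  · simp only [List.mem_singleton] at hf
    subst hf
    simp only [FanPos, List.isChain_cons_cons, p_se, p_E, p_ne, p_N, p_nw, p_W, p_sw, p_S, p_z, det3,
      List.length_cons, List.length_nil, List.IsChain.singleton, and_true]
    refine ⟨by norm_num, ?_, ?_, ?_, ?_⟩ <;> linarith
  · simp only [List.mem_cons, List.not_mem_nil, or_false] at hf
    have hz : ¬ (i + 1 ≤ n ∧ τ (i + 1) j = Ty.P) := by omega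
    rcases hf with rfl | rfl | rfl | rfl <;>
    simp only [FanPos, List.isChain_cons_cons, p_se, p_E, p_ne, p_N, p_nw, p_W, p_sw, p_S, p_z, det3,
      List.length_cons, List.length_nil, List.IsChain.singleton, and_true, if_neg hz]
    · refine ⟨by norm_num, ?_, ?_⟩ <;> linarith
    · refine ⟨by norm_num, ?_, ?_⟩ <;> linarith
    · refine ⟨by norm_num, ?_, ?_⟩ <;> linarith
    · refine ⟨by norm_num, ?_⟩; linarith
  · cases hτ : τ (i + 1) j
    · rw [hτ] at hf
      simp only [List.mem_cons, List.not_mem_nil, or_false] at hf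
      rcases hf with rfl | rfl | rfl | rfl <;>
      simp only [FanPos, List.isChain_cons_cons, p_se, p_E, p_ne, p_N, p_nw, p_W, p_sw, p_S, p_z,
        det3, List.length_cons, List.length_nil, List.IsChain.singleton, and_true, hτ, reduceCtorEq,
        and_false, if_false]
      all_goals refine ⟨by norm_num, ?_, ?_⟩ <;> linarith
    · rw [hτ] at hf
      simp only [List.mem_cons, List.not_mem_nil, or_false] at hf
      rcases hf with rfl | rfl <;>
      simp only [FanPos, List.isChain_cons_cons, p_se, p_E, p_ne, p_N, p_nw, p_W, p_sw, p_S, p_z,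
        det3, List.length_cons, List.length_nil, List.IsChain.singleton, and_true, hτ, reduceCtorEq,
        and_false, if_false]
      all_goals refine ⟨by norm_num, ?_, ?_, ?_⟩ <;> linarith
    · rw [hτ] at hf
      simp only [List.mem_cons, List.not_mem_nil, or_false] at hf
      have hin : i + 1 ≤ n := by omega
      rcases hf with rfl | rfl | rfl | rfl <;>
      simp only [FanPos, List.isChain_cons_cons, p_se, p_E, p_ne, p_N, p_nw, p_W, p_sw, p_S, p_z,
        det3, List.length_cons, List.length_nil, List.IsChain.singleton, and_true, hτ, hin,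
        if_true]
      · refine ⟨by norm_num, ?_, ?_⟩ <;> linarith
      · refine ⟨by norm_num, ?_, ?_⟩ <;> linarith
      · refine ⟨by norm_num, ?_⟩; linarith
      · refine ⟨by norm_num, ?_, ?_, ?_⟩ <;> linarith

section chain
variable {α : Type} {R : α → α → Prop}

theorem chain_map (f : ℕ → α) (rest : List α) : ∀ (n : ℕ),
    (∀ k, k + 1 < n → R (f k) (f (k + 1))) → rest.IsChain R →
    (∀ k, n = k + 1 → ∀ y ∈ rest.head?, R (f k) y) →
    ((List.range n).map f ++ rest).IsChain R := by
  intro n
  induction n generalizing rest with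
  | zero => intro _ h _; simpa using h
  | succ k ih =>
    intro h1 h2 h3
    rw [List.range_succ, List.map_append, List.append_assoc]
    apply ih
    · intro l hl; exact h1 l (by omega)
    · simp only [List.map_cons, List.map_nil, List.cons_append, List.nil_append]
      rw [List.isChain_cons]
      exact ⟨h3 k rfl, h2⟩
    · intro l hl y hy
      simp only [List.map_cons, List.map_nil, List.cons_append, List.nil_append, List.head?_cons,
        Option.mem_some_iff] at hy
      subst hy; subst hl
      exact h1 l (by omega)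

theorem chain_pairs (f g : ℕ → α) (rest : List α) : ∀ (n : ℕ),
    (∀ k, k < n → R (f k) (g k)) → (∀ k, k + 1 < n → R (g k) (f (k + 1))) → rest.IsChain R →
    (∀ k, n = k + 1 → ∀ y ∈ rest.head?, R (g k) y) →
    ((List.range n).flatMap (fun k => [f k, g k]) ++ rest).IsChain R := by
  intro n
  induction n generalizing rest with
  | zero => intro _ _ h _; simpa using h
  | succ k ih =>
    intro h1 h1' h2 h3
    rw [List.range_succ, List.flatMap_append, List.append_assoc]
    apply ih
    · intro l hl; exact h1 l (by omega)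
    · intro l hl; exact h1' l (by omega)
    · simp only [List.flatMap_cons, List.flatMap_nil, List.cons_append, List.nil_append,
        List.append_nil]
      rw [List.isChain_cons_cons, List.isChain_cons]
      exact ⟨h1 k (by omega), h3 k rfl, h2⟩
    · intro l hl y hy
      simp only [List.flatMap_cons, List.flatMap_nil, List.cons_append, List.nil_append,
        List.append_nil, List.head?_cons, Option.mem_some_iff] at hy
      subst hy; subst hl
      exact h1' l (by omega)

theorem chain_rev_map (f : ℕ → α) (rest : List α) : ∀ (n : ℕ),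
    (∀ k, k + 1 < n → R (f (k + 1)) (f k)) → rest.IsChain R →
    (0 < n → ∀ y ∈ rest.head?, R (f 0) y) →
    ((List.range n).reverse.map f ++ rest).IsChain R := by
  intro n
  induction n with
  | zero => intro _ h _; simpa using h
  | succ k ih =>
    intro h1 h2 h3
    rw [List.range_succ, List.reverse_append, List.reverse_singleton, List.singleton_append,
      List.map_cons, List.cons_append, List.isChain_cons]
    refine ⟨?_, ih (fun l hl => h1 l (by omega)) h2 (fun _ => h3 (by omega))⟩
    cases k with
    | zero => simpa using h3 (by omega)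
    | succ l =>
      intro y hy
      rw [List.range_succ, List.reverse_append, List.reverse_singleton, List.singleton_append,
        List.map_cons, List.cons_append, List.head?_cons, Option.mem_some_iff] at hy
      subst hy
      exact h1 l (by omega)

theorem chain_rev_pairs (f g : ℕ → α) (rest : List α) : ∀ (n : ℕ),
    (∀ k, k < n → R (f k) (g k)) → (∀ k, k + 1 < n → R (g (k + 1)) (f k)) → rest.IsChain R →
    (0 < n → ∀ y ∈ rest.head?, R (g 0) y) →
    ((List.range n).reverse.flatMap (fun k => [f k, g k]) ++ rest).IsChain R := by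
  intro n
  induction n with
  | zero => intro _ _ h _; simpa using h
  | succ k ih =>
    intro h1 h1' h2 h3
    rw [List.range_succ, List.reverse_append, List.reverse_singleton, List.singleton_append,
      List.flatMap_cons, List.append_assoc, List.cons_append, List.cons_append, List.nil_append,
      List.isChain_cons_cons, List.isChain_cons]
    refine ⟨h1 k (by omega), ?_, ih (fun l hl => h1 l (by omega)) (fun l hl => h1' l (by omega))
      h2 (fun _ => h3 (by omega))⟩
    cases k with
    | zero => simpa using h3 (by omega)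
    | succ l =>
      intro y hy
      rw [List.range_succ, List.reverse_append, List.reverse_singleton, List.singleton_append,
        List.flatMap_cons, List.append_assoc, List.cons_append, List.head?_cons,
        Option.mem_some_iff] at hy
      subst hy
      exact h1' l (by omega)

end chain

section outer

theorem p_bot (hB : BArr n m ξ η) (x : ℕ) : lpos n m τ ξ η (pt x 0) = ((x : ℝ), 0) := by
  rw [lpos_pt, if_pos (by omega)]
  split_ifs <;> simp [hB.xb, hB.y0, hB.y1]

theorem p_flat (x y : ℕ) (hy : y % 3 ≠ 0) (hx : x % 3 ≠ 1) :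
    lpos n m τ ξ η (pt x y) = ((x : ℝ), (y : ℝ)) := by
  rw [lpos_pt, if_neg hy, if_neg hx]

theorem p_left (hB : BArr n m ξ η) (y : ℕ) : lpos n m τ ξ η (pt 0 y) = (0, (y : ℝ)) := by
  rw [lpos_pt]
  split_ifs with h1 h2 <;> simp [hB.x0] at *

theorem p_corner (hB : BArr n m ξ η) :
    lpos n m τ ξ η (pt 1 (3 * (n + 1) + 1)) = (1, 3 * (n : ℝ) + 4) := by
  rw [lpos_pt, if_neg (by omega), if_pos (by omega)]
  have h1 : (3 * (n + 1) + 1) / 3 + 1 = n + 2 := by omega
  rw [h1, hB.yt]
  push_cast
  ext <;> simp <;> ring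

theorem fN_cast : (fN n m : ℝ) = 12 * (n : ℝ) + 12 * m + 48 := by
  unfold fN; push_cast; ring

theorem outer_fans (hB : BArr n m ξ η) :
    ∀ f ∈ outerFaces (n + 1) (m + 1), FanPos (lpos n m τ ξ η) f.1 := by
  have hn : (0 : ℝ) ≤ n := Nat.cast_nonneg n
  have hm : (0 : ℝ) ≤ m := Nat.cast_nonneg m
  intro f hf
  simp only [outerFaces, List.mem_cons, List.not_mem_nil, or_false] at hf
  rcases hf with rfl | rfl | rfl
  · simp only [List.cons_append, List.nil_append, FanPos]
    refine ⟨by simp, ?_⟩
    rw [List.isChain_cons]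
    constructor
    · intro y hy
      rw [show 3 * (m + 1) + 2 = (3 * (m + 1) + 1) + 1 from rfl, List.range_succ,
        List.reverse_append, List.reverse_singleton, List.singleton_append,
        List.map_cons, List.cons_append, List.head?_cons, Option.mem_some_iff] at hy
      subst hy
      rw [lpos_vo1, p_bot hB, p_flat _ _ (by omega) (by omega)]
      simp only [det3, fN_cast]
      push_cast
      nlinarith
    · apply chain_rev_map
      · intro k _
        simp only [lpos_vo1, p_bot hB, det3, fN_cast]
        push_cast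
        nlinarith
      · simp only [List.isChain_cons_cons, List.IsChain.singleton, and_true, lpos_vo1, lpos_vo3,
          p_bot hB, det3, fN_cast]
        push_cast
        nlinarith
      · intro _ y hy
        rw [List.head?_cons, Option.mem_some_iff] at hy
        subst hy
        simp only [lpos_vo1, p_bot hB, det3, fN_cast]
        push_cast
        nlinarith
  · simp only [List.cons_append, List.nil_append, FanPos]
    refine ⟨by simp, ?_⟩
    apply chain_rev_pairs
    · intro k _
      rw [lpos_vo2, p_flat _ _ (by omega) (by omega), p_flat _ _ (by omega) (by omega)]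
      simp only [det3, fN_cast]
      push_cast
      nlinarith
    · intro k _
      rw [lpos_vo2, p_flat _ _ (by omega) (by omega), p_flat _ _ (by omega) (by omega)]
      simp only [det3, fN_cast]
      push_cast
      nlinarith
    · simp only [List.isChain_cons_cons, List.IsChain.singleton, and_true]
      rw [lpos_vo2, p_flat _ _ (by omega) (by omega), p_flat _ _ (by omega) (by omega), lpos_vo1]
      simp only [det3, fN_cast]
      push_cast
      constructor <;> nlinarith [mul_nonneg hn hm]
    · intro _ y hy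
      rw [List.head?_cons, Option.mem_some_iff] at hy
      subst hy
      rw [lpos_vo2, p_flat _ _ (by omega) (by omega), p_flat _ _ (by omega) (by omega)]
      simp only [det3, fN_cast]
      push_cast
      nlinarith
  · simp only [List.cons_append, List.nil_append, FanPos, List.append_assoc]
    refine ⟨by simp; omega, ?_⟩
    apply chain_map
    · intro k _
      simp only [lpos_vo3, p_left hB, det3]
      push_cast
      nlinarith
    · rw [List.isChain_cons_cons, List.isChain_cons]
      refine ⟨?_, ?_, ?_⟩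
      · rw [lpos_vo3, p_corner hB, p_flat _ _ (by omega) (by omega)]
        simp only [det3]
        push_cast
        nlinarith
      · intro y hy
        rw [show m + 1 + 1 = (m + 1) + 1 from rfl, List.range_succ_eq_map, List.flatMap_cons,
          List.append_assoc, List.cons_append, List.head?_cons, Option.mem_some_iff] at hy
        subst hy
        rw [lpos_vo3, p_flat _ _ (by omega) (by omega), p_flat _ _ (by omega) (by omega)]
        simp only [det3]
        push_cast
        nlinarith
      · apply chain_pairs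
        · intro k _
          rw [lpos_vo3, p_flat _ _ (by omega) (by omega), p_flat _ _ (by omega) (by omega)]
          simp only [det3]
          push_cast
          nlinarith
        · intro k _
          rw [lpos_vo3, p_flat _ _ (by omega) (by omega), p_flat _ _ (by omega) (by omega)]
          simp only [det3]
          push_cast
          nlinarith
        · exact List.isChain_singleton _
        · intro k hk y hy
          rw [List.head?_cons, Option.mem_some_iff] at hy
          subst hy
          rw [lpos_vo3, lpos_vo2, p_flat _ _ (by omega) (by omega)]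
          simp only [det3, fN_cast]
          push_cast
          nlinarith
    · intro k hk y hy
      rw [List.head?_cons, Option.mem_some_iff] at hy
      subst hy
      have hk' : (k : ℝ) = 3 * (n + 1) := by
        have : k = 3 * (n + 1) := by omega
        rw [this]; push_cast; ring
      rw [lpos_vo3, p_left hB, p_corner hB]
      simp only [det3, hk']
      nlinarith

end outer

end Fans

/-- F-FANS -/
theorem targetFans : TargetFans := by
  intro n m τ ξ η _ hB hξ hη h11 f hf
  unfold fabricPlain at hf
  rw [List.mem_append, List.mem_flatMap] at hf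
  rcases hf with ⟨i, hi, hf⟩ | hf
  · rw [List.mem_flatMap] at hf
    obtain ⟨j, hj, hf⟩ := hf
    exact Fans.hole_fans hB hξ hη h11 i j (List.mem_range.mp hi) (List.mem_range.mp hj) f hf
  · exact Fans.outer_fans hB f hf

end Pool.Agent.PAH
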