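import Pool.Agent.PAH.Targets

set_option autoImplicit false

/-!
# F-FRAME: normalisation and rigidity of the frame
-/

namespace Pool.Agent.PAH

namespace Frame

/-! ## Closed sums -/

lemma sum_zip_sub {V : Type} (g : V → ℝ) : ∀ (l l' : List V), l.length = l'.length →
    ((l.zip l').map fun d => g d.2 - g d.1).sum = (l'.map g).sum - (l.map g).sum
  | [], [], _ => by simp
  | [], _ :: _, h => by simp at h
  | _ :: _, [], h => by simp at h
  | a :: l, b :: l', h => by
    have := sum_zip_sub g l l' (by simpa using h)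
    simp only [List.zip_cons_cons, List.map_cons, List.sum_cons]
    rw [this]; ring

lemma wsum_telescope {V : Type} (g : V → ℝ) (w : List V) :
    wsum (fun u v => g v - g u) w = 0 := by
  unfold wsum dartsOf
  rw [sum_zip_sub g w (w.rotate 1) (by simp)]
  have h : ((w.rotate 1).map g).sum = (w.map g).sum :=
    ((List.rotate_perm w 1).map g).sum_eq
  rw [h]; ring

lemma wsum_add {V : Type} (φ ψ : V → V → ℝ) (w : List V) :
    wsum (fun u v => φ u v + ψ u v) w = wsum φ w + wsum ψ w := by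
  unfold wsum
  exact List.sum_map_add

/-! ## The affine map -/

/-- the normalising map; `A` goes to `O`, `A + c2` to `O + (-2,-1)`, `A + c1` to `O + (-1,-1)` -/
def aff (O A c1 c2 : Plane) (P : Plane) : Plane :=
  (O.1 - 2 * ((P.1 - A.1) * c1.2 - (P.2 - A.2) * c1.1) - (c2.1 * (P.2 - A.2) - c2.2 * (P.1 - A.1)),
   O.2 - ((P.1 - A.1) * c1.2 - (P.2 - A.2) * c1.1) - (c2.1 * (P.2 - A.2) - c2.2 * (P.1 - A.1)))

variable {O A c1 c2 : Plane}

lemma det3_aff (h : c2.1 * c1.2 - c2.2 * c1.1 = 1) (P Q R : Plane) :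
    det3 (aff O A c1 c2 P) (aff O A c1 c2 Q) (aff O A c1 c2 R) = det3 P Q R := by
  unfold det3 aff
  simp only
  linear_combination ((Q.1 - P.1) * (R.2 - P.2) - (Q.2 - P.2) * (R.1 - P.1)) * h

lemma aff_inj (h : c2.1 * c1.2 - c2.2 * c1.1 = 1) {P Q : Plane}
    (he : aff O A c1 c2 P = aff O A c1 c2 Q) : P = Q := by
  unfold aff at he
  rw [Prod.mk.injEq] at he
  obtain ⟨h1, h2⟩ := he
  have e1 : (P.1 - Q.1) * c1.2 - (P.2 - Q.2) * c1.1 = 0 := by linarith
  have e2 : c2.1 * (P.2 - Q.2) - c2.2 * (P.1 - Q.1) = 0 := by linarith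
  apply Prod.ext
  · linear_combination c2.1 * e1 + c1.1 * e2 - (P.1 - Q.1) * h
  · linear_combination c2.2 * e1 + c1.2 * e2 - (P.2 - Q.2) * h

lemma aff_par {P Q R S : Plane} (h : P + R = Q + S) :
    aff O A c1 c2 P + aff O A c1 c2 R = aff O A c1 c2 Q + aff O A c1 c2 S := by
  have h1 : P.1 + R.1 = Q.1 + S.1 := congrArg Prod.fst h
  have h2 : P.2 + R.2 = Q.2 + S.2 := congrArg Prod.snd h
  unfold aff
  rw [Prod.mk_add_mk, Prod.mk_add_mk, Prod.mk.injEq]
  constructor
  · linear_combination (c2.2 - 2 * c1.2) * h1 + (2 * c1.1 - c2.1) * h2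
  · linear_combination (c2.2 - c1.2) * h1 + (c1.1 - c2.1) * h2

lemma shoelace_aff (h : c2.1 * c1.2 - c2.2 * c1.1 = 1) (p : VX → Plane) (w : List VX) :
    shoelace (fun u => aff O A c1 c2 (p u)) w = shoelace p w := by
  unfold shoelace
  have h1 : (fun u v : VX => (aff O A c1 c2 (p u)).1 * (aff O A c1 c2 (p v)).2 -
      (aff O A c1 c2 (p u)).2 * (aff O A c1 c2 (p v)).1) =
      fun u v => ((p u).1 * (p v).2 - (p u).2 * (p v).1) +
        ((fun P : Plane => (aff O A c1 c2 0).1 * (aff O A c1 c2 P).2 -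
          (aff O A c1 c2 0).2 * (aff O A c1 c2 P).1) (p v) -
        (fun P : Plane => (aff O A c1 c2 0).1 * (aff O A c1 c2 P).2 -
          (aff O A c1 c2 0).2 * (aff O A c1 c2 P).1) (p u)) := by
    funext u v
    unfold aff
    simp only [Prod.fst_zero, Prod.snd_zero]
    linear_combination ((p u).1 * (p v).2 - (p u).2 * (p v).1) * h
  rw [h1, wsum_add]
  have := wsum_telescope (fun u : VX => (fun P : Plane => (aff O A c1 c2 0).1 *
    (aff O A c1 c2 P).2 - (aff O A c1 c2 0).2 * (aff O A c1 c2 P).1) (p u)) w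
  rw [this, add_zero]

/-! ## One step of the lane -/

lemma step {A B C A' B' C' : Plane} {M1 M2 : ℝ} (h1 : A + B' = B + A') (h2 : det3 A B A' = M1)
    (h3 : B + C' = C + B') (h4 : det3 B C B' = M2) (hAB : B = A + (-1, -1))
    (hBC : C = B + (-2, -1)) :
    A' = A + (2 * M1 - M2, M1 - M2) ∧ B' = B + (2 * M1 - M2, M1 - M2) ∧
      C' = C + (2 * M1 - M2, M1 - M2) := by
  have a1 : A.1 + B'.1 = B.1 + A'.1 := congrArg Prod.fst h1
  have a2 : A.2 + B'.2 = B.2 + A'.2 := congrArg Prod.snd h1
  have a3 : B.1 + C'.1 = C.1 + B'.1 := congrArg Prod.fst h3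
  have a4 : B.2 + C'.2 = C.2 + B'.2 := congrArg Prod.snd h3
  have b1 : B.1 = A.1 + -1 := congrArg Prod.fst hAB
  have b2 : B.2 = A.2 + -1 := congrArg Prod.snd hAB
  have b3 : C.1 = B.1 + -2 := congrArg Prod.fst hBC
  have b4 : C.2 = B.2 + -1 := congrArg Prod.snd hBC
  unfold det3 at h2 h4
  have e1 : -(A'.2 - A.2) + (A'.1 - A.1) = M1 := by
    have t1 : B.1 - A.1 = -1 := by linarith
    have t2 : B.2 - A.2 = -1 := by linarith
    rw [t1, t2] at h2
    linarith
  have e2 : -2 * (B'.2 - B.2) + (B'.1 - B.1) = M2 := by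
    have t1 : C.1 - B.1 = -2 := by linarith
    have t2 : C.2 - B.2 = -1 := by linarith
    rw [t1, t2] at h4
    linarith
  refine ⟨Prod.ext ?_ ?_, Prod.ext ?_ ?_, Prod.ext ?_ ?_⟩ <;>
    simp only [Prod.fst_add, Prod.snd_add] <;> linarith

end Frame

open Pool.Agent.PAH.Frame

theorem targetFrame : TargetFrame := by
  intro n m p hp
  -- the quads of the frame
  have hfr : ∀ q ∈ frameQuads (n + 1) (m + 1), IsPar p q := fun q hq =>
    hp q (List.mem_append_left _ hq)
  have hstart : IsPar p ⟨3, 3 * (n + 1) + 2, 2, pt 3 (3 * (n + 1) + 2), pt 1 (3 * (n + 1) + 1),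
      pt 0 (3 * (n + 1)), pt 2 (3 * (n + 1) + 1), 1⟩ := by
    apply hfr; unfold frameQuads; simp
  set a0 : VX := pt 3 (3 * (n + 1) + 2) with ha0
  set b0 : VX := pt 1 (3 * (n + 1) + 1) with hb0
  set d0 : VX := pt 2 (3 * (n + 1) + 1) with hd0
  set c1 : Plane := p d0 - p a0 with hc1
  set c2 : Plane := p b0 - p a0 with hc2
  have hdet : c2.1 * c1.2 - c2.2 * c1.1 = 1 := by
    have h := hstart.2
    simp only [det3, Nat.cast_one] at h
    rw [hc1, hc2]
    simp only [Prod.fst_sub, Prod.snd_sub]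
    linarith
  set O : Plane := lat 3 (3 * (n + 1) + 2) with hO
  set p' : VX → Plane := fun u => aff O (p a0) c1 c2 (p u) with hp'
  have hq' : ∀ q ∈ fabricQuads n m, IsPar p' q := by
    intro q hq
    have h := hp q hq
    refine ⟨aff_par h.1, ?_⟩
    rw [← h.2]
    exact det3_aff hdet _ _ _
  have hfr' : ∀ q ∈ frameQuads (n + 1) (m + 1), IsPar p' q := fun q hq =>
    hq' q (List.mem_append_left _ hq)
  refine ⟨p', fun u v w => det3_aff hdet _ _ _, fun u v h => aff_inj hdet h, hq',
    fun w => shoelace_aff hdet p w, ?_⟩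
  -- base positions of the start tile
  have ea : p' a0 = lat 3 (3 * (n + 1) + 2) := by
    simp only [hp', aff, sub_self, zero_mul, mul_zero, sub_zero]
    rw [hO]
  have ed : p' d0 = lat 2 (3 * (n + 1) + 1) := by
    have h1 : (p d0).1 - (p a0).1 = c1.1 := rfl
    have h2 : (p d0).2 - (p a0).2 = c1.2 := rfl
    simp only [hp', aff, h1, h2, hO, lat]
    refine Prod.ext ?_ ?_
    · push_cast
      linear_combination (-1 : ℝ) * hdet
    · push_cast
      linear_combination (-1 : ℝ) * hdet
  have eb : p' b0 = lat 1 (3 * (n + 1) + 1) := by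
    have h1 : (p b0).1 - (p a0).1 = c2.1 := rfl
    have h2 : (p b0).2 - (p a0).2 = c2.2 := rfl
    simp only [hp', aff, h1, h2, hO, lat]
    refine Prod.ext ?_ ?_
    · push_cast
      linear_combination (-2 : ℝ) * hdet
    · push_cast
      linear_combination (-1 : ℝ) * hdet
  have ec : p' (pt 0 (3 * (n + 1))) = lat 0 (3 * (n + 1)) := by
    have h := (hfr' ⟨3, 3 * (n + 1) + 2, 2, pt 3 (3 * (n + 1) + 2), pt 1 (3 * (n + 1) + 1),
      pt 0 (3 * (n + 1)), pt 2 (3 * (n + 1) + 1), 1⟩ (by unfold frameQuads; simp)).1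
    simp only at h
    rw [← ha0, ← hb0, ← hd0, ea, eb, ed] at h
    have h1 := congrArg Prod.fst h
    have h2 := congrArg Prod.snd h
    simp only [lat, Prod.fst_add, Prod.snd_add] at h1 h2 ⊢
    refine Prod.ext ?_ ?_
    · push_cast at h1 ⊢; linarith
    · push_cast at h2 ⊢; linarith
  -- down the left bar
  have left : ∀ y, y ≤ 3 * (n + 1) → (p' (pt 3 (3 * (n + 1) - y + 2)) =
      lat 3 (3 * (n + 1) - y + 2) ∧ p' (pt 2 (3 * (n + 1) - y + 1)) =
      lat 2 (3 * (n + 1) - y + 1) ∧ p' (pt 0 (3 * (n + 1) - y)) = lat 0 (3 * (n + 1) - y)) := by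
    intro y
    induction y with
    | zero => intro _; exact ⟨ea, ed, ec⟩
    | succ y ih =>
      intro hy
      obtain ⟨i1, i2, i3⟩ := ih (by omega)
      obtain ⟨z, hz⟩ : ∃ z, z = 3 * (n + 1) - (y + 1) := ⟨_, rfl⟩
      have hz1 : 3 * (n + 1) - y = z + 1 := by omega
      have hzlt : z < 3 * (n + 1) := by omega
      rw [← hz]
      rw [hz1] at i1 i2 i3
      have q1 := hfr' ⟨3, z + 3, 1, pt 3 (z + 3), pt 2 (z + 2), pt 2 (z + 1), pt 3 (z + 2), 1⟩
        (by
          unfold frameQuads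
          simp only [List.mem_append, List.mem_flatMap, List.mem_range]
          left; left; left
          exact ⟨z, hzlt, by simp⟩)
      have q2 := hfr' ⟨2, z + 2, 1, pt 2 (z + 2), pt 0 (z + 1), pt 0 z, pt 2 (z + 1), 2⟩
        (by
          unfold frameQuads
          simp only [List.mem_append, List.mem_flatMap, List.mem_range]
          left; left; left
          exact ⟨z, hzlt, by simp⟩)
      have i1' : p' (pt 3 (z + 3)) = lat 3 (z + 3) := i1
      have i2' : p' (pt 2 (z + 2)) = lat 2 (z + 2) := i2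
      have i3' : p' (pt 0 (z + 1)) = lat 0 (z + 1) := i3
      have hs := step (M1 := 1) (M2 := 2) q1.1 (by simpa using q1.2) q2.1 (by simpa using q2.2)
        (by
          simp only
          rw [i1', i2']
          simp only [lat, Prod.mk_add_mk]
          refine Prod.ext ?_ ?_ <;> (push_cast; ring))
        (by
          simp only
          rw [i3', i2']
          simp only [lat, Prod.mk_add_mk]
          refine Prod.ext ?_ ?_ <;> (push_cast; ring))
      simp only at hs
      obtain ⟨s1, s2, s3⟩ := hs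
      refine ⟨?_, ?_, ?_⟩
      · rw [s1, i1']
        simp only [lat, Prod.mk_add_mk]
        refine Prod.ext ?_ ?_ <;> (push_cast; ring)
      · rw [s2, i2']
        simp only [lat, Prod.mk_add_mk]
        refine Prod.ext ?_ ?_ <;> (push_cast; ring)
      · rw [s3, i3']
        simp only [lat, Prod.mk_add_mk]
        refine Prod.ext ?_ ?_ <;> (push_cast; ring)
  have left' : ∀ y, y ≤ 3 * (n + 1) → (p' (pt 3 (y + 2)) = lat 3 (y + 2) ∧
      p' (pt 2 (y + 1)) = lat 2 (y + 1) ∧ p' (pt 0 y) = lat 0 y) := by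
    intro y hy
    have h := left (3 * (n + 1) - y) (by omega)
    have e : 3 * (n + 1) - (3 * (n + 1) - y) = y := by omega
    rwa [e] at h
  -- the corner
  have corner : p' (pt 5 2) = lat 5 2 ∧ p' (pt 4 1) = lat 4 1 ∧ p' (pt 2 0) = lat 2 0 := by
    obtain ⟨i1, i2, i3⟩ := left' 0 (by omega)
    have q1 := hfr' ⟨3, 2, 1, pt 3 2, pt 2 1, pt 4 1, pt 5 2, 2⟩ (by unfold frameQuads; simp)
    have q2 := hfr' ⟨2, 1, 1, pt 2 1, pt 0 0, pt 2 0, pt 4 1, 2⟩ (by unfold frameQuads; simp)
    have i1' : p' (pt 3 2) = lat 3 2 := i1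
    have i2' : p' (pt 2 1) = lat 2 1 := i2
    have hs := step (M1 := 2) (M2 := 2) q1.1 (by simpa using q1.2) q2.1 (by simpa using q2.2)
      (by
        simp only
        rw [i1', i2']
        simp only [lat, Prod.mk_add_mk]
        refine Prod.ext ?_ ?_ <;> (push_cast; norm_num))
      (by
        simp only
        rw [i3, i2']
        simp only [lat, Prod.mk_add_mk]
        refine Prod.ext ?_ ?_ <;> (push_cast; norm_num))
    simp only at hs
    obtain ⟨s1, s2, s3⟩ := hs
    refine ⟨?_, ?_, ?_⟩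
    · rw [s1, i1']
      simp only [lat, Prod.mk_add_mk]
      refine Prod.ext ?_ ?_ <;> (push_cast; norm_num)
    · rw [s2, i2']
      simp only [lat, Prod.mk_add_mk]
      refine Prod.ext ?_ ?_ <;> (push_cast; norm_num)
    · rw [s3, i3]
      simp only [lat, Prod.mk_add_mk]
      refine Prod.ext ?_ ?_ <;> (push_cast; norm_num)
  -- along the bottom bar
  have bot : ∀ x, x ≤ 3 * (m + 1) + 1 → (p' (pt (x + 5) 2) = lat (x + 5) 2 ∧
      p' (pt (x + 4) 1) = lat (x + 4) 1 ∧ p' (pt (x + 2) 0) = lat (x + 2) 0) := by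
    intro x
    induction x with
    | zero => intro _; exact corner
    | succ x ih =>
      intro hx
      obtain ⟨i1, i2, i3⟩ := ih (by omega)
      have hxlt : x < 3 * (m + 1) + 1 := by omega
      have q1 := hfr' ⟨x + 5, 2, 1, pt (x + 5) 2, pt (x + 4) 1, pt (x + 5) 1, pt (x + 6) 2, 1⟩
        (by
          unfold frameQuads
          simp only [List.mem_append, List.mem_flatMap, List.mem_range]
          left; right
          exact ⟨x, hxlt, by simp⟩)
      have q2 := hfr' ⟨x + 4, 1, 1, pt (x + 4) 1, pt (x + 2) 0, pt (x + 3) 0, pt (x + 5) 1, 1⟩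
        (by
          unfold frameQuads
          simp only [List.mem_append, List.mem_flatMap, List.mem_range]
          left; right
          exact ⟨x, hxlt, by simp⟩)
      have hs := step (M1 := 1) (M2 := 1) q1.1 (by simpa using q1.2) q2.1 (by simpa using q2.2)
        (by
          simp only
          rw [i1, i2]
          simp only [lat, Prod.mk_add_mk]
          refine Prod.ext ?_ ?_ <;> (push_cast; ring))
        (by
          simp only
          rw [i3, i2]
          simp only [lat, Prod.mk_add_mk]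
          refine Prod.ext ?_ ?_ <;> (push_cast; ring))
      simp only at hs
      obtain ⟨s1, s2, s3⟩ := hs
      refine ⟨?_, ?_, ?_⟩
      · have e : x + 1 + 5 = x + 6 := by ring
        rw [e, s1, i1]
        simp only [lat, Prod.mk_add_mk]
        refine Prod.ext ?_ ?_ <;> (push_cast; ring)
      · have e : x + 1 + 4 = x + 5 := by ring
        rw [e, s2, i2]
        simp only [lat, Prod.mk_add_mk]
        refine Prod.ext ?_ ?_ <;> (push_cast; ring)
      · have e : x + 1 + 2 = x + 3 := by ring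
        rw [e, s3, i3]
        simp only [lat, Prod.mk_add_mk]
        refine Prod.ext ?_ ?_ <;> (push_cast; ring)
  refine ⟨?_, ?_, ?_⟩
  · intro y h1 h2
    obtain ⟨z, rfl⟩ : ∃ z, y = z + 2 := ⟨y - 2, by omega⟩
    exact (left' z (by omega)).1
  · intro x h1 h2
    obtain ⟨z, rfl⟩ : ∃ z, x = z + 5 := ⟨x - 5, by omega⟩
    exact (bot z (by omega)).1
  · have q := (hfr' ⟨3, 2, 0, pt 3 2, pt 5 2, vq, pt 3 3, 2⟩ (by unfold frameQuads; simp)).1
    simp only at q
    have i1 : p' (pt 3 2) = lat 3 2 := (left' 0 (by omega)).1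
    have i2 : p' (pt 3 3) = lat 3 3 := (left' 1 (by omega)).1
    rw [i1, i2, corner.1] at q
    have h1 := congrArg Prod.fst q
    have h2 := congrArg Prod.snd q
    simp only [lat, Prod.fst_add, Prod.snd_add] at h1 h2 ⊢
    refine Prod.ext ?_ ?_
    · push_cast at h1 ⊢; linarith
    · push_cast at h2 ⊢; linarith

end Pool.Agent.PAH
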