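import Pool.Agent.PAH.Targets

set_option autoImplicit false

/-!
# Job N-HULL: vertices of inner faces are in the outer triangle, and the areas add up
-/

namespace Pool.Agent.PAH

open MeasureTheory

namespace HullJob

variable {V : Type}

lemma mem_darts_inner (G : FaceMap V) (i : Fin G.inner.length) {d : V × V}
    (hd : d ∈ dartsOf (G.inner.get i).1) : d ∈ G.darts := by
  unfold FaceMap.darts FaceMap.walks
  rw [List.mem_flatMap]
  exact ⟨(G.inner.get i).1, List.mem_cons_of_mem _ (List.mem_map_of_mem (List.get_mem _ _)), hd⟩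

lemma mem_darts_outer (G : FaceMap V) {d : V × V} (hd : d ∈ dartsOf G.outer) : d ∈ G.darts := by
  unfold FaceMap.darts FaceMap.walks
  rw [List.mem_flatMap]
  exact ⟨G.outer, List.mem_cons_self, hd⟩

lemma exists_dart {w : List V} {v : V} (hv : v ∈ w) : ∃ d ∈ dartsOf w, d.1 = v := by
  obtain ⟨i, hi, rfl⟩ := List.getElem_of_mem hv
  have hi' : i < (w.rotate 1).length := by rw [List.length_rotate]; exact hi
  refine ⟨(w[i], (w.rotate 1)[i]), ?_, rfl⟩
  unfold dartsOf
  have h1 : i < (w.zip (w.rotate 1)).length := by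
    rw [List.length_zip, List.length_rotate, min_self]; exact hi
  have h2 : (w.zip (w.rotate 1))[i] = (w[i], (w.rotate 1)[i]) := List.getElem_zip
  rw [← h2]
  exact List.getElem_mem h1

lemma rc_antisymm (a b : Plane) (x y : ℝ) : rc a b x y = - rc b a x y := by
  unfold rc
  by_cases h1 : a.1 < x ∧ x < b.1 ∧ 0 < det3 a b (x, y)
  · have h2 : ¬ (b.1 < x ∧ x < a.1 ∧ 0 < det3 b a (x, y)) := fun h => by
      linarith [h1.1, h.2.1]
    rw [if_pos h1, if_neg h2, if_pos h1]
    norm_num
  · rw [if_neg h1]
    by_cases h2 : b.1 < x ∧ x < a.1 ∧ 0 < det3 b a (x, y)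
    · rw [if_pos h2, if_pos h2]
    · rw [if_neg h2, if_neg h2, if_neg h1]; norm_num

/-- A point between two sides through the common vertex `U`. -/
lemma between (U W X : Plane) (x y : ℝ) (S : Set Plane) (hU : U ∈ S) (hW : W ∈ S) (hX : X ∈ S)
    (h1 : (U.1 < x ∧ x < W.1 ∧ x < X.1) ∨ (x < U.1 ∧ W.1 < x ∧ X.1 < x))
    (h2 : (W.1 - U.1) * ((x - U.1) * (W.2 - U.2)) ≤ (W.1 - U.1) * ((W.1 - U.1) * (y - U.2)))
    (h3 : (X.1 - U.1) * ((X.1 - U.1) * (y - U.2)) ≤ (X.1 - U.1) * ((x - U.1) * (X.2 - U.2))) :
    (x, y) ∈ convexHull ℝ S := by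
  have hconv := convex_convexHull ℝ S
  have key : ∀ Z ∈ S, ((U.1 < x ∧ x < Z.1) ∨ (x < U.1 ∧ Z.1 < x)) →
      (x, U.2 + (x - U.1) / (Z.1 - U.1) * (Z.2 - U.2)) ∈ convexHull ℝ S := by
    intro Z hZ hz
    have hne : Z.1 - U.1 ≠ 0 := by
      rcases hz with h | h
      · exact ne_of_gt (by linarith [h.1, h.2])
      · exact ne_of_lt (by linarith [h.1, h.2])
    have ht0 : 0 ≤ (x - U.1) / (Z.1 - U.1) := by
      rcases hz with h | h
      · exact div_nonneg (by linarith) (by linarith)
      · exact div_nonneg_of_nonpos (by linarith) (by linarith)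
    have ht1 : (x - U.1) / (Z.1 - U.1) ≤ 1 := by
      rcases hz with h | h
      · rw [div_le_one (by linarith)]; linarith
      · rw [div_le_one_of_neg (by linarith)]; linarith
    have h := hconv (subset_convexHull ℝ S hU) (subset_convexHull ℝ S hZ)
      (sub_nonneg.2 ht1) ht0 (by ring)
    have e : (1 - (x - U.1) / (Z.1 - U.1)) • U + ((x - U.1) / (Z.1 - U.1)) • Z =
        (x, U.2 + (x - U.1) / (Z.1 - U.1) * (Z.2 - U.2)) := by
      apply Prod.ext
      · simp only [Prod.fst_add, Prod.smul_fst, smul_eq_mul]
        field_simp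
        ring
      · simp only [Prod.snd_add, Prod.smul_snd, smul_eq_mul]
        ring
    rw [← e]
    exact h
  have hQ1 := key W hW (by rcases h1 with h | h; exacts [Or.inl ⟨h.1, h.2.1⟩, Or.inr ⟨h.1, h.2.1⟩])
  have hQ2 := key X hX (by rcases h1 with h | h; exacts [Or.inl ⟨h.1, h.2.2⟩, Or.inr ⟨h.1, h.2.2⟩])
  have hWU : 0 < (W.1 - U.1) ^ 2 := by
    rcases h1 with h | h
    · exact pow_pos (by linarith [h.1, h.2.1]) 2
    · exact sq_pos_of_neg (by linarith [h.1, h.2.1])
  have hXU : 0 < (X.1 - U.1) ^ 2 := by
    rcases h1 with h | h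
    · exact pow_pos (by linarith [h.1, h.2.2]) 2
    · exact sq_pos_of_neg (by linarith [h.1, h.2.2])
  have hle1 : U.2 + (x - U.1) / (W.1 - U.1) * (W.2 - U.2) ≤ y := by
    have : (x - U.1) / (W.1 - U.1) * (W.2 - U.2) =
        (W.1 - U.1) * ((x - U.1) * (W.2 - U.2)) / (W.1 - U.1) ^ 2 := by
      have : W.1 - U.1 ≠ 0 := fun h => by rw [h] at hWU; norm_num at hWU
      field_simp
    rw [this, ← le_sub_iff_add_le', div_le_iff₀ hWU]
    linarith
  have hle2 : y ≤ U.2 + (x - U.1) / (X.1 - U.1) * (X.2 - U.2) := by
    have : (x - U.1) / (X.1 - U.1) * (X.2 - U.2) =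
        (X.1 - U.1) * ((x - U.1) * (X.2 - U.2)) / (X.1 - U.1) ^ 2 := by
      have : X.1 - U.1 ≠ 0 := fun h => by rw [h] at hXU; norm_num at hXU
      field_simp
    rw [this, ← sub_le_iff_le_add', le_div_iff₀ hXU]
    linarith
  have hseg : (x, y) ∈ segment ℝ
      ((x, U.2 + (x - U.1) / (W.1 - U.1) * (W.2 - U.2)) : Plane)
      (x, U.2 + (x - U.1) / (X.1 - U.1) * (X.2 - U.2)) := by
    rw [← Prod.image_mk_segment_right, segment_eq_Icc (hle1.trans hle2)]
    exact ⟨y, ⟨hle1, hle2⟩, rfl⟩
  exact hconv.segment_subset hQ1 hQ2 hseg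

/-- If the crossing number of the triangle is `1` then the point is in the triangle. -/
lemma mem_tri (A B C : Plane) (x y : ℝ) (hA : A.1 ≠ x) (hB : B.1 ≠ x) (hC : C.1 ≠ x)
    (h : rc A B x y + rc B C x y + rc C A x y = 1) :
    (x, y) ∈ convexHull ℝ ({A, B, C} : Set Plane) := by
  have mA : A ∈ ({A, B, C} : Set Plane) := by simp
  have mB : B ∈ ({A, B, C} : Set Plane) := by simp
  have mC : C ∈ ({A, B, C} : Set Plane) := by simp
  -- one vertex `U` alone, with the cyclic order `U, W, X`
  have left : ∀ U W X : Plane, U ∈ ({A, B, C} : Set Plane) → W ∈ ({A, B, C} : Set Plane) →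
      X ∈ ({A, B, C} : Set Plane) → rc U W x y + rc W X x y + rc X U x y = 1 →
      (U.1 < x ∧ x < W.1 ∧ x < X.1) → (x, y) ∈ convexHull ℝ ({A, B, C} : Set Plane) := by
    intro U W X hU hW hX hs ⟨h1, h2, h3⟩
    have e1 : rc W X x y = 0 := by
      unfold rc
      rw [if_neg (fun h => by linarith [h.1]), if_neg (fun h => by linarith [h.1])]
    have e2 : rc X U x y ≤ 0 := by
      unfold rc
      rw [if_neg (fun h => by linarith [h.1])]
      split_ifs <;> norm_num
    have e3 : 0 < det3 U W (x, y) := by
      by_contra hn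
      have : rc U W x y = 0 := by
        unfold rc
        rw [if_neg (fun h => hn h.2.2), if_neg (fun h => by linarith [h.1])]
      linarith
    have e4 : rc U W x y ≤ 1 := by
      unfold rc
      split_ifs <;> norm_num
    have e5 : ¬ 0 < det3 U X (x, y) := by
      intro hp
      have : rc X U x y = -1 := by
        unfold rc
        rw [if_neg (fun h => by linarith [h.1]), if_pos ⟨h1, h3, hp⟩]
      linarith
    unfold det3 at e3 e5
    simp only at e3 e5
    refine between U W X x y _ hU hW hX (Or.inl ⟨h1, h2, h3⟩) ?_ ?_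
    · exact mul_le_mul_of_nonneg_left (by linarith) (by linarith)
    · exact mul_le_mul_of_nonneg_left (by linarith) (by linarith)
  have right : ∀ U W X : Plane, U ∈ ({A, B, C} : Set Plane) → W ∈ ({A, B, C} : Set Plane) →
      X ∈ ({A, B, C} : Set Plane) → rc U W x y + rc W X x y + rc X U x y = 1 →
      (x < U.1 ∧ W.1 < x ∧ X.1 < x) → (x, y) ∈ convexHull ℝ ({A, B, C} : Set Plane) := by
    intro U W X hU hW hX hs ⟨h1, h2, h3⟩
    have e1 : rc W X x y = 0 := by
      unfold rc
      rw [if_neg (fun h => by linarith [h.2.1]), if_neg (fun h => by linarith [h.2.1])]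
    have e2 : rc U W x y ≤ 0 := by
      unfold rc
      rw [if_neg (fun h => by linarith [h.1])]
      split_ifs <;> norm_num
    have e3 : 0 < det3 X U (x, y) := by
      by_contra hn
      have : rc X U x y = 0 := by
        unfold rc
        rw [if_neg (fun h => hn h.2.2), if_neg (fun h => by linarith [h.1])]
      linarith
    have e4 : rc X U x y ≤ 1 := by
      unfold rc
      split_ifs <;> norm_num
    have e5 : ¬ 0 < det3 W U (x, y) := by
      intro hp
      have : rc U W x y = -1 := by
        unfold rc
        rw [if_neg (fun h => by linarith [h.1]), if_pos ⟨h2, h1, hp⟩]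
      linarith
    unfold det3 at e3 e5
    simp only at e3 e5
    refine between U X W x y _ hU hX hW (Or.inr ⟨h1, h3, h2⟩) ?_ ?_
    · have : 0 ≤ (U.1 - X.1) * ((U.1 - X.1) * (y - X.2) - (U.2 - X.2) * (x - X.1)) :=
        mul_nonneg (by linarith) e3.le
      nlinarith [this]
    · have : 0 ≤ (U.1 - W.1) * (-((U.1 - W.1) * (y - W.2) - (U.2 - W.2) * (x - W.1))) :=
        mul_nonneg (by linarith) (by linarith)
      nlinarith [this]
  have hz : ∀ U W : Plane, (x < U.1 ∧ x < W.1) ∨ (U.1 < x ∧ W.1 < x) → rc U W x y = 0 := by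
    intro U W hh
    unfold rc
    rcases hh with hh | hh
    · rw [if_neg (fun h => by linarith [h.1]), if_neg (fun h => by linarith [h.1])]
    · rw [if_neg (fun h => by linarith [h.2.1]), if_neg (fun h => by linarith [h.2.1])]
  rcases lt_or_gt_of_ne hA with a1 | a1 <;> rcases lt_or_gt_of_ne hB with b1 | b1 <;>
    rcases lt_or_gt_of_ne hC with c1 | c1
  · rw [hz A B (Or.inr ⟨a1, b1⟩), hz B C (Or.inr ⟨b1, c1⟩), hz C A (Or.inr ⟨c1, a1⟩)] at h
    norm_num at h
  · exact right C A B mC mA mB (by linarith) ⟨c1, a1, b1⟩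
  · exact right B C A mB mC mA (by linarith) ⟨b1, c1, a1⟩
  · exact left A B C mA mB mC h ⟨a1, b1, c1⟩
  · exact right A B C mA mB mC h ⟨a1, b1, c1⟩
  · exact left B C A mB mC mA (by linarith) ⟨b1, c1, a1⟩
  · exact left C A B mC mA mB (by linarith) ⟨c1, a1, b1⟩
  · rw [hz A B (Or.inl ⟨a1, b1⟩), hz B C (Or.inl ⟨b1, c1⟩), hz C A (Or.inl ⟨c1, a1⟩)] at h
    norm_num at h

/-- The sum of an antisymmetric function over all walks is zero. -/
lemma sum_zero (G : FaceMap V) (D : Drawing G) (φ : V → V → ℝ) (hφ : ∀ u v, φ u v = - φ v u) :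
    wsum φ G.outer + (G.inner.map fun f => wsum φ f.1).sum = 0 := by
  classical
  have h1 : (G.darts.map fun d => φ d.1 d.2).sum =
      wsum φ G.outer + (G.inner.map fun f => wsum φ f.1).sum := by
    have : ∀ L : List (List V), ((L.flatMap dartsOf).map fun d => φ d.1 d.2).sum =
        (L.map (wsum φ)).sum := by
      intro L
      induction L with
      | nil => simp
      | cons w L ih => simp [List.flatMap_cons, ih, wsum]
    unfold FaceMap.darts FaceMap.walks
    rw [this, List.map_cons, List.sum_cons, List.map_map]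
    rfl
  have h2 : (G.darts.map Prod.swap).Perm G.darts := by
    refine (List.perm_ext_iff_of_nodup (D.nodup.map Prod.swap_injective) D.nodup).2 fun d => ?_
    rw [List.mem_map]
    constructor
    · rintro ⟨e, he, rfl⟩
      exact D.symm e he
    · intro hd
      exact ⟨d.swap, D.symm d hd, Prod.swap_swap d⟩
  have h3 := (h2.map fun d => φ d.1 d.2).sum_eq
  rw [List.map_map] at h3
  have h4 : (G.darts.map ((fun d : V × V => φ d.1 d.2) ∘ Prod.swap)).sum =
      - (G.darts.map fun d => φ d.1 d.2).sum := by
    have : ((fun d : V × V => φ d.1 d.2) ∘ Prod.swap) = fun d => - φ d.1 d.2 := by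
      ext d
      exact hφ d.2 d.1
    rw [this]
    induction G.darts with
    | nil => simp
    | cons e L ih => simp only [List.map_cons, List.sum_cons, ih]; ring
  rw [← h1]
  linarith

end HullJob

open HullJob in
theorem target_Hull (hS : TargetSlice) : TargetHull := by
  intro V G D a b c hout
  classical
  have hdo : ∀ d ∈ [(a, c), (c, b), (b, a)], d ∈ G.darts := by
    intro d hd
    apply mem_darts_outer
    rw [hout]
    simpa [dartsOf] using hd
  refine ⟨?_, ?_⟩
  · intro f hf v hv
    obtain ⟨i, hi⟩ := List.mem_iff_get.1 hf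
    subst hi
    obtain ⟨d, hd, rfl⟩ := exists_dart hv
    have hdG := mem_darts_inner G i hd
    have hne : D.pos d.1 ≠ D.pos d.2 := by
      intro h
      exact D.loopless d hdG (D.inj d hdG d.swap (D.symm d hdG) h)
    have hleft := (D.face_isFace i).left d hd
    set Tri : Set Plane := convexHull ℝ ({D.pos a, D.pos b, D.pos c} : Set Plane) with hTri
    have hclosed : IsClosed Tri :=
      Set.Finite.isClosed_convexHull ℝ (Set.toFinite _)
    -- generic points of the face are in the triangle
    have hgen : ∀ z ∈ D.face i, (∀ e ∈ G.darts, (D.pos e.1).1 ≠ z.1) → z ∈ Tri := by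
      rintro ⟨x, y⟩ hz hzg
      obtain ⟨z0, hz0, hcomp⟩ := (D.face_isFace i).component
      obtain ⟨z1, hz1, hcomp1⟩ := D.outer_isFace.component
      have hz' : (x, y) ∉ G.drawn D.pos := by
        rw [hcomp] at hz
        exact connectedComponentIn_subset _ _ hz
      have hnot : (x, y) ∉ D.outerFace := by
        intro ho
        apply D.outer_unbounded
        have e1 : D.face i = connectedComponentIn (G.drawn D.pos)ᶜ (x, y) := by
          rw [hcomp]
          rw [hcomp] at hz
          exact connectedComponentIn_eq hz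
        have e2 : D.outerFace = connectedComponentIn (G.drawn D.pos)ᶜ (x, y) := by
          rw [hcomp1]
          rw [hcomp1] at ho
          exact connectedComponentIn_eq ho
        rw [e2, ← e1]
        exact D.face_bounded i
      have hw := (hS G D x y hzg hz').2.2 hnot
      rw [hout] at hw
      have hw' : rc (D.pos a) (D.pos c) x y + rc (D.pos c) (D.pos b) x y +
          rc (D.pos b) (D.pos a) x y = -1 := by
        rw [← hw]
        simp [wsum, dartsOf]
        ring
      have r1 := rc_antisymm (D.pos a) (D.pos c) x y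
      have r2 := rc_antisymm (D.pos c) (D.pos b) x y
      have r3 := rc_antisymm (D.pos b) (D.pos a) x y
      apply mem_tri
      · exact hzg (a, c) (hdo _ (by simp))
      · exact hzg (b, a) (hdo _ (by simp))
      · exact hzg (c, b) (hdo _ (by simp))
      · linarith
    -- points of the open segment are in the closure
    have hseg : ∀ w ∈ openSegment ℝ (D.pos d.1) (D.pos d.2), w ∈ Tri := by
      intro w hw
      obtain ⟨ε, hε, hball⟩ := hleft w hw
      have hcl : w ∈ closure Tri := by
        rw [Metric.mem_closure_iff]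
        intro δ hδ
        let P := D.pos d.1
        let Q := D.pos d.2
        have hcontdet : Continuous (fun z : Plane => det3 P Q z) := by
          unfold det3
          fun_prop
        have hOo : IsOpen (Metric.ball w (min ε δ) ∩ {z : Plane | 0 < det3 P Q z}) :=
          Metric.isOpen_ball.inter (isOpen_lt continuous_const hcontdet)
        -- a point of the open set
        have hdw : det3 P Q w = 0 := by
          obtain ⟨s, t, _, _, hst, rfl⟩ := hw
          have : s = 1 - t := by linarith
          subst this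
          unfold det3
          simp only [Prod.fst_add, Prod.smul_fst, Prod.snd_add, Prod.smul_snd, smul_eq_mul]
          ring
        let N : Plane := (-(Q.2 - P.2), Q.1 - P.1)
        have hN : 0 < (Q.1 - P.1) ^ 2 + (Q.2 - P.2) ^ 2 := by
          by_contra hle
          have h1 : (Q.1 - P.1) ^ 2 = 0 := by nlinarith [sq_nonneg (Q.1 - P.1), sq_nonneg (Q.2 - P.2)]
          have h2 : (Q.2 - P.2) ^ 2 = 0 := by nlinarith [sq_nonneg (Q.1 - P.1), sq_nonneg (Q.2 - P.2)]
          apply hne
          apply Prod.ext
          · have := pow_eq_zero_iff (two_ne_zero) |>.1 h1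
            linarith
          · have := pow_eq_zero_iff (two_ne_zero) |>.1 h2
            linarith
        have hcontl : Filter.Tendsto (fun s : ℝ => w + s • N) (nhdsWithin 0 (Set.Ioi 0)) (nhds w) := by
          have : Continuous (fun s : ℝ => w + s • N) := by fun_prop
          have h := this.tendsto 0
          simp only [zero_smul, add_zero] at h
          exact h.mono_left nhdsWithin_le_nhds
        have hev : ∀ᶠ s in nhdsWithin (0 : ℝ) (Set.Ioi 0), w + s • N ∈ Metric.ball w (min ε δ) :=
          hcontl.eventually (Metric.ball_mem_nhds w (lt_min hε hδ))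
        obtain ⟨s, hs1, hs2⟩ := (hev.and self_mem_nhdsWithin).exists
        have hs0 : 0 < s := hs2
        have hz0 : w + s • N ∈ Metric.ball w (min ε δ) ∩ {z : Plane | 0 < det3 P Q z} := by
          refine ⟨hs1, ?_⟩
          show 0 < det3 P Q (w + s • N)
          have : det3 P Q (w + s • N) = det3 P Q w + s * ((Q.1 - P.1) ^ 2 + (Q.2 - P.2) ^ 2) := by
            unfold det3
            simp only [N, Prod.fst_add, Prod.smul_fst, Prod.snd_add, Prod.smul_snd, smul_eq_mul]
            ring
          rw [this, hdw, zero_add]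
          positivity
        -- a generic point
        have hinf : {t : ℝ | (t, (w + s • N).2) ∈
            Metric.ball w (min ε δ) ∩ {z : Plane | 0 < det3 P Q z}}.Infinite := by
          apply infinite_of_mem_nhds (w + s • N).1
          apply IsOpen.mem_nhds
          · exact hOo.preimage (by fun_prop : Continuous fun t : ℝ => (t, (w + s • N).2))
          · exact hz0
        obtain ⟨t, ht, htn⟩ := hinf.exists_notMem_finset
          ((G.darts.map fun e => (D.pos e.1).1).toFinset)
        refine ⟨(t, (w + s • N).2), ?_, ?_⟩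
        · apply hgen
          · apply hball _ _ ht.2
            exact Metric.ball_subset_ball (min_le_left _ _) ht.1
          · intro e he heq
            apply htn
            rw [List.mem_toFinset, List.mem_map]
            exact ⟨e, he, heq⟩
        · have := Metric.mem_ball'.1 ht.1
          exact this.trans_le (min_le_right _ _)
      rwa [hclosed.closure_eq] at hcl
    have h1 : D.pos d.1 ∈ closure (openSegment ℝ (D.pos d.1) (D.pos d.2)) := by
      rw [closure_openSegment]
      exact left_mem_segment ℝ _ _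
    have h2 : closure (openSegment ℝ (D.pos d.1) (D.pos d.2)) ⊆ Tri := by
      rw [← hclosed.closure_eq]
      exact closure_mono hseg
    exact h2 h1
  · have h := sum_zero G D (fun u v => (D.pos u).1 * (D.pos v).2 - (D.pos u).2 * (D.pos v).1)
      (fun u v => by ring)
    rw [hout] at h
    have h1 : wsum (fun u v => (D.pos u).1 * (D.pos v).2 - (D.pos u).2 * (D.pos v).1) [a, c, b] =
        - det3 (D.pos a) (D.pos b) (D.pos c) := by
      simp [wsum, dartsOf, det3]
      ring
    rw [h1] at h
    unfold shoelace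
    linarith

end Pool.Agent.PAH
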