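import Pool.Agent.PAH.Targets
import Pool.Agent.Lib.StackProg

set_option autoImplicit false

/-!
# The polynomial time class of string functions given by stack programs

`Mach.PP f` says that `f : α → β` (tuples of strings) is computed by a stack program in polynomial
time.  `Mach.polyClass Γ : PolyClass Γ` are its closure properties, and `Mach.computable` gives
Mathlib's `Turing.TM2ComputableInPolyTime`.  `targetMachine : TargetMachine`.
-/

namespace Pool.Agent.PAH

open Pool.Agent.StackProg Function

namespace Mach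

/-! ### Transport of programs along injections of the stack index type -/

/-- rename the stacks of a program -/
def pmap {K K' Γ σ : Type} (g : K → K') : Prog K Γ σ → Prog K' Γ σ
  | .skip => .skip
  | .push k f => .push (g k) f
  | .pop k f => .pop (g k) f
  | .load f => .load f
  | .seq p q => .seq (pmap g p) (pmap g q)
  | .ite f p q => .ite f (pmap g p) (pmap g q)
  | .loop k f p => .loop (g k) f (pmap g p)

lemma update_agree {K K' Γ : Type} [DecidableEq K] [DecidableEq K'] {g : K → K'}
    (hg : Injective g) {T : K → List Γ} {S : K' → List Γ} (hS : ∀ k, S (g k) = T k) (k : K)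
    (l : List Γ) : ∀ j, update S (g k) l (g j) = update T k l j := by
  intro j
  by_cases hj : j = k
  · subst hj; simp
  · rw [update_of_ne (hg.ne hj), update_of_ne hj, hS]

theorem exec_pmap {K K' Γ σ : Type} [DecidableEq K] [DecidableEq K'] {g : K → K'}
    (hg : Injective g) {p : Prog K Γ σ} {s s' : σ × (K → List Γ)} {t : ℕ} (h : Exec p s t s') :
    ∀ S : K' → List Γ, (∀ k, S (g k) = s.2 k) → ∃ S' : K' → List Γ,
      Exec (pmap g p) (s.1, S) t (s'.1, S') ∧ (∀ k, S' (g k) = s'.2 k) ∧
        ∀ m, (∀ k, g k ≠ m) → S' m = S m := by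
  induction h with
  | skip s => intro S hS; exact ⟨S, Exec.skip _, hS, fun _ _ => rfl⟩
  | push k f v T =>
    intro S hS
    refine ⟨update S (g k) (f v :: S (g k)), Exec.push _ _ _ _, ?_, fun m hm => ?_⟩
    · simp only at hS
      rw [hS k]
      exact update_agree hg hS k _
    · exact update_of_ne (hm k).symm _ _
  | pop k f v T =>
    intro S hS
    refine ⟨update S (g k) (S (g k)).tail, ?_, ?_, fun m hm => ?_⟩
    · have := Exec.pop (g k) f v S
      simp only at hS
      rw [hS k] at this
      rw [hS k]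
      exact this
    · simp only at hS
      rw [hS k]
      exact update_agree hg hS k _
    · exact update_of_ne (hm k).symm _ _
  | load f v T => intro S hS; exact ⟨S, Exec.load _ _ _, hS, fun _ _ => rfl⟩
  | seq _ _ ih1 ih2 =>
    intro S hS
    obtain ⟨S1, e1, a1, b1⟩ := ih1 S hS
    obtain ⟨S2, e2, a2, b2⟩ := ih2 S1 a1
    exact ⟨S2, Exec.seq e1 e2, a2, fun m hm => (b2 m hm).trans (b1 m hm)⟩
  | iteT hf _ ih =>
    intro S hS
    obtain ⟨S1, e1, a1, b1⟩ := ih S hS
    exact ⟨S1, Exec.iteT hf e1, a1, b1⟩
  | iteF hf _ ih =>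
    intro S hS
    obtain ⟨S1, e1, a1, b1⟩ := ih S hS
    exact ⟨S1, Exec.iteF hf e1, a1, b1⟩
  | @loopNil k f p v T hT =>
    intro S hS
    exact ⟨S, Exec.loopNil ((hS k).trans hT), hS, fun _ _ => rfl⟩
  | @loopCons k f p v T c l s' s'' t t' hT _ _ ih1 ih2 =>
    intro S hS
    obtain ⟨S1, e1, a1, b1⟩ := ih1 (update S (g k) l) (update_agree hg hS k l)
    obtain ⟨S2, e2, a2, b2⟩ := ih2 S1 a1
    refine ⟨S2, Exec.loopCons ((hS k).trans hT) e1 e2, a2, fun m hm => ?_⟩
    rw [b2 m hm, b1 m hm]
    exact update_of_ne (hm k).symm _ _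

/-! ### Executions with a time bound -/

/-- execution in at most `b` steps -/
def Ex {M Γ : Type} [DecidableEq M] (p : Prog M Γ (Option Γ)) (s : Option Γ × (M → List Γ)) (b : ℕ)
    (s' : Option Γ × (M → List Γ)) : Prop := ∃ t ≤ b, Exec p s t s'

section
variable {M Γ : Type} [DecidableEq M] {p q : Prog M Γ (Option Γ)}
  {s s' s'' : Option Γ × (M → List Γ)} {b b' : ℕ}

lemma Ex.mono (h : Ex p s b s') (hb : b ≤ b') : Ex p s b' s' := by
  obtain ⟨t, ht, e⟩ := h
  exact ⟨t, ht.trans hb, e⟩

lemma Ex.seq (h : Ex p s b s') (h' : Ex q s' b' s'') : Ex (.seq p q) s (b + b') s'' := by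
  obtain ⟨t, ht, e⟩ := h
  obtain ⟨t', ht', e'⟩ := h'
  exact ⟨t + t', by omega, e.seq e'⟩

lemma Ex.push (k : M) (f : Option Γ → Γ) (v : Option Γ) (S : M → List Γ) :
    Ex (.push k f) (v, S) 1 (v, update S k (f v :: S k)) := ⟨1, le_rfl, Exec.push _ _ _ _⟩

lemma Ex.load (f : Option Γ → Option Γ) (v : Option Γ) (S : M → List Γ) :
    Ex (.load f) (v, S) 1 (f v, S) := ⟨1, le_rfl, Exec.load _ _ _⟩

lemma Ex.skip (s : Option Γ × (M → List Γ)) : Ex .skip s 1 s := ⟨1, le_rfl, Exec.skip _⟩

end

/-! ### Basic programs -/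

section
variable {M Γ : Type} [DecidableEq M]

/-- empty the stack `k` -/
def clear (k : M) : Prog M Γ (Option Γ) := .loop k (fun _ _ => none) .skip

lemma ex_clear (k : M) (S : M → List Γ) :
    Ex (clear k) (none, S) (2 * (S k).length + 1) (none, update S k []) := by
  obtain ⟨l, hl⟩ : ∃ l, S k = l := ⟨_, rfl⟩
  rw [hl]
  induction l generalizing S with
  | nil => exact ⟨1, by simp, by rw [← hl, update_eq_self]; exact Exec.loopNil hl⟩
  | cons c l ih =>
    obtain ⟨t, ht, e⟩ := ih (update S k l) (by simp)
    refine ⟨1 + 1 + t, by simp only [List.length_cons]; omega, ?_⟩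
    have := Exec.loopCons (f := fun _ _ => none) (p := .skip) (v := none) hl (Exec.skip _) e
    rw [update_idem] at this
    exact this

/-- push the symbol in the register -/
def pushReg [Inhabited Γ] (k : M) : Prog M Γ (Option Γ) := .push k fun v => v.getD default

/-- move stack `i` to stack `j` (reversing it) -/
def move [Inhabited Γ] (i j : M) : Prog M Γ (Option Γ) :=
  .seq (.loop i (fun _ c => some c) (pushReg j)) (.load fun _ => none)

lemma ex_moveLoop [Inhabited Γ] {i j : M} (hij : i ≠ j) (v : Option Γ) (S : M → List Γ) :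
    ∃ v', Ex (.loop i (fun _ c => some c) (pushReg j)) (v, S) (2 * (S i).length + 1)
      (v', update (update S i []) j ((S i).reverse ++ S j)) := by
  obtain ⟨l, hl⟩ : ∃ l, S i = l := ⟨_, rfl⟩
  rw [hl]
  induction l generalizing S v with
  | nil =>
    refine ⟨v, 1, by simp, ?_⟩
    have h0 : update S i [] = S := by
      have := update_eq_self i S
      rwa [hl] at this
    have h1 : update (update S i []) j (([] : List Γ).reverse ++ S j) = S := by
      rw [h0]
      exact update_eq_self j S
    rw [h1]
    exact Exec.loopNil hl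
  | cons c l ih =>
    obtain ⟨v', t, ht, e⟩ := ih (some c) (update (update S i l) j (c :: S j))
      (by rw [update_of_ne hij]; simp)
    refine ⟨v', 1 + 1 + t, by simp only [List.length_cons]; omega, ?_⟩
    have hp := Exec.push j (fun v : Option Γ => v.getD default) (some c) (update S i l)
    rw [update_of_ne hij.symm] at hp
    have := Exec.loopCons (f := fun _ c => some c) (p := pushReg j) (v := v) hl hp e
    have h2 : update (update (update (update S i l) j (c :: S j)) i []) j
        (l.reverse ++ update (update S i l) j (c :: S j) j) =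
        update (update S i []) j ((c :: l).reverse ++ S j) := by
      rw [update_comm hij.symm, update_idem, update_idem]
      simp
    rw [h2] at this
    exact this

lemma ex_move [Inhabited Γ] {i j : M} (hij : i ≠ j) (S : M → List Γ) :
    Ex (move i j) (none, S) (2 * (S i).length + 2)
      (none, update (update S i []) j ((S i).reverse ++ S j)) := by
  obtain ⟨v', h⟩ := ex_moveLoop hij none S
  exact (h.seq (Ex.load _ _ _)).mono (by omega)

/-- move stack `i` to both `j` and `k` (reversing it) -/
def dup [Inhabited Γ] (i j k : M) : Prog M Γ (Option Γ) :=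
  .seq (.loop i (fun _ c => some c) (.seq (pushReg j) (pushReg k))) (.load fun _ => none)

lemma ex_dupLoop [Inhabited Γ] {i j k : M} (hij : i ≠ j) (hik : i ≠ k) (hjk : j ≠ k)
    (v : Option Γ) (S : M → List Γ) :
    ∃ v', Ex (.loop i (fun _ c => some c) (.seq (pushReg j) (pushReg k))) (v, S)
      (3 * (S i).length + 1)
      (v', update (update (update S i []) j ((S i).reverse ++ S j)) k
        ((S i).reverse ++ S k)) := by
  obtain ⟨l, hl⟩ : ∃ l, S i = l := ⟨_, rfl⟩
  rw [hl]
  induction l generalizing S v with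
  | nil =>
    refine ⟨v, 1, by simp, ?_⟩
    have h0 : update S i [] = S := by
      have := update_eq_self i S
      rwa [hl] at this
    have h1 : update (update (update S i []) j (([] : List Γ).reverse ++ S j)) k
        (([] : List Γ).reverse ++ S k) = S := by
      rw [h0]
      have h2 : update S j (([] : List Γ).reverse ++ S j) = S := update_eq_self j S
      rw [h2]
      exact update_eq_self k S
    rw [h1]
    exact Exec.loopNil hl
  | cons c l ih =>
    obtain ⟨v', t, ht, e⟩ := ih (some c)
      (update (update (update S i l) j (c :: S j)) k (c :: S k))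
      (by rw [update_of_ne hik, update_of_ne hij]; simp)
    refine ⟨v', 1 + (1 + 1) + t, by simp only [List.length_cons]; omega, ?_⟩
    have hp := Exec.push j (fun v : Option Γ => v.getD default) (some c) (update S i l)
    rw [update_of_ne hij.symm] at hp
    have hq := Exec.push k (fun v : Option Γ => v.getD default) (some c)
      (update (update S i l) j (c :: S j))
    rw [update_of_ne hjk.symm, update_of_ne hik.symm] at hq
    have := Exec.loopCons (f := fun _ c => some c) (v := v) hl (hp.seq hq) e
    have h2 : update (update (update (update (update (update S i l) j (c :: S j)) k (c :: S k)) i [])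
        j (l.reverse ++ update (update (update S i l) j (c :: S j)) k (c :: S k) j)) k
        (l.reverse ++ update (update (update S i l) j (c :: S j)) k (c :: S k) k) =
        update (update (update S i []) j ((c :: l).reverse ++ S j)) k
          ((c :: l).reverse ++ S k) := by
      funext m
      by_cases hk : m = k
      · subst hk; simp
      · by_cases hj : m = j
        · subst hj; simp [hjk]
        · by_cases hi : m = i
          · subst hi; simp [hk, hj]
          · simp [hk, hj, hi]
    rw [h2] at this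
    exact this

/-- copy stack `i` on top of `j`, with an auxiliary stack `k` -/
def copy [Inhabited Γ] (i j k : M) : Prog M Γ (Option Γ) := .seq (move i k) (dup k i j)

lemma ex_copy [Inhabited Γ] {i j k : M} (hij : i ≠ j) (hik : i ≠ k) (hjk : j ≠ k)
    (S : M → List Γ) (hk : S k = []) :
    Ex (copy i j k) (none, S) (5 * (S i).length + 4) (none, update S j (S i ++ S j)) := by
  have h1 := ex_move hik S
  obtain ⟨v', h2⟩ := ex_dupLoop (i := k) (j := i) (k := j) hik.symm hjk.symm hij none
    (update (update S i []) k ((S i).reverse ++ S k))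
  have h3 := h1.seq (h2.seq (Ex.load (fun _ => none) _ _))
  have h4 : update (update (update (update (update S i []) k ((S i).reverse ++ S k)) k []) i
      ((update (update S i []) k ((S i).reverse ++ S k) k).reverse ++
        update (update S i []) k ((S i).reverse ++ S k) i)) j
      ((update (update S i []) k ((S i).reverse ++ S k) k).reverse ++
        update (update S i []) k ((S i).reverse ++ S k) j) = update S j (S i ++ S j) := by
    funext m
    by_cases hj : m = j
    · subst hj
      simp [hk, hjk, hij.symm]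
    · by_cases hi : m = i
      · subst hi; simp [hik, hk, hj]
      · by_cases hk' : m = k
        · subst hk'; simp [hk, hi, hj]
        · simp [hk', hj, hi]
  rw [h4] at h3
  refine h3.mono ?_
  simp only [update_self, List.length_append, List.length_reverse, hk, List.length_nil]
  omega

/-- run `p i` for all `i` in a list -/
def seqAll {ι : Type} (p : ι → Prog M Γ (Option Γ)) : List ι → Prog M Γ (Option Γ)
  | [] => .skip
  | i :: l => .seq (p i) (seqAll p l)

lemma ex_clearAll {ι : Type} (d : ι → M) (l : List ι) (S S' : M → List Γ) (B : ℕ)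
    (hB : ∀ i, (S (d i)).length ≤ B) (h0 : ∀ i ∈ l, S' (d i) = [])
    (h1 : ∀ m, (∀ i ∈ l, d i ≠ m) → S' m = S m) :
    Ex (seqAll (fun i => clear (d i)) l) (none, S) (l.length * (2 * B + 1) + 1) (none, S') := by
  induction l generalizing S with
  | nil =>
    have : S' = S := funext fun m => h1 m (by simp)
    rw [this]
    exact (Ex.skip _).mono (by simp)
  | cons i l ih =>
    have a1 := (ex_clear (d i) S).mono (b' := 2 * B + 1) (by have := hB i; omega)
    have a2 := ih (update S (d i) []) (fun j => by
        by_cases hj : d j = d i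
        · rw [hj, update_self]; simp
        · rw [update_of_ne hj]; exact hB j)
      (fun j hj => h0 j (List.mem_cons_of_mem _ hj)) (fun m hm => by
        by_cases hi : m = d i
        · subst hi
          rw [update_self]
          exact h0 i List.mem_cons_self
        · rw [update_of_ne hi]
          refine h1 m fun j hj => ?_
          rcases List.mem_cons.1 hj with rfl | hj
          · exact fun h => hi h.symm
          · exact hm j hj)
    refine (a1.seq a2).mono ?_
    simp only [List.length_cons]
    ring_nf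
    omega

lemma ex_copyAll [Inhabited Γ] {ι : Type} (src dst : ι → M) (tmp : M) (hinj : Injective dst)
    (n1 : ∀ i j, src i ≠ dst j) (n2 : ∀ i, src i ≠ tmp) (n3 : ∀ i, dst i ≠ tmp) (l : List ι)
    (hl : l.Nodup) (S S' : M → List Γ) (B : ℕ) (hB : ∀ i, (S (src i)).length ≤ B)
    (ht : S tmp = []) (h0 : ∀ i ∈ l, S' (dst i) = S (src i) ++ S (dst i))
    (h1 : ∀ m, (∀ i ∈ l, dst i ≠ m) → S' m = S m) :
    Ex (seqAll (fun i => copy (src i) (dst i) tmp) l) (none, S) (l.length * (5 * B + 4) + 1)
      (none, S') := by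
  induction l generalizing S with
  | nil =>
    have : S' = S := funext fun m => h1 m (by simp)
    rw [this]
    exact (Ex.skip _).mono (by simp)
  | cons i l ih =>
    have a1 := (ex_copy (n1 i i) (n2 i) (n3 i) S ht).mono (b' := 5 * B + 4)
      (by have := hB i; omega)
    have hl' := List.nodup_cons.1 hl
    have a2 := ih hl'.2 (update S (dst i) (S (src i) ++ S (dst i))) (fun j => by
        rw [update_of_ne (n1 j i)]
        exact hB j) (by rw [update_of_ne (n3 i).symm]; exact ht)
      (fun j hj => by
        have hji : dst j ≠ dst i := by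
          intro h
          have := hinj h
          subst this
          exact hl'.1 hj
        rw [update_of_ne (n1 j i), update_of_ne hji]
        exact h0 j (List.mem_cons_of_mem _ hj)) (fun m hm => by
        by_cases hi : m = dst i
        · subst hi
          rw [update_self]
          exact h0 i List.mem_cons_self
        · rw [update_of_ne hi]
          refine h1 m fun j hj => ?_
          rcases List.mem_cons.1 hj with rfl | hj
          · exact fun h => hi h.symm
          · exact hm j hj)
    refine (a1.seq a2).mono ?_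
    simp only [List.length_cons]
    ring_nf
    omega

/-- push all symbols of a list -/
def pushAll (k : M) : List Γ → Prog M Γ (Option Γ)
  | [] => .skip
  | c :: l => .seq (pushAll k l) (.push k fun _ => c)

lemma ex_pushAll (k : M) (l : List Γ) (S : M → List Γ) :
    Ex (pushAll k l) (none, S) (l.length + 1) (none, update S k (l ++ S k)) := by
  induction l with
  | nil =>
    rw [List.nil_append, update_eq_self]
    exact (Ex.skip _).mono (by simp)
  | cons c l ih =>
    have a2 := Ex.push k (fun _ => c) none (update S k (l ++ S k))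
    rw [update_self, update_idem] at a2
    exact ih.seq a2

/-- branch on the register -/
def switch [DecidableEq Γ] (pc : Γ → Prog M Γ (Option Γ)) (p0 : Prog M Γ (Option Γ)) :
    List Γ → Prog M Γ (Option Γ)
  | [] => p0
  | c :: l => .ite (fun v => decide (v = some c)) (pc c) (switch pc p0 l)

lemma ex_switch_some [DecidableEq Γ] {pc : Γ → Prog M Γ (Option Γ)} {p0 : Prog M Γ (Option Γ)}
    {l : List Γ} {c : Γ} (hc : c ∈ l) {S : M → List Γ} {b : ℕ} {s' : Option Γ × (M → List Γ)}
    (h : Ex (pc c) (some c, S) b s') : Ex (switch pc p0 l) (some c, S) (b + l.length) s' := by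
  induction l with
  | nil => simp at hc
  | cons d l ih =>
    by_cases hd : c = d
    · subst hd
      obtain ⟨t, ht, e⟩ := h
      exact ⟨1 + t, by simp only [List.length_cons]; omega, Exec.iteT (by simp) e⟩
    · have hc' : c ∈ l := by
        rcases List.mem_cons.1 hc with h | h
        · exact absurd h hd
        · exact h
      obtain ⟨t, ht, e⟩ := ih hc'
      exact ⟨1 + t, by simp only [List.length_cons]; omega, Exec.iteF (by simp [hd]) e⟩

lemma ex_switch_none [DecidableEq Γ] {pc : Γ → Prog M Γ (Option Γ)} {p0 : Prog M Γ (Option Γ)}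
    (l : List Γ) {S : M → List Γ} {b : ℕ} {s' : Option Γ × (M → List Γ)}
    (h : Ex p0 (none, S) b s') : Ex (switch pc p0 l) (none, S) (b + l.length) s' := by
  induction l with
  | nil => exact h.mono (by simp)
  | cons d l ih =>
    obtain ⟨t, ht, e⟩ := ih
    exact ⟨1 + t, by simp only [List.length_cons]; omega, Exec.iteF (by simp) e⟩

/-- loops: `St l` are the stacks after processing the symbols `l` -/
lemma ex_loop {k : M} {p : Prog M Γ (Option Γ)} {B : ℕ} (L : List Γ)
    (St : List Γ → (M → List Γ))
    (h : ∀ l c r, l ++ c :: r = L →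
      Ex p (some c, update (St l) k r) B (none, update (St (l ++ [c])) k r)) :
    ∀ r l, l ++ r = L →
      Ex (.loop k (fun _ c => some c) p) (none, update (St l) k r) (r.length * (B + 1) + 1)
        (none, update (St L) k []) := by
  intro r
  induction r with
  | nil =>
    intro l hl
    rw [List.append_nil] at hl
    subst hl
    exact ⟨1, by simp, Exec.loopNil (by simp)⟩
  | cons c r ih =>
    intro l hl
    obtain ⟨t, ht, e⟩ := h l c r hl
    obtain ⟨t', ht', e'⟩ := ih (l ++ [c]) (by simp [hl])
    refine ⟨1 + t + t', ?_, ?_⟩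
    · simp only [List.length_cons]
      have : (r.length + 1) * (B + 1) = r.length * (B + 1) + (B + 1) := by ring
      omega
    · refine Exec.loopCons (c := c) (l := r) (by simp) ?_ e'
      rw [update_idem]
      exact e

end

/-! ### Polynomial bounds -/

/-- `g` is bounded by a polynomial in `sz` -/
def PB {A : Type} (sz g : A → ℕ) : Prop := ∃ Q : Polynomial ℕ, ∀ a, g a ≤ Q.eval (sz a)

lemma eval_mono (Q : Polynomial ℕ) {m n : ℕ} (h : m ≤ n) : Q.eval m ≤ Q.eval n := by
  rw [Polynomial.eval_eq_sum_range, Polynomial.eval_eq_sum_range]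
  exact Finset.sum_le_sum fun i _ => Nat.mul_le_mul le_rfl (Nat.pow_le_pow_left h i)

section
variable {A : Type} {sz g g' : A → ℕ}

lemma PB.self : PB sz sz := ⟨Polynomial.X, fun a => by simp⟩

lemma PB.const (n : ℕ) : PB sz (fun _ => n) := ⟨Polynomial.C n, fun a => by simp⟩

lemma PB.add (h : PB sz g) (h' : PB sz g') : PB sz (fun a => g a + g' a) := by
  obtain ⟨Q, hQ⟩ := h
  obtain ⟨Q', hQ'⟩ := h'
  exact ⟨Q + Q', fun a => by rw [Polynomial.eval_add]; exact Nat.add_le_add (hQ a) (hQ' a)⟩

lemma PB.mul (h : PB sz g) (h' : PB sz g') : PB sz (fun a => g a * g' a) := by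
  obtain ⟨Q, hQ⟩ := h
  obtain ⟨Q', hQ'⟩ := h'
  exact ⟨Q * Q', fun a => by rw [Polynomial.eval_mul]; exact Nat.mul_le_mul (hQ a) (hQ' a)⟩

lemma PB.mono (h : PB sz g') (hg : ∀ a, g a ≤ g' a) : PB sz g := by
  obtain ⟨Q, hQ⟩ := h
  exact ⟨Q, fun a => (hg a).trans (hQ a)⟩

lemma PB.eval (h : PB sz g) (Q : Polynomial ℕ) : PB sz (fun a => Q.eval (g a)) := by
  obtain ⟨Q', hQ'⟩ := h
  exact ⟨Q.comp Q', fun a => by rw [Polynomial.eval_comp]; exact eval_mono Q (hQ' a)⟩

lemma PB.trans {B : Type} {sz' : B → ℕ} (h : PB sz g) {x : B → A}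
    (hx : PB sz' (fun b => sz (x b))) : PB sz' (fun b => g (x b)) := by
  obtain ⟨Q, hQ⟩ := h
  exact (hx.eval Q).mono fun b => hQ (x b)

lemma PB.sum {ι : Type} (s : Finset ι) {G : ι → A → ℕ} (h : ∀ i, PB sz (G i)) :
    PB sz (fun a => ∑ i ∈ s, G i a) := by
  classical
  induction s using Finset.induction_on with
  | empty => simpa using PB.const (sz := sz) 0
  | insert i s hi ih =>
    simp only [Finset.sum_insert hi]
    exact (h i).add ih

end

/-! ### Families of computations -/

/-- there is a program which, for all parameters `a`, leads from `s a` to `s' a` in time polynomial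
in `sz a` -/
def Can {A M Γ : Type} [DecidableEq M] (sz : A → ℕ) (s s' : A → Option Γ × (M → List Γ)) : Prop :=
  ∃ (p : Prog M Γ (Option Γ)) (Q : Polynomial ℕ), ∀ a, Ex p (s a) (Q.eval (sz a)) (s' a)

section
variable {A M Γ : Type} [DecidableEq M] {sz : A → ℕ} {s s' s'' : A → Option Γ × (M → List Γ)}

lemma Can.of {p : Prog M Γ (Option Γ)} {g : A → ℕ} (hg : PB sz g)
    (h : ∀ a, Ex p (s a) (g a) (s' a)) : Can sz s s' := by
  obtain ⟨Q, hQ⟩ := hg
  exact ⟨p, Q, fun a => (h a).mono (hQ a)⟩

lemma Can.seq (h : Can sz s s') (h' : Can sz s' s'') : Can sz s s'' := by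
  obtain ⟨p, Q, h⟩ := h
  obtain ⟨p', Q', h'⟩ := h'
  exact ⟨.seq p p', Q + Q', fun a => by rw [Polynomial.eval_add]; exact (h a).seq (h' a)⟩

lemma can_clearAll {n : ℕ} (d : Fin n → M) {S S' : A → M → List Γ}
    (hB : ∀ i, PB sz fun a => (S a (d i)).length) (h0 : ∀ a i, S' a (d i) = [])
    (h1 : ∀ a m, (∀ i, d i ≠ m) → S' a m = S a m) :
    Can sz (fun a => (none, S a)) (fun a => (none, S' a)) := by
  have hb : PB sz (fun a => ∑ i, (S a (d i)).length) := PB.sum _ hB
  refine Can.of (((PB.const (List.finRange n).length).mul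
    (((PB.const 2).mul hb).add (PB.const 1))).add (PB.const 1))
    (fun a => ex_clearAll d (List.finRange n) (S a) (S' a) _ (fun i => ?_)
      (fun i _ => h0 a i) (fun m hm => h1 a m fun i => hm i (List.mem_finRange i)))
  exact Finset.single_le_sum (f := fun i => (S a (d i)).length) (fun _ _ => Nat.zero_le _)
    (Finset.mem_univ i)

lemma can_copyAll [Inhabited Γ] {n : ℕ} (src dst : Fin n → M) (tmp : M) (hinj : Injective dst)
    (n1 : ∀ i j, src i ≠ dst j) (n2 : ∀ i, src i ≠ tmp) (n3 : ∀ i, dst i ≠ tmp)
    {S S' : A → M → List Γ} (hB : ∀ i, PB sz fun a => (S a (src i)).length)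
    (ht : ∀ a, S a tmp = []) (h0 : ∀ a i, S' a (dst i) = S a (src i) ++ S a (dst i))
    (h1 : ∀ a m, (∀ i, dst i ≠ m) → S' a m = S a m) :
    Can sz (fun a => (none, S a)) (fun a => (none, S' a)) := by
  have hb : PB sz (fun a => ∑ i, (S a (src i)).length) := PB.sum _ hB
  refine Can.of (((PB.const (List.finRange n).length).mul
    (((PB.const 5).mul hb).add (PB.const 4))).add (PB.const 1))
    (fun a => ex_copyAll src dst tmp hinj n1 n2 n3 (List.finRange n) (List.nodup_finRange n) (S a)
      (S' a) _ (fun i => ?_) (ht a)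
      (fun i _ => h0 a i) (fun m hm => h1 a m fun i => hm i (List.mem_finRange i)))
  exact Finset.single_le_sum (f := fun i => (S a (src i)).length) (fun _ _ => Nat.zero_le _)
    (Finset.mem_univ i)

lemma can_switch [DecidableEq Γ] [Fintype Γ] {v : A → Option Γ} {S S' : A → M → List Γ}
    (h0 : Can (fun a : {a // v a = none} => sz a) (fun a => (none, S a)) (fun a => (none, S' a)))
    (h1 : ∀ c, Can (fun a : {a // v a = some c} => sz a) (fun a => (some c, S a))
      (fun a => (none, S' a))) :
    Can sz (fun a => (v a, S a)) (fun a => (none, S' a)) := by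
  obtain ⟨p0, Q0, h0⟩ := h0
  choose pc Qc h1 using h1
  let l : List Γ := Finset.univ.toList
  refine Can.of (p := switch pc p0 l)
    (g := fun a => (Q0.eval (sz a) + ∑ c, (Qc c).eval (sz a)) + l.length)
    ((((PB.self.eval Q0).add (PB.sum _ fun c => PB.self.eval (Qc c)))).add (PB.const _))
    fun a => ?_
  rcases hv : v a with _ | c
  · exact (ex_switch_none l (h0 ⟨a, hv⟩)).mono (by simp only; omega)
  · refine (ex_switch_some (l := l) (by simp [l]) (h1 c ⟨a, hv⟩)).mono ?_
    have : (Qc c).eval (sz a) ≤ ∑ c, (Qc c).eval (sz a) :=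
      Finset.single_le_sum (f := fun c => (Qc c).eval (sz a)) (fun _ _ => Nat.zero_le _)
        (Finset.mem_univ c)
    simp only
    omega

/-- parameters of the body of a loop -/
structure LoopIx (L : A → List Γ) where
  a : A
  l : List Γ
  c : Γ
  r : List Γ
  h : l ++ c :: r = L a

lemma can_loop {L : A → List Γ} (k : M) (St : A → List Γ → (M → List Γ))
    (hL : PB sz fun a => (L a).length)
    (hb : Can (fun x : LoopIx L => sz x.a) (fun x => (some x.c, update (St x.a x.l) k x.r))
      (fun x => (none, update (St x.a (x.l ++ [x.c])) k x.r))) :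
    Can sz (fun a => (none, update (St a []) k (L a)))
      (fun a => (none, update (St a (L a)) k [])) := by
  obtain ⟨p, Q, hb⟩ := hb
  refine Can.of (p := .loop k (fun _ c => some c) p)
    ((hL.mul ((PB.self.eval Q).add (PB.const 1))).add (PB.const 1)) fun a => ?_
  exact ex_loop (p := p) (B := Q.eval (sz a)) (L a) (St a)
    (fun l c r h => hb ⟨a, l, c, r, h⟩) (L a) [] rfl

end

/-! ### Computable functions between tuples of strings -/

/-- stack contents: input, output, scratch -/
def st {I J K Γ : Type} (x : I → List Γ) (y : J → List Γ) (z : K → List Γ) :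
    I ⊕ J ⊕ K → List Γ := Sum.elim x (Sum.elim y z)

/-- empty stacks -/
def em {I Γ : Type} : I → List Γ := fun _ => []

/-- `f` is computed by a program with scratch stacks `K` -/
def Cmp {Γ α β : Type} [Ctx Γ α] [Ctx Γ β] (f : α → β) (K : Type) [DecidableEq K] : Prop :=
  Can (M := Fin (Ctx.dim α) ⊕ Fin (Ctx.dim β) ⊕ K) (fun a : α => csize a)
    (fun a => (none, st (Ctx.vec a) em em)) (fun a => (none, st (Ctx.vec a) (Ctx.vec (f a)) em))

section
variable {Γ α β γ : Type} [Ctx Γ α] [Ctx Γ β] [Ctx Γ γ]

lemma Cmp.can {f : α → β} {K : Type} [DecidableEq K] (hf : Cmp f K) {M : Type} [DecidableEq M]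
    (iα : Fin (Ctx.dim α) → M) (iβ : Fin (Ctx.dim β) → M) (iK : K → M)
    (hinj : Injective (Sum.elim iα (Sum.elim iβ iK))) {A : Type} {sz : A → ℕ} (x : A → α)
    (hx : PB sz fun a => csize (x a)) {S S' : A → M → List Γ}
    (c1 : ∀ a i, S a (iα i) = Ctx.vec (x a) i) (c2 : ∀ a j, S a (iβ j) = [])
    (c3 : ∀ a k, S a (iK k) = []) (c4 : ∀ a j, S' a (iβ j) = Ctx.vec (f (x a)) j)
    (c5 : ∀ a m, (∀ j, iβ j ≠ m) → S' a m = S a m) :
    Can sz (fun a => (none, S a)) (fun a => (none, S' a)) := by
  obtain ⟨p, Q, h⟩ := hf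
  refine Can.of (p := pmap (Sum.elim iα (Sum.elim iβ iK)) p) (hx.eval Q) fun a => ?_
  obtain ⟨t, ht, e⟩ := h (x a)
  obtain ⟨S1, e1, a1, b1⟩ := exec_pmap hinj e (S a) (by
    rintro (i | j | k)
    · exact c1 a i
    · exact c2 a j
    · exact c3 a k)
  have : S1 = S' a := by
    funext m
    by_cases hm : ∀ j, iβ j ≠ m
    · rw [c5 a m hm]
      by_cases hm1 : ∀ k, Sum.elim iα (Sum.elim iβ iK) k ≠ m
      · exact b1 m hm1
      · obtain ⟨k, hk⟩ := not_forall.1 hm1
        obtain rfl := not_not.1 hk
        rw [a1 k]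
        rcases k with i | j | k
        · exact (c1 a i).symm
        · exact absurd rfl (hm j)
        · exact (c3 a k).symm
    · obtain ⟨j, hj⟩ := not_forall.1 hm
      obtain rfl := not_not.1 hj
      rw [c4]
      exact a1 (Sum.inr (Sum.inl j))
  subst this
  exact ⟨t, ht, e1⟩

lemma Cmp.weaken {f : α → β} {K K' : Type} [DecidableEq K] [DecidableEq K'] (hf : Cmp f K)
    {g : K → K'} (hg : Injective g) : Cmp f K' := by
  refine hf.can Sum.inl (fun j => Sum.inr (Sum.inl j)) (fun k => Sum.inr (Sum.inr (g k))) ?_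
    (fun a => a) PB.self (fun _ _ => rfl) (fun _ _ => rfl) (fun _ _ => rfl) (fun _ _ => rfl) ?_
  · rintro (i | j | k) (i' | j' | k') h <;> simp_all [hg.eq_iff]
  · rintro a (i | j | k) h
    · rfl
    · exact absurd rfl (h j)
    · rfl

/-- polynomial time computability -/
def PP (f : α → β) : Prop := (∃ w : ℕ, Cmp f (Fin w)) ∧ PB (fun a => csize a) fun a => csize (f a)

lemma PP.of {f : α → β} {K : Type} [DecidableEq K] [Fintype K] (hf : Cmp f K)
    (hb : PB (fun a => csize a) fun a => csize (f a)) : PP f :=
  ⟨⟨Fintype.card K, hf.weaken (Fintype.equivFin K).injective⟩, hb⟩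

lemma Cmp.up {f : α → β} {w w' : ℕ} (hf : Cmp f (Fin w)) (h : w ≤ w') : Cmp f (Fin w') :=
  hf.weaken (Fin.castLE_injective h)

lemma length_le_csize (a : α) (i : Fin (Ctx.dim α)) : (Ctx.vec a i).length ≤ csize a :=
  Finset.single_le_sum (f := fun i => (Ctx.vec a i).length) (fun _ _ => Nat.zero_le _)
    (Finset.mem_univ i)

end

/-! ### Closure properties -/

section
variable {Γ α β γ : Type} [Ctx Γ α] [Ctx Γ β] [Ctx Γ γ]

lemma vec_list (l : List Γ) (i : Fin (Ctx.dim (List Γ))) : Ctx.vec l i = l := rfl

lemma vec_prod (x : α × β) : Ctx.vec x = Fin.append (Ctx.vec x.1) (Ctx.vec x.2) := rfl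

/-- projections -/
lemma pp_proj [Inhabited Γ] {f : α → β} (e : Fin (Ctx.dim β) → Fin (Ctx.dim α))
    (h : ∀ a j, Ctx.vec (f a) j = Ctx.vec a (e j)) : PP f := by
  refine PP.of (K := Unit) ?_ ?_
  · refine can_copyAll (fun j => Sum.inl (e j)) (fun j => Sum.inr (Sum.inl j))
      (Sum.inr (Sum.inr ())) ?_ ?_ ?_ ?_ ?_ ?_ ?_ ?_
    · intro i j h; simpa using h
    · intro i j h; simp at h
    · intro i h; simp at h
    · intro i h; simp at h
    · exact fun i => PB.self.mono fun a => length_le_csize a _
    · exact fun a => rfl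
    · intro a i
      simp only [st, Sum.elim_inl, Sum.elim_inr, em, List.append_nil]
      exact h a i
    · rintro a (i | j | k) h
      · rfl
      · exact absurd rfl (h j)
      · rfl
  · have : PB (fun a : α => csize a) fun a => ∑ j : Fin (Ctx.dim β), (Ctx.vec a (e j)).length :=
      PB.sum _ fun j => PB.self.mono fun a => length_le_csize a _
    refine this.mono fun a => ?_
    unfold csize
    exact Finset.sum_le_sum fun j _ => by rw [h]

lemma pp_id [Inhabited Γ] : PP (fun a : α => a) := pp_proj (fun i => i) fun _ _ => rfl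

lemma pp_fst [Inhabited Γ] : PP (fun x : α × β => x.1) :=
  pp_proj (fun i => Fin.castAdd _ i) fun a j => by
    rw [vec_prod]
    exact (Fin.append_left _ _ _).symm

lemma pp_snd [Inhabited Γ] : PP (fun x : α × β => x.2) :=
  pp_proj (fun i => Fin.natAdd _ i) fun a j => by
    rw [vec_prod]
    exact (Fin.append_right _ _ _).symm

lemma pp_const (s : List Γ) : PP (fun _ : α => s) := by
  refine PP.of (K := Unit) ?_ ((PB.const s.length).mono fun a => by simp)
  refine Can.of (p := pushAll (Sum.inr (Sum.inl (0 : Fin 1))) s) (PB.const (s.length + 1))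
    fun a => ?_
  have := ex_pushAll (Sum.inr (Sum.inl (0 : Fin 1))) s
    (st (Ctx.vec a) (em : Fin 1 → List Γ) (em : Unit → List Γ))
  have h2 : update (st (Ctx.vec a) (em : Fin 1 → List Γ) (em : Unit → List Γ))
      (Sum.inr (Sum.inl (0 : Fin 1)))
      (s ++ (st (Ctx.vec a) (em : Fin 1 → List Γ) (em : Unit → List Γ))
        (Sum.inr (Sum.inl (0 : Fin 1)))) = st (Ctx.vec a) (fun _ : Fin 1 => s) em := by
    funext m
    rcases m with i | j | k
    · simp [st]
    · have : j = 0 := Subsingleton.elim _ _
      subst this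
      simp [st, em]
    · simp [st]
  rw [h2] at this
  exact this

lemma pp_append [Inhabited Γ] : PP (fun x : List Γ × List Γ => x.1 ++ x.2) := by
  refine PP.of (K := Unit) ?_ (PB.self.mono fun a => by simp)
  have s1 : Can (M := Fin (1 + 1) ⊕ Fin 1 ⊕ Unit) (fun x : List Γ × List Γ => csize x)
      (fun x => (none, st (Ctx.vec x) em em)) (fun x => (none, st (Ctx.vec x) (fun _ => x.2) em)) := by
    refine can_copyAll (n := 1) (fun j => Sum.inl (Fin.natAdd 1 j)) (fun j => Sum.inr (Sum.inl j))
      (Sum.inr (Sum.inr ())) ?_ ?_ ?_ ?_ ?_ ?_ ?_ ?_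
    · intro i j h; simpa using h
    · intro i j h; simp at h
    · intro i h; simp at h
    · intro i h; simp at h
    · exact fun i => PB.self.mono fun a => length_le_csize a (Fin.natAdd 1 i)
    · exact fun a => rfl
    · intro a i
      simp only [st, Sum.elim_inl, Sum.elim_inr, em, List.append_nil]
      rw [vec_prod]
      exact (Fin.append_right (m := 1) (n := 1) (Ctx.vec a.1) (Ctx.vec a.2) i).symm
    · rintro a (i | j | k) h
      · rfl
      · exact absurd rfl (h j)
      · rfl
  have s2 : Can (M := Fin (1 + 1) ⊕ Fin 1 ⊕ Unit) (fun x : List Γ × List Γ => csize x)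
      (fun x => (none, st (Ctx.vec x) (fun _ => x.2) em))
      (fun x => (none, st (Ctx.vec x) (fun _ => x.1 ++ x.2) em)) := by
    refine can_copyAll (n := 1) (fun j => Sum.inl (Fin.castAdd 1 j)) (fun j => Sum.inr (Sum.inl j))
      (Sum.inr (Sum.inr ())) ?_ ?_ ?_ ?_ ?_ ?_ ?_ ?_
    · intro i j h; simpa using h
    · intro i j h; simp at h
    · intro i h; simp at h
    · intro i h; simp at h
    · exact fun i => PB.self.mono fun a => length_le_csize a (Fin.castAdd 1 i)
    · exact fun a => rfl
    · intro a i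
      simp only [st, Sum.elim_inl, Sum.elim_inr]
      rw [vec_prod]
      congr 1
      exact (Fin.append_left (m := 1) (n := 1) (Ctx.vec a.1) (Ctx.vec a.2) i).symm
    · rintro a (i | j | k) h
      · rfl
      · exact absurd rfl (h j)
      · rfl
  exact s1.seq s2

lemma pp_pair {f : α → β} {g : α → γ} (hf : PP f) (hg : PP g) : PP (fun a => (f a, g a)) := by
  obtain ⟨⟨w1, hf⟩, bf⟩ := hf
  obtain ⟨⟨w2, hg⟩, bg⟩ := hg
  have hf' := hf.up (Nat.le_add_right w1 w2)
  have hg' := hg.up (Nat.le_add_left w2 w1)
  refine PP.of (K := Fin (w1 + w2)) ?_ ((bf.add bg).mono fun a => by simp)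
  let S1 : α → Fin (Ctx.dim α) ⊕ Fin (Ctx.dim β + Ctx.dim γ) ⊕ Fin (w1 + w2) → List Γ :=
    fun a => st (Ctx.vec a) (Fin.append (Ctx.vec (f a)) em) em
  have s1 : Can (fun a : α => csize a) (fun a => (none, st (Ctx.vec a) em em))
      (fun a => (none, S1 a)) := by
    refine hf'.can Sum.inl (fun j => Sum.inr (Sum.inl (Fin.castAdd _ j)))
      (fun k => Sum.inr (Sum.inr k)) ?_ (fun a => a) PB.self (fun _ _ => rfl) (fun _ _ => rfl)
      (fun _ _ => rfl) ?_ ?_
    · rintro (i | j | k) (i' | j' | k') h <;> simp_all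
    · intro a j
      simp only [S1, st, Sum.elim_inr, Sum.elim_inl]
      exact Fin.append_left _ _ _
    · rintro a (i | j | k) h
      · rfl
      · simp only [S1, st, Sum.elim_inr, Sum.elim_inl]
        refine Fin.addCases (fun j h => ?_) (fun j h => ?_) j h
        · exact absurd rfl (h j)
        · exact Fin.append_right _ _ _
      · rfl
  have s2 : Can (fun a : α => csize a) (fun a => (none, S1 a))
      (fun a => (none, st (Ctx.vec a) (Fin.append (Ctx.vec (f a)) (Ctx.vec (g a))) em)) := by
    refine hg'.can Sum.inl (fun j => Sum.inr (Sum.inl (Fin.natAdd _ j)))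
      (fun k => Sum.inr (Sum.inr k)) ?_ (fun a => a) PB.self (fun _ _ => rfl) ?_
      (fun _ _ => rfl) ?_ ?_
    · rintro (i | j | k) (i' | j' | k') h <;> simp_all
    · intro a j
      simp only [S1, st, Sum.elim_inr, Sum.elim_inl]
      exact Fin.append_right _ _ _
    · intro a j
      simp only [st, Sum.elim_inr, Sum.elim_inl]
      exact Fin.append_right _ _ _
    · rintro a (i | j | k) h
      · rfl
      · simp only [S1, st, Sum.elim_inr, Sum.elim_inl]
        refine Fin.addCases (fun j h => ?_) (fun j h => ?_) j h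
        · rw [Fin.append_left, Fin.append_left]
        · exact absurd rfl (h j)
      · rfl
  exact s1.seq s2

lemma pp_comp {g : β → γ} {f : α → β} (hg : PP g) (hf : PP f) : PP (fun a => g (f a)) := by
  obtain ⟨⟨w1, hf⟩, bf⟩ := hf
  obtain ⟨⟨w2, hg⟩, bg⟩ := hg
  have hf' := hf.up (Nat.le_add_right w1 w2)
  have hg' := hg.up (Nat.le_add_left w2 w1)
  refine PP.of (K := Fin (Ctx.dim β) ⊕ Fin (w1 + w2)) ?_ (bg.trans bf)
  have s1 : Can (M := Fin (Ctx.dim α) ⊕ Fin (Ctx.dim γ) ⊕ (Fin (Ctx.dim β) ⊕ Fin (w1 + w2)))
      (fun a : α => csize a) (fun a => (none, st (Ctx.vec a) em em))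
      (fun a => (none, st (Ctx.vec a) em (Sum.elim (Ctx.vec (f a)) em))) := by
    refine hf'.can Sum.inl (fun j => Sum.inr (Sum.inr (Sum.inl j)))
      (fun k => Sum.inr (Sum.inr (Sum.inr k))) ?_ (fun a => a) PB.self (fun _ _ => rfl)
      (fun _ _ => rfl) (fun _ _ => rfl) (fun _ _ => rfl) ?_
    · rintro (i | j | k) (i' | j' | k') h <;> simp_all
    · rintro a (i | j | j | k) h
      · rfl
      · rfl
      · exact absurd rfl (h j)
      · rfl
  have s2 : Can (M := Fin (Ctx.dim α) ⊕ Fin (Ctx.dim γ) ⊕ (Fin (Ctx.dim β) ⊕ Fin (w1 + w2)))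
      (fun a : α => csize a) (fun a => (none, st (Ctx.vec a) em (Sum.elim (Ctx.vec (f a)) em)))
      (fun a => (none, st (Ctx.vec a) (Ctx.vec (g (f a))) (Sum.elim (Ctx.vec (f a)) em))) := by
    refine hg'.can (fun j => Sum.inr (Sum.inr (Sum.inl j))) (fun j => Sum.inr (Sum.inl j))
      (fun k => Sum.inr (Sum.inr (Sum.inr k))) ?_ f bf (fun _ _ => rfl)
      (fun _ _ => rfl) (fun _ _ => rfl) (fun _ _ => rfl) ?_
    · rintro (i | j | k) (i' | j' | k') h <;> simp_all
    · rintro a (i | j | j | k) h
      · rfl
      · exact absurd rfl (h j)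
      · rfl
      · rfl
  have s3 : Can (M := Fin (Ctx.dim α) ⊕ Fin (Ctx.dim γ) ⊕ (Fin (Ctx.dim β) ⊕ Fin (w1 + w2)))
      (fun a : α => csize a)
      (fun a => (none, st (Ctx.vec a) (Ctx.vec (g (f a))) (Sum.elim (Ctx.vec (f a)) em)))
      (fun a => (none, st (Ctx.vec a) (Ctx.vec (g (f a))) em)) := by
    refine can_clearAll (fun j => Sum.inr (Sum.inr (Sum.inl j))) (fun j => ?_) (fun _ _ => rfl) ?_
    · exact bf.mono fun a => length_le_csize (f a) j
    · rintro a (i | j | j | k) h
      · rfl
      · rfl
      · exact absurd rfl (h j)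
      · rfl
  exact (s1.seq s2).seq s3

lemma pp_cases [DecidableEq Γ] [Fintype Γ] {t : α → List Γ} {f₀ : α → β} {f₁ : Γ → α → β}
    (ht : PP t) (h₀ : PP f₀) (h₁ : ∀ c, PP (f₁ c)) :
    PP (fun a => match t a with
        | [] => f₀ a
        | c :: _ => f₁ c a) := by
  obtain ⟨⟨w1, ht⟩, bt⟩ := ht
  obtain ⟨⟨w2, h₀⟩, b0⟩ := h₀
  have h₁' := fun c => (h₁ c).1
  choose w3 h₁' using h₁'
  have b1 := fun c => (h₁ c).2
  set W := w1 + w2 + ∑ c, w3 c with hW
  have ht' := ht.up (w' := W) (by omega)
  have h0' := h₀.up (w' := W) (by omega)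
  have h1' := fun c => (h₁' c).up (w' := W) (by
    have : w3 c ≤ ∑ c, w3 c := Finset.single_le_sum (fun _ _ => Nat.zero_le _) (Finset.mem_univ c)
    omega)
  set F : α → β := fun a => match t a with
        | [] => f₀ a
        | c :: _ => f₁ c a with hF
  have F0 : ∀ a, (t a).head? = none → F a = f₀ a := by
    intro a h
    rw [List.head?_eq_none_iff] at h
    simp only [hF, h]
  have F1 : ∀ a c, (t a).head? = some c → F a = f₁ c a := by
    intro a c h
    obtain ⟨l, hl⟩ : ∃ l, t a = c :: l := by
      cases hta : t a with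
      | nil => rw [hta] at h; simp at h
      | cons d l => rw [hta] at h; simp at h; exact ⟨l, by rw [h]⟩
    simp only [hF, hl]
  refine PP.of (K := Fin 1 ⊕ Fin W) ?_ ?_
  · have s1 : Can (M := Fin (Ctx.dim α) ⊕ Fin (Ctx.dim β) ⊕ (Fin 1 ⊕ Fin W))
        (fun a : α => csize a) (fun a => (none, st (Ctx.vec a) em em))
        (fun a => (none, st (Ctx.vec a) em (Sum.elim (fun _ => t a) em))) := by
      refine ht'.can Sum.inl (fun j => Sum.inr (Sum.inr (Sum.inl j)))
        (fun k => Sum.inr (Sum.inr (Sum.inr k))) ?_ (fun a => a) PB.self (fun _ _ => rfl)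
        (fun _ _ => rfl) (fun _ _ => rfl) (fun _ _ => rfl) ?_
      · rintro (i | j | k) (i' | j' | k') h <;> simp_all
      · rintro a (i | j | j | k) h
        · rfl
        · rfl
        · exact absurd rfl (h j)
        · rfl
    have s2 : Can (M := Fin (Ctx.dim α) ⊕ Fin (Ctx.dim β) ⊕ (Fin 1 ⊕ Fin W))
        (fun a : α => csize a)
        (fun a => (none, st (Ctx.vec a) em (Sum.elim (fun _ => t a) em)))
        (fun a => ((t a).head?, st (Ctx.vec a) em (Sum.elim (fun _ => (t a).tail) em))) := by
      refine Can.of (p := .pop (Sum.inr (Sum.inr (Sum.inl 0))) fun _ o => o) (PB.const 1)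
        fun a => ⟨1, le_rfl, ?_⟩
      have := Exec.pop (Sum.inr (Sum.inr (Sum.inl 0))) (fun (_ : Option Γ) o => o) none
        (st (Ctx.vec a) (em : Fin (Ctx.dim β) → List Γ)
          (Sum.elim (fun _ : Fin 1 => t a) (em : Fin W → List Γ)))
      have h2 : update (st (Ctx.vec a) (em : Fin (Ctx.dim β) → List Γ)
          (Sum.elim (fun _ : Fin 1 => t a) (em : Fin W → List Γ))) (Sum.inr (Sum.inr (Sum.inl 0)))
          (t a).tail = st (Ctx.vec a) em (Sum.elim (fun _ => (t a).tail) em) := by
        funext m
        rcases m with i | j | j | k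
        · simp [st]
        · simp [st]
        · have : j = 0 := Subsingleton.elim _ _
          subst this
          simp [st]
        · simp [st]
      rw [← h2]
      exact this
    have s3 : Can (M := Fin (Ctx.dim α) ⊕ Fin (Ctx.dim β) ⊕ (Fin 1 ⊕ Fin W))
        (fun a : α => csize a)
        (fun a => ((t a).head?, st (Ctx.vec a) em (Sum.elim (fun _ => (t a).tail) em)))
        (fun a => (none, st (Ctx.vec a) (Ctx.vec (F a)) em)) := by
      refine can_switch ?_ fun c => ?_
      · refine h0'.can Sum.inl (fun j => Sum.inr (Sum.inl j))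
          (fun k => Sum.inr (Sum.inr (Sum.inr k))) ?_
          (fun a : {a // (t a).head? = none} => a.1) PB.self (fun _ _ => rfl)
          (fun _ _ => rfl) (fun _ _ => rfl) (fun a j => ?_) ?_
        · rintro (i | j | k) (i' | j' | k') h <;> simp_all
        · rw [← F0 a.1 a.2]
          rfl
        · rintro a (i | j | j | k) h
          · rfl
          · exact absurd rfl (h j)
          · change [] = (t a.1).tail
            rw [List.head?_eq_none_iff.1 a.2]
            rfl
          · rfl
      · have e1 : Can (M := Fin (Ctx.dim α) ⊕ Fin (Ctx.dim β) ⊕ (Fin 1 ⊕ Fin W))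
            (fun a : {a // (t a).head? = some c} => csize a.1)
            (fun a => (some c, st (Ctx.vec a.1) em (Sum.elim (fun _ => (t a.1).tail) em)))
            (fun a => (none, st (Ctx.vec a.1) em (Sum.elim (fun _ => (t a.1).tail) em))) :=
          Can.of (PB.const 1) fun a => Ex.load (fun _ => none) (some c) _
        have e2 : Can (M := Fin (Ctx.dim α) ⊕ Fin (Ctx.dim β) ⊕ (Fin 1 ⊕ Fin W))
            (fun a : {a // (t a).head? = some c} => csize a.1)
            (fun a => (none, st (Ctx.vec a.1) em (Sum.elim (fun _ => (t a.1).tail) em)))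
            (fun a => (none, st (Ctx.vec a.1) em em)) := by
          refine can_clearAll (n := 1) (fun j => Sum.inr (Sum.inr (Sum.inl j))) (fun j => ?_)
            (fun _ _ => rfl) ?_
          · have : PB (fun a : {a // (t a).head? = some c} => csize a.1)
                (fun a => csize (t a.1)) := bt.trans PB.self
            refine this.mono fun a => ?_
            change (t a.1).tail.length ≤ csize (t a.1)
            simp
          · rintro a (i | j | j | k) h
            · rfl
            · rfl
            · exact absurd rfl (h j)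
            · rfl
        have e3 : Can (M := Fin (Ctx.dim α) ⊕ Fin (Ctx.dim β) ⊕ (Fin 1 ⊕ Fin W))
            (fun a : {a // (t a).head? = some c} => csize a.1)
            (fun a => (none, st (Ctx.vec a.1) em em))
            (fun a => (none, st (Ctx.vec a.1) (Ctx.vec (F a.1)) em)) := by
          refine (h1' c).can Sum.inl (fun j => Sum.inr (Sum.inl j))
            (fun k => Sum.inr (Sum.inr (Sum.inr k))) ?_
            (fun a : {a // (t a).head? = some c} => a.1) PB.self (fun _ _ => rfl)
            (fun _ _ => rfl) (fun _ _ => rfl) (fun a j => ?_) ?_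
          · rintro (i | j | k) (i' | j' | k') h <;> simp_all
          · rw [← F1 a.1 c a.2]
            rfl
          · rintro a (i | j | j | k) h
            · rfl
            · exact absurd rfl (h j)
            · rfl
            · rfl
        exact (e1.seq e2).seq e3
    exact (s1.seq s2).seq s3
  · refine (b0.add (PB.sum Finset.univ b1)).mono fun a => ?_
    rcases ha : (t a).head? with _ | c
    · rw [F0 a ha]
      omega
    · rw [F1 a c ha]
      have : csize (f₁ c a) ≤ ∑ c, csize (f₁ c a) :=
        Finset.single_le_sum (f := fun c => csize (f₁ c a)) (fun _ _ => Nat.zero_le _)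
          (Finset.mem_univ c)
      omega

/-- stacks of the program for a fold: input, state, list, symbol, new state, auxiliary -/
def fs {I J : Type} {W : ℕ} (x : I → List Γ) (s : J → List Γ) (L C : List Γ) (o : J → List Γ) :
    I ⊕ J ⊕ (Fin 1 ⊕ Fin 1 ⊕ J ⊕ Unit ⊕ Fin W) → List Γ :=
  Sum.elim x (Sum.elim s (Sum.elim (fun _ => L) (Sum.elim (fun _ => C)
    (Sum.elim o (Sum.elim em em)))))

lemma pp_fold [Inhabited Γ] {σ : Type} [Ctx Γ σ] {l : α → List Γ} {s₀ : α → σ}
    {step : σ × List Γ × α → σ} (Q : Polynomial ℕ) (hl : PP l) (hs : PP s₀) (hstep : PP step)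
    (hQ : ∀ a l', l' <+: l a → csize (l'.foldl (fun s c => step (s, [c], a)) (s₀ a)) ≤
      Q.eval (csize a)) :
    PP (fun a => (l a).foldl (fun s c => step (s, [c], a)) (s₀ a)) := by
  obtain ⟨⟨w1, hl⟩, bl⟩ := hl
  obtain ⟨⟨w2, hs⟩, bs⟩ := hs
  obtain ⟨⟨w3, hstep⟩, bstep⟩ := hstep
  set W := w1 + w2 + w3 with hW
  have hl' := hl.up (w' := W) (by omega)
  have hs' := hs.up (w' := W) (by omega)
  have hstep' := hstep.up (w' := W) (by omega)
  set F : α → List Γ → σ := fun a l' => l'.foldl (fun s c => step (s, [c], a)) (s₀ a) with hF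
  have bF : PB (fun a : α => csize a) fun a => csize (F a (l a)) :=
    ⟨Q, fun a => hQ a (l a) ⟨[], List.append_nil _⟩⟩
  refine PP.of (K := Fin 1 ⊕ Fin 1 ⊕ Fin (Ctx.dim σ) ⊕ Unit ⊕ Fin W) ?_ bF
  let f0 : (a : α) → (Fin (Ctx.dim α) ⊕ Fin (Ctx.dim σ) ⊕
    (Fin 1 ⊕ Fin 1 ⊕ Fin (Ctx.dim σ) ⊕ Unit ⊕ Fin W) → List Γ) :=
    fun a => fs (Ctx.vec a) em [] [] em
  have s1 : Can (fun a : α => csize a) (fun a => (none, f0 a))
      (fun a => (none, fs (W := W) (Ctx.vec a) em (l a) [] em)) := by
    refine hl'.can Sum.inl (fun j => Sum.inr (Sum.inr (Sum.inl j)))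
      (fun k => Sum.inr (Sum.inr (Sum.inr (Sum.inr (Sum.inr (Sum.inr k)))))) ?_ (fun a => a)
      PB.self (fun _ _ => rfl) (fun _ _ => rfl) (fun _ _ => rfl) (fun _ _ => rfl) ?_
    · rintro (i | j | k) (i' | j' | k') h <;> simp_all
    · rintro a (i | i | i | i | i | i | i) h
      · rfl
      · rfl
      · exact absurd rfl (h i)
      · rfl
      · rfl
      · rfl
      · rfl
  have s2 : Can (fun a : α => csize a)
      (fun a => (none, fs (W := W) (Ctx.vec a) em (l a) [] em))
      (fun a => (none, fs (W := W) (Ctx.vec a) (Ctx.vec (s₀ a)) (l a) [] em)) := by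
    refine hs'.can Sum.inl (fun j => Sum.inr (Sum.inl j))
      (fun k => Sum.inr (Sum.inr (Sum.inr (Sum.inr (Sum.inr (Sum.inr k)))))) ?_ (fun a => a)
      PB.self (fun _ _ => rfl) (fun _ _ => rfl) (fun _ _ => rfl) (fun _ _ => rfl) ?_
    · rintro (i | j | k) (i' | j' | k') h <;> simp_all
    · rintro a (i | i | i | i | i | i | i) h
      · rfl
      · exact absurd rfl (h i)
      · rfl
      · rfl
      · rfl
      · rfl
      · rfl
  -- the loop
  have key : ∀ (a : α) (s : Fin (Ctx.dim σ) → List Γ) (L L' : List Γ),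
      update (fs (W := W) (Ctx.vec a) s L [] em) (Sum.inr (Sum.inr (Sum.inl 0))) L' =
        fs (Ctx.vec a) s L' [] em := by
    intro a s L L'
    funext m
    rcases m with i | i | i | i | i | i | i
    · simp [fs]
    · simp [fs]
    · have : i = 0 := Subsingleton.elim _ _
      subst this
      simp [fs]
    · simp [fs]
    · simp [fs]
    · simp [fs]
    · simp [fs]
  have hpre : ∀ x : LoopIx l, x.l <+: l x.a := fun x => ⟨x.c :: x.r, x.h⟩
  have hpre' : ∀ x : LoopIx l, (x.l ++ [x.c]) <+: l x.a := fun x => ⟨x.r, by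
    rw [← x.h]; simp⟩
  have hnext : ∀ x : LoopIx l, step (F x.a x.l, [x.c], x.a) = F x.a (x.l ++ [x.c]) := by
    intro x
    simp only [hF, List.foldl_append, List.foldl_cons, List.foldl_nil]
  have B1 : PB (fun x : LoopIx l => csize x.a) fun x => csize (F x.a x.l) :=
    ⟨Q, fun x => hQ x.a x.l (hpre x)⟩
  have B2 : PB (fun x : LoopIx l => csize x.a) fun x => csize (F x.a (x.l ++ [x.c])) :=
    ⟨Q, fun x => hQ x.a _ (hpre' x)⟩
  have b1 : Can (fun x : LoopIx l => csize x.a)
      (fun x => (some x.c, fs (W := W) (Ctx.vec x.a) (Ctx.vec (F x.a x.l)) x.r [] em))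
      (fun x => (some x.c, fs (W := W) (Ctx.vec x.a) (Ctx.vec (F x.a x.l)) x.r [x.c] em)) := by
    refine Can.of (p := pushReg (Sum.inr (Sum.inr (Sum.inr (Sum.inl 0))))) (PB.const 1)
      fun x => ?_
    have := Ex.push (Sum.inr (Sum.inr (Sum.inr (Sum.inl 0)))) (fun v : Option Γ => v.getD default)
      (some x.c) (fs (W := W) (Ctx.vec x.a) (Ctx.vec (F x.a x.l)) x.r [] em)
    have h2 : update (fs (W := W) (Ctx.vec x.a) (Ctx.vec (F x.a x.l)) x.r [] em)
        (Sum.inr (Sum.inr (Sum.inr (Sum.inl 0)))) ((some x.c).getD default ::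
        fs (W := W) (Ctx.vec x.a) (Ctx.vec (F x.a x.l)) x.r [] em
          (Sum.inr (Sum.inr (Sum.inr (Sum.inl 0))))) =
        fs (W := W) (Ctx.vec x.a) (Ctx.vec (F x.a x.l)) x.r [x.c] em := by
      funext m
      rcases m with i | i | i | i | i | i | i
      · simp [fs]
      · simp [fs]
      · simp [fs]
      · have : i = 0 := Subsingleton.elim _ _
        subst this
        simp [fs]
      · simp [fs]
      · simp [fs]
      · simp [fs]
    rw [h2] at this
    exact this
  have b2 : Can (fun x : LoopIx l => csize x.a)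
      (fun x => (some x.c, fs (W := W) (Ctx.vec x.a) (Ctx.vec (F x.a x.l)) x.r [x.c] em))
      (fun x => (none, fs (W := W) (Ctx.vec x.a) (Ctx.vec (F x.a x.l)) x.r [x.c] em)) :=
    Can.of (PB.const 1) fun x => Ex.load (fun _ => none) (some x.c) _
  have b3 : Can (fun x : LoopIx l => csize x.a)
      (fun x => (none, fs (W := W) (Ctx.vec x.a) (Ctx.vec (F x.a x.l)) x.r [x.c] em))
      (fun x => (none, fs (W := W) (Ctx.vec x.a) (Ctx.vec (F x.a x.l)) x.r [x.c]
        (Ctx.vec (F x.a (x.l ++ [x.c]))))) := by
    refine hstep'.can (α := σ × List Γ × α)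
      (Fin.append (fun i : Fin (Ctx.dim σ) => Sum.inr (Sum.inl i))
        (Fin.append (fun i : Fin 1 => Sum.inr (Sum.inr (Sum.inr (Sum.inl i))))
          (fun i : Fin (Ctx.dim α) => Sum.inl i)))
      (fun j => Sum.inr (Sum.inr (Sum.inr (Sum.inr (Sum.inl j)))))
      (fun k => Sum.inr (Sum.inr (Sum.inr (Sum.inr (Sum.inr (Sum.inr k)))))) ?_
      (fun x : LoopIx l => (F x.a x.l, [x.c], x.a)) ?_ ?_ (fun _ _ => rfl) (fun _ _ => rfl)
      ?_ ?_
    · refine Injective.sumElim ?_ ?_ ?_
      · rw [Fin.append_injective_iff, Fin.append_injective_iff]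
        refine ⟨fun i j h => by simpa using h, ⟨fun i j h => by simpa using h,
          fun i j h => by simpa using h, fun i j h => by simp at h⟩, fun i j => ?_⟩
        refine Fin.addCases (fun j h => ?_) (fun j h => ?_) j
        · rw [Fin.append_left] at h
          simp at h
        · rw [Fin.append_right] at h
          simp at h
      · rintro (i | i) (j | j) h <;> simp_all
      · intro i j
        refine Fin.addCases (fun i h => ?_) (fun i => ?_) i
        · rw [Fin.append_left] at h
          rcases j with j | j <;> simp at h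
        · refine Fin.addCases (fun i h => ?_) (fun i h => ?_) i
          · rw [Fin.append_right, Fin.append_left] at h
            rcases j with j | j <;> simp at h
          · rw [Fin.append_right, Fin.append_right] at h
            rcases j with j | j <;> simp at h
    · refine (B1.add ((PB.const 1).add PB.self)).mono fun x => ?_
      simp
    · intro x i
      rw [vec_prod]
      refine Fin.addCases (fun i => ?_) (fun i => ?_) i
      · rw [Fin.append_left, Fin.append_left]
        rfl
      · rw [Fin.append_right, Fin.append_right, vec_prod]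
        refine Fin.addCases (fun i => ?_) (fun i => ?_) i
        · rw [Fin.append_left, Fin.append_left]
          rfl
        · rw [Fin.append_right, Fin.append_right]
          rfl
    · intro x j
      rw [hnext]
      rfl
    · rintro x (i | i | i | i | i | i | i) h
      · rfl
      · rfl
      · rfl
      · rfl
      · exact absurd rfl (h i)
      · rfl
      · rfl
  have b4 : Can (fun x : LoopIx l => csize x.a)
      (fun x => (none, fs (W := W) (Ctx.vec x.a) (Ctx.vec (F x.a x.l)) x.r [x.c]
        (Ctx.vec (F x.a (x.l ++ [x.c])))))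
      (fun x => (none, fs (W := W) (Ctx.vec x.a) em x.r [x.c]
        (Ctx.vec (F x.a (x.l ++ [x.c]))))) := by
    refine can_clearAll (fun j => Sum.inr (Sum.inl j)) (fun j => ?_) (fun _ _ => rfl) ?_
    · exact B1.mono fun x => length_le_csize (F x.a x.l) j
    · rintro x (i | i | i | i | i | i | i) h
      · rfl
      · exact absurd rfl (h i)
      · rfl
      · rfl
      · rfl
      · rfl
      · rfl
  have b5 : Can (fun x : LoopIx l => csize x.a)
      (fun x => (none, fs (W := W) (Ctx.vec x.a) em x.r [x.c]
        (Ctx.vec (F x.a (x.l ++ [x.c])))))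
      (fun x => (none, fs (W := W) (Ctx.vec x.a) em x.r []
        (Ctx.vec (F x.a (x.l ++ [x.c]))))) := by
    refine can_clearAll (n := 1) (fun j => Sum.inr (Sum.inr (Sum.inr (Sum.inl j))))
      (fun j => ?_) (fun _ _ => rfl) ?_
    · exact PB.const 1
    · rintro x (i | i | i | i | i | i | i) h
      · rfl
      · rfl
      · rfl
      · exact absurd rfl (h i)
      · rfl
      · rfl
      · rfl
  have b6 : Can (fun x : LoopIx l => csize x.a)
      (fun x => (none, fs (W := W) (Ctx.vec x.a) em x.r []
        (Ctx.vec (F x.a (x.l ++ [x.c])))))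
      (fun x => (none, fs (W := W) (Ctx.vec x.a) (Ctx.vec (F x.a (x.l ++ [x.c]))) x.r []
        (Ctx.vec (F x.a (x.l ++ [x.c]))))) := by
    refine can_copyAll (fun j => Sum.inr (Sum.inr (Sum.inr (Sum.inr (Sum.inl j)))))
      (fun j => Sum.inr (Sum.inl j))
      (Sum.inr (Sum.inr (Sum.inr (Sum.inr (Sum.inr (Sum.inl ())))))) ?_ ?_ ?_ ?_ ?_ ?_ ?_ ?_
    · intro i j h; simpa using h
    · intro i j h; simp at h
    · intro i h; simp at h
    · intro i h; simp at h
    · exact fun j => B2.mono fun x => length_le_csize (F x.a (x.l ++ [x.c])) j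
    · exact fun x => rfl
    · intro x i
      simp only [fs, Sum.elim_inl, Sum.elim_inr, em, List.append_nil]
    · rintro x (i | i | i | i | i | i | i) h
      · rfl
      · exact absurd rfl (h i)
      · rfl
      · rfl
      · rfl
      · rfl
      · rfl
  have b7 : Can (fun x : LoopIx l => csize x.a)
      (fun x => (none, fs (W := W) (Ctx.vec x.a) (Ctx.vec (F x.a (x.l ++ [x.c]))) x.r []
        (Ctx.vec (F x.a (x.l ++ [x.c])))))
      (fun x => (none, fs (W := W) (Ctx.vec x.a) (Ctx.vec (F x.a (x.l ++ [x.c]))) x.r []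
        em)) := by
    refine can_clearAll (fun j => Sum.inr (Sum.inr (Sum.inr (Sum.inr (Sum.inl j)))))
      (fun j => ?_) (fun _ _ => rfl) ?_
    · exact B2.mono fun x => length_le_csize (F x.a (x.l ++ [x.c])) j
    · rintro x (i | i | i | i | i | i | i) h
      · rfl
      · rfl
      · rfl
      · rfl
      · exact absurd rfl (h i)
      · rfl
      · rfl
  have s3 := can_loop (sz := fun a : α => csize a) (L := l)
    (Sum.inr (Sum.inr (Sum.inl 0)) : Fin (Ctx.dim α) ⊕ Fin (Ctx.dim σ) ⊕
      (Fin 1 ⊕ Fin 1 ⊕ Fin (Ctx.dim σ) ⊕ Unit ⊕ Fin W))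
    (fun a l' => fs (W := W) (Ctx.vec a) (Ctx.vec (F a l')) [] [] em)
    (bl.mono fun a => by simp) (by
      simp only [key]
      exact (((((b1.seq b2).seq b3).seq b4).seq b5).seq b6).seq b7)
  simp only [key] at s3
  have s := (s1.seq s2).seq s3
  have e1 : ∀ a, f0 a = st (Ctx.vec a) em em := by
    intro a
    funext m
    rcases m with i | i | i | i | i | i | i <;> rfl
  have e2 : ∀ a, (fs (W := W) (Ctx.vec a) (Ctx.vec (F a (l a))) [] [] em) =
      st (Ctx.vec a) (Ctx.vec (F a (l a))) em := by
    intro a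
    funext m
    rcases m with i | i | i | i | i | i | i <;> rfl
  simp only [e1, e2] at s
  exact s

/-- the class of polynomial time functions -/
def polyClass (Γ : Type) [DecidableEq Γ] [Fintype Γ] [Inhabited Γ] : PolyClass Γ where
  P := fun f => PP f
  id' := pp_id
  comp := pp_comp
  pair := pp_pair
  fst := pp_fst
  snd := pp_snd
  const := pp_const
  append := pp_append
  cases := pp_cases
  fold := pp_fold
  bound := fun h => h.2

/-- functions of the class are computed by Turing machines in polynomial time -/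
theorem computable [DecidableEq Γ] [Fintype Γ] [Inhabited Γ] {α β : Type} (ea : α → List Γ)
    (eb : β → List Γ) (f : α → β) (F : List Γ → List Γ) (hF : PP F)
    (h : ∀ a, F (ea a) = eb (f a)) : Nonempty (Turing.TM2ComputableInPolyTime ea eb f) := by
  obtain ⟨⟨w, hF⟩, -⟩ := hF
  have s2 : Can (M := Fin 1 ⊕ Fin 1 ⊕ Fin w) (fun a : List Γ => csize a)
      (fun a => (none, st (fun _ => a) (fun _ => F a) em))
      (fun a => (none, st em (fun _ => F a) em)) := by
    refine can_clearAll (n := 1) (fun j => Sum.inl j) (fun j => ?_) (fun _ _ => rfl) ?_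
    · exact PB.self.mono fun a => by simp [st]
    · rintro a (i | i | i) h
      · exact absurd rfl (h i)
      · rfl
      · rfl
  obtain ⟨p, Q, hp⟩ := Can.seq hF s2
  refine Pool.Agent.StackProg.computable (K := Fin 1 ⊕ Fin 1 ⊕ Fin w) p (Sum.inl 0)
    (Sum.inr (Sum.inl 0)) none Q fun a => ?_
  obtain ⟨t, ht, e⟩ := hp (ea a)
  refine ⟨t, by simpa using ht, ?_⟩
  have e1 : st (fun _ : Fin 1 => ea a) (em : Fin 1 → List Γ) (em : Fin w → List Γ) =
      only (Sum.inl 0) (ea a) := by
    funext m
    rcases m with i | i | i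
    · have : i = 0 := Subsingleton.elim _ _
      subst this
      simp [st, only]
    · simp [st, only, em]
    · simp [st, only, em]
  have e2 : st (em : Fin 1 → List Γ) (fun _ : Fin 1 => F (ea a)) (em : Fin w → List Γ) =
      only (Sum.inr (Sum.inl 0)) (eb (f a)) := by
    funext m
    rcases m with i | i | i
    · simp [st, only, em]
    · have : i = 0 := Subsingleton.elim _ _
      subst this
      simp [st, only, h]
    · simp [st, only, em]
  rw [← e1, ← e2]
  exact e

end

end Mach

/-- P-MACHINE -/
theorem targetMachine : TargetMachine :=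
  letI : Inhabited Sym := ⟨Sym.comma⟩
  ⟨Mach.polyClass Sym, fun ea eb f F hF h => Mach.computable ea eb f F hF h⟩

end Pool.Agent.PAH
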