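import Pool.Agent.PAH.Targets

set_option autoImplicit false

/-!
# The parallelogram macro
-/

namespace Pool.Agent.PAH

namespace MacroAux

/-- the shoelace sum of a triangle -/
lemma shoelace_tri {V : Type} (p : V → Plane) (u v w : V) :
    shoelace p [u, v, w] = det3 (p u) (p v) (p w) := by
  simp only [shoelace, wsum, dartsOf, det3, List.rotate, List.zip, List.length_cons,
    List.length_nil, List.splitAt_eq, List.take, List.drop]
  simp
  ring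

/-- the six equations of a corner gadget, in units of `k` -/
structure Corner (T k : ℝ) (v w u r q p : Plane) : Prop where
  e1 : det3 v w r = 64 * T ^ 6 * k
  e2 : det3 v r q = 8 * T ^ 3 * k
  e3 : det3 v q u = (64 * T ^ 6 + 32 * T ^ 4) * k
  e4 : det3 w p r = (32 * T ^ 6 + 24 * T ^ 4 + 30 * T ^ 3) * k
  e5 : det3 p q r = (4 * T ^ 3 - 12 * T ^ 2 - 15 * T - 3) * k
  e6 : det3 u q p = (32 * T ^ 6 - 56 * T ^ 4 - 18 * T ^ 3 + 12 * T ^ 2 + 15 * T + 3) * k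

noncomputable def cA (T : ℝ) : ℝ := 12 * T ^ 3 - 12 * T ^ 2 - 15 * T - 3
noncomputable def cC1 (T : ℝ) : ℝ :=
  96 * T ^ 6 + 24 * T ^ 4 + 42 * T ^ 3 - 12 * T ^ 2 - 15 * T - 3
noncomputable def cC2 (T : ℝ) : ℝ := 96 * T ^ 6 - 24 * T ^ 4 - 6 * T ^ 3
noncomputable def cB (T : ℝ) : ℝ :=
  12288 * T ^ 12 + 3072 * T ^ 10 + 2304 * T ^ 9 + 1536 * T ^ 8 + 1920 * T ^ 7 + 384 * T ^ 6
noncomputable def cD (T : ℝ) : ℝ :=
  294912 * T ^ 14 + 294912 * T ^ 13 + 165888 * T ^ 12 + 129024 * T ^ 11 + 50688 * T ^ 10 +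
    14976 * T ^ 9 + 13824 * T ^ 8 + 5184 * T ^ 7 + 576 * T ^ 6

lemma cA_pos {T : ℝ} (hT : 64 ≤ T) : 0 < cA T := by
  obtain ⟨s, hs, rfl⟩ : ∃ s : ℝ, 0 ≤ s ∧ T = s + 64 := ⟨T - 64, by linarith, by ring⟩
  unfold cA
  ring_nf
  positivity

lemma cC1_pos {T : ℝ} (hT : 64 ≤ T) : 0 < cC1 T := by
  obtain ⟨s, hs, rfl⟩ : ∃ s : ℝ, 0 ≤ s ∧ T = s + 64 := ⟨T - 64, by linarith, by ring⟩
  unfold cC1
  ring_nf
  positivity

lemma cC2_pos {T : ℝ} (hT : 64 ≤ T) : 0 < cC2 T := by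
  obtain ⟨s, hs, rfl⟩ : ∃ s : ℝ, 0 ≤ s ∧ T = s + 64 := ⟨T - 64, by linarith, by ring⟩
  unfold cC2
  ring_nf
  positivity

lemma cD_ge {T : ℝ} (hT : 64 ≤ T) : 8 * T ^ 2 * cA T ^ 2 * (256 * T ^ 6) < cD T := by
  obtain ⟨s, hs, rfl⟩ : ∃ s : ℝ, 0 ≤ s ∧ T = s + 64 := ⟨T - 64, by linarith, by ring⟩
  rw [← sub_pos]
  unfold cD cA
  ring_nf
  positivity

section
variable {T k : ℝ} {v w u r q p : Plane}

lemma Corner.lin (h : Corner T k v w u r q p) :
    cC1 T * k * det3 v r u + cC2 T * k * det3 v w q = cA T * k * det3 v w u + cB T * k ^ 2 := by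
  have key : (det3 v w r + det3 v r q + det3 w p r + det3 p q r) * det3 v r u +
      (det3 v r q + det3 v q u + det3 p q r + det3 u q p) * det3 v w q =
      (det3 v r q + det3 p q r) * det3 v w u +
      ((det3 v w r + det3 v r q + det3 v q u + det3 w p r + det3 p q r + det3 u q p) * det3 v r q +
        (det3 u q p + det3 v q u) * det3 v w r + (det3 w p r + det3 v w r) * det3 v q u) := by
    simp only [det3]
    ring
  rw [h.e1, h.e2, h.e3, h.e4, h.e5, h.e6] at key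
  unfold cC1 cC2 cA cB
  linear_combination key

lemma Corner.plu (h : Corner T k v w u r q p) :
    det3 v r u * det3 v w q = 8 * T ^ 3 * k * det3 v w u +
      64 * T ^ 6 * (64 * T ^ 6 + 32 * T ^ 4) * k ^ 2 := by
  have key : det3 v r u * det3 v w q = det3 v w u * det3 v r q + det3 v w r * det3 v q u := by
    simp only [det3]
    ring
  rw [h.e1, h.e2, h.e3] at key
  linear_combination key

lemma Corner.tot (h : Corner T k v w u r q p) :
    det3 v w p + det3 v p u = (192 * T ^ 6 + 24 * T ^ 3) * k := by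
  have key : det3 v w p + det3 v p u =
      det3 v w r + det3 v r q + det3 v q u + det3 w p r + det3 p q r + det3 u q p := by
    simp only [det3]
    ring
  rw [h.e1, h.e2, h.e3, h.e4, h.e5, h.e6] at key
  linear_combination key

lemma Corner.sq (h : Corner T k v w u r q p) (hk : 0 < k) :
    (cC1 T * det3 v r u - cC2 T * det3 v w q) ^ 2 =
      (det3 v w u - 256 * T ^ 6 * k) * (cA T ^ 2 * det3 v w u - cD T * k) := by
  have h1 := h.lin
  have h2 := h.plu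
  have h3 : cC1 T * det3 v r u + cC2 T * det3 v w q = cA T * det3 v w u + cB T * k := by
    apply mul_left_cancel₀ hk.ne'
    linear_combination h1
  have h4 : (cC1 T * det3 v r u - cC2 T * det3 v w q) ^ 2 =
      (cA T * det3 v w u + cB T * k) ^ 2 - 4 * cC1 T * cC2 T * (8 * T ^ 3 * k * det3 v w u +
      64 * T ^ 6 * (64 * T ^ 6 + 32 * T ^ 4) * k ^ 2) := by
    rw [← h2, ← h3]
    ring
  rw [h4]
  unfold cC1 cC2 cA cB cD
  ring

lemma Corner.le (h : Corner T k v w u r q p) (hk : 0 < k) (hT : 64 ≤ T)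
    (hM : 1 ≤ 256 * T ^ 6 * k) (hS : det3 v w u ≤ T ^ 2) : det3 v w u ≤ 256 * T ^ 6 * k := by
  by_contra hc
  rw [not_le] at hc
  have h1 := h.sq hk
  have h2 : 0 ≤ (det3 v w u - 256 * T ^ 6 * k) * (cA T ^ 2 * det3 v w u - cD T * k) := by
    rw [← h1]
    positivity
  have h3 : 0 ≤ cA T ^ 2 * det3 v w u - cD T * k :=
    nonneg_of_mul_nonneg_right h2 (by linarith)
  have h4 := cD_ge hT
  have hA := cA_pos hT
  have h5 : 8 * T ^ 2 * cA T ^ 2 * (256 * T ^ 6) * k < cA T ^ 2 * T ^ 2 := by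
    have h6 : cD T * k ≤ cA T ^ 2 * T ^ 2 := by nlinarith [sq_nonneg (cA T)]
    have h7 := mul_lt_mul_of_pos_right h4 hk
    linarith
  have h8 : 0 < cA T ^ 2 * T ^ 2 := by positivity
  nlinarith

lemma Corner.exact (h : Corner T k v w u r q p) (hk : 0 < k) (hT : 64 ≤ T)
    (hS : det3 v w u = 256 * T ^ 6 * k) :
    p = v + (3 / 8 - 3 / (16 * T ^ 2) - 3 / (32 * T ^ 3)) • (w - v) +
      (3 / 8 + 3 / (16 * T ^ 2) + 3 / (16 * T ^ 3)) • (u - v) := by
  have hT0 : (0 : ℝ) < T := by linarith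
  have h1 := h.sq hk
  rw [hS, sub_self, zero_mul] at h1
  have h2 : cC1 T * det3 v r u = cC2 T * det3 v w q := by
    have := pow_eq_zero_iff (two_ne_zero) |>.1 h1
    linarith
  have h3 := h.lin
  have hX : det3 v r u = 64 * T ^ 6 * k := by
    have hC : cC1 T ≠ 0 := (cC1_pos hT).ne'
    have : 2 * cC1 T * k * det3 v r u = 2 * cC1 T * k * (64 * T ^ 6 * k) := by
      have h4 : 2 * cC1 T * k * det3 v r u = cA T * k * det3 v w u + cB T * k ^ 2 := by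
        rw [← h3]
        linear_combination k * h2
      rw [h4, hS]
      unfold cA cB cC1
      ring
    exact mul_left_cancel₀ (by positivity) this
  have hK := h.tot
  -- l1 = [w,p,r] + [v,w,r] = P×R + W×P
  have h5 : (det3 v w u) * (det3 v p r + det3 v w p) = (det3 v p u) * (det3 v w r)
      - det3 v w p * det3 v r u + det3 v w u * det3 v w p := by
    simp only [det3]; ring
  have h6 : det3 v p r + det3 v w p = (96 * T ^ 6 + 24 * T ^ 4 + 30 * T ^ 3) * k := by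
    have : det3 v p r + det3 v w p = det3 w p r + det3 v w r := by
      simp only [det3]; ring
    rw [this, h.e4, h.e1]; ring
  rw [h6, hX, h.e1, hS] at h5
  have hk6 : (64 * T ^ 6 * k) ≠ 0 := by positivity
  have h7 : 4 * (96 * T ^ 6 + 24 * T ^ 4 + 30 * T ^ 3) * k = det3 v p u + 3 * det3 v w p := by
    apply mul_left_cancel₀ hk6
    linear_combination h5
  have hP2 : det3 v w p = (96 * T ^ 6 + 48 * T ^ 4 + 48 * T ^ 3) * k := by linarith
  have hP1 : det3 v p u = (96 * T ^ 6 - 48 * T ^ 4 - 24 * T ^ 3) * k := by linarith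
  have hS0 : det3 v w u ≠ 0 := by rw [hS]; positivity
  have e1 : det3 v w u * (p.1 - v.1) = det3 v p u * (w.1 - v.1) + det3 v w p * (u.1 - v.1) := by
    simp only [det3]; ring
  have e2 : det3 v w u * (p.2 - v.2) = det3 v p u * (w.2 - v.2) + det3 v w p * (u.2 - v.2) := by
    simp only [det3]; ring
  have ha : det3 v p u = det3 v w u * (3 / 8 - 3 / (16 * T ^ 2) - 3 / (32 * T ^ 3)) := by
    rw [hP1, hS]; field_simp; ring
  have hb : det3 v w p = det3 v w u * (3 / 8 + 3 / (16 * T ^ 2) + 3 / (16 * T ^ 3)) := by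
    rw [hP2, hS]; field_simp; ring
  rw [ha, hb] at e1 e2
  ext
  · simp only [Prod.fst_add, Prod.smul_fst, Prod.fst_sub, smul_eq_mul]
    have : p.1 - v.1 = (3 / 8 - 3 / (16 * T ^ 2) - 3 / (32 * T ^ 3)) * (w.1 - v.1) +
      (3 / 8 + 3 / (16 * T ^ 2) + 3 / (16 * T ^ 3)) * (u.1 - v.1) := by
      apply mul_left_cancel₀ hS0
      linear_combination e1
    linear_combination this
  · simp only [Prod.snd_add, Prod.smul_snd, Prod.snd_sub, smul_eq_mul]
    have : p.2 - v.2 = (3 / 8 - 3 / (16 * T ^ 2) - 3 / (32 * T ^ 3)) * (w.2 - v.2) +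
      (3 / 8 + 3 / (16 * T ^ 2) + 3 / (16 * T ^ 3)) * (u.2 - v.2) := by
      apply mul_left_cancel₀ hS0
      linear_combination e2
    linear_combination this

end

/-- the fourteen equations of the macro, in units of `k` -/
structure Fourteen (T k : ℝ) (a b c d r q p r' q' p' : Plane) : Prop where
  cb : Corner T k b c a r q p
  cd : Corner T k d a c r' q' p'
  m1 : det3 a p p' = (64 * T ^ 6 - 24 * T ^ 3) * k
  m2 : det3 c p' p = (64 * T ^ 6 - 24 * T ^ 3) * k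

lemma Fourteen.tot {T k : ℝ} {a b c d r q p r' q' p' : Plane}
    (h : Fourteen T k a b c d r q p r' q' p') :
    det3 b c a + det3 d a c = 512 * T ^ 6 * k := by
  have h1 := h.cb.tot
  have h2 := h.cd.tot
  have h3 := h.m1
  have h4 := h.m2
  have key : det3 b c a + det3 d a c = (det3 b c p + det3 b p a) + (det3 d a p' + det3 d p' c) +
      det3 a p p' + det3 c p' p := by
    simp only [det3]; ring
  rw [h1, h2, h3, h4] at key
  rw [key]; ring

lemma Fourteen.par {T k : ℝ} {a b c d r q p r' q' p' : Plane}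
    (h : Fourteen T k a b c d r q p r' q' p') (hk : 0 < k) (hT : 64 ≤ T)
    (hM : 1 ≤ 256 * T ^ 6 * k) (hSb : det3 b c a ≤ T ^ 2) (hSd : det3 d a c ≤ T ^ 2) :
    a + c = b + d ∧ det3 a b d = 256 * T ^ 6 * k := by
  have hT0 : (0 : ℝ) < T := by linarith
  have h1 := h.cb.le hk hT hM hSb
  have h2 := h.cd.le hk hT hM hSd
  have h3 := h.tot
  have hb : det3 b c a = 256 * T ^ 6 * k := by linarith
  have hd : det3 d a c = 256 * T ^ 6 * k := by linarith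
  have hp := h.cb.exact hk hT hb
  have hp' := h.cd.exact hk hT hd
  set x : ℝ := 3 / 8 - 3 / (16 * T ^ 2) - 3 / (32 * T ^ 3) with hx
  set y : ℝ := 3 / 8 + 3 / (16 * T ^ 2) + 3 / (16 * T ^ 3) with hy
  have hm := h.m1
  have hxy : (1 - (x + y)) * (256 * T ^ 6 * k) = (64 * T ^ 6 - 24 * T ^ 3) * k := by
    rw [hx, hy]; field_simp; ring
  have hxy0 : (1 - (x + y)) * (256 * T ^ 6 * k) ≠ 0 := by
    rw [hxy]
    have : 0 < 64 * T ^ 6 - 24 * T ^ 3 := by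
      have h6 : T ^ 6 = T ^ 3 * T ^ 3 := by ring
      have h7 : (1 : ℝ) ≤ T ^ 3 := one_le_pow₀ (by linarith)
      nlinarith
    positivity
  rw [← hxy, hp, hp'] at hm
  obtain ⟨a1, a2⟩ := a
  obtain ⟨b1, b2⟩ := b
  obtain ⟨c1, c2⟩ := c
  obtain ⟨d1, d2⟩ := d
  simp only [det3, Prod.fst_add, Prod.snd_add, Prod.smul_fst, Prod.smul_snd, Prod.fst_sub,
    Prod.snd_sub, smul_eq_mul] at hb hd hm
  -- D = d - (a + c - b)
  have i1 : (d1 - (a1 + c1 - b1)) * (c2 - a2) - (d2 - (a2 + c2 - b2)) * (c1 - a1) = 0 := by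
    linear_combination hb - hd
  have hne : (1 - (x + y)) ≠ 0 := left_ne_zero_of_mul hxy0
  have i2 : ((1 - y) * (b1 - a1) + x * (c1 - b1)) * (d2 - (a2 + c2 - b2)) -
      ((1 - y) * (b2 - a2) + x * (c2 - b2)) * (d1 - (a1 + c1 - b1)) = 0 := by
    apply mul_left_cancel₀ hne
    linear_combination hm - (1 - (x + y)) * hb
  have i3 : ((1 - y) * (b1 - a1) + x * (c1 - b1)) * (c2 - a2) -
      ((1 - y) * (b2 - a2) + x * (c2 - b2)) * (c1 - a1) = (1 - (x + y)) * (256 * T ^ 6 * k) := by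
    linear_combination (1 - (x + y)) * hb
  have j1 : d1 - (a1 + c1 - b1) = 0 := by
    apply mul_left_cancel₀ hxy0
    rw [← i3]
    linear_combination ((1 - y) * (b1 - a1) + x * (c1 - b1)) * i1 + (c1 - a1) * i2
  have j2 : d2 - (a2 + c2 - b2) = 0 := by
    apply mul_left_cancel₀ hxy0
    rw [← i3]
    linear_combination ((1 - y) * (b2 - a2) + x * (c2 - b2)) * i1 + (c2 - a2) * i2
  have hd1 : d1 = a1 + c1 - b1 := by linarith
  have hd2 : d2 = a2 + c2 - b2 := by linarith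
  constructor
  · ext
    · simp only [Prod.fst_add]; linarith
    · simp only [Prod.snd_add]; linarith
  · simp only [det3]
    rw [hd1, hd2]
    linear_combination hb


/-- determinants in barycentric coordinates -/
lemma det3_bary (v w u : Plane) (s1 t1 s2 t2 s3 t3 : ℝ) :
    det3 (v + s1 • (w - v) + t1 • (u - v)) (v + s2 • (w - v) + t2 • (u - v))
      (v + s3 • (w - v) + t3 • (u - v)) =
      ((s2 - s1) * (t3 - t1) - (t2 - t1) * (s3 - s1)) * det3 v w u := by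
  simp only [det3, Prod.fst_add, Prod.snd_add, Prod.smul_fst, Prod.smul_snd, Prod.fst_sub,
    Prod.snd_sub, smul_eq_mul]
  ring

/-- base position of a corner gadget -/
lemma Corner.of (T k : ℝ) (v w u r q p : Plane) (hT : 0 < T)
    (hS : det3 v w u = 256 * T ^ 6 * k)
    (hr : r = v + (1 / 4 : ℝ) • (w - v) + (1 / 4 : ℝ) • (u - v))
    (hq : q = v + (1 / 4 + 1 / (8 * T ^ 2)) • (w - v) +
      (1 / 4 + 1 / (8 * T ^ 2) + 1 / (8 * T ^ 3)) • (u - v))
    (hp : p = v + (3 / 8 - 3 / (16 * T ^ 2) - 3 / (32 * T ^ 3)) • (w - v) +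
      (3 / 8 + 3 / (16 * T ^ 2) + 3 / (16 * T ^ 3)) • (u - v)) : Corner T k v w u r q p := by
  have hv : v = v + (0 : ℝ) • (w - v) + (0 : ℝ) • (u - v) := by simp
  have hw : w = v + (1 : ℝ) • (w - v) + (0 : ℝ) • (u - v) := by simp
  have hu : u = v + (0 : ℝ) • (w - v) + (1 : ℝ) • (u - v) := by simp
  constructor
  · have := det3_bary v w u 0 0 1 0 (1 / 4) (1 / 4)
    rw [← hv, ← hw, ← hr] at this
    rw [this, hS]; field_simp; ring
  · have := det3_bary v w u 0 0 (1 / 4) (1 / 4) (1 / 4 + 1 / (8 * T ^ 2))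
      (1 / 4 + 1 / (8 * T ^ 2) + 1 / (8 * T ^ 3))
    rw [← hv, ← hr, ← hq] at this
    rw [this, hS]; field_simp; ring
  · have := det3_bary v w u 0 0 (1 / 4 + 1 / (8 * T ^ 2))
      (1 / 4 + 1 / (8 * T ^ 2) + 1 / (8 * T ^ 3)) 0 1
    rw [← hv, ← hq, ← hu] at this
    rw [this, hS]; field_simp; ring
  · have := det3_bary v w u 1 0 (3 / 8 - 3 / (16 * T ^ 2) - 3 / (32 * T ^ 3))
      (3 / 8 + 3 / (16 * T ^ 2) + 3 / (16 * T ^ 3)) (1 / 4) (1 / 4)
    rw [← hw, ← hp, ← hr] at this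
    rw [this, hS]; field_simp; ring
  · have := det3_bary v w u (3 / 8 - 3 / (16 * T ^ 2) - 3 / (32 * T ^ 3))
      (3 / 8 + 3 / (16 * T ^ 2) + 3 / (16 * T ^ 3)) (1 / 4 + 1 / (8 * T ^ 2))
      (1 / 4 + 1 / (8 * T ^ 2) + 1 / (8 * T ^ 3)) (1 / 4) (1 / 4)
    rw [← hp, ← hq, ← hr] at this
    rw [this, hS]; field_simp; ring
  · have := det3_bary v w u 0 1 (1 / 4 + 1 / (8 * T ^ 2))
      (1 / 4 + 1 / (8 * T ^ 2) + 1 / (8 * T ^ 3)) (3 / 8 - 3 / (16 * T ^ 2) - 3 / (32 * T ^ 3))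
      (3 / 8 + 3 / (16 * T ^ 2) + 3 / (16 * T ^ 3))
    rw [← hu, ← hq, ← hp] at this
    rw [this, hS]; field_simp; ring

/-- base position of the macro -/
lemma Fourteen.of (T k : ℝ) (a b c d r q p r' q' p' : Plane) (hT : 0 < T)
    (hpar : a + c = b + d) (hS : det3 a b d = 256 * T ^ 6 * k)
    (hr : r = b + (1 / 4 : ℝ) • (c - b) + (1 / 4 : ℝ) • (a - b))
    (hq : q = b + (1 / 4 + 1 / (8 * T ^ 2)) • (c - b) +
      (1 / 4 + 1 / (8 * T ^ 2) + 1 / (8 * T ^ 3)) • (a - b))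
    (hp : p = b + (3 / 8 - 3 / (16 * T ^ 2) - 3 / (32 * T ^ 3)) • (c - b) +
      (3 / 8 + 3 / (16 * T ^ 2) + 3 / (16 * T ^ 3)) • (a - b))
    (hr' : r' = d + (1 / 4 : ℝ) • (a - d) + (1 / 4 : ℝ) • (c - d))
    (hq' : q' = d + (1 / 4 + 1 / (8 * T ^ 2)) • (a - d) +
      (1 / 4 + 1 / (8 * T ^ 2) + 1 / (8 * T ^ 3)) • (c - d))
    (hp' : p' = d + (3 / 8 - 3 / (16 * T ^ 2) - 3 / (32 * T ^ 3)) • (a - d) +
      (3 / 8 + 3 / (16 * T ^ 2) + 3 / (16 * T ^ 3)) • (c - d)) :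
    Fourteen T k a b c d r q p r' q' p' := by
  have hd : d = a + c - b := by rw [hpar]; abel
  have hb : det3 b c a = 256 * T ^ 6 * k := by
    rw [← hS, hd]
    simp only [det3, Prod.fst_add, Prod.snd_add, Prod.fst_sub, Prod.snd_sub]
    ring
  have hd2 : det3 d a c = 256 * T ^ 6 * k := by
    rw [← hb, hd]
    simp only [det3, Prod.fst_add, Prod.snd_add, Prod.fst_sub, Prod.snd_sub]
    ring
  refine ⟨Corner.of T k b c a r q p hT hb hr hq hp, Corner.of T k d a c r' q' p' hT hd2 hr' hq' hp',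
    ?_, ?_⟩
  · have ha : a = b + (0 : ℝ) • (c - b) + (1 : ℝ) • (a - b) := by simp
    have hp2 : p' = b + (1 - (3 / 8 - 3 / (16 * T ^ 2) - 3 / (32 * T ^ 3))) • (c - b) +
      (1 - (3 / 8 + 3 / (16 * T ^ 2) + 3 / (16 * T ^ 3))) • (a - b) := by
      rw [hp', hd]
      module
    have := det3_bary b c a 0 1 (3 / 8 - 3 / (16 * T ^ 2) - 3 / (32 * T ^ 3))
      (3 / 8 + 3 / (16 * T ^ 2) + 3 / (16 * T ^ 3))
      (1 - (3 / 8 - 3 / (16 * T ^ 2) - 3 / (32 * T ^ 3)))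
      (1 - (3 / 8 + 3 / (16 * T ^ 2) + 3 / (16 * T ^ 3)))
    rw [← ha, ← hp, ← hp2] at this
    rw [this, hb]; field_simp; ring
  · have hc : c = b + (1 : ℝ) • (c - b) + (0 : ℝ) • (a - b) := by simp
    have hp2 : p' = b + (1 - (3 / 8 - 3 / (16 * T ^ 2) - 3 / (32 * T ^ 3))) • (c - b) +
      (1 - (3 / 8 + 3 / (16 * T ^ 2) + 3 / (16 * T ^ 3))) • (a - b) := by
      rw [hp', hd]
      module
    have := det3_bary b c a 1 0 (1 - (3 / 8 - 3 / (16 * T ^ 2) - 3 / (32 * T ^ 3)))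
      (1 - (3 / 8 + 3 / (16 * T ^ 2) + 3 / (16 * T ^ 3)))
      (3 / 8 - 3 / (16 * T ^ 2) - 3 / (32 * T ^ 3))
      (3 / 8 + 3 / (16 * T ^ 2) + 3 / (16 * T ^ 3))
    rw [← hc, ← hp2, ← hp] at this
    rw [this, hb]; field_simp; ring

lemma le5 {T : ℕ} (hT : 64 ≤ T) : 12 * T ^ 2 + 15 * T + 3 ≤ 4 * T ^ 3 := by
  obtain ⟨s, rfl⟩ := Nat.exists_eq_add_of_le hT
  ring_nf
  nlinarith [Nat.zero_le s]

lemma le6 {T : ℕ} (hT : 64 ≤ T) :
    56 * T ^ 4 + 18 * T ^ 3 ≤ 32 * T ^ 6 + 12 * T ^ 2 + 15 * T + 3 := by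
  have h1 : 56 * T ^ 4 ≤ T ^ 6 := by
    calc 56 * T ^ 4 ≤ (T * T) * T ^ 4 := by gcongr; nlinarith
      _ = T ^ 6 := by ring
  have h2 : 18 * T ^ 3 ≤ T ^ 6 := by
    calc 18 * T ^ 3 ≤ (T * T * T) * T ^ 3 := by gcongr; nlinarith [Nat.zero_le (T * T)]
      _ = T ^ 6 := by ring
  omega

lemma le7 {T : ℕ} (hT : 64 ≤ T) : 24 * T ^ 3 ≤ 64 * T ^ 6 := by
  have h2 : 24 * T ^ 3 ≤ T ^ 6 := by
    calc 24 * T ^ 3 ≤ (T * T * T) * T ^ 3 := by gcongr; nlinarith [Nat.zero_le (T * T)]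
      _ = T ^ 6 := by ring
  omega

lemma cast5 {T : ℕ} (hT : 64 ≤ T) :
    (mA5 T : ℝ) = 4 * (T : ℝ) ^ 3 - 12 * (T : ℝ) ^ 2 - 15 * T - 3 := by
  unfold mA5
  rw [Nat.cast_sub (le5 hT)]
  push_cast
  ring

lemma cast6 {T : ℕ} (hT : 64 ≤ T) :
    (mA6 T : ℝ) = 32 * (T : ℝ) ^ 6 - 56 * (T : ℝ) ^ 4 - 18 * (T : ℝ) ^ 3 + 12 * (T : ℝ) ^ 2 +
      15 * T + 3 := by
  unfold mA6
  rw [Nat.cast_sub (le6 hT)]
  push_cast
  ring

lemma cast7 {T : ℕ} (hT : 64 ≤ T) : (mA7 T : ℝ) = 64 * (T : ℝ) ^ 6 - 24 * (T : ℝ) ^ 3 := by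
  unfold mA7
  rw [Nat.cast_sub (le7 hT)]
  push_cast
  ring

lemma unit_pos {T M : ℕ} (hT : 64 ≤ T) (hM : 1 ≤ M) : (0 : ℝ) < (M : ℝ) / (256 * (T : ℝ) ^ 6) := by
  have h1 : (0 : ℝ) < T := by exact_mod_cast (by omega : 0 < T)
  have h2 : (0 : ℝ) < M := by exact_mod_cast (by omega : 0 < M)
  positivity

lemma fanPos_tri {V : Type} (p : V → Plane) (u v w : V) (h : 0 < det3 (p u) (p v) (p w)) :
    FanPos p [u, v, w] := by
  refine ⟨by simp, ?_⟩
  simpa using h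

end MacroAux

open MacroAux

theorem macroNo : TargetMacroNo := by
  intro T q p hT hM hf hb hd
  have hT' : (64 : ℝ) ≤ T := by exact_mod_cast hT
  have hT0 : (0 : ℝ) < T := by linarith
  have hM' : (1 : ℝ) ≤ q.M := by exact_mod_cast hM
  have hZ : (mZ T : ℝ) = 256 * (T : ℝ) ^ 6 := by unfold mZ; push_cast; ring
  have hk := unit_pos hT hM
  have hMk : 256 * (T : ℝ) ^ 6 * ((q.M : ℝ) / (256 * (T : ℝ) ^ 6)) = q.M := by
    field_simp
  have key : ∀ (u v w : VX) (A : ℕ) (A' : ℝ), ([u, v, w], A * q.M) ∈ macroFaces T q →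
      (A : ℝ) = A' → det3 (p u) (p v) (p w) = A' * ((q.M : ℝ) / (256 * (T : ℝ) ^ 6)) := by
    intro u v w A A' hm hA
    have h1 := hf _ hm
    simp only [shoelace_tri, hZ] at h1
    push_cast at h1
    rw [hA] at h1
    rw [mul_div_assoc', eq_div_iff (by positivity), h1]
  have hF : Fourteen (T : ℝ) ((q.M : ℝ) / (256 * (T : ℝ) ^ 6)) (p q.a) (p q.b) (p q.c) (p q.d)
      (p (q.iv 1)) (p (q.iv 2)) (p (q.iv 3)) (p (q.iv 4)) (p (q.iv 5)) (p (q.iv 6)) := by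
    refine ⟨⟨?_, ?_, ?_, ?_, ?_, ?_⟩, ⟨?_, ?_, ?_, ?_, ?_, ?_⟩, ?_, ?_⟩
    · exact key _ _ _ (mA1 T) _ (by simp [macroFaces]) (by unfold mA1; push_cast; ring)
    · exact key _ _ _ (mA2 T) _ (by simp [macroFaces]) (by unfold mA2; push_cast; ring)
    · exact key _ _ _ (mA3 T) _ (by simp [macroFaces]) (by unfold mA3; push_cast; ring)
    · exact key _ _ _ (mA4 T) _ (by simp [macroFaces]) (by unfold mA4; push_cast; ring)
    · exact key _ _ _ (mA5 T) _ (by simp [macroFaces]) (cast5 hT)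
    · exact key _ _ _ (mA6 T) _ (by simp [macroFaces]) (cast6 hT)
    · exact key _ _ _ (mA1 T) _ (by simp [macroFaces]) (by unfold mA1; push_cast; ring)
    · exact key _ _ _ (mA2 T) _ (by simp [macroFaces]) (by unfold mA2; push_cast; ring)
    · exact key _ _ _ (mA3 T) _ (by simp [macroFaces]) (by unfold mA3; push_cast; ring)
    · exact key _ _ _ (mA4 T) _ (by simp [macroFaces]) (by unfold mA4; push_cast; ring)
    · exact key _ _ _ (mA5 T) _ (by simp [macroFaces]) (cast5 hT)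
    · exact key _ _ _ (mA6 T) _ (by simp [macroFaces]) (cast6 hT)
    · exact key _ _ _ (mA7 T) _ (by simp [macroFaces]) (cast7 hT)
    · exact key _ _ _ (mA7 T) _ (by simp [macroFaces]) (cast7 hT)
  have h := hF.par hk hT' (by rw [hMk]; exact hM') (le_of_abs_le hb) (le_of_abs_le hd)
  rw [hMk] at h
  exact h

theorem macroYes : TargetMacroYes := by
  intro T q p hT hM hpar hiv
  have hT' : (64 : ℝ) ≤ T := by exact_mod_cast hT
  have hT0 : (0 : ℝ) < T := by linarith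
  have hM' : (1 : ℝ) ≤ q.M := by exact_mod_cast hM
  have hZ : (mZ T : ℝ) = 256 * (T : ℝ) ^ 6 := by unfold mZ; push_cast; ring
  have hk := unit_pos hT hM
  have hMk : 256 * (T : ℝ) ^ 6 * ((q.M : ℝ) / (256 * (T : ℝ) ^ 6)) = q.M := by
    field_simp
  have e3a : (3 / 8 - 3 * (1 / (8 * (T : ℝ) ^ 2)) / 2 - 3 * (1 / (8 * (T : ℝ) ^ 3)) / 4) =
      3 / 8 - 3 / (16 * (T : ℝ) ^ 2) - 3 / (32 * (T : ℝ) ^ 3) := by
    field_simp; ring
  have e3b : (3 / 8 + 3 * (1 / (8 * (T : ℝ) ^ 2)) / 2 + 3 * (1 / (8 * (T : ℝ) ^ 3)) / 2) =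
      3 / 8 + 3 / (16 * (T : ℝ) ^ 2) + 3 / (16 * (T : ℝ) ^ 3) := by
    field_simp; ring
  have hF : Fourteen (T : ℝ) ((q.M : ℝ) / (256 * (T : ℝ) ^ 6)) (p q.a) (p q.b) (p q.c) (p q.d)
      (p (q.iv 1)) (p (q.iv 2)) (p (q.iv 3)) (p (q.iv 4)) (p (q.iv 5)) (p (q.iv 6)) := by
    apply Fourteen.of _ _ _ _ _ _ _ _ _ _ _ _ hT0 hpar.1 (by rw [hpar.2, hMk])
    · rw [hiv 1 (by norm_num) (by norm_num)]
      simp [ipt, gpt]
    · rw [hiv 2 (by norm_num) (by norm_num)]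
      simp [ipt, gpt]
    · rw [hiv 3 (by norm_num) (by norm_num), ← e3a, ← e3b]
      simp [ipt, gpt]
    · rw [hiv 4 (by norm_num) (by norm_num)]
      simp [ipt, gpt]
    · rw [hiv 5 (by norm_num) (by norm_num)]
      simp [ipt, gpt]
    · rw [hiv 6 (by norm_num) (by norm_num), ← e3a, ← e3b]
      simp [ipt, gpt]
  have key : ∀ (u v w : VX) (A : ℕ) (A' : ℝ), 
      det3 (p u) (p v) (p w) = A' * ((q.M : ℝ) / (256 * (T : ℝ) ^ 6)) → (A : ℝ) = A' → 0 < A' →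
      shoelace p [u, v, w] * mZ T = ((A * q.M : ℕ) : ℝ) ∧ FanPos p [u, v, w] := by
    intro u v w A A' h1 hA hA'
    refine ⟨?_, fanPos_tri _ _ _ _ (by rw [h1]; positivity)⟩
    rw [shoelace_tri, h1, hZ, ← hA]
    push_cast
    field_simp
  have p5 : 0 < 4 * (T : ℝ) ^ 3 - 12 * (T : ℝ) ^ 2 - 15 * T - 3 := by
    have : (T : ℝ) ^ 3 = T * T ^ 2 := by ring
    nlinarith [sq_nonneg (T : ℝ)]
  have p6 : 0 < 32 * (T : ℝ) ^ 6 - 56 * (T : ℝ) ^ 4 - 18 * (T : ℝ) ^ 3 + 12 * (T : ℝ) ^ 2 +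
      15 * T + 3 := by
    obtain ⟨s, hs, hsT⟩ : ∃ s : ℝ, 0 ≤ s ∧ (T : ℝ) = s + 64 := ⟨T - 64, by linarith, by ring⟩
    rw [hsT]
    ring_nf
    positivity
  have p7 : 0 < 64 * (T : ℝ) ^ 6 - 24 * (T : ℝ) ^ 3 := by
    obtain ⟨s, hs, hsT⟩ : ∃ s : ℝ, 0 ≤ s ∧ (T : ℝ) = s + 64 := ⟨T - 64, by linarith, by ring⟩
    rw [hsT]
    ring_nf
    positivity
  intro f hf
  simp only [macroFaces, List.mem_cons, List.not_mem_nil, or_false] at hf
  rcases hf with rfl | rfl | rfl | rfl | rfl | rfl | rfl | rfl | rfl | rfl | rfl | rfl | rfl | rfl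
  · exact key _ _ _ _ _ hF.cb.e1 (by unfold mA1; push_cast; ring) (by positivity)
  · exact key _ _ _ _ _ hF.cb.e2 (by unfold mA2; push_cast; ring) (by positivity)
  · exact key _ _ _ _ _ hF.cb.e3 (by unfold mA3; push_cast; ring) (by positivity)
  · exact key _ _ _ _ _ hF.cb.e4 (by unfold mA4; push_cast; ring) (by positivity)
  · exact key _ _ _ _ _ hF.cb.e5 (cast5 hT) p5
  · exact key _ _ _ _ _ hF.cb.e6 (cast6 hT) p6
  · exact key _ _ _ _ _ hF.cd.e1 (by unfold mA1; push_cast; ring) (by positivity)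
  · exact key _ _ _ _ _ hF.cd.e2 (by unfold mA2; push_cast; ring) (by positivity)
  · exact key _ _ _ _ _ hF.cd.e3 (by unfold mA3; push_cast; ring) (by positivity)
  · exact key _ _ _ _ _ hF.cd.e4 (by unfold mA4; push_cast; ring) (by positivity)
  · exact key _ _ _ _ _ hF.cd.e5 (cast5 hT) p5
  · exact key _ _ _ _ _ hF.cd.e6 (cast6 hT) p6
  · exact key _ _ _ _ _ hF.m1 (cast7 hT) p7
  · exact key _ _ _ _ _ hF.m2 (cast7 hT) p7

end Pool.Agent.PAH
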