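import Pool.Agent.PAH.Targets

set_option autoImplicit false

/-!
# R-MAP: relabelling the vertices
-/

namespace Pool.Agent.PAH

namespace MapV

variable {V W : Type}

lemma dartsOf_map (g : V → W) (w : List V) :
    dartsOf (w.map g) = (dartsOf w).map (Prod.map g g) := by
  unfold dartsOf
  rw [← List.map_rotate, List.zip_map]

lemma cornersOf_map (g : V → W) (w : List V) :
    cornersOf (w.map g) = (cornersOf w).map (Prod.map g (Prod.map g g)) := by
  unfold cornersOf
  rw [← List.map_rotate, ← List.map_rotate, List.zip_map, List.zip_map]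

lemma walks_map (g : V → W) (G : FaceMap V) :
    (G.map g).walks = G.walks.map (List.map g) := by
  unfold FaceMap.walks FaceMap.map
  simp [Function.comp_def]

lemma darts_map (g : V → W) (G : FaceMap V) :
    (G.map g).darts = G.darts.map (Prod.map g g) := by
  unfold FaceMap.darts
  rw [walks_map, List.flatMap_map, List.map_flatMap]
  simp only [dartsOf_map]

lemma drawn_map (g : V → W) (G : FaceMap V) (p' : W → Plane) (p : V → Plane)
    (h : ∀ v, p' (g v) = p v) : (G.map g).drawn p' = G.drawn p := by
  unfold FaceMap.drawn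
  rw [darts_map]
  ext x
  constructor
  · rintro ⟨d, hd, hx⟩
    obtain ⟨e, he, rfl⟩ := List.mem_map.1 hd
    refine ⟨e, he, ?_⟩
    simpa [h] using hx
  · rintro ⟨e, he, hx⟩
    refine ⟨_, List.mem_map_of_mem he, ?_⟩
    simpa [h] using hx

lemma isFace_map (g : V → W) (G : FaceMap V) (p' : W → Plane) (p : V → Plane)
    (h : ∀ v, p' (g v) = p v) (w : List V) (R : Set Plane) :
    IsFace (G.map g) p' (w.map g) R ↔ IsFace G p w R := by
  constructor
  · rintro ⟨h1, h2⟩
    refine ⟨?_, ?_⟩
    · rw [drawn_map g G p' p h] at h1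
      exact h1
    · intro d hd
      have := h2 (Prod.map g g d) (by
        rw [dartsOf_map]
        exact List.mem_map_of_mem hd)
      simpa [h] using this
  · rintro ⟨h1, h2⟩
    refine ⟨?_, ?_⟩
    · rw [drawn_map g G p' p h]
      exact h1
    · intro d hd
      rw [dartsOf_map] at hd
      obtain ⟨e, he, rfl⟩ := List.mem_map.1 hd
      simpa [h] using h2 e he

lemma inner_length (g : V → W) (G : FaceMap V) : (G.map g).inner.length = G.inner.length := by
  simp [FaceMap.map]

lemma inner_get (g : V → W) (G : FaceMap V) (i : Fin (G.map g).inner.length) :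
    (G.map g).inner.get i = (((G.inner.get (Fin.cast (inner_length g G) i)).1.map g,
      (G.inner.get (Fin.cast (inner_length g G) i)).2)) := by
  have key : ∀ (l : List (List V × ℚ)) (j : ℕ)
      (h1 : j < (l.map fun f : List V × ℚ => (f.1.map g, f.2)).length) (h2 : j < l.length),
      (l.map fun f : List V × ℚ => (f.1.map g, f.2))[j] = ((l[j]).1.map g, (l[j]).2) := by
    intro l j h1 h2
    rw [List.getElem_map]
  exact key G.inner i.1 i.2 _

/-- a drawing of `G` gives a drawing of the relabelled map -/
def toMap (g : V → W) (hg : Function.Injective g) (G : FaceMap V) (D : Drawing G)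
    (p' : W → Plane) (h : ∀ v, p' (g v) = D.pos v) : Drawing (G.map g) where
  pos := p'
  nodup := by
    rw [darts_map]
    exact D.nodup.map (hg.prodMap hg)
  symm := by
    intro d hd
    rw [darts_map] at hd ⊢
    obtain ⟨e, he, rfl⟩ := List.mem_map.1 hd
    exact List.mem_map.2 ⟨e.swap, D.symm e he, rfl⟩
  loopless := by
    intro d hd
    rw [darts_map] at hd
    obtain ⟨e, he, rfl⟩ := List.mem_map.1 hd
    intro h1
    exact D.loopless e he (hg h1)
  inj := by
    intro d hd e he h1
    rw [darts_map] at hd he
    obtain ⟨d', hd', rfl⟩ := List.mem_map.1 hd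
    obtain ⟨e', he', rfl⟩ := List.mem_map.1 he
    simp only [Prod.map_fst, h] at h1 ⊢
    rw [D.inj d' hd' e' he' h1]
  noncrossing := by
    intro d hd e he h1 h2 x hx1 hx2
    rw [darts_map] at hd he
    obtain ⟨d', hd', rfl⟩ := List.mem_map.1 hd
    obtain ⟨e', he', rfl⟩ := List.mem_map.1 he
    simp only [Prod.map_fst, Prod.map_snd, h] at hx1 hx2
    obtain ⟨v, hv1, hv2, hv3⟩ := D.noncrossing d' hd' e' he' (fun hc => h1 (by rw [hc]))
      (fun hc => h2 (by rw [hc]; rfl)) x hx1 hx2
    refine ⟨g v, ?_, ?_, by rw [h]; exact hv3⟩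
    · rcases hv1 with rfl | rfl
      · exact Or.inl rfl
      · exact Or.inr rfl
    · rcases hv2 with hv | hv
      · exact Or.inl (by rw [hv]; rfl)
      · exact Or.inr (by rw [hv]; rfl)
  rotation := by
    intro f hf c hc x hx hne
    rw [walks_map] at hf
    obtain ⟨f', hf', rfl⟩ := List.mem_map.1 hf
    rw [cornersOf_map] at hc
    obtain ⟨c', hc', rfl⟩ := List.mem_map.1 hc
    rw [darts_map] at hx
    obtain ⟨e, he, hex⟩ := List.mem_map.1 hx
    have h1 : g e.1 = g c'.2.1 := congrArg Prod.fst hex
    have h2 : g e.2 = x := congrArg Prod.snd hex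
    have h3 : e.1 = c'.2.1 := hg h1
    subst h2
    simp only [Prod.map_fst, Prod.map_snd, h] at hne ⊢
    refine D.rotation f' hf' c' hc' e.2 ?_ (fun hc => hne (by rw [hc]))
    rw [← h3]
    exact he
  outerFace := D.outerFace
  face := fun i => D.face (Fin.cast (inner_length g G) i)
  outer_isFace := (isFace_map g G p' D.pos h _ _).2 D.outer_isFace
  outer_unbounded := D.outer_unbounded
  face_isFace := by
    intro i
    rw [inner_get]
    exact (isFace_map g G p' D.pos h _ _).2 (D.face_isFace _)
  face_bounded := fun i => D.face_bounded _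
  face_inj := D.face_inj.comp (Fin.cast_injective _)

/-- a drawing of the relabelled map gives a drawing of `G` -/
def ofMap (g : V → W) (hg : Function.Injective g) (G : FaceMap V) (D : Drawing (G.map g)) :
    Drawing G where
  pos := fun v => D.pos (g v)
  nodup := by
    have h := D.nodup
    rw [darts_map] at h
    exact h.of_map _
  symm := by
    intro d hd
    have h := D.symm (Prod.map g g d) (by
      rw [darts_map]
      exact List.mem_map_of_mem hd)
    rw [darts_map] at h
    obtain ⟨e, he, hes⟩ := List.mem_map.1 h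
    have h1 : e = d.swap := hg.prodMap hg hes
    rw [← h1]
    exact he
  loopless := by
    intro d hd h1
    exact D.loopless (Prod.map g g d) (by
      rw [darts_map]
      exact List.mem_map_of_mem hd) (congrArg g h1)
  inj := by
    intro d hd e he h1
    have h := D.inj (Prod.map g g d) (by
      rw [darts_map]
      exact List.mem_map_of_mem hd) (Prod.map g g e) (by
      rw [darts_map]
      exact List.mem_map_of_mem he) h1
    exact hg h
  noncrossing := by
    intro d hd e he h1 h2 x hx1 hx2
    obtain ⟨v, hv1, hv2, hv3⟩ := D.noncrossing (Prod.map g g d) (by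
      rw [darts_map]
      exact List.mem_map_of_mem hd) (Prod.map g g e) (by
      rw [darts_map]
      exact List.mem_map_of_mem he) (fun hc => h1 (hg.prodMap hg hc))
      (fun hc => h2 (hg.prodMap hg hc)) x hx1 hx2
    rcases hv1 with rfl | rfl
    · refine ⟨d.1, Or.inl rfl, ?_, hv3⟩
      rcases hv2 with hv | hv
      · exact Or.inl (hg hv)
      · exact Or.inr (hg hv)
    · refine ⟨d.2, Or.inr rfl, ?_, hv3⟩
      rcases hv2 with hv | hv
      · exact Or.inl (hg hv)
      · exact Or.inr (hg hv)
  rotation := by
    intro f hf c hc x hx hne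
    exact D.rotation (f.map g) (by
      rw [walks_map]
      exact List.mem_map_of_mem hf) (Prod.map g (Prod.map g g) c) (by
      rw [cornersOf_map]
      exact List.mem_map_of_mem hc) (g x) (by
      rw [darts_map]
      exact List.mem_map_of_mem (f := Prod.map g g) hx) (fun hcc => hne (hg hcc))
  outerFace := D.outerFace
  face := fun i => D.face (Fin.cast (inner_length g G).symm i)
  outer_isFace := (isFace_map g G D.pos (fun v => D.pos (g v)) (fun _ => rfl) _ _).1
    D.outer_isFace
  outer_unbounded := D.outer_unbounded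
  face_isFace := by
    intro i
    have h := D.face_isFace (Fin.cast (inner_length g G).symm i)
    rw [inner_get] at h
    exact (isFace_map g G D.pos (fun v => D.pos (g v)) (fun _ => rfl) _ _).1 h
  face_bounded := fun i => D.face_bounded _
  face_inj := D.face_inj.comp (Fin.cast_injective _)

end MapV

open MapV in
/-- R-MAP -/
theorem rMap : TargetMap := by
  intro V W G g hg
  have hpos : ∀ p : V → Plane, ∃ p' : W → Plane, ∀ v, p' (g v) = p v := fun p =>
    ⟨Function.extend g p (fun _ => 0), fun v => hg.extend_apply p _ v⟩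
  refine ⟨⟨?_, ?_⟩, ⟨?_, ?_⟩⟩
  · rintro ⟨D⟩
    exact ⟨ofMap g hg G D⟩
  · rintro ⟨D⟩
    obtain ⟨p', hp'⟩ := hpos D.pos
    exact ⟨toMap g hg G D p' hp'⟩
  · rintro ⟨D, hD⟩
    refine ⟨ofMap g hg G D, fun i => ?_⟩
    have h := hD (Fin.cast (inner_length g G).symm i)
    rw [inner_get] at h
    exact h
  · rintro ⟨D, hD⟩
    obtain ⟨p', hp'⟩ := hpos D.pos
    refine ⟨toMap g hg G D p' hp', fun i => ?_⟩
    have h := hD (Fin.cast (inner_length g G) i)
    rw [inner_get]
    exact h

end Pool.Agent.PAH
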