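import Pool.Agent.PAH.Tools

set_option autoImplicit false
set_option linter.unusedSectionVars false

/-!
# P-COLS: printing the node matrix of an arithmetic system
-/

namespace Pool.Agent.PAH

open PolyClass

namespace PCols

local instance instInhSym : Inhabited Sym := ⟨Sym.comma⟩

variable {C : PolyClass Sym} {α : Type} [Ctx Sym α]

/-! ### Initial segments and fields -/

lemma foldl_stop (p : Sym → Bool) (l : List Sym) (d : Sym) (u out : List Sym) :
    l.foldl (fun (s : List Sym × List Sym) c => match s.1 with
      | [] => if p c then ([], s.2 ++ [c]) else ([c], s.2)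
      | _ :: _ => s) (d :: u, out) = (d :: u, out) := by
  induction l with
  | nil => rfl
  | cons c l ih => rw [List.foldl_cons]; exact ih

lemma foldl_takeWhile (p : Sym → Bool) (l out : List Sym) :
    (l.foldl (fun (s : List Sym × List Sym) c => match s.1 with
      | [] => if p c then ([], s.2 ++ [c]) else ([c], s.2)
      | _ :: _ => s) ([], out)).2 = out ++ l.takeWhile p := by
  induction l generalizing out with
  | nil => simp
  | cons c l ih =>
      rw [List.foldl_cons, List.takeWhile_cons]
      by_cases h : p c = true
      · simp only [h, if_true]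
        rw [ih]; simp
      · simp only [h]
        rw [if_neg (by simp)]
        rw [foldl_stop]; simp

theorem takeWhileP {t : α → List Sym} (ht : C.P t) (p : Sym → Bool) :
    C.P (fun a => (t a).takeWhile p) := by
  have key : ∀ c, C.P (fun x : (List Sym × List Sym) × α =>
      if p c then (([] : List Sym), x.1.2 ++ [c]) else ([c], x.1.2)) := by
    intro c
    by_cases hc : p c = true
    · simp only [hc, if_true]
      exact (C.const []).pair (C.fst.snd.snoc c)
    · have hc' : p c = false := by simpa using hc
      simp only [hc']
      exact (C.const [c]).pair C.fst.snd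
  have h := P.foldlAdd (C := C) (l := t) (s₀ := fun _ => (([], []) : List Sym × List Sym))
    (step := fun c x => match x.1.1 with
      | [] => if p c then ([], x.1.2 ++ [c]) else ([c], x.1.2)
      | _ :: _ => x.1) 1 ht ((C.const []).pair (C.const []))
    (fun c => by
      have h := P.cases (f₁ := fun (_ : Sym) (x : (List Sym × List Sym) × α) => x.1)
        C.fst.fst (key c) (fun _ => C.fst)
      refine h.congr fun x => ?_
      rcases x.1.1 with _ | ⟨d, u⟩ <;> rfl)
    (fun c s a => by
      rcases s with ⟨_ | ⟨d, s⟩, u⟩
      · by_cases hc : p c = true <;> simp [hc]; omega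
      · simp)
  refine h.snd.congr fun a => ?_
  exact (foldl_takeWhile p (t a) []).trans (List.nil_append _)

/-- not a comma -/
def nc (c : Sym) : Bool := decide (c ≠ Sym.comma)

/-- drop the first comma-separated field -/
def skip (l : List Sym) : List Sym := l.drop ((l.takeWhile nc).length + 1)

/-- the first comma-separated field -/
def fld (l : List Sym) : List Sym := l.takeWhile nc

theorem skipP {t : α → List Sym} (ht : C.P t) : C.P (fun a => skip (t a)) :=
  ht.drop ((takeWhileP ht nc).length.add (N.const C 1))

theorem fldP {t : α → List Sym} (ht : C.P t) : C.P (fun a => fld (t a)) := takeWhileP ht nc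

lemma skip_length (l : List Sym) : (skip l).length ≤ l.length := by
  unfold skip; rw [List.length_drop]; omega

theorem iterP {t : α → List Sym} {n : α → ℕ} (ht : C.P t) (hn : C.N n) :
    C.P (fun a => skip^[n a] (t a)) := by
  have h := P.foldlAdd (C := C) (l := fun a => List.replicate (n a) (default : Sym)) (s₀ := t)
    (step := fun _ x => skip x.1) 1 (hn.rep _) ht (fun _ => skipP C.fst)
    (fun c s a => by
      have := skip_length s
      simp only [csize_list]; omega)
  refine h.congr fun a => ?_
  generalize n a = k
  generalize t a = l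
  induction k generalizing l with
  | zero => simp
  | succ k ih => rw [List.replicate_succ, List.foldl_cons, ih, Function.iterate_succ_apply]

lemma skip_field (f r : List Sym) (hf : ∀ c ∈ f, c ≠ Sym.comma) :
    skip (f ++ Sym.comma :: r) = r ∧ fld (f ++ Sym.comma :: r) = f := by
  have h : (f ++ Sym.comma :: r).takeWhile nc = f := by
    induction f with
    | nil => simp [nc]
    | cons c f ih =>
        rw [List.cons_append, List.takeWhile_cons, if_pos (by simp [nc, hf c (by simp)]),
          ih (fun d hd => hf d (by simp [hd]))]
  refine ⟨?_, h⟩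
  unfold skip
  rw [h]
  simp

lemma ticks (k : ℕ) : ∀ c ∈ List.replicate k Sym.tick, c ≠ Sym.comma := by
  intro c hc
  rw [List.eq_of_mem_replicate hc]
  simp

/-- the head symbol -/
def hd (c : Constr) : Sym := if c.isAdd then Sym.add else Sym.mul

lemma enc_eq (c : Constr) (r : List Sym) : encConstr c ++ r =
    [hd c] ++ Sym.comma :: (List.replicate c.u Sym.tick ++ Sym.comma ::
      (List.replicate c.v Sym.tick ++ Sym.comma ::
        (List.replicate c.w Sym.tick ++ Sym.comma :: r))) := by
  simp [encConstr, hd]

lemma hd_ne (c : Constr) : ∀ d ∈ [hd c], d ≠ Sym.comma := by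
  intro d h
  rw [List.mem_singleton] at h
  subst h
  unfold hd
  split_ifs <;> simp

lemma fields (c : Constr) (r : List Sym) :
    (fld (encConstr c ++ r)) = [hd c] ∧
    (fld (skip (encConstr c ++ r))).length = c.u ∧
    (fld (skip^[2] (encConstr c ++ r))).length = c.v ∧
    (fld (skip^[3] (encConstr c ++ r))).length = c.w ∧ skip^[4] (encConstr c ++ r) = r := by
  rw [enc_eq]
  simp only [Function.iterate_succ_apply, Function.iterate_zero_apply,
    (skip_field _ _ (hd_ne c)).1, (skip_field _ _ (hd_ne c)).2,
    (skip_field _ _ (ticks _)).1, (skip_field _ _ (ticks _)).2, List.length_replicate,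
    and_self]

lemma iter_enc (L : List Constr) (k : ℕ) : skip^[4 * k] (encArith L) = encArith (L.drop k) := by
  induction k generalizing L with
  | zero => simp
  | succ k ih =>
      rcases L with _ | ⟨c, L⟩
      · have : ∀ j, skip^[j] (encArith []) = [] := by
          intro j
          induction j with
          | zero => rfl
          | succ j ih => rw [Function.iterate_succ_apply', ih]; rfl
        rw [this]; rfl
      · rw [Nat.mul_succ, Function.iterate_add_apply]
        have h : encArith (c :: L) = encConstr c ++ encArith L := rfl
        rw [h, (fields c _).2.2.2.2, ih]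
        rfl

/-! ### Counting -/

/-- head symbols of constraints -/
def isHd (c : Sym) : Bool := decide (c = Sym.add ∨ c = Sym.mul)

lemma count (L : List Constr) : ((encArith L).filter isHd).length = L.length := by
  induction L with
  | nil => rfl
  | cons c L ih =>
      have h : encArith (c :: L) = encConstr c ++ encArith L := rfl
      rw [h, List.filter_append, List.length_append, ih, List.length_cons]
      have : ((encConstr c).filter isHd).length = 1 := by
        have h1 : ∀ k, (List.replicate k Sym.tick).filter isHd = [] := by
          intro k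
          rw [List.filter_eq_nil_iff]
          intro d hd
          rw [List.eq_of_mem_replicate hd]
          simp [isHd]
        have h2 : [Sym.comma].filter isHd = [] := rfl
        simp only [encConstr, List.filter_append, h1, h2, List.append_nil]
        split_ifs <;> rfl
      omega

/-! ### Columns -/

/-- a column with some entries replaced by `A` -/
def linS (n : ℕ) (S : List ℕ) : List Sym :=
  S.foldl (fun c r => c.set r Sym.one) (List.replicate n Sym.zero) ++ [Sym.comma]

/-- a product column -/
def mulS (n r : ℕ) : List Sym :=
  (((List.replicate n Sym.zero).set r Sym.one).set (r + 1) Sym.var).set (r + 2) Sym.one ++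
    [Sym.comma]

lemma linS_eq (n : ℕ) (S : List ℕ) : (linCol n S).map tySym ++ [Sym.comma] = linS n S := by
  unfold linCol linS
  congr 1
  have : ∀ (l : List Ty), (S.foldl (fun c r => c.set r Ty.A) l).map tySym =
      S.foldl (fun c r => c.set r Sym.one) (l.map tySym) := by
    induction S with
    | nil => intro l; rfl
    | cons r S ih => intro l; rw [List.foldl_cons, List.foldl_cons, ih, List.map_set]; rfl
  rw [this, List.map_replicate]
  rfl

lemma mulS_eq (n r : ℕ) : (mulCol n r).map tySym ++ [Sym.comma] = mulS n r := by
  unfold mulCol mulS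
  rw [List.map_set, List.map_set, List.map_set, List.map_replicate]
  rfl

theorem linP1 {n r : α → ℕ} (hn : C.N n) (hr : C.N r) : C.P (fun a => linS (n a) [r a]) :=
  ((hn.rep Sym.zero).set hr Sym.one).snoc Sym.comma

theorem linP2 {n r s : α → ℕ} (hn : C.N n) (hr : C.N r) (hs : C.N s) :
    C.P (fun a => linS (n a) [r a, s a]) :=
  (((hn.rep Sym.zero).set hr Sym.one).set hs Sym.one).snoc Sym.comma

theorem linP3 {n r s t : α → ℕ} (hn : C.N n) (hr : C.N r) (hs : C.N s) (ht : C.N t) :
    C.P (fun a => linS (n a) [r a, s a, t a]) :=
  ((((hn.rep Sym.zero).set hr Sym.one).set hs Sym.one).set ht Sym.one).snoc Sym.comma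

theorem linP4 {n r s t u : α → ℕ} (hn : C.N n) (hr : C.N r) (hs : C.N s) (ht : C.N t)
    (hu : C.N u) : C.P (fun a => linS (n a) [r a, s a, t a, u a]) :=
  (((((hn.rep Sym.zero).set hr Sym.one).set hs Sym.one).set ht Sym.one).set hu
    Sym.one).snoc Sym.comma

theorem mulP {n r : α → ℕ} (hn : C.N n) (hr : C.N r) : C.P (fun a => mulS (n a) (r a)) :=
  ((((hn.rep Sym.zero).set hr Sym.one).set (hr.add (N.const C 1)) Sym.var).set
    (hr.add (N.const C 2)) Sym.one).snoc Sym.comma

/-- the printed columns of an addition -/
def addOut (n b u v w : ℕ) : List Sym :=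
  linS n [b, u] ++ linS n [b, u] ++ linS n [b + 1, v] ++ linS n [b + 1, v] ++
    linS n [b, b + 1, w] ++ linS n [b, b + 1, w]

/-- the printed columns of a multiplication -/
def mulOut (n b u v w : ℕ) : List Sym :=
  linS n [b, u] ++ linS n [b, u] ++ linS n [b + 1, v] ++ linS n [b + 1, v] ++
    linS n [b + 3, 0] ++ linS n [b + 3, 0] ++ linS n [b + 4, w] ++ linS n [b + 4, w] ++
    linS n [b + 6, b + 5] ++ linS n [b + 6, b + 5] ++
    linS n [b + 2, b, b + 6, 0] ++ linS n [b + 2, b, b + 6, 0] ++
    mulS n b ++ mulS n (b + 3)

lemma cols_out (n b : ℕ) (c : Constr) :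
    (c.cols n b).flatMap (fun c => c.map tySym ++ [Sym.comma]) =
      if c.isAdd then addOut n b c.u c.v c.w else mulOut n b c.u c.v c.w := by
  unfold Constr.cols
  split_ifs with h
  · simp only [List.flatMap_cons, List.flatMap_nil, linS_eq, addOut, List.append_nil,
      List.append_assoc]
  · simp only [List.flatMap_cons, List.flatMap_nil, linS_eq, mulS_eq, mulOut, List.append_nil,
      List.append_assoc]

theorem addOutP {n b u v w : α → ℕ} (hn : C.N n) (hb : C.N b) (hu : C.N u) (hv : C.N v)
    (hw : C.N w) : C.P (fun a => addOut (n a) (b a) (u a) (v a) (w a)) := by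
  have h1 := hb.add (N.const C 1)
  exact (((((linP2 hn hb hu).append (linP2 hn hb hu)).append (linP2 hn h1 hv)).append
    (linP2 hn h1 hv)).append (linP3 hn hb h1 hw)).append (linP3 hn hb h1 hw)

theorem mulOutP {n b u v w : α → ℕ} (hn : C.N n) (hb : C.N b) (hu : C.N u) (hv : C.N v)
    (hw : C.N w) : C.P (fun a => mulOut (n a) (b a) (u a) (v a) (w a)) := by
  have h0 := N.const (α := α) C 0
  have h1 := hb.add (N.const C 1)
  have h2 := hb.add (N.const C 2)
  have h3 := hb.add (N.const C 3)
  have h4 := hb.add (N.const C 4)
  have h5 := hb.add (N.const C 5)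
  have h6 := hb.add (N.const C 6)
  exact (((((((((((((linP2 hn hb hu).append (linP2 hn hb hu)).append (linP2 hn h1 hv)).append
    (linP2 hn h1 hv)).append (linP2 hn h3 h0)).append (linP2 hn h3 h0)).append
    (linP2 hn h4 hw)).append (linP2 hn h4 hw)).append (linP2 hn h6 h5)).append
    (linP2 hn h6 h5)).append (linP4 hn h2 hb h6 h0)).append (linP4 hn h2 hb h6 h0)).append
    (mulP hn hb)).append (mulP hn h3)

/-! ### The whole function -/

def nvS (w : List Sym) : ℕ := w.length + 1
def nS (w : List Sym) : ℕ := nvS w + 7 * (w.filter isHd).length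

/-- columns of the `k`-th constraint -/
def body (k : ℕ) (w : List Sym) : List Sym :=
  match skip^[4 * k] w with
  | [] => []
  | c :: _ => if c = Sym.add then
      addOut (nS w) (nvS w + 7 * k) (fld (skip (skip^[4 * k] w))).length
        (fld (skip^[2] (skip^[4 * k] w))).length (fld (skip^[3] (skip^[4 * k] w))).length
    else
      mulOut (nS w) (nvS w + 7 * k) (fld (skip (skip^[4 * k] w))).length
        (fld (skip^[2] (skip^[4 * k] w))).length (fld (skip^[3] (skip^[4 * k] w))).length

/-- the printing function -/
def out (w : List Sym) : List Sym :=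
  List.replicate (nS w) Sym.tick ++ [Sym.comma] ++
    (List.range (w.filter isHd).length).flatMap fun k => body k w

theorem nvP {t : α → List Sym} (ht : C.P t) : C.N (fun a => nvS (t a)) :=
  ht.length.add (N.const C 1)

theorem nP {t : α → List Sym} (ht : C.P t) : C.N (fun a => nS (t a)) :=
  (nvP ht).add ((N.const C 7).mul (ht.filter isHd).length)

theorem bodyP : C.P (fun x : List Sym × List Sym => body x.1.length x.2) := by
  have hk : C.N (fun x : List Sym × List Sym => 4 * x.1.length) :=
    (N.const C 4).mul (P.length C.fst)
  have hr : C.P (fun x : List Sym × List Sym => skip^[4 * x.1.length] x.2) := iterP C.snd hk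
  have hu := (fldP (skipP hr)).length
  have hv := (fldP (iterP hr (N.const C 2))).length
  have hw := (fldP (iterP hr (N.const C 3))).length
  have hb : C.N (fun x : List Sym × List Sym => nvS x.2 + 7 * x.1.length) :=
    (nvP C.snd).add ((N.const C 7).mul (P.length C.fst))
  have hn : C.N (fun x : List Sym × List Sym => nS x.2) := nP C.snd
  have key : ∀ c, C.P (fun x : List Sym × List Sym => if c = Sym.add then
      addOut (nS x.2) (nvS x.2 + 7 * x.1.length)
        (fld (skip (skip^[4 * x.1.length] x.2))).length
        (fld (skip^[2] (skip^[4 * x.1.length] x.2))).length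
        (fld (skip^[3] (skip^[4 * x.1.length] x.2))).length
    else
      mulOut (nS x.2) (nvS x.2 + 7 * x.1.length)
        (fld (skip (skip^[4 * x.1.length] x.2))).length
        (fld (skip^[2] (skip^[4 * x.1.length] x.2))).length
        (fld (skip^[3] (skip^[4 * x.1.length] x.2))).length) := by
    intro c
    by_cases hc : c = Sym.add
    · simp only [hc, if_true]
      exact addOutP hn hb hu hv hw
    · simp only [hc, if_false]
      exact mulOutP hn hb hu hv hw
  refine (P.cases hr (C.const []) key).congr fun x => ?_
  unfold body
  rcases skip^[4 * x.1.length] x.2 with _ | ⟨c, l⟩ <;> rfl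

theorem outP (C : PolyClass Sym) : C.P out := by
  have h1 : C.N (fun w : List Sym => nS w) := nP C.id'
  have h2 : C.N (fun w : List Sym => (w.filter isHd).length) := (P.filter C.id' isHd).length
  exact ((h1.rep Sym.tick).snoc Sym.comma).append (P.flatRange h2 bodyP)

lemma body_eq (L : List Constr) (k : ℕ) (hk : k < L.length) :
    body k (encArith L) = ((L[k]).cols (nS (encArith L)) (nvS (encArith L) + 7 * k)).flatMap
      (fun c => c.map tySym ++ [Sym.comma]) := by
  have h1 : L.drop k = L[k] :: L.drop (k + 1) := List.drop_eq_getElem_cons hk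
  have h2 : skip^[4 * k] (encArith L) = encConstr L[k] ++ encArith (L.drop (k + 1)) := by
    rw [iter_enc, h1]; rfl
  obtain ⟨-, fu, fv, fw, -⟩ := fields L[k] (encArith (L.drop (k + 1)))
  rw [cols_out]
  unfold body
  rw [h2, fu, fv, fw, enc_eq]
  change (if hd L[k] = Sym.add then _ else _) = _
  unfold hd
  by_cases h : L[k].isAdd = true
  · simp only [h, if_true]
  · simp only [h]
    simp

end PCols

/-- P-COLS -/
theorem targetPrint2 : TargetPrint2 := by
  intro C
  refine ⟨PCols.out, PCols.outP C, fun L => ?_⟩
  have hn : PCols.nS (encArith L) = (arithMatrix L).n := by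
    unfold PCols.nS PCols.nvS
    rw [PCols.count]; rfl
  have hnv : PCols.nvS (encArith L) = numVars L := rfl
  unfold PCols.out encMatrix
  rw [hn, PCols.count]
  congr 1
  have h1 : (List.range L.length).flatMap (fun k => PCols.body k (encArith L)) =
      L.zipIdx.flatMap fun c => (c.1.cols (arithMatrix L).n (numVars L + 7 * c.2)).flatMap
        (fun c => c.map tySym ++ [Sym.comma]) := by
    have h2 : L.zipIdx = (List.range L.length).attach.map
        (fun k => (L[k.1]'(List.mem_range.1 k.2), k.1)) := by
      apply List.ext_getElem
      · simp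
      · intro i hi hi'
        simp
    rw [h2, List.flatMap_map]
    have h3 : ∀ f : ℕ → List Sym, (List.range L.length).flatMap f =
        (List.range L.length).attach.flatMap fun k => f k.1 := by
      intro f
      conv_lhs => rw [← List.attach_map_subtype_val (List.range L.length)]
      rw [List.flatMap_map]
    rw [h3]
    refine List.flatMap_congr fun k _ => ?_
    have hk := List.mem_range.1 k.2
    rw [PCols.body_eq L k.1 hk, hn, hnv]
  rw [h1]
  change _ = List.flatMap _ (L.zipIdx.flatMap _)
  rw [List.flatMap_assoc]
  rfl

end Pool.Agent.PAH
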