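import Pool.Agent.PAH.Targets

set_option autoImplicit false

/-!
# P-COMP: composition of polynomial time TM2 computations
-/

namespace Pool.Agent.PAH

namespace TMC

open Turing Function StateTransition

variable {K₁ K₂ : Type} {Γ₁ : K₁ → Type} {Γ₂ : K₂ → Type} {Λ₁ Λ₂ σ₁ σ₂ B : Type}

/-- alphabets of the composite machine -/
def GG (Γ₁ : K₁ → Type) (Γ₂ : K₂ → Type) (B : Type) : K₁ ⊕ (K₂ ⊕ Unit) → Type
  | .inl k => Γ₁ k
  | .inr (.inl k) => Γ₂ k
  | .inr (.inr _) => Option B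

/-- stacks of the composite machine -/
def SS (S₁ : ∀ k, List (Γ₁ k)) (S₂ : ∀ k, List (Γ₂ k)) (U : List (Option B)) :
    ∀ k, List (GG Γ₁ Γ₂ B k)
  | .inl k => S₁ k
  | .inr (.inl k) => S₂ k
  | .inr (.inr _) => U

/-- internal states of the composite machine -/
abbrev ST (σ₁ σ₂ B : Type) : Type := σ₁ × (σ₂ × Option B)

/-- labels of the composite machine -/
abbrev LL (Λ₁ Λ₂ : Type) : Type := Λ₁ ⊕ (Λ₂ ⊕ Bool)

/-- statements of the first machine -/
def lift₁ : TM2.Stmt Γ₁ Λ₁ σ₁ → TM2.Stmt (GG Γ₁ Γ₂ B) (LL Λ₁ Λ₂) (ST σ₁ σ₂ B)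
  | .push k f q => .push (.inl k) (fun s => f s.1) (lift₁ q)
  | .peek k f q => .peek (.inl k) (fun s x => (f s.1 x, s.2)) (lift₁ q)
  | .pop k f q => .pop (.inl k) (fun s x => (f s.1 x, s.2)) (lift₁ q)
  | .load a q => .load (fun s => (a s.1, s.2)) (lift₁ q)
  | .branch p q r => .branch (fun s => p s.1) (lift₁ q) (lift₁ r)
  | .goto l => .goto (fun s => .inl (l s.1))
  | .halt => .goto (fun _ => .inr (.inr true))

/-- statements of the second machine -/
def lift₂ : TM2.Stmt Γ₂ Λ₂ σ₂ → TM2.Stmt (GG Γ₁ Γ₂ B) (LL Λ₁ Λ₂) (ST σ₁ σ₂ B)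
  | .push k f q => .push (.inr (.inl k)) (fun s => f s.2.1) (lift₂ q)
  | .peek k f q => .peek (.inr (.inl k)) (fun s x => (s.1, (f s.2.1 x, s.2.2))) (lift₂ q)
  | .pop k f q => .pop (.inr (.inl k)) (fun s x => (s.1, (f s.2.1 x, s.2.2))) (lift₂ q)
  | .load a q => .load (fun s => (s.1, (a s.2.1, s.2.2))) (lift₂ q)
  | .branch p q r => .branch (fun s => p s.2.1) (lift₂ q) (lift₂ r)
  | .goto l => .goto (fun s => .inr (.inl (l s.2.1)))
  | .halt => .halt

/-- moves the output of the first machine to the spare stack -/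
def moveA (k : K₁) (e : Γ₁ k → B) : TM2.Stmt (GG Γ₁ Γ₂ B) (LL Λ₁ Λ₂) (ST σ₁ σ₂ B) :=
  .pop (.inl k) (fun s (x : Option (Γ₁ k)) => (s.1, (s.2.1, x.map e)))
    (.branch (fun s => s.2.2.isSome)
      (.push (.inr (.inr ())) (fun s => s.2.2) (.goto fun _ => .inr (.inr true)))
      (.goto fun _ => .inr (.inr false)))

open Classical in
/-- moves the spare stack to the input of the second machine -/
noncomputable def moveB (k : K₂) (e : B → Γ₂ k) (main : Λ₂) :
    TM2.Stmt (GG Γ₁ Γ₂ B) (LL Λ₁ Λ₂) (ST σ₁ σ₂ B) :=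
  .pop (.inr (.inr ())) (fun s (x : Option (Option B)) => (s.1, (s.2.1, x.join)))
    (if h : Nonempty (Γ₂ k) then
      (.branch (fun s => s.2.2.isSome)
        (.push (.inr (.inl k)) (fun s => (s.2.2.map e).getD (Classical.choice h))
          (.goto fun _ => .inr (.inr false)))
        (.goto fun _ => .inr (.inl main)))
      else (.goto fun _ => .inr (.inl main)))

/-- the program of the composite machine -/
noncomputable def prog (M₁ : Λ₁ → TM2.Stmt Γ₁ Λ₁ σ₁) (M₂ : Λ₂ → TM2.Stmt Γ₂ Λ₂ σ₂)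
    (k₁ : K₁) (e₁ : Γ₁ k₁ → B) (k₂ : K₂) (e₂ : B → Γ₂ k₂) (main : Λ₂) :
    LL Λ₁ Λ₂ → TM2.Stmt (GG Γ₁ Γ₂ B) (LL Λ₁ Λ₂) (ST σ₁ σ₂ B)
  | .inl l => lift₁ (M₁ l)
  | .inr (.inl l) => lift₂ (M₂ l)
  | .inr (.inr true) => moveA k₁ e₁
  | .inr (.inr false) => moveB k₂ e₂ main

section upd

variable [DecidableEq K₁] [DecidableEq K₂]

theorem upd₁ (S₁ : ∀ k, List (Γ₁ k)) (S₂ : ∀ k, List (Γ₂ k)) (U : List (Option B)) (k : K₁)
    (l : List (Γ₁ k)) :
    update (SS S₁ S₂ U) (.inl k) l = SS (update S₁ k l) S₂ U := by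
  funext k'
  rcases k' with k' | k' | k'
  · by_cases h : k' = k
    · subst h
      rw [update_self]
      exact (update_self k' l S₁).symm
    · rw [update_of_ne (fun h' => h (Sum.inl.inj h'))]
      exact (update_of_ne h l S₁).symm
  · rw [update_of_ne (by simp)]
    rfl
  · rw [update_of_ne (by simp)]
    rfl

theorem upd₂ (S₁ : ∀ k, List (Γ₁ k)) (S₂ : ∀ k, List (Γ₂ k)) (U : List (Option B)) (k : K₂)
    (l : List (Γ₂ k)) :
    update (SS S₁ S₂ U) (.inr (.inl k)) l = SS S₁ (update S₂ k l) U := by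
  funext k'
  rcases k' with k' | k' | k'
  · rw [update_of_ne (by simp)]
    rfl
  · by_cases h : k' = k
    · subst h
      rw [update_self]
      exact (update_self k' l S₂).symm
    · rw [update_of_ne (fun h' => h (Sum.inl.inj (Sum.inr.inj h')))]
      exact (update_of_ne h l S₂).symm
  · rw [update_of_ne (by simp)]
    rfl

theorem upd₃ (S₁ : ∀ k, List (Γ₁ k)) (S₂ : ∀ k, List (Γ₂ k)) (U : List (Option B))
    (l : List (Option B)) :
    update (SS S₁ S₂ U) (.inr (.inr ())) l = SS S₁ S₂ l := by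
  funext k'
  rcases k' with k' | k' | k'
  · rw [update_of_ne (by simp)]
    rfl
  · rw [update_of_ne (by simp)]
    rfl
  · cases k'
    rw [update_self]
    rfl

/-- configurations of the first machine -/
def emb₁ (v₂ : σ₂) (c : TM2.Cfg Γ₁ Λ₁ σ₁) : TM2.Cfg (GG Γ₁ Γ₂ B) (LL Λ₁ Λ₂) (ST σ₁ σ₂ B) :=
  ⟨some (c.l.elim (.inr (.inr true)) Sum.inl), (c.var, (v₂, none)), SS c.stk (fun _ => []) []⟩

/-- configurations of the second machine -/
def emb₂ (v₁ : σ₁) (c : TM2.Cfg Γ₂ Λ₂ σ₂) : TM2.Cfg (GG Γ₁ Γ₂ B) (LL Λ₁ Λ₂) (ST σ₁ σ₂ B) :=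
  ⟨c.l.map fun l => .inr (.inl l), (v₁, (c.var, none)), SS (fun _ => []) c.stk []⟩

theorem aux₁ (v₂ : σ₂) (q : TM2.Stmt Γ₁ Λ₁ σ₁) (v : σ₁) (S : ∀ k, List (Γ₁ k)) :
    TM2.stepAux (lift₁ (Γ₂ := Γ₂) (Λ₂ := Λ₂) (B := B) q) (v, (v₂, none))
      (SS S (fun _ => []) []) = emb₁ v₂ (TM2.stepAux q v S) := by
  induction q generalizing v S with
  | push k f q ih =>
    change TM2.stepAux (lift₁ q) _ (update (SS S _ []) (.inl k) (f v :: S k)) = _
    rw [upd₁, ih]
    rfl
  | peek k f q ih =>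
    exact ih _ _
  | pop k f q ih =>
    change TM2.stepAux (lift₁ q) _ (update (SS S _ []) (.inl k) (S k).tail) = _
    rw [upd₁]
    exact ih _ _
  | load a q ih => exact ih _ _
  | branch p q r ihq ihr =>
    change cond (p v) _ _ = emb₁ v₂ (cond (p v) _ _)
    cases p v
    · exact ihr _ _
    · exact ihq _ _
  | goto l => rfl
  | halt => rfl

theorem aux₂ (v₁ : σ₁) (q : TM2.Stmt Γ₂ Λ₂ σ₂) (v : σ₂) (S : ∀ k, List (Γ₂ k)) :
    TM2.stepAux (lift₂ (Γ₁ := Γ₁) (Λ₁ := Λ₁) (B := B) q) (v₁, (v, none))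
      (SS (fun _ => []) S []) = emb₂ v₁ (TM2.stepAux q v S) := by
  induction q generalizing v S with
  | push k f q ih =>
    change TM2.stepAux (lift₂ q) _ (update (SS _ S []) (.inr (.inl k)) (f v :: S k)) = _
    rw [upd₂, ih]
    rfl
  | peek k f q ih =>
    exact ih _ _
  | pop k f q ih =>
    change TM2.stepAux (lift₂ q) _ (update (SS _ S []) (.inr (.inl k)) (S k).tail) = _
    rw [upd₂]
    exact ih _ _
  | load a q ih => exact ih _ _
  | branch p q r ihq ihr =>
    change cond (p v) _ _ = emb₂ v₁ (cond (p v) _ _)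
    cases p v
    · exact ihr _ _
    · exact ihq _ _
  | goto l => rfl
  | halt => rfl

end upd

theorem iter_none {σ : Type} (f : σ → Option σ) (n : ℕ) :
    (flip bind f)^[n] none = none := by
  induction n with
  | zero => rfl
  | succ n ih => rw [iterate_succ_apply]; exact ih

/-- transport of runs -/
theorem iter_map {σ τ : Type} (f : σ → Option σ) (g : τ → Option τ) (h : σ → τ)
    (H : ∀ a b, f a = some b → g (h a) = some (h b)) (n : ℕ) (a b : σ)
    (e : (flip bind f)^[n] (some a) = some b) : (flip bind g)^[n] (some (h a)) = some (h b) := by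
  induction n generalizing a with
  | zero =>
    have : a = b := by simpa using e
    rw [this]
    rfl
  | succ n ih =>
    rw [iterate_succ_apply] at e ⊢
    change (flip bind f)^[n] (f a) = some b at e
    change (flip bind g)^[n] (g (h a)) = some (h b)
    rcases hfa : f a with _ | c
    · rw [hfa, iter_none] at e
      cases e
    · rw [hfa] at e
      rw [H a c hfa]
      exact ih c e

section run

variable [DecidableEq K₁] [DecidableEq K₂]
  (M₁ : Λ₁ → TM2.Stmt Γ₁ Λ₁ σ₁) (M₂ : Λ₂ → TM2.Stmt Γ₂ Λ₂ σ₂)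
  (k₁ : K₁) (e₁ : Γ₁ k₁ → B) (k₂ : K₂) (e₂ : B → Γ₂ k₂) (main : Λ₂)

theorem run₁ (v₂ : σ₂) (n : ℕ) (a b : TM2.Cfg Γ₁ Λ₁ σ₁)
    (e : (flip bind (TM2.step M₁))^[n] (some a) = some b) :
    (flip bind (TM2.step (prog M₁ M₂ k₁ e₁ k₂ e₂ main)))^[n] (some (emb₁ v₂ a)) =
      some (emb₁ v₂ b) := by
  refine iter_map _ _ _ ?_ n a b e
  intro a b hab
  obtain ⟨l, v, S⟩ := a
  rcases l with _ | l
  · cases hab
  · have : TM2.stepAux (M₁ l) v S = b := by
      change some (TM2.stepAux (M₁ l) v S) = some b at hab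
      exact Option.some.inj hab
    change some (TM2.stepAux (lift₁ (M₁ l)) (v, (v₂, none)) (SS S (fun _ => []) [])) = _
    rw [aux₁, this]

theorem run₂ (v₁ : σ₁) (n : ℕ) (a b : TM2.Cfg Γ₂ Λ₂ σ₂)
    (e : (flip bind (TM2.step M₂))^[n] (some a) = some b) :
    (flip bind (TM2.step (prog M₁ M₂ k₁ e₁ k₂ e₂ main)))^[n] (some (emb₂ v₁ a)) =
      some (emb₂ v₁ b) := by
  refine iter_map _ _ _ ?_ n a b e
  intro a b hab
  obtain ⟨l, v, S⟩ := a
  rcases l with _ | l
  · cases hab
  · have : TM2.stepAux (M₂ l) v S = b := by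
      change some (TM2.stepAux (M₂ l) v S) = some b at hab
      exact Option.some.inj hab
    change some (TM2.stepAux (lift₂ (M₂ l)) (v₁, (v, none)) (SS (fun _ => []) S [])) = _
    rw [aux₂, this]

theorem runA (v₁ : σ₁) (v₂ : σ₂) (S₂ : ∀ k, List (Γ₂ k)) (l : List (Γ₁ k₁)) :
    ∀ (r : Option B) (S₁ : ∀ k, List (Γ₁ k)) (U : List (Option B)), S₁ k₁ = l →
    (flip bind (TM2.step (prog M₁ M₂ k₁ e₁ k₂ e₂ main)))^[l.length + 1]
      (some ⟨some (.inr (.inr true)), (v₁, (v₂, r)), SS S₁ S₂ U⟩) =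
      some ⟨some (.inr (.inr false)), (v₁, (v₂, none)),
        SS (update S₁ k₁ []) S₂ ((l.map fun x => some (e₁ x)).reverse ++ U)⟩ := by
  induction l with
  | nil =>
    intro r S₁ U h
    change some (TM2.stepAux (moveA k₁ e₁) _ _) = _
    have : TM2.stepAux (moveA (Λ₁ := Λ₁) (Λ₂ := Λ₂) k₁ e₁) (v₁, (v₂, r)) (SS S₁ S₂ U) =
        TM2.stepAux (.branch (fun s => s.2.2.isSome)
          (.push (.inr (.inr ())) (fun s => s.2.2) (.goto fun _ => .inr (.inr true)))
          (.goto fun _ => .inr (.inr false)))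
          (v₁, (v₂, ((S₁ k₁).head?).map e₁)) (update (SS S₁ S₂ U) (.inl k₁) (S₁ k₁).tail) := rfl
    rw [this, upd₁, h]
    rfl
  | cons x l ih =>
    intro r S₁ U h
    rw [List.length_cons, iterate_succ_apply]
    have e0 : (flip bind (TM2.step (prog M₁ M₂ k₁ e₁ k₂ e₂ main)))
        (some ⟨some (.inr (.inr true)), (v₁, (v₂, r)), SS S₁ S₂ U⟩) =
        some ⟨some (.inr (.inr true)), (v₁, (v₂, some (e₁ x))),
          SS (update S₁ k₁ l) S₂ (some (e₁ x) :: U)⟩ := by
      change some (TM2.stepAux (moveA k₁ e₁) _ _) = _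
      have : TM2.stepAux (moveA (Λ₁ := Λ₁) (Λ₂ := Λ₂) k₁ e₁) (v₁, (v₂, r)) (SS S₁ S₂ U) =
          TM2.stepAux (.branch (fun s => s.2.2.isSome)
            (.push (.inr (.inr ())) (fun s => s.2.2) (.goto fun _ => .inr (.inr true)))
            (.goto fun _ => .inr (.inr false)))
            (v₁, (v₂, ((S₁ k₁).head?).map e₁)) (update (SS S₁ S₂ U) (.inl k₁) (S₁ k₁).tail) := rfl
      rw [this, upd₁, h]
      change some (TM2.stepAux (Γ := GG Γ₁ Γ₂ B) (Λ := LL Λ₁ Λ₂) (σ := ST σ₁ σ₂ B)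
        (.goto fun _ => .inr (.inr true)) (v₁, (v₂, some (e₁ x)))
        (update (SS (update S₁ k₁ l) S₂ U) (.inr (.inr ())) (some (e₁ x) :: U))) = _
      rw [upd₃]
      rfl
    rw [e0, ih _ _ _ (update_self _ _ _), update_idem]
    simp

theorem runB (v₁ : σ₁) (v₂ : σ₂) (S₁ : ∀ k, List (Γ₁ k)) (l : List B) :
    ∀ (r : Option B) (S₂ : ∀ k, List (Γ₂ k)) (T : List (Γ₂ k₂)), S₂ k₂ = T →
    (flip bind (TM2.step (prog M₁ M₂ k₁ e₁ k₂ e₂ main)))^[l.length + 1]
      (some ⟨some (.inr (.inr false)), (v₁, (v₂, r)), SS S₁ S₂ (l.map some)⟩) =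
      some ⟨some (.inr (.inl main)), (v₁, (v₂, none)),
        SS S₁ (update S₂ k₂ ((l.map e₂).reverse ++ T)) []⟩ := by
  classical
  induction l with
  | nil =>
    intro r S₂ T h
    have e0 : TM2.stepAux (moveB (Λ₁ := Λ₁) (Λ₂ := Λ₂) k₂ e₂ main) (v₁, (v₂, r))
        (SS S₁ S₂ []) = ⟨some (.inr (.inl main)), (v₁, (v₂, none)),
          update (SS S₁ S₂ []) (.inr (.inr ())) []⟩ := by
      unfold moveB
      by_cases hne : Nonempty (Γ₂ k₂)
      · rw [dif_pos hne]
        rfl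
      · rw [dif_neg hne]
        rfl
    change some (TM2.stepAux (moveB k₂ e₂ main) _ _) = _
    rw [List.map_nil, e0, upd₃]
    have h4 : update S₂ k₂ ((([] : List B).map e₂).reverse ++ T) = S₂ := by
      change update S₂ k₂ T = S₂
      rw [← h, update_eq_self]
    rw [h4]
    rfl
  | cons x l ih =>
    intro r S₂ T h
    rw [List.length_cons, iterate_succ_apply]
    have e0 : (flip bind (TM2.step (prog M₁ M₂ k₁ e₁ k₂ e₂ main)))
        (some ⟨some (.inr (.inr false)), (v₁, (v₂, r)), SS S₁ S₂ ((x :: l).map some)⟩) =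
        some ⟨some (.inr (.inr false)), (v₁, (v₂, some x)),
          SS S₁ (update S₂ k₂ (e₂ x :: T)) (l.map some)⟩ := by
      change some (TM2.stepAux (moveB k₂ e₂ main) _ _) = _
      have hne : Nonempty (Γ₂ k₂) := ⟨e₂ x⟩
      unfold moveB
      rw [dif_pos hne]
      change some (TM2.stepAux (Γ := GG Γ₁ Γ₂ B) (Λ := LL Λ₁ Λ₂) (σ := ST σ₁ σ₂ B)
        (.goto fun _ => .inr (.inr false)) (v₁, (v₂, some x))
        (update (update (SS S₁ S₂ (some x :: l.map some)) (.inr (.inr ())) (l.map some))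
          (.inr (.inl k₂)) (e₂ x :: (update (SS S₁ S₂ (some x :: l.map some)) (.inr (.inr ()))
            (l.map some)) (.inr (.inl k₂))))) = _
      rw [upd₃, upd₂]
      change some (TM2.stepAux (Γ := GG Γ₁ Γ₂ B) (Λ := LL Λ₁ Λ₂) (σ := ST σ₁ σ₂ B)
        (.goto fun _ => .inr (.inr false)) (v₁, (v₂, some x))
        (SS S₁ (update S₂ k₂ (e₂ x :: S₂ k₂)) (l.map some))) = _
      rw [h]
      rfl
    rw [e0, ih _ _ _ (update_self _ _ _), update_idem]
    simp

end run

/-! ### length of the stacks -/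

/-- number of symbols pushed by a statement -/
def npush {K : Type} {Γ : K → Type} {Λ σ : Type} : TM2.Stmt Γ Λ σ → ℕ
  | .push _ _ q => npush q + 1
  | .peek _ _ q => npush q
  | .pop _ _ q => npush q
  | .load _ q => npush q
  | .branch _ q r => npush q + npush r
  | .goto _ => 0
  | .halt => 0

theorem npush_le {K : Type} [DecidableEq K] {Γ : K → Type} {Λ σ : Type} (q : TM2.Stmt Γ Λ σ)
    (v : σ) (S : ∀ k, List (Γ k)) (k : K) :
    ((TM2.stepAux q v S).stk k).length ≤ (S k).length + npush q := by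
  induction q generalizing v S with
  | push k' f q ih =>
    refine (ih _ _).trans ?_
    by_cases h : k = k'
    · subst h
      rw [update_self, List.length_cons]
      change _ ≤ _ + (npush q + 1)
      omega
    · rw [update_of_ne h]
      change _ ≤ _ + (npush q + 1)
      omega
  | peek k' f q ih => exact ih _ _
  | pop k' f q ih =>
    refine (ih _ _).trans ?_
    by_cases h : k = k'
    · subst h
      rw [update_self, List.length_tail]
      change _ ≤ _ + npush q
      omega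
    · rw [update_of_ne h]
      change _ ≤ _ + npush q
      omega
  | load a q ih => exact ih _ _
  | branch p q r ihq ihr =>
    change ((cond (p v) (TM2.stepAux q v S) (TM2.stepAux r v S)).stk k).length ≤
      _ + (npush q + npush r)
    cases p v
    · exact (ihr _ _).trans (by omega)
    · exact (ihq _ _).trans (by omega)
  | goto l => exact Nat.le_add_right _ _
  | halt => exact Nat.le_add_right _ _

theorem len_iter {K : Type} [DecidableEq K] {Γ : K → Type} {Λ σ : Type} [Fintype Λ]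
    (M : Λ → TM2.Stmt Γ Λ σ) (k : K) (n : ℕ) (a b : TM2.Cfg Γ Λ σ)
    (e : (flip bind (TM2.step M))^[n] (some a) = some b) :
    (b.stk k).length ≤ (a.stk k).length + (∑ l, npush (M l)) * n := by
  induction n generalizing a with
  | zero =>
    have : a = b := by simpa using e
    rw [this]
    exact Nat.le_add_right _ _
  | succ n ih =>
    rw [iterate_succ_apply] at e
    change (flip bind (TM2.step M))^[n] (TM2.step M a) = some b at e
    rcases hfa : TM2.step M a with _ | c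
    · rw [hfa, iter_none] at e
      cases e
    · rw [hfa] at e
      refine (ih c e).trans ?_
      obtain ⟨l, v, S⟩ := a
      rcases l with _ | l
      · cases hfa
      · have hc : TM2.stepAux (M l) v S = c := by
          change some (TM2.stepAux (M l) v S) = some c at hfa
          exact Option.some.inj hfa
        have h1 := npush_le (M l) v S k
        rw [hc] at h1
        have h2 : npush (M l) ≤ ∑ l, npush (M l) :=
          Finset.single_le_sum (f := fun l => npush (M l)) (fun _ _ => Nat.zero_le _)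
            (Finset.mem_univ l)
        change _ ≤ (S k).length + _
        rw [Nat.mul_succ]
        omega

/-- the composite machine -/
noncomputable def compTM (tm₁ tm₂ : FinTM2) {B : Type} [Fintype B] (e₁ : tm₁.Γ tm₁.k₁ → B)
    (e₂ : B → tm₂.Γ tm₂.k₀) : FinTM2 :=
  letI := tm₁.kDecidableEq
  letI := tm₂.kDecidableEq
  letI := tm₁.kFin
  letI := tm₂.kFin
  letI := tm₁.ΛFin
  letI := tm₂.ΛFin
  letI := tm₁.σFin
  letI := tm₂.σFin
  { K := tm₁.K ⊕ (tm₂.K ⊕ Unit)
    kDecidableEq := inferInstance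
    kFin := inferInstance
    k₀ := .inl tm₁.k₀
    k₁ := .inr (.inl tm₂.k₁)
    Γ := GG tm₁.Γ tm₂.Γ B
    Λ := LL tm₁.Λ tm₂.Λ
    main := .inl tm₁.main
    ΛFin := inferInstance
    σ := ST tm₁.σ tm₂.σ B
    initialState := (tm₁.initialState, (tm₂.initialState, none))
    σFin := inferInstance
    Γk₀Fin := tm₁.Γk₀Fin
    m := prog tm₁.m tm₂.m tm₁.k₁ e₁ tm₂.k₀ e₂ tm₂.main }

theorem initList_eq (tm : FinTM2) (s : List (tm.Γ tm.k₀)) :
    initList tm s = ⟨some tm.main, tm.initialState,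
      @update tm.K _ tm.kDecidableEq (fun _ => []) tm.k₀ s⟩ := by
  unfold initList
  congr 1
  funext k
  by_cases h : k = tm.k₀
  · subst h
    simp
  · rw [dif_neg h, update_of_ne h]

theorem haltList_eq (tm : FinTM2) (s : List (tm.Γ tm.k₁)) :
    haltList tm s = ⟨none, tm.initialState,
      @update tm.K _ tm.kDecidableEq (fun _ => []) tm.k₁ s⟩ := by
  unfold haltList
  congr 1
  funext k
  by_cases h : k = tm.k₁
  · subst h
    simp
  · rw [dif_neg h, update_of_ne h]

theorem SS_nil : (SS (fun _ => []) (fun _ => []) [] : ∀ k, List (GG Γ₁ Γ₂ B k)) =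
    fun _ => [] := by
  funext k
  rcases k with k | k | k <;> rfl

theorem poly_mono (p : Polynomial ℕ) : Monotone fun n => p.eval n := by
  intro a b hab
  change p.eval a ≤ p.eval b
  rw [Polynomial.eval_eq_sum_range, Polynomial.eval_eq_sum_range]
  exact Finset.sum_le_sum fun i _ => Nat.mul_le_mul_left _ (Nat.pow_le_pow_left hab i)

theorem comp_init (tm₁ tm₂ : FinTM2) {B : Type} [Fintype B] (e₁ : tm₁.Γ tm₁.k₁ → B)
    (e₂ : B → tm₂.Γ tm₂.k₀) (s : List (tm₁.Γ tm₁.k₀)) :
    initList (compTM tm₁ tm₂ e₁ e₂) s = emb₁ tm₂.initialState (initList tm₁ s) := by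
  let _ := tm₁.kDecidableEq
  let _ := tm₂.kDecidableEq
  rw [initList_eq, initList_eq]
  unfold emb₁
  rw [← upd₁, SS_nil]
  rfl

theorem comp_halt (tm₁ tm₂ : FinTM2) {B : Type} [Fintype B] (e₁ : tm₁.Γ tm₁.k₁ → B)
    (e₂ : B → tm₂.Γ tm₂.k₀) (s : List (tm₂.Γ tm₂.k₁)) :
    haltList (compTM tm₁ tm₂ e₁ e₂) s = emb₂ tm₁.initialState (haltList tm₂ s) := by
  let _ := tm₁.kDecidableEq
  let _ := tm₂.kDecidableEq
  rw [haltList_eq, haltList_eq]
  unfold emb₂
  rw [← upd₂, SS_nil]
  rfl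

/-- length of the output -/
theorem out_len (tm : FinTM2) [Fintype tm.Λ] (n : ℕ) (s : List (tm.Γ tm.k₀))
    (l : List (tm.Γ tm.k₁))
    (h : (flip bind tm.step)^[n] (some (initList tm s)) = some (haltList tm l)) :
    l.length ≤ s.length + (∑ x, npush (tm.m x)) * n := by
  let _ := tm.kDecidableEq
  have h1 := len_iter tm.m tm.k₁ n _ _ h
  have e1 : (haltList tm l).stk tm.k₁ = l := by
    have := congrArg (fun c : tm.Cfg => c.stk tm.k₁) (haltList_eq tm l)
    exact Eq.trans this (update_self tm.k₁ l (fun _ => []))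
  have e2 : ((initList tm s).stk tm.k₁).length ≤ s.length := by
    have h3 : ∀ k, ((initList tm s).stk k).length ≤ s.length := by
      intro k
      have := congrArg (fun c : tm.Cfg => (c.stk k).length) (initList_eq tm s)
      refine le_of_eq_of_le this ?_
      change (update (fun _ => []) tm.k₀ s k).length ≤ s.length
      by_cases hk : k = tm.k₀
      · subst hk
        rw [update_self]
      · rw [update_of_ne hk]
        exact Nat.zero_le _
    exact h3 _
  calc l.length = ((haltList tm l).stk tm.k₁).length := (congrArg List.length e1).symm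
    _ ≤ ((initList tm s).stk tm.k₁).length + (∑ x, npush (tm.m x)) * n := h1
    _ ≤ _ := Nat.add_le_add_right e2 _

/-- transitivity of runs -/
theorem iter_trans {σ : Type} {f : σ → Option σ} {m n : ℕ} {a b c : σ}
    (h₁ : (flip bind f)^[m] (some a) = some b) (h₂ : (flip bind f)^[n] (some b) = some c) :
    (flip bind f)^[n + m] (some a) = some c := by
  rw [iterate_add_apply, h₁, h₂]

/-- the whole run -/
theorem comp_run (tm₁ tm₂ : FinTM2) {B : Type} [Fintype B] (e₁ : tm₁.Γ tm₁.k₁ → B)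
    (e₂ : B → tm₂.Γ tm₂.k₀) (s₁ : List (tm₁.Γ tm₁.k₀)) (l₁ : List (tm₁.Γ tm₁.k₁))
    (s₂ : List (tm₂.Γ tm₂.k₀)) (hs₂ : s₂ = l₁.map fun x => e₂ (e₁ x))
    (l₂ : List (tm₂.Γ tm₂.k₁)) (n₁ n₂ : ℕ)
    (h₁ : (flip bind tm₁.step)^[n₁] (some (initList tm₁ s₁)) = some (haltList tm₁ l₁))
    (h₂ : (flip bind tm₂.step)^[n₂] (some (initList tm₂ s₂)) = some (haltList tm₂ l₂)) :
    (flip bind (compTM tm₁ tm₂ e₁ e₂).step)^[n₂ + ((l₁.length + 1) + ((l₁.length + 1) + n₁))]
      (some (initList (compTM tm₁ tm₂ e₁ e₂) s₁)) =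
        some (haltList (compTM tm₁ tm₂ e₁ e₂) l₂) := by
  let _ := tm₁.kDecidableEq
  let _ := tm₂.kDecidableEq
  have r₁ := run₁ tm₁.m tm₂.m tm₁.k₁ e₁ tm₂.k₀ e₂ tm₂.main tm₂.initialState n₁ _ _ h₁
  have r₂ := run₂ tm₁.m tm₂.m tm₁.k₁ e₁ tm₂.k₀ e₂ tm₂.main tm₁.initialState n₂ _ _ h₂
  have ra := runA tm₁.m tm₂.m tm₁.k₁ e₁ tm₂.k₀ e₂ tm₂.main tm₁.initialState
    tm₂.initialState (fun _ => []) l₁ none
    (update (fun _ => []) tm₁.k₁ l₁) [] (update_self _ _ _)
  rw [update_idem, List.append_nil] at ra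
  have hrev : (l₁.map fun x => some (e₁ x)).reverse = ((l₁.map e₁).reverse).map some := by
    rw [← List.map_reverse, ← List.map_reverse, List.map_map]
    rfl
  rw [hrev] at ra
  have rb := runB tm₁.m tm₂.m tm₁.k₁ e₁ tm₂.k₀ e₂ tm₂.main tm₁.initialState
    tm₂.initialState (update (fun _ => []) tm₁.k₁ []) (l₁.map e₁).reverse none
    (fun _ => []) [] rfl
  rw [List.length_reverse, List.length_map] at rb
  have hbeg : emb₁ tm₂.initialState (haltList tm₁ l₁) =
      (⟨some (.inr (.inr true)), (tm₁.initialState, (tm₂.initialState, none)),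
        SS (update (fun _ => []) tm₁.k₁ l₁) (fun _ => []) []⟩ :
        TM2.Cfg (GG tm₁.Γ tm₂.Γ B) (LL tm₁.Λ tm₂.Λ) (ST tm₁.σ tm₂.σ B)) := by
    have e := haltList_eq tm₁ l₁
    exact congrArg (emb₁ tm₂.initialState) e
  have hend : (⟨some (.inr (.inl tm₂.main)), (tm₁.initialState, (tm₂.initialState, none)),
      SS (update (fun _ => []) tm₁.k₁ [])
        (update (fun _ => []) tm₂.k₀ (((l₁.map e₁).reverse.map e₂).reverse ++ [])) []⟩ :
        TM2.Cfg (GG tm₁.Γ tm₂.Γ B) (LL tm₁.Λ tm₂.Λ) (ST tm₁.σ tm₂.σ B)) =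
      emb₂ tm₁.initialState (initList tm₂ s₂) := by
    have e := congrArg (emb₂ (Γ₁ := tm₁.Γ) (Λ₁ := tm₁.Λ) (B := B) tm₁.initialState)
      (initList_eq tm₂ s₂)
    refine Eq.trans ?_ e.symm
    have e5 : ((l₁.map e₁).reverse.map e₂).reverse ++ [] = s₂ := by
      rw [hs₂, List.append_nil, ← List.map_reverse, List.reverse_reverse, List.map_map]
      rfl
    have e6 : update (fun _ => []) tm₁.k₁ [] = (fun _ => [] : ∀ k, List (tm₁.Γ k)) :=
      update_eq_self _ _
    rw [e5, e6]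
    rfl
  have t1 := iter_trans (r₁.trans (congrArg some hbeg)) ra
  have t2 := iter_trans t1 (rb.trans (congrArg some hend))
  have t3 := iter_trans t2 r₂
  exact (congrArg (fun z => (flip bind (compTM tm₁ tm₂ e₁ e₂).step)^[
    n₂ + ((l₁.length + 1) + ((l₁.length + 1) + n₁))] (some z))
      (comp_init tm₁ tm₂ e₁ e₂ s₁)).trans
    (t3.trans (congrArg some (comp_halt tm₁ tm₂ e₁ e₂ l₂).symm))

end TMC

open TMC Turing Function StateTransition in
/-- P-COMP -/
theorem p_comp : TargetComp := by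
  intro α β γ αΓ βΓ γΓ eα eβ eγ f g h₁ h₂
  let i1 := h₁.tm.kDecidableEq
  let i2 := h₂.tm.kDecidableEq
  let i3 := h₁.tm.ΛFin
  let i4 : Fintype (h₂.tm.Γ h₂.tm.k₀) := h₂.tm.Γk₀Fin
  let i5 : Fintype βΓ := Fintype.ofEquiv _ h₂.inputAlphabet
  let c : ℕ := ∑ l, npush (h₁.tm.m l)
  refine ⟨{
    tm := compTM h₁.tm h₂.tm (fun x => h₁.outputAlphabet x) (fun b => h₂.inputAlphabet.symm b)
    inputAlphabet := h₁.inputAlphabet
    outputAlphabet := h₂.outputAlphabet
    time := h₂.time.comp (Polynomial.X + Polynomial.C c * h₁.time) +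
      Polynomial.C 2 * (Polynomial.X + Polynomial.C c * h₁.time + 1) + h₁.time
    outputsFun := ?_ }⟩
  intro a
  have o₁ := h₁.outputsFun a
  have o₂ := h₂.outputsFun (f a)
  have s₁ := o₁.evals_in_steps
  have s₂ := o₂.evals_in_steps
  let l₁ := List.map h₁.outputAlphabet.invFun (eβ (f a))
  have hl₁ : l₁ = List.map h₁.outputAlphabet.invFun (eβ (f a)) := rfl
  have hl : (List.map h₂.inputAlphabet.invFun (eβ (f a))) =
      l₁.map fun x => h₂.inputAlphabet.symm (h₁.outputAlphabet x) := by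
    rw [hl₁, List.map_map]
    refine List.map_congr_left fun x _ => ?_
    change h₂.inputAlphabet.symm x =
      h₂.inputAlphabet.symm (h₁.outputAlphabet (h₁.outputAlphabet.symm x))
    rw [Equiv.apply_symm_apply]
  have key := comp_run h₁.tm h₂.tm (fun x => h₁.outputAlphabet x)
    (fun b => h₂.inputAlphabet.symm b) _ l₁ _ hl _ o₁.steps o₂.steps s₁ s₂
  have hlen : (eβ (f a)).length ≤ (eα a).length + c * h₁.time.eval (eα a).length := by
    have h := out_len h₁.tm o₁.steps _ l₁ s₁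
    rw [hl₁, List.length_map, List.length_map] at h
    exact h.trans (Nat.add_le_add_left (Nat.mul_le_mul_left _ o₁.steps_le_m) _)
  have h2 : h₂.time.eval (eβ (f a)).length ≤
      h₂.time.eval ((eα a).length + c * h₁.time.eval (eα a).length) := poly_mono _ hlen
  have h3 := o₁.steps_le_m
  have h4 := o₂.steps_le_m
  have h5 : l₁.length = (eβ (f a)).length := by rw [hl₁, List.length_map]
  have hle : o₂.steps + ((l₁.length + 1) + ((l₁.length + 1) + o₁.steps)) ≤
      (h₂.time.comp (Polynomial.X + Polynomial.C c * h₁.time) +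
      Polynomial.C 2 * (Polynomial.X + Polynomial.C c * h₁.time + 1) + h₁.time).eval
        (eα a).length := by
    simp only [Polynomial.eval_add, Polynomial.eval_comp, Polynomial.eval_mul, Polynomial.eval_C,
      Polynomial.eval_X, Polynomial.eval_one]
    rw [h5]
    generalize hA : h₂.time.eval ((eα a).length + c * h₁.time.eval (eα a).length) = A at h2 ⊢
    generalize hB : c * h₁.time.eval (eα a).length = B at hlen ⊢
    omega
  exact ⟨⟨_, key⟩, hle⟩

end Pool.Agent.PAH
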