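import Pool.Agent.PAH.Targets

set_option autoImplicit false

/-!
# Y-PLANAR: a nice family of triangles is a planar triangulation
-/

namespace Pool.Agent.PAH

open Filter Topology Set

namespace Plan

variable {V : Type}

/-! ## Elementary geometry -/

theorem det3_rot (a b c : Plane) : det3 b c a = det3 a b c := by unfold det3; ring

theorem det3_swap (a b c : Plane) : det3 b a c = - det3 a b c := by unfold det3; ring

theorem det3_affine (a b x y : Plane) (s : ℝ) :
    det3 a b ((1 - s) • x + s • y) = (1 - s) * det3 a b x + s * det3 a b y := by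
  unfold det3
  simp only [Prod.fst_add, Prod.snd_add, Prod.smul_fst, Prod.smul_snd, smul_eq_mul]
  ring

theorem det3_cont (a b : Plane) : Continuous fun y => det3 a b y := by
  unfold det3
  fun_prop

theorem openTri_open (a b c : Plane) : IsOpen (openTri a b c) :=
  (isOpen_lt continuous_const (det3_cont a b)).inter
    ((isOpen_lt continuous_const (det3_cont b c)).inter
      (isOpen_lt continuous_const (det3_cont c a)))

/-- points of the closed triangle are limits of points of the open triangle -/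
theorem approach {a b c x : Plane} (h : 0 < det3 a b c) (hx : x ∈ closedTri a b c)
    {U : Set Plane} (hU : IsOpen U) (hxU : x ∈ U) : ∃ y ∈ U, y ∈ openTri a b c := by
  set z : Plane := (1 / 3 : ℝ) • (a + b + c) with hz
  have z1 : det3 a b z = det3 a b c / 3 := by
    simp only [hz, det3, Prod.fst_add, Prod.snd_add, Prod.smul_fst, Prod.smul_snd, smul_eq_mul]
    ring
  have z2 : det3 b c z = det3 a b c / 3 := by
    simp only [hz, det3, Prod.fst_add, Prod.snd_add, Prod.smul_fst, Prod.smul_snd, smul_eq_mul]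
    ring
  have z3 : det3 c a z = det3 a b c / 3 := by
    simp only [hz, det3, Prod.fst_add, Prod.snd_add, Prod.smul_fst, Prod.smul_snd, smul_eq_mul]
    ring
  have hcont : Continuous fun e : ℝ => (1 - e) • x + e • z := by fun_prop
  have h1 : ∀ᶠ e : ℝ in 𝓝[>] 0, (1 - e) • x + e • z ∈ U := by
    have h2 : (fun e : ℝ => (1 - e) • x + e • z) ⁻¹' U ∈ 𝓝 (0 : ℝ) := by
      apply (hU.preimage hcont).mem_nhds
      simpa using hxU
    exact nhdsWithin_le_nhds h2
  have h2 : ∀ᶠ e : ℝ in 𝓝[>] 0, e < 1 := nhdsWithin_le_nhds (Iio_mem_nhds one_pos)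
  obtain ⟨e, ⟨he1, he2⟩, he3⟩ := ((h1.and h2).and self_mem_nhdsWithin).exists
  have he0 : 0 < e := he3
  obtain ⟨x1, x2, x3⟩ := hx
  refine ⟨_, he1, ?_, ?_, ?_⟩
  · rw [det3_affine, z1]
    have := mul_nonneg (by linarith : (0 : ℝ) ≤ 1 - e) x1
    have := mul_pos he0 h
    linarith
  · rw [det3_affine, z2]
    have := mul_nonneg (by linarith : (0 : ℝ) ≤ 1 - e) x2
    have := mul_pos he0 h
    linarith
  · rw [det3_affine, z3]
    have := mul_nonneg (by linarith : (0 : ℝ) ≤ 1 - e) x3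
    have := mul_pos he0 h
    linarith

theorem seg_zero {a b x : Plane} (hx : x ∈ segment ℝ a b) : det3 a b x = 0 := by
  obtain ⟨s, t, _, _, hst, rfl⟩ := hx
  have hs : s = 1 - t := by linarith
  subst hs
  unfold det3
  simp only [Prod.fst_add, Prod.snd_add, Prod.smul_fst, Prod.smul_snd, smul_eq_mul]
  ring

theorem seg_closed {a b c x : Plane} (h : 0 < det3 a b c) (hx : x ∈ segment ℝ a b) :
    x ∈ closedTri a b c := by
  have h0 := seg_zero hx
  obtain ⟨s, t, hs, ht, hst, rfl⟩ := hx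
  have hs' : s = 1 - t := by linarith
  subst hs'
  refine ⟨h0.ge, ?_, ?_⟩
  · have e : det3 b c ((1 - t) • a + t • b) = (1 - t) * det3 a b c := by
      rw [det3_affine]
      unfold det3
      ring
    rw [e]
    positivity
  · have e : det3 c a ((1 - t) • a + t • b) = t * det3 a b c := by
      rw [det3_affine]
      unfold det3
      ring
    rw [e]
    positivity

theorem open_pos {a b c x : Plane} (h : 0 < det3 a b c) (hx : x ∈ openSegment ℝ a b) :
    0 < det3 b c x ∧ 0 < det3 c a x := by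
  obtain ⟨s, t, hs, ht, hst, rfl⟩ := hx
  have hs' : s = 1 - t := by linarith
  subst hs'
  constructor
  · have e : det3 b c ((1 - t) • a + t • b) = (1 - t) * det3 a b c := by
      rw [det3_affine]
      unfold det3
      ring
    rw [e]
    positivity
  · have e : det3 c a ((1 - t) • a + t • b) = t * det3 a b c := by
      rw [det3_affine]
      unfold det3
      ring
    rw [e]
    positivity

theorem liesLeft_openTri {a b c : Plane} (h : 0 < det3 a b c) : LiesLeft (openTri a b c) a b := by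
  intro x hx
  obtain ⟨h1, h2⟩ := open_pos h hx
  have ho : IsOpen {y : Plane | 0 < det3 b c y ∧ 0 < det3 c a y} :=
    (isOpen_lt continuous_const (det3_cont b c)).inter
      (isOpen_lt continuous_const (det3_cont c a))
  obtain ⟨ε, hε, hsub⟩ := Metric.isOpen_iff.1 ho x ⟨h1, h2⟩
  exact ⟨ε, hε, fun y hy h0 => ⟨h0, (hsub hy).1, (hsub hy).2⟩⟩

/-! ## Rotations of triangles -/

/-- `t` is the triangle `v u w`, up to rotation -/
def IsRot (t : V × V × V) (v u w : V) : Prop := t = (v, u, w) ∨ t = (u, w, v) ∨ t = (w, v, u)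

theorem IsRot.next {t : V × V × V} {v u w : V} (h : IsRot t v u w) : IsRot t u w v := by
  rcases h with h | h | h
  · exact Or.inr (Or.inr h)
  · exact Or.inl h
  · exact Or.inr (Or.inl h)

theorem mem_triDarts {t : V × V × V} {v u : V} : (v, u) ∈ triDarts t ↔ ∃ w, IsRot t v u w := by
  obtain ⟨x, y, z⟩ := t
  simp only [triDarts, List.mem_cons, Prod.mk.injEq, List.not_mem_nil, or_false, IsRot]
  constructor
  · rintro (⟨rfl, rfl⟩ | ⟨rfl, rfl⟩ | ⟨rfl, rfl⟩)
    · exact ⟨z, Or.inl ⟨rfl, rfl, rfl⟩⟩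
    · exact ⟨x, Or.inr (Or.inr ⟨rfl, rfl, rfl⟩)⟩
    · exact ⟨y, Or.inr (Or.inl ⟨rfl, rfl, rfl⟩)⟩
  · rintro ⟨w, ⟨rfl, rfl, rfl⟩ | ⟨rfl, rfl, rfl⟩ | ⟨rfl, rfl, rfl⟩⟩
    · exact Or.inl ⟨rfl, rfl⟩
    · exact Or.inr (Or.inr ⟨rfl, rfl⟩)
    · exact Or.inr (Or.inl ⟨rfl, rfl⟩)

theorem openTri_rot (a b c : Plane) : openTri b c a = openTri a b c := by
  ext x
  constructor
  · rintro ⟨h1, h2, h3⟩
    exact ⟨h3, h1, h2⟩
  · rintro ⟨h1, h2, h3⟩
    exact ⟨h2, h3, h1⟩

theorem IsRot.tOpen {p : V → Plane} {t : V × V × V} {v u w : V} (h : IsRot t v u w) :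
    tOpen p t = openTri (p v) (p u) (p w) := by
  rcases h with rfl | rfl | rfl
  · rfl
  · exact openTri_rot _ _ _
  · exact (openTri_rot _ _ _).symm

theorem IsRot.det {p : V → Plane} {t : V × V × V} {v u w : V} (h : IsRot t v u w) :
    det3 (p t.1) (p t.2.1) (p t.2.2) = det3 (p v) (p u) (p w) := by
  rcases h with rfl | rfl | rfl
  · rfl
  · exact det3_rot _ _ _
  · exact (det3_rot _ _ _).symm

/-! ## Covering the plane by cones -/

/-- closed cone -/
def cC (a b : Plane) : Set Plane :=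
  {x | 0 ≤ a.1 * x.2 - a.2 * x.1 ∧ 0 ≤ x.1 * b.2 - x.2 * b.1}

theorem cC_closed (a b : Plane) : IsClosed (cC a b) := by
  have c1 : Continuous fun z : Plane => a.1 * z.2 - a.2 * z.1 := by fun_prop
  have c2 : Continuous fun z : Plane => z.1 * b.2 - z.2 * b.1 := by fun_prop
  exact (isClosed_le continuous_const c1).inter (isClosed_le continuous_const c2)

theorem cO_open (a b : Plane) : IsOpen {z : Plane | 0 < a.1 * z.2 - a.2 * z.1 ∧
      0 < z.1 * b.2 - z.2 * b.1} := by
  have c1 : Continuous fun z : Plane => a.1 * z.2 - a.2 * z.1 := by fun_prop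
  have c2 : Continuous fun z : Plane => z.1 * b.2 - z.2 * b.1 := by fun_prop
  exact (isOpen_lt continuous_const c1).inter (isOpen_lt continuous_const c2)

theorem cover {S : Set (Plane × Plane)} (hS : S.Finite) (hne : S.Nonempty)
    (hpos : ∀ d ∈ S, 0 < d.1.1 * d.2.2 - d.1.2 * d.2.1)
    (hsucc : ∀ d ∈ S, ∃ e ∈ S, e.1 = d.2) (hpred : ∀ d ∈ S, ∃ e ∈ S, e.2 = d.1) (x : Plane) :
    ∃ d ∈ S, x ∈ cC d.1 d.2 := by
  set F : Set Plane := ⋃ d ∈ S, cC d.1 d.2 with hF
  have hFc : IsClosed F := hS.isClosed_biUnion fun d _ => cC_closed _ _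
  have hmem : ∀ y, y ∈ F ↔ ∃ d ∈ S, y ∈ cC d.1 d.2 := by
    intro y
    simp only [hF, mem_iUnion, exists_prop]
  have hcone := cO_open
  have hFo : IsOpen (F ∩ {0}ᶜ) := by
    rw [isOpen_iff_forall_mem_open]
    rintro y ⟨hy, hy0⟩
    obtain ⟨⟨a, b⟩, hd, h1, h2⟩ := (hmem y).1 hy
    have hab := hpos _ hd
    simp only at h1 h2 hab
    have e1 : y.1 * (a.1 * b.2 - a.2 * b.1)
        = (a.1 * y.2 - a.2 * y.1) * b.1 + (y.1 * b.2 - y.2 * b.1) * a.1 := by ring
    have e2 : y.2 * (a.1 * b.2 - a.2 * b.1)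
        = (a.1 * y.2 - a.2 * y.1) * b.2 + (y.1 * b.2 - y.2 * b.1) * a.2 := by ring
    rcases h1.eq_or_lt with h1' | h1'
    · -- on the ray `a`
      have hB : 0 < y.1 * b.2 - y.2 * b.1 := by
        rcases h2.eq_or_lt with h | h
        · exfalso
          apply hy0
          rw [← h1', ← h] at e1 e2
          have f1 : y.1 = 0 := by
            rcases mul_eq_zero.1 (by linarith : y.1 * (a.1 * b.2 - a.2 * b.1) = 0) with h | h
            · exact h
            · exact absurd h hab.ne'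
          have f2 : y.2 = 0 := by
            rcases mul_eq_zero.1 (by linarith : y.2 * (a.1 * b.2 - a.2 * b.1) = 0) with h | h
            · exact h
            · exact absurd h hab.ne'
          exact Prod.ext f1 f2
        · exact h
      obtain ⟨⟨c, a'⟩, he, hea⟩ := hpred _ hd
      simp only at hea
      subst hea
      have hca := hpos _ he
      simp only at hca
      have hcy : 0 < c.1 * y.2 - c.2 * y.1 := by
        have e3 : (c.1 * y.2 - c.2 * y.1) * (a'.1 * b.2 - a'.2 * b.1)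
            = (y.1 * b.2 - y.2 * b.1) * (c.1 * a'.2 - c.2 * a'.1)
              + (a'.1 * y.2 - a'.2 * y.1) * (c.1 * b.2 - c.2 * b.1) := by ring
        rw [← h1', zero_mul, add_zero] at e3
        have e4 : 0 < (c.1 * y.2 - c.2 * y.1) * (a'.1 * b.2 - a'.2 * b.1) := by
          rw [e3]; exact mul_pos hB hca
        exact (pos_iff_pos_of_mul_pos e4).2 hab
      refine ⟨{z : Plane | 0 < c.1 * z.2 - c.2 * z.1 ∧ 0 < z.1 * b.2 - z.2 * b.1} ∩ {0}ᶜ, ?_,
        (hcone c b).inter isOpen_compl_singleton, ⟨⟨hcy, hB⟩, hy0⟩⟩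
      rintro z ⟨⟨hz1, hz2⟩, hz0⟩
      refine ⟨(hmem z).2 ?_, hz0⟩
      rcases le_total 0 (a'.1 * z.2 - a'.2 * z.1) with h | h
      · exact ⟨_, hd, h, hz2.le⟩
      · refine ⟨_, he, hz1.le, ?_⟩
        show 0 ≤ z.1 * a'.2 - z.2 * a'.1
        linarith
    · rcases h2.eq_or_lt with h2' | h2'
      · -- on the ray `b`
        obtain ⟨⟨b', c⟩, he, heb⟩ := hsucc _ hd
        simp only at heb
        subst heb
        have hbc := hpos _ he
        simp only at hbc
        have hyc : 0 < y.1 * c.2 - y.2 * c.1 := by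
          have e3 : (y.1 * c.2 - y.2 * c.1) * (a.1 * b'.2 - a.2 * b'.1)
              = (a.1 * y.2 - a.2 * y.1) * (b'.1 * c.2 - b'.2 * c.1)
                + (y.1 * b'.2 - y.2 * b'.1) * (a.1 * c.2 - a.2 * c.1) := by ring
          rw [← h2', zero_mul, add_zero] at e3
          have e4 : 0 < (y.1 * c.2 - y.2 * c.1) * (a.1 * b'.2 - a.2 * b'.1) := by
            rw [e3]; exact mul_pos h1' hbc
          exact (pos_iff_pos_of_mul_pos e4).2 hab
        refine ⟨{z : Plane | 0 < a.1 * z.2 - a.2 * z.1 ∧ 0 < z.1 * c.2 - z.2 * c.1} ∩ {0}ᶜ, ?_,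
          (hcone a c).inter isOpen_compl_singleton, ⟨⟨h1', hyc⟩, hy0⟩⟩
        rintro z ⟨⟨hz1, hz2⟩, hz0⟩
        refine ⟨(hmem z).2 ?_, hz0⟩
        rcases le_total 0 (z.1 * b'.2 - z.2 * b'.1) with h | h
        · exact ⟨_, hd, hz1.le, h⟩
        · refine ⟨_, he, ?_, hz2.le⟩
          show 0 ≤ b'.1 * z.2 - b'.2 * z.1
          linarith
      · refine ⟨{z : Plane | 0 < a.1 * z.2 - a.2 * z.1 ∧ 0 < z.1 * b.2 - z.2 * b.1} ∩ {0}ᶜ, ?_,
          (hcone a b).inter isOpen_compl_singleton, ⟨⟨h1', h2'⟩, hy0⟩⟩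
        rintro z ⟨⟨hz1, hz2⟩, hz0⟩
        exact ⟨(hmem z).2 ⟨_, hd, hz1.le, hz2.le⟩, hz0⟩
  have hconn : IsPreconnected ({0}ᶜ : Set Plane) :=
    (isConnected_compl_singleton_of_one_lt_rank (by
      rw [← Module.finrank_eq_rank, Module.finrank_prod, Module.finrank_self]
      norm_num) (0 : Plane)).isPreconnected
  have hsub : ({0}ᶜ : Set Plane) ⊆ F ∩ {0}ᶜ := by
    apply hconn.subset_left_of_subset_union hFo hFc.isOpen_compl
    · exact disjoint_left.2 fun y hy hy' => hy' hy.1
    · intro y hy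
      by_cases h : y ∈ F
      · exact Or.inl ⟨h, hy⟩
      · exact Or.inr h
    · obtain ⟨⟨a, b⟩, hd⟩ := hne
      have hab := hpos _ hd
      simp only at hab
      have ha0 : a ≠ 0 := by
        rintro rfl
        simp at hab
      refine ⟨a, ha0, (hmem a).2 ⟨_, hd, ?_, ?_⟩, ha0⟩
      · show 0 ≤ a.1 * a.2 - a.2 * a.1
        linarith
      · exact hab.le
  by_cases hx : x = 0
  · obtain ⟨⟨a, b⟩, hd⟩ := hne
    refine ⟨_, hd, ?_, ?_⟩ <;> simp [hx]
  · exact (hmem x).1 (hsub hx).1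

/-! ## Small homothetic copies of cones -/

/-- a direction in the open cone of a triangle at its first vertex enters the triangle -/
theorem enter {P u w y : Plane} (h : 0 < det3 P u w)
    (h1 : 0 < (u - P).1 * y.2 - (u - P).2 * y.1) (h2 : 0 < y.1 * (w - P).2 - y.2 * (w - P).1) :
    ∀ᶠ e : ℝ in 𝓝[>] 0, P + e • y ∈ openTri P u w := by
  have hc : Continuous fun e : ℝ => det3 u w (P + e • y) :=
    (det3_cont u w).comp (by fun_prop)
  have h3 : ∀ᶠ e : ℝ in 𝓝[>] 0, 0 < det3 u w (P + e • y) := by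
    have h4 : (fun e : ℝ => det3 u w (P + e • y)) ⁻¹' (Ioi 0) ∈ 𝓝 (0 : ℝ) := by
      apply (isOpen_Ioi.preimage hc).mem_nhds
      show 0 < det3 u w (P + (0 : ℝ) • y)
      rw [zero_smul, add_zero, det3_rot]
      exact h
    exact nhdsWithin_le_nhds h4
  filter_upwards [h3, self_mem_nhdsWithin] with e he he0
  have he1 : 0 < e := he0
  refine ⟨?_, he, ?_⟩
  · have e1 : det3 P u (P + e • y) = e * ((u - P).1 * y.2 - (u - P).2 * y.1) := by
      unfold det3
      simp only [Prod.fst_add, Prod.snd_add, Prod.smul_fst, Prod.smul_snd, smul_eq_mul,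
        Prod.fst_sub, Prod.snd_sub]
      ring
    rw [e1]
    exact mul_pos he1 h1
  · have e1 : det3 w P (P + e • y) = e * (y.1 * (w - P).2 - y.2 * (w - P).1) := by
      unfold det3
      simp only [Prod.fst_add, Prod.snd_add, Prod.smul_fst, Prod.smul_snd, smul_eq_mul,
        Prod.fst_sub, Prod.snd_sub]
      ring
    rw [e1]
    exact mul_pos he1 h2

theorem det3_sub (P u w : Plane) :
    (u - P).1 * (w - P).2 - (u - P).2 * (w - P).1 = det3 P u w := by
  unfold det3
  simp only [Prod.fst_sub, Prod.snd_sub]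

/-! ## Consequences of niceness -/

section Main

variable {p : V → Plane} {T : List (V × V × V)} {a b c : V}

theorem eq_of_meet (hN : Nice p T a b c) {s t : V × V × V} (hs : s ∈ T) (ht : t ∈ T)
    (h : ∃ x, x ∈ tOpen p s ∧ x ∈ tOpen p t) : s = t := by
  by_contra hne
  obtain ⟨x, h1, h2⟩ := h
  have : Std.Symm (fun s t : V × V × V => Disjoint (tOpen p s) (tOpen p t)) :=
    ⟨fun _ _ hxy => hxy.symm⟩
  have hd : Disjoint (tOpen p s) (tOpen p t) := hN.disj.forall hs ht hne
  exact disjoint_left.1 hd h1 h2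

theorem mem_darts {d : V × V} : d ∈ T.flatMap triDarts ↔ ∃ t ∈ T, ∃ w, IsRot t d.1 d.2 w := by
  rw [List.mem_flatMap]
  constructor
  · rintro ⟨t, ht, hd⟩
    exact ⟨t, ht, mem_triDarts.1 hd⟩
  · rintro ⟨t, ht, hd⟩
    exact ⟨t, ht, mem_triDarts.2 hd⟩

theorem rot_mem {t : V × V × V} {v u w : V} (ht : t ∈ T) (h : IsRot t v u w) :
    (v, u) ∈ T.flatMap triDarts :=
  mem_darts.2 ⟨t, ht, w, h⟩

theorem rot_pos (hN : Nice p T a b c) {t : V × V × V} {v u w : V} (ht : t ∈ T)
    (h : IsRot t v u w) : 0 < det3 (p v) (p u) (p w) := by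
  rw [← h.det]
  exact hN.pos t ht

/-- the star of a vertex which is not a corner covers all directions -/
theorem star_cover (hN : Nice p T a b c) {v : V} (hva : v ≠ a) (hvb : v ≠ b) (hvc : v ≠ c)
    (hv : ∃ t ∈ T, ∃ u w, IsRot t v u w) (x : Plane) :
    ∃ t ∈ T, ∃ u w, IsRot t v u w ∧ x ∈ cC (p u - p v) (p w - p v) := by
  have hout : ∀ d : V × V, d ∈ [(a, b), (b, c), (c, a)] → d.1 ≠ v ∧ d.2 ≠ v := by
    intro d hd
    simp only [List.mem_cons, List.not_mem_nil, or_false] at hd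
    rcases hd with rfl | rfl | rfl
    · exact ⟨hva.symm, hvb.symm⟩
    · exact ⟨hvb.symm, hvc.symm⟩
    · exact ⟨hvc.symm, hva.symm⟩
  set S : Set (Plane × Plane) :=
    {e | ∃ t ∈ T, ∃ u w, IsRot t v u w ∧ e = (p u - p v, p w - p v)} with hS
  have hfin : S.Finite := by
    apply ((List.finite_toSet (T.flatMap triDarts)).image
      (fun d : V × V => (p d.1 - p v, p d.2 - p v))).subset
    rintro e ⟨t, ht, u, w, hr, rfl⟩
    exact ⟨(u, w), rot_mem ht hr.next, rfl⟩
  obtain ⟨d, ⟨t, ht, u, w, hr, rfl⟩, hx⟩ := cover hfin (by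
    obtain ⟨t, ht, u, w, hr⟩ := hv
    exact ⟨_, t, ht, u, w, hr, rfl⟩) (by
    rintro d ⟨t, ht, u, w, hr, rfl⟩
    rw [det3_sub]
    exact rot_pos hN ht hr) (by
    rintro d ⟨t, ht, u, w, hr, rfl⟩
    rcases hN.rev (w, v) (rot_mem ht hr.next.next) with h | h
    · obtain ⟨t', ht', z, hr'⟩ := mem_darts.1 h
      exact ⟨_, ⟨t', ht', w, z, hr', rfl⟩, rfl⟩
    · exact absurd rfl (hout _ h).2) (by
    rintro d ⟨t, ht, u, w, hr, rfl⟩
    rcases hN.rev (v, u) (rot_mem ht hr) with h | h
    · obtain ⟨t', ht', z, hr'⟩ := mem_darts.1 h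
      exact ⟨_, ⟨t', ht', z, u, hr'.next, rfl⟩, rfl⟩
    · exact absurd rfl (hout _ h).1) x
  exact ⟨t, ht, u, w, hr, hx⟩

theorem inj_aux (hN : Nice p T a b c) {v v' : V} (hva : v ≠ a) (hvb : v ≠ b) (hvc : v ≠ c)
    (hv : ∃ t ∈ T, ∃ u w, IsRot t v u w) (hv' : ∃ t ∈ T, ∃ u w, IsRot t v' u w)
    (hp : p v = p v') : v = v' := by
  obtain ⟨s, hs, u', w', hrs⟩ := hv'
  have hps := rot_pos hN hs hrs
  rw [← hp] at hps
  set P := p v with hP
  -- a direction in the open cone of `s`
  set x0 : Plane := (p u' - P) + (p w' - P) with hx0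
  have hA : 0 < (p u' - P).1 * x0.2 - (p u' - P).2 * x0.1 := by
    have e1 : (p u' - P).1 * x0.2 - (p u' - P).2 * x0.1 = det3 P (p u') (p w') := by
      rw [← det3_sub]
      simp only [hx0, Prod.fst_add, Prod.snd_add]
      ring
    rw [e1]; exact hps
  have hB : 0 < x0.1 * (p w' - P).2 - x0.2 * (p w' - P).1 := by
    have e1 : x0.1 * (p w' - P).2 - x0.2 * (p w' - P).1 = det3 P (p u') (p w') := by
      rw [← det3_sub]
      simp only [hx0, Prod.fst_add, Prod.snd_add]
      ring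
    rw [e1]; exact hps
  obtain ⟨t, ht, u, w, hrt, hx1, hx2⟩ := star_cover hN hva hvb hvc hv x0
  have hpt := rot_pos hN ht hrt
  rw [← hP] at hpt hx1 hx2
  -- move into the open cone of `t`
  set z : Plane := (p u - P) + (p w - P) with hz
  have hcont : Continuous fun e : ℝ => x0 + e • z := by fun_prop
  let D : Set Plane := {y : Plane | 0 < (p u' - P).1 * y.2 - (p u' - P).2 * y.1 ∧
      0 < y.1 * (p w' - P).2 - y.2 * (p w' - P).1}
  have hDo : IsOpen D := cO_open _ _
  have h1 : ∀ᶠ e : ℝ in 𝓝[>] 0, x0 + e • z ∈ D := by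
    have h2 : (fun e : ℝ => x0 + e • z) ⁻¹' D ∈ 𝓝 (0 : ℝ) := by
      apply (hDo.preimage hcont).mem_nhds
      show x0 + (0 : ℝ) • z ∈ D
      rw [zero_smul, add_zero]
      exact ⟨hA, hB⟩
    exact nhdsWithin_le_nhds h2
  obtain ⟨e, ⟨hy1, hy2⟩, he⟩ := (h1.and self_mem_nhdsWithin).exists
  have he0 : 0 < e := he
  set y : Plane := x0 + e • z with hy
  have hy3 : 0 < (p u - P).1 * y.2 - (p u - P).2 * y.1 := by
    have e1 : (p u - P).1 * y.2 - (p u - P).2 * y.1
        = ((p u - P).1 * x0.2 - (p u - P).2 * x0.1) + e * det3 P (p u) (p w) := by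
      rw [← det3_sub]
      simp only [hy, hz, Prod.fst_add, Prod.snd_add, Prod.smul_fst, Prod.smul_snd, smul_eq_mul]
      ring
    rw [e1]
    have := mul_pos he0 hpt
    linarith
  have hy4 : 0 < y.1 * (p w - P).2 - y.2 * (p w - P).1 := by
    have e1 : y.1 * (p w - P).2 - y.2 * (p w - P).1
        = (x0.1 * (p w - P).2 - x0.2 * (p w - P).1) + e * det3 P (p u) (p w) := by
      rw [← det3_sub]
      simp only [hy, hz, Prod.fst_add, Prod.snd_add, Prod.smul_fst, Prod.smul_snd, smul_eq_mul]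
      ring
    rw [e1]
    have := mul_pos he0 hpt
    linarith
  obtain ⟨e', h3, h4⟩ := ((enter hpt hy3 hy4).and (enter hps hy1 hy2)).exists
  have hst : s = t := by
    apply eq_of_meet hN hs ht
    refine ⟨P + e' • y, ?_, ?_⟩
    · rw [hrs.tOpen, ← hp]; exact h4
    · rw [hrt.tOpen]; exact h3
  subst hst
  -- the triangle has two vertices at the same point
  have hdu : p u ≠ P := by
    intro h
    rw [h] at hpt
    unfold det3 at hpt
    linarith
  have hdw : p w ≠ P := by
    intro h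
    rw [h] at hpt
    unfold det3 at hpt
    linarith
  by_contra hne
  have hcase : v' = v ∨ v' = u ∨ v' = w := by
    rcases hrs with h | h | h <;> rcases hrt with h' | h' | h' <;> rw [h] at h' <;>
      simp only [Prod.mk.injEq] at h' <;> obtain ⟨h1, h2, h3⟩ := h' <;> tauto
  rcases hcase with h | h | h
  · exact hne h.symm
  · subst h
    exact hdu hp.symm
  · subst h
    exact hdw hp.symm

theorem inj_main (hN : Nice p T a b c) {v v' : V}
    (hv : ∃ t ∈ T, ∃ u w, IsRot t v u w) (hv' : ∃ t ∈ T, ∃ u w, IsRot t v' u w)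
    (hp : p v = p v') : v = v' := by
  by_cases h : v ≠ a ∧ v ≠ b ∧ v ≠ c
  · exact inj_aux hN h.1 h.2.1 h.2.2 hv hv' hp
  by_cases h' : v' ≠ a ∧ v' ≠ b ∧ v' ≠ c
  · exact (inj_aux hN h'.1 h'.2.1 h'.2.2 hv' hv hp.symm).symm
  have hab : p a ≠ p b := by
    intro h
    have h0 := hN.outer_pos
    rw [h] at h0
    unfold det3 at h0
    linarith
  have hbc : p b ≠ p c := by
    intro h
    have h0 := hN.outer_pos
    rw [h] at h0
    unfold det3 at h0
    linarith
  have hca : p c ≠ p a := by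
    intro h
    have h0 := hN.outer_pos
    rw [h] at h0
    unfold det3 at h0
    linarith
  have h1 : v = a ∨ v = b ∨ v = c := by tauto
  have h2 : v' = a ∨ v' = b ∨ v' = c := by tauto
  rcases h1 with rfl | rfl | rfl <;> rcases h2 with rfl | rfl | rfl
  · rfl
  · exact absurd hp hab
  · exact absurd hp hca.symm
  · exact absurd hp hab.symm
  · rfl
  · exact absurd hp hbc
  · exact absurd hp hca
  · exact absurd hp hbc.symm
  · rfl

theorem seg_tClosed (hN : Nice p T a b c) {t : V × V × V} {v u w : V} (ht : t ∈ T)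
    (h : IsRot t v u w) {x : Plane} (hx : x ∈ segment ℝ (p v) (p u)) {U : Set Plane}
    (hU : IsOpen U) (hxU : x ∈ U) : ∃ y ∈ U, y ∈ tOpen p t := by
  have h1 := rot_pos hN ht h
  rw [h.tOpen]
  exact approach h1 (seg_closed h1 hx) hU hxU

theorem openDisj_main (hN : Nice p T a b c) {t : V × V × V} (ht : t ∈ T) {e : V × V}
    (he : e ∈ T.flatMap triDarts) {x : Plane} (hx : x ∈ segment ℝ (p e.1) (p e.2)) :
    x ∉ tOpen p t := by
  intro hxt
  obtain ⟨s, hs, w, hr⟩ := mem_darts.1 he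
  have ho : IsOpen (tOpen p t) := openTri_open _ _ _
  obtain ⟨y, hy1, hy2⟩ := seg_tClosed hN hs hr hx ho hxt
  have hst := eq_of_meet hN hs ht ⟨y, hy2, hy1⟩
  subst hst
  rw [hr.tOpen] at hxt
  have := hxt.1
  rw [seg_zero hx] at this
  exact lt_irrefl _ this

/-- an interior point of a dart of a triangle is on no other dart of the triangle -/
theorem side_unique (hN : Nice p T a b c) {t : V × V × V} (ht : t ∈ T) {d e : V × V}
    (hd : d ∈ triDarts t) (he : e ∈ triDarts t) {x : Plane}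
    (hx : x ∈ openSegment ℝ (p d.1) (p d.2)) (hx' : x ∈ segment ℝ (p e.1) (p e.2)) : e = d := by
  obtain ⟨v, u⟩ := d
  obtain ⟨w, hr⟩ := mem_triDarts.1 hd
  obtain ⟨h1, h2⟩ := open_pos (rot_pos hN ht hr) hx
  have h3 := seg_zero hx'
  have hcase : e = (v, u) ∨ e = (u, w) ∨ e = (w, v) := by
    rcases hr with rfl | rfl | rfl
    · simpa [triDarts] using he
    · have : e = (u, w) ∨ e = (w, v) ∨ e = (v, u) := by simpa [triDarts] using he
      tauto
    · have : e = (w, v) ∨ e = (v, u) ∨ e = (u, w) := by simpa [triDarts] using he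
      tauto
  rcases hcase with rfl | rfl | rfl
  · rfl
  · exact absurd h3 h1.ne'
  · exact absurd h3 h2.ne'

/-- the edge lemma -/
theorem edge (hN : Nice p T a b c) {d e : V × V} (hd : d ∈ T.flatMap triDarts)
    (he : e ∈ T.flatMap triDarts) {x : Plane} (hx : x ∈ openSegment ℝ (p d.1) (p d.2))
    (hx' : x ∈ segment ℝ (p e.1) (p e.2)) : e = d ∨ e = d.swap := by
  obtain ⟨t, ht, hdt⟩ := List.mem_flatMap.1 hd
  obtain ⟨s, hs, hes⟩ := List.mem_flatMap.1 he
  by_cases hst : s = t
  · subst hst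
    exact Or.inl (side_unique hN hs hdt hes hx hx')
  obtain ⟨v, u⟩ := d
  obtain ⟨w, hr⟩ := mem_triDarts.1 hdt
  obtain ⟨w', hr'⟩ := mem_triDarts.1 hes
  have hpt := rot_pos hN ht hr
  -- the left side of `d` near `x` is in `t`
  obtain ⟨ε, hε, hleft⟩ := liesLeft_openTri hpt x hx
  have hx'' : x ∈ openSegment ℝ (p u) (p v) := by
    rw [openSegment_symm]; exact hx
  -- on the right side of `d`
  have hright : ∀ ε > 0, ∃ y ∈ Metric.ball x ε, 0 < det3 (p u) (p v) y ∧ y ∈ tOpen p s := by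
    intro ε' hε'
    obtain ⟨y, hy1, hy2⟩ := seg_tClosed hN hs hr' hx' (Metric.isOpen_ball (x := x)
      (ε := min ε ε')) (Metric.mem_ball_self (lt_min hε hε'))
    -- perturb `y` off the line
    have hyle : det3 (p v) (p u) y ≤ 0 := by
      by_contra h
      push Not at h
      apply hst
      apply eq_of_meet hN hs ht
      refine ⟨y, hy2, ?_⟩
      rw [hr.tOpen]
      exact hleft y (Metric.ball_subset_ball (min_le_left _ _) hy1) h
    rcases hyle.lt_or_eq with h | h
    · refine ⟨y, Metric.ball_subset_ball (min_le_right _ _) hy1, ?_, hy2⟩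
      rw [det3_swap]
      linarith
    · -- `y` is on the line: move towards the third vertex of `t`
      exfalso
      have ho : IsOpen (tOpen p s ∩ Metric.ball x (min ε ε')) :=
        (openTri_open _ _ _).inter Metric.isOpen_ball
      have hcont : Continuous fun r : ℝ => (1 - r) • y + r • p w := by fun_prop
      have h1 : ∀ᶠ r : ℝ in 𝓝[>] 0, (1 - r) • y + r • p w ∈
          tOpen p s ∩ Metric.ball x (min ε ε') := by
        have h2 : (fun r : ℝ => (1 - r) • y + r • p w) ⁻¹'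
            (tOpen p s ∩ Metric.ball x (min ε ε')) ∈ 𝓝 (0 : ℝ) := by
          apply (ho.preimage hcont).mem_nhds
          show (1 - (0 : ℝ)) • y + (0 : ℝ) • p w ∈ tOpen p s ∩ Metric.ball x (min ε ε')
          rw [sub_zero, one_smul, zero_smul, add_zero]
          exact ⟨hy2, hy1⟩
        exact nhdsWithin_le_nhds h2
      obtain ⟨r, ⟨hr1, hr2⟩, hr3⟩ := (h1.and self_mem_nhdsWithin).exists
      have hr0 : 0 < r := hr3
      apply hst
      apply eq_of_meet hN hs ht
      refine ⟨_, hr1, ?_⟩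
      rw [hr.tOpen]
      apply hleft _ (Metric.ball_subset_ball (min_le_left _ _) hr2)
      rw [det3_affine, h, mul_zero, zero_add]
      exact mul_pos hr0 hpt
  rcases hN.rev (v, u) hd with h | h
  · -- there is a triangle on the other side
    right
    obtain ⟨t', ht', hdt'⟩ := List.mem_flatMap.1 h
    obtain ⟨z, hrz⟩ := mem_triDarts.1 hdt'
    obtain ⟨ε', hε', hleft'⟩ := liesLeft_openTri (rot_pos hN ht' hrz) x hx''
    obtain ⟨y, hy1, hy2, hy3⟩ := hright ε' hε'
    have hst' : s = t' := by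
      apply eq_of_meet hN hs ht'
      refine ⟨y, hy3, ?_⟩
      rw [hrz.tOpen]
      exact hleft' y hy1 hy2
    subst hst'
    exact side_unique hN hs (d := (u, v)) hdt' hes hx'' hx'
  · -- outer dart
    exfalso
    obtain ⟨y, _, hy2, hy3⟩ := hright 1 one_pos
    have hin := hN.sub s hs hy3
    rw [det3_swap] at hy2
    obtain ⟨i1, i2, i3⟩ := hin
    simp only [List.mem_cons, Prod.mk.injEq, List.not_mem_nil, or_false] at h
    rcases h with ⟨rfl, rfl⟩ | ⟨rfl, rfl⟩ | ⟨rfl, rfl⟩ <;> linarith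

theorem dart_fst (d : V × V) (hd : d ∈ T.flatMap triDarts) :
    (∃ t ∈ T, ∃ u w, IsRot t d.1 u w) ∧ (∃ t ∈ T, ∃ u w, IsRot t d.2 u w) := by
  obtain ⟨t, ht, w, hr⟩ := mem_darts.1 hd
  exact ⟨⟨t, ht, _, _, hr⟩, ⟨t, ht, _, _, hr.next⟩⟩

theorem segment_cases {x y z : Plane} (h : z ∈ segment ℝ x y) :
    z = x ∨ z = y ∨ z ∈ openSegment ℝ x y := by
  rw [← insert_endpoints_openSegment] at h
  exact h

end Main

end Plan

/-- Y-PLANAR -/
theorem planar_main : TargetPlanar := by
  intro V p T a b c hN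
  refine ⟨?_, ?_, ?_, ?_⟩
  · intro d hd e he h
    exact Plan.inj_main hN (Plan.dart_fst d hd).1 (Plan.dart_fst e he).1 h
  · intro d hd e he hne hne' x hx hx'
    rcases Plan.segment_cases hx with h | h | h
    · rcases Plan.segment_cases hx' with h' | h' | h'
      · have := Plan.inj_main hN (Plan.dart_fst d hd).1 (Plan.dart_fst e he).1 (h.symm.trans h')
        exact ⟨d.1, Or.inl rfl, Or.inl this, h⟩
      · have := Plan.inj_main hN (Plan.dart_fst d hd).1 (Plan.dart_fst e he).2 (h.symm.trans h')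
        exact ⟨d.1, Or.inl rfl, Or.inr this, h⟩
      · rcases Plan.edge hN he hd h' hx with h3 | h3
        · exact absurd h3.symm hne
        · exact absurd (by rw [h3]; rfl) hne'
    · rcases Plan.segment_cases hx' with h' | h' | h'
      · have := Plan.inj_main hN (Plan.dart_fst d hd).2 (Plan.dart_fst e he).1 (h.symm.trans h')
        exact ⟨d.2, Or.inr rfl, Or.inl this, h⟩
      · have := Plan.inj_main hN (Plan.dart_fst d hd).2 (Plan.dart_fst e he).2 (h.symm.trans h')
        exact ⟨d.2, Or.inr rfl, Or.inr this, h⟩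
      · rcases Plan.edge hN he hd h' hx with h3 | h3
        · exact absurd h3.symm hne
        · exact absurd (by rw [h3]; rfl) hne'
    · rcases Plan.edge hN hd he h hx' with h3 | h3
      · exact absurd h3 hne
      · exact absurd h3 hne'
  · intro t ht e he x hx
    exact Plan.openDisj_main hN ht he hx
  · intro t ht d hd
    obtain ⟨w, hr⟩ := Plan.mem_triDarts.1 (show (d.1, d.2) ∈ triDarts t from hd)
    rw [hr.tOpen]
    exact Plan.liesLeft_openTri (Plan.rot_pos hN ht hr)

end Pool.Agent.PAH
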