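import Pool.Agent.PAH.Tools

set_option autoImplicit false

/-!
# P-ETR: the system of arithmetic constraints of a formula is printed in polynomial time
-/

namespace Pool.Agent.PAH

open Polynomial

namespace Print1

local instance print1Inh : Inhabited Sym := ⟨Sym.tick⟩

/-! ### `takeWhile` -/

theorem takeWhile_eq_foldl {Γ : Type} (p : Γ → Bool) (l : List Γ) :
    l.takeWhile p = l.reverse.foldl (fun s c => if p c then c :: s else []) [] := by
  rw [List.foldl_reverse]
  induction l with
  | nil => rfl
  | cons c l ih =>
      rw [List.foldr_cons, ← ih, List.takeWhile_cons]

theorem P_takeWhile {Γ α : Type} [Ctx Γ α] {C : PolyClass Γ} {t : α → List Γ} (ht : C.P t)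
    (p : Γ → Bool) : C.P (fun a => (t a).takeWhile p) := by
  have h := PolyClass.P.foldlAdd (C := C) (l := fun a => (t a).reverse)
    (s₀ := fun _ => ([] : List Γ))
    (step := fun c x => if p c then c :: x.1 else []) 1 ht.reverse (C.const [])
    (fun c => by
      by_cases hc : p c
      · simp only [hc, if_true]
        exact PolyClass.P.cons C.fst c
      · simp only [hc]
        exact C.const [])
    (fun c s a => by
      by_cases hc : p c <;> simp [hc])
  exact h.congr fun a => (takeWhile_eq_foldl p (t a)).symm

/-! ### The stack of positions -/

def isTick (c : Sym) : Bool := decide (c = Sym.tick)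

def top (st : List Sym) : ℕ := (st.takeWhile isTick).length

def pop (st : List Sym) : List Sym := st.drop (top st + 1)

def push (p : ℕ) (st : List Sym) : List Sym := List.replicate p Sym.tick ++ Sym.comma :: st

theorem top_push (p : ℕ) (st : List Sym) : top (push p st) = p := by
  unfold top push
  rw [List.takeWhile_append_of_pos]
  · simp [isTick]
  · intro c hc
    rw [List.eq_of_mem_replicate hc]
    rfl

theorem pop_push (p : ℕ) (st : List Sym) : pop (push p st) = st := by
  unfold pop
  rw [top_push]
  unfold push
  rw [List.drop_append]
  simp

theorem pop_length (st : List Sym) : (pop st).length ≤ st.length := by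
  unfold pop
  simp

variable {α : Type} [Ctx Sym α] {C : PolyClass Sym}

theorem N_top {t : α → List Sym} (ht : C.P t) : C.N (fun a => top (t a)) :=
  (P_takeWhile ht isTick).length

theorem P_pop {t : α → List Sym} (ht : C.P t) : C.P (fun a => pop (t a)) :=
  ht.drop ((N_top ht).add (PolyClass.N.const C 1))

theorem P_push {t : α → List Sym} {p : α → ℕ} (hp : C.N p) (ht : C.P t) :
    C.P (fun a => push (p a) (t a)) :=
  (hp.rep Sym.tick).append (ht.cons Sym.comma)

/-! ### Printing constraints -/

theorem P_enc {b : Bool} {u v w : α → ℕ} (hu : C.N u) (hv : C.N v) (hw : C.N w) :
    C.P (fun a => encConstr ⟨b, u a, v a, w a⟩) := by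
  unfold encConstr
  exact ((((((C.const [if b then Sym.add else Sym.mul, Sym.comma]).append
    (hu.rep Sym.tick)).append (C.const [Sym.comma])).append (hv.rep Sym.tick)).append
    (C.const [Sym.comma])).append (hw.rep Sym.tick)).append (C.const [Sym.comma])

theorem P_encAdd {u v w : α → ℕ} (hu : C.N u) (hv : C.N v) (hw : C.N w) :
    C.P (fun a => encConstr (cAdd (u a) (v a) (w a))) := P_enc hu hv hw

theorem P_encMul {u v w : α → ℕ} (hu : C.N u) (hv : C.N v) (hw : C.N w) :
    C.P (fun a => encConstr (cMul (u a) (v a) (w a))) := P_enc hu hv hw

theorem N_vi {p : α → ℕ} (hp : C.N p) (s : ℕ) : C.N (fun a => vi (p a) s) :=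
  ((((PolyClass.N.const C 16).mul hp).add (PolyClass.N.const C s)).add (PolyClass.N.const C 1))

theorem P_cons {c : α → Constr} {L : α → List Constr} (hc : C.P fun a => encConstr (c a))
    (hL : C.P fun a => encArith (L a)) : C.P fun a => encArith (c a :: L a) :=
  (hc.append hL).congr fun a => by simp [encArith]

theorem P_nil : C.P fun _ : α => encArith [] := (C.const []).congr fun _ => rfl

/-- the output produced at a symbol; `p` is the position, `l` the position of the left child, `i`
the number of ticks before the symbol -/
def emit (c : Sym) (p l i : ℕ) : List Constr :=
  match c with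
  | .zero => [cAdd (vi p 0) (vi p 0) (vi p 0)]
  | .one => [cMul 0 0 (vi p 0)]
  | .var => [cMul 0 (vi i 15) (vi p 0)]
  | .add => [cAdd (vi l 0) (vi (p - 1) 0) (vi p 0)]
  | .mul => [cMul (vi l 0) (vi (p - 1) 0) (vi p 0)]
  | .eq => opEq l p
  | .lt => opLt l p
  | .not => opNot p
  | .and => opAnd l p
  | .or => opOr l p
  | _ => []

theorem P_emit (c : Sym) {p l i : α → ℕ} (hp : C.N p) (hl : C.N l) (hi : C.N i) :
    C.P (fun a => encArith (emit c (p a) (l a) (i a))) := by
  have hp1 : C.N (fun a => p a - 1) := hp.sub (PolyClass.N.const C 1)
  have h0 : C.N (fun _ : α => 0) := PolyClass.N.const C 0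
  cases c <;>
  · simp only [emit, opEq, opLt, opNot, opAnd, opOr]
    repeat' first
      | with_reducible exact P_nil
      | with_reducible refine P_cons ?_ ?_
      | with_reducible refine P_encAdd ?_ ?_ ?_
      | with_reducible refine P_encMul ?_ ?_ ?_
      | with_reducible exact h0
      | with_reducible exact N_vi hp _
      | with_reducible exact N_vi hl _
      | with_reducible exact N_vi hi _
      | with_reducible exact N_vi hp1 _

theorem emit_length (c : Sym) (p l i n : ℕ) (hp : p ≤ n) (hl : l ≤ n) (hi : i ≤ n) :
    (encArith (emit c p l i)).length ≤ 400 * n + 500 := by
  cases c <;>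
  · simp [emit, opEq, opLt, opNot, opAnd, opOr, encArith, encConstr, cAdd, cMul, vi]
    try omega

/-! ### The fold -/

abbrev St : Type := List Sym × List Sym × List Sym × List Sym

/-- new stack -/
def nst (c : Sym) (p : ℕ) (st : List Sym) : List Sym :=
  match c with
  | .zero => push p st
  | .one => push p st
  | .var => push p st
  | .add => push p (pop (pop st))
  | .mul => push p (pop (pop st))
  | .eq => push p (pop (pop st))
  | .lt => push p (pop (pop st))
  | .not => push p (pop st)
  | .and => push p (pop (pop st))
  | .or => push p (pop (pop st))
  | _ => st

/-- new tick counter -/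
def ntk (c : Sym) (tk : List Sym) : List Sym :=
  match c with
  | .tick => Sym.tick :: tk
  | .var => []
  | _ => tk

def step (c : Sym) (x : St × List Sym) : St :=
  (Sym.tick :: x.1.1,
   nst c (min x.1.1.length x.2.length) x.1.2.1,
   ntk c x.1.2.2.1,
   x.1.2.2.2 ++ encArith (emit c (min x.1.1.length x.2.length)
     (min (top (pop x.1.2.1)) x.2.length) (min x.1.2.2.1.length x.2.length)))

theorem N_min {n m : α → ℕ} (hn : C.N n) (hm : C.N m) : C.N (fun a => min (n a) (m a)) :=
  (hn.sub (hn.sub hm)).congr fun a => by omega

theorem P_nst (c : Sym) {p : α → ℕ} {st : α → List Sym} (hp : C.N p) (hst : C.P st) :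
    C.P (fun a => nst c (p a) (st a)) := by
  cases c <;>
  · simp only [nst]
    first
      | exact hst
      | exact P_push hp hst
      | exact P_push hp (P_pop hst)
      | exact P_push hp (P_pop (P_pop hst))

theorem P_ntk (c : Sym) {tk : α → List Sym} (htk : C.P tk) : C.P (fun a => ntk c (tk a)) := by
  cases c <;>
  · simp only [ntk]
    first
      | exact htk
      | exact htk.cons _
      | exact C.const []

theorem P_step (c : Sym) : C.P (step c) := by
  have h1 : C.P (fun x : St × List Sym => x.1.1) := C.fst.fst
  have h2 : C.P (fun x : St × List Sym => x.1.2.1) := C.fst.snd.fst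
  have h3 : C.P (fun x : St × List Sym => x.1.2.2.1) := C.fst.snd.snd.fst
  have h4 : C.P (fun x : St × List Sym => x.1.2.2.2) := C.fst.snd.snd.snd
  have h5 : C.P (fun x : St × List Sym => x.2) := C.snd
  have n1 : C.N (fun x : St × List Sym => min x.1.1.length x.2.length) :=
    N_min h1.length h5.length
  have n2 : C.N (fun x : St × List Sym => min (top (pop x.1.2.1)) x.2.length) :=
    N_min (N_top (P_pop h2)) h5.length
  have n3 : C.N (fun x : St × List Sym => min x.1.2.2.1.length x.2.length) :=
    N_min h3.length h5.length
  exact (h1.cons _).pair ((P_nst c n1 h2).pair ((P_ntk c h3).pair (h4.append (P_emit c n1 n2 n3))))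

theorem push_length (p : ℕ) (st : List Sym) : (push p st).length = p + 1 + st.length := by
  simp [push]; omega

theorem nst_length (c : Sym) (p : ℕ) (st : List Sym) :
    (nst c p st).length ≤ p + 1 + st.length := by
  have h1 := pop_length st
  have h2 := pop_length (pop st)
  cases c <;> simp only [nst, push_length] <;> omega

theorem ntk_length (c : Sym) (tk : List Sym) : (ntk c tk).length ≤ tk.length + 1 := by
  cases c <;> simp [ntk]

theorem step_size (c : Sym) (s : St) (a : List Sym) :
    csize (step c (s, a)) ≤ csize s + (401 * X + 503 : Polynomial ℕ).eval (csize a) := by
  obtain ⟨pos, st, tk, out⟩ := s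
  have e1 := nst_length c (min pos.length a.length) st
  have e2 := ntk_length c tk
  have e3 := emit_length c (min pos.length a.length) (min (top (pop st)) a.length)
    (min tk.length a.length) a.length (Nat.min_le_right _ _) (Nat.min_le_right _ _)
    (Nat.min_le_right _ _)
  simp only [step, csize_prod, csize_list, List.length_cons, List.length_append]
  have e4 : (401 * X + 503 : Polynomial ℕ).eval a.length = 401 * a.length + 503 := by
    simp
  rw [e4]
  have e5 : min pos.length a.length ≤ a.length := Nat.min_le_right _ _
  omega

def run (a : List Sym) (l : List Sym) (s : St) : St := l.foldl (fun s c => step c (s, a)) s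

theorem run_append (a l l' : List Sym) (s : St) : run a (l ++ l') s = run a l' (run a l s) := by
  simp [run]

theorem run_ticks (a : List Sym) (i : ℕ) (pos st tk out : List Sym) :
    run a (List.replicate i Sym.tick) (pos, st, tk, out) =
      (List.replicate i Sym.tick ++ pos, st, List.replicate i Sym.tick ++ tk, out) := by
  induction i generalizing pos tk with
  | zero => rfl
  | succ i ih =>
      rw [List.replicate_succ]
      have h : run a (Sym.tick :: List.replicate i Sym.tick) (pos, st, tk, out)
          = run a (List.replicate i Sym.tick) (Sym.tick :: pos, st, Sym.tick :: tk, out) := by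
        simp [run, step, nst, ntk, emit, encArith]
      rw [h, ih, ← List.replicate_succ, List.replicate_succ', List.append_assoc,
        List.append_assoc]
      rfl

theorem enc_pos (t : Term) : 1 ≤ t.enc.length := by
  cases t <;> simp [Term.enc] <;> omega

/-- the state after a finished subterm -/
theorem run_term (a : List Sym) (t : Term) : ∀ (o : ℕ) (st out : List Sym),
    o + t.enc.length ≤ a.length →
    run a t.enc (List.replicate o Sym.tick, st, [], out) =
      (List.replicate (o + t.enc.length) Sym.tick, push (o + t.enc.length - 1) st, [],
        out ++ encArith (t.constr o)) := by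
  induction t with
  | zero =>
      intro o st out h
      have h1 : min o a.length = o := by simp [Term.enc] at h; omega
      simp [run, Term.enc, step, nst, ntk, emit, Term.constr, h1, List.replicate_succ]
  | one =>
      intro o st out h
      have h1 : min o a.length = o := by simp [Term.enc] at h; omega
      simp [run, Term.enc, step, nst, ntk, emit, Term.constr, h1, List.replicate_succ]
  | var i =>
      intro o st out h
      simp only [Term.enc, List.length_append, List.length_replicate, List.length_singleton] at h
      have h1 : min (i + o) a.length = i + o := by omega
      have h2 : min i a.length = i := by omega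
      rw [Term.enc, run_append, run_ticks]
      simp only [run, List.foldl_cons, List.foldl_nil, step, nst, ntk, emit, Term.constr,
        List.length_append, List.length_replicate, List.append_nil, h1, h2, List.length_singleton]
      rw [← List.replicate_add, ← List.replicate_succ]
      have e1 : i + o + 1 = o + (i + 1) := by omega
      have e2 : o + (i + 1) - 1 = i + o := by omega
      rw [e1, e2, Nat.add_comm i o]
  | add s t ihs iht =>
      intro o st out h
      simp only [Term.enc, List.length_append, List.length_singleton] at h
      rw [Term.enc, run_append, run_append, ihs o st out (by omega), iht _ _ _ (by omega)]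
      have hs : 1 ≤ s.enc.length := enc_pos s
      have ht : 1 ≤ t.enc.length := enc_pos t
      have h1 : min (o + s.enc.length + t.enc.length) a.length
        = o + s.enc.length + t.enc.length := by omega
      have h2 : min (o + s.enc.length - 1) a.length = o + s.enc.length - 1 := by omega
      simp only [run, List.foldl_cons, List.foldl_nil, step, nst, ntk, emit, Term.constr,
        List.length_append, List.length_replicate, List.length_singleton, h1, pop_push, top_push,
        h2]
      rw [← List.replicate_succ]
      have e1 : o + (s.enc.length + t.enc.length + 1) - 1 = o + s.enc.length + t.enc.length := by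
        omega
      have e2 : o + (s.enc.length + t.enc.length + 1) = o + s.enc.length + t.enc.length + 1 := by
        omega
      rw [e1, e2]
      simp [encArith]
  | mul s t ihs iht =>
      intro o st out h
      simp only [Term.enc, List.length_append, List.length_singleton] at h
      rw [Term.enc, run_append, run_append, ihs o st out (by omega), iht _ _ _ (by omega)]
      have hs : 1 ≤ s.enc.length := enc_pos s
      have ht : 1 ≤ t.enc.length := enc_pos t
      have h1 : min (o + s.enc.length + t.enc.length) a.length
        = o + s.enc.length + t.enc.length := by omega
      have h2 : min (o + s.enc.length - 1) a.length = o + s.enc.length - 1 := by omega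
      simp only [run, List.foldl_cons, List.foldl_nil, step, nst, ntk, emit, Term.constr,
        List.length_append, List.length_replicate, List.length_singleton, h1, pop_push, top_push,
        h2]
      rw [← List.replicate_succ]
      have e1 : o + (s.enc.length + t.enc.length + 1) - 1 = o + s.enc.length + t.enc.length := by
        omega
      have e2 : o + (s.enc.length + t.enc.length + 1) = o + s.enc.length + t.enc.length + 1 := by
        omega
      rw [e1, e2]
      simp [encArith]

theorem fenc_pos (φ : Formula) : 1 ≤ φ.enc.length := by
  cases φ <;> simp [Formula.enc] <;> omega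

/-- the state after a finished subformula -/
theorem run_formula (a : List Sym) (φ : Formula) : ∀ (o : ℕ) (st out : List Sym),
    o + φ.enc.length ≤ a.length →
    run a φ.enc (List.replicate o Sym.tick, st, [], out) =
      (List.replicate (o + φ.enc.length) Sym.tick, push (o + φ.enc.length - 1) st, [],
        out ++ encArith (φ.constr o)) := by
  induction φ with
  | eq s t =>
      intro o st out h
      simp only [Formula.enc, List.length_append, List.length_singleton] at h
      rw [Formula.enc, run_append, run_append, run_term a s o st out (by omega),
        run_term a t _ _ _ (by omega)]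
      have hs : 1 ≤ s.enc.length := enc_pos s
      have ht : 1 ≤ t.enc.length := enc_pos t
      have h1 : min (o + s.enc.length + t.enc.length) a.length
        = o + s.enc.length + t.enc.length := by omega
      have h2 : min (o + s.enc.length - 1) a.length = o + s.enc.length - 1 := by omega
      simp only [run, List.foldl_cons, List.foldl_nil, step, nst, ntk, emit, Formula.constr,
        List.length_append, List.length_replicate, List.length_singleton, h1, pop_push, top_push,
        h2]
      rw [← List.replicate_succ]
      have e1 : o + (s.enc.length + t.enc.length + 1) - 1 = o + s.enc.length + t.enc.length := by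
        omega
      have e2 : o + (s.enc.length + t.enc.length + 1) = o + s.enc.length + t.enc.length + 1 := by
        omega
      rw [e1, e2]
      simp [encArith]
  | lt s t =>
      intro o st out h
      simp only [Formula.enc, List.length_append, List.length_singleton] at h
      rw [Formula.enc, run_append, run_append, run_term a s o st out (by omega),
        run_term a t _ _ _ (by omega)]
      have hs : 1 ≤ s.enc.length := enc_pos s
      have ht : 1 ≤ t.enc.length := enc_pos t
      have h1 : min (o + s.enc.length + t.enc.length) a.length
        = o + s.enc.length + t.enc.length := by omega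
      have h2 : min (o + s.enc.length - 1) a.length = o + s.enc.length - 1 := by omega
      simp only [run, List.foldl_cons, List.foldl_nil, step, nst, ntk, emit, Formula.constr,
        List.length_append, List.length_replicate, List.length_singleton, h1, pop_push, top_push,
        h2]
      rw [← List.replicate_succ]
      have e1 : o + (s.enc.length + t.enc.length + 1) - 1 = o + s.enc.length + t.enc.length := by
        omega
      have e2 : o + (s.enc.length + t.enc.length + 1) = o + s.enc.length + t.enc.length + 1 := by
        omega
      rw [e1, e2]
      simp [encArith]
  | not s ihs =>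
      intro o st out h
      simp only [Formula.enc, List.length_append, List.length_singleton] at h
      rw [Formula.enc, run_append, ihs o st out (by omega)]
      have hs : 1 ≤ s.enc.length := fenc_pos s
      have h1 : min (o + s.enc.length) a.length = o + s.enc.length := by omega
      simp only [run, List.foldl_cons, List.foldl_nil, step, nst, ntk, emit, Formula.constr,
        List.length_append, List.length_replicate, List.length_singleton, h1, pop_push]
      rw [← List.replicate_succ]
      have e1 : o + (s.enc.length + 1) - 1 = o + s.enc.length := by omega
      have e2 : o + (s.enc.length + 1) = o + s.enc.length + 1 := by omega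
      rw [e1, e2]
      simp [encArith]
  | and s t ihs iht =>
      intro o st out h
      simp only [Formula.enc, List.length_append, List.length_singleton] at h
      rw [Formula.enc, run_append, run_append, ihs o st out (by omega), iht _ _ _ (by omega)]
      have hs : 1 ≤ s.enc.length := fenc_pos s
      have ht : 1 ≤ t.enc.length := fenc_pos t
      have h1 : min (o + s.enc.length + t.enc.length) a.length
        = o + s.enc.length + t.enc.length := by omega
      have h2 : min (o + s.enc.length - 1) a.length = o + s.enc.length - 1 := by omega
      simp only [run, List.foldl_cons, List.foldl_nil, step, nst, ntk, emit, Formula.constr,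
        List.length_append, List.length_replicate, List.length_singleton, h1, pop_push, top_push,
        h2]
      rw [← List.replicate_succ]
      have e1 : o + (s.enc.length + t.enc.length + 1) - 1 = o + s.enc.length + t.enc.length := by
        omega
      have e2 : o + (s.enc.length + t.enc.length + 1) = o + s.enc.length + t.enc.length + 1 := by
        omega
      rw [e1, e2]
      simp [encArith]
  | or s t ihs iht =>
      intro o st out h
      simp only [Formula.enc, List.length_append, List.length_singleton] at h
      rw [Formula.enc, run_append, run_append, ihs o st out (by omega), iht _ _ _ (by omega)]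
      have hs : 1 ≤ s.enc.length := fenc_pos s
      have ht : 1 ≤ t.enc.length := fenc_pos t
      have h1 : min (o + s.enc.length + t.enc.length) a.length
        = o + s.enc.length + t.enc.length := by omega
      have h2 : min (o + s.enc.length - 1) a.length = o + s.enc.length - 1 := by omega
      simp only [run, List.foldl_cons, List.foldl_nil, step, nst, ntk, emit, Formula.constr,
        List.length_append, List.length_replicate, List.length_singleton, h1, pop_push, top_push,
        h2]
      rw [← List.replicate_succ]
      have e1 : o + (s.enc.length + t.enc.length + 1) - 1 = o + s.enc.length + t.enc.length := by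
        omega
      have e2 : o + (s.enc.length + t.enc.length + 1) = o + s.enc.length + t.enc.length + 1 := by
        omega
      rw [e1, e2]
      simp [encArith]

/-- the printing function -/
def F (s : List Sym) : List Sym :=
  (s.foldl (fun x c => step c (x, s)) (([], [], [], []) : St)).2.2.2 ++
    encConstr (cAdd (vi (s.length - 1) 0) (vi (s.length - 1) 0) (vi (s.length - 1) 0))

theorem P_F : C.P F := by
  have h := PolyClass.P.foldlAdd (C := C) (l := fun a : List Sym => a)
    (s₀ := fun _ => (([], [], [], []) : St)) (step := step) (401 * X + 503) C.id'
    ((C.const []).pair ((C.const []).pair ((C.const []).pair (C.const [])))) P_step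
    (fun c s a => step_size c s a)
  have hl : C.N (fun a : List Sym => a.length) := PolyClass.P.length C.id'
  have hv := N_vi (hl.sub (PolyClass.N.const C 1)) 0
  exact h.snd.snd.snd.append (P_encAdd hv hv hv)

end Print1

/-- P-ETR -/
theorem print1 : TargetPrint1 := by
  intro C
  refine ⟨Print1.F, Print1.P_F, fun φ => ?_⟩
  have h := Print1.run_formula φ.enc φ 0 [] [] (by omega)
  unfold Print1.F
  have h2 : φ.enc.foldl (fun x c => Print1.step c (x, φ.enc)) (([], [], [], []) : Print1.St)
      = Print1.run φ.enc φ.enc (List.replicate 0 Sym.tick, [], [], []) := rfl
  rw [h2, h]
  simp [Formula.system, encArith]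

end Pool.Agent.PAH
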