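import Pool.Agent.PAH.ToolsB

set_option autoImplicit false

/-!
# Printing the fabric
-/

namespace Pool.Agent.PAH.Print3

open Sym PolyClass

variable {C : PolyClass Sym} {α β : Type} [Ctx Sym α] [Ctx Sym β]

/-! ## Vertices -/

/-- printed vertex -/
def vstr (v : VX) : List Sym := encBits (vname v) ++ [comma]

/-- printed face -/
def encF (f : List VX × ℕ) : List Sym := encWalk (f.1.map vname) ++ encRat ((f.2 : ℕ) : ℚ)

lemma encF_eq (f : List VX × ℕ) :
    encF f = f.1.flatMap vstr ++ ([semi] ++ (encBits f.2.bits ++ [slash, bit true, semi])) := by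
  unfold encF encWalk encRat
  have h1 : ((f.2 : ℕ) : ℚ).num.toNat = f.2 := by simp
  have h2 : ((f.2 : ℕ) : ℚ).den = 1 := by simp
  rw [h1, h2]
  simp [List.flatMap_map, Nat.one_bits]
  rfl

/-- a vertex valued function with unary coordinates -/
structure Vx (C : PolyClass Sym) (v : α → VX) : Prop where
  x : C.N (fun a => (v a).1)
  y : C.N (fun a => (v a).2.1)
  z : C.N (fun a => (v a).2.2)

lemma Vx.const (v : VX) : Vx C (fun _ : α => v) := ⟨N.const C _, N.const C _, N.const C _⟩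

lemma Vx.pt {u v : α → ℕ} (hu : C.N u) (hv : C.N v) : Vx C (fun a => pt (u a) (v a)) :=
  ⟨hu, hv, N.const C 0⟩

lemma P_vstr {v : α → VX} (hv : Vx C v) : C.P (fun a => vstr (v a)) := by
  have h := (hv.x.rep (bit true)).append (((hv.y.rep (bit true)).append
    (((hv.z.rep (bit true)).append (C.const [comma])).cons (bit false))).cons (bit false))
  refine h.congr fun a => ?_
  simp [vstr, vname, encBits]

/-! ## Walks -/

/-- a walk which can be printed -/
def Wk (C : PolyClass Sym) (w : α → List VX) : Prop := C.P (fun a => (w a).flatMap vstr)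

lemma Wk.nil : Wk C (fun _ : α => ([] : List VX)) := C.const _

lemma Wk.cons {v : α → VX} {w : α → List VX} (hv : Vx C v) (hw : Wk C w) :
    Wk C (fun a => v a :: w a) :=
  ((P_vstr hv).append hw).congr fun a => by simp [List.flatMap_cons]

lemma Wk.append {w w' : α → List VX} (h : Wk C w) (h' : Wk C w') :
    Wk C (fun a => w a ++ w' a) :=
  (P.append h h').congr fun a => by simp

lemma Wk.loop {u : α → ℕ} {w : ℕ → α → List VX} (hu : C.N u)
    (hw : Wk C (fun x : List Sym × α => w x.1.length x.2)) :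
    Wk C (fun a => (List.range (u a)).flatMap fun i => w i a) :=
  (P.flatRange (body := fun i a => (w i a).flatMap vstr) hu hw).congr fun a => by
    rw [List.flatMap_assoc]

lemma Wk.revloop {u : α → ℕ} {w : ℕ → α → List VX} (hu : C.N u)
    (hw : Wk C (fun x : List Sym × α => w x.1.length x.2)) :
    Wk C (fun a => (List.range (u a)).reverse.flatMap fun i => w i a) :=
  (P.flatRangeRev (body := fun i a => (w i a).flatMap vstr) hu hw).congr fun a => by
    rw [List.flatMap_assoc]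

lemma flatMap_singleton' {A B : Type} (l : List A) (f : A → B) :
    l.flatMap (fun a => [f a]) = l.map f := by
  induction l with
  | nil => rfl
  | cons a l ih => simp [List.flatMap_cons, ih]

lemma Wk.loop' {u : α → ℕ} {v : ℕ → α → VX} (hu : C.N u)
    (hv : Vx C (fun x : List Sym × α => v x.1.length x.2)) :
    Wk C (fun a => (List.range (u a)).map fun i => v i a) := by
  have := Wk.loop (w := fun i a => [v i a]) hu (Wk.cons hv Wk.nil)
  simpa only [flatMap_singleton'] using this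

lemma Wk.revloop' {u : α → ℕ} {v : ℕ → α → VX} (hu : C.N u)
    (hv : Vx C (fun x : List Sym × α => v x.1.length x.2)) :
    Wk C (fun a => (List.range (u a)).reverse.map fun i => v i a) := by
  have := Wk.revloop (w := fun i a => [v i a]) hu (Wk.cons hv Wk.nil)
  simpa only [flatMap_singleton'] using this

/-! ## Faces -/

lemma P_encF {w : α → List VX} {N : α → ℕ} (hw : Wk C w) (hN : C.B N) :
    C.P (fun a => encF (w a, N a)) :=
  (P.append hw (P.cons (hN.bits.append (C.const [slash, bit true, semi])) semi)).congr fun a => by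
    rw [encF_eq]
    simp

/-- a list of faces which can be printed -/
def Fs (C : PolyClass Sym) (L : α → List (List VX × ℕ)) : Prop := C.P (fun a => (L a).flatMap encF)

lemma Fs.nil : Fs C (fun _ : α => ([] : List (List VX × ℕ))) := C.const _

lemma Fs.cons {w : α → List VX} {N : α → ℕ} {L : α → List (List VX × ℕ)} (hw : Wk C w)
    (hN : C.B N) (hL : Fs C L) : Fs C (fun a => (w a, N a) :: L a) :=
  ((P_encF hw hN).append hL).congr fun a => by rw [List.flatMap_cons]

/-- a list of plain faces which can be printed, after multiplication with the unit of area -/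
def Fz (C : PolyClass Sym) (Z : α → ℕ) (L : α → List (List VX × ℕ)) : Prop :=
  C.P (fun a => (L a).flatMap fun f => encF (f.1, f.2 * Z a))

lemma Fz.nil {Z : α → ℕ} : Fz C Z (fun _ : α => ([] : List (List VX × ℕ))) := by
  unfold Fz
  exact C.const _

lemma Fz.cons {Z : α → ℕ} (hZ : C.B Z) {w : α → List VX} {N : α → ℕ}
    {L : α → List (List VX × ℕ)} (hw : Wk C w)
    (hN : C.B N) (hL : Fz C Z L) : Fz C Z (fun a => (w a, N a) :: L a) :=
  ((P_encF hw (hN.mul hZ)).append hL).congr fun a => by rw [List.flatMap_cons]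

lemma Fz.append {Z : α → ℕ} {L L' : α → List (List VX × ℕ)} (h : Fz C Z L) (h' : Fz C Z L') :
    Fz C Z (fun a => L a ++ L' a) :=
  (P.append h h').congr fun a => by rw [List.flatMap_append]

lemma Fz.loop {Z : α → ℕ} {u : α → ℕ} {L : ℕ → α → List (List VX × ℕ)} (hu : C.N u)
    (hL : Fz C (fun x : List Sym × α => Z x.2) (fun x => L x.1.length x.2)) :
    Fz C Z (fun a => (List.range (u a)).flatMap fun i => L i a) :=
  (P.flatRange (body := fun i a => (L i a).flatMap fun f : List VX × ℕ => encF (f.1, f.2 * Z a)) hu hL).congr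
    fun a => by rw [List.flatMap_assoc]

lemma Fz.ite {Z : α → ℕ} {p : α → Prop} [DecidablePred p] (hp : C.D p)
    {L L' : α → List (List VX × ℕ)}
    (h : Fz C Z L) (h' : Fz C Z L') : Fz C Z (fun a => if p a then L a else L' a) :=
  (D.ite hp h h').congr fun a => by dsimp only; split_ifs <;> rfl

/-! ## Macros -/

/-- a quad with unary data -/
structure QV (C : PolyClass Sym) (q : α → Quad) : Prop where
  x : C.N (fun a => (q a).x)
  y : C.N (fun a => (q a).y)
  t : C.N (fun a => (q a).t)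
  a : Vx C (fun a => (q a).a)
  b : Vx C (fun a => (q a).b)
  c : Vx C (fun a => (q a).c)
  d : Vx C (fun a => (q a).d)
  M : C.N (fun a => (q a).M)

lemma QV.mk' {x y t M : α → ℕ} {a b c d : α → VX} (hx : C.N x) (hy : C.N y) (ht : C.N t)
    (ha : Vx C a) (hb : Vx C b) (hc : Vx C c) (hd : Vx C d) (hM : C.N M) :
    QV C (fun i => (⟨x i, y i, t i, a i, b i, c i, d i, M i⟩ : Quad)) :=
  ⟨hx, hy, ht, ha, hb, hc, hd, hM⟩

lemma QV.iv {q : α → Quad} (h : QV C q) (k : ℕ) : Vx C (fun a => (q a).iv k) :=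
  ⟨h.x, h.y, ((N.const C 6).mul h.t).add (N.const C k)⟩

lemma Wk.three {u v w : α → VX} (hu : Vx C u) (hv : Vx C v) (hw : Vx C w) :
    Wk C (fun a => [u a, v a, w a]) := Wk.cons hu (Wk.cons hv (Wk.cons hw Wk.nil))

/-- a large number which can be printed -/
structure Big (C : PolyClass Sym) (T : α → ℕ) : Prop where
  b : C.B T
  large : ∀ a, 64 ≤ T a

lemma sub5 (T : ℕ) (hT : 64 ≤ T) : 12 * T ^ 2 + 15 * T + 3 ≤ 4 * T ^ 3 := by
  obtain ⟨s, rfl⟩ := Nat.exists_eq_add_of_le hT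
  have : 4 * (64 + s) ^ 3 = 12 * (64 + s) ^ 2 + 15 * (64 + s) + 3 +
    (4 * s ^ 3 + 756 * s ^ 2 + 47601 * s + 998461) := by ring
  omega

lemma sub6 (T : ℕ) (hT : 64 ≤ T) : 56 * T ^ 4 + 18 * T ^ 3 ≤
    32 * T ^ 6 + 12 * T ^ 2 + 15 * T + 3 := by
  obtain ⟨s, rfl⟩ := Nat.exists_eq_add_of_le hT
  have h1 : 56 * (64 + s) ^ 4 + 18 * (64 + s) ^ 3 ≤ 74 * (64 + s) ^ 4 := by
    have : 18 * (64 + s) ^ 3 ≤ 18 * (64 + s) ^ 4 := by
      apply Nat.mul_le_mul_left
      exact Nat.pow_le_pow_right (by omega) (by norm_num)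
    omega
  have h2 : 74 * (64 + s) ^ 4 ≤ 32 * (64 + s) ^ 6 := by
    have e : 32 * (64 + s) ^ 6 = 32 * (64 + s) ^ 2 * (64 + s) ^ 4 := by ring
    rw [e]
    apply Nat.mul_le_mul_right
    nlinarith
  omega

lemma sub7 (T : ℕ) (hT : 64 ≤ T) : 24 * T ^ 3 ≤ 64 * T ^ 6 := by
  have e : 64 * T ^ 6 = 64 * T ^ 3 * T ^ 3 := by ring
  rw [e]
  apply Nat.mul_le_mul_right
  have : 1 ≤ T ^ 3 := Nat.one_le_pow _ _ (by omega)
  omega

section areas

variable {T : α → ℕ} (h : Big C T)
include h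

lemma Big.mono (c k : ℕ) : C.B (fun a => c * T a ^ k) := (B.const C c).mul (h.b.pow k)
lemma Big.lin (c : ℕ) : C.B (fun a => c * T a) := (B.const C c).mul h.b

lemma B1 : C.B (fun a => mA1 (T a)) := h.mono 64 6
lemma B2 : C.B (fun a => mA2 (T a)) := h.mono 8 3
lemma B3 : C.B (fun a => mA3 (T a)) := (h.mono 64 6).add (h.mono 32 4)
lemma B4 : C.B (fun a => mA4 (T a)) := ((h.mono 32 6).add (h.mono 24 4)).add (h.mono 30 3)
lemma B5 : C.B (fun a => mA5 (T a)) :=
  (h.mono 4 3).sub (((h.mono 12 2).add (h.lin 15)).add (B.const C 3)) fun a => sub5 _ (h.large a)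
lemma B6 : C.B (fun a => mA6 (T a)) :=
  ((((h.mono 32 6).add (h.mono 12 2)).add (h.lin 15)).add (B.const C 3)).sub
    ((h.mono 56 4).add (h.mono 18 3)) fun a => sub6 _ (h.large a)
lemma B7 : C.B (fun a => mA7 (T a)) := (h.mono 64 6).sub (h.mono 24 3) fun a => sub7 _ (h.large a)
lemma BZ : C.B (fun a => mZ (T a)) := h.mono 256 6

end areas

lemma P_macro {T : α → ℕ} (hT : Big C T) {q : α → Quad} (h : QV C q) :
    Fs C (fun a => macroFaces (T a) (q a)) := by
  have hM := h.M.toB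
  have b1 := (B1 hT).mul hM
  have b2 := (B2 hT).mul hM
  have b3 := (B3 hT).mul hM
  have b4 := (B4 hT).mul hM
  have b5 := (B5 hT).mul hM
  have b6 := (B6 hT).mul hM
  have b7 := (B7 hT).mul hM
  unfold macroFaces
  exact Fs.cons (Wk.three h.b h.c (h.iv 1)) b1
    (Fs.cons (Wk.three h.b (h.iv 1) (h.iv 2)) b2
    (Fs.cons (Wk.three h.b (h.iv 2) h.a) b3
    (Fs.cons (Wk.three h.c (h.iv 3) (h.iv 1)) b4
    (Fs.cons (Wk.three (h.iv 3) (h.iv 2) (h.iv 1)) b5
    (Fs.cons (Wk.three h.a (h.iv 2) (h.iv 3)) b6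
    (Fs.cons (Wk.three h.d h.a (h.iv 4)) b1
    (Fs.cons (Wk.three h.d (h.iv 4) (h.iv 5)) b2
    (Fs.cons (Wk.three h.d (h.iv 5) h.c) b3
    (Fs.cons (Wk.three h.a (h.iv 6) (h.iv 4)) b4
    (Fs.cons (Wk.three (h.iv 6) (h.iv 5) (h.iv 4)) b5
    (Fs.cons (Wk.three h.c (h.iv 5) (h.iv 6)) b6
    (Fs.cons (Wk.three h.a (h.iv 3) (h.iv 6)) b7
    (Fs.cons (Wk.three h.c (h.iv 6) (h.iv 3)) b7 Fs.nil)))))))))))))

/-- a list of quads whose macros can be printed -/
def Qs (C : PolyClass Sym) (T : α → ℕ) (L : α → List Quad) : Prop :=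
  C.P (fun a => (L a).flatMap fun q => (macroFaces (T a) q).flatMap encF)

lemma Qs.nil {T : α → ℕ} : Qs C T (fun _ : α => ([] : List Quad)) := by
  unfold Qs
  exact C.const _

lemma Qs.cons {T : α → ℕ} (hT : Big C T) {q : α → Quad} {L : α → List Quad}
    (hq : QV C q) (hL : Qs C T L) : Qs C T (fun a => q a :: L a) :=
  ((P_macro hT hq).append hL).congr fun a => by rw [List.flatMap_cons]

lemma Qs.append {T : α → ℕ} {L L' : α → List Quad} (h : Qs C T L) (h' : Qs C T L') :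
    Qs C T (fun a => L a ++ L' a) :=
  (P.append h h').congr fun a => by rw [List.flatMap_append]

lemma Qs.loop {T : α → ℕ} {u : α → ℕ} {L : ℕ → α → List Quad} (hu : C.N u)
    (hL : Qs C (fun x : List Sym × α => T x.2) (fun x => L x.1.length x.2)) :
    Qs C T (fun a => (List.range (u a)).flatMap fun i => L i a) :=
  (P.flatRange (body := fun i a => (L i a).flatMap fun q =>
    (macroFaces (T a) q).flatMap encF) hu hL).congr fun a => by rw [List.flatMap_assoc]

lemma Qs.ite {T : α → ℕ} {p : α → Prop} [DecidablePred p] (hp : C.D p) {L L' : α → List Quad}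
    (h : Qs C T L) (h' : Qs C T L') : Qs C T (fun a => if p a then L a else L' a) :=
  (D.ite hp h h').congr fun a => by dsimp only; split_ifs <;> rfl

lemma Big.snd {T : α → ℕ} (hT : Big C T) : Big C (fun x : List Sym × α => T x.2) :=
  ⟨hT.b.comp C.snd, fun x => hT.large x.2⟩

lemma N_idx : C.N (fun x : List Sym × α => x.1.length) := P.length C.fst
lemma N_snd {u : α → ℕ} (hu : C.N u) : C.N (fun x : List Sym × α => u x.2) := hu.comp C.snd

/-! ## The quads -/

lemma QV_unit {u v : α → ℕ} (hu : C.N u) (hv : C.N v) : QV C (fun a => unitQ (u a) (v a)) := by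
  have h1 := N.const (α := α) C 1
  unfold unitQ
  exact QV.mk' hu hv (N.const C 0) (Vx.pt hu hv) (Vx.pt (hu.add h1) hv)
    (Vx.pt (hu.add h1) (hv.add h1)) (Vx.pt hu (hv.add h1)) (N.const C 1)

lemma QV_wide {u v : α → ℕ} (hu : C.N u) (hv : C.N v) : QV C (fun a => wideQ (u a) (v a)) := by
  have h1 := N.const (α := α) C 1
  have h2 := N.const (α := α) C 2
  unfold wideQ
  exact QV.mk' hu hv (N.const C 0) (Vx.pt hu hv) (Vx.pt (hu.add h2) hv)
    (Vx.pt (hu.add h2) (hv.add h1)) (Vx.pt hu (hv.add h1)) (N.const C 2)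

lemma QV_tall {u v : α → ℕ} (hu : C.N u) (hv : C.N v) : QV C (fun a => tallQ (u a) (v a)) := by
  have h1 := N.const (α := α) C 1
  have h2 := N.const (α := α) C 2
  unfold tallQ
  exact QV.mk' hu hv (N.const C 0) (Vx.pt hu hv) (Vx.pt (hu.add h1) hv)
    (Vx.pt (hu.add h1) (hv.add h2)) (Vx.pt hu (hv.add h2)) (N.const C 2)

lemma three_mul_N {u : α → ℕ} (hu : C.N u) : C.N (fun a => 3 * u a) := (N.const C 3).mul hu

/-- the quads of the frame -/
lemma Qs_frame {T I J : α → ℕ} (hT : Big C T) (hI : C.N I) (hJ : C.N J) :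
    Qs C T (fun a => frameQuads (I a) (J a)) := by
  have k := fun (n : ℕ) => N.const (α := α) C n
  have k' := fun (n : ℕ) => N.const (α := List Sym × α) C n
  have i := N_idx (C := C) (α := α)
  have s := hT.snd
  unfold frameQuads
  refine Qs.append (Qs.append (Qs.append (Qs.loop (three_mul_N hI) ?_) ?_)
    (Qs.loop ((three_mul_N hJ).add (k 1)) ?_)) ?_
  · exact Qs.cons s (QV.mk' (k' 3) (i.add (k' 3)) (k' 1) (Vx.pt (k' 3) (i.add (k' 3)))
      (Vx.pt (k' 2) (i.add (k' 2))) (Vx.pt (k' 2) (i.add (k' 1))) (Vx.pt (k' 3) (i.add (k' 2)))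
      (k' 1)) (Qs.cons s (QV.mk' (k' 2) (i.add (k' 2)) (k' 1) (Vx.pt (k' 2) (i.add (k' 2)))
      (Vx.pt (k' 0) (i.add (k' 1))) (Vx.pt (k' 0) i) (Vx.pt (k' 2) (i.add (k' 1))) (k' 2)) Qs.nil)
  · exact Qs.cons hT (QV.mk' (k 3) (k 2) (k 1) (Vx.const _) (Vx.const _) (Vx.const _)
      (Vx.const _) (k 2)) (Qs.cons hT (QV.mk' (k 2) (k 1) (k 1) (Vx.const _) (Vx.const _)
      (Vx.const _) (Vx.const _) (k 2)) Qs.nil)
  · exact Qs.cons s (QV.mk' (i.add (k' 5)) (k' 2) (k' 1) (Vx.pt (i.add (k' 5)) (k' 2))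
      (Vx.pt (i.add (k' 4)) (k' 1)) (Vx.pt (i.add (k' 5)) (k' 1)) (Vx.pt (i.add (k' 6)) (k' 2))
      (k' 1)) (Qs.cons s (QV.mk' (i.add (k' 4)) (k' 1) (k' 1) (Vx.pt (i.add (k' 4)) (k' 1))
      (Vx.pt (i.add (k' 2)) (k' 0)) (Vx.pt (i.add (k' 3)) (k' 0)) (Vx.pt (i.add (k' 5)) (k' 1))
      (k' 1)) Qs.nil)
  · have h3 := three_mul_N hI
    exact Qs.cons hT (QV.mk' (k 3) (h3.add (k 2)) (k 2) (Vx.pt (k 3) (h3.add (k 2)))
      (Vx.pt (k 1) (h3.add (k 1))) (Vx.pt (k 0) h3) (Vx.pt (k 2) (h3.add (k 1))) (k 1))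
      (Qs.cons hT (QV.mk' (k 3) (k 2) (k 0) (Vx.const _) (Vx.const _) (Vx.const _)
      (Vx.const _) (k 2)) Qs.nil)

/-- the quads of a block -/
lemma Qs_block {T I J u v : α → ℕ} (hT : Big C T) (hI : C.N I) (hJ : C.N J) (hu : C.N u)
    (hv : C.N v) : Qs C T (fun a => blockQuads (I a) (J a) (u a) (v a)) := by
  have k := fun (n : ℕ) => N.const (α := α) C n
  have h3 := three_mul_N hu
  have g3 := three_mul_N hv
  unfold blockQuads
  refine Qs.append (Qs.append ?_ (Qs.ite (D.lt hv hJ) ?_ ?_)) (Qs.ite (D.lt (hu.add (k 1)) hI) ?_ ?_)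
  · exact Qs.cons hT (QV_unit (g3.add (k 5)) (h3.add (k 4))) Qs.nil
  · exact Qs.cons hT (QV_unit (g3.add (k 5)) (h3.add (k 2)))
      (Qs.cons hT (QV_unit (g3.add (k 5)) (h3.add (k 3))) Qs.nil)
  · exact Qs.cons hT (QV_tall (g3.add (k 5)) (h3.add (k 2))) Qs.nil
  · exact Qs.cons hT (QV_unit (g3.add (k 3)) (h3.add (k 4)))
      (Qs.cons hT (QV_unit (g3.add (k 4)) (h3.add (k 4))) Qs.nil)
  · exact Qs.cons hT (QV_wide (g3.add (k 3)) (h3.add (k 4))) Qs.nil

lemma Qs_fabric {n m : α → ℕ} (hn : C.N n) (hm : C.N m) {T : α → ℕ} (hT : Big C T) :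
    Qs C T (fun a => fabricQuads (n a) (m a)) := by
  have k := fun (n : ℕ) => N.const (α := α) C n
  unfold fabricQuads
  refine Qs.append (Qs_frame hT (hn.add (k 1)) (hm.add (k 1))) (Qs.loop (hn.add (k 1)) ?_)
  refine Qs.loop (u := fun x : List Sym × α => m x.2 + 2) ((N_snd hm).add (N.const C 2)) ?_
  have hn' := N_snd (N_snd hn)
  have hm' := N_snd (N_snd hm)
  exact Qs_block hT.snd.snd (hn'.add (N.const C 1)) (hm'.add (N.const C 1))
    (N_snd N_idx) N_idx

/-! ## The plain faces -/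

/-- node type encoded by a symbol -/
def tyOf : Option Sym → Ty
  | some one => Ty.A
  | some var => Ty.P
  | _ => Ty.C

lemma P_ty {f : α → List Sym} {n : α → ℕ} (hf : C.P f) (hn : C.N n) {L1 L2 L3 : α → List Sym}
    (h1 : C.P L1) (h2 : C.P L2) (h3 : C.P L3) :
    C.P (fun a => match tyOf ((f a)[n a]?) with
      | .C => L1 a
      | .A => L2 a
      | .P => L3 a) := by
  refine (P.getCases (f₀ := L1) (f₁ := fun c => match c with
    | one => L2
    | var => L3
    | _ => L1) hf hn h1 (fun c => ?_)).congr fun a => ?_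
  · cases c <;> assumption
  · rcases (f a)[n a]? with _ | c
    · rfl
    · cases c <;> rfl

lemma Fz_ty {Z : α → ℕ} {f : α → List Sym} {n : α → ℕ} (hf : C.P f) (hn : C.N n)
    {L1 L2 L3 : α → List (List VX × ℕ)} (h1 : Fz C Z L1) (h2 : Fz C Z L2) (h3 : Fz C Z L3) :
    Fz C Z (fun a => match tyOf ((f a)[n a]?) with
      | .C => L1 a
      | .A => L2 a
      | .P => L3 a) :=
  (P_ty hf hn h1 h2 h3).congr fun a => by
    dsimp only
    cases tyOf ((f a)[n a]?) <;> rfl

/-- the hole faces -/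
lemma Fz_hole {Z I J u v : α → ℕ} {f : α → List Sym} (hZ : C.B Z) (hI : C.N I) (hJ : C.N J)
    (hu : C.N u) (hv : C.N v) (hf : C.P f) (τ : α → ℕ → ℕ → Ty)
    (hτ : ∀ a, τ a (u a + 1) (v a) = tyOf ((f a)[u a]?)) :
    Fz C Z (fun a => holeFaces (I a) (J a) (τ a) (u a) (v a)) := by
  have k := fun (n : ℕ) => N.const (α := α) C n
  have b := fun (n : ℕ) => B.const (α := α) C n
  have y0 := (three_mul_N hu).add (k 2)
  have x0 := (three_mul_N hv).add (k 3)
  have x1 := x0.add (k 1)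
  have x2 := x0.add (k 2)
  have y1 := y0.add (k 1)
  have y2 := y0.add (k 2)
  have sw := Vx.pt x0 y0
  have S := Vx.pt x1 y0
  have se := Vx.pt x2 y0
  have W := Vx.pt x0 y1
  have z := Vx.pt x1 y1
  have E := Vx.pt x2 y1
  have nw := Vx.pt x0 y2
  have N := Vx.pt x1 y2
  have ne := Vx.pt x2 y2
  have q := Vx.const (C := C) (α := α) vq
  unfold holeFaces
  simp only [hτ]
  refine Fz.ite (D.eq hv (k 0)) (Fz.ite (D.eq hu (k 0)) ?_
    (Fz.ite (D.lt (hu.add (k 1)) hI) ?_ ?_)) (Fz.ite (D.eq hv hJ)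
    (Fz.ite (D.lt (hu.add (k 1)) hI) ?_ ?_) (Fz.ite (D.eq (hu.add (k 1)) hI) ?_
    (Fz_ty hf hu ?_ ?_ ?_)))
  · exact Fz.cons hZ (Wk.cons q (Wk.cons se (Wk.cons E (Wk.cons ne (Wk.cons N
      (Wk.cons nw (Wk.cons W Wk.nil))))))) (b 4) Fz.nil
  · exact Fz.cons hZ (Wk.cons E (Wk.cons ne (Wk.cons N (Wk.cons nw (Wk.cons W
      (Wk.cons sw (Wk.cons S (Wk.cons se Wk.nil)))))))) (b 8) Fz.nil
  · exact Fz.cons hZ (Wk.cons E (Wk.cons ne (Wk.cons nw (Wk.cons W
      (Wk.cons sw (Wk.cons S (Wk.cons se Wk.nil))))))) (b 8) Fz.nil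
  · exact Fz.cons hZ (Wk.cons W (Wk.cons sw (Wk.cons S (Wk.cons se (Wk.cons ne
      (Wk.cons N (Wk.cons nw Wk.nil))))))) (b 8) Fz.nil
  · exact Fz.cons hZ (Wk.cons W (Wk.cons sw (Wk.cons S (Wk.cons se (Wk.cons ne
      (Wk.cons nw Wk.nil)))))) (b 8) Fz.nil
  · exact Fz.cons hZ (Wk.cons z (Wk.cons nw (Wk.cons W (Wk.cons sw Wk.nil)))) (b 2)
      (Fz.cons hZ (Wk.cons z (Wk.cons sw (Wk.cons S (Wk.cons se Wk.nil)))) (b 2)
      (Fz.cons hZ (Wk.cons z (Wk.cons se (Wk.cons E (Wk.cons ne Wk.nil)))) (b 2)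
      (Fz.cons hZ (Wk.cons z (Wk.cons ne (Wk.cons nw Wk.nil))) (b 2) Fz.nil)))
  · exact Fz.cons hZ (Wk.cons z (Wk.cons nw (Wk.cons W (Wk.cons sw Wk.nil)))) (b 2)
      (Fz.cons hZ (Wk.cons z (Wk.cons sw (Wk.cons S (Wk.cons se Wk.nil)))) (b 2)
      (Fz.cons hZ (Wk.cons z (Wk.cons se (Wk.cons E (Wk.cons ne Wk.nil)))) (b 2)
      (Fz.cons hZ (Wk.cons z (Wk.cons ne (Wk.cons N (Wk.cons nw Wk.nil)))) (b 2) Fz.nil)))
  · exact Fz.cons hZ (Wk.cons N (Wk.cons nw (Wk.cons W (Wk.cons sw (Wk.cons S Wk.nil))))) (b 4)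
      (Fz.cons hZ (Wk.cons S (Wk.cons se (Wk.cons E (Wk.cons ne (Wk.cons N Wk.nil))))) (b 4)
        Fz.nil)
  · exact Fz.cons hZ (Wk.cons z (Wk.cons nw (Wk.cons W (Wk.cons sw Wk.nil)))) (b 2)
      (Fz.cons hZ (Wk.cons z (Wk.cons ne (Wk.cons N (Wk.cons nw Wk.nil)))) (b 2)
      (Fz.cons hZ (Wk.cons z (Wk.cons sw (Wk.cons S Wk.nil))) (b 1)
      (Fz.cons hZ (Wk.cons z (Wk.cons S (Wk.cons se (Wk.cons E (Wk.cons ne Wk.nil))))) (b 3)
        Fz.nil)))

/-- the faces outside -/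
lemma Fz_outer {Z I J : α → ℕ} (hZ : C.B Z) (hI : C.N I) (hJ : C.N J) :
    Fz C Z (fun a => outerFaces (I a) (J a)) := by
  have k := fun (n : ℕ) => N.const (α := α) C n
  have k' := fun (n : ℕ) => N.const (α := List Sym × α) C n
  have c := fun (v : VX) => Vx.const (C := C) (α := α) v
  have i := N_idx (C := C) (α := α)
  have i3 := three_mul_N i
  have hI3 := three_mul_N hI
  have hJ3 := three_mul_N hJ
  have bI := hI.toB
  have bJ := hJ.toB
  have b := fun (n : ℕ) => B.const (α := α) C n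
  unfold outerFaces
  refine Fz.cons hZ ?_ ?_ (Fz.cons hZ ?_ ?_ (Fz.cons hZ ?_ ?_ Fz.nil))
  · exact Wk.append (Wk.append (Wk.cons (c vo1) (Wk.cons (Vx.pt (hJ3.add (k 5)) (k 1)) Wk.nil))
      (Wk.revloop' (hJ3.add (k 2)) (Vx.pt (i.add (k' 2)) (k' 0))))
      (Wk.cons (c _) (Wk.cons (c vo3) Wk.nil))
  · exact (((((b 36).mul bI).mul bJ).add ((b 36).mul (bJ.pow 2))).add ((b 75).mul bI)).add
      ((b 141).mul bJ) |>.add (b 143)
  · exact Wk.append (Wk.append (Wk.cons (c vo2) Wk.nil) (Wk.revloop hI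
      (Wk.cons (Vx.pt ((N_snd hJ3).add (k' 6)) (i3.add (k' 5)))
      (Wk.cons (Vx.pt ((N_snd hJ3).add (k' 6)) (i3.add (k' 4))) Wk.nil))))
      (Wk.cons (Vx.pt (hJ3.add (k 6)) (k 2)) (Wk.cons (Vx.pt (hJ3.add (k 5)) (k 1))
      (Wk.cons (c vo1) Wk.nil)))
  · exact (((((b 180).mul (bI.pow 2)).add ((b 108).mul (bJ.pow 2))).add
      (((b 270).mul bI).mul bJ)).add ((b 573).mul bI)).add ((b 456).mul bJ) |>.add (b 480)
  · exact Wk.append (Wk.append (Wk.append (Wk.append (Wk.cons (c vo3) Wk.nil)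
      (Wk.loop' (hI3.add (k 1)) (Vx.pt (k' 0) i)))
      (Wk.cons (Vx.pt (k 1) (hI3.add (k 1))) (Wk.cons (Vx.pt (k 3) (hI3.add (k 2))) Wk.nil)))
      (Wk.loop (hJ.add (k 1)) (Wk.cons (Vx.pt (i3.add (k' 5)) ((N_snd hI3).add (k' 2)))
      (Wk.cons (Vx.pt (i3.add (k' 6)) ((N_snd hI3).add (k' 2))) Wk.nil))))
      (Wk.cons (c vo2) Wk.nil)
  · exact (((b 15).mul bI).add ((b 15).mul bJ)).add (b 38)

/-- all plain faces; the node types are read off from a string -/
lemma Fz_plain {Z n m : α → ℕ} {f : ℕ → α → List Sym} (hZ : C.B Z) (hn : C.N n) (hm : C.N m)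
    (hf : C.P (fun x : List Sym × α => f x.1.length x.2)) :
    Fz C Z (fun a => fabricPlain (n a) (m a) (fun i j => tyOf ((f j a)[i - 1]?))) := by
  have k := fun (n : ℕ) => N.const (α := α) C n
  unfold fabricPlain
  refine Fz.append (Fz.loop (hn.add (k 1)) ?_) (Fz_outer hZ (hn.add (k 1)) (hm.add (k 1)))
  refine Fz.loop (u := fun x : List Sym × α => m x.2 + 2) ((N_snd hm).add (N.const C 2)) ?_
  have hn' := N_snd (N_snd hn)
  have hm' := N_snd (N_snd hm)
  refine Fz_hole (f := fun x => f x.1.length x.2.2) ((hZ.comp C.snd).comp C.snd)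
    (hn'.add (N.const C 1)) (hm'.add (N.const C 1)) (N_snd N_idx) N_idx
    (C.comp (f := fun x : List Sym × List Sym × α => (x.1, x.2.2)) hf
      (C.pair C.fst (P.snd C.snd))) _ ?_
  intro x
  rfl

/-! ## Decoding the matrix -/

def isC (c : Sym) : Bool := decide (c = comma)

/-- blocks of an encoded matrix -/
def blk : ℕ ⊕ List Ty → List Sym
  | .inl n => List.replicate n tick
  | .inr c => c.map tySym

lemma blk_noC (i : ℕ ⊕ List Ty) : ∀ c ∈ blk i, isC c = false := by
  intro c hc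
  rcases i with n | l
  · rw [blk, List.mem_replicate] at hc
    rw [hc.2]
    rfl
  · rw [blk, List.mem_map] at hc
    obtain ⟨t, -, rfl⟩ := hc
    cases t <;> rfl

lemma enc_eq (X : Matrix') : encMatrix X =
    (Sum.inl X.n :: X.cols.map Sum.inr : List (ℕ ⊕ List Ty)).flatMap
      (fun i => blk i ++ [comma]) := by
  rw [List.flatMap_cons, List.flatMap_map]
  rfl

/-- number of rows of an encoded matrix -/
def nOf (s : List Sym) : ℕ := (nthField isC 0 s).length
/-- number of columns of an encoded matrix -/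
def mOf (s : List Sym) : ℕ := s.countP isC - 1
/-- columns of an encoded matrix -/
def cOf (j : ℕ) (s : List Sym) : List Sym := nthField isC (j - 1 + 1) s

lemma nOf_enc (X : Matrix') : nOf (encMatrix X) = X.n := by
  rw [nOf, enc_eq, nthField_flatMap isC blk comma rfl blk_noC]
  simp [blk]

lemma countP_blk (L : List (ℕ ⊕ List Ty)) :
    (L.flatMap (fun i => blk i ++ [comma])).countP isC = L.length := by
  induction L with
  | nil => rfl
  | cons i L ih =>
    rw [List.flatMap_cons, List.countP_append, ih, List.countP_append, List.length_cons]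
    have h1 : (blk i).countP isC = 0 := by
      rw [List.countP_eq_zero]
      intro c hc
      rw [blk_noC i c hc]
      simp
    have h2 : [comma].countP isC = 1 := rfl
    omega

lemma mOf_enc (X : Matrix') : mOf (encMatrix X) = X.m := by
  rw [mOf, enc_eq, countP_blk]
  simp [Matrix'.m]

lemma tyOf_tySym (t : Ty) : tyOf (some (tySym t)) = t := by cases t <;> rfl

lemma cOf_enc (X : Matrix') (i j : ℕ) : tyOf ((cOf j (encMatrix X))[i - 1]?) = X.τ i j := by
  rw [cOf, enc_eq, nthField_flatMap isC blk comma rfl blk_noC, List.getElem?_cons_succ,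
    List.getElem?_map, Matrix'.τ, List.getD_eq_getElem?_getD, List.getD_eq_getElem?_getD]
  rcases X.cols[j - 1]? with _ | l
  · simp [tyOf]
  · simp only [Option.map_some, Option.elim_some, blk, List.getElem?_map, Option.getD_some]
    rcases l[i - 1]? with _ | t
    · rfl
    · simp only [Option.map_some, tyOf_tySym, Option.getD_some]

/-- the printing function -/
def F (s : List Sym) : List Sym :=
  encWalk (([vo1, vo3, vo2] : List VX).map vname) ++
    (((fabricQuads (nOf s) (mOf s)).flatMap fun q =>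
      (macroFaces (fT (nOf s) (mOf s)) q).flatMap encF) ++
    ((fabricPlain (nOf s) (mOf s) (fun i j => tyOf ((cOf j s)[i - 1]?))).flatMap fun f =>
      encF (f.1, f.2 * mZ (fT (nOf s) (mOf s)))))

lemma P_F : C.P F := by
  have hid : C.P (fun s : List Sym => s) := C.id'
  have hn : C.N nOf := (P.nthField hid (N.const C 0) isC).length
  have hm : C.N mOf := (P.count hid isC).sub (N.const C 1)
  have hK : C.N (fun s : List Sym => fN (nOf s) (mOf s) + 6) :=
    (((N.const C 12).mul ((hn.add hm).add (N.const C 4)))).add (N.const C 6)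
  have hT : Big C (fun s : List Sym => fT (nOf s) (mOf s)) := by
    refine ⟨B.pow2 hK, fun s => ?_⟩
    have : 2 ^ 6 ≤ 2 ^ (fN (nOf s) (mOf s) + 6) := Nat.pow_le_pow_right (by norm_num) (by omega)
    exact this
  have hf : C.P (fun x : List Sym × List Sym => cOf x.1.length x.2) :=
    P.nthField C.snd ((N_idx.sub (N.const C 1)).add (N.const C 1)) isC
  unfold F
  exact P.append (C.const _) (P.append (Qs_fabric hn hm hT) (Fz_plain (BZ hT) hn hm hf))

end Pool.Agent.PAH.Print3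

namespace Pool.Agent.PAH

open Print3 in
theorem target_Print3 : TargetPrint3 := by
  intro C
  refine ⟨F, P_F, fun X => ?_⟩
  have hτ : (fun i j => tyOf ((cOf j (encMatrix X))[i - 1]?)) = X.τ := by
    funext i j
    exact cOf_enc X i j
  rw [F, nOf_enc, mOf_enc, hτ]
  unfold encMap Matrix'.fabric FaceMap.map fabric fabricFaces
  simp only [List.map_append, List.flatMap_append, List.map_map, List.flatMap_map,
    List.flatMap_assoc]
  rfl

end Pool.Agent.PAH
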