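import Pool.Agent.PAH.LPos

set_option autoImplicit false

/-!
# All quads are parallelograms (job F-QUADS)
-/

namespace Pool.Agent.PAH

theorem isPar_of (p : VX → Plane) (q : Quad) (a b c d : Plane) (ha : p q.a = a) (hb : p q.b = b)
    (hc : p q.c = c) (hd : p q.d = d) (h1 : a.1 + c.1 = b.1 + d.1) (h2 : a.2 + c.2 = b.2 + d.2)
    (h3 : det3 a b d = q.M) : IsPar p q := by
  unfold IsPar
  rw [ha, hb, hc, hd]
  exact ⟨Prod.ext h1 h2, h3⟩

theorem targetQuads : TargetQuads := by
  intro n m τ ξ η hB q hq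
  unfold fabricQuads at hq
  rw [List.mem_append] at hq
  rcases hq with hq | hq
  · -- the frame
    unfold frameQuads at hq
    simp only [List.mem_append, List.mem_flatMap, List.mem_range, List.mem_cons,
      List.not_mem_nil, or_false] at hq
    rcases hq with (((⟨y, hy, rfl | rfl⟩ | rfl | rfl) | ⟨x, hx, rfl | rfl⟩) | rfl | rfl)
    · refine isPar_of _ _ _ _ _ _ (lpos_left hB 3 (y + 3) (by omega) (by omega))
        (lpos_left hB 2 (y + 2) (by omega) (by omega)) (lpos_left hB 2 (y + 1) (by omega) (by omega))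
        (lpos_left hB 3 (y + 2) (by omega) (by omega)) ?_ ?_ ?_ <;> simp [det3] <;> ring
    · refine isPar_of _ _ _ _ _ _ (lpos_left hB 2 (y + 2) (by omega) (by omega))
        (lpos_left hB 0 (y + 1) (by omega) (by omega)) (lpos_left hB 0 y (by omega) (by omega))
        (lpos_left hB 2 (y + 1) (by omega) (by omega)) ?_ ?_ ?_ <;> simp [det3] <;> ring
    · refine isPar_of _ _ _ _ _ _ (lpos_low hB 3 2 (by omega)) (lpos_low hB 2 1 (by omega))
        (lpos_low hB 4 1 (by omega)) (lpos_low hB 5 2 (by omega)) ?_ ?_ ?_ <;>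
        norm_num [det3]
    · refine isPar_of _ _ _ _ _ _ (lpos_low hB 2 1 (by omega)) (lpos_low hB 0 0 (by omega))
        (lpos_low hB 2 0 (by omega)) (lpos_low hB 4 1 (by omega)) ?_ ?_ ?_ <;>
        norm_num [det3]
    · refine isPar_of _ _ _ _ _ _ (lpos_low hB (x + 5) 2 (by omega))
        (lpos_low hB (x + 4) 1 (by omega)) (lpos_low hB (x + 5) 1 (by omega))
        (lpos_low hB (x + 6) 2 (by omega)) ?_ ?_ ?_ <;> simp [det3] <;> ring
    · refine isPar_of _ _ _ _ _ _ (lpos_low hB (x + 4) 1 (by omega))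
        (lpos_low hB (x + 2) 0 (by omega)) (lpos_low hB (x + 3) 0 (by omega))
        (lpos_low hB (x + 5) 1 (by omega)) ?_ ?_ ?_ <;> simp [det3] <;> ring
    · refine isPar_of _ _ _ _ _ _ (lpos_left hB 3 (3 * (n + 1) + 2) (by omega) (by omega))
        (lpos_start hB) (lpos_left hB 0 (3 * (n + 1)) (by omega) (by omega))
        (lpos_left hB 2 (3 * (n + 1) + 1) (by omega) (by omega)) ?_ ?_ ?_ <;>
        simp [det3] <;> ring
    · refine isPar_of _ _ _ _ _ _ (lpos_low hB 3 2 (by omega)) (lpos_low hB 5 2 (by omega))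
        lpos_vq (lpos_left hB 3 3 (by omega) (by omega)) ?_ ?_ ?_ <;> norm_num [det3]
  · simp only [List.mem_flatMap, List.mem_range] at hq
    obtain ⟨i', hi, j, hj, hq⟩ := hq
    unfold blockQuads at hq
    simp only [List.mem_append, List.mem_cons, List.not_mem_nil, or_false] at hq
    rcases hq with ((rfl | hq) | hq)
    · refine isPar_of _ _ _ _ _ _ (lpos_fix (3 * j + 5) (3 * i' + 4) (by omega) (by omega))
        (lpos_fix (3 * j + 5 + 1) (3 * i' + 4) (by omega) (by omega))
        (lpos_fix (3 * j + 5 + 1) (3 * i' + 4 + 1) (by omega) (by omega))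
        (lpos_fix (3 * j + 5) (3 * i' + 4 + 1) (by omega) (by omega)) ?_ ?_ ?_ <;>
        simp [det3, unitQ] <;> ring
    · split_ifs at hq with h1
      · simp only [List.mem_cons, List.not_mem_nil, or_false] at hq
        have e1 : lpos n m τ ξ η (pt (3 * j + 5) (3 * i' + 3)) =
            ((3 * (j : ℝ) + 5) + ξ (i' + 1) (j + 1), 3 * ((i' : ℝ) + 1)) := by
          have := lpos_row (n := n) (m := m) (τ := τ) (ξ := ξ) (η := η) (3 * j + 5) (i' + 1)
            (by omega)
          rw [show (3 * j + 5 - 2) / 3 = j + 1 by omega] at this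
          rw [show 3 * i' + 3 = 3 * (i' + 1) by ring, this]
          push_cast; rfl
        have e2 : lpos n m τ ξ η (pt (3 * j + 5 + 1) (3 * i' + 3)) =
            ((3 * (j : ℝ) + 6) + ξ (i' + 1) (j + 1), 3 * ((i' : ℝ) + 1)) := by
          have := lpos_row (n := n) (m := m) (τ := τ) (ξ := ξ) (η := η) (3 * j + 6) (i' + 1)
            (by omega)
          rw [show (3 * j + 6 - 2) / 3 = j + 1 by omega] at this
          rw [show 3 * i' + 3 = 3 * (i' + 1) by ring, this]
          push_cast; rfl
        rcases hq with rfl | rfl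
        · refine isPar_of _ _ _ _ _ _ (lpos_fix (3 * j + 5) (3 * i' + 2) (by omega) (by omega))
            (lpos_fix (3 * j + 5 + 1) (3 * i' + 2) (by omega) (by omega)) e2 e1 ?_ ?_ ?_ <;>
            simp [det3, unitQ] <;> ring
        · refine isPar_of _ _ _ _ _ _ e1 e2
            (lpos_fix (3 * j + 5 + 1) (3 * i' + 3 + 1) (by omega) (by omega))
            (lpos_fix (3 * j + 5) (3 * i' + 3 + 1) (by omega) (by omega)) ?_ ?_ ?_ <;>
            simp [det3, unitQ] <;> ring
      · simp only [List.mem_cons, List.not_mem_nil, or_false] at hq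
        subst hq
        refine isPar_of _ _ _ _ _ _ (lpos_fix (3 * j + 5) (3 * i' + 2) (by omega) (by omega))
          (lpos_fix (3 * j + 5 + 1) (3 * i' + 2) (by omega) (by omega))
          (lpos_fix (3 * j + 5 + 1) (3 * i' + 2 + 2) (by omega) (by omega))
          (lpos_fix (3 * j + 5) (3 * i' + 2 + 2) (by omega) (by omega)) ?_ ?_ ?_ <;>
          simp [det3, tallQ] <;> ring
    · split_ifs at hq with h1
      · simp only [List.mem_cons, List.not_mem_nil, or_false] at hq
        have e1 : lpos n m τ ξ η (pt (3 * j + 4) (3 * i' + 4)) =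
            (3 * (j : ℝ) + 4, ((3 * i' + 4 : ℕ) : ℝ) + η (i' + 2) j) := by
          rw [lpos_col j (3 * i' + 4) (by omega), show (3 * i' + 4) / 3 + 1 = i' + 2 by omega]
        have e2 : lpos n m τ ξ η (pt (3 * j + 4) (3 * i' + 5)) =
            (3 * (j : ℝ) + 4, ((3 * i' + 5 : ℕ) : ℝ) + η (i' + 2) j) := by
          rw [lpos_col j (3 * i' + 5) (by omega), show (3 * i' + 5) / 3 + 1 = i' + 2 by omega]
        rcases hq with rfl | rfl
        · refine isPar_of _ _ _ _ _ _ (lpos_fix (3 * j + 3) (3 * i' + 4) (by omega) (by omega))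
            e1 e2 (lpos_fix (3 * j + 3) (3 * i' + 4 + 1) (by omega) (by omega)) ?_ ?_ ?_ <;>
            simp [det3, unitQ] <;> ring
        · refine isPar_of _ _ _ _ _ _ e1
            (lpos_fix (3 * j + 4 + 1) (3 * i' + 4) (by omega) (by omega))
            (lpos_fix (3 * j + 4 + 1) (3 * i' + 4 + 1) (by omega) (by omega)) e2 ?_ ?_ ?_ <;>
            simp [det3, unitQ] <;> ring
      · simp only [List.mem_cons, List.not_mem_nil, or_false] at hq
        subst hq
        refine isPar_of _ _ _ _ _ _ (lpos_fix (3 * j + 3) (3 * i' + 4) (by omega) (by omega))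
          (lpos_fix (3 * j + 3 + 2) (3 * i' + 4) (by omega) (by omega))
          (lpos_fix (3 * j + 3 + 2) (3 * i' + 4 + 1) (by omega) (by omega))
          (lpos_fix (3 * j + 3) (3 * i' + 4 + 1) (by omega) (by omega)) ?_ ?_ ?_ <;>
          simp [det3, wideQ] <;> ring

end Pool.Agent.PAH
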