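import Pool.Agent.PAH.Targets

set_option autoImplicit false

/-!
# Y-REGION: the fan regions are faces
-/

namespace Pool.Agent.PAH

namespace Rg

/-! ## Plane geometry -/

/-- inner product of `x - a` and `b - a` -/
def ip (a b x : Plane) : ℝ := (x.1 - a.1) * (b.1 - a.1) + (x.2 - a.2) * (b.2 - a.2)

lemma continuous_det3 (a b : Plane) : Continuous fun y => det3 a b y := by
  unfold det3; fun_prop

lemma continuous_ip (a b : Plane) : Continuous fun y => ip a b y := by
  unfold ip; fun_prop

lemma nn_pos {a b : Plane} (h : a ≠ b) : 0 < (b.1 - a.1) ^ 2 + (b.2 - a.2) ^ 2 := by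
  rcases eq_or_ne a.1 b.1 with h1 | h1
  · have h2 : a.2 ≠ b.2 := fun h2 => h (Prod.ext h1 h2)
    have : 0 < (b.2 - a.2) ^ 2 := by
      have : b.2 - a.2 ≠ 0 := sub_ne_zero.2 (Ne.symm h2)
      positivity
    nlinarith [sq_nonneg (b.1 - a.1)]
  · have : 0 < (b.1 - a.1) ^ 2 := by
      have : b.1 - a.1 ≠ 0 := sub_ne_zero.2 (Ne.symm h1)
      positivity
    nlinarith [sq_nonneg (b.2 - a.2)]

lemma mem_openSegment_iff {a b : Plane} (h : a ≠ b) (x : Plane) :
    x ∈ openSegment ℝ a b ↔ det3 a b x = 0 ∧ 0 < ip a b x ∧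
      ip a b x < (b.1 - a.1) ^ 2 + (b.2 - a.2) ^ 2 := by
  have hn := nn_pos h
  constructor
  · rintro ⟨s, t, hs, ht, hst, rfl⟩
    obtain rfl : s = 1 - t := by linarith
    simp only [det3, ip, Prod.fst_add, Prod.snd_add, Prod.smul_fst, Prod.smul_snd, smul_eq_mul]
    refine ⟨by ring, ?_, ?_⟩
    · have : ((1 - t) * a.1 + t * b.1 - a.1) * (b.1 - a.1) +
        ((1 - t) * a.2 + t * b.2 - a.2) * (b.2 - a.2) =
          t * ((b.1 - a.1) ^ 2 + (b.2 - a.2) ^ 2) := by ring
      rw [this]; positivity
    · have : ((1 - t) * a.1 + t * b.1 - a.1) * (b.1 - a.1) +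
        ((1 - t) * a.2 + t * b.2 - a.2) * (b.2 - a.2) =
          t * ((b.1 - a.1) ^ 2 + (b.2 - a.2) ^ 2) := by ring
      rw [this]; nlinarith
  · rintro ⟨h0, h1, h2⟩
    set N := (b.1 - a.1) ^ 2 + (b.2 - a.2) ^ 2 with hN
    refine ⟨1 - ip a b x / N, ip a b x / N, ?_, by positivity, by ring, ?_⟩
    · have : ip a b x / N < 1 := by rw [div_lt_one hn]; exact h2
      linarith
    · unfold det3 at h0
      unfold ip
      apply Prod.ext
      · simp only [Prod.fst_add, Prod.smul_fst, smul_eq_mul]
        field_simp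
        rw [hN]
        linear_combination (b.2 - a.2) * h0
      · simp only [Prod.snd_add, Prod.smul_snd, smul_eq_mul]
        field_simp
        rw [hN]
        linear_combination (-(b.1 - a.1)) * h0

/-- near a point of the open segment, the points of the line are on the open segment -/
lemma eventually_line {a b x : Plane} (hx : x ∈ openSegment ℝ a b) (h : a ≠ b) :
    ∀ᶠ y in nhds x, det3 a b y = 0 → y ∈ openSegment ℝ a b := by
  rw [mem_openSegment_iff h] at hx
  have h1 : ∀ᶠ y in nhds x, 0 < ip a b y :=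
    (continuous_ip a b).continuousAt.eventually (lt_mem_nhds hx.2.1)
  have h2 : ∀ᶠ y in nhds x, ip a b y < (b.1 - a.1) ^ 2 + (b.2 - a.2) ^ 2 :=
    (continuous_ip a b).continuousAt.eventually (gt_mem_nhds hx.2.2)
  filter_upwards [h1, h2] with y hy1 hy2 hy0
  exact (mem_openSegment_iff h y).2 ⟨hy0, hy1, hy2⟩

lemma det3_swap (a b x : Plane) : det3 b a x = - det3 a b x := by unfold det3; ring

lemma det3_rot (a b x : Plane) : det3 b x a = det3 a b x := by unfold det3; ring

lemma liesLeft_eventually {R : Set Plane} {a b x : Plane} (h : LiesLeft R a b)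
    (hx : x ∈ openSegment ℝ a b) : ∀ᶠ y in nhds x, 0 < det3 a b y → y ∈ R := by
  obtain ⟨ε, hε, hb⟩ := h x hx
  filter_upwards [Metric.ball_mem_nhds x hε] with y hy
  exact hb y hy

/-- points slightly to the left -/
lemma left_frequently {a b : Plane} (h : a ≠ b) (x : Plane) (hx : det3 a b x = 0) :
    ∃ᶠ y in nhds x, 0 < det3 a b y := by
  have hn := nn_pos h
  have hcont : Filter.Tendsto (fun s : ℝ => (x.1 - s * (b.2 - a.2), x.2 + s * (b.1 - a.1)))
      (nhdsWithin 0 (Set.Ioi 0)) (nhds x) := by
    have : Filter.Tendsto (fun s : ℝ => (x.1 - s * (b.2 - a.2), x.2 + s * (b.1 - a.1)))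
      (nhds 0) (nhds ((x.1 - 0 * (b.2 - a.2), x.2 + 0 * (b.1 - a.1)))) := by
      apply Continuous.tendsto (f := fun s : ℝ => (x.1 - s * (b.2 - a.2), x.2 + s * (b.1 - a.1)))
      fun_prop
    simp only [zero_mul, sub_zero, add_zero, Prod.mk.eta] at this
    exact this.mono_left nhdsWithin_le_nhds
  apply hcont.frequently
  apply Filter.Eventually.frequently
  filter_upwards [self_mem_nhdsWithin] with s hs
  have hs' : (0 : ℝ) < s := hs
  have : det3 a b (x.1 - s * (b.2 - a.2), x.2 + s * (b.1 - a.1)) =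
      det3 a b x + s * ((b.1 - a.1) ^ 2 + (b.2 - a.2) ^ 2) := by
    unfold det3; ring
  rw [this, hx]; positivity

lemma mem_closure_of_liesLeft {R : Set Plane} {a b x : Plane} (h : LiesLeft R a b) (hab : a ≠ b)
    (hx : x ∈ openSegment ℝ a b) : x ∈ closure R := by
  rw [mem_closure_iff_frequently]
  have h0 := ((mem_openSegment_iff hab x).1 hx).1
  exact (left_frequently hab x h0).mp (liesLeft_eventually h hx)

lemma ne_of_det3_pos {a b c : Plane} (h : 0 < det3 a b c) : a ≠ b ∧ b ≠ c ∧ c ≠ a := by
  refine ⟨?_, ?_, ?_⟩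
  · rintro rfl; simp [det3] at h
  · rintro rfl; unfold det3 at h; nlinarith
  · rintro rfl; simp [det3] at h

lemma isOpen_openTri (a b c : Plane) : IsOpen (openTri a b c) := by
  unfold openTri
  simp only [Set.ofPred_and]
  exact (isOpen_lt continuous_const (continuous_det3 a b)).inter
    ((isOpen_lt continuous_const (continuous_det3 b c)).inter
      (isOpen_lt continuous_const (continuous_det3 c a)))

lemma isClosed_closedTri (a b c : Plane) : IsClosed (closedTri a b c) := by
  unfold closedTri
  simp only [Set.ofPred_and]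
  exact (isClosed_le continuous_const (continuous_det3 a b)).inter
    ((isClosed_le continuous_const (continuous_det3 b c)).inter
      (isClosed_le continuous_const (continuous_det3 c a)))

lemma openTri_subset_closedTri (a b c : Plane) : openTri a b c ⊆ closedTri a b c :=
  fun _ h => ⟨h.1.le, h.2.1.le, h.2.2.le⟩

lemma det3_affine (a b x y : Plane) (s t : ℝ) (hst : s + t = 1) :
    det3 a b (s • x + t • y) = s * det3 a b x + t * det3 a b y := by
  obtain rfl : s = 1 - t := by linarith
  unfold det3
  simp only [Prod.fst_add, Prod.snd_add, Prod.smul_fst, Prod.smul_snd, smul_eq_mul]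
  ring

lemma convex_half (a b : Plane) : Convex ℝ {P : Plane | 0 < det3 a b P} := by
  intro x hx y hy s t hs ht hst
  simp only [Set.mem_ofPred_eq] at *
  rw [det3_affine _ _ _ _ _ _ hst]
  rcases hs.eq_or_lt with rfl | hs
  · have : t = 1 := by linarith
    subst this; simpa using hy
  · nlinarith [mul_pos hs hx, mul_nonneg ht hy.le]

lemma convex_openTri (a b c : Plane) : Convex ℝ (openTri a b c) := by
  unfold openTri
  simp only [Set.ofPred_and]
  exact (convex_half a b).inter ((convex_half b c).inter (convex_half c a))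

lemma nonempty_openTri {a b c : Plane} (h : 0 < det3 a b c) : (openTri a b c).Nonempty := by
  refine ⟨((a.1 + b.1 + c.1) / 3, (a.2 + b.2 + c.2) / 3), ?_, ?_, ?_⟩
  · have : det3 a b ((a.1 + b.1 + c.1) / 3, (a.2 + b.2 + c.2) / 3) = det3 a b c / 3 := by
      unfold det3; ring
    rw [this]; positivity
  · have : det3 b c ((a.1 + b.1 + c.1) / 3, (a.2 + b.2 + c.2) / 3) = det3 a b c / 3 := by
      unfold det3; ring
    rw [this]; positivity
  · have : det3 c a ((a.1 + b.1 + c.1) / 3, (a.2 + b.2 + c.2) / 3) = det3 a b c / 3 := by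
      unfold det3; ring
    rw [this]; positivity

lemma bary {a b c : Plane} (h : 0 < det3 a b c) (P : Plane) :
    P = (det3 b c P / det3 a b c) • a + (det3 c a P / det3 a b c) • b +
      (det3 a b P / det3 a b c) • c := by
  have h' : det3 a b c ≠ 0 := h.ne'
  apply Prod.ext
  · simp only [Prod.fst_add, Prod.smul_fst, smul_eq_mul]
    field_simp
    unfold det3; ring
  · simp only [Prod.snd_add, Prod.smul_snd, smul_eq_mul]
    field_simp
    unfold det3; ring

lemma bary_sum {a b c : Plane} (h : 0 < det3 a b c) (P : Plane) :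
    (det3 b c P / det3 a b c) + (det3 c a P / det3 a b c) + (det3 a b P / det3 a b c) = 1 := by
  have h' : det3 a b c ≠ 0 := h.ne'
  field_simp
  unfold det3; ring

lemma closedTri_subset_convexHull {a b c : Plane} (h : 0 < det3 a b c) :
    closedTri a b c ⊆ convexHull ℝ ({a, b, c} : Set Plane) := by
  rintro P ⟨h1, h2, h3⟩
  have hs := bary_sum h P
  have ha : a ∈ convexHull ℝ ({a, b, c} : Set Plane) := subset_convexHull _ _ (by simp)
  have hb : b ∈ convexHull ℝ ({a, b, c} : Set Plane) := subset_convexHull _ _ (by simp)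
  have hc : c ∈ convexHull ℝ ({a, b, c} : Set Plane) := subset_convexHull _ _ (by simp)
  rw [bary h P]
  have hcv := convex_convexHull ℝ ({a, b, c} : Set Plane)
  have h3' := hcv.sum_mem (t := (Finset.univ : Finset (Fin 3)))
    (w := ![det3 b c P / det3 a b c, det3 c a P / det3 a b c, det3 a b P / det3 a b c])
    (z := ![a, b, c])
    (by
      intro i _; fin_cases i
      · exact div_nonneg h2 h.le
      · exact div_nonneg h3 h.le
      · exact div_nonneg h1 h.le)
    (by rw [Fin.sum_univ_three]; simpa using hs)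
    (by intro i _; fin_cases i
        · exact ha
        · exact hb
        · exact hc)
  rw [Fin.sum_univ_three] at h3'
  simpa using h3'

lemma isBounded_closedTri {a b c : Plane} (h : 0 < det3 a b c) :
    Bornology.IsBounded (closedTri a b c) := by
  apply Bornology.IsBounded.subset _ (closedTri_subset_convexHull h)
  rw [isBounded_convexHull]
  exact (Set.toFinite _).isBounded

/-- a point of the closed triangle on the line `a b` is on the segment -/
lemma mem_segment_of_det3 {a b c : Plane} (h : 0 < det3 a b c) {P : Plane}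
    (hP : P ∈ closedTri a b c) (h0 : det3 a b P = 0) : P ∈ segment ℝ a b := by
  have hs := bary_sum h P
  have hb := bary h P
  rw [h0] at hs hb
  simp only [zero_div, zero_smul, add_zero] at hs hb
  exact ⟨_, _, div_nonneg hP.2.1 h.le, div_nonneg hP.2.2 h.le, hs, hb.symm⟩

lemma closedTri_rot (a b c : Plane) : closedTri a b c = closedTri b c a := by
  unfold closedTri; ext P; simp only [Set.mem_ofPred_eq]; tauto

lemma openTri_rot (a b c : Plane) : openTri a b c = openTri b c a := by
  unfold openTri; ext P; simp only [Set.mem_ofPred_eq]; tauto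

/-- the boundary of a triangle -/
lemma mem_side {a b c : Plane} (h : 0 < det3 a b c) {P : Plane}
    (hP : P ∈ closedTri a b c) (hP' : P ∉ openTri a b c) :
    P ∈ segment ℝ a b ∨ P ∈ segment ℝ b c ∨ P ∈ segment ℝ c a := by
  by_contra hcon
  push Not at hcon
  apply hP'
  refine ⟨lt_of_le_of_ne hP.1 ?_, lt_of_le_of_ne hP.2.1 ?_, lt_of_le_of_ne hP.2.2 ?_⟩
  · intro h0; exact hcon.1 (mem_segment_of_det3 h hP h0.symm)
  · intro h0
    apply hcon.2.1
    apply mem_segment_of_det3 (c := a) _ _ h0.symm
    · rw [det3_rot]; exact h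
    · rw [← closedTri_rot]; exact hP
  · intro h0
    apply hcon.2.2
    apply mem_segment_of_det3 (c := b) _ _ h0.symm
    · have h' : det3 c a b = det3 a b c := by unfold det3; ring
      rw [h']; exact h
    · rw [← closedTri_rot, ← closedTri_rot]; exact hP

/-! ## Topology -/

lemma component_of_clopen {X : Type} [TopologicalSpace X] {R U : Set X} (hR : IsOpen R)
    (hRU : R ⊆ U) (hcl : closure R ∩ U ⊆ R) (hc : IsPreconnected R) {x : X} (hx : x ∈ R) :
    R = connectedComponentIn U x := by
  apply Set.Subset.antisymm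
  · exact hc.subset_connectedComponentIn hx hRU
  · apply IsPreconnected.subset_left_of_subset_union hR (isClosed_closure.isOpen_compl (s := closure R))
    · exact Set.disjoint_left.2 fun y hy hy' => hy' (subset_closure hy)
    · intro y hy
      have hyU : y ∈ U := connectedComponentIn_subset U x hy
      by_cases hyc : y ∈ closure R
      · exact Or.inl (hcl ⟨hyc, hyU⟩)
      · exact Or.inr hyc
    · exact ⟨x, mem_connectedComponentIn (hRU hx), hx⟩
    · exact isPreconnected_connectedComponentIn

/-! ## Fans -/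

variable {V : Type}

lemma mem_fanTris {v : V} {l : List V} {t : V × V × V} :
    t ∈ fanTris (v :: l) ↔ ∃ (i : ℕ) (h : i + 1 < l.length), t = (v, l[i], l[i + 1]) := by
  unfold fanTris
  rw [List.mem_map]
  constructor
  · rintro ⟨e, he, rfl⟩
    obtain ⟨i, hi, rfl⟩ := List.mem_iff_getElem.1 he
    have hi' : i + 1 < l.length := by
      simp only [List.length_zip, List.length_tail] at hi
      omega
    exact ⟨i, hi', by simp⟩
  · rintro ⟨i, hi, rfl⟩
    refine ⟨(l[i], l[i + 1]), ?_, rfl⟩
    rw [List.mem_iff_getElem]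
    refine ⟨i, by simp only [List.length_zip, List.length_tail]; omega, by simp⟩

lemma fanTris_getElem {v : V} {l : List V} (i : ℕ) (h : i + 1 < l.length)
    (h' : i < (fanTris (v :: l)).length) :
    (fanTris (v :: l))[i] = (v, l[i], l[i + 1]) := by
  unfold fanTris; simp

lemma fanTris_length {v : V} {l : List V} : (fanTris (v :: l)).length = l.length - 1 := by
  unfold fanTris; simp

lemma dartsOf_cons (v : V) (l : List V) : dartsOf (v :: l) = (v :: l).zip (l ++ [v]) := by
  unfold dartsOf; simp

lemma mem_dartsOf {v : V} {l : List V} (hl : 1 ≤ l.length) {d : V × V} :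
    d ∈ dartsOf (v :: l) ↔ d = (v, l[0]) ∨
      (∃ (i : ℕ) (h : i + 1 < l.length), d = (l[i], l[i + 1])) ∨
      d = (l[l.length - 1], v) := by
  rw [dartsOf_cons, List.mem_iff_getElem]
  constructor
  · rintro ⟨i, hi, rfl⟩
    simp only [List.length_zip, List.length_cons, List.length_append, List.length_nil] at hi
    have hi' : i ≤ l.length := by omega
    rcases Nat.eq_zero_or_pos i with rfl | hpos
    · left
      simp only [List.getElem_zip, List.getElem_cons_zero]
      rw [List.getElem_append_left]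
    · obtain ⟨j, rfl⟩ : ∃ j, i = j + 1 := ⟨i - 1, by omega⟩
      by_cases hj : j + 1 < l.length
      · right; left
        refine ⟨j, hj, ?_⟩
        simp only [List.getElem_zip, List.getElem_cons_succ]
        rw [List.getElem_append_left hj]
      · right; right
        have hj' : j = l.length - 1 := by omega
        subst hj'
        simp only [List.getElem_zip, List.getElem_cons_succ]
        rw [List.getElem_append_right (by omega)]
        simp
  · rintro (rfl | ⟨i, hi, rfl⟩ | rfl)
    · refine ⟨0, by simp, ?_⟩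
      simp only [List.getElem_zip, List.getElem_cons_zero]
      rw [List.getElem_append_left]
    · refine ⟨i + 1, by simp; omega, ?_⟩
      simp only [List.getElem_zip, List.getElem_cons_succ]
      rw [List.getElem_append_left hi]
    · refine ⟨l.length - 1 + 1, by simp; omega, ?_⟩
      simp only [List.getElem_zip, List.getElem_cons_succ]
      rw [List.getElem_append_right (by omega)]
      simp

/-- every vertex of the walk is the start of a directed edge of the walk -/
lemma exists_dart_fst {w : List V} {u : V} (hu : u ∈ w) : ∃ d ∈ dartsOf w, d.1 = u := by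
  obtain ⟨i, hi, rfl⟩ := List.mem_iff_getElem.1 hu
  refine ⟨(w[i], (w.rotate 1)[i]'(by simpa using hi)), ?_, rfl⟩
  unfold dartsOf
  rw [List.mem_iff_getElem]
  exact ⟨i, by simpa using hi, by simp⟩

/-- the vertices of the fan triangles are on the walk -/
lemma mem_of_fan {v : V} {l : List V} {t : V × V × V} (ht : t ∈ fanTris (v :: l)) {d : V × V}
    (hd : d ∈ triDarts t) : d.1 ∈ v :: l ∧ d.2 ∈ v :: l := by
  obtain ⟨i, hi, rfl⟩ := mem_fanTris.1 ht
  have h1 : l[i] ∈ v :: l := List.mem_cons_of_mem _ (List.getElem_mem _)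
  have h2 : l[i + 1] ∈ v :: l := List.mem_cons_of_mem _ (List.getElem_mem _)
  have h0 : v ∈ v :: l := List.mem_cons_self
  simp only [triDarts, List.mem_cons, List.not_mem_nil, or_false] at hd
  rcases hd with rfl | rfl | rfl
  · exact ⟨h0, h1⟩
  · exact ⟨h1, h2⟩
  · exact ⟨h2, h0⟩

/-- the reverse of a diagonal is a directed edge of another fan triangle -/
lemma exists_swap {v : V} {l : List V} (hl : 2 ≤ l.length) {t : V × V × V}
    (ht : t ∈ fanTris (v :: l)) {d : V × V} (hd : d ∈ triDarts t) (hd' : d ∉ dartsOf (v :: l)) :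
    ∃ t' ∈ fanTris (v :: l), d.swap ∈ triDarts t' := by
  obtain ⟨i, hi, rfl⟩ := mem_fanTris.1 ht
  rw [mem_dartsOf (by omega)] at hd'
  push Not at hd'
  simp only [triDarts, List.mem_cons, List.not_mem_nil, or_false] at hd
  rcases hd with rfl | rfl | rfl
  · have hi0 : i ≠ 0 := by
      rintro rfl; exact hd'.1 rfl
    obtain ⟨j, rfl⟩ : ∃ j, i = j + 1 := ⟨i - 1, by omega⟩
    refine ⟨(v, l[j], l[j + 1]), mem_fanTris.2 ⟨j, by omega, rfl⟩, ?_⟩
    simp [triDarts]
  · exact absurd rfl (hd'.2.1 i hi)
  · have hi1 : i + 2 < l.length := by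
      by_contra hcon
      have : i + 1 = l.length - 1 := by omega
      apply hd'.2.2
      simp only [this]
    refine ⟨(v, l[i + 1], l[i + 1 + 1]), mem_fanTris.2 ⟨i + 1, by omega, rfl⟩, ?_⟩
    simp [triDarts]

/-- every directed edge of the walk is a directed edge of a fan triangle -/
lemma exists_fan {v : V} {l : List V} (hl : 2 ≤ l.length) {d : V × V}
    (hd : d ∈ dartsOf (v :: l)) : ∃ t ∈ fanTris (v :: l), d ∈ triDarts t := by
  rw [mem_dartsOf (by omega)] at hd
  rcases hd with rfl | ⟨i, hi, rfl⟩ | rfl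
  · exact ⟨(v, l[0], l[0 + 1]), mem_fanTris.2 ⟨0, by omega, rfl⟩, by simp [triDarts]⟩
  · exact ⟨(v, l[i], l[i + 1]), mem_fanTris.2 ⟨i, by omega, rfl⟩, by simp [triDarts]⟩
  · refine ⟨(v, l[l.length - 2], l[l.length - 2 + 1]), mem_fanTris.2 ⟨l.length - 2, by omega, rfl⟩, ?_⟩
    have : l.length - 2 + 1 = l.length - 1 := by omega
    simp only [triDarts, this]
    simp

/-! ## The region -/

section main

variable {G : FaceMap V} {p : V → Plane} {a b c : V}

lemma pos_fan (_ : Tame G p a b c) {f : List V × ℚ} (hf : f ∈ G.inner) {t : V × V × V}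
    (ht : t ∈ fanTris f.1) : t ∈ G.tris :=
  List.mem_flatMap.2 ⟨f, hf, ht⟩

lemma ne_of_triDarts (H : Tame G p a b c) {t : V × V × V} (ht : t ∈ G.tris) {d : V × V}
    (hd : d ∈ triDarts t) : p d.1 ≠ p d.2 := by
  have h := ne_of_det3_pos (H.nice.pos t ht)
  simp only [triDarts, List.mem_cons, List.not_mem_nil, or_false] at hd
  rcases hd with rfl | rfl | rfl
  · exact h.1
  · exact h.2.1
  · exact h.2.2

lemma mem_allDarts {T : List (V × V × V)} {t : V × V × V} (ht : t ∈ T) {d : V × V}
    (hd : d ∈ triDarts t) : d ∈ T.flatMap triDarts := List.mem_flatMap.2 ⟨t, ht, hd⟩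

lemma mem_darts {f : List V × ℚ} (hf : f ∈ G.inner) {d : V × V} (hd : d ∈ dartsOf f.1) : d ∈ G.darts := by
  unfold FaceMap.darts FaceMap.walks
  exact List.mem_flatMap.2 ⟨f.1, List.mem_cons_of_mem _ (List.mem_map.2 ⟨f, hf, rfl⟩), hd⟩

/-- every directed edge of the map or its reverse is in the triangulation -/
lemma dart_or_swap (H : Tame G p a b c) {e : V × V} (he : e ∈ G.darts) :
    e ∈ G.tris.flatMap triDarts ∨ e.swap ∈ G.tris.flatMap triDarts := by
  unfold FaceMap.darts FaceMap.walks at he
  obtain ⟨w, hw, he⟩ := List.mem_flatMap.1 he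
  rcases List.mem_cons.1 hw with rfl | hw
  · right
    rw [H.outer_eq] at he
    have hcase : e = (a, c) ∨ e = (c, b) ∨ e = (b, a) := by
      simpa [dartsOf] using he
    rcases hcase with rfl | rfl | rfl
    · exact (H.nice.out_mem (c, a) (by simp)).1
    · exact (H.nice.out_mem (b, c) (by simp)).1
    · exact (H.nice.out_mem (a, b) (by simp)).1
  · obtain ⟨f, hf, rfl⟩ := List.mem_map.1 hw
    exact Or.inl (H.sub f hf e he)

lemma segment_swap (e : V × V) : segment ℝ (p e.swap.1) (p e.swap.2) = segment ℝ (p e.1) (p e.2) :=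
  segment_symm ℝ _ _

lemma region_subset (H : Tame G p a b c) {f : List V × ℚ} (hf : f ∈ G.inner) :
    fanRegion p f.1 ⊆ (G.drawn p)ᶜ := by
  rintro x hx ⟨e, he, hxe⟩
  obtain ⟨e', he', hee, hxe'⟩ : ∃ e' ∈ G.tris.flatMap triDarts, (e' = e ∨ e' = e.swap) ∧
      x ∈ segment ℝ (p e'.1) (p e'.2) := by
    rcases dart_or_swap H he with h | h
    · exact ⟨e, h, Or.inl rfl, hxe⟩
    · exact ⟨e.swap, h, Or.inr rfl, by rw [segment_swap]; exact hxe⟩
  rcases hx with ⟨t, ht, hxt⟩ | ⟨t, ht, d, hd, hdw, hxd⟩
  · exact H.planar.openDisj t (pos_fan H hf ht) e' he' x hxe' hxt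
  · obtain ⟨h1, h2⟩ := H.diag f hf t ht d hd hdw
    have hdT := mem_allDarts (pos_fan H hf ht) hd
    have hne1 : e' ≠ d := by
      rintro rfl
      rcases hee with h | h
      · exact h1 (h ▸ he)
      · apply h2; rw [h]; simpa using he
    have hne2 : e' ≠ d.swap := by
      rintro rfl
      rcases hee with h | h
      · exact h2 (h ▸ he)
      · apply h1
        have : d = e := by
          have := congrArg Prod.swap h
          simpa using this
        rw [this]; exact he
    obtain ⟨v, hv, -, hxv⟩ := H.planar.noncrossing d hdT e' he' hne1 hne2 x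
      (openSegment_subset_segment ℝ _ _ hxd) hxe'
    have hne := ne_of_triDarts H (pos_fan H hf ht) hd
    rcases hv with rfl | rfl
    · rw [hxv] at hxd
      exact hne (left_mem_openSegment_iff.1 hxd)
    · rw [hxv] at hxd
      exact hne (right_mem_openSegment_iff.1 hxd)

lemma tOpen_subset {w : List V} {t : V × V × V} (ht : t ∈ fanTris w) :
    tOpen p t ⊆ fanRegion p w := fun _ hx => Or.inl ⟨t, ht, hx⟩

lemma region_isOpen (H : Tame G p a b c) {f : List V × ℚ} (hf : f ∈ G.inner) :
    IsOpen (fanRegion p f.1) := by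
  obtain ⟨w, q⟩ := f
  rcases w with _ | ⟨v, l⟩
  · exact absurd (H.fan _ hf) (by simp [FanPos])
  have hl : 2 ≤ l.length := (H.fan _ hf).1
  rw [isOpen_iff_mem_nhds]
  rintro x (⟨t, ht, hx⟩ | ⟨t, ht, d, hd, hdw, hxd⟩)
  · exact Filter.mem_of_superset ((isOpen_openTri _ _ _).mem_nhds hx) (tOpen_subset ht)
  · obtain ⟨t', ht', hd'⟩ := exists_swap hl ht hd hdw
    have hne := ne_of_triDarts H (pos_fan H hf ht) hd
    have hL := H.planar.left t (pos_fan H hf ht) d hd
    have hL' := H.planar.left t' (pos_fan H hf ht') d.swap hd'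
    have hxd' : x ∈ openSegment ℝ (p d.swap.1) (p d.swap.2) := by
      rw [Prod.fst_swap, Prod.snd_swap, openSegment_symm]; exact hxd
    filter_upwards [liesLeft_eventually hL hxd, liesLeft_eventually hL' hxd',
      eventually_line hxd hne] with y h1 h2 h3
    rcases lt_trichotomy (det3 (p d.1) (p d.2) y) 0 with h | h | h
    · apply tOpen_subset ht'
      apply h2
      rw [Prod.fst_swap, Prod.snd_swap, det3_swap]
      linarith
    · exact Or.inr ⟨t, ht, d, hd, hdw, h3 h⟩
    · exact tOpen_subset ht (h1 h)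

lemma convex_half_closed (a b : Plane) : Convex ℝ {P : Plane | 0 ≤ det3 a b P} := by
  intro x hx y hy s t hs ht hst
  simp only [Set.mem_ofPred_eq] at *
  rw [det3_affine _ _ _ _ _ _ hst]
  positivity

lemma convex_closedTri (a b c : Plane) : Convex ℝ (closedTri a b c) := by
  unfold closedTri
  simp only [Set.ofPred_and]
  exact (convex_half_closed a b).inter ((convex_half_closed b c).inter (convex_half_closed c a))

lemma side_subset {t : V × V × V} (ht : 0 < det3 (p t.1) (p t.2.1) (p t.2.2)) {d : V × V}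
    (hd : d ∈ triDarts t) : segment ℝ (p d.1) (p d.2) ⊆ tClosed p t := by
  have h1 : p t.1 ∈ tClosed p t := by
    refine ⟨?_, ?_, ?_⟩
    · simp [det3]
    · rw [show det3 (p t.2.1) (p t.2.2) (p t.1) = det3 (p t.1) (p t.2.1) (p t.2.2) by
        unfold det3; ring]
      exact ht.le
    · rw [show det3 (p t.2.2) (p t.1) (p t.1) = 0 by unfold det3; ring]
  have h2 : p t.2.1 ∈ tClosed p t := by
    refine ⟨?_, ?_, ?_⟩
    · rw [show det3 (p t.1) (p t.2.1) (p t.2.1) = 0 by unfold det3; ring]
    · simp [det3]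
    · rw [show det3 (p t.2.2) (p t.1) (p t.2.1) = det3 (p t.1) (p t.2.1) (p t.2.2) by
        unfold det3; ring]
      exact ht.le
  have h3 : p t.2.2 ∈ tClosed p t := by
    refine ⟨ht.le, ?_, ?_⟩
    · rw [show det3 (p t.2.1) (p t.2.2) (p t.2.2) = 0 by unfold det3; ring]
    · simp [det3]
  simp only [triDarts, List.mem_cons, List.not_mem_nil, or_false] at hd
  rcases hd with rfl | rfl | rfl
  · exact (convex_closedTri _ _ _).segment_subset h1 h2
  · exact (convex_closedTri _ _ _).segment_subset h2 h3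
  · exact (convex_closedTri _ _ _).segment_subset h3 h1

lemma region_subset_closed (H : Tame G p a b c) {f : List V × ℚ} (hf : f ∈ G.inner) :
    fanRegion p f.1 ⊆ ⋃ t ∈ {t | t ∈ fanTris f.1}, tClosed p t := by
  rintro x (⟨t, ht, hx⟩ | ⟨t, ht, d, hd, hdw, hxd⟩)
  · exact Set.mem_biUnion (x := t) ht (openTri_subset_closedTri _ _ _ hx)
  · exact Set.mem_biUnion (x := t) ht
      (side_subset (H.nice.pos t (pos_fan H hf ht)) hd (openSegment_subset_segment ℝ _ _ hxd))

lemma region_bounded (H : Tame G p a b c) {f : List V × ℚ} (hf : f ∈ G.inner) :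
    Bornology.IsBounded (fanRegion p f.1) := by
  apply Bornology.IsBounded.subset _ (region_subset_closed H hf)
  rw [Bornology.isBounded_biUnion (List.finite_toSet _)]
  intro t ht
  exact isBounded_closedTri (H.nice.pos t (pos_fan H hf ht))

lemma region_closure (H : Tame G p a b c) {f : List V × ℚ} (hf : f ∈ G.inner) :
    closure (fanRegion p f.1) ∩ (G.drawn p)ᶜ ⊆ fanRegion p f.1 := by
  obtain ⟨w, q⟩ := f
  rcases w with _ | ⟨v, l⟩
  · exact absurd (H.fan _ hf) (by simp [FanPos])
  rintro x ⟨hx, hxU⟩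
  have hcl : IsClosed (⋃ t ∈ {t | t ∈ fanTris (v :: l)}, tClosed p t) :=
    (List.finite_toSet _).isClosed_biUnion fun t _ => isClosed_closedTri _ _ _
  have hxC := closure_minimal (region_subset_closed H hf) hcl hx
  simp only [Set.mem_iUnion, exists_prop] at hxC
  obtain ⟨t, ht, hxt⟩ := hxC
  have ht' : t ∈ fanTris (v :: l) := ht
  by_cases hxo : x ∈ tOpen p t
  · exact tOpen_subset ht' hxo
  obtain ⟨d, hd, hxd⟩ : ∃ d ∈ triDarts t, x ∈ segment ℝ (p d.1) (p d.2) := by
    rcases mem_side (H.nice.pos t (pos_fan H hf ht')) hxt hxo with h | h | h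
    · exact ⟨(t.1, t.2.1), by simp [triDarts], h⟩
    · exact ⟨(t.2.1, t.2.2), by simp [triDarts], h⟩
    · exact ⟨(t.2.2, t.1), by simp [triDarts], h⟩
  have hvert : ∀ u ∈ v :: l, x ≠ p u := by
    rintro u hu rfl
    obtain ⟨e, he, rfl⟩ := exists_dart_fst hu
    exact hxU ⟨e, mem_darts hf he, left_mem_segment ℝ _ _⟩
  by_cases hdw : d ∈ dartsOf (v :: l)
  · exact absurd ⟨d, mem_darts hf hdw, hxd⟩ hxU
  · have hm := mem_of_fan ht' hd
    exact Or.inr ⟨t, ht', d, hd, hdw,
      mem_openSegment_of_ne_left_right (hvert _ hm.1).symm (hvert _ hm.2).symm hxd⟩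

/-- an open triangle with some of its open sides -/
def S (p : V → Plane) (w : List V) (t : V × V × V) : Set Plane :=
  {x | x ∈ tOpen p t ∨ ∃ d ∈ triDarts t, d ∉ dartsOf w ∧ x ∈ openSegment ℝ (p d.1) (p d.2)}

lemma S_preconnected (H : Tame G p a b c) {t : V × V × V} (ht : t ∈ G.tris) (w : List V) :
    IsPreconnected (S p w t) := by
  apply (convex_openTri (p t.1) (p t.2.1) (p t.2.2)).isPreconnected.subset_closure
  · intro x hx; exact Or.inl hx
  · rintro x (hx | ⟨d, hd, -, hxd⟩)
    · exact subset_closure hx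
    · exact mem_closure_of_liesLeft (H.planar.left t ht d hd) (ne_of_triDarts H ht hd) hxd

lemma region_preconnected (H : Tame G p a b c) {f : List V × ℚ} (hf : f ∈ G.inner) :
    IsPreconnected (fanRegion p f.1) := by
  obtain ⟨w, q⟩ := f
  rcases w with _ | ⟨v, l⟩
  · exact absurd (H.fan _ hf) (by simp [FanPos])
  have hl : 2 ≤ l.length := (H.fan _ hf).1
  set w := v :: l with hw
  have key : ∀ i, ∀ h : i + 1 < l.length, (v, l[i], l[i + 1]) ∈ fanTris w := fun i h =>
    mem_fanTris.2 ⟨i, h, rfl⟩
  let s : ℕ → Set Plane := fun i => if h : i + 1 < l.length then S p w (v, l[i], l[i + 1]) else ∅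
  have hs : ∀ i, ∀ h : i + 1 < l.length, s i = S p w (v, l[i], l[i + 1]) := fun i h => by
    simp only [s, h, dif_pos]
  have hR : fanRegion p w = ⋃ i ∈ Set.Iio (l.length - 1), s i := by
    ext x
    simp only [Set.mem_iUnion, Set.mem_Iio, exists_prop]
    constructor
    · rintro (⟨t, ht, hx⟩ | ⟨t, ht, d, hd, hdw, hxd⟩)
      · obtain ⟨i, hi, rfl⟩ := mem_fanTris.1 ht
        refine ⟨i, by omega, ?_⟩
        rw [hs i hi]
        exact Or.inl hx
      · obtain ⟨i, hi, rfl⟩ := mem_fanTris.1 ht
        refine ⟨i, by omega, ?_⟩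
        rw [hs i hi]
        exact Or.inr ⟨d, hd, hdw, hxd⟩
    · rintro ⟨i, hi, hx⟩
      have hi' : i + 1 < l.length := by omega
      rw [hs i hi'] at hx
      rcases hx with hx | ⟨d, hd, hdw, hxd⟩
      · exact Or.inl ⟨_, key i hi', hx⟩
      · exact Or.inr ⟨_, key i hi', d, hd, hdw, hxd⟩
  change IsPreconnected (fanRegion p w)
  rw [hR]
  apply IsPreconnected.biUnion_of_chain Set.ordConnected_Iio
  · intro i hi
    have hi' : i + 1 < l.length := by
      have := Set.mem_Iio.1 hi
      omega
    rw [hs i hi']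
    exact S_preconnected H (pos_fan H hf (key i hi')) w
  · intro i hi hi2
    rw [Nat.succ_eq_succ] at hi2 ⊢
    have hi' : i + 1 < l.length := by
      have := Set.mem_Iio.1 hi
      omega
    have hi2' : i + 1 + 1 < l.length := by
      have := Set.mem_Iio.1 hi2
      omega
    rw [Nat.succ_eq_add_one, hs i hi', hs (i + 1) hi2']
    -- the common diagonal
    have hpos := H.nice.pos _ (pos_fan H hf (key i hi'))
    have hpos2 := H.nice.pos _ (pos_fan H hf (key (i + 1) hi2'))
    have hnodup : (fanTris w).Pairwise (fun s t => List.Disjoint (triDarts s) (triDarts t)) := by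
      have h1 := (List.nodup_flatMap.1 H.nice.darts_nodup).2
      unfold FaceMap.tris at h1
      have := (List.pairwise_flatMap.1 h1).1 _ hf
      exact this
    have hd1 : (l[i + 1], v) ∉ dartsOf w := by
      rw [hw, mem_dartsOf (by omega)]
      rintro (h | ⟨j, hj, h⟩ | h)
      · have : l[i + 1] = v := congrArg Prod.fst h
        rw [this] at hpos
        have := (ne_of_det3_pos hpos).2.2
        exact this rfl
      · have hv : v = l[j + 1] := congrArg Prod.snd h
        have hp := H.nice.pos _ (pos_fan H hf (key j hj))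
        have := (ne_of_det3_pos hp).2.2
        simp only [← hv] at this
        exact this rfl
      · have hv : l[i + 1] = l[l.length - 1] := congrArg Prod.fst h
        have hlen : (fanTris w).length = l.length - 1 := fanTris_length
        have := (List.pairwise_iff_getElem.1 hnodup) i (l.length - 2) (by omega) (by omega)
          (by omega)
        simp only [hw] at this
        rw [fanTris_getElem i hi', fanTris_getElem (l.length - 2) (by omega)] at this
        have e1 : (l[i + 1], v) ∈ triDarts (v, l[i], l[i + 1]) := by simp [triDarts]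
        have e2 : (l[i + 1], v) ∈ triDarts (v, l[l.length - 2], l[l.length - 2 + 1]) := by
          have : l.length - 2 + 1 = l.length - 1 := by omega
          simp only [triDarts, this, hv]
          simp
        exact this e1 e2
    have hd2 : (v, l[i + 1]) ∉ dartsOf w := by
      intro hmem
      have := (H.diag _ hf _ (key i hi') (l[i + 1], v) (by simp [triDarts]) hd1).2
      exact this (mem_darts hf hmem)
    refine ⟨(1 / 2 : ℝ) • p (l[i + 1]) + (1 / 2 : ℝ) • p v, Or.inr ⟨(l[i + 1], v), by simp [triDarts],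
      hd1, ⟨1 / 2, 1 / 2, by norm_num, by norm_num, by norm_num, rfl⟩⟩,
      Or.inr ⟨(v, l[i + 1]), by simp [triDarts], hd2,
        ⟨1 / 2, 1 / 2, by norm_num, by norm_num, by norm_num, add_comm _ _⟩⟩⟩

lemma region_left (H : Tame G p a b c) {f : List V × ℚ} (hf : f ∈ G.inner) {d : V × V}
    (hd : d ∈ dartsOf f.1) : LiesLeft (fanRegion p f.1) (p d.1) (p d.2) := by
  obtain ⟨w, q⟩ := f
  rcases w with _ | ⟨v, l⟩
  · exact absurd (H.fan _ hf) (by simp [FanPos])
  have hl : 2 ≤ l.length := (H.fan _ hf).1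
  obtain ⟨t, ht, hdt⟩ := exists_fan hl hd
  intro x hx
  obtain ⟨ε, hε, h⟩ := H.planar.left t (pos_fan H hf ht) d hdt x hx
  exact ⟨ε, hε, fun y hy h0 => tOpen_subset ht (h y hy h0)⟩

lemma region_nonempty (H : Tame G p a b c) {f : List V × ℚ} (hf : f ∈ G.inner) :
    (fanRegion p f.1).Nonempty := by
  obtain ⟨w, q⟩ := f
  rcases w with _ | ⟨v, l⟩
  · exact absurd (H.fan _ hf) (by simp [FanPos])
  have hl : 2 ≤ l.length := (H.fan _ hf).1
  have ht : (v, l[0], l[0 + 1]) ∈ fanTris (v :: l) := mem_fanTris.2 ⟨0, by omega, rfl⟩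
  exact (nonempty_openTri (H.nice.pos _ (pos_fan H hf ht))).mono (tOpen_subset ht)

end main

end Rg

/-- Y-REGION -/
theorem targetRegion : TargetRegion := by
  intro V G p a b c H f hf
  refine ⟨⟨?_, fun d hd => Rg.region_left H hf hd⟩, Rg.region_bounded H hf⟩
  obtain ⟨x, hx⟩ := Rg.region_nonempty H hf
  exact ⟨x, Rg.region_subset H hf hx, Rg.component_of_clopen (Rg.region_isOpen H hf)
    (Rg.region_subset H hf) (Rg.region_closure H hf) (Rg.region_preconnected H hf) hx⟩

end Pool.Agent.PAH
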