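import Pool.Agent.PAH.Targets

set_option autoImplicit false

/-!
# Job Y-ROT: the rotation system
-/

namespace Pool.Agent.PAH

namespace Rot

/-! ### Angles -/

/-- cross product -/
def cr (b c : ℂ) : ℝ := b.re * c.im - b.im * c.re

/-- the counterclockwise angle in `(0, 2π]` from `b` to `c` -/
noncomputable def th (b c : ℂ) : ℝ := toIocMod Real.two_pi_pos 0 (Complex.arg (c / b))

/-- the open cone between two directions -/
def cone (b c y : ℂ) : Prop := 0 < cr b y ∧ 0 < cr y c

theorem th_pos (b c : ℂ) : 0 < th b c := by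
  have := toIocMod_mem_Ioc Real.two_pi_pos 0 (Complex.arg (c / b))
  exact this.1

theorem th_le (b c : ℂ) : th b c ≤ 2 * Real.pi := by
  have := toIocMod_mem_Ioc Real.two_pi_pos 0 (Complex.arg (c / b))
  rw [zero_add] at this
  exact this.2

theorem th_eq (b c : ℂ) : ∃ k : ℤ, th b c = Complex.arg (c / b) - 2 * Real.pi * k := by
  refine ⟨toIocDiv Real.two_pi_pos 0 (Complex.arg (c / b)), ?_⟩
  have := toIocMod_add_toIocDiv_zsmul Real.two_pi_pos 0 (Complex.arg (c / b))
  unfold th
  rw [zsmul_eq_mul] at this
  linarith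

theorem cr_ne {b c : ℂ} (h : 0 < cr b c) : b ≠ 0 ∧ c ≠ 0 := by
  constructor
  · rintro rfl
    simp [cr] at h
  · rintro rfl
    simp [cr] at h

theorem im_div (b c : ℂ) : (c / b).im = cr b c / Complex.normSq b := by
  rw [Complex.div_im]
  unfold cr
  ring

theorem th_of_cr {b c : ℂ} (h : 0 < cr b c) : th b c = Complex.arg (c / b) ∧ th b c < Real.pi := by
  obtain ⟨hb, hc⟩ := cr_ne h
  have him : 0 < (c / b).im := by
    rw [im_div]
    exact div_pos h (Complex.normSq_pos.mpr hb)
  have h1 : 0 < Complex.arg (c / b) := by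
    have h2 : 0 ≤ Complex.arg (c / b) := Complex.arg_nonneg_iff.mpr him.le
    rcases h2.lt_or_eq with h3 | h3
    · exact h3
    · have := (Complex.arg_eq_zero_iff.mp h3.symm).2
      linarith
  have h2 : Complex.arg (c / b) < Real.pi := by
    rw [Complex.arg_lt_pi_iff]
    exact Or.inr him.ne'
  obtain ⟨k, hk⟩ := th_eq b c
  have h3 := th_pos b c
  have h4 := th_le b c
  have hpi := Real.pi_pos
  have hk0 : k = 0 := by
    have hk1 : (k : ℝ) < 1 := by
      by_contra hc'
      push Not at hc'
      nlinarith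
    have hk2 : (-1 : ℝ) < k := by
      by_contra hc'
      push Not at hc'
      nlinarith
    have hk1' : k < 1 := by exact_mod_cast hk1
    have hk2' : -1 < k := by exact_mod_cast hk2
    omega
  rw [hk0] at hk
  simp only [Int.cast_zero, mul_zero, sub_zero] at hk
  exact ⟨hk, by rw [hk]; exact h2⟩

theorem cr_of_th {b c : ℂ} (hb : b ≠ 0) (h : th b c < Real.pi) : 0 < cr b c := by
  obtain ⟨k, hk⟩ := th_eq b c
  have h3 := th_pos b c
  have hpi := Real.pi_pos
  have h5 := Complex.arg_le_pi (c / b)
  have h6 := Complex.neg_pi_lt_arg (c / b)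
  have hk0 : k = 0 := by
    have hk1 : (k : ℝ) < 1 := by
      by_contra hc'
      push Not at hc'
      nlinarith
    have hk2 : (-1 : ℝ) < k := by
      by_contra hc'
      push Not at hc'
      nlinarith
    have hk1' : k < 1 := by exact_mod_cast hk1
    have hk2' : -1 < k := by exact_mod_cast hk2
    omega
  rw [hk0] at hk
  simp only [Int.cast_zero, mul_zero, sub_zero] at hk
  have him : 0 < (c / b).im := by
    rcases lt_trichotomy (c / b).im 0 with h7 | h7 | h7
    · have := Complex.arg_neg_iff.mpr h7
      linarith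
    · exfalso
      rcases le_or_gt 0 (c / b).re with h8 | h8
      · have := Complex.arg_eq_zero_iff.mpr ⟨h8, h7⟩
        linarith
      · have := Complex.arg_eq_pi_iff.mpr ⟨h8, h7⟩
        linarith
    · exact h7
  rw [im_div] at him
  have hn := Complex.normSq_pos.mpr hb
  by_contra hc'
  push Not at hc'
  have : cr b c / Complex.normSq b ≤ 0 := div_nonpos_of_nonpos_of_nonneg hc' hn.le
  linarith

/-- additivity of angles -/
theorem th_add {a b x : ℂ} (ha : a ≠ 0) (hb : b ≠ 0) (hx : x ≠ 0) :
    th a b + th b x = th a x ∨ th a b + th b x = th a x + 2 * Real.pi := by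
  obtain ⟨k1, h1⟩ := th_eq a b
  obtain ⟨k2, h2⟩ := th_eq b x
  obtain ⟨k3, h3⟩ := th_eq a x
  have key : ((Complex.arg (b / a) + Complex.arg (x / b) : ℝ) : Real.Angle) =
      (Complex.arg (x / a) : Real.Angle) := by
    rw [Real.Angle.coe_add, ← Complex.arg_mul_coe_angle (div_ne_zero hb ha) (div_ne_zero hx hb)]
    congr 2
    field_simp
  rw [Real.Angle.angle_eq_iff_two_pi_dvd_sub] at key
  obtain ⟨n, hn⟩ := key
  have p1 := th_pos a b
  have p2 := th_pos b x
  have p3 := th_pos a x
  have q1 := th_le a b
  have q2 := th_le b x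
  have q3 := th_le a x
  have hpi := Real.pi_pos
  have hsum : th a b + th b x - th a x = 2 * Real.pi * ((n - k1 - k2 + k3 : ℤ) : ℝ) := by
    rw [h1, h2, h3]
    push_cast
    linarith
  obtain ⟨m, hm⟩ : ∃ m : ℤ, m = n - k1 - k2 + k3 := ⟨_, rfl⟩
  rw [← hm] at hsum
  have hm1 : (m : ℝ) < 2 := by
    by_contra hc'
    push Not at hc'
    nlinarith
  have hm2 : (-1 : ℝ) < m := by
    by_contra hc'
    push Not at hc'
    nlinarith
  have hm1' : m < 2 := by exact_mod_cast hm1
  have hm2' : -1 < m := by exact_mod_cast hm2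
  have : m = 0 ∨ m = 1 := by omega
  rcases this with h | h
  · left
    rw [h] at hsum
    simp at hsum
    linarith
  · right
    rw [h] at hsum
    simp at hsum
    linarith

theorem th_self {a : ℂ} (ha : a ≠ 0) : th a a = 2 * Real.pi := by
  have := th_add ha ha ha
  have h1 := th_pos a a
  rcases this with h | h <;> linarith

theorem th_symm {a b : ℂ} (ha : a ≠ 0) (hb : b ≠ 0) (h : th a b < 2 * Real.pi) :
    th b a = 2 * Real.pi - th a b := by
  have h1 := th_add ha hb ha
  have h2 := th_self ha
  have h3 := th_le b a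
  rcases h1 with h1 | h1 <;> linarith

theorem cone_of_th {b c x : ℂ} (hx : x ≠ 0) (hc : 0 < cr b c) (h : th b x < th b c) :
    cone b c x := by
  obtain ⟨hb, hc'⟩ := cr_ne hc
  have h1 := th_of_cr hc
  have h2 := th_pos b x
  have h3 := th_pos x c
  have h4 := th_le x c
  rcases th_add hb hx hc' with h5 | h5
  · exact ⟨cr_of_th hb (by linarith), cr_of_th hx (by linarith)⟩
  · linarith

theorem ray_of_th {b x : ℂ} (hb : b ≠ 0) (hx : x ≠ 0) (h : th b x = 2 * Real.pi) :
    ∃ r : ℝ, 0 < r ∧ x = r * b := by
  obtain ⟨k, hk⟩ := th_eq b x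
  have h5 := Complex.arg_le_pi (x / b)
  have h6 := Complex.neg_pi_lt_arg (x / b)
  have hpi := Real.pi_pos
  have hk0 : k = -1 := by
    have hk1 : (k : ℝ) < 0 := by
      by_contra hc'
      push Not at hc'
      nlinarith
    have hk2 : (-2 : ℝ) < k := by
      by_contra hc'
      push Not at hc'
      nlinarith
    have hk1' : k < 0 := by exact_mod_cast hk1
    have hk2' : -2 < k := by exact_mod_cast hk2
    omega
  rw [hk0] at hk
  simp only [Int.cast_neg, Int.cast_one] at hk
  have h7 : Complex.arg (x / b) = 0 := by linarith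
  obtain ⟨h8, h9⟩ := Complex.arg_eq_zero_iff.mp h7
  refine ⟨(x / b).re, ?_, ?_⟩
  · rcases h8.lt_or_eq with h | h
    · exact h
    · exfalso
      have : x / b = 0 := Complex.ext h.symm h9
      exact (div_ne_zero hx hb) this
  · have : x / b = ((x / b).re : ℂ) := Complex.ext rfl (by simp [h9])
    rw [← this]
    field_simp

theorem ray_of_th_eq {a b x : ℂ} (ha : a ≠ 0) (hb : b ≠ 0) (hx : x ≠ 0) (h : th a x = th a b) :
    ∃ r : ℝ, 0 < r ∧ x = r * b := by
  apply ray_of_th hb hx
  have h1 := th_add ha hb hx
  have h2 := th_pos b x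
  rcases h1 with h1 | h1 <;> linarith

theorem cr_add_right (a b c : ℂ) : cr a (b + c) = cr a b + cr a c := by
  unfold cr; simp; ring

theorem cr_add_left (a b c : ℂ) : cr (a + b) c = cr a c + cr b c := by
  unfold cr; simp; ring

theorem cr_smul_right (a b : ℂ) (r : ℝ) : cr a (r * b) = r * cr a b := by
  unfold cr; simp; ring

theorem cr_smul_left (a b : ℂ) (r : ℝ) : cr (r * a) b = r * cr a b := by
  unfold cr; simp; ring

theorem cr_self (a : ℂ) : cr a a = 0 := by
  unfold cr; ring

/-- an open condition at `0` -/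
theorem small_eps {A B C D : ℝ} (hA : 0 < A) (hC : 0 < C) :
    ∃ ε : ℝ, 0 < ε ∧ 0 < A + ε * B ∧ 0 < C + ε * D := by
  refine ⟨min (A / (|B| + 1)) (C / (|D| + 1)) / 2, by positivity, ?_, ?_⟩
  · obtain ⟨ε, hε⟩ : ∃ ε, ε = min (A / (|B| + 1)) (C / (|D| + 1)) / 2 := ⟨_, rfl⟩
    rw [← hε]
    have h0 : 0 < ε := by rw [hε]; positivity
    have h1 : ε < A / (|B| + 1) := by
      have : min (A / (|B| + 1)) (C / (|D| + 1)) ≤ A / (|B| + 1) := min_le_left _ _
      have h2 : 0 < A / (|B| + 1) := by positivity
      have h3 : 0 < C / (|D| + 1) := by positivity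
      have h4 := lt_min h2 h3
      linarith
    have h2 : ε * (|B| + 1) < A := by
      rwa [lt_div_iff₀ (by positivity)] at h1
    have h3 : -|B| ≤ B := neg_abs_le B
    nlinarith
  · obtain ⟨ε, hε⟩ : ∃ ε, ε = min (A / (|B| + 1)) (C / (|D| + 1)) / 2 := ⟨_, rfl⟩
    rw [← hε]
    have h0 : 0 < ε := by rw [hε]; positivity
    have h1 : ε < C / (|D| + 1) := by
      have : min (A / (|B| + 1)) (C / (|D| + 1)) ≤ C / (|D| + 1) := min_le_right _ _
      have h2 : 0 < A / (|B| + 1) := by positivity
      have h3 : 0 < C / (|D| + 1) := by positivity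
      have h4 := lt_min h2 h3
      linarith
    have h2 : ε * (|D| + 1) < C := by
      rwa [lt_div_iff₀ (by positivity)] at h1
    have h3 : -|D| ≤ D := neg_abs_le D
    nlinarith

/-- The directions strictly between the first and the last vector of a chain of disjoint cones
are in the cones or on the intermediate rays. -/
theorem sector (a : ℕ → ℂ) (m : ℕ) (hm : 1 ≤ m)
    (hc : ∀ i, i < m → 0 < cr (a i) (a (i + 1)))
    (hd : ∀ i, 1 ≤ i → i < m → ∀ y, ¬ (cone (a 0) (a 1) y ∧ cone (a i) (a (i + 1)) y))
    (x : ℂ) (hx : x ≠ 0) (hlt : th (a 0) x < th (a 0) (a m)) :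
    (∃ i, i < m ∧ cone (a i) (a (i + 1)) x) ∨
      ∃ i, 1 ≤ i ∧ i < m ∧ ∃ r : ℝ, 0 < r ∧ x = r * a i := by
  have h01 := hc 0 (by omega)
  obtain ⟨h0, h1⟩ := cr_ne h01
  revert hlt
  revert hc hd
  induction m, hm using Nat.le_induction with
  | base =>
    intro hc hd hlt
    left
    exact ⟨0, by omega, cone_of_th hx h01 hlt⟩
  | succ m hm ih =>
    intro hc hd hlt
    have hcm := hc m (by omega)
    obtain ⟨hm0, hm1⟩ := cr_ne hcm
    have hδ := th_of_cr hcm
    have hΘ : th (a 0) (a m) < 2 * Real.pi := by
      by_contra hcon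
      have heq : th (a 0) (a m) = 2 * Real.pi := le_antisymm (th_le _ _) (not_lt.mp hcon)
      obtain ⟨r, hr, hra⟩ := ray_of_th h0 hm0 heq
      -- both cones start at the ray of `a 0`
      have hA : 0 < cr (a 0) (a (m + 1)) := by
        rw [hra, cr_smul_left] at hcm
        exact (mul_pos_iff_of_pos_left hr).mp hcm
      obtain ⟨ε, e1, e2, _⟩ := small_eps (B := cr (a 1) (a (m + 1))) (D := 0) hA one_pos
      apply hd m hm (by omega) (a 0 + ε * a 1)
      refine ⟨⟨?_, ?_⟩, ?_, ?_⟩
      · rw [cr_add_right, cr_smul_right, cr_self]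
        nlinarith
      · rw [cr_add_left, cr_smul_left, cr_self]
        nlinarith
      · rw [hra, cr_smul_left, cr_add_right, cr_smul_right, cr_self]
        have := mul_pos hr (mul_pos e1 h01)
        linarith
      · rw [cr_add_left, cr_smul_left]
        exact e2
    have hle : th (a 0) (a m) + th (a m) (a (m + 1)) = th (a 0) (a (m + 1)) := by
      rcases th_add h0 hm0 hm1 with h | h
      · exact h
      · exfalso
        have hs := th_symm h0 hm0 hΘ
        have hp := th_pos (a 0) (a (m + 1))
        have hcn := cone_of_th h0 hcm (by linarith)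
        obtain ⟨c1, c2⟩ := hcn
        obtain ⟨ε, e1, e2, e3⟩ := small_eps (B := cr (a m) (a 1)) (D := cr (a 1) (a (m + 1))) c1 c2
        apply hd m hm (by omega) (a 0 + ε * a 1)
        refine ⟨⟨?_, ?_⟩, ?_, ?_⟩
        · rw [cr_add_right, cr_smul_right, cr_self]
          nlinarith
        · rw [cr_add_left, cr_smul_left, cr_self]
          nlinarith
        · rw [cr_add_right, cr_smul_right]
          exact e2
        · rw [cr_add_left, cr_smul_left]
          exact e3
    rcases lt_trichotomy (th (a 0) x) (th (a 0) (a m)) with h | h | h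
    · rcases ih (fun i hi => hc i (by omega)) (fun i hi hi' => hd i hi (by omega)) h with
        ⟨i, hi, hh⟩ | ⟨i, hi, hi', hh⟩
      · exact Or.inl ⟨i, by omega, hh⟩
      · exact Or.inr ⟨i, hi, by omega, hh⟩
    · right
      exact ⟨m, hm, by omega, ray_of_th_eq h0 hm0 hx h⟩
    · left
      refine ⟨m, by omega, cone_of_th hx hcm ?_⟩
      have hb := th_le (a m) x
      rcases th_add h0 hm0 hx with h' | h' <;> linarith

/-- the outer corner -/
theorem outer_angle {b c x : ℂ} (hbc : 0 < cr b c) (hx : x ≠ 0) (h1 : 0 ≤ cr b x)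
    (h2 : 0 ≤ cr x c) : th c b ≤ th c x := by
  obtain ⟨hb, hc⟩ := cr_ne hbc
  rcases h2.lt_or_eq with h2 | h2
  · rcases h1.lt_or_eq with h1 | h1
    · have e1 := th_of_cr h1
      have e2 := th_of_cr h2
      have e3 := th_of_cr hbc
      have e4 := th_pos b x
      have hpi := Real.pi_pos
      rw [th_symm hx hc (by linarith), th_symm hb hc (by linarith)]
      rcases th_add hb hx hc with h | h
      · linarith
      · have := th_pos b c
        linarith
    · -- `x` is a positive multiple of `b`
      have hn := Complex.normSq_pos.mpr hb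
      have hxb : x = ((x / b).re : ℂ) * b := by
        have him : (x / b).im = 0 := by rw [im_div, ← h1, zero_div]
        have : x / b = ((x / b).re : ℂ) := Complex.ext rfl (by simp [him])
        rw [← this]
        field_simp
      have hr : 0 < (x / b).re := by
        rw [hxb, cr_smul_left] at h2
        exact (pos_iff_pos_of_mul_pos h2).mpr hbc
      have : th c x = th c b := by
        unfold th
        have h3 : x / c = ((x / b).re : ℂ) * (b / c) := by
          conv_lhs => rw [hxb]
          rw [mul_div_assoc]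
        rw [h3, Complex.arg_real_mul _ hr]
      rw [this]
  · -- `x` is parallel to `c`
    have hxc : x = ((x / c).re : ℂ) * c := by
      have him : (x / c).im = 0 := by
        rw [im_div]
        have : cr c x = - cr x c := by unfold cr; ring
        rw [this, ← h2]
        simp
      have : x / c = ((x / c).re : ℂ) := Complex.ext rfl (by simp [him])
      rw [← this]
      field_simp
    have hr : 0 < (x / c).re := by
      rw [hxc, cr_smul_right] at h1
      have h3 : 0 ≤ (x / c).re := by
        by_contra hneg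
        push Not at hneg
        have := mul_neg_of_neg_of_pos hneg hbc
        linarith
      rcases h3.lt_or_eq with h3 | h3
      · exact h3
      · exfalso
        rw [← h3] at hxc
        simp at hxc
        exact hx hxc
    have : th c x = 2 * Real.pi := by
      have h3 : th c x = th c c := by
        unfold th
        have h3 : x / c = ((x / c).re : ℂ) * (c / c) := by
          conv_lhs => rw [hxc]
          rw [mul_div_assoc]
        rw [h3, Complex.arg_real_mul _ hr]
      rw [h3, th_self hc]
    rw [this]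
    exact th_le _ _

/-! ### Triangles -/

/-- the vector from `a` to `c` -/
def vec (a c : Plane) : ℂ := ⟨c.1 - a.1, c.2 - a.2⟩

theorem det3_eq (a b c : Plane) : det3 a b c = cr (vec a b) (vec a c) := by
  unfold det3 cr vec
  ring

theorem ccw_eq (a b c : Plane) : ccwAngle a b c = th (vec a b) (vec a c) := rfl

theorem vec_ne {a b : Plane} (h : a ≠ b) : vec a b ≠ 0 := by
  intro h0
  apply h
  have h1 := congrArg Complex.re h0
  have h2 := congrArg Complex.im h0
  simp only [vec, Complex.zero_re, Complex.zero_im] at h1 h2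
  exact Prod.ext (by linarith) (by linarith)

/-- the point `a + ε y` -/
def pnt (a : Plane) (y : ℂ) (ε : ℝ) : Plane := (a.1 + ε * y.re, a.2 + ε * y.im)

theorem cone_tri {a b c : Plane} {y : ℂ} (hpos : 0 < det3 a b c)
    (h : cone (vec a b) (vec a c) y) :
    ∃ ε₀ : ℝ, 0 < ε₀ ∧ ∀ ε, 0 < ε → ε ≤ ε₀ → pnt a y ε ∈ openTri a b c := by
  obtain ⟨h1, h2⟩ := h
  obtain ⟨B, hB⟩ : ∃ B, B = (c.1 - b.1) * y.im - (c.2 - b.2) * y.re := ⟨_, rfl⟩
  refine ⟨det3 a b c / (2 * (|B| + 1)), by positivity, ?_⟩
  intro ε h3 h4
  have e1 : det3 a b (pnt a y ε) = ε * cr (vec a b) y := by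
    unfold det3 cr vec pnt; ring
  have e2 : det3 c a (pnt a y ε) = ε * cr y (vec a c) := by
    unfold det3 cr vec pnt; ring
  have e3 : det3 b c (pnt a y ε) = det3 a b c + ε * B := by
    rw [hB]; unfold det3 pnt; ring
  refine ⟨?_, ?_, ?_⟩
  · rw [e1]; positivity
  · rw [e3]
    have h5 : ε * (2 * (|B| + 1)) ≤ det3 a b c := by
      rwa [le_div_iff₀ (by positivity)] at h4
    have h6 : -|B| ≤ B := neg_abs_le B
    nlinarith
  · rw [e2]; positivity

theorem openTri_rot (a b c : Plane) : openTri b c a = openTri a b c := by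
  unfold openTri
  ext P
  simp only [Set.mem_ofPred_eq]
  tauto

theorem det3_rot (a b c : Plane) : det3 b c a = det3 a b c := by
  unfold det3; ring

variable {V : Type}

/-- `t` is a rotation of `(v, z, z')` -/
def IsTriAt (t : V × V × V) (v z z' : V) : Prop :=
  t = (v, z, z') ∨ t = (z, z', v) ∨ t = (z', v, z)

theorem IsTriAt.open {t : V × V × V} {v z z' : V} (h : IsTriAt t v z z') (p : V → Plane) :
    tOpen p t = openTri (p v) (p z) (p z') := by
  rcases h with rfl | rfl | rfl
  · rfl
  · unfold tOpen
    simp only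
    rw [openTri_rot]
  · unfold tOpen
    simp only
    rw [← openTri_rot]

theorem IsTriAt.det {t : V × V × V} {v z z' : V} (h : IsTriAt t v z z') (p : V → Plane) :
    det3 (p t.1) (p t.2.1) (p t.2.2) = det3 (p v) (p z) (p z') := by
  rcases h with rfl | rfl | rfl
  · rfl
  · simp only
    rw [det3_rot]
  · simp only
    rw [← det3_rot]

theorem IsTriAt.dart {t : V × V × V} {v z z' : V} (h : IsTriAt t v z z') :
    (v, z) ∈ triDarts t := by
  rcases h with rfl | rfl | rfl <;> simp [triDarts]

theorem IsTriAt.dart' {t : V × V × V} {v z z' : V} (h : IsTriAt t v z z') :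
    (z', v) ∈ triDarts t := by
  rcases h with rfl | rfl | rfl <;> simp [triDarts]

theorem tri_ne {p : V → Plane} {t : V × V × V} (hpos : 0 < det3 (p t.1) (p t.2.1) (p t.2.2))
    {d : V × V} (hd : d ∈ triDarts t) : p d.1 ≠ p d.2 := by
  obtain ⟨x, y, z⟩ := t
  simp only [triDarts, List.mem_cons, List.not_mem_nil, or_false] at hd
  simp only at hpos
  intro he
  rcases hd with rfl | rfl | rfl <;> simp only at he <;> rw [he] at hpos <;> unfold det3 at hpos <;>
    nlinarith

variable {G : FaceMap V} {p : V → Plane} {a b c : V}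

theorem dart_tri (hT : Tame G p a b c) {d : V × V} (hd : d ∈ G.darts) :
    d ∈ G.tris.flatMap triDarts ∨ d.swap ∈ G.tris.flatMap triDarts := by
  unfold FaceMap.darts FaceMap.walks at hd
  rw [List.mem_flatMap] at hd
  obtain ⟨w, hw, hdw⟩ := hd
  rw [List.mem_cons] at hw
  rcases hw with rfl | hw
  · right
    rw [hT.outer_eq] at hdw
    simp only [dartsOf, List.rotate_cons_succ, List.rotate_zero, List.cons_append, List.nil_append,
      List.zip_cons_cons, List.zip_nil_right, List.mem_cons, List.not_mem_nil, or_false] at hdw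
    rcases hdw with rfl | rfl | rfl
    · exact (hT.nice.out_mem (c, a) (by simp)).1
    · exact (hT.nice.out_mem (b, c) (by simp)).1
    · exact (hT.nice.out_mem (a, b) (by simp)).1
  · left
    rw [List.mem_map] at hw
    obtain ⟨f, hf, rfl⟩ := hw
    exact hT.sub f hf d hdw

/-- the open triangles do not meet the edges of `G` -/
theorem edge_out (hT : Tame G p a b c) {v x : V} (hd : (v, x) ∈ G.darts) {t : V × V × V}
    (ht : t ∈ G.tris) {P : Plane} (hP : P ∈ segment ℝ (p v) (p x)) : P ∉ tOpen p t := by
  rcases dart_tri hT hd with h | h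
  · exact hT.planar.openDisj t ht _ h P hP
  · refine hT.planar.openDisj t ht _ h P ?_
    simp only [Prod.fst_swap, Prod.snd_swap]
    rw [segment_symm]
    exact hP

theorem dart_ne (hT : Tame G p a b c) {v x : V} (hd : (v, x) ∈ G.darts) : p v ≠ p x := by
  rcases dart_tri hT hd with h | h
  · obtain ⟨t, ht, hdt⟩ := List.mem_flatMap.mp h
    exact tri_ne (hT.nice.pos t ht) hdt
  · obtain ⟨t, ht, hdt⟩ := List.mem_flatMap.mp h
    exact (tri_ne (hT.nice.pos t ht) hdt).symm

theorem pnt_mem_segment (v x : Plane) {ε : ℝ} (h0 : 0 ≤ ε) (h1 : ε ≤ 1) :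
    pnt v (vec v x) ε ∈ segment ℝ v x := by
  refine ⟨1 - ε, ε, by linarith, h0, by ring, ?_⟩
  unfold pnt vec
  ext
  · simp only [Prod.fst_add, Prod.smul_fst, smul_eq_mul]
    ring
  · simp only [Prod.snd_add, Prod.smul_snd, smul_eq_mul]
    ring

/-- the main statement for a corner which is filled by a chain of triangles -/
theorem corner_core (hT : Tame G p a b c) (v : V) (z : ℕ → V) (m : ℕ) (hm : 1 ≤ m)
    (t : ℕ → V × V × V) (ht : ∀ i, i < m → t i ∈ G.tris ∧ IsTriAt (t i) v (z i) (z (i + 1)))
    (hdisj : ∀ i, 1 ≤ i → i < m → Disjoint (tOpen p (t 0)) (tOpen p (t i)))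
    (hmid : ∀ i, 1 ≤ i → i < m → (v, z i) ∉ G.darts) (x : V) (hx : (v, x) ∈ G.darts) :
    ccwAngle (p v) (p (z 0)) (p (z m)) ≤ ccwAngle (p v) (p (z 0)) (p x) := by
  by_contra hcon
  push Not at hcon
  rw [ccw_eq, ccw_eq] at hcon
  have hdet : ∀ i, i < m → 0 < det3 (p v) (p (z i)) (p (z (i + 1))) := by
    intro i hi
    rw [← (ht i hi).2.det p]
    exact hT.nice.pos _ (ht i hi).1
  have hxv := vec_ne (dart_ne hT hx)
  have hdc : ∀ i, 1 ≤ i → i < m → ∀ y, ¬ (cone (vec (p v) (p (z 0))) (vec (p v) (p (z 1))) y ∧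
      cone (vec (p v) (p (z i))) (vec (p v) (p (z (i + 1)))) y) := by
    intro i hi hi' y ⟨hy1, hy2⟩
    obtain ⟨ε₁, e1, f1⟩ := cone_tri (hdet 0 (by omega)) hy1
    obtain ⟨ε₂, e2, f2⟩ := cone_tri (hdet i hi') hy2
    have g1 := f1 (min ε₁ ε₂) (lt_min e1 e2) (min_le_left _ _)
    have g2 := f2 (min ε₁ ε₂) (lt_min e1 e2) (min_le_right _ _)
    rw [← (ht 0 (by omega)).2.open p] at g1
    rw [← (ht i hi').2.open p] at g2
    exact Set.disjoint_left.mp (hdisj i hi hi') g1 g2
  rcases sector (fun i => vec (p v) (p (z i))) m hm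
    (fun i hi => by rw [← det3_eq]; exact hdet i hi) hdc (vec (p v) (p x)) hxv hcon with
    ⟨i, hi, hc⟩ | ⟨i, hi, hi', r, hr, hxr⟩
  · obtain ⟨ε₀, h0, h1⟩ := cone_tri (hdet i hi) hc
    have h2 := h1 (min ε₀ 1) (lt_min h0 one_pos) (min_le_left _ _)
    rw [← (ht i hi).2.open p] at h2
    exact edge_out hT hx (ht i hi).1
      (pnt_mem_segment (p v) (p x) (le_min h0.le zero_le_one) (min_le_right _ _)) h2
  · -- the ray of `z i`
    have hd : (v, z i) ∈ G.tris.flatMap triDarts :=
      List.mem_flatMap.mpr ⟨t i, (ht i hi').1, (ht i hi').2.dart⟩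
    have hvz : p v ≠ p (z i) := tri_ne (hT.nice.pos _ (ht i hi').1) (ht i hi').2.dart
    have hne : x ≠ z i := by
      rintro rfl
      exact hmid i hi hi' hx
    have hvne : v ≠ z i := fun h => hvz (by rw [← h])
    have hvx : v ≠ x := fun h => dart_ne hT hx (by rw [← h])
    obtain ⟨s, hs⟩ : ∃ s, s = min (1 / 2) r := ⟨_, rfl⟩
    have hs0 : 0 < s := by rw [hs]; exact lt_min (by norm_num) hr
    have hs1 : s ≤ 1 / 2 := by rw [hs]; exact min_le_left _ _
    have hs2 : s ≤ r := by rw [hs]; exact min_le_right _ _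
    have hP1 := pnt_mem_segment (p v) (p (z i)) hs0.le (by linarith)
    have hP2 := pnt_mem_segment (p v) (p x) (div_nonneg hs0.le hr.le)
      ((div_le_one hr).mpr hs2)
    have hPP : pnt (p v) (vec (p v) (p x)) (s / r) = pnt (p v) (vec (p v) (p (z i))) s := by
      rw [hxr]
      unfold pnt
      ext
      · simp only [Complex.mul_re, Complex.ofReal_re, Complex.ofReal_im, zero_mul, sub_zero]
        field_simp
      · simp only [Complex.mul_im, Complex.ofReal_re, Complex.ofReal_im, zero_mul, add_zero]
        field_simp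
    rw [hPP] at hP2
    have hbad : ∀ v', (v' = v ∨ v' = z i) →
        pnt (p v) (vec (p v) (p (z i))) s = p v' → False := by
      rintro v' (rfl | rfl) h
      · have h1 := congrArg Prod.fst h
        have h2 := congrArg Prod.snd h
        simp only [pnt, vec] at h1 h2
        apply hvz
        have e1 : s * ((p (z i)).1 - (p v').1) = 0 := by linarith
        have e2 : s * ((p (z i)).2 - (p v').2) = 0 := by linarith
        have e3 := (mul_eq_zero.mp e1).resolve_left hs0.ne'
        have e4 := (mul_eq_zero.mp e2).resolve_left hs0.ne'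
        exact Prod.ext (by linarith) (by linarith)
      · have h1 := congrArg Prod.fst h
        have h2 := congrArg Prod.snd h
        simp only [pnt, vec] at h1 h2
        apply hvz
        have e1 : (1 - s) * ((p (z i)).1 - (p v).1) = 0 := by linarith
        have e2 : (1 - s) * ((p (z i)).2 - (p v).2) = 0 := by linarith
        have hs' : 1 - s ≠ 0 := by linarith
        have e3 := (mul_eq_zero.mp e1).resolve_left hs'
        have e4 := (mul_eq_zero.mp e2).resolve_left hs'
        exact Prod.ext (by linarith) (by linarith)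
    rcases dart_tri hT hx with h | h
    · obtain ⟨v', h1, h2, h3⟩ := hT.planar.noncrossing _ hd _ h
        (fun h => hne (congrArg Prod.snd h)) (fun h => hvne (congrArg Prod.fst h)) _ hP1 hP2
      exact hbad v' h1 h3
    · obtain ⟨v', h1, h2, h3⟩ := hT.planar.noncrossing _ hd _ h
        (fun h => hvx (congrArg Prod.fst h).symm) (fun h => hne (congrArg Prod.fst h)) _ hP1
        (by simp only [Prod.swap_prod_mk]; rw [segment_symm]; exact hP2)
      exact hbad v' h1 h3

/-! ### Walks -/

theorem mem_dartsOf {w : List V} {v₀ : V} {d : V × V} (hd : d ∈ dartsOf w) :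
    ∃ i, i < w.length ∧ d = (w.getD i v₀, w.getD ((i + 1) % w.length) v₀) := by
  unfold dartsOf at hd
  obtain ⟨i, hi, rfl⟩ := List.mem_iff_getElem.mp hd
  have hl : i < w.length := by
    rw [List.length_zip, List.length_rotate] at hi
    omega
  have hl2 : (i + 1) % w.length < w.length := Nat.mod_lt _ (by omega)
  refine ⟨i, hl, ?_⟩
  rw [List.getElem_zip, List.getElem_rotate, List.getD_eq_getElem _ _ hl,
    List.getD_eq_getElem _ _ hl2]

theorem mem_cornersOf {w : List V} {v₀ : V} {k : V × V × V} (hk : k ∈ cornersOf w) :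
    ∃ i, i < w.length ∧ k = (w.getD i v₀, w.getD ((i + 1) % w.length) v₀,
      w.getD ((i + 2) % w.length) v₀) := by
  unfold cornersOf at hk
  obtain ⟨i, hi, rfl⟩ := List.mem_iff_getElem.mp hk
  have hl : i < w.length := by
    rw [List.length_zip, List.length_zip, List.length_rotate, List.length_rotate] at hi
    omega
  have hl2 : (i + 1) % w.length < w.length := Nat.mod_lt _ (by omega)
  have hl3 : (i + 2) % w.length < w.length := Nat.mod_lt _ (by omega)
  refine ⟨i, hl, ?_⟩
  rw [List.getElem_zip, List.getElem_zip, List.getElem_rotate, List.getElem_rotate,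
    List.getD_eq_getElem _ _ hl, List.getD_eq_getElem _ _ hl2, List.getD_eq_getElem _ _ hl3]

theorem fan_length (v₀ : V) (l : List V) : (fanTris (v₀ :: l)).length = l.length - 1 := by
  unfold fanTris
  rw [List.length_map, List.length_zip, List.length_tail]
  omega

theorem fan_get (v₀ : V) (l : List V) (i : ℕ) (hi : i < (fanTris (v₀ :: l)).length) :
    (fanTris (v₀ :: l))[i] = (v₀, l.getD i v₀, l.getD (i + 1) v₀) := by
  have h := hi
  rw [fan_length] at h
  rw [List.getD_eq_getElem _ _ (by omega), List.getD_eq_getElem _ _ (by omega)]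
  simp [fanTris]

theorem inner_corner (hT : Tame G p a b c) {f : List V × ℚ} (hf : f ∈ G.inner)
    {k : V × V × V} (hk : k ∈ cornersOf f.1) (x : V) (hx : (k.2.1, x) ∈ G.darts) :
    ccwAngle (p k.2.1) (p k.2.2) (p k.1) ≤ ccwAngle (p k.2.1) (p k.2.2) (p x) := by
  have hfan := hT.fan f hf
  obtain ⟨w, q⟩ := f
  simp only at hk hfan
  cases w with
  | nil => exact absurd hfan (by simp [FanPos])
  | cons v₀ l =>
    obtain ⟨hlen, hchain⟩ := hfan
    rw [List.isChain_iff_getElem] at hchain
    obtain ⟨L, hL⟩ : ∃ L : ℕ → V, L = fun i => l.getD i v₀ := ⟨_, rfl⟩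
    have hLg : ∀ i, l.getD i v₀ = L i := fun i => by rw [hL]
    have hpos : ∀ i, i + 1 < l.length → 0 < det3 (p v₀) (p (L i)) (p (L (i + 1))) := by
      intro i hi
      have := hchain i hi
      rw [← List.getD_eq_getElem _ v₀ (by omega), ← List.getD_eq_getElem _ v₀ hi, hLg, hLg] at this
      exact this
    have hmemT : ∀ i, i + 1 < l.length → (v₀, L i, L (i + 1)) ∈ fanTris (v₀ :: l) := by
      intro i hi
      have h1 : i < (fanTris (v₀ :: l)).length := by rw [fan_length]; omega
      have := List.getElem_mem h1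
      rw [fan_get, hLg, hLg] at this
      exact this
    have hsubl : (fanTris (v₀ :: l)).Sublist G.tris := by
      unfold FaceMap.tris
      rw [List.flatMap_def]
      exact List.sublist_flatten_of_mem (List.mem_map.mpr ⟨_, hf, rfl⟩)
    have hT1 : ∀ i, i + 1 < l.length → (v₀, L i, L (i + 1)) ∈ G.tris :=
      fun i hi => hsubl.subset (hmemT i hi)
    have hdj : ∀ i j, i < j → j + 1 < l.length →
        Disjoint (tOpen p (v₀, L i, L (i + 1))) (tOpen p (v₀, L j, L (j + 1))) := by
      intro i j hij hj
      have h1 := (hT.nice.disj.sublist hsubl)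
      rw [List.pairwise_iff_getElem] at h1
      have h2 := h1 i j (by rw [fan_length]; omega) (by rw [fan_length]; omega) hij
      rw [fan_get, fan_get] at h2
      simpa only [hLg] using h2
    have hdd : ∀ i j, i < j → j + 1 < l.length →
        List.Disjoint (triDarts (v₀, L i, L (i + 1))) (triDarts (v₀, L j, L (j + 1))) := by
      intro i j hij hj
      have h1 := ((List.nodup_flatMap.mp hT.nice.darts_nodup).2.sublist hsubl)
      rw [List.pairwise_iff_getElem] at h1
      have h2 := h1 i j (by rw [fan_length]; omega) (by rw [fan_length]; omega) hij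
      rw [fan_get, fan_get] at h2
      simpa only [hLg, Function.onFun] using h2
    -- the first vertex occurs only once
    have hLne : ∀ i, i < l.length → L i ≠ v₀ := by
      intro i hi he
      by_cases hi' : i + 1 < l.length
      · have := hpos i hi'
        rw [he] at this
        unfold det3 at this
        nlinarith
      · have := hpos (i - 1) (by omega)
        rw [show i - 1 + 1 = i by omega, he] at this
        unfold det3 at this
        nlinarith
    have hW0 : (v₀ :: l).getD 0 v₀ = v₀ := rfl
    have hWs : ∀ i, (v₀ :: l).getD (i + 1) v₀ = L i := by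
      intro i
      rw [List.getD_cons_succ, hLg]
    have hlenw : (v₀ :: l).length = l.length + 1 := rfl
    have hd1 : ∀ y, (v₀, y) ∈ dartsOf (v₀ :: l) → y = L 0 := by
      intro y hy
      obtain ⟨i, hi, he⟩ := mem_dartsOf (v₀ := v₀) hy
      rw [hlenw] at hi he
      rcases Nat.eq_zero_or_pos i with rfl | hi0
      · have h1 := congrArg Prod.snd he
        simp only [zero_add] at h1
        rw [Nat.mod_eq_of_lt (by omega)] at h1
        rw [h1]
        exact hWs 0
      · exfalso
        have h1 := congrArg Prod.fst he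
        simp only at h1
        obtain ⟨i, rfl⟩ : ∃ j, i = j + 1 := ⟨i - 1, by omega⟩
        rw [hWs] at h1
        exact hLne i (by omega) h1.symm
    have hd2 : ∀ y, (y, v₀) ∈ dartsOf (v₀ :: l) → y = L (l.length - 1) := by
      intro y hy
      obtain ⟨i, hi, he⟩ := mem_dartsOf (v₀ := v₀) hy
      rw [hlenw] at hi he
      by_cases hil : i = l.length
      · have h1 := congrArg Prod.fst he
        simp only at h1
        rw [h1, hil, show l.length = l.length - 1 + 1 by omega, hWs]
        simp
      · exfalso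
        have h1 := congrArg Prod.snd he
        simp only at h1
        rw [Nat.mod_eq_of_lt (by omega), hWs] at h1
        exact hLne i (by omega) h1.symm
    have hdiag := hT.diag _ hf
    simp only at hdiag
    -- the four kinds of corners
    obtain ⟨i, hi, he⟩ := mem_cornersOf (v₀ := v₀) hk
    rw [hlenw] at hi he
    by_cases hc1 : i = l.length
    · -- apex
      have h1 : (i + 1) % (l.length + 1) = 0 := by rw [hc1]; exact Nat.mod_self _
      have h2 : (i + 2) % (l.length + 1) = 1 := by
        rw [hc1, show l.length + 2 = 1 + (l.length + 1) by omega, Nat.add_mod_right]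
        exact Nat.mod_eq_of_lt (by omega)
      have h3 : (v₀ :: l).getD i v₀ = L (l.length - 1) := by
        rw [hc1]
        obtain ⟨n, hn⟩ : ∃ n, l.length = n + 1 := ⟨l.length - 1, by omega⟩
        rw [hn, hWs]
        simp
      have h4 : (v₀ :: l).getD 1 v₀ = L 0 := hWs 0
      rw [h1, h2, h3, h4, hW0] at he
      subst he
      simp only at hx ⊢
      refine corner_core hT v₀ L (l.length - 1) (by omega) (fun i => (v₀, L i, L (i + 1)))
        (fun i hi => ⟨hT1 i (by omega), Or.inl rfl⟩)
        (fun i h1 h2 => hdj 0 i (by omega) (by omega)) ?_ x hx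
      intro i h1 h2 hcon
      have hin : (v₀, L i) ∈ dartsOf (v₀ :: l) := by
        by_contra hnot
        exact (hdiag _ (hmemT i (by omega)) (v₀, L i) (by simp [triDarts]) hnot).1 hcon
      have h5 := hd1 _ hin
      refine hdd 0 i (by omega) (by omega) (a := (v₀, L 0)) (by simp [triDarts]) ?_
      rw [← h5]
      simp [triDarts]
    · have hil : i < l.length := by omega
      have h1 : (i + 1) % (l.length + 1) = i + 1 := Nat.mod_eq_of_lt (by omega)
      rw [h1, hWs] at he
      rcases Nat.eq_zero_or_pos i with rfl | hi0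
      · -- first vertex after the apex
        rw [hW0, Nat.mod_eq_of_lt (by omega)] at he
        have h4 : (v₀ :: l).getD (0 + 2) v₀ = L 1 := hWs 1
        rw [h4] at he
        subst he
        simp only at hx ⊢
        exact corner_core hT (L 0) (fun i => if i = 0 then L 1 else v₀) 1 le_rfl
          (fun _ => (v₀, L 0, L 1))
          (fun i hi => by
            obtain rfl : i = 0 := by omega
            exact ⟨hT1 0 (by omega), Or.inr (Or.inr rfl)⟩)
          (fun i h1 h2 => by omega) (fun i h1 h2 => by omega) x hx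
      · obtain ⟨j, rfl⟩ : ∃ j, i = j + 1 := ⟨i - 1, by omega⟩
        rw [hWs] at he
        by_cases hlast : j + 1 + 1 = l.length
        · -- last vertex
          have h2 : (j + 1 + 2) % (l.length + 1) = 0 := by
            rw [show j + 1 + 2 = l.length + 1 by omega]
            exact Nat.mod_self _
          rw [h2, hW0] at he
          subst he
          simp only at hx ⊢
          exact corner_core hT (L (j + 1)) (fun i => if i = 0 then v₀ else L j) 1 le_rfl
            (fun _ => (v₀, L j, L (j + 1)))
            (fun i hi => by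
              obtain rfl : i = 0 := by omega
              exact ⟨hT1 j (by omega), Or.inr (Or.inl rfl)⟩)
            (fun i h1 h2 => by omega) (fun i h1 h2 => by omega) x hx
        · -- inner vertex of the fan
          have h2 : (j + 1 + 2) % (l.length + 1) = j + 2 + 1 := Nat.mod_eq_of_lt (by omega)
          rw [h2, hWs] at he
          subst he
          simp only at hx ⊢
          refine corner_core hT (L (j + 1))
            (fun i => if i = 0 then L (j + 2) else if i = 1 then v₀ else L j) 2 (by omega)
            (fun i => if i = 0 then (v₀, L (j + 1), L (j + 2)) else (v₀, L j, L (j + 1)))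
            (fun i hi => ?_) (fun i h1 h2 => ?_) (fun i h1 h2 => ?_) x hx
          · rcases (show i = 0 ∨ i = 1 by omega) with rfl | rfl
            · exact ⟨hT1 (j + 1) (by omega), Or.inr (Or.inr rfl)⟩
            · exact ⟨hT1 j (by omega), Or.inr (Or.inl rfl)⟩
          · obtain rfl : i = 1 := by omega
            exact (hdj j (j + 1) (by omega) (by omega)).symm
          · obtain rfl : i = 1 := by omega
            simp only [one_ne_zero, if_false, if_true]
            intro hcon
            have hin : (L (j + 1), v₀) ∈ dartsOf (v₀ :: l) := by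
              by_contra hnot
              exact (hdiag _ (hmemT j (by omega)) (L (j + 1), v₀) (by simp [triDarts]) hnot).1
                hcon
            have h5 := hd2 _ hin
            refine hdd j (l.length - 2) (by omega) (by omega) (a := (L (j + 1), v₀))
              (by simp [triDarts]) ?_
            rw [h5, show l.length - 1 = l.length - 2 + 1 by omega]
            simp [triDarts]

/-! ### The outer walk -/

theorem mem_closedTri_of_vertex {A B C : Plane} {P Q R : Plane} (hpos : 0 < det3 P Q R)
    (hsub : openTri P Q R ⊆ openTri A B C) :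
    0 ≤ det3 A B P ∧ 0 ≤ det3 B C P ∧ 0 ≤ det3 C A P := by
  have key : ∀ S T : Plane, (∀ X ∈ openTri P Q R, 0 < det3 S T X) → 0 ≤ det3 S T P := by
    intro S T h
    by_contra hneg
    push Not at hneg
    obtain ⟨D, hD⟩ : ∃ D, D = det3 S T Q + det3 S T R - 2 * det3 S T P := ⟨_, rfl⟩
    obtain ⟨ε, h1, h2, h3⟩ := small_eps (B := -D) (D := -2) (neg_pos.mpr hneg) one_pos
    have hX := h ((1 - 2 * ε) • P + ε • Q + ε • R) ?_
    · have : det3 S T ((1 - 2 * ε) • P + ε • Q + ε • R) = det3 S T P + ε * D := by
        rw [hD]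
        unfold det3
        simp only [Prod.fst_add, Prod.snd_add, Prod.smul_fst, Prod.smul_snd, smul_eq_mul]
        ring
      rw [this] at hX
      linarith
    · refine ⟨?_, ?_, ?_⟩
      · have : det3 P Q ((1 - 2 * ε) • P + ε • Q + ε • R) = ε * det3 P Q R := by
          unfold det3
          simp only [Prod.fst_add, Prod.snd_add, Prod.smul_fst, Prod.smul_snd, smul_eq_mul]
          ring
        rw [this]; positivity
      · have : det3 Q R ((1 - 2 * ε) • P + ε • Q + ε • R) = (1 - 2 * ε) * det3 P Q R := by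
          unfold det3
          simp only [Prod.fst_add, Prod.snd_add, Prod.smul_fst, Prod.smul_snd, smul_eq_mul]
          ring
        rw [this]
        exact mul_pos (by linarith) hpos
      · have : det3 R P ((1 - 2 * ε) • P + ε • Q + ε • R) = ε * det3 P Q R := by
          unfold det3
          simp only [Prod.fst_add, Prod.snd_add, Prod.smul_fst, Prod.smul_snd, smul_eq_mul]
          ring
        rw [this]; positivity
  exact ⟨key A B fun X hX => (hsub hX).1, key B C fun X hX => (hsub hX).2.1,
    key C A fun X hX => (hsub hX).2.2⟩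

theorem vertex_in (hT : Tame G p a b c) {v x : V} (hd : (v, x) ∈ G.darts) :
    0 ≤ det3 (p a) (p b) (p x) ∧ 0 ≤ det3 (p b) (p c) (p x) ∧ 0 ≤ det3 (p c) (p a) (p x) := by
  have hmem : ∃ t ∈ G.tris, ∃ z z', IsTriAt t x z z' := by
    rcases dart_tri hT hd with h | h
    · obtain ⟨⟨t1, t2, t3⟩, ht, hdt⟩ := List.mem_flatMap.mp h
      simp only [triDarts, List.mem_cons, List.not_mem_nil, or_false, Prod.mk.injEq] at hdt
      rcases hdt with ⟨_, rfl⟩ | ⟨_, rfl⟩ | ⟨_, rfl⟩
      · exact ⟨_, ht, t3, t1, Or.inr (Or.inr rfl)⟩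
      · exact ⟨_, ht, t1, t2, Or.inr (Or.inl rfl)⟩
      · exact ⟨_, ht, t2, t3, Or.inl rfl⟩
    · obtain ⟨⟨t1, t2, t3⟩, ht, hdt⟩ := List.mem_flatMap.mp h
      simp only [triDarts, List.mem_cons, List.not_mem_nil, or_false, Prod.mk.injEq,
        Prod.swap_prod_mk] at hdt
      rcases hdt with ⟨rfl, _⟩ | ⟨rfl, _⟩ | ⟨rfl, _⟩
      · exact ⟨_, ht, t2, t3, Or.inl rfl⟩
      · exact ⟨_, ht, t3, t1, Or.inr (Or.inr rfl)⟩
      · exact ⟨_, ht, t1, t2, Or.inr (Or.inl rfl)⟩
  obtain ⟨t, ht, z, z', htri⟩ := hmem
  have hpos := hT.nice.pos t ht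
  rw [htri.det p] at hpos
  have hsub := hT.nice.sub t ht
  rw [htri.open p] at hsub
  exact mem_closedTri_of_vertex hpos hsub

theorem outer_core {A B C X : Plane} (hpos : 0 < det3 A B C) (hX : A ≠ X)
    (h1 : 0 ≤ det3 A B X) (h2 : 0 ≤ det3 C A X) : ccwAngle A C B ≤ ccwAngle A C X := by
  rw [ccw_eq, ccw_eq]
  refine outer_angle (by rw [← det3_eq]; exact hpos) (vec_ne hX) (by rw [← det3_eq]; exact h1) ?_
  rw [← det3_eq]
  have : det3 A X C = det3 C A X := by unfold det3; ring
  rw [this]
  exact h2

theorem outer_corner (hT : Tame G p a b c) {k : V × V × V} (hk : k ∈ cornersOf G.outer) (x : V)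
    (hx : (k.2.1, x) ∈ G.darts) :
    ccwAngle (p k.2.1) (p k.2.2) (p k.1) ≤ ccwAngle (p k.2.1) (p k.2.2) (p x) := by
  have hpos := hT.nice.outer_pos
  rw [hT.outer_eq] at hk
  simp only [cornersOf, List.rotate_cons_succ, List.rotate_zero, List.cons_append, List.nil_append,
      List.zip_cons_cons, List.zip_nil_right, List.mem_cons, List.not_mem_nil, or_false] at hk
  obtain ⟨h1, h2, h3⟩ := vertex_in hT hx
  have hne := dart_ne hT hx
  rcases hk with rfl | rfl | rfl
  · -- corner at `c`
    simp only at hne ⊢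
    refine outer_core (by rw [← det3_rot]; exact hpos) hne h3 h2
  · simp only at hne ⊢
    refine outer_core (by rw [det3_rot]; exact hpos) hne h2 h1
  · simp only at hne ⊢
    exact outer_core hpos hne h1 h3

end Rot

/-- Job Y-ROT. -/
theorem targetRot : TargetRot := by
  intro V G p a b c hT f hf k hk x hx _
  unfold FaceMap.walks at hf
  rw [List.mem_cons] at hf
  rcases hf with rfl | hf
  · exact Rot.outer_corner hT hk x hx
  · rw [List.mem_map] at hf
    obtain ⟨f, hf, rfl⟩ := hf
    exact Rot.inner_corner hT hf hk x hx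

end Pool.Agent.PAH
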