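import Pool.Agent.PAH.Targets

set_option autoImplicit false

/-!
# Membership in the faces of a drawing by crossing numbers
-/

namespace Pool.Agent.PAH

namespace Slice

open Set

variable {V : Type}

/-! ## One edge and a vertical line -/

/-- height of the line `a b` over `x` -/
noncomputable def ht (a b : Plane) (x : ℝ) : ℝ := a.2 + (b.2 - a.2) * (x - a.1) / (b.1 - a.1)

lemma det3_eq {a b : Plane} (x : ℝ) (h : a.1 < b.1) (t : ℝ) :
    det3 a b (x, t) = (b.1 - a.1) * (t - ht a b x) := by
  unfold det3 ht
  have h1 : b.1 - a.1 ≠ 0 := by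
    have : 0 < b.1 - a.1 := by linarith
    exact this.ne'
  field_simp
  ring

lemma det3_pos_iff {a b : Plane} (x : ℝ) (h : a.1 < b.1) (t : ℝ) :
    0 < det3 a b (x, t) ↔ ht a b x < t := by
  rw [det3_eq x h]
  have h1 : 0 < b.1 - a.1 := by linarith
  rw [mul_pos_iff_of_pos_left h1]
  constructor <;> intro h <;> linarith

lemma mem_open {a b : Plane} {x : ℝ} (h1 : a.1 < x) (h2 : x < b.1) :
    (x, ht a b x) ∈ openSegment ℝ a b := by
  have h3 : 0 < b.1 - a.1 := by linarith
  refine ⟨(b.1 - x) / (b.1 - a.1), (x - a.1) / (b.1 - a.1), div_pos (by linarith) h3,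
    div_pos (by linarith) h3, ?_, ?_⟩
  · field_simp
    ring
  · ext
    · simp only [Prod.fst_add, Prod.smul_fst, smul_eq_mul]
      field_simp
      ring
    · simp only [Prod.snd_add, Prod.smul_snd, smul_eq_mul]
      unfold ht
      field_simp
      ring

lemma seg_iff {a b : Plane} {x t : ℝ} (h1 : a.1 < x) (h2 : x < b.1) :
    (x, t) ∈ segment ℝ a b ↔ t = ht a b x := by
  constructor
  · rintro ⟨r, s, hr, hs, hrs, h⟩
    have e1 : r * a.1 + s * b.1 = x := by
      have := congrArg Prod.fst h
      simpa using this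
    have e2 : r * a.2 + s * b.2 = t := by
      have := congrArg Prod.snd h
      simpa using this
    have h3 : 0 < b.1 - a.1 := by linarith
    have e3 : s = (x - a.1) / (b.1 - a.1) := by
      rw [eq_div_iff h3.ne']
      have : r = 1 - s := by linarith
      rw [this] at e1
      linarith
    unfold ht
    have e4 : r = 1 - s := by linarith
    rw [← e2, e4, e3]
    field_simp
    ring
  · intro h
    rw [h]
    exact openSegment_subset_segment ℝ a b (mem_open h1 h2)

lemma seg_cases {a b : Plane} {x t : ℝ} (h : (x, t) ∈ segment ℝ a b) (ha : a.1 ≠ x)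
    (hb : b.1 ≠ x) : (a.1 < x ∧ x < b.1) ∨ (b.1 < x ∧ x < a.1) := by
  obtain ⟨r, s, hr, hs, hrs, h⟩ := h
  have e1 : r * a.1 + s * b.1 = x := by
    have := congrArg Prod.fst h
    simpa using this
  rcases lt_trichotomy a.1 x with h1 | h1 | h1
  · left
    refine ⟨h1, ?_⟩
    by_contra hcon
    push Not at hcon
    have h2 : b.1 < x := lt_of_le_of_ne hcon hb
    have h3 : r * (x - a.1) + s * (x - b.1) = 0 := by
      have : r * (x - a.1) + s * (x - b.1) = (r + s) * x - (r * a.1 + s * b.1) := by ring
      rw [this, hrs, e1]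
      ring
    have h4 : 0 ≤ r * (x - a.1) := mul_nonneg hr (by linarith)
    have h5 : 0 ≤ s * (x - b.1) := mul_nonneg hs (by linarith)
    have h6 : r = 0 := by
      have h7 : r * (x - a.1) = 0 := by linarith
      rcases mul_eq_zero.1 h7 with h8 | h8
      · exact h8
      · linarith
    have h9 : s = 0 := by
      have h7 : s * (x - b.1) = 0 := by linarith
      rcases mul_eq_zero.1 h7 with h8 | h8
      · exact h8
      · linarith
    linarith
  · exact absurd h1 ha
  · right
    refine ⟨?_, h1⟩
    by_contra hcon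
    push Not at hcon
    have h2 : x < b.1 := lt_of_le_of_ne hcon (Ne.symm hb)
    have h3 : r * (a.1 - x) + s * (b.1 - x) = 0 := by
      have : r * (a.1 - x) + s * (b.1 - x) = (r * a.1 + s * b.1) - (r + s) * x := by ring
      rw [this, hrs, e1]
      ring
    have h4 : 0 ≤ r * (a.1 - x) := mul_nonneg hr (by linarith)
    have h5 : 0 ≤ s * (b.1 - x) := mul_nonneg hs (by linarith)
    have h6 : r = 0 := by
      have h7 : r * (a.1 - x) = 0 := by linarith
      rcases mul_eq_zero.1 h7 with h8 | h8
      · exact h8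
      · linarith
    have h9 : s = 0 := by
      have h7 : s * (b.1 - x) = 0 := by linarith
      rcases mul_eq_zero.1 h7 with h8 | h8
      · exact h8
      · linarith
    linarith

lemma rc_right {a b : Plane} {x : ℝ} (h1 : a.1 < x) (h2 : x < b.1) (y : ℝ) :
    rc a b x y = if ht a b x < y then 1 else 0 := by
  unfold rc
  have h3 := det3_pos_iff x (lt_trans h1 h2) y
  have h4 : ¬ (b.1 < x ∧ x < a.1 ∧ 0 < det3 b a (x, y)) := fun h => absurd h.1 (not_lt.2 h2.le)
  rw [if_neg h4]
  by_cases h5 : ht a b x < y
  · rw [if_pos ⟨h1, h2, h3.2 h5⟩, if_pos h5]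
  · rw [if_neg (fun h => h5 (h3.1 h.2.2)), if_neg h5]

lemma rc_left {a b : Plane} {x : ℝ} (h1 : b.1 < x) (h2 : x < a.1) (y : ℝ) :
    rc a b x y = - (if ht b a x < y then 1 else 0) := by
  unfold rc
  have h3 := det3_pos_iff x (lt_trans h1 h2) y
  have h4 : ¬ (a.1 < x ∧ x < b.1 ∧ 0 < det3 a b (x, y)) := fun h => absurd h.1 (not_lt.2 h2.le)
  rw [if_neg h4]
  by_cases h5 : ht b a x < y
  · rw [if_pos ⟨h1, h2, h3.2 h5⟩, if_pos h5]
  · rw [if_neg (fun h => h5 (h3.1 h.2.2)), if_neg h5, neg_zero]

lemma rc_none {a b : Plane} {x : ℝ} (h1 : ¬ (a.1 < x ∧ x < b.1)) (h2 : ¬ (b.1 < x ∧ x < a.1))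
    (y : ℝ) : rc a b x y = 0 := by
  unfold rc
  rw [if_neg (fun h => h1 ⟨h.1, h.2.1⟩), if_neg (fun h => h2 ⟨h.1, h.2.1⟩)]

/-! ## Walks -/

/-- the walks of `G`, the outer one being `none` -/
def walk (G : FaceMap V) : Option (Fin G.inner.length) → List V
  | none => G.outer
  | some i => (G.inner.get i).1

lemma exists_walk {G : FaceMap V} {d : V × V} (hd : d ∈ G.darts) :
    ∃ k, d ∈ dartsOf (walk G k) := by
  unfold FaceMap.darts FaceMap.walks at hd
  rw [List.mem_flatMap] at hd
  obtain ⟨w, hw, hdw⟩ := hd
  rw [List.mem_cons, List.mem_map] at hw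
  rcases hw with rfl | ⟨f, hf, rfl⟩
  · exact ⟨none, hdw⟩
  · obtain ⟨i, hi⟩ := List.get_of_mem hf
    refine ⟨some i, ?_⟩
    show d ∈ dartsOf (G.inner.get i).1
    rw [hi]
    exact hdw

lemma walk_sub {G : FaceMap V} {d : V × V} {k : Option (Fin G.inner.length)}
    (hd : d ∈ dartsOf (walk G k)) : d ∈ G.darts := by
  unfold FaceMap.darts FaceMap.walks
  rw [List.mem_flatMap]
  cases k with
  | none => exact ⟨G.outer, List.mem_cons_self, hd⟩
  | some i =>
    exact ⟨(G.inner.get i).1, List.mem_cons_of_mem _ (List.mem_map_of_mem (List.get_mem _ _)), hd⟩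

lemma nodup_walk {G : FaceMap V} (hn : G.darts.Nodup) (k : Option (Fin G.inner.length)) :
    (dartsOf (walk G k)).Nodup := by
  unfold FaceMap.darts at hn
  rw [List.nodup_flatMap] at hn
  apply hn.1
  unfold FaceMap.walks
  cases k with
  | none => exact List.mem_cons_self
  | some i => exact List.mem_cons_of_mem _ (List.mem_map_of_mem (List.get_mem _ _))

lemma disj_walk {G : FaceMap V} (hn : G.darts.Nodup) {k k' : Option (Fin G.inner.length)}
    (hk : k ≠ k') {d : V × V} (h1 : d ∈ dartsOf (walk G k)) (h2 : d ∈ dartsOf (walk G k')) :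
    False := by
  unfold FaceMap.darts FaceMap.walks at hn
  rw [List.nodup_flatMap] at hn
  have hp := hn.2
  rw [List.pairwise_cons, List.pairwise_map] at hp
  obtain ⟨hp1, hp2⟩ := hp
  rw [List.pairwise_iff_get] at hp2
  cases k with
  | none =>
    cases k' with
    | none => exact hk rfl
    | some j =>
      have := hp1 (G.inner.get j).1 (List.mem_map_of_mem (List.get_mem _ _))
      exact this h1 h2
  | some i =>
    cases k' with
    | none =>
      have := hp1 (G.inner.get i).1 (List.mem_map_of_mem (List.get_mem _ _))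
      exact this h2 h1
    | some j =>
      have hij : i ≠ j := fun h => hk (by rw [h])
      rcases lt_or_gt_of_ne hij with h | h
      · exact (hp2 i j h) h1 h2
      · exact (hp2 j i h) h2 h1

/-! ## Regions -/

/-- the regions of a drawing -/
def region {G : FaceMap V} (D : Drawing G) : Option (Fin G.inner.length) → Set Plane
  | none => D.outerFace
  | some i => D.face i

lemma region_isFace {G : FaceMap V} (D : Drawing G) (k : Option (Fin G.inner.length)) :
    IsFace G D.pos (walk G k) (region D k) := by
  cases k with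
  | none => exact D.outer_isFace
  | some i => exact D.face_isFace i

lemma region_inj {G : FaceMap V} (D : Drawing G) {k k' : Option (Fin G.inner.length)}
    (h : region D k = region D k') : k = k' := by
  cases k with
  | none =>
    cases k' with
    | none => rfl
    | some j =>
      exfalso
      have h1 : D.outerFace = D.face j := h
      exact D.outer_unbounded (h1 ▸ D.face_bounded j)
  | some i =>
    cases k' with
    | none =>
      exfalso
      have h1 : D.face i = D.outerFace := h
      exact D.outer_unbounded (h1 ▸ D.face_bounded i)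
    | some j =>
      have h1 : D.face i = D.face j := h
      rw [D.face_inj h1]

lemma region_eq {G : FaceMap V} (D : Drawing G) (k : Option (Fin G.inner.length)) {P : Plane}
    (hP : P ∈ region D k) : region D k = connectedComponentIn (G.drawn D.pos)ᶜ P := by
  obtain ⟨Q, hQ, hR⟩ := (region_isFace D k).component
  rw [hR] at hP ⊢
  exact (connectedComponentIn_eq hP)

lemma region_unique {G : FaceMap V} (D : Drawing G) {k k' : Option (Fin G.inner.length)}
    {P : Plane} (hP : P ∈ region D k) (hP' : P ∈ region D k') : k = k' := by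
  apply region_inj D
  rw [region_eq D k hP, region_eq D k' hP']

lemma region_conn {G : FaceMap V} (D : Drawing G) {k : Option (Fin G.inner.length)}
    {P Q : Plane} (hP : P ∈ region D k) {S : Set Plane} (hS : IsPreconnected S)
    (hSU : S ⊆ (G.drawn D.pos)ᶜ) (hPS : P ∈ S) (hQS : Q ∈ S) : Q ∈ region D k := by
  rw [region_eq D k hP]
  exact hS.subset_connectedComponentIn hPS hSU hQS

/-! ## The vertical line over `x` -/

/-- a directed edge crossing the line over `x` from left to right -/
def Rt (G : FaceMap V) (p : V → Plane) (x : ℝ) (d : V × V) : Prop :=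
  d ∈ G.darts ∧ (p d.1).1 < x ∧ x < (p d.2).1

/-- height of the crossing -/
noncomputable def hh (p : V → Plane) (x : ℝ) (d : V × V) : ℝ := ht (p d.1) (p d.2) x

section
variable {G : FaceMap V} (D : Drawing G) {x : ℝ} (hx : ∀ d ∈ G.darts, (D.pos d.1).1 ≠ x)

include hx in
lemma hx2 {d : V × V} (hd : d ∈ G.darts) : (D.pos d.2).1 ≠ x :=
  hx d.swap (D.symm d hd)

include hx in
lemma drawn_iff (t : ℝ) : (x, t) ∈ G.drawn D.pos ↔ ∃ d, Rt G D.pos x d ∧ t = hh D.pos x d := by
  constructor
  · rintro ⟨d, hd, hxt⟩
    rcases seg_cases hxt (hx d hd) (hx2 D hx hd) with h | h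
    · exact ⟨d, ⟨hd, h.1, h.2⟩, (seg_iff h.1 h.2).1 hxt⟩
    · refine ⟨d.swap, ⟨D.symm d hd, h.1, h.2⟩, ?_⟩
      rw [segment_symm] at hxt
      exact (seg_iff h.1 h.2).1 hxt
  · rintro ⟨d, hd, rfl⟩
    exact ⟨d, hd.1, (seg_iff hd.2.1 hd.2.2).2 rfl⟩

include hx in
lemma rt_unique {d e : V × V} (hd : Rt G D.pos x d) (he : Rt G D.pos x e)
    (h : hh D.pos x d = hh D.pos x e) : d = e := by
  by_contra hne
  have h1 : e ≠ d.swap := by
    rintro rfl
    have h2 := hd.2.1
    have h3 := he.2.2
    have h4 : (D.pos d.swap.2) = D.pos d.1 := rfl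
    rw [h4] at h3
    linarith
  have h2 : (x, hh D.pos x d) ∈ segment ℝ (D.pos d.1) (D.pos d.2) :=
    (seg_iff hd.2.1 hd.2.2).2 rfl
  have h3 : (x, hh D.pos x d) ∈ segment ℝ (D.pos e.1) (D.pos e.2) :=
    (seg_iff he.2.1 he.2.2).2 h
  obtain ⟨v, hv, -, hv3⟩ := D.noncrossing d hd.1 e he.1 (Ne.symm hne) h1 _ h2 h3
  have h4 : (D.pos v).1 = x := by rw [← hv3]
  rcases hv with rfl | rfl
  · exact hx d hd.1 h4
  · exact hx2 D hx hd.1 h4

lemma rt_swap {d : V × V} (hd : Rt G D.pos x d) : ¬ Rt G D.pos x d.swap := by
  intro h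
  have h2 := hd.2.1
  have h3 := h.2.2
  have h4 : (D.pos d.swap.2) = D.pos d.1 := rfl
  rw [h4] at h3
  linarith

open scoped Classical in
/-- change of the crossing number of one edge -/
lemma rc_diff {d0 : V × V} (hd0 : Rt G D.pos x d0) {y' y : ℝ} (h1 : y' ≤ hh D.pos x d0)
    (h2 : hh D.pos x d0 < y)
    (h3 : ∀ d, Rt G D.pos x d → y' ≤ hh D.pos x d → hh D.pos x d < y → d = d0)
    {d : V × V} (hd : d ∈ G.darts) :
    rc (D.pos d.1) (D.pos d.2) x y = rc (D.pos d.1) (D.pos d.2) x y' +
      ((if d = d0 then 1 else 0) - if d = d0.swap then 1 else 0) := by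
  by_cases hr : Rt G D.pos x d
  · have h4 : d ≠ d0.swap := by
      rintro rfl
      exact rt_swap D hd0 hr
    rw [rc_right hr.2.1 hr.2.2, rc_right hr.2.1 hr.2.2, if_neg h4]
    have h5 : ht (D.pos d.1) (D.pos d.2) x = hh D.pos x d := rfl
    rw [h5]
    by_cases h6 : d = d0
    · subst h6
      rw [if_pos h2, if_neg (not_lt.2 h1), if_pos rfl]
      ring
    · rw [if_neg h6]
      by_cases h7 : hh D.pos x d < y'
      · rw [if_pos h7, if_pos (by linarith)]
        ring
      · rw [if_neg h7]
        by_cases h8 : hh D.pos x d < y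
        · exact absurd (h3 d hr (not_lt.1 h7) h8) h6
        · rw [if_neg h8]
          ring
  · have h6 : d ≠ d0 := by
      rintro rfl
      exact hr hd0
    rw [if_neg h6]
    by_cases hl : Rt G D.pos x d.swap
    · have e1 : (D.pos d.2).1 < x := hl.2.1
      have e2 : x < (D.pos d.1).1 := hl.2.2
      rw [rc_left e1 e2, rc_left e1 e2]
      have h5 : ht (D.pos d.2) (D.pos d.1) x = hh D.pos x d.swap := rfl
      rw [h5]
      by_cases h4 : d = d0.swap
      · have h7 : d.swap = d0 := by rw [h4, Prod.swap_swap]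
        rw [if_pos h4, h7, if_pos h2, if_neg (not_lt.2 h1)]
        ring
      · have h7 : d.swap ≠ d0 := by
          intro h
          exact h4 (by rw [← h, Prod.swap_swap])
        rw [if_neg h4]
        by_cases h8 : hh D.pos x d.swap < y'
        · rw [if_pos h8, if_pos (by linarith)]
          ring
        · rw [if_neg h8]
          by_cases h9 : hh D.pos x d.swap < y
          · exact absurd (h3 _ hl (not_lt.1 h8) h9) h7
          · rw [if_neg h9]
            ring
    · have h4 : d ≠ d0.swap := by
        rintro rfl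
        rw [Prod.swap_swap] at hl
        exact hl hd0
      rw [if_neg h4]
      have n1 : ¬ ((D.pos d.1).1 < x ∧ x < (D.pos d.2).1) := fun h => hr ⟨hd, h.1, h.2⟩
      have n2 : ¬ ((D.pos d.2).1 < x ∧ x < (D.pos d.1).1) := fun h =>
        hl ⟨D.symm d hd, h.1, h.2⟩
      rw [rc_none n1 n2, rc_none n1 n2]
      ring

end

open scoped Classical in
lemma sum_ite {l : List (V × V)} (hl : l.Nodup) (d0 : V × V) :
    (l.map fun d => if d = d0 then (1 : ℝ) else 0).sum = if d0 ∈ l then 1 else 0 := by
  induction l with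
  | nil => simp
  | cons a l ih =>
    rw [List.nodup_cons] at hl
    rw [List.map_cons, List.sum_cons, ih hl.2]
    by_cases h : a = d0
    · subst h
      rw [if_pos rfl, if_neg hl.1, if_pos List.mem_cons_self]
      ring
    · rw [if_neg h]
      by_cases h2 : d0 ∈ l
      · rw [if_pos h2, if_pos (List.mem_cons_of_mem _ h2)]
        ring
      · rw [if_neg h2, if_neg]
        · ring
        · intro h3
          rcases List.mem_cons.1 h3 with h4 | h4
          · exact h h4.symm
          · exact h2 h4

lemma sum_map_sub' {α : Type} (l : List α) (f g : α → ℝ) :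
    (l.map fun d => f d - g d).sum = (l.map f).sum - (l.map g).sum := by
  induction l with
  | nil => simp
  | cons a l ih =>
    rw [List.map_cons, List.sum_cons, ih, List.map_cons, List.sum_cons, List.map_cons,
      List.sum_cons]
    ring

open scoped Classical in
lemma wsum_diff {G : FaceMap V} (D : Drawing G) {x : ℝ} {d0 : V × V} (hd0 : Rt G D.pos x d0)
    {y' y : ℝ} (h1 : y' ≤ hh D.pos x d0) (h2 : hh D.pos x d0 < y)
    (h3 : ∀ d, Rt G D.pos x d → y' ≤ hh D.pos x d → hh D.pos x d < y → d = d0)
    (k : Option (Fin G.inner.length)) :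
    wsum (fun u v => rc (D.pos u) (D.pos v) x y) (walk G k) =
      wsum (fun u v => rc (D.pos u) (D.pos v) x y') (walk G k) +
        ((if d0 ∈ dartsOf (walk G k) then 1 else 0) -
          if d0.swap ∈ dartsOf (walk G k) then 1 else 0) := by
  unfold wsum
  have hn := nodup_walk D.nodup k
  rw [← sum_ite hn d0, ← sum_ite hn d0.swap]
  have e1 : (dartsOf (walk G k)).map (fun d => rc (D.pos d.1) (D.pos d.2) x y) =
      (dartsOf (walk G k)).map (fun d => rc (D.pos d.1) (D.pos d.2) x y' +
        ((if d = d0 then 1 else 0) - if d = d0.swap then 1 else 0)) := by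
    apply List.map_congr_left
    intro d hd
    exact rc_diff D hd0 h1 h2 h3 (walk_sub hd)
  rw [e1, List.sum_map_add, sum_map_sub']

/-! ## Far away -/

/-- The complement of a square is connected. -/
lemma square_conn (R : ℝ) : IsPreconnected {P : Plane | R < |P.1| ∨ R < |P.2|} := by
  rcases lt_or_ge R 0 with hR | hR
  · have : {P : Plane | R < |P.1| ∨ R < |P.2|} = univ := by
      ext P
      simp only [mem_ofPred_eq, mem_univ, iff_true]
      left
      exact lt_of_lt_of_le hR (abs_nonneg _)
    rw [this]
    exact isPreconnected_univ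
  have e1 : {P : Plane | R < |P.1| ∨ R < |P.2|} =
      ((({P : Plane | R < P.1} ∪ {P : Plane | R < P.2}) ∪ {P : Plane | P.1 < -R}) ∪
        {P : Plane | P.2 < -R}) := by
    ext P
    simp only [mem_ofPred_eq, mem_union, lt_abs]
    constructor
    · rintro ((h | h) | (h | h))
      · exact Or.inl (Or.inl (Or.inl h))
      · exact Or.inl (Or.inr (by linarith))
      · exact Or.inl (Or.inl (Or.inr h))
      · exact Or.inr (by linarith)
    · rintro (((h | h) | h) | h)
      · exact Or.inl (Or.inl h)
      · exact Or.inr (Or.inl h)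
      · exact Or.inl (Or.inr (by linarith))
      · exact Or.inr (Or.inr (by linarith))
  have lin1 : IsLinearMap ℝ (fun P : Plane => P.1) := ⟨fun _ _ => rfl, fun _ _ => rfl⟩
  have lin2 : IsLinearMap ℝ (fun P : Plane => P.2) := ⟨fun _ _ => rfl, fun _ _ => rfl⟩
  have c1 : IsPreconnected {P : Plane | R < P.1} := (convex_halfSpace_gt lin1 R).isPreconnected
  have c2 : IsPreconnected {P : Plane | R < P.2} := (convex_halfSpace_gt lin2 R).isPreconnected
  have c3 : IsPreconnected {P : Plane | P.1 < -R} := (convex_halfSpace_lt lin1 (-R)).isPreconnected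
  have c4 : IsPreconnected {P : Plane | P.2 < -R} := (convex_halfSpace_lt lin2 (-R)).isPreconnected
  rw [e1]
  refine IsPreconnected.union (R + 1, -R - 1) ?_ ?_ (IsPreconnected.union (-R - 1, R + 1) ?_ ?_
    (IsPreconnected.union (R + 1, R + 1) ?_ ?_ c1 c2) c3) c4
  · left; left
    show R < R + 1
    linarith
  · show -R - 1 < -R
    linarith
  · right
    show R < R + 1
    linarith
  · show -R - 1 < -R
    linarith
  · show R < R + 1
    linarith
  · show R < R + 1
    linarith

lemma drawn_bounded (G : FaceMap V) (p : V → Plane) :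
    ∃ R : ℝ, ∀ P ∈ G.drawn p, |P.1| ≤ R ∧ |P.2| ≤ R := by
  have h1 : Bornology.IsBounded (G.drawn p) := by
    have e1 : G.drawn p = ⋃ d ∈ {d | d ∈ G.darts}, segment ℝ (p d.1) (p d.2) := by
      ext P
      simp [FaceMap.drawn]
    rw [e1, Bornology.isBounded_biUnion (List.finite_toSet _)]
    intro d _
    rw [← convexHull_pair]
    exact (isBounded_convexHull.2 (Set.toFinite _).isBounded)
  obtain ⟨R, hR⟩ := h1.exists_norm_le
  refine ⟨R, fun P hP => ?_⟩
  have h2 := hR P hP
  exact ⟨le_trans (norm_fst_le P) h2, le_trans (norm_snd_le P) h2⟩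

lemma vert_conn (x a b : ℝ) : IsPreconnected ((fun t : ℝ => ((x, t) : Plane)) '' Icc a b) :=
  isPreconnected_Icc.image _ (by fun_prop)

/-- With nothing below, one is in the outer region. -/
lemma base_outer {G : FaceMap V} (D : Drawing G) {x y : ℝ}
    (h : ∀ t, t ≤ y → (x, t) ∉ G.drawn D.pos) : (x, y) ∈ region D none := by
  obtain ⟨R, hR⟩ := drawn_bounded G D.pos
  have hunb := D.outer_unbounded
  have hex : ∃ P ∈ D.outerFace, R < |P.1| ∨ R < |P.2| := by
    by_contra hcon
    push Not at hcon
    apply hunb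
    rw [isBounded_iff_forall_norm_le]
    refine ⟨R, fun P hP => ?_⟩
    rw [Prod.norm_def]
    exact max_le (hcon P hP).1 (hcon P hP).2
  obtain ⟨P, hP, hPR⟩ := hex
  set t0 : ℝ := min y (-|R| - 1) with ht0
  have h1 : (x, t0) ∈ region D none := by
    apply region_conn D (k := none) (P := P) hP (square_conn R)
    · intro Q hQ hQd
      have := hR Q hQd
      rcases hQ with hq | hq
      · linarith [this.1]
      · linarith [this.2]
    · exact hPR
    · right
      show R < |t0|
      have h2 : t0 ≤ -|R| - 1 := min_le_right _ _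
      have h3 : |t0| = -t0 := abs_of_neg (by linarith [abs_nonneg R])
      rw [h3]
      linarith [le_abs_self R]
  apply region_conn D (k := none) h1 (vert_conn x t0 y)
  · rintro _ ⟨t, ht, rfl⟩
    exact h t ht.2
  · exact ⟨t0, ⟨le_refl _, min_le_left _ _⟩, rfl⟩
  · exact ⟨y, ⟨min_le_left _ _, le_refl _⟩, rfl⟩

/-- the value added for the outer walk -/
noncomputable def dlt {n : ℕ} : Option (Fin n) → ℝ
  | none => 1
  | some _ => 0

open scoped Classical in
/-- The statement for one point. -/
def Good {G : FaceMap V} (D : Drawing G) (x y : ℝ) : Prop :=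
  ∀ k, wsum (fun u v => rc (D.pos u) (D.pos v) x y) (walk G k) =
    (if (x, y) ∈ region D k then 1 else 0) - dlt k

/-- just above a right-going edge one is in the region of its walk -/
lemma above {G : FaceMap V} (D : Drawing G) {x y : ℝ} {d : V × V} (hd : Rt G D.pos x d)
    {k : Option (Fin G.inner.length)} (hk : d ∈ dartsOf (walk G k)) (hy : hh D.pos x d < y)
    (hfree : ∀ t, hh D.pos x d < t → t ≤ y → (x, t) ∉ G.drawn D.pos) : (x, y) ∈ region D k := by
  obtain ⟨ε, hε, hball⟩ := (region_isFace D k).left d hk (x, hh D.pos x d)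
    (mem_open hd.2.1 hd.2.2)
  set t0 : ℝ := min y (hh D.pos x d + ε / 2) with ht0
  have h1 : hh D.pos x d < t0 := lt_min hy (by linarith)
  have h2 : (x, t0) ∈ region D k := by
    apply hball
    · rw [Metric.mem_ball, Prod.dist_eq]
      apply max_lt
      · simpa using hε
      · show dist t0 (hh D.pos x d) < ε
        rw [Real.dist_eq, abs_of_pos (by linarith)]
        have : t0 ≤ hh D.pos x d + ε / 2 := min_le_right _ _
        linarith
    · rw [det3_pos_iff x (lt_trans hd.2.1 hd.2.2)]
      exact h1
  apply region_conn D h2 (vert_conn x t0 y)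
  · rintro _ ⟨t, ht, rfl⟩
    exact hfree t (lt_of_lt_of_le h1 ht.1) ht.2
  · exact ⟨t0, ⟨le_refl _, min_le_left _ _⟩, rfl⟩
  · exact ⟨y, ⟨min_le_left _ _, le_refl _⟩, rfl⟩

/-- just below a right-going edge one is in the region of the walk of the reversed edge -/
lemma below {G : FaceMap V} (D : Drawing G) {x y : ℝ} {d : V × V} (hd : Rt G D.pos x d)
    {k : Option (Fin G.inner.length)} (hk : d.swap ∈ dartsOf (walk G k)) (hy : y < hh D.pos x d)
    (hfree : ∀ t, t < hh D.pos x d → y ≤ t → (x, t) ∉ G.drawn D.pos) : (x, y) ∈ region D k := by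
  have hop : (x, hh D.pos x d) ∈ openSegment ℝ (D.pos d.swap.1) (D.pos d.swap.2) := by
    rw [openSegment_symm]
    exact mem_open hd.2.1 hd.2.2
  obtain ⟨ε, hε, hball⟩ := (region_isFace D k).left d.swap hk (x, hh D.pos x d) hop
  set t0 : ℝ := max y (hh D.pos x d - ε / 2) with ht0
  have h1 : t0 < hh D.pos x d := max_lt hy (by linarith)
  have h2 : (x, t0) ∈ region D k := by
    apply hball
    · rw [Metric.mem_ball, Prod.dist_eq]
      apply max_lt
      · simpa using hε
      · show dist t0 (hh D.pos x d) < ε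
        rw [Real.dist_eq, abs_of_neg (by linarith)]
        have : hh D.pos x d - ε / 2 ≤ t0 := le_max_right _ _
        linarith
    · have e1 : det3 (D.pos d.swap.1) (D.pos d.swap.2) (x, t0) =
          -det3 (D.pos d.1) (D.pos d.2) (x, t0) := by
        unfold det3
        simp only [Prod.fst_swap, Prod.snd_swap]
        ring
      rw [e1, det3_eq x (lt_trans hd.2.1 hd.2.2)]
      have e2 : 0 < (D.pos d.2).1 - (D.pos d.1).1 := by
        have := lt_trans hd.2.1 hd.2.2
        linarith
      have e3 : t0 - ht (D.pos d.1) (D.pos d.2) x < 0 := by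
        have : ht (D.pos d.1) (D.pos d.2) x = hh D.pos x d := rfl
        rw [this]
        linarith
      have e4 := mul_neg_of_pos_of_neg e2 e3
      linarith
  apply region_conn D h2 (vert_conn x y t0)
  · rintro _ ⟨t, ht, rfl⟩
    exact hfree t (lt_of_le_of_lt ht.2 h1) ht.1
  · exact ⟨t0, ⟨le_max_left _ _, le_refl _⟩, rfl⟩
  · exact ⟨y, ⟨le_refl _, le_max_left _ _⟩, rfl⟩

open scoped Classical in
/-- the heights of the crossings -/
noncomputable def heights (G : FaceMap V) (p : V → Plane) (x : ℝ) : Finset ℝ :=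
  ((G.darts.filter fun d => (p d.1).1 < x ∧ x < (p d.2).1).map (hh p x)).toFinset

lemma mem_heights {G : FaceMap V} {p : V → Plane} {x t : ℝ} :
    t ∈ heights G p x ↔ ∃ d, Rt G p x d ∧ t = hh p x d := by
  unfold heights Rt
  rw [List.mem_toFinset, List.mem_map]
  constructor
  · rintro ⟨d, hd, rfl⟩
    rw [List.mem_filter] at hd
    exact ⟨d, ⟨hd.1, by simpa using hd.2⟩, rfl⟩
  · rintro ⟨d, hd, rfl⟩
    refine ⟨d, ?_, rfl⟩
    rw [List.mem_filter]
    exact ⟨hd.1, by simpa using hd.2⟩

open scoped Classical in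
lemma good_all {G : FaceMap V} (D : Drawing G) {x : ℝ}
    (hx : ∀ d ∈ G.darts, (D.pos d.1).1 ≠ x) :
    ∀ (m : ℕ) (y : ℝ), ((heights G D.pos x).filter (· < y)).card = m →
      (x, y) ∉ G.drawn D.pos → Good D x y := by
  intro m
  induction m using Nat.strong_induction_on with
  | _ m ih =>
    intro y hm hy
    have hmem : ∀ t, (x, t) ∈ G.drawn D.pos ↔ t ∈ heights G D.pos x := by
      intro t
      rw [drawn_iff D hx, mem_heights]
    by_cases hne : ((heights G D.pos x).filter (· < y)).Nonempty
    · -- the highest crossing below `y`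
      set y0 := ((heights G D.pos x).filter (· < y)).max' hne with hy0
      have hy0m := ((heights G D.pos x).filter (· < y)).max'_mem hne
      rw [← hy0, Finset.mem_filter] at hy0m
      obtain ⟨hy0H, hy0y⟩ := hy0m
      obtain ⟨d0, hd0, hd0h⟩ := mem_heights.1 hy0H
      have hmax : ∀ t ∈ heights G D.pos x, t < y → t ≤ y0 := fun t ht hty =>
        Finset.le_max' _ t (Finset.mem_filter.2 ⟨ht, hty⟩)
      -- a point just below
      obtain ⟨y', hy'1, hy'2⟩ : ∃ y' : ℝ, y' < y0 ∧ ∀ t ∈ heights G D.pos x, t < y0 → t < y' := by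
        by_cases hne2 : ((heights G D.pos x).filter (· < y0)).Nonempty
        · set z := ((heights G D.pos x).filter (· < y0)).max' hne2 with hz
          have hzm := ((heights G D.pos x).filter (· < y0)).max'_mem hne2
          rw [← hz, Finset.mem_filter] at hzm
          refine ⟨(z + y0) / 2, by linarith [hzm.2], fun t ht hty => ?_⟩
          have : t ≤ z := Finset.le_max' _ t (Finset.mem_filter.2 ⟨ht, hty⟩)
          linarith [hzm.2]
        · refine ⟨y0 - 1, by linarith, fun t ht hty => ?_⟩
          exact absurd ⟨t, Finset.mem_filter.2 ⟨ht, hty⟩⟩ hne2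
      have hfree1 : ∀ t, y0 < t → t ≤ y → (x, t) ∉ G.drawn D.pos := by
        intro t h1 h2 h3
        rcases h2.lt_or_eq with h4 | h4
        · exact absurd (hmax t ((hmem t).1 h3) h4) (not_le.2 h1)
        · exact hy (h4 ▸ h3)
      have hfree2 : ∀ t, t < y0 → y' ≤ t → (x, t) ∉ G.drawn D.pos := by
        intro t h1 h2 h3
        exact absurd (hy'2 t ((hmem t).1 h3) h1) (not_lt.2 h2)
      have hcard : ((heights G D.pos x).filter (· < y')).card < m := by
        rw [← hm]
        apply Finset.card_lt_card
        rw [Finset.ssubset_iff_of_subset]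
        · exact ⟨y0, Finset.mem_filter.2 ⟨hy0H, hy0y⟩, fun h => by
            have := (Finset.mem_filter.1 h).2
            linarith⟩
        · intro t ht
          rw [Finset.mem_filter] at ht ⊢
          exact ⟨ht.1, by linarith [ht.2]⟩
      have hgood := ih _ hcard y' rfl (hfree2 y' hy'1 (le_refl _))
      obtain ⟨k1, hk1⟩ := exists_walk hd0.1
      obtain ⟨k2, hk2⟩ := exists_walk (D.symm d0 hd0.1)
      have hr1 : (x, y) ∈ region D k1 := above D hd0 hk1 (hd0h ▸ hy0y) (fun t h1 h2 =>
        hfree1 t (hd0h ▸ h1) h2)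
      have hr2 : (x, y') ∈ region D k2 := below D hd0 hk2 (hd0h ▸ hy'1) (fun t h1 h2 =>
        hfree2 t (hd0h ▸ h1) h2)
      intro k
      have hdiff := wsum_diff D hd0 (y' := y') (y := y) (hd0h ▸ hy'1.le) (hd0h ▸ hy0y)
        (fun d hd h1 h2 => by
          apply rt_unique D hx hd hd0
          rw [← hd0h]
          have h3 : hh D.pos x d ∈ heights G D.pos x := mem_heights.2 ⟨d, hd, rfl⟩
          apply le_antisymm (hmax _ h3 h2)
          by_contra hcon
          push Not at hcon
          exact absurd (hy'2 _ h3 hcon) (not_lt.2 h1)) k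
      rw [hdiff, hgood k]
      have e1 : ((x, y) ∈ region D k) ↔ d0 ∈ dartsOf (walk G k) := by
        constructor
        · intro h
          rw [region_unique D h hr1]
          exact hk1
        · intro h
          by_contra hcon
          have hne' : k ≠ k1 := by
            rintro rfl
            exact hcon hr1
          exact disj_walk D.nodup hne' h hk1
      have e2 : ((x, y') ∈ region D k) ↔ d0.swap ∈ dartsOf (walk G k) := by
        constructor
        · intro h
          rw [region_unique D h hr2]
          exact hk2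
        · intro h
          by_contra hcon
          have hne' : k ≠ k2 := by
            rintro rfl
            exact hcon hr2
          exact disj_walk D.nodup hne' h hk2
      rw [if_congr e1 rfl rfl, if_congr e2 rfl rfl]
      ring
    · -- no crossing below
      have hno : ∀ t ∈ heights G D.pos x, ¬ t < y := fun t ht hty =>
        hne ⟨t, Finset.mem_filter.2 ⟨ht, hty⟩⟩
      have hout : (x, y) ∈ region D none := by
        apply base_outer
        intro t ht hd
        rcases ht.lt_or_eq with h | h
        · exact hno t ((hmem t).1 hd) h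
        · exact hy (h ▸ hd)
      intro k
      have hzero : wsum (fun u v => rc (D.pos u) (D.pos v) x y) (walk G k) = 0 := by
        unfold wsum
        apply List.sum_eq_zero
        intro r hr
        rw [List.mem_map] at hr
        obtain ⟨d, hd, rfl⟩ := hr
        have hdG := walk_sub hd
        by_cases h1 : (D.pos d.1).1 < x ∧ x < (D.pos d.2).1
        · show rc (D.pos d.1) (D.pos d.2) x y = 0
          rw [rc_right h1.1 h1.2, if_neg]
          exact hno _ (mem_heights.2 ⟨d, ⟨hdG, h1⟩, rfl⟩)
        · by_cases h2 : (D.pos d.2).1 < x ∧ x < (D.pos d.1).1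
          · show rc (D.pos d.1) (D.pos d.2) x y = 0
            rw [rc_left h2.1 h2.2, if_neg, neg_zero]
            exact hno _ (mem_heights.2 ⟨d.swap, ⟨D.symm d hdG, h2⟩, rfl⟩)
          · exact rc_none h1 h2 y
      rw [hzero]
      cases k with
      | none =>
        rw [if_pos hout]
        simp [dlt]
      | some i =>
        rw [if_neg]
        · simp [dlt]
        · intro h
          have := region_unique D h hout
          exact absurd this (by simp)

end Slice

open Slice in
/-- N-SLICE -/
theorem nSlice : TargetSlice := by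
  intro V G D x y hx hy
  have h := good_all D hx _ y rfl hy
  refine ⟨fun i => ⟨fun hi => ?_, fun hi => ?_⟩, fun ho => ?_, fun ho => ?_⟩
  · have h1 := h (some i)
    have h2 : (x, y) ∈ region D (some i) := hi
    rw [if_pos h2] at h1
    have h3 : walk G (some i) = (G.inner.get i).1 := rfl
    rw [h3] at h1
    rw [h1]
    simp [dlt]
  · have h1 := h (some i)
    have h2 : ¬ (x, y) ∈ region D (some i) := hi
    rw [if_neg h2] at h1
    have h3 : walk G (some i) = (G.inner.get i).1 := rfl
    rw [h3] at h1
    rw [h1]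
    simp [dlt]
  · have h1 := h none
    have h2 : (x, y) ∈ region D none := ho
    rw [if_pos h2] at h1
    have h3 : walk G none = G.outer := rfl
    rw [h3] at h1
    rw [h1]
    simp [dlt]
  · have h1 := h none
    have h2 : ¬ (x, y) ∈ region D none := ho
    rw [if_neg h2] at h1
    have h3 : walk G none = G.outer := rfl
    rw [h3] at h1
    rw [h1]
    simp [dlt]

end Pool.Agent.PAH
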