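import Pool.Agent.PAH.EncInj

set_option autoImplicit false

/-!
# The two decision problems and the notion of hardness in the main theorem
-/

namespace Pool.Agent.PAH

/-- the alphabet is finite -/
theorem Sym.finite : Finite Sym := inferInstance

/-- distinct formulas have distinct encodings -/
theorem Formula.enc_injective : Function.Injective Formula.enc := P_ENC.1

/-- distinct instances have distinct encodings -/
theorem AreaInstance.enc_injective :
    Function.Injective fun I : AreaInstance => encMap I.graph := by
  intro I J h
  have h1 : I.graph = J.graph := P_ENC.2 I.graph J.graph I.pos J.pos h
  cases I
  cases J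
  simp only at h1
  subst h1
  rfl

/-- Truth of existential sentences `∃ x₀ x₁ …, φ` over the real numbers, where `φ` is a
quantifier-free formula in the language of ordered rings. -/
def existentialTheoryOfReals : DecisionProblem where
  Inst := Formula
  Alphabet := Sym
  finite := Sym.finite
  enc := Formula.enc
  enc_inj := Formula.enc_injective
  Yes := fun φ => ∃ x : ℕ → ℝ, φ.Holds x

/-- The prescribed area problem with no fixed vertices. -/
def prescribedArea : DecisionProblem where
  Inst := AreaInstance
  Alphabet := Sym
  finite := Sym.finite
  enc := fun I => encMap I.graph
  enc_inj := AreaInstance.enc_injective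
  Yes := fun I => I.graph.Realizable

/-- `Q` is `∃ℝ`-hard: every problem which reduces in polynomial time to the existential theory of
the reals (that is, every problem in `∃ℝ`) reduces in polynomial time to `Q`. -/
def ExistsRHard (Q : DecisionProblem) : Prop :=
  ∀ P : DecisionProblem, PolyReduces P existentialTheoryOfReals → PolyReduces P Q

end Pool.Agent.PAH
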