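import Pool.Agent.PAH.Targets

set_option autoImplicit false

/-!
# Y-DARTS: list combinatorics of fans
-/

namespace Pool.Agent.PAH

namespace YDarts

variable {V : Type}

/-- darts of the closed walk `v :: l` after the first one, `l ≠ []` -/
def tailDarts (v : V) : List V → List (V × V)
  | [] => []
  | [x] => [(x, v)]
  | x :: y :: l => (x, y) :: tailDarts v (y :: l)

/-- both directions of the inner diagonals of a fan `v :: x :: l` -/
def diags (v : V) : List V → List (V × V)
  | [] => []
  | [_] => []
  | x :: y :: l => (x, v) :: (v, x) :: diags v (y :: l)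

/-- both directions of the diagonals of a walk -/
def walkDiags : List V → List (V × V)
  | [] => []
  | [_] => []
  | v :: _ :: l => diags v l

theorem dartsOf_cons_aux (v : V) : ∀ (l : List V) (x : V),
    (x :: l).zip (l ++ [v]) = tailDarts v (x :: l)
  | [], x => by simp [tailDarts]
  | y :: l, x => by
      have := dartsOf_cons_aux v l y
      simp only [List.cons_append, List.zip_cons_cons, tailDarts]
      rw [this]

theorem dartsOf_cons (v x : V) (l : List V) :
    dartsOf (v :: x :: l) = (v, x) :: tailDarts v (x :: l) := by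
  have h : (v :: x :: l).rotate 1 = x :: (l ++ [v]) := by
    simp [List.rotate_cons_succ]
  unfold dartsOf
  rw [h, List.zip_cons_cons, dartsOf_cons_aux]

theorem fanTris_cons (v x y : V) (l : List V) :
    fanTris (v :: x :: y :: l) = (v, x, y) :: fanTris (v :: y :: l) := by
  simp [fanTris]

theorem perm_fan (v : V) : ∀ (l : List V) (x y : V),
    ((fanTris (v :: x :: y :: l)).flatMap triDarts).Perm
      (dartsOf (v :: x :: y :: l) ++ walkDiags (v :: x :: y :: l))
  | [], x, y => by
      rw [dartsOf_cons]
      simp [fanTris, triDarts, tailDarts, walkDiags, diags]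
  | z :: l, x, y => by
      have ih := perm_fan v l y z
      rw [fanTris_cons, List.flatMap_cons, dartsOf_cons]
      rw [dartsOf_cons] at ih
      simp only [walkDiags, diags, tailDarts, triDarts] at ih ⊢
      simp only [List.cons_append, List.nil_append] at ih ⊢
      refine List.Perm.cons _ (List.Perm.cons _ ?_)
      refine (List.Perm.cons _ ih).trans ?_
      have h1 : ∀ (A B : List (V × V)) (d e : V × V),
          (d :: e :: (A ++ B)).Perm (A ++ d :: e :: B) := by
        intro A B d e
        have := (List.perm_append_comm (l₁ := A) (l₂ := [d, e])).append_right B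
        simpa using this.symm
      have := h1 ((y, z) :: tailDarts v (z :: l)) (diags v (z :: l)) (y, v) (v, y)
      simpa using this

theorem swap_mem_diags (v : V) : ∀ (l : List V) (d : V × V), d ∈ diags v l → d.swap ∈ diags v l
  | [], d, h => by simp [diags] at h
  | [_], d, h => by simp [diags] at h
  | x :: y :: l, d, h => by
      simp only [diags, List.mem_cons] at h ⊢
      rcases h with h | h | h
      · subst h; simp
      · subst h; simp
      · exact Or.inr (Or.inr (swap_mem_diags v (y :: l) d h))

theorem swap_mem_walkDiags : ∀ (w : List V) (d : V × V), d ∈ walkDiags w → d.swap ∈ walkDiags w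
  | [], d, h => by simp [walkDiags] at h
  | [_], d, h => by simp [walkDiags] at h
  | v :: x :: l, d, h => swap_mem_diags v l d h

/-- a walk with a positive fan has at least three vertices -/
theorem FanPos.shape {p : V → Plane} {w : List V} (h : FanPos p w) :
    ∃ v x y l, w = v :: x :: y :: l := by
  match w, h with
  | [], h => exact h.elim
  | [v], h => exact absurd h.1 (by simp)
  | [v, x], h => exact absurd h.1 (by simp)
  | v :: x :: y :: l, h => exact ⟨v, x, y, l, rfl⟩

theorem FanPos.perm {p : V → Plane} {w : List V} (h : FanPos p w) :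
    ((fanTris w).flatMap triDarts).Perm (dartsOf w ++ walkDiags w) := by
  obtain ⟨v, x, y, l, rfl⟩ := FanPos.shape h
  exact perm_fan v l x y

theorem fan_pos_aux (p : V → Plane) (v : V) : ∀ (l : List V),
    l.IsChain (fun a b => 0 < det3 (p v) (p a) (p b)) →
    ∀ t ∈ fanTris (v :: l), 0 < det3 (p t.1) (p t.2.1) (p t.2.2)
  | [], _, t, ht => by simp [fanTris] at ht
  | [_], _, t, ht => by simp [fanTris] at ht
  | x :: y :: l, h, t, ht => by
      rw [fanTris_cons] at ht
      rcases List.mem_cons.1 ht with rfl | ht
      · exact (List.isChain_cons_cons.1 h).1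
      · exact fan_pos_aux p v (y :: l) (List.isChain_cons_cons.1 h).2 t ht

theorem FanPos.tri_pos {p : V → Plane} {w : List V} (h : FanPos p w) :
    ∀ t ∈ fanTris w, 0 < det3 (p t.1) (p t.2.1) (p t.2.2) := by
  match w, h with
  | [], h => exact h.elim
  | v :: l, h => exact fan_pos_aux p v l h.2

theorem sum_diags (φ : V → V → ℝ) (hφ : ∀ u v, φ u v = - φ v u) (v : V) : ∀ l : List V,
    ((diags v l).map fun d => φ d.1 d.2).sum = 0
  | [] => by simp [diags]
  | [_] => by simp [diags]
  | x :: y :: l => by
      have := sum_diags φ hφ v (y :: l)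
      simp only [diags, List.map_cons, List.sum_cons]
      rw [this, hφ x v]; ring

theorem sum_walkDiags (φ : V → V → ℝ) (hφ : ∀ u v, φ u v = - φ v u) : ∀ w : List V,
    ((walkDiags w).map fun d => φ d.1 d.2).sum = 0
  | [] => by simp [walkDiags]
  | [_] => by simp [walkDiags]
  | v :: x :: l => sum_diags φ hφ v l

theorem sum_flatMap_triDarts (φ : V → V → ℝ) : ∀ T : List (V × V × V),
    ((T.flatMap triDarts).map fun d => φ d.1 d.2).sum =
      (T.map fun t => φ t.1 t.2.1 + φ t.2.1 t.2.2 + φ t.2.2 t.1).sum
  | [] => by simp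
  | t :: T => by
      have := sum_flatMap_triDarts φ T
      rw [List.flatMap_cons, List.map_append, List.sum_append, this, List.map_cons, List.sum_cons]
      simp [triDarts]; ring

theorem FanPos.wsum_eq {p : V → Plane} {w : List V} (h : FanPos p w) (φ : V → V → ℝ)
    (hφ : ∀ u v, φ u v = - φ v u) :
    wsum φ w = ((fanTris w).map fun t => φ t.1 t.2.1 + φ t.2.1 t.2.2 + φ t.2.2 t.1).sum := by
  have h1 := ((FanPos.perm h).map fun d => φ d.1 d.2).sum_eq
  rw [sum_flatMap_triDarts, List.map_append, List.sum_append, sum_walkDiags φ hφ] at h1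
  rw [h1, wsum]; ring

/-- all diagonals -/
def allDiags (G : FaceMap V) : List (V × V) := G.inner.flatMap fun f => walkDiags f.1

/-- all inner darts -/
def innerDarts (G : FaceMap V) : List (V × V) := G.inner.flatMap fun f => dartsOf f.1

theorem perm_flatMap (p : V → Plane) : ∀ L : List (List V × ℚ), (∀ f ∈ L, FanPos p f.1) →
    ((L.flatMap fun f => fanTris f.1).flatMap triDarts).Perm
      ((L.flatMap fun f => dartsOf f.1) ++ (L.flatMap fun f => walkDiags f.1))
  | [], _ => by simp
  | f :: L, h => by
      have ih := perm_flatMap p L (fun g hg => h g (List.mem_cons_of_mem _ hg))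
      have h1 := FanPos.perm (h f List.mem_cons_self)
      simp only [List.flatMap_cons, List.flatMap_append]
      refine (h1.append ih).trans ?_
      generalize dartsOf f.1 = A
      generalize walkDiags f.1 = B
      generalize (List.flatMap (fun f => dartsOf f.1) L) = C
      generalize (List.flatMap (fun f => walkDiags f.1) L) = D
      have : ((B ++ C) ++ D).Perm ((C ++ B) ++ D) :=
        (List.perm_append_comm (l₁ := B) (l₂ := C)).append_right D
      simpa using this.append_left A

theorem perm_all (G : FaceMap V) (p : V → Plane) (h : ∀ f ∈ G.inner, FanPos p f.1) :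
    (G.tris.flatMap triDarts).Perm (innerDarts G ++ allDiags G) := perm_flatMap p G.inner h

theorem chain_aux (p : V → Plane) (φ : V → V → ℝ) (hφ : ∀ u v, φ u v = - φ v u) :
    ∀ L : List (List V × ℚ), (∀ f ∈ L, FanPos p f.1) →
      ((L.flatMap fun f => fanTris f.1).map
        fun t => φ t.1 t.2.1 + φ t.2.1 t.2.2 + φ t.2.2 t.1).sum =
        ((L.map Prod.fst).map (wsum φ)).sum
  | [], _ => by simp
  | f :: L, h => by
      have ih := chain_aux p φ hφ L (fun g hg => h g (List.mem_cons_of_mem _ hg))
      have h1 := FanPos.wsum_eq (h f List.mem_cons_self) φ hφ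
      simp only [List.flatMap_cons, List.map_append, List.sum_append, List.map_cons,
        List.sum_cons]
      rw [ih, h1]

theorem triHyp (G : FaceMap V) (p : V → Plane) (a b c : V) (hne : G.inner ≠ [])
    (hch : ChainEq (G.inner.map Prod.fst) [a, b, c]) (hf : ∀ f ∈ G.inner, FanPos p f.1) :
    TriHyp p G.tris a b c where
  pos := by
    intro t ht
    obtain ⟨f, hf', ht'⟩ := List.mem_flatMap.1 ht
    exact FanPos.tri_pos (hf f hf') t ht'
  chain := by
    intro φ hφ
    have h1 := chain_aux p φ hφ G.inner hf
    have h2 := hch φ hφ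
    unfold FaceMap.tris
    rw [h1, h2, wsum, dartsOf_cons]
    simp [tailDarts]; ring
  ne := by
    obtain ⟨f, hf'⟩ := List.exists_mem_of_ne_nil _ hne
    obtain ⟨v, x, y, l, hw⟩ := FanPos.shape (hf f hf')
    intro h0
    have : (v, x, y) ∈ G.tris := List.mem_flatMap.2 ⟨f, hf', by rw [hw, fanTris_cons]; simp⟩
    rw [h0] at this
    simp at this

theorem det3_ne {A B C : Plane} (h : 0 < det3 A B C) : A ≠ B ∧ B ≠ C ∧ C ≠ A := by
  refine ⟨?_, ?_, ?_⟩
  · rintro rfl; simp [det3] at h
  · rintro rfl
    have : det3 A B B = 0 := by unfold det3; ring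
    linarith
  · rintro rfl; simp [det3] at h

theorem tame (G : FaceMap V) (p : V → Plane) (a b c : V) (ho : G.outer = [a, c, b])
    (hf : ∀ f ∈ G.inner, FanPos p f.1) (hN : Nice p G.tris a b c) (hP : Planar p G.tris) :
    Tame G p a b c := by
  have hperm := perm_all G p hf
  have hnd : (innerDarts G ++ allDiags G).Nodup := hperm.nodup_iff.1 hN.darts_nodup
  have hmem : ∀ d, d ∈ G.tris.flatMap triDarts ↔ d ∈ innerDarts G ∨ d ∈ allDiags G := by
    intro d; rw [hperm.mem_iff, List.mem_append]
  have hdisj : ∀ d, d ∈ innerDarts G → d ∉ allDiags G := by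
    intro d h1 h2
    exact (List.disjoint_of_nodup_append hnd) h1 h2
  have hswap : ∀ d, d ∈ allDiags G → d.swap ∈ allDiags G := by
    intro d hd
    obtain ⟨f, hf', hd'⟩ := List.mem_flatMap.1 hd
    exact List.mem_flatMap.2 ⟨f, hf', swap_mem_walkDiags _ _ hd'⟩
  have hne := det3_ne hN.outer_pos
  have hab : a ≠ b := fun h => hne.1 (by rw [h])
  have hbc : b ≠ c := fun h => hne.2.1 (by rw [h])
  have hca : c ≠ a := fun h => hne.2.2 (by rw [h])
  have hdarts : G.darts = [(a, c), (c, b), (b, a)] ++ innerDarts G := by
    have : ∀ L : List (List V × ℚ), (L.map Prod.fst).flatMap dartsOf =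
        L.flatMap fun f => dartsOf f.1 := by
      intro L
      rw [List.flatMap_map]
    rw [FaceMap.darts, FaceMap.walks, List.flatMap_cons, ho, dartsOf_cons, this]
    rfl
  have hout : ∀ d ∈ [(a, c), (c, b), (b, a)], d ∉ G.tris.flatMap triDarts ∧
      d.swap ∈ G.tris.flatMap triDarts := by
    intro d hd
    simp only [List.mem_cons, List.not_mem_nil, or_false] at hd
    rcases hd with rfl | rfl | rfl
    · have := hN.out_mem (c, a) (by simp)
      exact ⟨this.2, this.1⟩
    · have := hN.out_mem (b, c) (by simp)
      exact ⟨this.2, this.1⟩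
    · have := hN.out_mem (a, b) (by simp)
      exact ⟨this.2, this.1⟩
  have hmd : ∀ d, d ∈ G.darts ↔ d ∈ [(a, c), (c, b), (b, a)] ∨ d ∈ innerDarts G := by
    intro d; rw [hdarts, List.mem_append]
  -- a diagonal is not a dart
  have hdg : ∀ d, d ∈ allDiags G → d ∉ G.darts := by
    intro d hd h
    rcases (hmd d).1 h with h | h
    · exact (hout d h).1 ((hmem d).2 (Or.inr hd))
    · exact hdisj d h hd
  refine ⟨ho, hf, hN, hP, ?_, ?_, ?_, ?_, ?_⟩
  · -- nodup
    rw [hdarts]
    refine List.Nodup.append ?_ (List.Nodup.of_append_left hnd) ?_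
    · simp [hab, hca, hab.symm, hbc.symm, hca.symm, Prod.ext_iff]
    · intro d hd hd'
      exact (hout d hd).1 ((hmem d).2 (Or.inl hd'))
  · -- symm
    intro d hd
    rcases (hmd d).1 hd with h | h
    · rcases (hmem _).1 (hout d h).2 with h' | h'
      · exact (hmd _).2 (Or.inr h')
      · have := hswap _ h'
        rw [Prod.swap_swap] at this
        exact absurd ((hmem d).2 (Or.inr this)) (hout d h).1
    · rcases hN.rev d ((hmem d).2 (Or.inl h)) with h' | h'
      · rcases (hmem _).1 h' with h'' | h''
        · exact (hmd _).2 (Or.inr h'')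
        · have := hswap _ h''
          rw [Prod.swap_swap] at this
          exact absurd this (hdisj d h)
      · apply (hmd _).2
        left
        simp only [List.mem_cons, List.not_mem_nil, or_false] at h'
        rcases h' with rfl | rfl | rfl <;> simp
  · -- loopless
    intro d hd
    rcases (hmd d).1 hd with h | h
    · simp only [List.mem_cons, List.not_mem_nil, or_false] at h
      rcases h with rfl | rfl | rfl
      · exact hca.symm
      · exact hbc.symm
      · exact hab.symm
    · have h' := (hmem d).2 (Or.inl h)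
      obtain ⟨t, ht, hdt⟩ := List.mem_flatMap.1 h'
      have hp := det3_ne (hN.pos t ht)
      simp only [triDarts, List.mem_cons, List.not_mem_nil, or_false] at hdt
      rcases hdt with rfl | rfl | rfl
      · exact fun h => hp.1 (congrArg p h)
      · exact fun h => hp.2.1 (congrArg p h)
      · exact fun h => hp.2.2 (congrArg p h)
  · -- sub
    intro f hf' d hd
    exact (hmem d).2 (Or.inl (List.mem_flatMap.2 ⟨f, hf', hd⟩))
  · -- diag
    intro f hf' t ht d hd hnot
    have h1 : d ∈ (fanTris f.1).flatMap triDarts := List.mem_flatMap.2 ⟨t, ht, hd⟩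
    rw [(FanPos.perm (hf f hf')).mem_iff, List.mem_append] at h1
    have h2 : d ∈ allDiags G := List.mem_flatMap.2 ⟨f, hf', h1.resolve_left hnot⟩
    exact ⟨hdg d h2, hdg _ (hswap d h2)⟩

end YDarts

/-- Y-DARTS -/
theorem yDarts : TargetDarts := by
  intro V G p a b c ho hne hch hf
  exact ⟨YDarts.triHyp G p a b c hne hch hf, YDarts.tame G p a b c ho hf⟩

end Pool.Agent.PAH
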