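import Pool.Agent.PAH.AsmNo
import Pool.Agent.PAH.Statement
import Pool.Agent.PAH.Area
import Pool.Agent.PAH.Areas
import Pool.Agent.PAH.Chain
import Pool.Agent.PAH.ColsMain
import Pool.Agent.PAH.Cover
import Pool.Agent.PAH.Etr
import Pool.Agent.PAH.Ext
import Pool.Agent.PAH.FIds
import Pool.Agent.PAH.FNodes
import Pool.Agent.PAH.FRigid
import Pool.Agent.PAH.Fans
import Pool.Agent.PAH.Frame
import Pool.Agent.PAH.Hull
import Pool.Agent.PAH.Machine
import Pool.Agent.PAH.Macro
import Pool.Agent.PAH.MapV
import Pool.Agent.PAH.OuterFace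
import Pool.Agent.PAH.PCols
import Pool.Agent.PAH.PComp
import Pool.Agent.PAH.Planarity
import Pool.Agent.PAH.Print1
import Pool.Agent.PAH.Print3
import Pool.Agent.PAH.Quads
import Pool.Agent.PAH.Region
import Pool.Agent.PAH.Rot
import Pool.Agent.PAH.Slice
import Pool.Agent.PAH.YDarts

set_option autoImplicit false

/-!
# The prescribed area problem with no fixed vertices is ∃ℝ-hard
-/

namespace Pool.Agent.PAH

theorem tDrawing : TargetDrawing :=
  drawing_of cover planar_main yDarts targetRegion targetOuter targetRot

theorem tArea : TargetArea := targetArea nSlice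

theorem tHull : TargetHull := target_Hull nSlice

lemma vname_injective : Function.Injective vname := by
  have key : ∀ (a b : ℕ) (l l' : List Bool),
      List.replicate a true ++ false :: l = List.replicate b true ++ false :: l' →
        a = b ∧ l = l' := by
    intro a
    induction a with
    | zero =>
      intro b l l' h
      cases b with
      | zero => simpa using h
      | succ b => simp [List.replicate_succ] at h
    | succ a ih =>
      intro b l l' h
      cases b with
      | zero => simp [List.replicate_succ] at h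
      | succ b =>
        simp only [List.replicate_succ, List.cons_append, List.cons.injEq, true_and] at h
        obtain ⟨h1, h2⟩ := ih b l l' h
        exact ⟨by omega, h2⟩
  rintro ⟨x, y, z⟩ ⟨x', y', z'⟩ h
  unfold vname at h
  simp only [List.append_assoc, List.cons_append, List.nil_append] at h
  obtain ⟨h1, h2⟩ := key _ _ _ _ h
  obtain ⟨h3, h4⟩ := key _ _ _ _ h2
  have h5 := congrArg List.length h4
  rw [List.length_replicate, List.length_replicate] at h5
  rw [h1, h3, h5]

lemma rows_pos (L : List Constr) : 1 ≤ (arithMatrix L).n := by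
  unfold arithMatrix numVars
  simp only
  omega

/-- all prescribed areas of a macro are positive -/
lemma macro_pos {T : ℕ} (hT : 64 ≤ T) {q : Quad} (hq : 1 ≤ q.M) :
    ∀ f ∈ macroFaces T q, 0 < f.2 := by
  have p1 : 0 < mA1 T := by unfold mA1; positivity
  have p2 : 0 < mA2 T := by unfold mA2; positivity
  have p3 : 0 < mA3 T := by unfold mA3; positivity
  have p4 : 0 < mA4 T := by unfold mA4; positivity
  have p5 : 0 < mA5 T := by
    unfold mA5
    apply Nat.sub_pos_of_lt
    nlinarith [Nat.mul_le_mul_left (T ^ 2) hT, Nat.mul_le_mul_left T hT, hT]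
  have p6 : 0 < mA6 T := by
    unfold mA6
    apply Nat.sub_pos_of_lt
    have h1 : 64 * 64 * T ^ 4 ≤ T ^ 6 := by
      calc 64 * 64 * T ^ 4 ≤ T * T * T ^ 4 :=
            Nat.mul_le_mul_right _ (Nat.mul_le_mul hT hT)
        _ = T ^ 6 := by ring
    have h2 : T ^ 3 ≤ T ^ 4 := Nat.pow_le_pow_right (by omega) (by norm_num)
    nlinarith
  have p7 : 0 < mA7 T := by
    unfold mA7
    apply Nat.sub_pos_of_lt
    have h2 : T ^ 3 < 2 * T ^ 6 := by
      have : T ^ 3 ≤ T ^ 6 := Nat.pow_le_pow_right (by omega) (by norm_num)
      have : 0 < T ^ 3 := by positivity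
      omega
    nlinarith
  intro f hf
  unfold macroFaces at hf
  simp only [List.mem_cons, List.not_mem_nil, or_false] at hf
  rcases hf with rfl | rfl | rfl | rfl | rfl | rfl | rfl | rfl | rfl | rfl | rfl | rfl | rfl | rfl <;>
    exact Nat.mul_pos (by assumption) hq

lemma plain_pos {n m : ℕ} {τ : ℕ → ℕ → Ty} : ∀ f ∈ fabricPlain n m τ, 0 < f.2 := by
  intro f hf
  unfold fabricPlain at hf
  rcases List.mem_append.1 hf with h | h
  · obtain ⟨i, -, h⟩ := List.mem_flatMap.1 h
    obtain ⟨j, -, h⟩ := List.mem_flatMap.1 h
    unfold holeFaces at h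
    simp only at h
    split_ifs at h
    all_goals try
      (simp only [List.mem_cons, List.not_mem_nil, or_false] at h
       rcases h with rfl | rfl | rfl | rfl <;> norm_num)
    all_goals try
      (simp only [List.mem_cons, List.not_mem_nil, or_false] at h
       subst h
       norm_num)
    cases hτ : τ (i + 1) j <;> rw [hτ] at h <;>
      simp only [List.mem_cons, List.not_mem_nil, or_false] at h
    · rcases h with rfl | rfl | rfl | rfl <;> norm_num
    · rcases h with rfl | rfl <;> norm_num
    · rcases h with rfl | rfl | rfl | rfl <;> norm_num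
  · unfold outerFaces at h
    simp only [List.mem_cons, List.not_mem_nil, or_false] at h
    rcases h with rfl | rfl | rfl <;> simp only <;> omega

lemma faces_pos {n m : ℕ} {τ : ℕ → ℕ → Ty} : ∀ g ∈ fabricFaces n m τ, 0 < g.2 := by
  intro g hg
  rcases mem_fabricFaces hg with ⟨q, hq, hgq⟩ | ⟨f, hf, rfl⟩
  · exact macro_pos (fT_ge n m) ((target_ids n m).2.1 q hq).2.1 g hgq
  · exact Nat.mul_pos (plain_pos f hf) (mZ_pos (fT_ge n m))

/-- the reduction -/
noncomputable def red (φ : Formula) : AreaInstance where
  graph := φ.instMap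
  plane := (rMap (arithMatrix φ.system).fabric vname vname_injective).1.2
    (fabric_plane tDrawing chain_fabric target_ids targetQuads targetFans macroYes
      (rows_pos φ.system))
  pos := by
    intro f hf
    unfold Formula.instMap FaceMap.map at hf
    simp only at hf
    obtain ⟨g, hg, rfl⟩ := List.mem_map.1 hf
    obtain ⟨g', hg', rfl⟩ := mem_fabric_inner hg
    exact Nat.cast_pos.2 (faces_pos g' hg')

theorem red_yes (φ : Formula) :
    existentialTheoryOfReals.Yes φ ↔ prescribedArea.Yes (red φ) := by
  change (∃ x, φ.Holds x) ↔ φ.instMap.Realizable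
  rw [target_Etr φ]
  unfold Formula.instMap
  rw [(rMap (arithMatrix φ.system).fabric vname vname_injective).2]
  constructor
  · intro h
    set X := arithMatrix φ.system with hX
    obtain ⟨ξ, η, hS, h1, h2, h3⟩ := targetColsYes φ.system h (1 / (16 * ((X.n : ℝ) + 2)))
      (by positivity)
    exact fabric_realizable tDrawing tArea chain_fabric target_ids targetQuads targetFans
      targetAreas macroYes aExt (rows_pos φ.system) hS h1 h2 h3
  · intro h
    obtain ⟨ξ, η, hS, h1⟩ := sol_of_realizable tArea tHull chain_fabric target_ids targetQuads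
      targetAreas macroYes macroNo targetFrame F_RIGID targetNodes (rows_pos φ.system) h
    exact targetColsNo φ.system ξ η hS h1

theorem red_poly : Nonempty (Turing.TM2ComputableInPolyTime existentialTheoryOfReals.enc
    prescribedArea.enc red) := by
  obtain ⟨C, hC⟩ := targetMachine
  obtain ⟨F₁, h1, e1⟩ := print1 C
  obtain ⟨F₂, h2, e2⟩ := targetPrint2 C
  obtain ⟨F₃, h3, e3⟩ := target_Print3 C
  refine hC Formula.enc (fun I : AreaInstance => encMap I.graph) red
    (fun s => F₃ (F₂ (F₁ s))) (C.comp h3 (C.comp h2 h1)) ?_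
  intro φ
  change F₃ (F₂ (F₁ φ.enc)) = encMap φ.instMap
  rw [e1, e2, e3]
  rfl

/-- The prescribed area problem with no fixed vertices is `∃ℝ`-hard. -/
theorem main : ExistsRHard prescribedArea := by
  intro P hP
  obtain ⟨f, ⟨hf⟩, hyes⟩ := hP
  obtain ⟨hr⟩ := red_poly
  refine ⟨red ∘ f, p_comp hf hr, ?_⟩
  intro a
  rw [hyes a]
  exact red_yes (f a)

end Pool.Agent.PAH
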