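import Pool.Agent.PAH.Targets

set_option autoImplicit false

/-!
# Evaluation of the positions `lpos` on lattice points
-/

namespace Pool.Agent.PAH

variable {n m : ℕ} {τ : ℕ → ℕ → Ty} {ξ η : ℕ → ℕ → ℝ}

/-- The value at a lattice point. -/
theorem lpos_pt (x y : ℕ) : lpos n m τ ξ η (pt x y) =
    if y % 3 = 0 then
      (if x % 3 = 1 then
        ((x : ℝ) + ξ (y / 3) (x / 3 - 1),
          (y : ℝ) + if y / 3 ≤ n ∧ τ (y / 3) (x / 3 - 1) = Ty.P then η (y / 3 + 1) (x / 3 - 1)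
            else η (y / 3) (x / 3 - 1))
      else ((x : ℝ) + ξ (y / 3) ((x - 2) / 3), (y : ℝ)))
    else if x % 3 = 1 then ((x : ℝ), (y : ℝ) + η (y / 3 + 1) (x / 3 - 1))
    else ((x : ℝ), (y : ℝ)) := by
  have h1 : pt x y ≠ vq := by simp [pt, vq]
  have h2 : pt x y ≠ vo1 := by simp [pt, vo1]
  have h3 : pt x y ≠ vo2 := by simp [pt, vo2]
  have h4 : pt x y ≠ vo3 := by simp [pt, vo3]
  unfold lpos
  simp only [h1, h2, h3, h4, if_false]
  rfl

theorem lpos_vq : lpos n m τ ξ η vq = (5, 3) := by simp [lpos]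
theorem lpos_vo1 : lpos n m τ ξ η vo1 = (-1, -(fN n m : ℝ)) := by simp [lpos, vo1, vq]
theorem lpos_vo2 : lpos n m τ ξ η vo2 = ((fN n m : ℝ), 3 * (n : ℝ) + 6) := by
  simp [lpos, vo1, vo2, vq]
theorem lpos_vo3 : lpos n m τ ξ η vo3 = (-1, 3 * (n : ℝ) + 6) := by
  simp [lpos, vo1, vo2, vo3, vq]

/-- rows not divisible by `3`, columns not `1` modulo `3` -/
theorem lpos_fix (x y : ℕ) (hy : y % 3 ≠ 0) (hx : x % 3 ≠ 1) :
    lpos n m τ ξ η (pt x y) = ((x : ℝ), (y : ℝ)) := by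
  rw [lpos_pt, if_neg hy, if_neg hx]

/-- sliders in the row gaps, and the corners of the holes in row `3 i` -/
theorem lpos_row (x i : ℕ) (hx : x % 3 ≠ 1) :
    lpos n m τ ξ η (pt x (3 * i)) = ((x : ℝ) + ξ i ((x - 2) / 3), 3 * (i : ℝ)) := by
  rw [lpos_pt, if_pos (by omega), if_neg hx, show 3 * i / 3 = i by omega]
  push_cast; rfl

/-- sliders in the column gaps -/
theorem lpos_col (j y : ℕ) (hy : y % 3 ≠ 0) :
    lpos n m τ ξ η (pt (3 * j + 4) y) = (3 * (j : ℝ) + 4, (y : ℝ) + η (y / 3 + 1) j) := by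
  rw [lpos_pt, if_neg hy, if_pos (by omega), show (3 * j + 4) / 3 - 1 = j by omega]
  push_cast; rfl

/-- centres of the holes -/
theorem lpos_cen (i j : ℕ) :
    lpos n m τ ξ η (pt (3 * j + 4) (3 * i)) = (3 * (j : ℝ) + 4 + ξ i j,
      3 * (i : ℝ) + if i ≤ n ∧ τ i j = Ty.P then η (i + 1) j else η i j) := by
  rw [lpos_pt, if_pos (by omega), if_pos (by omega), show (3 * j + 4) / 3 - 1 = j by omega,
    show 3 * i / 3 = i by omega]
  push_cast; rfl

section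
variable (hB : BArr n m ξ η)
include hB

/-- the three lowest rows -/
theorem lpos_low (x y : ℕ) (hy : y ≤ 2) :
    lpos n m τ ξ η (pt x y) = ((x : ℝ), (y : ℝ)) := by
  rw [lpos_pt]
  have h0 : y / 3 = 0 := by omega
  rw [h0]
  simp only [hB.xb, zero_add, hB.y1, add_zero]
  have h1 : ∀ j, η 0 j = 0 := hB.y0
  simp only [h1, ite_self, add_zero]

/-- the columns `0, 2, 3` -/
theorem lpos_left (x y : ℕ) (hx : x ≤ 3) (hx' : x ≠ 1) :
    lpos n m τ ξ η (pt x y) = ((x : ℝ), (y : ℝ)) := by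
  rw [lpos_pt]
  have h0 : (x - 2) / 3 = 0 := by omega
  have h1 : x % 3 ≠ 1 := by omega
  rw [h0, if_neg h1, if_neg h1, hB.x0, add_zero, ite_self]

/-- a point of the start tile -/
theorem lpos_start : lpos n m τ ξ η (pt 1 (3 * (n + 1) + 1)) = (1, 3 * ((n : ℝ) + 1) + 1) := by
  rw [lpos_pt, if_neg (by omega), if_pos (by omega),
    show (3 * (n + 1) + 1) / 3 + 1 = n + 2 by omega, hB.yt]
  push_cast
  simp

end

end Pool.Agent.PAH
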