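import Pool.Agent.PAH.Targets

set_option autoImplicit false

/-!
# Y-OUTER: the complement of the outer triangle is a face
-/

namespace Pool.Agent.PAH

namespace OuterAux

theorem det3_aff (a b : Plane) : ∀ (s t : ℝ) (x y : Plane), s + t = 1 →
    det3 a b (s • x + t • y) = s * det3 a b x + t * det3 a b y := by
  intro s t x y h
  have ht : t = 1 - s := by linarith
  subst ht
  simp only [det3, Prod.fst_add, Prod.snd_add, Prod.smul_fst, Prod.smul_snd, smul_eq_mul]
  ring

theorem det3_cont (a b : Plane) : Continuous fun x => det3 a b x := by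
  unfold det3
  fun_prop

/-- a connectedness criterion -/
theorem component_eq {X : Type} [TopologicalSpace X] {R U : Set X} (hR : IsPreconnected R)
    (ho : IsOpen R) (hU : R ⊆ U) (hc : closure R ∩ U ⊆ R) {x : X} (hx : x ∈ R) :
    connectedComponentIn U x = R := by
  apply Set.Subset.antisymm
  · have h1 : IsPreconnected (connectedComponentIn U x) := isPreconnected_connectedComponentIn
    have h2 : connectedComponentIn U x ⊆ U := connectedComponentIn_subset U x
    apply h1.subset_left_of_subset_union ho (isClosed_closure (s := R)).isOpen_compl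
    · rw [Set.disjoint_compl_right_iff_subset]
      exact subset_closure
    · intro y hy
      by_cases hyc : y ∈ closure R
      · exact Or.inl (hc ⟨hyc, h2 hy⟩)
      · exact Or.inr hyc
    · exact ⟨x, mem_connectedComponentIn (hU hx), hx⟩
  · exact hR.subset_connectedComponentIn hx hU

theorem bary (A B C x : Plane) :
    (det3 A B C) • x = (det3 B C x) • A + (det3 C A x) • B + (det3 A B x) • C := by
  ext
  · simp only [det3, Prod.fst_add, Prod.smul_fst, smul_eq_mul]
    ring
  · simp only [det3, Prod.snd_add, Prod.smul_snd, smul_eq_mul]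
    ring

theorem sum_det (A B C x : Plane) :
    det3 B C x + det3 C A x + det3 A B x = det3 A B C := by
  simp only [det3]; ring

theorem closed_convex (A B C : Plane) : Convex ℝ (closedTri A B C) := by
  intro x hx y hy s t hs ht hst
  refine ⟨?_, ?_, ?_⟩
  · rw [det3_aff _ _ _ _ _ _ hst]
    have := mul_nonneg hs hx.1
    have := mul_nonneg ht hy.1
    linarith
  · rw [det3_aff _ _ _ _ _ _ hst]
    have := mul_nonneg hs hx.2.1
    have := mul_nonneg ht hy.2.1
    linarith
  · rw [det3_aff _ _ _ _ _ _ hst]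
    have := mul_nonneg hs hx.2.2
    have := mul_nonneg ht hy.2.2
    linarith

theorem open_isOpen (A B C : Plane) : IsOpen (openTri A B C) := by
  have h1 : IsOpen {x : Plane | 0 < det3 A B x} := isOpen_lt continuous_const (det3_cont A B)
  have h2 : IsOpen {x : Plane | 0 < det3 B C x} := isOpen_lt continuous_const (det3_cont B C)
  have h3 : IsOpen {x : Plane | 0 < det3 C A x} := isOpen_lt continuous_const (det3_cont C A)
  exact h1.inter (h2.inter h3)

theorem closed_isClosed (A B C : Plane) : IsClosed (closedTri A B C) := by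
  have h1 : IsClosed {x : Plane | 0 ≤ det3 A B x} := isClosed_le continuous_const (det3_cont A B)
  have h2 : IsClosed {x : Plane | 0 ≤ det3 B C x} := isClosed_le continuous_const (det3_cont B C)
  have h3 : IsClosed {x : Plane | 0 ≤ det3 C A x} := isClosed_le continuous_const (det3_cont C A)
  exact h1.inter (h2.inter h3)

theorem open_sub_closed (A B C : Plane) : openTri A B C ⊆ closedTri A B C :=
  fun _ hx => ⟨hx.1.le, hx.2.1.le, hx.2.2.le⟩

/-- the vertices of a triangle are limits of points of the open triangle -/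
theorem vertex_limit {P Q S : Plane} (h : 0 < det3 P Q S) {v : Plane}
    (hv : v = P ∨ v = Q ∨ v = S) {s : ℝ} (hs : 0 < s) (hs1 : s ≤ 1) :
    (1 - s) • v + s • ((1 / 3 : ℝ) • P + (2 / 3 : ℝ) • ((1 / 2 : ℝ) • Q + (1 / 2 : ℝ) • S)) ∈
      openTri P Q S := by
  have e1 : ∀ X Y, det3 X Y X = 0 := by intro X Y; simp [det3]
  have e2 : ∀ X Y, det3 X Y Y = 0 := by intro X Y; simp [det3]; ring
  have e3 : det3 Q S P = det3 P Q S := by simp only [det3]; ring
  have e4 : det3 S P Q = det3 P Q S := by simp only [det3]; ring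
  have key : ∀ X Y, 0 ≤ det3 X Y v → det3 X Y P + det3 X Y Q + det3 X Y S = det3 P Q S →
      0 < det3 X Y ((1 - s) • v + s • ((1 / 3 : ℝ) • P +
        (2 / 3 : ℝ) • ((1 / 2 : ℝ) • Q + (1 / 2 : ℝ) • S))) := by
    intro X Y h0 h1
    rw [det3_aff _ _ _ _ _ _ (by ring), det3_aff _ _ _ _ _ _ (by norm_num),
      det3_aff _ _ _ _ _ _ (by norm_num)]
    have h2 : 0 ≤ (1 - s) * det3 X Y v := mul_nonneg (by linarith) h0
    have h3 : 1 / 3 * det3 X Y P + 2 / 3 * (1 / 2 * det3 X Y Q + 1 / 2 * det3 X Y S)
        = det3 P Q S / 3 := by rw [← h1]; ring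
    rw [h3]
    have : 0 < s * (det3 P Q S / 3) := mul_pos hs (by linarith)
    linarith
  refine ⟨key _ _ ?_ ?_, key _ _ ?_ ?_, key _ _ ?_ ?_⟩
  · rcases hv with rfl | rfl | rfl
    · rw [e1]
    · rw [e2]
    · exact h.le
  · rw [e1, e2]; ring
  · rcases hv with rfl | rfl | rfl
    · rw [e3]; exact h.le
    · rw [e1]
    · rw [e2]
  · rw [e1, e2, e3]; ring
  · rcases hv with rfl | rfl | rfl
    · rw [e2]
    · rw [e4]; exact h.le
    · rw [e1]
  · rw [e1, e2, e4]; ring

/-- if an affine function is positive on the open triangle, it is nonnegative on vertices -/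
theorem nonneg_vertex {P Q S X Y : Plane} (h : 0 < det3 P Q S)
    (hsub : ∀ x ∈ openTri P Q S, 0 < det3 X Y x) {v : Plane}
    (hv : v = P ∨ v = Q ∨ v = S) : 0 ≤ det3 X Y v := by
  by_contra hneg
  push Not at hneg
  set g : Plane := (1 / 3 : ℝ) • P + (2 / 3 : ℝ) • ((1 / 2 : ℝ) • Q + (1 / 2 : ℝ) • S) with hg
  have h1 : 0 < det3 X Y g := by
    have := hsub _ (vertex_limit h hv (s := 1) one_pos le_rfl)
    rw [← hg] at this
    simpa using this
  set s : ℝ := - det3 X Y v / (det3 X Y g - det3 X Y v) with hs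
  have hd : 0 < det3 X Y g - det3 X Y v := by linarith
  have hs0 : 0 < s := div_pos (by linarith) hd
  have hs1 : s ≤ 1 := by
    rw [hs, div_le_one hd]; linarith
  have h2 := hsub _ (vertex_limit h hv hs0 hs1)
  rw [← hg, det3_aff _ _ _ _ _ _ (by ring)] at h2
  have h3 : (1 - s) * det3 X Y v + s * det3 X Y g = 0 := by
    rw [hs]; field_simp; ring
  linarith

theorem vertex_mem {P Q S A B C : Plane} (h : 0 < det3 P Q S)
    (hsub : openTri P Q S ⊆ openTri A B C) {v : Plane}
    (hv : v = P ∨ v = Q ∨ v = S) : v ∈ closedTri A B C :=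
  ⟨nonneg_vertex h (fun x hx => (hsub hx).1) hv,
    nonneg_vertex h (fun x hx => (hsub hx).2.1) hv,
    nonneg_vertex h (fun x hx => (hsub hx).2.2) hv⟩

theorem side_mem {A B C x : Plane} (hD : 0 < det3 A B C) (hx : x ∈ closedTri A B C)
    (h0 : det3 A B x = 0) : x ∈ segment ℝ B A := by
  have h1 := bary A B C x
  have h2 := sum_det A B C x
  rw [h0, add_zero] at h2
  rw [h0, zero_smul, add_zero] at h1
  refine ⟨det3 C A x / det3 A B C, det3 B C x / det3 A B C, div_nonneg hx.2.2 hD.le,
    div_nonneg hx.2.1 hD.le, ?_, ?_⟩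
  · rw [← add_div, add_comm, h2, div_self hD.ne']
  · have h3 : x = (det3 A B C)⁻¹ • ((det3 A B C) • x) := by
      rw [smul_smul, inv_mul_cancel₀ hD.ne', one_smul]
    conv_rhs => rw [h3, h1]
    rw [smul_add, smul_smul, smul_smul, add_comm, div_eq_inv_mul, div_eq_inv_mul]

theorem half_convex (A B : Plane) : Convex ℝ {x : Plane | det3 A B x < 0} := by
  intro x hx y hy s t hs ht hst
  simp only [Set.mem_ofPred_eq] at hx hy ⊢
  rw [det3_aff _ _ _ _ _ _ hst]
  rcases hs.eq_or_lt with h | h
  · have : t = 1 := by linarith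
    rw [← h, this]; simpa using hy
  · have h1 : s * det3 A B x < 0 := mul_neg_of_pos_of_neg h hx
    have h2 : t * det3 A B y ≤ 0 := mul_nonpos_of_nonneg_of_nonpos ht hy.le
    linarith

theorem compl_eq (A B C : Plane) : (closedTri A B C)ᶜ =
    ({x : Plane | det3 A B x < 0} ∪ {x : Plane | det3 B C x < 0}) ∪
      {x : Plane | det3 C A x < 0} := by
  ext x
  simp only [closedTri, Set.mem_compl_iff, Set.mem_ofPred_eq, Set.mem_union, not_and_or, not_le,
    or_assoc]

theorem corner_pt (A B C : Plane) :
    det3 A B ((3 : ℝ) • B - A - C) = - det3 A B C ∧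
    det3 B C ((3 : ℝ) • B - A - C) = - det3 A B C := by
  constructor <;>
  simp only [det3, Prod.fst_sub, Prod.snd_sub, Prod.smul_fst, Prod.smul_snd, smul_eq_mul] <;> ring

theorem compl_preconnected {A B C : Plane} (hD : 0 < det3 A B C) :
    IsPreconnected (closedTri A B C)ᶜ := by
  rw [compl_eq]
  have e3 : det3 B C A = det3 A B C := by simp only [det3]; ring
  apply IsPreconnected.union' _ _ (half_convex C A).isPreconnected
  · refine ⟨(3 : ℝ) • C - B - A, Or.inr ?_, ?_⟩
    · have := (corner_pt B C A).1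
      simp only [Set.mem_ofPred_eq]
      rw [this, e3]; linarith
    · have := (corner_pt B C A).2
      simp only [Set.mem_ofPred_eq]
      rw [this, e3]; linarith
  · apply IsPreconnected.union' _ (half_convex A B).isPreconnected (half_convex B C).isPreconnected
    refine ⟨(3 : ℝ) • B - A - C, ?_, ?_⟩
    · have := (corner_pt A B C).1
      simp only [Set.mem_ofPred_eq]
      rw [this]; linarith
    · have := (corner_pt A B C).2
      simp only [Set.mem_ofPred_eq]
      rw [this]; linarith

theorem closed_sub_hull {A B C : Plane} (hD : 0 < det3 A B C) :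
    closedTri A B C ⊆ convexHull ℝ ({A, B, C} : Set Plane) := by
  intro x hx
  have h1 := bary A B C x
  have h2 := sum_det A B C x
  have hA : A ∈ convexHull ℝ ({A, B, C} : Set Plane) := subset_convexHull ℝ _ (by simp)
  have hB : B ∈ convexHull ℝ ({A, B, C} : Set Plane) := subset_convexHull ℝ _ (by simp)
  have hC : C ∈ convexHull ℝ ({A, B, C} : Set Plane) := subset_convexHull ℝ _ (by simp)
  have hconv := convex_convexHull ℝ ({A, B, C} : Set Plane)
  have h3 : x = (det3 B C x / det3 A B C) • A + (det3 C A x / det3 A B C) • B +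
      (det3 A B x / det3 A B C) • C := by
    have h3 : x = (det3 A B C)⁻¹ • ((det3 A B C) • x) := by
      rw [smul_smul, inv_mul_cancel₀ hD.ne', one_smul]
    conv_lhs => rw [h3, h1]
    simp only [smul_add, smul_smul, div_eq_inv_mul]
  have hw : ∀ (w : Fin 3 → ℝ) (z : Fin 3 → Plane), (∀ i, 0 ≤ w i) → ∑ i, w i = 1 →
      (∀ i, z i ∈ convexHull ℝ ({A, B, C} : Set Plane)) →
      ∑ i, w i • z i ∈ convexHull ℝ ({A, B, C} : Set Plane) := by
    intro w z hw0 hw1 hz
    exact hconv.sum_mem (fun i _ => hw0 i) hw1 (fun i _ => hz i)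
  have := hw ![det3 B C x / det3 A B C, det3 C A x / det3 A B C, det3 A B x / det3 A B C]
    ![A, B, C] ?_ ?_ ?_
  · rw [h3]
    simpa [Fin.sum_univ_three] using this
  · intro i
    fin_cases i
    · exact div_nonneg hx.2.1 hD.le
    · exact div_nonneg hx.2.2 hD.le
    · exact div_nonneg hx.1 hD.le
  · simp only [Fin.sum_univ_three, Matrix.cons_val_zero, Matrix.cons_val_one, Matrix.cons_val]
    rw [← add_div, ← add_div, h2, div_self hD.ne']
  · intro i
    fin_cases i
    · exact hA
    · exact hB
    · exact hC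

end OuterAux

open OuterAux

theorem targetOuter : TargetOuter := by
  intro V G p a b c hT
  have hD : 0 < det3 (p a) (p b) (p c) := hT.nice.outer_pos
  have e3 : det3 (p b) (p c) (p a) = det3 (p a) (p b) (p c) := by simp only [det3]; ring
  have e4 : det3 (p c) (p a) (p b) = det3 (p a) (p b) (p c) := by simp only [det3]; ring
  have hanti : ∀ x y z : Plane, det3 x y z = - det3 y x z := by
    intro x y z; simp only [det3]; ring
  have e1 : ∀ X Y : Plane, det3 X Y X = 0 := by intro X Y; simp [det3]
  have e2 : ∀ X Y : Plane, det3 X Y Y = 0 := by intro X Y; simp [det3]; ring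
  have hA : p a ∈ closedTri (p a) (p b) (p c) :=
    ⟨(e1 _ _).ge, by rw [e3]; exact hD.le, (e2 _ _).ge⟩
  have hB : p b ∈ closedTri (p a) (p b) (p c) :=
    ⟨(e2 _ _).ge, (e1 _ _).ge, by rw [e4]; exact hD.le⟩
  have hC : p c ∈ closedTri (p a) (p b) (p c) :=
    ⟨hD.le, (e2 _ _).ge, (e1 _ _).ge⟩
  have houter : dartsOf G.outer = [(a, c), (c, b), (b, a)] := by
    rw [hT.outer_eq]; rfl
  have hmem : ∀ d ∈ dartsOf G.outer, d ∈ G.darts := by
    intro d hd
    simp only [FaceMap.darts, FaceMap.walks, List.flatMap_cons, List.mem_append]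
    exact Or.inl hd
  -- the drawing is contained in the closed triangle
  have hdrawn : G.drawn p ⊆ closedTri (p a) (p b) (p c) := by
    rintro x ⟨d, hd, hx⟩
    have hends : p d.1 ∈ closedTri (p a) (p b) (p c) ∧ p d.2 ∈ closedTri (p a) (p b) (p c) := by
      simp only [FaceMap.darts, FaceMap.walks, List.flatMap_cons, List.mem_append,
        List.mem_flatMap, List.mem_map] at hd
      rcases hd with hd | ⟨w, ⟨f, hf, rfl⟩, hd⟩
      · rw [houter] at hd
        simp only [List.mem_cons, List.not_mem_nil, or_false] at hd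
        rcases hd with rfl | rfl | rfl
        · exact ⟨hA, hC⟩
        · exact ⟨hC, hB⟩
        · exact ⟨hB, hA⟩
      · have h1 := hT.sub f hf d hd
        rw [List.mem_flatMap] at h1
        obtain ⟨t, ht, hdt⟩ := h1
        have hpos := hT.nice.pos t ht
        have hsub := hT.nice.sub t ht
        have hv : ∀ v, v = p t.1 ∨ v = p t.2.1 ∨ v = p t.2.2 →
            v ∈ closedTri (p a) (p b) (p c) := fun v hv => vertex_mem hpos hsub hv
        simp only [triDarts, List.mem_cons, List.not_mem_nil, or_false] at hdt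
        rcases hdt with rfl | rfl | rfl
        · exact ⟨hv _ (Or.inl rfl), hv _ (Or.inr (Or.inl rfl))⟩
        · exact ⟨hv _ (Or.inr (Or.inl rfl)), hv _ (Or.inr (Or.inr rfl))⟩
        · exact ⟨hv _ (Or.inr (Or.inr rfl)), hv _ (Or.inl rfl)⟩
    exact (closed_convex _ _ _).segment_subset hends.1 hends.2 hx
  -- the boundary is contained in the drawing
  have hbd : ∀ x ∈ closedTri (p a) (p b) (p c), x ∉ openTri (p a) (p b) (p c) →
      x ∈ G.drawn p := by
    intro x hx hxo
    have hcase : det3 (p a) (p b) x = 0 ∨ det3 (p b) (p c) x = 0 ∨ det3 (p c) (p a) x = 0 := by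
      by_contra hcon
      push Not at hcon
      exact hxo ⟨lt_of_le_of_ne hx.1 (Ne.symm hcon.1), lt_of_le_of_ne hx.2.1 (Ne.symm hcon.2.1),
        lt_of_le_of_ne hx.2.2 (Ne.symm hcon.2.2)⟩
    rcases hcase with h | h | h
    · exact ⟨(b, a), hmem _ (by rw [houter]; simp), side_mem hD hx h⟩
    · exact ⟨(c, b), hmem _ (by rw [houter]; simp),
        side_mem (by rw [e3]; exact hD) ⟨hx.2.1, hx.2.2, hx.1⟩ h⟩
    · exact ⟨(a, c), hmem _ (by rw [houter]; simp),
        side_mem (by rw [e4]; exact hD) ⟨hx.2.2, hx.1, hx.2.1⟩ h⟩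
  have hopen : IsOpen (closedTri (p a) (p b) (p c))ᶜ := (closed_isClosed _ _ _).isOpen_compl
  have hunb : ¬ Bornology.IsBounded (closedTri (p a) (p b) (p c))ᶜ := by
    intro hb
    have h1 : Bornology.IsBounded (closedTri (p a) (p b) (p c)) := by
      apply Bornology.IsBounded.subset _ (closed_sub_hull hD)
      rw [isBounded_convexHull]
      exact (Set.toFinite _).isBounded
    have h2 : Bornology.IsBounded (Set.univ : Set Plane) := by
      rw [← Set.union_compl_self (closedTri (p a) (p b) (p c))]
      exact h1.union hb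
    exact NoncompactSpace.noncompact_univ (X := Plane)
      ((Metric.isCompact_iff_isClosed_bounded).2 ⟨isClosed_univ, h2⟩)
  have hne : (closedTri (p a) (p b) (p c))ᶜ.Nonempty := by
    by_contra h
    rw [Set.not_nonempty_iff_eq_empty] at h
    apply hunb
    rw [h]
    exact Bornology.isBounded_empty
  obtain ⟨x0, hx0⟩ := hne
  refine ⟨⟨⟨x0, fun h => hx0 (hdrawn h), ?_⟩, ?_⟩, hunb⟩
  · symm
    apply component_eq (compl_preconnected hD) hopen _ _ hx0
    · exact Set.compl_subset_compl.2 hdrawn
    · rintro y ⟨hy1, hy2⟩ hy3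
      have hyo : y ∈ openTri (p a) (p b) (p c) := by
        by_contra h
        exact hy2 (hbd y hy3 h)
      rw [mem_closure_iff] at hy1
      obtain ⟨z, hz1, hz2⟩ := hy1 _ (open_isOpen _ _ _) hyo
      exact hz2 (open_sub_closed _ _ _ hz1)
  · intro d hd
    rw [houter] at hd
    simp only [List.mem_cons, List.not_mem_nil, or_false] at hd
    rcases hd with rfl | rfl | rfl
    · intro x _
      refine ⟨1, one_pos, fun y _ hy hyc => ?_⟩
      have := hyc.2.2
      rw [hanti] at hy
      simp only at hy
      linarith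
    · intro x _
      refine ⟨1, one_pos, fun y _ hy hyc => ?_⟩
      have := hyc.2.1
      rw [hanti] at hy
      simp only at hy
      linarith
    · intro x _
      refine ⟨1, one_pos, fun y _ hy hyc => ?_⟩
      have := hyc.1
      rw [hanti] at hy
      simp only at hy
      linarith

end Pool.Agent.PAH
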