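import Pool.Agent.PAH.Defs

set_option autoImplicit false

/-!
# Abstract interface for polynomial time string functions

`Ctx Γ α`: `α` is a finite product of copies of `List Γ`.  `PolyClass Γ` lists the closure
properties of polynomial time functions between such types.  The printing jobs prove
`∀ C : PolyClass Sym, C.P F`; the machine job constructs a `PolyClass` whose members are computed
by Turing machines in polynomial time (`TargetMachine`).
-/

namespace Pool.Agent.PAH

/-- finite tuples of strings -/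
class Ctx (Γ : outParam Type) (α : Type) where
  dim : ℕ
  vec : α ≃ (Fin dim → List Γ)

/-- total length of a tuple of strings -/
def csize {Γ α : Type} [Ctx Γ α] (a : α) : ℕ := ∑ i, (Ctx.vec a i).length

instance Ctx.list {Γ : Type} : Ctx Γ (List Γ) where
  dim := 1
  vec := (Equiv.funUnique (Fin 1) (List Γ)).symm

instance Ctx.prod {Γ α β : Type} [Ctx Γ α] [Ctx Γ β] : Ctx Γ (α × β) where
  dim := Ctx.dim α + Ctx.dim β
  vec := (Equiv.prodCongr (Ctx.vec (α := α)) (Ctx.vec (α := β))).trans (Fin.appendEquiv _ _)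

@[simp] lemma csize_list {Γ : Type} (l : List Γ) : csize l = l.length := by
  change (∑ _i : Fin 1, l.length) = l.length
  simp

@[simp] lemma csize_prod {Γ α β : Type} [Ctx Γ α] [Ctx Γ β] (x : α × β) :
    csize x = csize x.1 + csize x.2 := by
  change (∑ i : Fin (Ctx.dim α + Ctx.dim β),
    (Fin.append (Ctx.vec x.1) (Ctx.vec x.2) i).length) = csize x.1 + csize x.2
  rw [Fin.sum_univ_add]
  simp [csize]

/-- closure properties of polynomial time string functions -/
structure PolyClass (Γ : Type) where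
  P : ∀ {α β : Type} [Ctx Γ α] [Ctx Γ β], (α → β) → Prop
  id' : ∀ {α : Type} [Ctx Γ α], P (fun a : α => a)
  comp : ∀ {α β γ : Type} [Ctx Γ α] [Ctx Γ β] [Ctx Γ γ] {g : β → γ} {f : α → β},
    P g → P f → P (fun a => g (f a))
  pair : ∀ {α β γ : Type} [Ctx Γ α] [Ctx Γ β] [Ctx Γ γ] {f : α → β} {g : α → γ},
    P f → P g → P (fun a => (f a, g a))
  fst : ∀ {α β : Type} [Ctx Γ α] [Ctx Γ β], P (fun x : α × β => x.1)
  snd : ∀ {α β : Type} [Ctx Γ α] [Ctx Γ β], P (fun x : α × β => x.2)
  const : ∀ {α : Type} [Ctx Γ α] (s : List Γ), P (fun _ : α => s)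
  append : P (fun x : List Γ × List Γ => x.1 ++ x.2)
  /-- case distinction on the first symbol of a string -/
  cases : ∀ {α β : Type} [Ctx Γ α] [Ctx Γ β] {t : α → List Γ} {f₀ : α → β} {f₁ : Γ → α → β},
    P t → P f₀ → (∀ c, P (f₁ c)) →
      P (fun a => match t a with
        | [] => f₀ a
        | c :: _ => f₁ c a)
  /-- bounded recursion along a string -/
  fold : ∀ {α σ : Type} [Ctx Γ α] [Ctx Γ σ] {l : α → List Γ} {s₀ : α → σ}
    {step : σ × List Γ × α → σ} (Q : Polynomial ℕ),
    P l → P s₀ → P step →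
    (∀ a l', l' <+: l a → csize (l'.foldl (fun s c => step (s, [c], a)) (s₀ a)) ≤
      Q.eval (csize a)) →
      P (fun a => (l a).foldl (fun s c => step (s, [c], a)) (s₀ a))
  /-- polynomial bound on the output -/
  bound : ∀ {α β : Type} [Ctx Γ α] [Ctx Γ β] {f : α → β}, P f →
    ∃ Q : Polynomial ℕ, ∀ a, csize (f a) ≤ Q.eval (csize a)

end Pool.Agent.PAH
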