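import Pool.Agent.PAH.Arith
import Pool.Agent.PAH.PolyClass

set_option autoImplicit false

/-!
# Exact targets (see Blueprint.lean.txt for the proofs)
-/

namespace Pool.Agent.PAH

open MeasureTheory

variable {V : Type}

/-! ## Part N: from drawings to equations -/

/-- signed crossing number of the directed edge `a b` with the downward vertical ray from
`(x, y)` -/
noncomputable def rc (a b : Plane) (x y : ℝ) : ℝ :=
  if a.1 < x ∧ x < b.1 ∧ 0 < det3 a b (x, y) then 1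
  else if b.1 < x ∧ x < a.1 ∧ 0 < det3 b a (x, y) then -1 else 0

/-- N-SLICE: for a point off the drawing whose vertical line contains no vertex, membership in the
faces is given by the crossing numbers. -/
def TargetSlice : Prop := ∀ {V : Type} (G : FaceMap V) (D : Drawing G) (x y : ℝ),
  (∀ d ∈ G.darts, (D.pos d.1).1 ≠ x) → (x, y) ∉ G.drawn D.pos →
    (∀ i, (((x, y) ∈ D.face i) →
        wsum (fun u v => rc (D.pos u) (D.pos v) x y) (G.inner.get i).1 = 1) ∧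
      (((x, y) ∉ D.face i) →
        wsum (fun u v => rc (D.pos u) (D.pos v) x y) (G.inner.get i).1 = 0)) ∧
    (((x, y) ∈ D.outerFace) →
        wsum (fun u v => rc (D.pos u) (D.pos v) x y) G.outer = 0) ∧
    (((x, y) ∉ D.outerFace) →
        wsum (fun u v => rc (D.pos u) (D.pos v) x y) G.outer = -1)

/-- N-AREA: the shoelace formula for the faces of a drawing. -/
def TargetArea : Prop := ∀ {V : Type} (G : FaceMap V) (D : Drawing G)
  (i : Fin G.inner.length),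
  volume (D.face i) = ENNReal.ofReal (shoelace D.pos (G.inner.get i).1 / 2) ∧
    0 < shoelace D.pos (G.inner.get i).1

/-- N-HULL: vertices of inner faces are in the outer triangle, and the areas add up. -/
def TargetHull : Prop := ∀ {V : Type} (G : FaceMap V) (D : Drawing G) (a b c : V),
  G.outer = [a, c, b] →
    (∀ f ∈ G.inner, ∀ v ∈ f.1,
      D.pos v ∈ convexHull ℝ ({D.pos a, D.pos b, D.pos c} : Set Plane)) ∧
    ((G.inner.map fun f => shoelace D.pos f.1).sum = det3 (D.pos a) (D.pos b) (D.pos c))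

/-! ## Part Y: from positive fans to drawings -/

/-- directed edges of a triangle -/
def triDarts (t : V × V × V) : List (V × V) := [(t.1, t.2.1), (t.2.1, t.2.2), (t.2.2, t.1)]

def openTri (a b c : Plane) : Set Plane := {P | 0 < det3 a b P ∧ 0 < det3 b c P ∧ 0 < det3 c a P}
def closedTri (a b c : Plane) : Set Plane :=
  {P | 0 ≤ det3 a b P ∧ 0 ≤ det3 b c P ∧ 0 ≤ det3 c a P}

def tOpen (p : V → Plane) (t : V × V × V) : Set Plane := openTri (p t.1) (p t.2.1) (p t.2.2)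
def tClosed (p : V → Plane) (t : V × V × V) : Set Plane := closedTri (p t.1) (p t.2.1) (p t.2.2)

structure TriHyp (p : V → Plane) (T : List (V × V × V)) (a b c : V) : Prop where
  pos : ∀ t ∈ T, 0 < det3 (p t.1) (p t.2.1) (p t.2.2)
  chain : ∀ φ : V → V → ℝ, (∀ u v, φ u v = - φ v u) →
    (T.map fun t => φ t.1 t.2.1 + φ t.2.1 t.2.2 + φ t.2.2 t.1).sum = φ a b + φ b c + φ c a
  ne : T ≠ []

structure Nice (p : V → Plane) (T : List (V × V × V)) (a b c : V) : Prop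
    extends TriHyp p T a b c where
  outer_pos : 0 < det3 (p a) (p b) (p c)
  disj : T.Pairwise fun s t => Disjoint (tOpen p s) (tOpen p t)
  sub : ∀ t ∈ T, tOpen p t ⊆ openTri (p a) (p b) (p c)
  darts_nodup : (T.flatMap triDarts).Nodup
  rev : ∀ d ∈ T.flatMap triDarts, d.swap ∈ T.flatMap triDarts ∨ d ∈ [(a, b), (b, c), (c, a)]
  out_mem : ∀ d ∈ [(a, b), (b, c), (c, a)], d ∈ T.flatMap triDarts ∧
    d.swap ∉ T.flatMap triDarts

/-- Y-COVER -/
def TargetCover : Prop := ∀ {V : Type} (p : V → Plane) (T : List (V × V × V)) (a b c : V),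
  TriHyp p T a b c → Nice p T a b c

/-- the planarity statement for triangulations -/
structure Planar (p : V → Plane) (T : List (V × V × V)) : Prop where
  inj : ∀ d ∈ T.flatMap triDarts, ∀ e ∈ T.flatMap triDarts, p d.1 = p e.1 → d.1 = e.1
  noncrossing : ∀ d ∈ T.flatMap triDarts, ∀ e ∈ T.flatMap triDarts, e ≠ d → e ≠ d.swap →
    ∀ x ∈ segment ℝ (p d.1) (p d.2), x ∈ segment ℝ (p e.1) (p e.2) →
      ∃ v, (v = d.1 ∨ v = d.2) ∧ (v = e.1 ∨ v = e.2) ∧ x = p v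
  openDisj : ∀ t ∈ T, ∀ e ∈ T.flatMap triDarts, ∀ x ∈ segment ℝ (p e.1) (p e.2),
    x ∉ tOpen p t
  left : ∀ t ∈ T, ∀ d ∈ triDarts t, LiesLeft (tOpen p t) (p d.1) (p d.2)

/-- Y-PLANAR -/
def TargetPlanar : Prop := ∀ {V : Type} (p : V → Plane) (T : List (V × V × V)) (a b c : V),
  Nice p T a b c → Planar p T

/-- the fan of a closed walk from its first vertex -/
def fanTris : List V → List (V × V × V)
  | [] => []
  | v :: l => (l.zip l.tail).map fun e => (v, e.1, e.2)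

def FaceMap.tris (G : FaceMap V) : List (V × V × V) := G.inner.flatMap fun f => fanTris f.1

/-- everything known about the triangulated map -/
structure Tame (G : FaceMap V) (p : V → Plane) (a b c : V) : Prop where
  outer_eq : G.outer = [a, c, b]
  fan : ∀ f ∈ G.inner, FanPos p f.1
  nice : Nice p G.tris a b c
  planar : Planar p G.tris
  nodup : G.darts.Nodup
  symm : ∀ d ∈ G.darts, d.swap ∈ G.darts
  loopless : ∀ d ∈ G.darts, d.1 ≠ d.2
  /-- directed edges of the walks are directed edges of the triangulation -/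
  sub : ∀ f ∈ G.inner, ∀ d ∈ dartsOf f.1, d ∈ G.tris.flatMap triDarts
  /-- inner diagonals of the fans are not edges of `G` -/
  diag : ∀ f ∈ G.inner, ∀ t ∈ fanTris f.1, ∀ d ∈ triDarts t, d ∉ dartsOf f.1 →
    d ∉ G.darts ∧ d.swap ∉ G.darts

/-- Y-DARTS -/
def TargetDarts : Prop := ∀ {V : Type} (G : FaceMap V) (p : V → Plane) (a b c : V),
  G.outer = [a, c, b] → G.inner ≠ [] → ChainEq (G.inner.map Prod.fst) [a, b, c] →
    (∀ f ∈ G.inner, FanPos p f.1) →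
    TriHyp p G.tris a b c ∧ (Nice p G.tris a b c → Planar p G.tris → Tame G p a b c)

/-- region of an inner walk: open fan triangles and open diagonals -/
def fanRegion (p : V → Plane) (w : List V) : Set Plane :=
  {x | (∃ t ∈ fanTris w, x ∈ tOpen p t) ∨
    ∃ t ∈ fanTris w, ∃ d ∈ triDarts t, d ∉ dartsOf w ∧ x ∈ openSegment ℝ (p d.1) (p d.2)}

/-- Y-REGION -/
def TargetRegion : Prop := ∀ {V : Type} (G : FaceMap V) (p : V → Plane) (a b c : V),
  Tame G p a b c → ∀ f ∈ G.inner, IsFace G p f.1 (fanRegion p f.1) ∧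
    Bornology.IsBounded (fanRegion p f.1)

/-- Y-OUTER -/
def TargetOuter : Prop := ∀ {V : Type} (G : FaceMap V) (p : V → Plane) (a b c : V),
  Tame G p a b c → IsFace G p G.outer (closedTri (p a) (p b) (p c))ᶜ ∧
    ¬ Bornology.IsBounded (closedTri (p a) (p b) (p c))ᶜ

/-- Y-ROT -/
def TargetRot : Prop := ∀ {V : Type} (G : FaceMap V) (p : V → Plane) (a b c : V),
  Tame G p a b c → ∀ f ∈ G.walks, ∀ k ∈ cornersOf f, ∀ x, (k.2.1, x) ∈ G.darts → x ≠ k.2.2 →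
    ccwAngle (p k.2.1) (p k.2.2) (p k.1) ≤ ccwAngle (p k.2.1) (p k.2.2) (p x)

/-- Y (assembled by helper46) -/
def TargetDrawing : Prop := ∀ {V : Type} (G : FaceMap V) (p : V → Plane) (a b c : V),
  G.outer = [a, c, b] → G.inner ≠ [] → ChainEq (G.inner.map Prod.fst) [a, b, c] →
    (∀ f ∈ G.inner, FanPos p f.1) → ∃ D : Drawing G, D.pos = p

/-! ## Part M: the macro -/

/-- `a b c d` are placed at a parallelogram of the right area -/
def IsPar (p : VX → Plane) (q : Quad) : Prop :=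
  p q.a + p q.c = p q.b + p q.d ∧ det3 (p q.a) (p q.b) (p q.d) = q.M

/-- M-NO -/
def TargetMacroNo : Prop := ∀ (T : ℕ) (q : Quad) (p : VX → Plane), 64 ≤ T → 1 ≤ q.M →
  (∀ f ∈ macroFaces T q, shoelace p f.1 * mZ T = f.2) →
  |det3 (p q.b) (p q.c) (p q.a)| ≤ (T : ℝ) ^ 2 → |det3 (p q.d) (p q.a) (p q.c)| ≤ (T : ℝ) ^ 2 →
    IsPar p q

/-- coordinates of the three inner points of a corner gadget -/
noncomputable def gpt (T : ℕ) (v w u : Plane) (k : ℕ) : Plane :=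
  let δ : ℝ := 1 / (8 * (T : ℝ) ^ 2)
  let e : ℝ := 1 / (8 * (T : ℝ) ^ 3)
  let s : ℝ := if k = 1 then 1 / 4 else if k = 2 then 1 / 4 + δ else 3 / 8 - 3 * δ / 2 - 3 * e / 4
  let t : ℝ := if k = 1 then 1 / 4 else if k = 2 then 1 / 4 + δ + e
    else 3 / 8 + 3 * δ / 2 + 3 * e / 2
  v + s • (w - v) + t • (u - v)

/-- position of the `k`-th inner vertex of a macro, `k = 1, …, 6` -/
noncomputable def ipt (T : ℕ) (p : VX → Plane) (q : Quad) (k : ℕ) : Plane :=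
  if k ≤ 3 then gpt T (p q.b) (p q.c) (p q.a) k else gpt T (p q.d) (p q.a) (p q.c) (k - 3)

/-- M-YES -/
def TargetMacroYes : Prop := ∀ (T : ℕ) (q : Quad) (p : VX → Plane), 64 ≤ T → 1 ≤ q.M →
  IsPar p q → (∀ k, 1 ≤ k → k ≤ 6 → p (q.iv k) = ipt T p q k) →
    ∀ f ∈ macroFaces T q, shoelace p f.1 * mZ T = f.2 ∧ FanPos p f.1

/-! ## Part F: the fabric -/

/-- F-CHAIN -/
def TargetChain : Prop := ∀ (n m : ℕ) (τ : ℕ → ℕ → Ty), 1 ≤ n →
  ChainEq ((fabric n m τ).inner.map Prod.fst) [vo1, vo2, vo3]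

/-- F-IDS: the inner vertices of different macros are different, and are not corners -/
def TargetIds : Prop := ∀ (n m : ℕ),
  ((fabricQuads n m).Pairwise fun q q' => (q.x, q.y, q.t) ≠ (q'.x, q'.y, q'.t)) ∧
  (∀ q ∈ fabricQuads n m, q.t ≤ 2 ∧ 1 ≤ q.M ∧
    ∀ v ∈ [q.a, q.b, q.c, q.d], v.2.2 = 0 ∨ v = vq) ∧
  (∀ τ, ∀ f ∈ fabricPlain n m τ, ∀ v ∈ f.1, v.2.2 = 0 ∨ v = vq ∨ v = vo1 ∨ v = vo2 ∨ v = vo3)

/-- boundary conditions of the arrays used for the positions -/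
structure BArr (n m : ℕ) (ξ η : ℕ → ℕ → ℝ) : Prop where
  x0 : ∀ i, ξ i 0 = 0
  xr : ∀ i, ξ i (m + 2) = 0
  xb : ∀ j, ξ 0 j = 0
  y0 : ∀ j, η 0 j = 0
  y1 : ∀ j, η 1 j = 0
  yt : ∀ j, η (n + 2) j = 0

/-- all relations between the displacements; rows `1..n+1`, columns `0..m+1` -/
structure FullRel (n m : ℕ) (τ : ℕ → ℕ → Ty) (ξ η : ℕ → ℕ → ℝ) : Prop where
  node : ∀ i j, 1 ≤ i → i ≤ n → 1 ≤ j → j ≤ m →
    NodeRel (τ i j) (ξ i j) (η i j) (ξ i (j + 1)) (η (i + 1) j)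
  last : ∀ j, 1 ≤ j → j ≤ m → ξ (n + 1) (j + 1) = ξ (n + 1) j ∧ η (n + 1) j = 0
  left : ∀ i, 1 ≤ i → i ≤ n + 1 → η (i + 1) 0 = η i 0 - ξ i 1
  right : ∀ i, 1 ≤ i → i ≤ n + 1 → η (i + 1) (m + 1) = η i (m + 1) + ξ i (m + 1)

/-- positions of the corners -/
noncomputable def lpos (n m : ℕ) (τ : ℕ → ℕ → Ty) (ξ η : ℕ → ℕ → ℝ) (v : VX) : Plane :=
  let x := v.1
  let y := v.2.1
  if v = vq then (5, 3)
  else if v = vo1 then (-1, -(fN n m : ℝ))
  else if v = vo2 then ((fN n m : ℝ), 3 * (n : ℝ) + 6)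
  else if v = vo3 then (-1, 3 * (n : ℝ) + 6)
  else if y % 3 = 0 then
    (if x % 3 = 1 then
      ((x : ℝ) + ξ (y / 3) (x / 3 - 1),
        (y : ℝ) + if y / 3 ≤ n ∧ τ (y / 3) (x / 3 - 1) = Ty.P then η (y / 3 + 1) (x / 3 - 1)
          else η (y / 3) (x / 3 - 1))
    else ((x : ℝ) + ξ (y / 3) ((x - 2) / 3), (y : ℝ)))
  else if x % 3 = 1 then ((x : ℝ), (y : ℝ) + η (y / 3 + 1) (x / 3 - 1))
  else ((x : ℝ), (y : ℝ))

/-- F-QUADS: all quads are parallelograms -/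
def TargetQuads : Prop := ∀ (n m : ℕ) (τ : ℕ → ℕ → Ty) (ξ η : ℕ → ℕ → ℝ),
  BArr n m ξ η → ∀ q ∈ fabricQuads n m, IsPar (lpos n m τ ξ η) q

/-- F-FANS -/
def TargetFans : Prop := ∀ (n m : ℕ) (τ : ℕ → ℕ → Ty) (ξ η : ℕ → ℕ → ℝ), 1 ≤ n →
  BArr n m ξ η → (∀ i j, |ξ i j| ≤ 1 / 16) → (∀ i j, |η i j| ≤ 1 / 16) → 0 < ξ 1 1 →
    ∀ f ∈ fabricPlain n m τ, FanPos (lpos n m τ ξ η) f.1

/-- F-AREAS -/
def TargetAreas : Prop := ∀ (n m : ℕ) (τ : ℕ → ℕ → Ty) (ξ η : ℕ → ℕ → ℝ), 1 ≤ n →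
  BArr n m ξ η → FullRel n m τ ξ η →
    ∀ f ∈ fabricPlain n m τ, shoelace (lpos n m τ ξ η) f.1 = f.2

/-- the lattice point `(x, y)` of the plane -/
def lat (x y : ℕ) : Plane := ((x : ℝ), (y : ℝ))

/-- the right and top sides of the frame are at their base positions -/
structure Framed (n m : ℕ) (p : VX → Plane) : Prop where
  left : ∀ y, 2 ≤ y → y ≤ 3 * n + 5 → p (pt 3 y) = lat 3 y
  bottom : ∀ x, 5 ≤ x → x ≤ 3 * m + 9 → p (pt x 2) = lat x 2
  pin : p vq = lat 5 3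

/-- F-FRAME: normalisation of the frame -/
def TargetFrame : Prop := ∀ (n m : ℕ) (p : VX → Plane), (∀ q ∈ fabricQuads n m, IsPar p q) →
  ∃ p' : VX → Plane, (∀ u v w, det3 (p' u) (p' v) (p' w) = det3 (p u) (p v) (p w)) ∧
    (∀ u v, p' u = p' v → p u = p v) ∧ (∀ q ∈ fabricQuads n m, IsPar p' q) ∧
    (∀ w : List VX, shoelace p' w = shoelace p w) ∧ Framed n m p'

/-- all cells are pinned and the middle edges only slide -/
structure Rigid (n m : ℕ) (p : VX → Plane) (ξ η : ℕ → ℕ → ℝ) : Prop where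
  /-- corners of the cell `(i, j)` -/
  cell : ∀ i j, 1 ≤ i → i ≤ n + 1 → j ≤ m + 1 →
    p (pt (3 * j + 5) (3 * i + 1)) = lat (3 * j + 5) (3 * i + 1) ∧
    p (pt (3 * j + 6) (3 * i + 1)) = lat (3 * j + 6) (3 * i + 1) ∧
    p (pt (3 * j + 5) (3 * i + 2)) = lat (3 * j + 5) (3 * i + 2) ∧
    p (pt (3 * j + 6) (3 * i + 2)) = lat (3 * j + 6) (3 * i + 2)
  /-- sliders in the row gaps -/
  xs : ∀ i j, 1 ≤ i → i ≤ n + 1 → j ≤ m →
    p (pt (3 * j + 5) (3 * i)) = lat (3 * j + 5) (3 * i) + (ξ i (j + 1), 0) ∧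
    p (pt (3 * j + 6) (3 * i)) = lat (3 * j + 6) (3 * i) + (ξ i (j + 1), 0)
  /-- sliders in the column gaps -/
  ys : ∀ i j, 1 ≤ i → i ≤ n → j ≤ m + 1 →
    p (pt (3 * j + 4) (3 * i + 1)) = lat (3 * j + 4) (3 * i + 1) + (0, η (i + 1) j) ∧
    p (pt (3 * j + 4) (3 * i + 2)) = lat (3 * j + 4) (3 * i + 2) + (0, η (i + 1) j)

/-- F-RIGID -/
def TargetRigid : Prop := ∀ (n m : ℕ) (p : VX → Plane), (∀ q ∈ fabricQuads n m, IsPar p q) →
    Framed n m p → ∃ ξ η : ℕ → ℕ → ℝ, (∀ i, ξ i 0 = 0) ∧ (∀ j, η 1 j = 0) ∧ Rigid n m p ξ η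

/-- F-NODES: relations from the hole faces -/
def TargetNodes : Prop := ∀ (n m : ℕ) (τ : ℕ → ℕ → Ty) (p : VX → Plane) (ξ η : ℕ → ℕ → ℝ),
    1 ≤ n → (∀ f ∈ fabricPlain n m τ, shoelace p f.1 = f.2) → Framed n m p →
    (∀ i, ξ i 0 = 0) → (∀ j, η 1 j = 0) → Rigid n m p ξ η → p vq ≠ p (pt 5 3) →
      Sol n m τ ξ η ∧ ξ 1 1 ≠ 0

/-! ## Part A: algebra -/

/-- A-ETR -/
def TargetEtr : Prop := ∀ φ : Formula, (∃ x, φ.Holds x) ↔ ArithYes φ.system

/-- A-NO -/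
def TargetColsNo : Prop := ∀ (L : List Constr) (ξ η : ℕ → ℕ → ℝ),
  Sol (arithMatrix L).n (arithMatrix L).m (arithMatrix L).τ ξ η → ξ 1 1 ≠ 0 → ArithYes L

/-- A-YES -/
def TargetColsYes : Prop := ∀ (L : List Constr), ArithYes L → ∀ ε : ℝ, 0 < ε →
  ∃ ξ η : ℕ → ℕ → ℝ, Sol (arithMatrix L).n (arithMatrix L).m (arithMatrix L).τ ξ η ∧
    (∀ i j, |ξ i j| ≤ ε) ∧ (∀ i j, |η i j| ≤ ε) ∧ 0 < ξ 1 1

/-- A-EXT: from the equations of the nodes to all relations of the fabric -/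
def TargetExt : Prop := ∀ (n m : ℕ) (τ : ℕ → ℕ → Ty) (ξ η : ℕ → ℕ → ℝ) (ε : ℝ), 0 < ε → 1 ≤ n →
  Sol n m τ ξ η → (∀ i j, |ξ i j| ≤ ε) → (∀ i j, |η i j| ≤ ε) →
  ∃ ξ' η' : ℕ → ℕ → ℝ, BArr n m ξ' η' ∧ FullRel n m τ ξ' η' ∧ ξ' 1 1 = ξ 1 1 ∧
    (∀ i j, |ξ' i j| ≤ (n + 2) * ε) ∧ (∀ i j, |η' i j| ≤ (n + 2) * ε)

/-! ## Part P: polynomial time -/

/-- P-MACHINE -/
def TargetMachine : Prop := ∃ C : PolyClass Sym, ∀ {α β : Type} (ea : α → List Sym)
  (eb : β → List Sym) (f : α → β) (F : List Sym → List Sym), C.P F →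
    (∀ a, F (ea a) = eb (f a)) → Nonempty (Turing.TM2ComputableInPolyTime ea eb f)

/-- P-COMP (Mathlib's `proof_wanted`) -/
def TargetComp : Prop := ∀ {α β γ αΓ βΓ γΓ : Type} {eα : α → List αΓ} {eβ : β → List βΓ}
  {eγ : γ → List γΓ} {f : α → β} {g : β → γ}, Turing.TM2ComputableInPolyTime eα eβ f →
  Turing.TM2ComputableInPolyTime eβ eγ g →
    Nonempty (Turing.TM2ComputableInPolyTime eα eγ (g ∘ f))

/-- P-ETR -/
def TargetPrint1 : Prop := ∀ C : PolyClass Sym, ∃ F : List Sym → List Sym, C.P F ∧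
  ∀ φ : Formula, F φ.enc = encArith φ.system

/-- P-COLS -/
def TargetPrint2 : Prop := ∀ C : PolyClass Sym, ∃ F : List Sym → List Sym, C.P F ∧
  ∀ L : List Constr, F (encArith L) = encMatrix (arithMatrix L)

/-- P-FABRIC -/
def TargetPrint3 : Prop := ∀ C : PolyClass Sym, ∃ F : List Sym → List Sym, C.P F ∧
  ∀ X : Matrix', F (encMatrix X) = encMap (X.fabric.map vname)

/-- P-ENC: the encodings are injective -/
def TargetEncInj : Prop := Function.Injective Formula.enc ∧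
  ∀ G H : FaceMap (List Bool), (∀ f ∈ G.inner, 0 < f.2) → (∀ f ∈ H.inner, 0 < f.2) →
    encMap G = encMap H → G = H

/-- R-MAP: relabelling -/
def TargetMap : Prop := ∀ {V W : Type} (G : FaceMap V) (g : V → W), Function.Injective g →
  ((G.map g).IsPlane ↔ G.IsPlane) ∧ ((G.map g).Realizable ↔ G.Realizable)

end Pool.Agent.PAH
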