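import Pool.Agent.PAH.Targets

set_option autoImplicit false
set_option linter.unusedSectionVars false

/-!
# Toolbox for polynomial time classes

Everything is derived from the closure properties in `PolyClass`.
* `hf.append hg`, `hf.cons c`, `hf.pair hg`, `hg.comp hf`, `PolyClass.P.foldl`, `PolyClass.P.foldlAdd`
* `C.N n` : the function `n : α → ℕ` is computable in polynomial time in unary
* `C.D p` : the predicate `p` is decidable in polynomial time (branching `if p a then _ else _`)
-/

namespace Pool.Agent.PAH

open Polynomial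

lemma eval_mono (Q : Polynomial ℕ) {m n : ℕ} (h : m ≤ n) : Q.eval m ≤ Q.eval n := by
  rw [Polynomial.eval_eq_sum_range, Polynomial.eval_eq_sum_range]
  exact Finset.sum_le_sum fun i _ => Nat.mul_le_mul le_rfl (Nat.pow_le_pow_left h i)

variable {Γ : Type} {C : PolyClass Γ} {α β γ σ : Type} [Ctx Γ α] [Ctx Γ β] [Ctx Γ γ] [Ctx Γ σ]

namespace PolyClass

theorem P.comp {g : β → γ} {f : α → β} (hg : C.P g) (hf : C.P f) : C.P (fun a => g (f a)) :=
  C.comp hg hf

theorem P.pair {f : α → β} {g : α → γ} (hf : C.P f) (hg : C.P g) : C.P (fun a => (f a, g a)) :=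
  C.pair hf hg

theorem P.congr {f g : α → β} (hf : C.P f) (h : ∀ a, f a = g a) : C.P g := by
  have : f = g := funext h
  rw [← this]; exact hf

theorem P.fst {f : α → β × γ} (hf : C.P f) : C.P (fun a => (f a).1) := C.comp C.fst hf
theorem P.snd {f : α → β × γ} (hf : C.P f) : C.P (fun a => (f a).2) := C.comp C.snd hf

theorem P.append {f g : α → List Γ} (hf : C.P f) (hg : C.P g) : C.P (fun a => f a ++ g a) :=
  C.comp C.append (C.pair hf hg)

theorem P.cons {f : α → List Γ} (hf : C.P f) (c : Γ) : C.P (fun a => c :: f a) :=
  (C.const [c]).append hf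

theorem P.snoc {f : α → List Γ} (hf : C.P f) (c : Γ) : C.P (fun a => f a ++ [c]) :=
  hf.append (C.const [c])

/-- case distinction on the first symbol -/
theorem P.cases {t : α → List Γ} {f₀ : α → β} {f₁ : Γ → α → β} (ht : C.P t) (h0 : C.P f₀)
    (h1 : ∀ c, C.P (f₁ c)) : C.P (fun a => match t a with
        | [] => f₀ a
        | c :: _ => f₁ c a) := C.cases ht h0 h1

/-- fold along a string, the step depends on the symbol -/
theorem P.foldl {l : α → List Γ} {s₀ : α → σ} {step : Γ → σ × α → σ} (Q : Polynomial ℕ)
    (hl : C.P l) (hs : C.P s₀) (hstep : ∀ c, C.P (step c))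
    (hb : ∀ a l', l' <+: l a → csize (l'.foldl (fun s c => step c (s, a)) (s₀ a)) ≤
      Q.eval (csize a)) :
    C.P (fun a => (l a).foldl (fun s c => step c (s, a)) (s₀ a)) := by
  have h := C.fold (l := l) (s₀ := s₀)
    (step := fun x : σ × List Γ × α => match x.2.1 with
      | [] => x.1
      | c :: _ => step c (x.1, x.2.2)) Q hl hs
    (C.cases C.snd.fst C.fst fun c => (hstep c).comp (C.fst.pair C.snd.snd)) hb
  exact h

lemma foldl_size {step : Γ → σ × α → σ} (B : ℕ) (a : α)
    (hb : ∀ c s, csize (step c (s, a)) ≤ csize s + B) (l : List Γ) (s : σ) :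
    csize (l.foldl (fun s c => step c (s, a)) s) ≤ csize s + l.length * B := by
  induction l generalizing s with
  | nil => simp
  | cons c l ih =>
      rw [List.foldl_cons, List.length_cons]
      refine (ih _).trans ?_
      have := hb c s
      nlinarith

/-- fold whose steps increase the size of the state by a polynomial in the size of the input -/
theorem P.foldlAdd {l : α → List Γ} {s₀ : α → σ} {step : Γ → σ × α → σ} (Q : Polynomial ℕ)
    (hl : C.P l) (hs : C.P s₀) (hstep : ∀ c, C.P (step c))
    (hb : ∀ c s a, csize (step c (s, a)) ≤ csize s + Q.eval (csize a)) :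
    C.P (fun a => (l a).foldl (fun s c => step c (s, a)) (s₀ a)) := by
  obtain ⟨Q0, h0⟩ := C.bound hs
  obtain ⟨Q1, h1⟩ := C.bound hl
  refine P.foldl (Q0 + Q1 * Q) hl hs hstep fun a l' hl' => ?_
  refine (foldl_size (Q.eval (csize a)) a (fun c s => hb c s a) l' (s₀ a)).trans ?_
  rw [Polynomial.eval_add, Polynomial.eval_mul]
  have h2 : l'.length ≤ Q1.eval (csize a) := by
    refine hl'.length_le.trans ?_
    have := h1 a
    simpa using this
  exact Nat.add_le_add (h0 a) (Nat.mul_le_mul_right _ h2)

theorem P.bound {f : α → List Γ} (hf : C.P f) :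
    ∃ Q : Polynomial ℕ, ∀ a, (f a).length ≤ Q.eval (csize a) := by
  obtain ⟨Q, hQ⟩ := C.bound hf
  exact ⟨Q, fun a => by simpa using hQ a⟩

/-! ### Basic string functions -/

/-- first symbol -/
theorem P.head {t : α → List Γ} (ht : C.P t) : C.P (fun a => (t a).take 1) := by
  refine (P.cases (f₀ := fun _ => []) (f₁ := fun c _ => [c]) ht (C.const []) fun c =>
    C.const [c]).congr fun a => ?_
  rcases t a with _ | ⟨c, l⟩ <;> rfl

theorem P.reverse {t : α → List Γ} (ht : C.P t) : C.P (fun a => (t a).reverse) := by
  have h := P.foldlAdd (C := C) (l := t) (s₀ := fun _ => ([] : List Γ))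
    (step := fun c x => c :: x.1) 1 ht (C.const []) (fun c => P.cons C.fst c)
    (fun c s a => by simp)
  refine h.congr fun a => ?_
  have : ∀ (l s : List Γ), l.foldl (fun s c => c :: s) s = l.reverse ++ s := by
    intro l
    induction l with
    | nil => intro s; rfl
    | cons c l ih => intro s; rw [List.foldl_cons, ih]; simp
  simp [this]

/-- `flatMap` with a function depending on the symbol and on the input; `B` bounds the pieces -/
theorem P.flatMap' {t : α → List Γ} {g : Γ → α → List Γ} (Q : Polynomial ℕ) (ht : C.P t)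
    (hg : ∀ c, C.P (g c)) (hb : ∀ c a, (g c a).length ≤ Q.eval (csize a)) :
    C.P (fun a => (t a).flatMap fun c => g c a) := by
  have h := P.foldlAdd (C := C) (l := t) (s₀ := fun _ => ([] : List Γ))
    (step := fun c x => x.1 ++ g c x.2) Q ht (C.const [])
    (fun c => P.append C.fst ((hg c).comp C.snd)) (fun c s a => by simpa using hb c a)
  refine h.congr fun a => ?_
  have : ∀ (l s : List Γ), l.foldl (fun s c => s ++ g c a) s = s ++ l.flatMap fun c => g c a := by
    intro l
    induction l with
    | nil => intro s; simp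
    | cons c l ih => intro s; rw [List.foldl_cons, ih]; simp
  simpa using this (t a) []

/-- `flatMap` over a finite alphabet -/
theorem P.flatMap [Finite Γ] {t : α → List Γ} {g : Γ → α → List Γ} (ht : C.P t)
    (hg : ∀ c, C.P (g c)) : C.P (fun a => (t a).flatMap fun c => g c a) := by
  have : Fintype Γ := Fintype.ofFinite Γ
  choose Q hQ using fun c => (hg c).bound
  refine P.flatMap' (∑ c, Q c) ht hg fun c a => (hQ c a).trans ?_
  rw [Polynomial.eval_finsetSum]
  exact Finset.single_le_sum (f := fun c => (Q c).eval (csize a)) (fun _ _ => Nat.zero_le _)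
    (Finset.mem_univ c)

theorem P.map {t : α → List Γ} (ht : C.P t) (g : Γ → Γ) : C.P (fun a => (t a).map g) := by
  refine (P.flatMap' (g := fun c _ => [g c]) 1 ht (fun c => C.const _) (by simp)).congr
    fun a => ?_
  rw [List.map_eq_flatMap]

theorem P.filter {t : α → List Γ} (ht : C.P t) (p : Γ → Bool) :
    C.P (fun a => (t a).filter p) := by
  refine (P.flatMap' (g := fun c _ => if p c then [c] else []) 1 ht (fun c => C.const _)
    (fun c a => by split_ifs <;> simp)).congr fun a => ?_
  induction t a with
  | nil => rfl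
  | cons c l ih => rw [List.flatMap_cons, ih, List.filter_cons]; split_ifs <;> simp

theorem P.tail {t : α → List Γ} (ht : C.P t) : C.P (fun a => (t a).tail) := by
  have h := P.foldlAdd (C := C) (l := t) (s₀ := fun _ => (([], []) : List Γ × List Γ))
    (step := fun c x => match x.1.1 with
      | [] => ([c], x.1.2)
      | _ :: _ => (x.1.1, x.1.2 ++ [c])) 1 ht ((C.const []).pair (C.const []))
    (fun c => P.cases (f₁ := fun _ x => (x.1.1, x.1.2 ++ [c])) C.fst.fst
      ((C.const [c]).pair C.fst.snd) fun _ => C.fst.fst.pair (C.fst.snd.snoc c))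
    (fun c s a => by
      rcases s with ⟨_ | ⟨d, s⟩, u⟩ <;> simp <;> omega)
  refine h.snd.congr fun a => ?_
  have h1 : ∀ (l : List Γ) (d : Γ) (u s : List Γ), (l.foldl (fun (s : List Γ × List Γ) c =>
      match s.1 with
      | [] => ([c], s.2)
      | _ :: _ => (s.1, s.2 ++ [c])) (d :: u, s)).2 = s ++ l := by
    intro l
    induction l with
    | nil => intro d u s; simp
    | cons c l ih => intro d u s; rw [List.foldl_cons]; simp only; rw [ih]; simp
  rcases t a with _ | ⟨c, l⟩
  · rfl
  · rw [List.foldl_cons]
    simpa using h1 l c [] []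

/-! ### Numbers in unary, decidable predicates -/

/-- `n` is computable in unary -/
structure N (C : PolyClass Γ) (n : α → ℕ) : Prop where
  rep : ∀ t : Γ, C.P fun a => List.replicate (n a) t

/-- `p` is decidable: branching on `p` is possible (see `D.ite`) -/
structure D (C : PolyClass Γ) (p : α → Prop) : Prop where
  ex : ∃ t : α → List Γ, C.P t ∧ ∀ a, t a = [] ↔ p a

theorem N.congr {n m : α → ℕ} (hn : C.N n) (h : ∀ a, n a = m a) : C.N m := by
  have : n = m := funext h
  rw [← this]; exact hn

theorem D.congr {p q : α → Prop} (hp : C.D p) (h : ∀ a, p a ↔ q a) : C.D q := by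
  have : p = q := funext fun a => propext (h a)
  rw [← this]; exact hp

theorem N.comp {n : β → ℕ} {f : α → β} (hn : C.N n) (hf : C.P f) : C.N (fun a => n (f a)) :=
  ⟨fun t => (hn.rep t).comp hf⟩

theorem D.comp {p : β → Prop} {f : α → β} (hp : C.D p) (hf : C.P f) :
    C.D (fun a => p (f a)) := by
  obtain ⟨t, ht, h⟩ := hp.ex
  exact ⟨fun a => t (f a), ht.comp hf, fun a => h _⟩

theorem P.length {f : α → List Γ} (hf : C.P f) : C.N (fun a => (f a).length) :=
  ⟨fun t => (hf.map fun _ => t).congr fun a => by simp⟩

theorem N.const (C : PolyClass Γ) (k : ℕ) : C.N (fun _ : α => k) := ⟨fun _ => C.const _⟩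

theorem N.add {n m : α → ℕ} (hn : C.N n) (hm : C.N m) : C.N (fun a => n a + m a) :=
  ⟨fun t => ((hn.rep t).append (hm.rep t)).congr fun a => by simp⟩

theorem N.mul {n m : α → ℕ} (hn : C.N n) (hm : C.N m) : C.N (fun a => n a * m a) :=
  ⟨fun t => by
    obtain ⟨Q, hQ⟩ := (hm.rep t).bound
    refine (P.flatMap' Q (hn.rep t) (fun _ => hm.rep t) (fun _ a => hQ a)).congr fun a => ?_
    simp only [List.flatMap_replicate]
    induction n a with
    | zero => simp
    | succ k ih => rw [List.replicate_succ, List.flatten_cons, ih, Nat.succ_mul, Nat.add_comm]; simp⟩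

theorem D.nil {t : α → List Γ} (ht : C.P t) : C.D (fun a => t a = []) := ⟨t, ht, fun _ => Iff.rfl⟩

theorem D.ite {p : α → Prop} {f g : α → β} [DecidablePred p] (hp : C.D p) (hf : C.P f)
    (hg : C.P g) : C.P (fun a => if p a then f a else g a) := by
  obtain ⟨t, ht, h⟩ := hp.ex
  refine (P.cases ht hf fun _ => hg).congr fun a => ?_
  have := h a
  rcases hta : t a with _ | ⟨c, l⟩
  · rw [if_pos (this.1 hta)]
  · rw [if_neg (fun hpa => by rw [this.2 hpa] at hta; simp at hta)]

theorem D.and {p q : α → Prop} (hp : C.D p) (hq : C.D q) : C.D (fun a => p a ∧ q a) := by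
  obtain ⟨t, ht, h⟩ := hp.ex
  obtain ⟨u, hu, k⟩ := hq.ex
  exact ⟨_, ht.append hu, fun a => by rw [List.append_eq_nil_iff, h, k]⟩

variable [Inhabited Γ]

theorem D.not {p : α → Prop} (hp : C.D p) : C.D (fun a => ¬ p a) := by
  classical
  refine ⟨_, hp.ite (C.const [default]) (C.const []), fun a => ?_⟩
  split_ifs with h <;> simp [h]

theorem D.or {p q : α → Prop} (hp : C.D p) (hq : C.D q) : C.D (fun a => p a ∨ q a) :=
  (hp.not.and hq.not).not.congr fun a => by tauto

/-- the first symbol of a string is `c` -/
theorem D.head {t : α → List Γ} (ht : C.P t) (c : Γ) : C.D (fun a => (t a).head? = some c) := by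
  classical
  refine ⟨_, P.cases (f₀ := fun _ => [c]) (f₁ := fun d _ => if d = c then [] else [c]) ht
    (C.const _) (fun d => C.const _), fun a => ?_⟩
  rcases t a with _ | ⟨d, l⟩
  · simp
  · by_cases h : d = c <;> simp [h]

theorem P.drop {t : α → List Γ} {n : α → ℕ} (ht : C.P t) (hn : C.N n) :
    C.P (fun a => (t a).drop (n a)) := by
  have h := P.foldlAdd (C := C) (l := fun a => List.replicate (n a) (default : Γ)) (s₀ := t)
    (step := fun _ x => x.1.tail) 1 (hn.rep _) ht (fun _ => C.fst.tail)
    (fun c s a => by simp; omega)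
  refine h.congr fun a => ?_
  generalize n a = k
  generalize t a = l
  induction k generalizing l with
  | zero => simp
  | succ k ih => rw [List.replicate_succ, List.foldl_cons, ih, List.drop_tail]

theorem P.take {t : α → List Γ} {n : α → ℕ} (ht : C.P t) (hn : C.N n) :
    C.P (fun a => (t a).take (n a)) := by
  refine (P.reverse (P.drop ht.reverse (ht.drop hn).length)).congr fun a => ?_
  rw [List.drop_reverse, List.reverse_reverse, List.length_drop]
  rcases le_total (n a) (t a).length with h | h
  · congr 1; omega
  · rw [List.take_of_length_le (by omega), List.take_of_length_le h]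

theorem N.sub {n m : α → ℕ} (hn : C.N n) (hm : C.N m) : C.N (fun a => n a - m a) :=
  ⟨fun t => ((hn.rep t).drop hm).congr fun a => by simp⟩

theorem D.le {n m : α → ℕ} (hn : C.N n) (hm : C.N m) : C.D (fun a => n a ≤ m a) :=
  (D.nil ((hn.sub hm).rep default)).congr fun a => by simp; omega

theorem D.lt {n m : α → ℕ} (hn : C.N n) (hm : C.N m) : C.D (fun a => n a < m a) :=
  (D.le (hn.add (N.const C 1)) hm)

theorem D.eq {n m : α → ℕ} (hn : C.N n) (hm : C.N m) : C.D (fun a => n a = m a) :=
  ((D.le hn hm).and (D.le hm hn)).congr fun a => by omega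

theorem N.ite {p : α → Prop} {n m : α → ℕ} [DecidablePred p] (hp : C.D p) (hn : C.N n)
    (hm : C.N m) : C.N (fun a => if p a then n a else m a) :=
  ⟨fun t => (hp.ite (hn.rep t) (hm.rep t)).congr fun a => by split_ifs <;> rfl⟩

/-- replace the symbol at position `n` -/
theorem P.set {t : α → List Γ} {n : α → ℕ} (ht : C.P t) (hn : C.N n) (c : Γ) :
    C.P (fun a => (t a).set (n a) c) := by
  classical
  refine ((D.lt hn ht.length).ite
    ((ht.take hn).append ((ht.drop (hn.add (N.const C 1))).cons c)) ht).congr fun a => ?_
  split_ifs with h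
  · rw [List.set_eq_take_append_cons_drop, if_pos h]
  · rw [List.set_eq_of_length_le (by omega)]

/-- case distinction on the symbol at position `n` -/
theorem P.getCases {t : α → List Γ} {n : α → ℕ} {f₀ : α → β} {f₁ : Γ → α → β} (ht : C.P t)
    (hn : C.N n) (h0 : C.P f₀) (h1 : ∀ c, C.P (f₁ c)) :
    C.P (fun a => match (t a)[n a]? with
      | none => f₀ a
      | some c => f₁ c a) := by
  refine (P.cases (ht.drop hn) h0 h1).congr fun a => ?_
  rw [← List.head?_drop]
  rcases (t a).drop (n a) with _ | ⟨c, l⟩ <;> rfl

/-! ### Loops -/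

/-- accumulate the outputs of `body` for `i = 0, …, cnt a - 1`.  The index is passed to the body as
the length of the first string. -/
theorem P.flatRange {cnt : α → ℕ} {body : ℕ → α → List Γ} (hcnt : C.N cnt)
    (hbody : C.P fun x : List Γ × α => body x.1.length x.2) :
    C.P (fun a => (List.range (cnt a)).flatMap fun i => body i a) := by
  obtain ⟨Qb, hQb⟩ := hbody.bound
  obtain ⟨Qc, hQc⟩ := (hcnt.rep default).bound
  have key : ∀ (a : α) (k : ℕ), (List.replicate k (default : Γ)).foldl
      (fun (s : List Γ × List Γ) (_ : Γ) =>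
        ((default : Γ) :: s.1, s.2 ++ body s.1.length a)) ([], []) =
      (List.replicate k default, (List.range k).flatMap fun i => body i a) := by
    intro a k
    induction k with
    | zero => rfl
    | succ k ih =>
        rw [List.replicate_succ', List.foldl_append, ih, List.range_succ]
        simp [← List.replicate_succ, List.replicate_succ']
  have size : ∀ (a : α) (k : ℕ), ((List.range k).flatMap fun i => body i a).length ≤
      k * Qb.eval (k + csize a) := by
    intro a k
    have h0 : ∀ j ≤ k, ((List.range j).flatMap fun i => body i a).length ≤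
        j * Qb.eval (k + csize a) := by
      intro j
      induction j with
      | zero => simp
      | succ j ih =>
          intro hj
          rw [List.range_succ, List.flatMap_append, List.length_append, Nat.succ_mul]
          refine Nat.add_le_add (ih (by omega)) ?_
          have h2 := hQb (List.replicate j default, a)
          simp only [List.length_replicate, csize_prod, csize_list] at h2
          simpa using h2.trans (eval_mono _ (by omega))
    exact h0 k le_rfl
  have h := P.foldl (C := C) (l := fun a => List.replicate (cnt a) (default : Γ))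
    (s₀ := fun _ => (([], []) : List Γ × List Γ))
    (step := fun _ x => (((default : Γ) :: x.1.1), x.1.2 ++ body x.1.1.length x.2))
    (Qc + Qc * Qb.comp (Qc + X)) (hcnt.rep _) ((C.const []).pair (C.const []))
    (fun _ => (C.fst.fst.cons _).pair (C.fst.snd.append (hbody.comp (C.fst.fst.pair C.snd))))
    (fun a l' hl' => by
      obtain ⟨k, hk, hlk⟩ : ∃ k, k ≤ cnt a ∧ l' = List.replicate k default := by
        refine ⟨l'.length, ?_, ?_⟩
        · have := hl'.length_le
          simpa using this
        · rw [List.eq_replicate_iff]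
          refine ⟨rfl, fun b hb => ?_⟩
          exact List.eq_of_mem_replicate (hl'.subset hb)
      have hc : cnt a ≤ Qc.eval (csize a) := by simpa using hQc a
      rw [hlk]
      simp only
      rw [key, csize_prod, csize_list, csize_list, List.length_replicate]
      rw [Polynomial.eval_add, Polynomial.eval_mul, Polynomial.eval_comp, Polynomial.eval_add,
        Polynomial.eval_X]
      refine Nat.add_le_add (hk.trans hc) ((size a k).trans ?_)
      exact Nat.mul_le_mul (hk.trans hc) (eval_mono _ (by omega)))
  refine h.snd.congr fun a => ?_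
  simp only
  rw [key]

/-- the same, in decreasing order -/
theorem P.flatRangeRev {cnt : α → ℕ} {body : ℕ → α → List Γ} (hcnt : C.N cnt)
    (hbody : C.P fun x : List Γ × α => body x.1.length x.2) :
    C.P (fun a => (List.range (cnt a)).reverse.flatMap fun i => body i a) := by
  have h := P.flatRange (cnt := fun x : α => cnt x) (body := fun i a => body (cnt a - 1 - i) a)
    hcnt (by
      have h2 : C.N (fun x : List Γ × α => cnt x.2 - 1 - x.1.length) :=
        ((hcnt.comp C.snd).sub (N.const C 1)).sub C.fst.length
      exact (hbody.comp ((h2.rep default).pair C.snd)).congr fun x => by simp)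
  refine h.congr fun a => ?_
  rw [List.range_eq_range', List.reverse_range', List.flatMap_map]
  simp [List.range_eq_range']

/-- loop with a number as the result: `∑ i < cnt a, body i a` -/
theorem N.sumRange {cnt : α → ℕ} {body : ℕ → α → ℕ} (hcnt : C.N cnt)
    (hbody : C.N fun x : List Γ × α => body x.1.length x.2) :
    C.N (fun a => ∑ i ∈ Finset.range (cnt a), body i a) :=
  ⟨fun t => by
    refine (P.flatRange (body := fun i a => List.replicate (body i a) t) hcnt
      (hbody.rep t)).congr fun a => ?_
    generalize cnt a = k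
    induction k with
    | zero => simp
    | succ k ih =>
        rw [List.range_succ, List.flatMap_append, ih, Finset.sum_range_succ]
        simp⟩

end PolyClass

end Pool.Agent.PAH
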