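import Pool.Agent.PAH.Tools

set_option autoImplicit false
set_option linter.unusedSectionVars false

/-!
# Toolbox, part 2: blocks of a string, binary arithmetic
-/

namespace Pool.Agent.PAH

open Polynomial

/-! ### Binary numbers, least significant bit first -/

/-- value of a bit string -/
def bval : List Bool → ℕ
  | [] => 0
  | b :: l => b.toNat + 2 * bval l

@[simp] lemma bval_nil : bval [] = 0 := rfl
@[simp] lemma bval_cons (b : Bool) (l : List Bool) : bval (b :: l) = b.toNat + 2 * bval l := rfl

lemma bval_append (l l' : List Bool) : bval (l ++ l') = bval l + 2 ^ l.length * bval l' := by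
  induction l with
  | nil => simp
  | cons b l ih => simp only [List.cons_append, bval_cons, ih, List.length_cons, pow_succ]; ring

@[simp] lemma bval_replicate_false (k : ℕ) : bval (List.replicate k false) = 0 := by
  induction k with
  | zero => rfl
  | succ k ih => rw [List.replicate_succ]; simp [ih]

lemma bval_lt (l : List Bool) : bval l < 2 ^ l.length := by
  induction l with
  | nil => simp
  | cons b l ih =>
      simp only [bval_cons, List.length_cons, pow_succ]
      have : b.toNat ≤ 1 := Bool.toNat_le b
      omega

@[simp] lemma bval_bits (n : ℕ) : bval n.bits = n := by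
  induction n using Nat.binaryRec' with
  | zero => simp
  | bit b n h ih => rw [Nat.bits_append_bit _ _ h, bval_cons, ih, Nat.bit_val]; ring

lemma bits_bval_snoc (l : List Bool) : (bval (l ++ [true])).bits = l ++ [true] := by
  have hpos : ∀ l : List Bool, bval (l ++ [true]) ≠ 0 := by
    intro l
    rw [bval_append]
    simp
  induction l with
  | nil => simp
  | cons b l ih =>
      have h : bval (b :: l ++ [true]) = Nat.bit b (bval (l ++ [true])) := by
        rw [List.cons_append, bval_cons, Nat.bit_val]; ring
      rw [h, Nat.bits_append_bit _ _ (fun h0 => absurd h0 (hpos l)), ih]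
      rfl

/-- a bit string is its canonical form followed by zeros -/
lemma eq_bits_append (l : List Bool) :
    ∃ j, l = (bval l).bits ++ List.replicate j false := by
  induction l using List.reverseRecOn with
  | nil => exact ⟨0, by simp⟩
  | append_singleton l b ih =>
      cases b with
      | true => exact ⟨0, by rw [bits_bval_snoc]; simp⟩
      | false =>
          obtain ⟨j, hj⟩ := ih
          refine ⟨j + 1, ?_⟩
          have h : bval (l ++ [false]) = bval l := by rw [bval_append]; simp
          rw [h]
          conv_lhs => rw [hj]
          rw [List.append_assoc, List.replicate_succ']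

lemma bits_length_le {n k : ℕ} (h : n < 2 ^ k) : n.bits.length ≤ k := by
  rw [Nat.size_eq_bits_len]
  exact Nat.size_le.2 h

/-- `k` bits of the sum, with a carry -/
def addN : ℕ → Bool → List Bool → List Bool → List Bool
  | 0, _, _, _ => []
  | k + 1, c, x, y =>
      ((c ^^ x.headD false) ^^ y.headD false) ::
        addN k ((c && x.headD false) || (c && y.headD false) || (x.headD false && y.headD false))
          x.tail y.tail

@[simp] lemma addN_length (k : ℕ) (c : Bool) (x y : List Bool) : (addN k c x y).length = k := by
  induction k generalizing c x y with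
  | zero => rfl
  | succ k ih => simp [addN, ih]

lemma bval_head_tail (x : List Bool) : bval x = (x.headD false).toNat + 2 * bval x.tail := by
  cases x <;> simp

lemma bval_addN (k : ℕ) (c : Bool) (x y : List Bool) :
    bval (addN k c x y) = (c.toNat + bval x + bval y) % 2 ^ k := by
  induction k generalizing c x y with
  | zero => simp [addN, Nat.mod_one]
  | succ k ih =>
      rw [addN, bval_cons, ih, bval_head_tail x, bval_head_tail y]
      generalize bval x.tail = X
      generalize bval y.tail = Y
      generalize x.headD false = p
      generalize y.headD false = q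
      have key : c.toNat + (p.toNat + 2 * X) + (q.toNat + 2 * Y) =
          ((c ^^ p) ^^ q).toNat +
            2 * (((c && p) || (c && q) || (p && q)).toNat + X + Y) := by
        cases c <;> cases p <;> cases q <;> simp <;> ring
      rw [key]
      generalize ((c && p) || (c && q) || (p && q)).toNat + X + Y = Z
      have hb : ((c ^^ p) ^^ q).toNat ≤ 1 := Bool.toNat_le _
      generalize ((c ^^ p) ^^ q).toNat = b at *
      rw [pow_succ, mul_comm (2 ^ k) 2]
      have h1 : (b + 2 * Z) % (2 * 2 ^ k) = (b + 2 * (Z % 2 ^ k)) := by
        have h2 : Z = 2 ^ k * (Z / 2 ^ k) + Z % 2 ^ k := (Nat.div_add_mod _ _).symm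
        have h3 : b + 2 * (Z % 2 ^ k) < 2 * 2 ^ k := by
          have := Nat.mod_lt Z (show 0 < 2 ^ k by positivity)
          omega
        conv_lhs => rw [h2]
        have h4 : b + 2 * (2 ^ k * (Z / 2 ^ k) + Z % 2 ^ k) =
            b + 2 * (Z % 2 ^ k) + 2 * 2 ^ k * (Z / 2 ^ k) := by ring
        rw [h4, Nat.add_mul_mod_self_left, Nat.mod_eq_of_lt h3]
      rw [h1]

/-! ### Strings with separators -/

section blocks
variable {Γ : Type}

/-- the part of the string after the `k`-th separator -/
def skipTo (p : Γ → Bool) : ℕ → List Γ → List Γ
  | 0, l => l
  | _ + 1, [] => []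
  | k + 1, c :: l => if p c then skipTo p k l else skipTo p (k + 1) l

/-- the `k`-th block -/
def nthField (p : Γ → Bool) (k : ℕ) (l : List Γ) : List Γ :=
  (skipTo p k l).takeWhile fun c => !p c

lemma skipTo_append (p : Γ → Bool) (k : ℕ) (u l : List Γ) (hu : ∀ c ∈ u, p c = false) :
    skipTo p (k + 1) (u ++ l) = skipTo p (k + 1) l := by
  induction u with
  | nil => rfl
  | cons c u ih =>
      rw [List.cons_append, skipTo, if_neg (by simp [hu c]), ih fun d hd => hu d (by simp [hd])]

theorem skipTo_flatMap {ι : Type} (p : Γ → Bool) (f : ι → List Γ) (sep : Γ) (hsep : p sep = true)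
    (hf : ∀ i, ∀ c ∈ f i, p c = false) (L : List ι) (k : ℕ) :
    skipTo p k (L.flatMap fun i => f i ++ [sep]) = (L.drop k).flatMap fun i => f i ++ [sep] := by
  induction L generalizing k with
  | nil => cases k <;> simp [skipTo]
  | cons i L ih =>
      cases k with
      | zero => simp [skipTo]
      | succ k =>
          rw [List.flatMap_cons, List.append_assoc, skipTo_append p k _ _ (hf i),
            List.singleton_append, skipTo, if_pos hsep, ih, List.drop_succ_cons]

/-- the `k`-th block of a string which is built from blocks -/
theorem nthField_flatMap {ι : Type} (p : Γ → Bool) (f : ι → List Γ) (sep : Γ)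
    (hsep : p sep = true) (hf : ∀ i, ∀ c ∈ f i, p c = false) (L : List ι) (k : ℕ) :
    nthField p k (L.flatMap fun i => f i ++ [sep]) = (L[k]?).elim [] f := by
  rw [nthField, skipTo_flatMap p f sep hsep hf, ← List.head?_drop]
  rcases L.drop k with _ | ⟨i, M⟩
  · rfl
  · rw [List.flatMap_cons, List.append_assoc, List.takeWhile_append_of_pos (by
      intro c hc; simp [hf i c hc])]
    simp [hsep]

end blocks

namespace PolyClass

variable {Γ : Type} {C : PolyClass Γ} {α β γ σ : Type} [Ctx Γ α] [Ctx Γ β] [Ctx Γ γ] [Ctx Γ σ]

theorem P.count {t : α → List Γ} (ht : C.P t) (p : Γ → Bool) :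
    C.N (fun a => (t a).countP p) :=
  (ht.filter p).length.congr fun a => by rw [List.countP_eq_length_filter]

variable [Inhabited Γ]

theorem P.takeWhile {t : α → List Γ} (ht : C.P t) (p : Γ → Bool) :
    C.P (fun a => (t a).takeWhile p) := by
  classical
  have h := P.foldlAdd (C := C) (l := t) (s₀ := fun _ => (([], []) : List Γ × List Γ))
    (step := fun c x => match x.1.1 with
      | [] => if p c then ([], x.1.2 ++ [c]) else ([c], x.1.2)
      | _ :: _ => x.1) 1 ht ((C.const []).pair (C.const []))
    (fun c => P.cases (f₁ := fun _ x => x.1) C.fst.fst
      (by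
        by_cases hc : p c
        · simp only [hc, if_true]; exact (C.const []).pair (C.fst.snd.snoc c)
        · simp only [hc]; exact (C.const [c]).pair C.fst.snd) fun _ => C.fst)
    (fun c s a => by
      rcases s with ⟨_ | ⟨d, s⟩, u⟩
      · by_cases hc : p c <;> simp [hc] <;> omega
      · simp)
  refine h.snd.congr fun a => ?_
  have h1 : ∀ (l : List Γ) (d : Γ) (u s : List Γ), (l.foldl (fun (s : List Γ × List Γ) c =>
      match s.1 with
      | [] => if p c then ([], s.2 ++ [c]) else ([c], s.2)
      | _ :: _ => s) (d :: u, s)).2 = s := by
    intro l
    induction l with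
    | nil => intro d u s; simp
    | cons c l ih => intro d u s; rw [List.foldl_cons]; simp only; rw [ih]
  have h2 : ∀ (l : List Γ) (s : List Γ), (l.foldl (fun (s : List Γ × List Γ) c =>
      match s.1 with
      | [] => if p c then ([], s.2 ++ [c]) else ([c], s.2)
      | _ :: _ => s) ([], s)).2 = s ++ l.takeWhile p := by
    intro l
    induction l with
    | nil => intro s; simp
    | cons c l ih =>
        intro s
        rw [List.foldl_cons]
        by_cases hc : p c
        · simp only [hc, if_true, ih]; simp [hc]
        · simp only [hc]
          rw [List.takeWhile_cons_of_neg (by simpa using hc)]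
          simpa using h1 l c [] s
  simpa using h2 (t a) []

theorem P.skipTo {t : α → List Γ} {n : α → ℕ} (ht : C.P t) (hn : C.N n) (p : Γ → Bool) :
    C.P (fun a => skipTo p (n a) (t a)) := by
  have h := P.foldlAdd (C := C) (l := t)
    (s₀ := fun a => ((List.replicate (n a) default, []) : List Γ × List Γ))
    (step := fun c x => match x.1.1 with
      | [] => (x.1.1, x.1.2 ++ [c])
      | _ :: _ => if p c then (x.1.1.tail, x.1.2) else x.1) 1 ht ((hn.rep _).pair (C.const []))
    (fun c => P.cases (f₁ := fun _ x => if p c then (x.1.1.tail, x.1.2) else x.1) C.fst.fst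
      (C.fst.fst.pair (C.fst.snd.snoc c)) fun _ => by
        by_cases hc : p c
        · simp only [hc, if_true]; exact C.fst.fst.tail.pair C.fst.snd
        · simp only [hc]; exact C.fst)
    (fun c s a => by
      rcases s with ⟨_ | ⟨d, s⟩, u⟩
      · simp
      · by_cases hc : p c <;> simp [hc] <;> omega)
  refine h.snd.congr fun a => ?_
  have h2 : ∀ (l : List Γ) (k : ℕ) (s : List Γ), (l.foldl (fun (s : List Γ × List Γ) c =>
      match s.1 with
      | [] => (s.1, s.2 ++ [c])
      | _ :: _ => if p c then (s.1.tail, s.2) else s) (List.replicate k default, s)).2 =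
        s ++ Pool.Agent.PAH.skipTo p k l := by
    intro l
    induction l with
    | nil => intro k s; cases k <;> simp [Pool.Agent.PAH.skipTo]
    | cons c l ih =>
        intro k s
        rw [List.foldl_cons]
        cases k with
        | zero =>
            have := ih 0 (s ++ [c])
            simp only [List.replicate_zero, Pool.Agent.PAH.skipTo] at this ⊢
            rw [this]; simp
        | succ k =>
            rw [Pool.Agent.PAH.skipTo]
            by_cases hc : p c
            · simp only [List.replicate_succ, hc, if_true, List.tail_cons]
              exact ih k s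
            · have := ih (k + 1) s
              simp only [List.replicate_succ, hc] at this ⊢
              exact this
  simpa using h2 (t a) (n a) []

theorem P.nthField {t : α → List Γ} {n : α → ℕ} (ht : C.P t) (hn : C.N n) (p : Γ → Bool) :
    C.P (fun a => nthField p (n a) (t a)) :=
  (P.skipTo ht hn p).takeWhile _

theorem D.xor {p q : α → Prop} (hp : C.D p) (hq : C.D q) :
    C.D (fun a => (p a ∧ ¬ q a) ∨ (¬ p a ∧ q a)) :=
  (hp.and hq.not).or (hp.not.and hq)

end PolyClass

/-! ### Binary arithmetic -/

instance : Inhabited Sym := ⟨Sym.tick⟩

@[simp] lemma encBits_nil : encBits [] = [] := rfl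
@[simp] lemma encBits_cons (b : Bool) (l : List Bool) :
    encBits (b :: l) = Sym.bit b :: encBits l := rfl
@[simp] lemma encBits_append (l l' : List Bool) :
    encBits (l ++ l') = encBits l ++ encBits l' := List.map_append
@[simp] lemma encBits_length (l : List Bool) : (encBits l).length = l.length := List.length_map _
lemma encBits_tail (l : List Bool) : (encBits l).tail = encBits l.tail := by cases l <;> rfl
lemma encBits_head (l : List Bool) :
    (encBits l).head? = some (Sym.bit true) ↔ l.headD false = true := by
  cases l with
  | nil => simp
  | cons b l => cases b <;> simp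

/-- one step of the addition: carry, summands, output -/
noncomputable def addStep (s : List Sym × List Sym × List Sym × List Sym) :
    List Sym × List Sym × List Sym × List Sym :=
  open Classical in
  let c := ¬ s.1 = []
  let x := s.2.1.head? = some (Sym.bit true)
  let y := s.2.2.1.head? = some (Sym.bit true)
  let u := (c ∧ ¬ x) ∨ (¬ c ∧ x)
  (if ((c ∧ x) ∨ (c ∧ y)) ∨ (x ∧ y) then [Sym.tick] else [], s.2.1.tail, s.2.2.1.tail,
    s.2.2.2 ++ (if (u ∧ ¬ y) ∨ (¬ u ∧ y) then [Sym.bit true] else [Sym.bit false]))

def encCarry (c : Bool) : List Sym := if c then [Sym.tick] else []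

lemma addStep_enc (c : Bool) (x y : List Bool) (o : List Sym) :
    addStep (encCarry c, encBits x, encBits y, o) =
      (encCarry ((c && x.headD false) || (c && y.headD false) || (x.headD false && y.headD false)),
        encBits x.tail, encBits y.tail,
        o ++ [Sym.bit ((c ^^ x.headD false) ^^ y.headD false)]) := by
  have hc : encCarry c = [] ↔ c = false := by cases c <;> simp [encCarry]
  unfold addStep
  simp only [encBits_head, encBits_tail, hc]
  generalize x.headD false = p
  generalize y.headD false = q
  cases c <;> cases p <;> cases q <;> simp [encCarry]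

lemma addStep_foldl (z : List Sym) (c : Bool) (x y : List Bool) (o : List Sym) :
    (z.foldl (fun s _ => addStep s) (encCarry c, encBits x, encBits y, o)).2.2.2 =
      o ++ encBits (addN z.length c x y) := by
  induction z generalizing c x y o with
  | nil => simp [addN]
  | cons d z ih =>
      rw [List.foldl_cons, addStep_enc, ih, List.length_cons, addN]
      simp

namespace PolyClass

variable {C : PolyClass Sym} {α β γ σ : Type} [Ctx Sym α] [Ctx Sym β] [Ctx Sym γ] [Ctx Sym σ]

/-- the binary digits of `n` can be printed -/
structure B (C : PolyClass Sym) (n : α → ℕ) : Prop where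
  bits : C.P fun a => encBits (n a).bits

theorem B.congr {n m : α → ℕ} (hn : C.B n) (h : ∀ a, n a = m a) : C.B m := by
  have : n = m := funext h
  rw [← this]; exact hn

theorem B.comp {n : β → ℕ} {f : α → β} (hn : C.B n) (hf : C.P f) : C.B (fun a => n (f a)) :=
  ⟨hn.bits.comp hf⟩

theorem B.const (C : PolyClass Sym) (k : ℕ) : C.B (fun _ : α => k) := ⟨C.const _⟩

/-- removing leading zeros -/
theorem P.norm {f : α → List Bool} (hf : C.P fun a => encBits (f a)) :
    C.B (fun a => bval (f a)) := by
  have h := P.foldlAdd (C := C) (l := fun a => encBits (f a))
    (s₀ := fun _ => (([], []) : List Sym × List Sym))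
    (step := fun c x => if c = Sym.bit true then (x.1.1 ++ x.1.2 ++ [Sym.bit true], [])
      else if c = Sym.bit false then (x.1.1, x.1.2 ++ [Sym.bit false]) else x.1) 1 hf
    ((C.const []).pair (C.const []))
    (fun c => by
      by_cases h1 : c = Sym.bit true
      · simp only [h1, if_true]
        exact ((C.fst.fst.append C.fst.snd).snoc _).pair (C.const [])
      · by_cases h2 : c = Sym.bit false
        · simp only [h2, if_true]
          exact C.fst.fst.pair (C.fst.snd.snoc _)
        · simp only [h1, h2, if_false]
          exact C.fst)
    (fun c s a => by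
      by_cases h1 : c = Sym.bit true
      · simp [h1]; omega
      · by_cases h2 : c = Sym.bit false
        · simp [h2]; omega
        · simp [h1, h2])
  refine ⟨h.fst.congr fun a => ?_⟩
  have key : ∀ l : List Bool, ∃ j, l = (bval l).bits ++ List.replicate j false ∧
      (encBits l).foldl (fun (s : List Sym × List Sym) c =>
        if c = Sym.bit true then (s.1 ++ s.2 ++ [Sym.bit true], [])
        else if c = Sym.bit false then (s.1, s.2 ++ [Sym.bit false]) else s) ([], []) =
      (encBits (bval l).bits, encBits (List.replicate j false)) := by
    intro l
    induction l using List.reverseRecOn with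
    | nil => exact ⟨0, by simp⟩
    | append_singleton l b ih =>
        obtain ⟨j, hj, ih⟩ := ih
        cases b with
        | true =>
            refine ⟨0, by rw [bits_bval_snoc]; simp, ?_⟩
            rw [bits_bval_snoc, encBits_append, List.foldl_append, ih]
            have h2 : encBits (l ++ [true]) =
                encBits (bval l).bits ++ encBits (List.replicate j false) ++ [Sym.bit true] := by
              conv_lhs => rw [hj]
              simp
            rw [← encBits_append, h2]
            simp
        | false =>
            refine ⟨j + 1, ?_, ?_⟩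
            · have h : bval (l ++ [false]) = bval l := by rw [bval_append]; simp
              rw [h]
              conv_lhs => rw [hj]
              rw [List.append_assoc, List.replicate_succ']
            · have h : bval (l ++ [false]) = bval l := by rw [bval_append]; simp
              rw [h, encBits_append, List.foldl_append, ih, List.replicate_succ']
              simp
  obtain ⟨j, _, hj⟩ := key (f a)
  simp only
  rw [hj]

theorem P.addStep : C.P Pool.Agent.PAH.addStep := by
  classical
  have hc : C.D fun s : List Sym × List Sym × List Sym × List Sym => ¬ s.1 = [] :=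
    (D.nil C.fst).not
  have hx : C.D fun s : List Sym × List Sym × List Sym × List Sym =>
      s.2.1.head? = some (Sym.bit true) := D.head C.snd.fst _
  have hy : C.D fun s : List Sym × List Sym × List Sym × List Sym =>
      s.2.2.1.head? = some (Sym.bit true) := D.head C.snd.snd.fst _
  refine P.pair ?_ (P.pair C.snd.fst.tail (P.pair C.snd.snd.fst.tail
    (P.append C.snd.snd.snd ?_)))
  · exact D.ite (((hc.and hx).or (hc.and hy)).or (hx.and hy)) (C.const _) (C.const _)
  · exact D.ite ((hc.xor hx).xor hy) (C.const _) (C.const _)

lemma addStep_csize (s : List Sym × List Sym × List Sym × List Sym) :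
    csize (Pool.Agent.PAH.addStep s) ≤ csize s + 2 := by
  unfold Pool.Agent.PAH.addStep
  simp only [csize_prod, csize_list, List.length_append, List.length_tail]
  split_ifs <;> simp <;> omega

/-- fixed width addition -/
theorem P.addN {x y : α → List Bool} {z : α → List Sym} (hx : C.P fun a => encBits (x a))
    (hy : C.P fun a => encBits (y a)) (hz : C.P z) (c : Bool) :
    C.P (fun a => encBits (addN (z a).length c (x a) (y a))) := by
  have h := P.foldlAdd (C := C) (l := z)
    (s₀ := fun a => (encCarry c, encBits (x a), encBits (y a), ([] : List Sym)))
    (step := fun _ w => Pool.Agent.PAH.addStep w.1) 2 hz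
    ((C.const _).pair (hx.pair (hy.pair (C.const [])))) (fun _ => P.addStep.comp C.fst)
    (fun c s a => by simpa using addStep_csize s)
  refine h.snd.snd.snd.congr fun a => ?_
  simp only
  rw [addStep_foldl]
  simp

/-- addition of bit strings -/
theorem P.addBits {x y : α → List Bool} (hx : C.P fun a => encBits (x a))
    (hy : C.P fun a => encBits (y a)) : C.B (fun a => bval (x a) + bval (y a)) := by
  refine (P.norm (P.addN hx hy ((hx.append hy).snoc Sym.tick) false)).congr fun a => ?_
  rw [bval_addN]
  have h1 := bval_lt (x a)
  have h2 := bval_lt (y a)
  simp only [Bool.toNat_false, zero_add, List.length_append, encBits_length, List.length_cons,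
    List.length_nil]
  apply Nat.mod_eq_of_lt
  calc bval (x a) + bval (y a) < 2 ^ (x a).length + 2 ^ (y a).length := by omega
    _ ≤ 2 ^ ((x a).length + (y a).length) + 2 ^ ((x a).length + (y a).length) :=
        Nat.add_le_add (Nat.pow_le_pow_right (by norm_num) (by omega))
          (Nat.pow_le_pow_right (by norm_num) (by omega))
    _ = 2 ^ ((x a).length + (y a).length + (0 + 1)) := by rw [← two_mul, zero_add, pow_succ]; ring

theorem B.add {n m : α → ℕ} (hn : C.B n) (hm : C.B m) : C.B (fun a => n a + m a) :=
  (P.addBits hn.bits hm.bits).congr fun a => by simp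

theorem B.pow2 {n : α → ℕ} (hn : C.N n) : C.B (fun a => 2 ^ n a) :=
  (P.norm (f := fun a => List.replicate (n a) false ++ [true])
    (((hn.rep (Sym.bit false)).snoc (Sym.bit true)).congr fun a => by
      simp [encBits])).congr fun a => by rw [bval_append]; simp

/-- subtraction, when the result is not negative -/
theorem B.sub {n m : α → ℕ} (hn : C.B n) (hm : C.B m) (h : ∀ a, m a ≤ n a) :
    C.B (fun a => n a - m a) := by
  have h1 : C.P fun a => encBits (((m a).bits ++
      List.replicate ((n a).bits.length + 1) false).map not) :=
    ((hm.bits.append ((hn.bits.length.add (N.const C 1)).rep (Sym.bit false))).map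
      (fun c => if c = Sym.bit true then Sym.bit false else Sym.bit true)).congr fun a => by
      simp only [encBits, List.map_append, List.map_map, List.map_replicate]
      congr 1
      · apply List.map_congr_left; intro b _; cases b <;> simp
      · simp
  refine (P.norm (P.addN hn.bits h1 ((hn.bits.append hm.bits).snoc Sym.tick) true)).congr
    fun a => ?_
  rw [bval_addN]
  have h2 : ∀ l : List Bool, bval (l.map not) + bval l + 1 = 2 ^ l.length := by
    intro l
    induction l with
    | nil => simp
    | cons b l ih =>
        simp only [List.map_cons, bval_cons, List.length_cons, pow_succ]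
        cases b <;> simp <;> omega
  have h3 := h2 ((m a).bits ++ List.replicate ((n a).bits.length + 1) false)
  have h4 : bval ((m a).bits ++ List.replicate ((n a).bits.length + 1) false) = m a := by
    rw [bval_append]; simp
  rw [h4] at h3
  simp only [List.length_append, encBits_length, List.length_cons, List.length_replicate,
    List.length_nil, bval_bits, Bool.toNat_true] at h3 ⊢
  have h5 : n a < 2 ^ (n a).bits.length := by
    have := bval_lt (n a).bits
    rwa [bval_bits] at this
  have h6 : 2 ^ (n a).bits.length ≤ 2 ^ ((n a).bits.length + (m a).bits.length + (0 + 1)) :=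
    Nat.pow_le_pow_right (by norm_num) (by omega)
  have h7 : (n a).bits.length + (m a).bits.length + (0 + 1) =
    (m a).bits.length + ((n a).bits.length + 1) := by ring
  have h8 := h a
  rw [h7] at h6 ⊢
  have h9 : 1 + n a + bval (((m a).bits ++
      List.replicate ((n a).bits.length + 1) false).map not) =
      (n a - m a) + 2 ^ ((m a).bits.length + ((n a).bits.length + 1)) := by omega
  rw [h9, Nat.add_mod_right, Nat.mod_eq_of_lt (by omega)]

end PolyClass

/-- read a string as a bit string -/
noncomputable def decB (l : List Sym) : List Bool :=
  open Classical in l.map fun c => decide (c = Sym.bit true)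

@[simp] lemma decB_encBits (l : List Bool) : decB (encBits l) = l := by
  unfold decB encBits
  rw [List.map_map]
  conv_rhs => rw [← List.map_id l]
  apply List.map_congr_left
  intro b _
  cases b <;> simp

/-- addition on strings -/
noncomputable def addS (s : List Sym × List Sym) : List Sym :=
  encBits (bval (decB s.1) + bval (decB s.2)).bits

lemma addS_enc (x y : List Bool) :
    addS (encBits x, encBits y) = encBits (bval x + bval y).bits := by
  simp [addS]

namespace PolyClass

variable {C : PolyClass Sym} {α β γ σ : Type} [Ctx Sym α] [Ctx Sym β] [Ctx Sym γ] [Ctx Sym σ]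

theorem P.decB {f : α → List Sym} (hf : C.P f) : C.P fun a => encBits (decB (f a)) := by
  classical
  refine (hf.map fun c => if c = Sym.bit true then Sym.bit true else Sym.bit false).congr
    fun a => ?_
  unfold Pool.Agent.PAH.decB encBits
  rw [List.map_map]
  apply List.map_congr_left
  intro c _
  by_cases h : c = Sym.bit true <;> simp [h]

theorem P.addS : C.P Pool.Agent.PAH.addS := (P.addBits C.fst.decB C.snd.decB).bits

lemma prefix_replicate {Γ : Type} {c : Γ} {k : ℕ} {l : List Γ} (h : l <+: List.replicate k c) :
    l.length ≤ k ∧ l = List.replicate l.length c := by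
  refine ⟨by simpa using h.length_le, ?_⟩
  rw [List.eq_replicate_iff]
  exact ⟨rfl, fun b hb => List.eq_of_mem_replicate (h.subset hb)⟩

lemma prefix_encBits {x : List Bool} {l : List Sym} (h : l <+: encBits x) :
    ∃ x', x' <+: x ∧ l = encBits x' := by
  refine ⟨x.take l.length, List.take_prefix _ _, ?_⟩
  conv_lhs => rw [List.prefix_iff_eq_take.1 h]
  exact (List.map_take ..).symm

/-- binary digits of a number given in unary -/
theorem N.toB {n : α → ℕ} (hn : C.N n) : C.B n := by
  obtain ⟨Q, hQ⟩ := (hn.rep Sym.tick).bound
  have key : ∀ k : ℕ, (List.replicate k Sym.tick).foldl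
      (fun (s : List Sym) _ => Pool.Agent.PAH.addS (s, [Sym.bit true])) [] = encBits k.bits := by
    intro k
    induction k with
    | zero => simp
    | succ k ih =>
        rw [List.replicate_succ', List.foldl_append, ih]
        have h1 : [Sym.bit true] = encBits [true] := rfl
        simp only [List.foldl_cons, List.foldl_nil]
        rw [h1, addS_enc]
        simp
  have h := P.foldl (C := C) (l := fun a => List.replicate (n a) Sym.tick)
    (s₀ := fun _ => ([] : List Sym))
    (step := fun _ x => Pool.Agent.PAH.addS (x.1, [Sym.bit true])) Q (hn.rep _) (C.const [])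
    (fun _ => P.addS.comp (C.fst.pair (C.const _))) (fun a l' hl' => by
      obtain ⟨h1, h2⟩ := prefix_replicate hl'
      rw [h2]
      simp only
      rw [key, csize_list, encBits_length]
      refine (bits_length_le (Nat.lt_two_pow_self)).trans (h1.trans ?_)
      simpa using hQ a)
  refine ⟨h.congr fun a => ?_⟩
  simp only
  rw [key]

/-- multiplication of bit strings -/
theorem P.mulBits {x y : α → List Bool} (hx : C.P fun a => encBits (x a))
    (hy : C.P fun a => encBits (y a)) : C.B (fun a => bval (x a) * bval (y a)) := by
  classical
  obtain ⟨Qx, hQx⟩ := hx.bound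
  obtain ⟨Qy, hQy⟩ := hy.bound
  have key : ∀ (x y : List Bool), (encBits x).foldl (fun (s : List Sym × List Sym) c =>
      if c = Sym.bit true then (Sym.bit false :: s.1, Pool.Agent.PAH.addS (s.2, s.1))
      else if c = Sym.bit false then (Sym.bit false :: s.1, s.2) else s) (encBits y, []) =
      (encBits (List.replicate x.length false ++ y), encBits (bval x * bval y).bits) := by
    intro x y
    induction x using List.reverseRecOn with
    | nil => simp
    | append_singleton x b ih =>
        rw [encBits_append, List.foldl_append, ih, List.length_append, List.length_singleton,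
          List.replicate_succ, bval_append]
        cases b
        · simp
        · simp only [encBits_cons, encBits_nil, List.foldl_cons, List.foldl_nil, if_true]
          rw [addS_enc, bval_append]
          simp only [bval_bits, bval_replicate_false, List.length_replicate, bval_cons, bval_nil,
            Bool.toNat_true]
          congr 3
          ring
  have h := P.foldl (C := C) (l := fun a => encBits (x a))
    (s₀ := fun a => (encBits (y a), ([] : List Sym)))
    (step := fun c w => if c = Sym.bit true then
      (Sym.bit false :: w.1.1, Pool.Agent.PAH.addS (w.1.2, w.1.1))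
      else if c = Sym.bit false then (Sym.bit false :: w.1.1, w.1.2) else w.1)
    (2 * (Qx + Qy)) hx (hy.pair (C.const []))
    (fun c => by
      by_cases h1 : c = Sym.bit true
      · simp only [h1, if_true]
        exact (C.fst.fst.cons _).pair (P.addS.comp (C.fst.snd.pair C.fst.fst))
      · by_cases h2 : c = Sym.bit false
        · simp only [h2, if_true]
          exact (C.fst.fst.cons _).pair C.fst.snd
        · simp only [h1, h2, if_false]
          exact C.fst)
    (fun a l' hl' => by
      obtain ⟨x', hx', rfl⟩ := prefix_encBits hl'
      simp only
      rw [key]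
      have h1 : x'.length ≤ Qx.eval (csize a) := by
        refine hx'.length_le.trans ?_
        simpa using hQx a
      have h2 : (y a).length ≤ Qy.eval (csize a) := by simpa using hQy a
      have h3 : (bval x' * bval (y a)).bits.length ≤ x'.length + (y a).length := by
        apply bits_length_le
        rw [pow_add]
        exact Nat.mul_lt_mul'' (bval_lt _) (bval_lt _)
      simp only [csize_prod, csize_list, encBits_length, List.length_append,
        List.length_replicate, Polynomial.eval_mul, Polynomial.eval_add, Polynomial.eval_ofNat]
      omega)
  refine ⟨h.snd.congr fun a => ?_⟩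
  simp only
  rw [key]

theorem B.mul {n m : α → ℕ} (hn : C.B n) (hm : C.B m) : C.B (fun a => n a * m a) :=
  (P.mulBits hn.bits hm.bits).congr fun a => by simp

/-- powers with a constant exponent -/
theorem B.pow {n : α → ℕ} (hn : C.B n) (k : ℕ) : C.B (fun a => n a ^ k) := by
  induction k with
  | zero => exact (B.const C 1).congr fun a => by simp
  | succ k ih => exact (ih.mul hn).congr fun a => by rw [pow_succ]

theorem B.ite {p : α → Prop} {n m : α → ℕ} [DecidablePred p] (hp : C.D p) (hn : C.B n)
    (hm : C.B m) : C.B (fun a => if p a then n a else m a) :=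
  ⟨(hp.ite hn.bits hm.bits).congr fun a => by split_ifs <;> rfl⟩

end PolyClass

end Pool.Agent.PAH
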